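import Pool.Agent.P.MP_59bdab_ag.IfC

namespace Pool.Agent.P.MP_59bdab_ag

open Matrix MeasureTheory Filter Topology
open scoped ENNReal ContDiff

theorem p_AMB : S_AMB := by
  intro ι _ _ ψ A hA hAH
  have hemb : MeasurableEmbedding (Subtype.val : HH ι → Sym2 ι → ℂ) :=
    MeasurableEmbedding.subtype_coe (isOpen_HS ι).measurableSet
  have hS : MeasurableSet {Z : HH ι | Z.1 ∈ A} := hemb.measurable hA
  have hd : Measurable fun Z : HH ι => ENNReal.ofReal (((Ym Z).det ^ (Fintype.card ι + 1))⁻¹) :=
    ((continuous_Ym.matrix_det.pow _).measurable.inv).ennreal_ofReal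
  have hc : ∀ Z : HH ι, (ENNReal.ofReal (((Ym Z).det ^ (Fintype.card ι + 1))⁻¹)).toReal •
      (ψ Z.1 * (((Ym Z).det ^ (Fintype.card ι + 1) : ℝ) : ℂ)) = ψ Z.1 := by
    intro Z
    have hp : 0 < (Ym Z).det ^ (Fintype.card ι + 1) := pow_pos (Ym_det_pos Z) _
    rw [ENNReal.toReal_ofReal (inv_nonneg.2 hp.le), Complex.real_smul, mul_left_comm,
      ← Complex.ofReal_mul, inv_mul_cancel₀ hp.ne', Complex.ofReal_one, mul_one]
  have hm : (Measure.map (Subtype.val : HH ι → Sym2 ι → ℂ)
      (Measure.comap Subtype.val volume)).restrict A = volume.restrict A := by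
    rw [map_comap_subtype_coe (isOpen_HS ι).measurableSet, Measure.restrict_restrict hA,
      Set.inter_eq_left.2 hAH]
  constructor
  · rw [IntegrableOn, μH, restrict_withDensity hS,
      integrable_withDensity_iff_integrable_smul' hd
        (Eventually.of_forall fun _ => ENNReal.ofReal_lt_top)]
    simp only [hc]
    rw [IntegrableOn, ← hm]
    exact (hemb.integrableOn_map_iff (f := ψ) (s := A)).symm
  · rw [μH, restrict_withDensity hS, integral_withDensity_eq_integral_toReal_smul hd
        (Eventually.of_forall fun _ => ENNReal.ofReal_lt_top)]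
    simp only [hc]
    rw [← hm]
    exact (hemb.setIntegral_map ψ A).symm

end Pool.Agent.P.MP_59bdab_ag
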