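import Pool.Agent.P.MP_59bdab_ag.IfB

/-!
Lebesgue measure on symmetric matrices in block coordinates.
-/

namespace Pool.Agent.P.MP_59bdab_ag

open Matrix MeasureTheory Filter Topology
open scoped ENNReal ComplexOrder

namespace ASM

/-- Real and imaginary parts. -/
def cx {κ : Type} (x y : κ → ℝ) : κ → ℂ := fun a => (x a : ℂ) + Complex.I * y a

theorem continuous_cx {κ : Type} : Continuous fun p : (κ → ℝ) × (κ → ℝ) => cx p.1 p.2 := by
  unfold cx
  fun_prop

theorem lint_cx {κ : Type} [Fintype κ] (G : (κ → ℂ) → ℝ≥0∞) (hG : Measurable G) :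
    ∫⁻ u, G u = ∫⁻ y, ∫⁻ x, G (cx x y) := by
  have h1 := (volume_preserving_pi fun _ : κ =>
    Complex.volume_preserving_equiv_real_prod.symm).comp
    (volume_measurePreserving_arrowProdEquivProdArrow ℝ ℝ κ).symm
  have h2 : MeasurePreserving (fun p : (κ → ℝ) × (κ → ℝ) => cx p.1 p.2) volume volume := by
    refine (congrArg (fun f => MeasurePreserving f volume volume) ?_).mp h1
    funext p a
    apply Complex.ext
    · simp [cx]; rfl
    · simp [cx]; rfl
  rw [← h2.lintegral_comp hG, Measure.volume_eq_prod]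
  exact lintegral_prod_symm _ (hG.comp continuous_cx.measurable).aemeasurable

theorem continuous_elim {α β : Type} :
    Continuous fun p : (α → ℂ) × (β → ℂ) => Sum.elim p.1 p.2 := by
  refine continuous_pi fun a => ?_
  rcases a with a | a
  · exact (continuous_apply a).comp continuous_fst
  · exact (continuous_apply a).comp continuous_snd

theorem lint_sum {α β : Type} [Fintype α] [Fintype β] (G : (α ⊕ β → ℂ) → ℝ≥0∞)
    (hG : Measurable G) : ∫⁻ u, G u = ∫⁻ a, ∫⁻ b, G (Sum.elim a b) := by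
  have h1 := volume_measurePreserving_sumPiEquivProdPi_symm fun _ : α ⊕ β => ℂ
  have h2 : MeasurePreserving (fun p : (α → ℂ) × (β → ℂ) => Sum.elim p.1 p.2) volume volume := by
    refine (congrArg (fun f => MeasurePreserving f volume volume) ?_).mp h1
    funext p a
    rcases a with a | a <;> rfl
  rw [← h2.lintegral_comp hG, Measure.volume_eq_prod]
  exact lintegral_prod _ (hG.comp continuous_elim.measurable).aemeasurable

theorem lint_equiv {α β : Type} [Fintype α] [Fintype β] (e : α ≃ β) (G : (α → ℂ) → ℝ≥0∞)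
    (hG : Measurable G) : ∫⁻ u, G u = ∫⁻ v : β → ℂ, G (v ∘ e) := by
  have h1 := volume_preserving_arrowCongr' e.symm (MeasurableEquiv.refl ℂ)
    (MeasurePreserving.id volume)
  rw [← h1.lintegral_comp hG]
  rfl

variable {ι₁ ι₂ : Type}

/-- The three kinds of unordered pairs. -/
def toK : Sym2 (ι₁ ⊕ ι₂) → Sym2 ι₁ ⊕ ((ι₁ × ι₂) ⊕ Sym2 ι₂) :=
  Sym2.lift ⟨fun a b => match a, b with
    | .inl i, .inl j => .inl s(i, j)
    | .inl i, .inr j => .inr (.inl (i, j))
    | .inr i, .inl j => .inr (.inl (j, i))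
    | .inr i, .inr j => .inr (.inr s(i, j)), by
    rintro (i | i) (j | j) <;> simp [Sym2.eq_swap]⟩

/-- The decomposition of unordered pairs in a sum type. -/
def eK : Sym2 (ι₁ ⊕ ι₂) ≃ Sym2 ι₁ ⊕ ((ι₁ × ι₂) ⊕ Sym2 ι₂) where
  toFun := toK
  invFun := Sum.elim (Sym2.map Sum.inl)
    (Sum.elim (fun p => s(Sum.inl p.1, Sum.inr p.2)) (Sym2.map Sum.inr))
  left_inv p := by
    induction p using Sym2.ind with
    | _ a b => rcases a with i | i <;> rcases b with j | j <;> simp [toK, Sym2.eq_swap]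
  right_inv := by
    rintro (p | p | p)
    · induction p using Sym2.ind with
      | _ a b => simp [toK]
    · simp [toK]
    · induction p using Sym2.ind with
      | _ a b => simp [toK]

/-- A symmetric matrix from complex blocks. -/
def glue (τ : Sym2 ι₁ → ℂ) (u : ι₁ × ι₂ → ℂ) (V : Sym2 ι₂ → ℂ) : Sym2 (ι₁ ⊕ ι₂) → ℂ :=
  Sum.elim τ (Sum.elim u V) ∘ eK

theorem continuous_glue :
    Continuous fun p : (Sym2 ι₁ → ℂ) × (ι₁ × ι₂ → ℂ) × (Sym2 ι₂ → ℂ) => glue p.1 p.2.1 p.2.2 :=
  continuous_pi fun q => (continuous_apply (eK q)).comp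
    (continuous_elim.comp (continuous_fst.prodMk (continuous_elim.comp continuous_snd)))

theorem asm_eq (τ : Sym2 ι₁ → ℂ) (x y : ι₁ × ι₂ → ℝ) (X Y : Sym2 ι₂ → ℝ) :
    asm τ x y X Y = glue τ (cx x y) (cx X Y) := by
  funext p
  induction p using Sym2.ind with
  | _ a b =>
    rcases a with i | i <;> rcases b with j | j <;> simp [asm, glue, eK, toK, cx, Sym2.eq_swap]

end ASM

open ASM in
theorem p_ASM : S_ASM := by
  intro ι₁ ι₂ _ _ _ _
  have hc : Continuous (fun a : (Sym2 ι₁ → ℂ) × (ι₁ × ι₂ → ℝ) × (ι₁ × ι₂ → ℝ) × (Sym2 ι₂ → ℝ) ×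
      (Sym2 ι₂ → ℝ) => asm a.1 a.2.1 a.2.2.1 a.2.2.2.1 a.2.2.2.2) := by
    simp only [asm_eq]
    exact continuous_glue.comp (continuous_fst.prodMk
      ((continuous_cx.comp (continuous_snd.fst.prodMk continuous_snd.snd.fst)).prodMk
        (continuous_cx.comp continuous_snd.snd.snd)))
  refine ⟨hc, fun τ x y X Y => ⟨?_, ?_, ?_⟩, fun F hF => ?_⟩
  · ext a b
    rcases a with i | i <;> rcases b with j | j <;> simp [asm_eq, glue, eK, toK, cx]
  · ext a b
    rcases a with i | i <;> rcases b with j | j <;> simp [asm_eq, glue, eK, toK, cx]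
  · funext p
    induction p using Sym2.ind with
    | _ a b => simp [asm_eq, glue, eK, toK]
  · have hm : Measurable fun v : Sym2 ι₁ ⊕ ((ι₁ × ι₂) ⊕ Sym2 ι₂) → ℂ => F (v ∘ eK) :=
      hF.comp (measurable_pi_lambda _ fun q => measurable_pi_apply (eK q))
    rw [lint_equiv eK F hF, lint_sum _ hm]
    refine lintegral_congr fun τ => ?_
    have hm2 : Measurable fun b : (ι₁ × ι₂) ⊕ Sym2 ι₂ → ℂ => F (Sum.elim τ b ∘ eK) :=
      hm.comp (continuous_elim.comp (continuous_const.prodMk continuous_id)).measurable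
    rw [lint_sum _ hm2]
    have hg : Measurable fun p : (ι₁ × ι₂ → ℂ) × (Sym2 ι₂ → ℂ) => F (glue τ p.1 p.2) :=
      hF.comp (continuous_glue.comp (continuous_const.prodMk continuous_id)).measurable
    show ∫⁻ u, ∫⁻ V, F (glue τ u V) = _
    rw [lint_cx _ hg.lintegral_prod_right']
    refine lintegral_congr fun y => ?_
    have h3 : ∀ x : ι₁ × ι₂ → ℝ, ∫⁻ V, F (glue τ (cx x y) V) =
        ∫⁻ Y, ∫⁻ X, F (asm τ x y X Y) := by
      intro x
      simp only [asm_eq]
      exact lint_cx _ (hg.comp (measurable_const.prodMk measurable_id))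
    simp only [h3]
    refine lintegral_lintegral_swap ?_
    have h4 : Measurable fun p : ((ι₁ × ι₂ → ℝ) × (Sym2 ι₂ → ℝ)) × (Sym2 ι₂ → ℝ) =>
        F (asm τ p.1.1 y p.2 p.1.2) :=
      hF.comp (hc.comp (continuous_const.prodMk (continuous_fst.fst.prodMk
        (continuous_const.prodMk (continuous_snd.prodMk continuous_fst.snd))))).measurable
    exact h4.lintegral_prod_right'.aemeasurable

end Pool.Agent.P.MP_59bdab_ag
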