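import Pool.Agent.P.MP_59bdab_ag.IfC

/-!
Barrier functions exist.
-/

namespace Pool.Agent.P.MP_59bdab_ag

open Matrix MeasureTheory Filter Topology
open scoped ENNReal ContDiff

namespace BAR

theorem exists_cut {m s' : ℝ} (h : m < s') : ∃ k : ℝ → ℝ, ContDiff ℝ ∞ k ∧ Antitone k ∧
    (∀ t, 0 ≤ k t) ∧ (∀ t, k t ≤ 1) ∧ (∀ t, t ≤ m → k t = 1) ∧ ∀ t, s' ≤ t → k t = 0 := by
  have h0 : 0 < s' - m := sub_pos.2 h
  refine ⟨fun t => Real.smoothTransition ((s' - t) / (s' - m)), ?_, fun x y hxy => ?_,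
    fun t => Real.smoothTransition.nonneg _, fun t => Real.smoothTransition.le_one _,
    fun t ht => Real.smoothTransition.one_of_one_le ?_,
    fun t ht => Real.smoothTransition.zero_of_nonpos ?_⟩
  · exact Real.smoothTransition.contDiff.comp (by fun_prop)
  · exact Real.smoothTransition.monotone (by gcongr)
  · rw [le_div_iff₀ h0]
    linarith
  · exact div_nonpos_of_nonpos_of_nonneg (by linarith) h0.le

end BAR

theorem p_BAR : S_BAR := by
  intro s s' h0 h1 h2
  obtain ⟨m, m1, m2⟩ := exists_between h1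
  obtain ⟨k, k1, k2, k3, k4, k5, k6⟩ := BAR.exists_cut m2
  let b : ℝ → ℝ := fun t => if s < t then k t / (t - s) else 0
  let β : ℝ → ℝ := fun t => if s < t then ∫ x in t..s', b x else 0
  have eb : ∀ t, s < t → b t = k t / (t - s) := fun t ht => if_pos ht
  have eβ : ∀ t, s < t → β t = ∫ x in t..s', b x := fun t ht => if_pos ht
  have sb : ContDiffOn ℝ ∞ b (Set.Ioi s) :=
    (k1.contDiffOn.div (by fun_prop) fun t ht => (sub_pos.2 ht).ne').congr eb
  have b0 : ∀ t, s < t → 0 ≤ b t := fun t ht => by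
    rw [eb t ht]
    exact div_nonneg (k3 t) (sub_pos.2 ht).le
  have bz : ∀ t, s' ≤ t → b t = 0 := fun t ht => by
    rw [eb t (h1.trans_le ht), k6 t ht, zero_div]
  have b1 : ∀ t, s < t → t ≤ m → b t = (t - s)⁻¹ := fun t ht ht' => by
    rw [eb t ht, k5 t ht', one_div]
  have ib : ∀ x y, s < x → s < y → IntervalIntegrable b volume x y := fun x y hx hy =>
    (sb.continuousOn.mono fun z hz => (lt_min hx hy).trans_le hz.1).intervalIntegrable
  have dβ : ∀ t, s < t → HasDerivAt β (-b t) t := fun t ht =>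
    (intervalIntegral.integral_hasDerivAt_left (ib t s' ht h1)
      (sb.continuousOn.stronglyMeasurableAtFilter isOpen_Ioi t ht)
      (sb.continuousOn.continuousAt (Ioi_mem_nhds ht))).congr_of_eventuallyEq
      (eventually_of_mem (Ioi_mem_nhds ht) eβ)
  have βz : ∀ t, s' ≤ t → β t = 0 := fun t ht => by
    rw [eβ t (h1.trans_le ht), intervalIntegral.integral_congr (g := fun _ => 0) fun x hx =>
      bz x ((le_min ht le_rfl).trans hx.1), intervalIntegral.integral_zero]
  have βa : ∀ x y, s < x → s < y → β x = (∫ z in x..y, b z) + β y := fun x y hx hy => by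
    rw [eβ x hx, eβ y hy,
      intervalIntegral.integral_add_adjacent_intervals (ib x y hx hy) (ib y s' hy h1)]
  have βm : ∀ x y, s < x → x ≤ y → β y ≤ β x := fun x y hx hxy => by
    rw [βa x y hx (hx.trans_le hxy)]
    exact le_add_of_nonneg_left
      (intervalIntegral.integral_nonneg hxy fun z hz => b0 z (hx.trans_le hz.1))
  have β1 : ∀ t, s < t → t ≤ m → β t = β m + Real.log (m - s) + -Real.log (t - s) := by
    intro t ht ht'
    rw [βa t m ht m1, intervalIntegral.integral_congr (g := fun x => (x - s)⁻¹) fun x hx =>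
      b1 x ((lt_min ht m1).trans_le hx.1) (hx.2.trans (max_le ht' le_rfl)),
      intervalIntegral.integral_comp_sub_right (fun x => x⁻¹),
      integral_inv_of_pos (sub_pos.2 ht) (sub_pos.2 m1),
      Real.log_div (sub_pos.2 m1).ne' (sub_pos.2 ht).ne']
    ring
  have t0 : Tendsto (fun t => t - s) (𝓝[>] s) (𝓝[>] 0) :=
    tendsto_nhdsWithin_iff.2 ⟨by
      simpa using ((continuous_sub_right s).tendsto s).mono_left nhdsWithin_le_nhds,
      eventually_of_mem self_mem_nhdsWithin fun t ht => Set.mem_Ioi.2 (sub_pos.2 ht)⟩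
  have ev : ∀ᶠ t in 𝓝[>] s, s < t ∧ t ≤ m := Ioc_mem_nhdsGT m1
  refine ⟨b, β, h0, h1, h2, sb, ?_, dβ, b0, fun t ht => ?_, fun t ht => ?_, fun t ht => ?_, bz, βz,
    if_neg (not_lt.2 h0.le), if_neg (not_lt.2 h0.le), ⟨β m, fun t ht => ?_⟩, ?_, ?_⟩
  · exact (contDiffOn_infty_iff_deriv_of_isOpen isOpen_Ioi).2
      ⟨fun t ht => (dβ t ht).differentiableAt.differentiableWithinAt,
        sb.neg.congr fun t ht => (dβ t ht).deriv⟩
  · rcases le_total t s' with h | h
    · exact (βz s' le_rfl).symm.trans_le (βm t s' ht h)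
    · exact (βz t h).ge
  · rw [eb t ht, div_mul_cancel₀ _ (sub_pos.2 ht).ne']
    exact k4 t
  · have hp := sub_pos.2 ht
    have d1 := ((k1.differentiable (by simp) t).hasDerivAt.div ((hasDerivAt_id t).sub_const s)
      hp.ne').congr_of_eventuallyEq (f₁ := b) (eventually_of_mem (Ioi_mem_nhds ht) eb)
    rw [d1.deriv, eb t ht, div_pow, ← neg_div]
    refine div_le_div_of_nonneg_right ?_ (sq_nonneg _)
    have d2 := mul_nonneg (neg_nonneg.2 (k2.deriv_nonpos (x := t))) hp.le
    simp only [id]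
    nlinarith [k3 t, k4 t]
  · rcases le_total t m with h | h
    · have e1 : Real.log (m - s) ≤ 0 := Real.log_nonpos (sub_pos.2 m1).le (by linarith)
      have e2 : Real.log (t - s)⁻¹ ≤ Real.log (1 + (t - s)⁻¹) :=
        Real.log_le_log (inv_pos.2 (sub_pos.2 ht)) (by linarith)
      rw [β1 t ht h, b1 t ht h, ← Real.log_inv]
      linarith
    · have e1 : 0 ≤ Real.log (1 + b t) := Real.log_nonneg (by linarith [b0 t ht])
      linarith [βm m t m1 h]
  · exact (tendsto_inv_nhdsGT_zero.comp t0).congr' (ev.mono fun t ht => (b1 t ht.1 ht.2).symm)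
  · exact (tendsto_atTop_add_const_left _ (β m + Real.log (m - s)) (tendsto_neg_atBot_atTop.comp
      (Real.tendsto_log_nhdsGT_zero.comp t0))).congr' (ev.mono fun t ht => (β1 t ht.1 ht.2).symm)

end Pool.Agent.P.MP_59bdab_ag
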