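import Pool.Agent.P.MP_59bdab_ag.IfB

/-! Cusp forms are bounded, and conversely. -/

namespace Pool.Agent.P.MP_59bdab_ag

open Matrix MeasureTheory Filter Topology
open scoped ENNReal ComplexOrder

namespace BDD

variable {ι : Type} [Fintype ι] [DecidableEq ι]

/-- The short vectors. -/
def sh (s : ℝ) (Z : HH ι) : Set (ι ⊕ ι → ℤ) := {v | v ≠ 0 ∧ qf (Qm Z) v < s}

theorem inj (γ : SpZ ι) : Function.Injective fun v : ι ⊕ ι → ℤ => γ.1 *ᵥ v := fun u v h => by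
  have e : (γ⁻¹).1 * γ.1 = 1 := congrArg Subtype.val (inv_mul_cancel γ)
  have h2 := congrArg (fun w => (γ⁻¹).1 *ᵥ w) h
  simpa only [mulVec_mulVec, e, one_mulVec] using h2

theorem sh_fin (hQC : S_QC) (s : ℝ) (Z : HH ι) : (sh s Z).Finite :=
  ((hQC ι).2.2.1 Z s).subset fun _ h => h.2.le

theorem sh_le (hQ : S_Q) (hQC : S_QC) (s : ℝ) (γ : SpZ ι) (Z : HH ι) :
    (sh s Z).ncard ≤ (sh s (γ • Z)).ncard :=
  Set.ncard_le_ncard_of_injOn (fun v => γ.1 *ᵥ v)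
    (fun v hv => ⟨fun h => hv.1 (inj γ (h.trans (mulVec_zero _).symm)),
      ((hQ ι).2.2.1 γ Z v).trans_lt hv.2⟩) (inj γ).injOn (sh_fin hQC s _)

theorem lv_ne (hEXT : S_EXT) {p : ι → ℤ} (hp : Prim1 p) : lv p ≠ 0 := fun h => by
  have h1 := (hEXT ι).2.2.2.2.mapsTo (x := (0, p)) hp
  have h2 : p = 0 := funext fun i => congrFun h (Sum.inl i)
  exact h1 (by simp [h2])

theorem bdd (hMOVE : S_MOVE) (hRK1 : S_RK1) (hMAH : S_MAH) (hLAG : S_LAG) (hEXT : S_EXT)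
    (hQ : S_Q) (hQC : S_QC) {k : ℕ} {f : (Sym2 ι → ℂ) → ℂ} (hk : 13 ≤ k) (hf : Mod ⊤ k f)
    (hV : Van 1 f) : ∃ M, ∀ Z, FF k f Z ≤ M := by
  obtain ⟨s, hs⟩ : ∃ s : ℝ, s = 4 * Real.pi * (1 : ℕ) / k := ⟨_, rfl⟩
  have hk' : (13 : ℝ) ≤ k := by exact_mod_cast hk
  have s0 : 0 < s := by
    rw [hs]
    exact div_pos (by simpa using Real.pi_pos) (by linarith)
  have s1 : s < 1 := by
    rw [hs, div_lt_one (by linarith), Nat.cast_one]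
    linarith [Real.pi_lt_d2]
  obtain ⟨K, hK, hK'⟩ := (hMAH ι).1 s s0
  obtain ⟨M, hM⟩ := hK.bddAbove_image (continuous_FF (k := k) hf.1.continuousOn).continuousOn
  refine ⟨M, fun Z => ?_⟩
  suffices ∀ (n : ℕ) (Z : HH ι), (sh s Z).ncard < n → FF k f Z ≤ M from this _ Z (lt_add_one _)
  intro n
  induction n with
  | zero => exact fun Z h => absurd h (Nat.not_lt_zero _)
  | succ n ih =>
  intro Z hn
  by_cases hZ : Z ∈ Short ι s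
  swap
  · obtain ⟨γ, hγ⟩ := hK' Z hZ
    rw [← hf.FF_smul (Subgroup.mem_top γ) Z]
    exact hM ⟨_, hγ, rfl⟩
  obtain ⟨v, v0, hv⟩ := hZ
  obtain ⟨γ, g1, -⟩ := (hLAG ι).1 v
  have e1 : γ.1 *ᵥ v = lv fun i => (γ.1 *ᵥ v) (Sum.inl i) := by
    funext a
    rcases a with a | a
    exacts [rfl, g1 a]
  have p0 : (fun i => (γ.1 *ᵥ v) (Sum.inl i)) ≠ 0 := fun h => v0 (inj γ (by
    change γ.1 *ᵥ v = γ.1 *ᵥ 0
    rw [e1, h, mulVec_zero]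
    exact Sum.elim_zero_zero))
  obtain ⟨⟨c, p⟩, hp, e2⟩ := (hEXT ι).2.2.2.2.surjOn p0
  have hp' : Prim1 p := hp
  have e3 : γ.1 *ᵥ v = ((c + 1 : ℕ) : ℤ) • lv p := by
    rw [e1, ← e2]
    funext a
    rcases a with a | a <;> simp [lv]
  obtain ⟨-, -, q3, -, q5, -, -, q8, q9, -⟩ := hQ ι
  have l0 := lv_ne hEXT hp'
  have a0 := q8 (γ • Z) _ l0
  have a1 : qf (Qm (γ • Z)) (lv p) < s := by
    have h1 := q3 γ Z v
    rw [e3, q9] at h1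
    have h2 : (1 : ℝ) ≤ ((((c + 1 : ℕ) : ℤ) : ℝ)) ^ 2 := one_le_pow₀ (by
      exact_mod_cast Nat.le_add_left 1 c)
    nlinarith
  obtain ⟨Z', τ, t1, t2, t3⟩ := (hMOVE ι k 1 f (γ • Z) (by omega) one_pos hf.1).1 p hp' hV
    (hs ▸ a1.le)
  rw [← hs] at t1 t3
  have a2 : 1 + τ.im * qf (Qm (γ • Z)) (lv p) = qf (Qm (γ • Z)) (lv p) / s := by
    rw [t1]
    field_simp
    ring
  obtain ⟨Z'', r1, -, r2, r3⟩ := hRK1 ι (γ • Z) p τ (a2 ▸ div_pos a0 s0)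
  obtain rfl : Z'' = Z' := Subtype.ext (r1.trans t2.symm)
  have a3 : qf (Qm Z'') (lv p) = s := by
    rw [r2, a2]
    field_simp
  have a4 : sh s Z'' ⊂ sh s (γ • Z) := by
    refine ⟨fun u hu => ⟨hu.1, ?_⟩, fun h => (h ⟨l0, a1⟩).2.ne a3⟩
    by_cases h : om (lv p) u = 0
    · exact (r3 (t1 ▸ sub_nonpos.2 (inv_anti₀ a0 a1.le)) u h).trans_lt hu.2
    · have h1 := q5 Z'' (lv p) u
      have h2 : (1 : ℝ) ≤ (om (lv p) u : ℝ) ^ 2 := by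
        exact_mod_cast (one_le_sq_iff_one_le_abs _).2 (Int.one_le_abs h)
      rw [a3] at h1
      nlinarith [hu.2]
  have a5 := Set.ncard_lt_ncard a4 (sh_fin hQC s _)
  have a6 := sh_le hQ hQC s γ⁻¹ (γ • Z)
  rw [inv_smul_smul] at a6
  rw [← hf.FF_smul (Subgroup.mem_top γ) Z]
  exact t3.trans ((mul_le_of_le_one_left (FF_nonneg _ _ _) (pow_le_one₀
    (psi_nonneg (div_pos s0 a0).le) (psi_le_one _))).trans (ih Z'' (by omega)))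

theorem van (hRK1 : S_RK1) (hVAN : S_VAN) (hEXT : S_EXT) (hQ : S_Q) (hONE : S_ONE) {k : ℕ}
    {f : (Sym2 ι → ℂ) → ℂ} (hk : 0 < k) (hf : Mod ⊤ k f) {M : ℝ} (hM : ∀ Z, FF k f Z ≤ M) :
    Van 1 f := by
  intro p hp z hz
  have per := (hVAN ι k 1 f).2.1 hf p
  refine ⟨per z hz, fun i hi => ?_⟩
  obtain ⟨q, hq⟩ : ∃ q, q = qf (Qm ⟨z, hz⟩) (lv p) := ⟨_, rfl⟩
  have q0 : 0 < q := hq ▸ (hQ ι).2.2.2.2.2.2.2.1 ⟨z, hz⟩ _ (lv_ne hEXT hp)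
  have key : ∀ τ : ℂ, -q⁻¹ < τ.im → ∃ Z' : HH ι, Z'.1 = z + τ • tv p ∧
      (Ym Z').det = (Ym ⟨z, hz⟩).det * (1 + τ.im * q) := fun τ hτ => by
    have h1 := mul_lt_mul_of_pos_right hτ q0
    rw [neg_mul, inv_mul_cancel₀ q0.ne'] at h1
    obtain ⟨Z', r1, r2, -⟩ := hRK1 ι ⟨z, hz⟩ p τ (by rw [← hq]; linarith)
    exact ⟨Z', r1, hq ▸ r2⟩
  have mem : ∀ τ : ℂ, -q⁻¹ < τ.im → z + τ • tv p ∈ HS ι := fun τ hτ => by
    obtain ⟨Z', r1, -⟩ := key τ hτ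
    exact r1 ▸ Z'.2
  have d0 := Ym_det_pos (⟨z, hz⟩ : HH ι)
  have qi : -q⁻¹ < 0 := neg_lt_zero.2 (inv_pos.2 q0)
  refine (hONE (fun τ => f (z + τ • tv p)) q⁻¹
    (hf.1.comp (f := fun τ : ℂ => z + τ • tv p) (by fun_prop) mem) fun τ hτ => ?_).2.2 i 0
    (fun a => √(M / ((Ym ⟨z, hz⟩).det * (1 + a * q)) ^ k)) qi (fun a ha x => ?_) ?_
  · simp only [add_smul, one_smul, ← add_assoc]
    exact per _ (mem τ hτ)
  · have e : ((0 : ℂ) + a * Complex.I + x).im = a := by simp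
    obtain ⟨Z', r1, r2⟩ := key (0 + a * Complex.I + x) (by rw [e]; linarith)
    have h1 := hM Z'
    rw [FF, r1, r2, e] at h1
    exact Real.le_sqrt_of_sq_le ((le_div_iff₀ (by positivity)).2 h1)
  · have h1 : Tendsto (fun a : ℝ => √(M / ((Ym ⟨z, hz⟩).det * (1 + a * q)) ^ k)) atTop (𝓝 0) := by
      have h2 : Tendsto (fun a : ℝ => M / ((Ym ⟨z, hz⟩).det * (1 + a * q)) ^ k) atTop (𝓝 0) :=
        tendsto_const_nhds.div_atTop ((tendsto_pow_atTop hk.ne').comp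
          ((tendsto_atTop_add_const_left _ _ (tendsto_id.atTop_mul_const q0)).const_mul_atTop d0))
      simpa only [Real.sqrt_zero] using h2.sqrt
    refine squeeze_zero' (Eventually.of_forall fun a => by positivity) ?_ h1
    filter_upwards [eventually_ge_atTop 0] with a ha
    refine mul_le_of_le_one_right (Real.sqrt_nonneg _) (Real.exp_le_one_iff.2 ?_)
    have h3 : (i : ℝ) ≤ 0 := by exact_mod_cast (by omega : i ≤ 0)
    exact mul_nonpos_of_nonpos_of_nonneg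
      (mul_nonpos_of_nonneg_of_nonpos (by positivity) h3) ha

end BDD

theorem p_BDD (hMOVE : S_MOVE) (hRK1 : S_RK1) (hMAH : S_MAH) (hVAN : S_VAN) (hLAG : S_LAG)
    (hEXT : S_EXT) (hQ : S_Q) (hQC : S_QC) (hONE : S_ONE) : S_BDD := by
  intro ι _ _ k f
  refine ⟨fun m hm hk hf => ?_, fun hk h0 hf ⟨M, hM⟩ =>
    (hVAN ι k 1 f).1.2 ⟨h0, hf, BDD.van hRK1 hVAN hEXT hQ hONE hk hf hM⟩⟩
  obtain ⟨-, h1, h2⟩ := (hVAN ι k m f).1.1 hf
  exact BDD.bdd hMOVE hRK1 hMAH hLAG hEXT hQ hQC hk h1 fun p hp z hz =>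
    ⟨(h2 p hp z hz).1, fun i hi => (h2 p hp z hz).2 i (by omega)⟩

end Pool.Agent.P.MP_59bdab_ag
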