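import Pool.Agent.P.MP_59bdab_ag.IfB

/-!
Pointwise bounds by the Petersson norm.
-/

namespace Pool.Agent.P.MP_59bdab_ag

open Matrix MeasureTheory Filter Topology
open scoped ENNReal ComplexOrder

namespace BERG

theorem core (hWT : S_WT) (hMEAS : S_MEAS) (hSUB : S_SUB) (hDL : S_DL) {ι : Type} [Fintype ι]
    [DecidableEq ι] (G : Subgroup (SpZ ι)) (w : HH ι → ℝ≥0∞) (k : ℕ) (f : (Sym2 ι → ℂ) → ℂ)
    (hw : IsWt G (HH ι) w) (hf : Mod G k f) (W : HH ι) {ρ : ℝ} (hρ : 0 ≤ ρ) {n : ℝ≥0∞}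
    (hn : n ≠ ⊤)
    (h : ∀ Z : HH ι, ∑' γ : G, {X | ρ < dl X W}.indicator (1 : HH ι → ℝ≥0∞) (γ • Z) ≤ n) :
    ENNReal.ofReal (FF k f W) * Ik ι k ρ ≤ n * nrm w k f := by
  have := (hMEAS ι).2.2.1 G
  have hc : Continuous fun Z : HH ι => dl Z W :=
    (hDL ι).2.2.2.2.2.2.2.1.comp (continuous_id.prodMk continuous_const)
  have hB : MeasurableSet {Z : HH ι | ρ < dl Z W} := (isOpen_lt continuous_const hc).measurableSet
  have hφ : Measurable fun Z : HH ι => ENNReal.ofReal (FF k f Z) :=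
    (continuous_FF hf.1.continuousOn).measurable.ennreal_ofReal
  refine (hSUB ι k f W ρ hf.1 hρ).trans ?_
  rw [← lintegral_indicator hB, (hWT G (HH ι) (μH ι) w hw).1 _ (hφ.indicator hB), nrm,
    ← lintegral_const_mul' _ _ hn]
  refine lintegral_mono fun Z => ?_
  have e : ∀ γ : G, {Z : HH ι | ρ < dl Z W}.indicator (fun Z => ENNReal.ofReal (FF k f Z)) (γ • Z) =
      {X | ρ < dl X W}.indicator (1 : HH ι → ℝ≥0∞) (γ • Z) * ENNReal.ofReal (FF k f Z) := by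
    intro γ
    by_cases hγ : γ • Z ∈ {Z : HH ι | ρ < dl Z W}
    · rw [Set.indicator_of_mem hγ, Set.indicator_of_mem hγ, Pi.one_apply, one_mul]
      exact congrArg ENNReal.ofReal (hf.FF_smul γ.2 Z)
    · rw [Set.indicator_of_notMem hγ, Set.indicator_of_notMem hγ, zero_mul]
  simp only [e, ENNReal.tsum_mul_right, ← mul_assoc]
  gcongr
  exact h Z

end BERG

theorem p_BERG (hWT : S_WT) (hMEAS : S_MEAS) (hSUB : S_SUB) (hMULT : S_MULT) (hDL : S_DL) :
    S_BERG := by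
  intro ι _ _
  refine ⟨fun s hs => ?_, fun ρ hρ => ?_⟩
  · obtain ⟨n, hn, h⟩ := (hMULT ι).1 s hs
    refine ⟨n, hn, fun G w k f hw hf W hW => ?_⟩
    refine BERG.core hWT hMEAS hSUB hDL G w k f hw hf W (by norm_num) hn fun Z => ?_
    refine le_trans ?_ (h W hW Z)
    exact ENNReal.tsum_comp_le_tsum_of_injective (f := fun γ : G => (γ : SpZ ι))
      Subtype.val_injective
      fun γ : SpZ ι => {X | 1 / 2 < dl X W}.indicator (1 : HH ι → ℝ≥0∞) (γ • Z)
  · obtain ⟨ρ', h0, h1, h⟩ := (hMULT ι).2.1 ρ hρ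
    refine ⟨ρ', h0, h1, fun G w k f n hw hf hn W hW => ?_⟩
    refine BERG.core hWT hMEAS hSUB hDL G w k f hw hf W h0.le (ENNReal.natCast_ne_top n)
      fun Z => ?_
    have e : ∑' γ : G, {X | ρ' < dl X W}.indicator (1 : HH ι → ℝ≥0∞) (γ • Z) =
        ({γ : G | ρ' < dl (γ • Z) W}.encard : ℝ≥0∞) := by
      rw [← ENNReal.tsum_set_one, tsum_subtype {γ : G | ρ' < dl (γ • Z) W} fun _ => (1 : ℝ≥0∞)]
      rfl
    rw [e]
    have hle : {γ : G | ρ' < dl (γ • Z) W}.encard ≤ n := by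
      rcases Set.eq_empty_or_nonempty {γ : G | ρ' < dl (γ • Z) W} with h2 | ⟨γ₀, h2⟩
      · rw [h2]
        simp
      · refine le_trans ?_ hn
        refine Set.encard_le_encard_of_injOn (f := fun γ : G => γ * γ₀⁻¹) (fun γ hγ => ?_)
          (mul_left_injective _).injOn
        refine h W hW (γ * γ₀⁻¹ : G).1 (γ₀ • Z) h2 ?_
        have e2 : (γ * γ₀⁻¹ : G).1 • γ₀ • Z = γ • Z := by
          show (γ * γ₀⁻¹) • γ₀ • Z = γ • Z
          rw [smul_smul, inv_mul_cancel_right]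
        rw [e2]
        exact hγ
    exact_mod_cast ENat.toENNReal_le.2 hle

end Pool.Agent.P.MP_59bdab_ag
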