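import Pool.Agent.P.MP_59bdab_ag.IfB

/-!
The invariant measure in block coordinates.
-/

namespace Pool.Agent.P.MP_59bdab_ag

open Matrix MeasureTheory
open scoped ENNReal ComplexOrder Kronecker

namespace BLKM

theorem schur {m n : Type} [Fintype m] [DecidableEq m] [Fintype n] [DecidableEq n]
    {A : Matrix m m ℝ} (hA : A.PosDef) (B : Matrix m n ℝ) (D : Matrix n n ℝ) :
    (fromBlocks A B Bᵀ D).det = A.det * (D - Bᵀ * A⁻¹ * B).det ∧
    ((fromBlocks A B Bᵀ D).PosDef ↔ (D - Bᵀ * A⁻¹ * B).PosDef) ∧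
    ((D - Bᵀ * A⁻¹ * B).PosDef → (fromBlocks A B Bᵀ D)⁻¹.toBlocks₂₂ = (D - Bᵀ * A⁻¹ * B)⁻¹) := by
  obtain ⟨iA⟩ := hA.isUnit.nonempty_invertible
  have h1 : (fromBlocks A B Bᵀ D).det = A.det * (D - Bᵀ * A⁻¹ * B).det := by
    rw [det_fromBlocks₁₁, invOf_eq_nonsing_inv]
  have h2 := PosDef.fromBlocks₁₁ B D hA
  rw [conjTranspose_eq_transpose_of_trivial] at h2
  have h3 : (fromBlocks A B Bᵀ D).PosDef ↔ (D - Bᵀ * A⁻¹ * B).PosDef := by
    constructor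
    · intro h
      refine (h2.1 h.posSemidef).posDef_iff_det_ne_zero.2 fun h0 => h.det_pos.ne' ?_
      rw [h1, h0, mul_zero]
    · intro h
      refine (h2.2 h.posSemidef).posDef_iff_det_ne_zero.2 ?_
      rw [h1]
      exact mul_ne_zero hA.det_pos.ne' h.det_pos.ne'
  refine ⟨h1, h3, fun h => ?_⟩
  obtain ⟨iM⟩ := (h3.2 h).isUnit.nonempty_invertible
  rw [← invOf_eq_nonsing_inv A] at h ⊢
  obtain ⟨iT⟩ := h.isUnit.nonempty_invertible
  rw [← invOf_eq_nonsing_inv, invOf_fromBlocks₁₁_eq, toBlocks_fromBlocks₂₂, invOf_eq_nonsing_inv]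

section meas
variable {X : Type} [TopologicalSpace X] [MeasurableSpace X] [OpensMeasurableSpace X]

theorem meas_inv {n : Type} [Fintype n] [DecidableEq n] {M : X → Matrix n n ℝ}
    (hM : Continuous M) (i j : n) : Measurable fun x => (M x)⁻¹ i j := by
  simp only [Matrix.inv_def, Ring.inverse_eq_inv', Matrix.smul_apply, smul_eq_mul]
  exact hM.matrix_det.measurable.inv.mul (hM.matrix_adjugate.matrix_elem i j).measurable

omit [TopologicalSpace X] [OpensMeasurableSpace X] in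
theorem meas_mul {l m n : Type} [Fintype m] {M : X → Matrix l m ℝ} {N : X → Matrix m n ℝ}
    (hM : ∀ i j, Measurable fun x => M x i j) (hN : ∀ i j, Measurable fun x => N x i j) (i : l)
    (j : n) : Measurable fun x => (M x * N x) i j := by
  simp only [Matrix.mul_apply]
  exact Finset.measurable_sum _ fun k _ => (hM i k).mul (hN k j)

omit [TopologicalSpace X] [OpensMeasurableSpace X] in
theorem meas_coord {n : Type} {M : X → Matrix n n ℝ} (hM : ∀ i j, Measurable fun x => M x i j) :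
    Measurable fun x => coord (M x) := by
  refine measurable_pi_lambda _ fun p => ?_
  induction p using Sym2.ind with
  | _ i j => exact ((hM i j).add (hM j i)).div_const _

end meas

/-- The indicator function of the unit box. -/
noncomputable def ub (κ : Type) : (κ → ℝ) → ℝ≥0∞ := (ubox κ).indicator 1

theorem ubox_eq (κ : Type) : ubox κ = Set.univ.pi fun _ => Set.Ico (0 : ℝ) 1 := by
  ext x
  simp [ubox]

theorem meas_ubox (κ : Type) [Fintype κ] : MeasurableSet (ubox κ) := by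
  rw [ubox_eq]
  exact MeasurableSet.univ_pi fun _ => measurableSet_Ico

theorem vol_ubox (κ : Type) [Fintype κ] : volume (ubox κ) = 1 := by
  rw [ubox_eq, volume_pi_pi]
  simp

theorem meas_ub (κ : Type) [Fintype κ] : Measurable (ub κ) :=
  measurable_one.indicator (meas_ubox κ)

theorem int_ub (κ : Type) [Fintype κ] : ∫⁻ x, ub κ x = 1 := by
  rw [ub, lintegral_indicator_one (meas_ubox κ), vol_ubox]

variable {ι ι₁ ι₂ : Type} [Fintype ι] [DecidableEq ι] [Fintype ι₁] [DecidableEq ι₁] [Fintype ι₂]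
  [DecidableEq ι₂]

/-- The matrix of a function of two indices. -/
def mx (y : ι₁ × ι₂ → ℝ) : Matrix ι₁ ι₂ ℝ := Matrix.of fun a b => y (a, b)

theorem int_lin {A : Matrix ι₁ ι₁ ℝ} (hA : A.PosDef) :
    Measurable (fun y : ι₁ × ι₂ → ℝ => ub (ι₁ × ι₂) fun a => (A⁻¹ * mx y) a.1 a.2) ∧
    ∫⁻ y : ι₁ × ι₂ → ℝ, ub (ι₁ × ι₂) (fun a => (A⁻¹ * mx y) a.1 a.2) =
      ENNReal.ofReal (A.det ^ Fintype.card ι₂) := by
  have h1 : ∀ y : ι₁ × ι₂ → ℝ, (fun a : ι₁ × ι₂ => (A⁻¹ * mx y) a.1 a.2) =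
      Matrix.toLin' (A⁻¹ ⊗ₖ (1 : Matrix ι₂ ι₂ ℝ)) y := fun y => by
    funext a
    simp [mx, Matrix.mul_apply, mulVec, dotProduct, Fintype.sum_prod_type, Matrix.one_apply]
  have h2 : LinearMap.det (Matrix.toLin' (A⁻¹ ⊗ₖ (1 : Matrix ι₂ ι₂ ℝ))) =
      (A.det ^ Fintype.card ι₂)⁻¹ := by
    rw [LinearMap.det_toLin', det_kronecker, det_one, one_pow, mul_one, det_nonsing_inv,
      Ring.inverse_eq_inv', inv_pow]
  have h3 : 0 < A.det ^ Fintype.card ι₂ := pow_pos hA.det_pos _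
  have h4 := (Matrix.toLin' (A⁻¹ ⊗ₖ (1 : Matrix ι₂ ι₂ ℝ))).continuous_of_finiteDimensional.measurable
  simp only [h1]
  refine ⟨(meas_ub _).comp h4, ?_⟩
  have h5 := lintegral_indicator_one (μ := volume) (h4 (meas_ubox _))
  rw [Measure.addHaar_preimage_linearMap _ (by rw [h2]; exact (inv_pos.2 h3).ne'), h2, inv_inv,
    abs_of_pos h3, vol_ubox, mul_one] at h5
  exact h5

/-- Imaginary part. -/
def imM (z : Sym2 ι → ℂ) : Matrix ι ι ℝ := mat fun p => (z p).im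
/-- Real part. -/
def reM (z : Sym2 ι → ℂ) : Matrix ι ι ℝ := mat fun p => (z p).re
/-- The upper left block. -/
def ul (z : Sym2 (ι₁ ⊕ ι₂) → ℂ) : Sym2 ι₁ → ℂ := fun p => z (p.map Sum.inl)

omit [Fintype ι] [DecidableEq ι] in
theorem cont_imM : Continuous (imM : (Sym2 ι → ℂ) → _) :=
  continuous_mat.comp (continuous_pi fun p => Complex.continuous_im.comp (continuous_apply p))

omit [Fintype ι] [DecidableEq ι] in
theorem cont_reM : Continuous (reM : (Sym2 ι → ℂ) → _) :=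
  continuous_mat.comp (continuous_pi fun p => Complex.continuous_re.comp (continuous_apply p))

omit [Fintype ι₁] [DecidableEq ι₁] [Fintype ι₂] [DecidableEq ι₂] in
theorem cont_ul : Continuous (ul : (Sym2 (ι₁ ⊕ ι₂) → ℂ) → _) :=
  continuous_pi fun _ => continuous_apply _

/-- The integrand on the ambient space. -/
noncomputable def phi (w : (Sym2 ι₁ → ℂ) → ℝ≥0∞) (β : (Sym2 ι₂ → ℝ) → ℝ≥0∞)
    (z : Sym2 (ι₁ ⊕ ι₂) → ℂ) : ℝ≥0∞ :=
  β (coord (imM z)⁻¹.toBlocks₂₂) * (w (ul z) *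
    ub (ι₁ × ι₂) (fun a => ((imM (ul z))⁻¹ * (imM z).toBlocks₁₂) a.1 a.2) *
    ub (ι₁ × ι₂) (fun a => ((reM z).toBlocks₁₂ -
      reM (ul z) * ((imM (ul z))⁻¹ * (imM z).toBlocks₁₂)) a.1 a.2) *
    ub (Sym2 ι₂) fun p => (z (p.map Sum.inr)).re)

theorem meas_phi {w : (Sym2 ι₁ → ℂ) → ℝ≥0∞} {β : (Sym2 ι₂ → ℝ) → ℝ≥0∞} (hw : Measurable w)
    (hβ : Measurable β) : Measurable (phi w β) := by
  have c1 : Continuous fun z : Sym2 (ι₁ ⊕ ι₂) → ℂ => imM (ul z) := cont_imM.comp cont_ul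
  have c2 : Continuous fun z : Sym2 (ι₁ ⊕ ι₂) → ℂ => reM (ul z) := cont_reM.comp cont_ul
  have c3 : ∀ i j, Measurable fun z : Sym2 (ι₁ ⊕ ι₂) → ℂ => (imM z).toBlocks₁₂ i j := fun i j =>
    (cont_imM.matrix_elem (Sum.inl i) (Sum.inr j)).measurable
  have c4 : ∀ i j, Measurable fun z : Sym2 (ι₁ ⊕ ι₂) → ℂ => (reM z).toBlocks₁₂ i j := fun i j =>
    (cont_reM.matrix_elem (Sum.inl i) (Sum.inr j)).measurable
  have c5 : ∀ i j, Measurable fun z : Sym2 (ι₁ ⊕ ι₂) → ℂ => (imM z)⁻¹.toBlocks₂₂ i j :=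
    fun i j => meas_inv cont_imM (Sum.inr i) (Sum.inr j)
  have h1 := meas_mul (meas_inv c1) c3
  have h2 := meas_mul (fun i j => (c2.matrix_elem i j).measurable) h1
  have h3 : ∀ i j, Measurable fun z : Sym2 (ι₁ ⊕ ι₂) → ℂ => ((reM z).toBlocks₁₂ -
      reM (ul z) * ((imM (ul z))⁻¹ * (imM z).toBlocks₁₂)) i j := fun i j => by
    simp only [Matrix.sub_apply]
    exact (c4 i j).sub (h2 i j)
  have k1 := hβ.fun_comp (meas_coord c5)
  have k2 := hw.fun_comp cont_ul.measurable (α := Sym2 (ι₁ ⊕ ι₂) → ℂ)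
  have k3 := (meas_ub _).fun_comp (measurable_pi_lambda _ fun a : ι₁ × ι₂ => h1 a.1 a.2)
  have k4 := (meas_ub _).fun_comp (measurable_pi_lambda _ fun a : ι₁ × ι₂ => h3 a.1 a.2)
  have k5 := (meas_ub _).fun_comp (measurable_pi_lambda
    (fun (z : Sym2 (ι₁ ⊕ ι₂) → ℂ) (p : Sym2 ι₂) => (z (p.map Sum.inr)).re)
    fun p => Complex.measurable_re.comp (measurable_pi_apply _))
  exact k1.mul (((k2.mul k3).mul k4).mul k5)

theorem gram_eq (Z : HH (ι₁ ⊕ ι₂)) :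
    (gram (Qm Z) fun i : ι₂ => ev (Sum.inr i)) = (imM Z.1)⁻¹.toBlocks₂₂ := by
  have h : ∀ i : ι₁ ⊕ ι₂, cz (ev i) = Pi.single (Sum.inl i) 1 := fun i => by
    funext a
    by_cases e : a = Sum.inl i <;> simp [cz, ev, e]
  ext a b
  simp only [gram, of_apply, h, single_one_dotProduct, mulVec_single_one]
  rfl

/-- The density on the Schur complement. -/
noncomputable def gg (β : (Sym2 ι₂ → ℝ) → ℝ≥0∞) (n : ℕ) : (Sym2 ι₂ → ℝ) → ℝ≥0∞ :=
  (PD ι₂).indicator fun t => ENNReal.ofReal (((mat t).det ^ n)⁻¹) * β (coord (mat t)⁻¹)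

theorem meas_gg {β : (Sym2 ι₂ → ℝ) → ℝ≥0∞} (hβ : Measurable β) (n : ℕ) : Measurable (gg β n) :=
  (((continuous_mat.matrix_det.measurable.pow_const n).inv.ennreal_ofReal).mul
    (hβ.comp (meas_coord (meas_inv continuous_mat)))).indicator (isOpen_PD _).measurableSet

theorem int_gg (hINV : S_INV) (β : (Sym2 ι₂ → ℝ) → ℝ≥0∞) (n : ℕ) :
    ∫⁻ t, gg β (n + Fintype.card ι₂ + 1) t =
      ∫⁻ q in PD ι₂, β q * ENNReal.ofReal ((mat q).det ^ n) := by
  rw [(hINV ι₂).2, gg, lintegral_indicator (isOpen_PD _).measurableSet]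
  refine setLIntegral_congr_fun (isOpen_PD _).measurableSet fun t ht => ?_
  have h0 : 0 < (mat t).det := PosDef.det_pos ht
  rw [mat_coord (by rw [transpose_nonsing_inv, mat_transpose]), det_nonsing_inv,
    Ring.inverse_eq_inv', mul_comm (β _), ← mul_assoc,
    ← ENNReal.ofReal_mul (by positivity)]
  congr 2
  rw [inv_pow, ← mul_inv, ← pow_add]
  congr 2
  ring

/-- The integrand in block coordinates. -/
theorem point (hASM : S_ASM) (w : (Sym2 ι₁ → ℂ) → ℝ≥0∞) (β : (Sym2 ι₂ → ℝ) → ℝ≥0∞) (n : ℕ)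
    {τ : Sym2 ι₁ → ℂ} (hτ : τ ∈ HS ι₁) (x y : ι₁ × ι₂ → ℝ) (X Y : Sym2 ι₂ → ℝ) :
    (HS (ι₁ ⊕ ι₂)).indicator (fun z => ENNReal.ofReal (((imM z).det ^ n)⁻¹) * phi w β z)
      (asm τ x y X Y) =
    ENNReal.ofReal (((imM τ).det ^ n)⁻¹) * w τ *
      ub (ι₁ × ι₂) (fun a => ((imM τ)⁻¹ * mx y) a.1 a.2) *
      gg β n (Y - coord ((mx y)ᵀ * (imM τ)⁻¹ * mx y)) *
      ub (ι₁ × ι₂) (x - fun a => (reM τ * ((imM τ)⁻¹ * mx y)) a.1 a.2) * ub (Sym2 ι₂) X := by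
  obtain ⟨h1, h2, h3⟩ := (hASM ι₁ ι₂).2.1 τ x y X Y
  have e1 : reM (asm τ x y X Y) = fromBlocks (reM τ) (mx x) (mx x)ᵀ (mat X) := h1
  have e2 : imM (asm τ x y X Y) = fromBlocks (imM τ) (mx y) (mx y)ᵀ (mat Y) := h2
  have e3 : ul (asm τ x y X Y) = τ := h3
  have hA : (imM τ).PosDef := hτ
  have e4 : mat (Y - coord ((mx y)ᵀ * (imM τ)⁻¹ * mx y)) =
      mat Y - (mx y)ᵀ * (imM τ)⁻¹ * mx y := by
    rw [mat_sub, mat_coord]
    rw [transpose_mul, transpose_mul, transpose_transpose, transpose_nonsing_inv, imM,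
      mat_transpose, Matrix.mul_assoc]
  have e5 : (fun p : Sym2 ι₂ => (asm τ x y X Y (p.map Sum.inr)).re) = X := by
    funext p
    induction p using Sym2.ind with
    | _ i j => exact congrFun (congrFun e1 (Sum.inr i)) (Sum.inr j)
  obtain ⟨s1, s2, s3⟩ := schur hA (mx y) (mat Y)
  rw [← e2, ← e4] at s1 s2 s3
  by_cases h : (mat (Y - coord ((mx y)ᵀ * (imM τ)⁻¹ * mx y))).PosDef
  · rw [Set.indicator_of_mem (show asm τ x y X Y ∈ HS _ from s2.2 h), gg,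
      Set.indicator_of_mem (show _ ∈ PD ι₂ from h), phi, s1, s3 h, e3, e5, e1, e2,
      toBlocks_fromBlocks₁₂, toBlocks_fromBlocks₁₂, mul_pow, mul_inv,
      ENNReal.ofReal_mul (inv_nonneg.2 (pow_nonneg hA.det_pos.le _))]
    have e6 : (fun a : ι₁ × ι₂ => (mx x - reM τ * ((imM τ)⁻¹ * mx y)) a.1 a.2) =
      x - fun a => (reM τ * ((imM τ)⁻¹ * mx y)) a.1 a.2 := rfl
    rw [e6]
    ring
  · rw [Set.indicator_of_notMem (fun h' : asm τ x y X Y ∈ HS _ => h (s2.1 h')), gg,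
      Set.indicator_of_notMem (show _ ∉ PD ι₂ from h)]
    simp

theorem point0 (hASM : S_ASM) (F : (Sym2 (ι₁ ⊕ ι₂) → ℂ) → ℝ≥0∞)
    {τ : Sym2 ι₁ → ℂ} (hτ : τ ∉ HS ι₁) (x y : ι₁ × ι₂ → ℝ) (X Y : Sym2 ι₂ → ℝ) :
    (HS (ι₁ ⊕ ι₂)).indicator F (asm τ x y X Y) = 0 := by
  refine Set.indicator_of_notMem (fun h => hτ ?_) _
  rw [← ((hASM ι₁ ι₂).2.1 τ x y X Y).2.2]
  exact (bT ⟨_, h⟩).2

end BLKM

open BLKM in
theorem p_BLKM (hASM : S_ASM) (hINV : S_INV) (hMEAS : S_MEAS) : S_BLKM := by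
  intro ι₁ ι₂ _ _ _ _ w β hw hβ
  obtain ⟨w', hw', e0⟩ : ∃ w' : (Sym2 ι₁ → ℂ) → ℝ≥0∞, Measurable w' ∧ ∀ Z : HH ι₁, w' Z.1 = w Z :=
    ⟨_, (MeasurableEmbedding.subtype_coe (isOpen_HS ι₁).measurableSet).measurable_extend hw
      measurable_zero, fun Z => Subtype.val_injective.extend_apply _ _ Z⟩
  have e1 : ∀ Z : HH (ι₁ ⊕ ι₂), β (coord (gram (Qm Z) fun i : ι₂ => ev (Sum.inr i))) * wB w Z =
      phi w' β Z.1 := fun Z => by
    rw [gram_eq, wB, ← e0]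
    rfl
  have hφ := meas_phi hw' hβ
  have hd : ∀ (ι : Type) [Fintype ι] [DecidableEq ι] (n : ℕ),
      Measurable fun z : Sym2 ι → ℂ => ENNReal.ofReal (((imM z).det ^ n)⁻¹) := fun ι _ _ n =>
    (cont_imM.matrix_det.measurable.pow_const n).inv.ennreal_ofReal
  simp only [e1, ← e0]
  rw [(hMEAS _).2.2.2.2.2.2.1 _ hφ, (hMEAS _).2.2.2.2.2.2.1 _ hw',
    ← lintegral_indicator (isOpen_HS _).measurableSet, Fintype.card_sum, ← int_gg hINV]
  refine ((hASM ι₁ ι₂).2.2 _ (((hd _ _).mul hφ).indicator (isOpen_HS _).measurableSet)).trans ?_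
  refine Eq.trans ?_ (lintegral_mul_const _ ((hd ι₁ _).mul hw'))
  rw [← lintegral_indicator (isOpen_HS _).measurableSet]
  refine lintegral_congr fun τ => ?_
  by_cases hτ : τ ∈ HS ι₁
  · obtain ⟨l1, l2⟩ := int_lin (ι₂ := ι₂) (show (imM τ).PosDef from hτ)
    have h0 : 0 < (imM τ).det := PosDef.det_pos hτ
    have m1 : ∀ c : ι₁ × ι₂ → ℝ, Measurable fun x => ub (ι₁ × ι₂) (x - c) := fun c =>
      (meas_ub _).comp (measurable_id.sub_const c)
    have m2 : ∀ (n : ℕ) (c : Sym2 ι₂ → ℝ), Measurable fun x => gg β n (x - c) := fun n c =>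
      (meas_gg hβ n).comp (measurable_id.sub_const c)
    simp only [Pi.mul_def, point hASM w' β _ hτ, lintegral_const_mul _ (meas_ub _), int_ub,
      mul_one, lintegral_const_mul _ (m1 _), lintegral_sub_right_eq_self,
      lintegral_const_mul _ (m2 _ _)]
    rw [lintegral_mul_const _ (l1.const_mul _), lintegral_const_mul _ l1, l2,
      Set.indicator_of_mem hτ, mul_right_comm _ (w' τ), ← ENNReal.ofReal_mul (by positivity)]
    congr 3
    show _ = ((imM τ).det ^ (Fintype.card ι₁ + 1))⁻¹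
    field_simp
    ring
  · simp only [point0 hASM _ hτ, lintegral_zero, Set.indicator_of_notMem hτ]

end Pool.Agent.P.MP_59bdab_ag
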