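import Pool.Agent.P.MP_59bdab_ag.IfB

/-!
The weight function of the stabiliser of a standard frame.
-/

namespace Pool.Agent.P.MP_59bdab_ag

open Matrix MeasureTheory Filter Topology
open scoped ENNReal ComplexOrder

namespace BLKW

theorem box_sum {κ : Type} (x : κ → ℝ) :
    ∑' n : κ → ℤ, (ubox κ).indicator (1 : (κ → ℝ) → ℝ≥0∞) (fun a => x a + n a) = 1 := by
  rw [tsum_eq_single fun a => -⌊x a⌋]
  · refine Set.indicator_of_mem (fun a => ?_) _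
    have h1 := Int.floor_le (x a)
    have h2 := Int.lt_floor_add_one (x a)
    push_cast
    constructor <;> linarith
  · intro n hn
    refine Set.indicator_of_notMem (fun h => hn (funext fun a => ?_)) _
    have h1 : ⌊x a + n a⌋ = 0 := Int.floor_eq_zero_iff.2 (h a)
    rw [Int.floor_add_intCast] at h1
    omega

theorem box_sum_mat {a b : Type} (x : Matrix a b ℝ) :
    ∑' n : Matrix a b ℤ, (ubox (a × b)).indicator (1 : (a × b → ℝ) → ℝ≥0∞)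
      (fun p => x p.1 p.2 + n p.1 p.2) = 1 := by
  rw [← box_sum fun p : a × b => x p.1 p.2]
  exact ((Equiv.curry a b ℤ).tsum_eq fun n : a → b → ℤ => (ubox (a × b)).indicator
    (1 : (a × b → ℝ) → ℝ≥0∞) (fun p => x p.1 p.2 + n p.1 p.2)).symm

theorem meas_box {κ X : Type} [Fintype κ] [MeasurableSpace X] {f : X → κ → ℝ} (hf : Measurable f) :
    Measurable fun x => (ubox κ).indicator (1 : (κ → ℝ) → ℝ≥0∞) (f x) := by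
  have h : MeasurableSet (ubox κ) := by
    have : ubox κ = Set.univ.pi fun _ => Set.Ico (0 : ℝ) 1 := by
      ext x
      simp [ubox]
    rw [this]
    exact MeasurableSet.univ_pi fun _ => measurableSet_Ico
  exact (measurable_one.indicator h).comp hf

theorem re_im {a b : Type} {X Y X' Y' : Matrix a b ℝ}
    (h : cm X + Complex.I • cm Y = cm X' + Complex.I • cm Y') : X = X' ∧ Y = Y' := by
  constructor
  · ext i j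
    simpa using congrArg Complex.re (congrFun (congrFun h i) j)
  · ext i j
    simpa using congrArg Complex.im (congrFun (congrFun h i) j)

theorem hh_ext {ι : Type} {Z W : HH ι} (h1 : Xm Z = Xm W) (h2 : Ym Z = Ym W) : Z = W :=
  Subtype.ext (mat_injective (by rw [mat_eq, mat_eq, h1, h2]))

theorem par {ι : Type} [Fintype ι] [DecidableEq ι] (γ : SpR ι) {A B D : Matrix ι ι ℝ}
    (h : γ.1 = fromBlocks A B 0 D) (hD : D * Aᵀ = 1) (Z : HH ι) :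
    Xm (γ • Z) = A * Xm Z * Aᵀ + B * Aᵀ ∧ Ym (γ • Z) = A * Ym Z * Aᵀ := by
  have h1 := smul_mul_den γ Z
  rw [den, num, h, toBlocks_fromBlocks₁₁, toBlocks_fromBlocks₁₂, toBlocks_fromBlocks₂₁,
    toBlocks_fromBlocks₂₂, cm_zero, Matrix.zero_mul, zero_add] at h1
  have h2 := congrArg (fun M => M * cm Aᵀ) h1
  simp only [Matrix.mul_assoc, ← cm_mul, hD, cm_one, Matrix.mul_one] at h2
  refine re_im ?_
  rw [← mat_eq, h2, mat_eq Z]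
  simp only [cm_add, cm_mul, Matrix.mul_add, Matrix.add_mul, Matrix.mul_smul, Matrix.smul_mul]
  abel

/-- Real matrix of an integer matrix. -/
def zr {a b : Type} (l : Matrix a b ℤ) : Matrix a b ℝ := l.map (Int.castRingHom ℝ)

variable {ι₁ ι₂ : Type} [Fintype ι₁] [DecidableEq ι₁] [Fintype ι₂] [DecidableEq ι₂]


theorem cont_bT : Continuous (bT : HH (ι₁ ⊕ ι₂) → HH ι₁) :=
  Continuous.subtype_mk (f := fun (Z : HH (ι₁ ⊕ ι₂)) (p : Sym2 ι₁) => Z.1 (p.map Sum.inl))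
    (continuous_pi fun _ => (continuous_apply _).comp continuous_subtype_val) _

theorem cont_bXi : Continuous (bXi : HH (ι₁ ⊕ ι₂) → Matrix ι₁ ι₂ ℝ) := by
  have h : Continuous fun Z : HH (ι₁ ⊕ ι₂) => Ym (bT Z) := continuous_Ym.comp cont_bT
  refine Continuous.matrix_mul ?_ (continuous_Ym.matrix_submatrix Sum.inl Sum.inr)
  simp only [Matrix.inv_def, Ring.inverse_eq_inv']
  exact (h.matrix_det.inv₀ fun Z => (Ym_det_pos _).ne').smul h.matrix_adjugate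

theorem cont_bEta : Continuous (bEta : HH (ι₁ ⊕ ι₂) → Matrix ι₁ ι₂ ℝ) :=
  (continuous_Xm.matrix_submatrix Sum.inl Sum.inr).sub
    ((continuous_Xm.comp cont_bT).matrix_mul cont_bXi)

theorem cont_bX : Continuous (bX : HH (ι₁ ⊕ ι₂) → Sym2 ι₂ → ℝ) :=
  continuous_pi fun _ =>
    Complex.continuous_re.comp ((continuous_apply _).comp continuous_subtype_val)

theorem meas_wB {w : HH ι₁ → ℝ≥0∞} (hw : Measurable w) :
    Measurable (wB w : HH (ι₁ ⊕ ι₂) → ℝ≥0∞) := by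
  have h1 : Measurable fun Z : HH (ι₁ ⊕ ι₂) => w (bT Z) := hw.comp cont_bT.measurable
  have h2 : Measurable fun (Z : HH (ι₁ ⊕ ι₂)) (a : ι₁ × ι₂) => bXi Z a.1 a.2 :=
    (continuous_pi fun a : ι₁ × ι₂ => cont_bXi.matrix_elem a.1 a.2).measurable
  have h3 : Measurable fun (Z : HH (ι₁ ⊕ ι₂)) (a : ι₁ × ι₂) => bEta Z a.1 a.2 :=
    (continuous_pi fun a : ι₁ × ι₂ => cont_bEta.matrix_elem a.1 a.2).measurable
  exact ((h1.mul (meas_box h2)).mul (meas_box h3)).mul (meas_box cont_bX.measurable)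

theorem Xm_bT (Z : HH (ι₁ ⊕ ι₂)) : Xm (bT Z) = (Xm Z).toBlocks₁₁ := rfl
theorem Ym_bT (Z : HH (ι₁ ⊕ ι₂)) : Ym (bT Z) = (Ym Z).toBlocks₁₁ := rfl
theorem mat_bX (Z : HH (ι₁ ⊕ ι₂)) : mat (bX Z) = (Xm Z).toBlocks₂₂ := rfl

theorem shear (L : Matrix ι₁ ι₂ ℝ) (M : Matrix (ι₁ ⊕ ι₂) (ι₁ ⊕ ι₂) ℝ) :
    (fromBlocks 1 0 Lᵀ 1 * M * (fromBlocks 1 0 Lᵀ 1)ᵀ).toBlocks₁₁ = M.toBlocks₁₁ ∧
    (fromBlocks 1 0 Lᵀ 1 * M * (fromBlocks 1 0 Lᵀ 1)ᵀ).toBlocks₁₂ =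
      M.toBlocks₁₁ * L + M.toBlocks₁₂ := by
  rw [← fromBlocks_toBlocks M]
  simp [fromBlocks_multiply, fromBlocks_transpose]

theorem act_uu (γ : SpZ (ι₁ ⊕ ι₂)) {l : Matrix ι₁ ι₂ ℤ} (h : γ.1 = uuM l) (Z : HH (ι₁ ⊕ ι₂)) :
    bT (γ • Z) = bT Z ∧ bXi (γ • Z) = bXi Z + zr l := by
  have h1 : (toR γ).1 = fromBlocks (fromBlocks 1 0 (zr l)ᵀ 1) 0 0 (fromBlocks 1 (-zr l) 0 1) := by
    ext i j
    rw [toR_apply, h]
    rcases i with (i | i) | (i | i) <;> rcases j with (j | j) | (j | j) <;>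
      simp [uuM, zr, one_apply]
  obtain ⟨e1, e2⟩ := par (toR γ) h1 (by simp [fromBlocks_multiply, fromBlocks_transpose]) Z
  rw [Matrix.zero_mul, add_zero] at e1
  rw [← smulZ_def] at e1 e2
  have e3 : bT (γ • Z) = bT Z :=
    hh_ext (by rw [Xm_bT, e1, (shear _ _).1, Xm_bT]) (by rw [Ym_bT, e2, (shear _ _).1, Ym_bT])
  refine ⟨e3, ?_⟩
  rw [bXi, e3, e2, (shear _ _).2, ← Ym_bT, Matrix.mul_add, ← Matrix.mul_assoc,
    nonsing_inv_mul _ (Ym_det_pos _).ne'.isUnit, Matrix.one_mul, add_comm]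
  rfl

theorem act_tt (γ : SpZ (ι₁ ⊕ ι₂)) {m : Matrix ι₁ ι₂ ℤ} {c : Sym2 ι₂ → ℤ} (h : γ.1 = ttM m c)
    (Z : HH (ι₁ ⊕ ι₂)) : bT (γ • Z) = bT Z ∧ bXi (γ • Z) = bXi Z ∧
      bEta (γ • Z) = bEta Z + zr m ∧ bX (γ • Z) = fun p => bX Z p + c p := by
  have h1 : (toR γ).1 =
      fromBlocks 1 (fromBlocks 0 (zr m) (zr m)ᵀ (mat fun p => (c p : ℝ))) 0 1 := by
    ext i j
    rw [toR_apply, h]
    rcases i with (i | i) | (i | i) <;> rcases j with (j | j) | (j | j) <;>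
      simp [ttM, zr, one_apply]
  obtain ⟨e1, e2⟩ := par (toR γ) h1 (by simp) Z
  simp only [transpose_one, Matrix.mul_one, Matrix.one_mul] at e1 e2
  rw [← smulZ_def] at e1 e2
  have e3 : bT (γ • Z) = bT Z := by
    refine hh_ext ?_ (by rw [Ym_bT, e2, Ym_bT])
    rw [Xm_bT, e1, Xm_bT]
    ext i j
    simp [toBlocks₁₁]
  have e4 : bXi (γ • Z) = bXi Z := by rw [bXi, e3, e2, bXi]
  refine ⟨e3, e4, ?_, mat_injective ?_⟩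
  · rw [bEta, e3, e4, e1, bEta]
    ext i j
    simp only [toBlocks₁₂, Matrix.sub_apply, Matrix.add_apply, of_apply, fromBlocks_apply₁₂]
    ring
  · rw [mat_bX, e1]
    rfl

theorem act_emb (γ : SpZ (ι₁ ⊕ ι₂)) {g : SpZ ι₁} (h : γ.1 = embM ι₂ g.1) (Z : HH (ι₁ ⊕ ι₂)) :
    bT (γ • Z) = g • bT Z := by
  have h1 := smul_mul_den (toR γ) Z
  rw [← smulZ_def] at h1
  refine ((smul_eq_iff (toR g) _ _).2 ?_).symm
  ext i j
  have h2 := congrFun (congrFun h1 (Sum.inl i)) (Sum.inl j)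
  simpa [den, num, mul_apply, Fintype.sum_sum_type, toBlocks₁₁, toBlocks₁₂, toBlocks₂₁,
    toBlocks₂₂, h, embM, bT] using h2

theorem sum_tt (w : HH ι₁ → ℝ≥0∞) (T : Matrix ι₁ ι₂ ℤ → (Sym2 ι₂ → ℤ) → SpZ (ι₁ ⊕ ι₂))
    (hT : ∀ m c, (T m c).1 = ttM m c) (Z : HH (ι₁ ⊕ ι₂)) :
    ∑' x : Matrix ι₁ ι₂ ℤ × (Sym2 ι₂ → ℤ), wB w (T x.1 x.2 • Z) =
      w (bT Z) * (ubox (ι₁ × ι₂)).indicator 1 (fun a => bXi Z a.1 a.2) := by
  have h : ∀ m c, wB w (T m c • Z) =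
      w (bT Z) * (ubox (ι₁ × ι₂)).indicator 1 (fun a => bXi Z a.1 a.2) *
        (ubox (ι₁ × ι₂)).indicator 1 (fun a => bEta Z a.1 a.2 + m a.1 a.2) *
        (ubox (Sym2 ι₂)).indicator 1 (fun p => bX Z p + c p) := fun m c => by
    obtain ⟨b1, b2, b3, b4⟩ := act_tt (T m c) (hT m c) Z
    rw [wB, b1, b2, b3, b4]
    rfl
  rw [ENNReal.tsum_prod']
  simp only [h, ENNReal.tsum_mul_left, box_sum, box_sum_mat, mul_one]

theorem sum_uu (w : HH ι₁ → ℝ≥0∞) (T : Matrix ι₁ ι₂ ℤ → (Sym2 ι₂ → ℤ) → SpZ (ι₁ ⊕ ι₂))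
    (hT : ∀ m c, (T m c).1 = ttM m c) (U : Matrix ι₁ ι₂ ℤ → SpZ (ι₁ ⊕ ι₂))
    (hU : ∀ l, (U l).1 = uuM l) (Z : HH (ι₁ ⊕ ι₂)) :
    ∑' x : Matrix ι₁ ι₂ ℤ × Matrix ι₁ ι₂ ℤ × (Sym2 ι₂ → ℤ), wB w (T x.2.1 x.2.2 • U x.1 • Z) =
      w (bT Z) := by
  have h : ∀ l, ∑' x : Matrix ι₁ ι₂ ℤ × (Sym2 ι₂ → ℤ), wB w (T x.1 x.2 • U l • Z) =
      w (bT Z) * (ubox (ι₁ × ι₂)).indicator 1 (fun a => bXi Z a.1 a.2 + l a.1 a.2) := fun l => by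
    obtain ⟨a1, a2⟩ := act_uu (U l) (hU l) Z
    rw [sum_tt w T hT, a1, a2]
    rfl
  rw [ENNReal.tsum_prod']
  simp only [h, ENNReal.tsum_mul_left, box_sum_mat, mul_one]

theorem sum_all {w : HH ι₁ → ℝ≥0∞} (hw : IsWt (SpZ ι₁) (HH ι₁) w)
    (T : Matrix ι₁ ι₂ ℤ → (Sym2 ι₂ → ℤ) → SpZ (ι₁ ⊕ ι₂)) (hT : ∀ m c, (T m c).1 = ttM m c)
    (U : Matrix ι₁ ι₂ ℤ → SpZ (ι₁ ⊕ ι₂)) (hU : ∀ l, (U l).1 = uuM l)
    (E : SpZ ι₁ → SpZ (ι₁ ⊕ ι₂)) (hE : ∀ g, (E g).1 = embM ι₂ g.1) (Z : HH (ι₁ ⊕ ι₂)) :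
    ∑' x : SpZ ι₁ × Matrix ι₁ ι₂ ℤ × Matrix ι₁ ι₂ ℤ × (Sym2 ι₂ → ℤ),
      wB w ((T x.2.2.1 x.2.2.2 * U x.2.1 * E x.1) • Z) = 1 := by
  rw [ENNReal.tsum_prod', ← hw.2 (bT Z)]
  refine tsum_congr fun g => ?_
  simp only [mul_smul]
  rw [sum_uu w T hT U hU, act_emb (E g) (hE g)]

end BLKW

open BLKW in
theorem p_BLKW (hSTR : S_STR) : S_BLKW := by
  intro ι₁ ι₂ _ _ _ _ w hw
  obtain ⟨h1, h2, h3, h4⟩ := hSTR ι₁ ι₂
  refine ⟨meas_wB hw.1, fun Z => ?_⟩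
  obtain ⟨T, hT⟩ : ∃ T : Matrix ι₁ ι₂ ℤ → (Sym2 ι₂ → ℤ) → SpZ (ι₁ ⊕ ι₂),
      ∀ m c, (T m c).1 = ttM m c := ⟨fun m c => ⟨_, h3 m c⟩, fun _ _ => rfl⟩
  obtain ⟨U, hU⟩ : ∃ U : Matrix ι₁ ι₂ ℤ → SpZ (ι₁ ⊕ ι₂), ∀ l, (U l).1 = uuM l :=
    ⟨fun l => ⟨_, h2 l⟩, fun _ => rfl⟩
  obtain ⟨E, hE⟩ : ∃ E : SpZ ι₁ → SpZ (ι₁ ⊕ ι₂), ∀ g, (E g).1 = embM ι₂ g.1 :=
    ⟨fun g => ⟨_, h1 g⟩, fun _ => rfl⟩
  have hv : ∀ x : SpZ ι₁ × Matrix ι₁ ι₂ ℤ × Matrix ι₁ ι₂ ℤ × (Sym2 ι₂ → ℤ),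
      (T x.2.2.1 x.2.2.2 * U x.2.1 * E x.1).1 =
        ttM x.2.2.1 x.2.2.2 * uuM x.2.1 * embM ι₂ x.1.1 := fun x => by
    rw [Submonoid.coe_mul, Submonoid.coe_mul, hT, hU, hE]
  obtain ⟨F, hF⟩ : ∃ F : SpZ ι₁ × Matrix ι₁ ι₂ ℤ × Matrix ι₁ ι₂ ℤ × (Sym2 ι₂ → ℤ) →
      stab fun i : ι₂ => ev (Sum.inr i : ι₁ ⊕ ι₂),
      ∀ x, (F x).1 = T x.2.2.1 x.2.2.2 * U x.2.1 * E x.1 := by
    refine ⟨fun x => ⟨T x.2.2.1 x.2.2.2 * U x.2.1 * E x.1, funext fun i => ?_⟩, fun _ => rfl⟩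
    rw [hv]
    exact (h4.mapsTo (Set.mem_univ x)).2 i
  have hb : Function.Bijective F := by
    constructor
    · intro x y h
      refine h4.injOn (Set.mem_univ x) (Set.mem_univ y) ?_
      simp only [← hv, ← hF, h]
    · intro γ
      obtain ⟨x, -, hx⟩ := h4.surjOn ⟨γ.1.2, congrFun γ.2⟩
      exact ⟨x, Subtype.ext (Subtype.ext (by rw [hF, hv]; exact hx))⟩
  rw [← (Equiv.ofBijective F hb).tsum_eq, ← sum_all hw T hT U hU E hE Z]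
  refine tsum_congr fun x => ?_
  rw [Equiv.ofBijective_apply, Subgroup.smul_def, hF]

end Pool.Agent.P.MP_59bdab_ag
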