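import Pool.Agent.P.MP_59bdab_ag.IfC

namespace Pool.Agent.P.MP_59bdab_ag

open Matrix MeasureTheory Filter Topology
open scoped ENNReal ContDiff

theorem p_BMP (hSMV : S_SMV) (hDEEP : S_DEEP) : S_BMP := by
  intro ι _ _ t W P hP hW
  obtain ⟨η, hη, hball⟩ := Metric.nhds_basis_closedBall.mem_iff.mp
    ((isOpen_PD ι).mem_nhds (mem_HS.mp hW))
  obtain ⟨m, n, ε, hε, hn, hA⟩ := (hSMV ι t W).1 _ (hDEEP ι t W P hP η hη 0)
  let F : ContDiffBump (fun l => chr0 t W (n l)) := ⟨ε / 2, ε, by positivity, by linarith⟩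
  refine ⟨fun z => F fun l => chr (n l) z, ⟨⟨m, n, F, hn, F.contDiff, fun _ => rfl⟩,
    fun _ => F.nonneg, Metric.closedBall (imv W) η, hball, isCompact_closedBall _ _, ?_⟩, ?_⟩
  · intro z hz h0
    have h1 : (fun l => chr (n l) z) ∈ Function.support F := h0
    rw [F.support_eq] at h1
    obtain ⟨c, hc, h2⟩ := hA z hz h1
    exact ⟨c, hc, mem_closedBall_iff_norm.mpr h2⟩
  · have h1 : Tendsto (fun z l => chr (n l) z) (cfil t W) (𝓝 fun l => chr0 t W (n l)) :=
      tendsto_pi_nhds.mpr fun l => tendsto_chr W (hn l)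
    filter_upwards [h1.eventually (Metric.closedBall_mem_nhds _ F.rIn_pos)] with z hz
    exact F.one_of_mem_closedBall hz

end Pool.Agent.P.MP_59bdab_ag
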