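import Pool.Agent.P.MP_59bdab_ag.IfA

/-!
The action of the symplectic group on the Siegel half space, and the basic objects.
-/

namespace Pool.Agent.P.MP_59bdab_ag

open Matrix MeasureTheory
open scoped ENNReal ComplexOrder

/-- The Siegel half space as a type. -/
abbrev HH (ι : Type) : Type := {z : Sym2 ι → ℂ // z ∈ HS ι}

/-- Complex matrix of a real matrix. -/
def cm {a b : Type} (M : Matrix a b ℝ) : Matrix a b ℂ := M.map Complex.ofRealHom

section cm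
variable {a b c : Type}
@[simp] theorem cm_apply (M : Matrix a b ℝ) (i : a) (j : b) : cm M i j = (M i j : ℂ) := rfl
theorem cm_mul [Fintype b] (M : Matrix a b ℝ) (N : Matrix b c ℝ) : cm (M * N) = cm M * cm N :=
  Matrix.map_mul
theorem cm_add (M N : Matrix a b ℝ) : cm (M + N) = cm M + cm N := by ext; simp
theorem cm_sub (M N : Matrix a b ℝ) : cm (M - N) = cm M - cm N := by ext; simp
theorem cm_neg (M : Matrix a b ℝ) : cm (-M) = -cm M := by ext; simp
theorem cm_smul (t : ℝ) (M : Matrix a b ℝ) : cm (t • M) = (t : ℂ) • cm M := by ext; simp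
@[simp] theorem cm_zero : cm (0 : Matrix a b ℝ) = 0 := by ext; simp
@[simp] theorem cm_one [DecidableEq a] : cm (1 : Matrix a a ℝ) = 1 :=
  Matrix.map_one _ (map_zero _) (map_one _)
theorem cm_transpose (M : Matrix a b ℝ) : cm Mᵀ = (cm M)ᵀ := rfl
theorem cm_conjTranspose (M : Matrix a b ℝ) : (cm M)ᴴ = cm Mᵀ := by ext; simp
theorem cm_det [Fintype a] [DecidableEq a] (M : Matrix a a ℝ) : (cm M).det = (M.det : ℂ) :=
  (RingHom.map_det Complex.ofRealHom M).symm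
theorem cm_injective : Function.Injective (cm : Matrix a b ℝ → Matrix a b ℂ) := by
  intro M N h
  ext i j
  exact Complex.ofReal_injective (congrFun (congrFun h i) j)

theorem cm_posDef_iff [Fintype a] {M : Matrix a a ℝ} : (cm M).PosDef ↔ M.PosDef := by
  constructor
  · intro h
    have hs : Mᵀ = M := cm_injective (by rw [← cm_conjTranspose]; exact h.1)
    refine PosDef.of_dotProduct_mulVec_pos (by
      rw [IsHermitian, conjTranspose_eq_transpose_of_trivial, hs]) fun x hx => ?_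
    have h1 := h.dotProduct_mulVec_pos (x := fun i => (x i : ℂ)) (by
      intro h0; apply hx; funext i; exact Complex.ofReal_eq_zero.mp (congrFun h0 i))
    have h2 : (star fun i => (x i : ℂ)) ⬝ᵥ (cm M *ᵥ fun i => (x i : ℂ)) =
        ((star x ⬝ᵥ (M *ᵥ x) : ℝ) : ℂ) := by
      simp [dotProduct, mulVec]
    rw [h2] at h1
    exact_mod_cast h1
  · intro h
    have hs : Mᵀ = M := by
      have := h.1
      rwa [IsHermitian, conjTranspose_eq_transpose_of_trivial] at this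
    have hH : (cm M).IsHermitian := by rw [IsHermitian, cm_conjTranspose, hs]
    refine PosDef.of_dotProduct_mulVec_pos hH fun x hx => ?_
    rw [RCLike.pos_iff]
    refine ⟨?_, hH.im_star_dotProduct_mulVec_self x⟩
    have h2 : RCLike.re (star x ⬝ᵥ (cm M *ᵥ x)) =
        star (fun i => (x i).re) ⬝ᵥ (M *ᵥ fun i => (x i).re) +
        star (fun i => (x i).im) ⬝ᵥ (M *ᵥ fun i => (x i).im) := by
      simp [dotProduct, mulVec, Finset.mul_sum, ← Finset.sum_add_distrib]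
    rw [h2]
    by_cases h0 : (fun i => (x i).re) = 0
    · have h1 : (fun i => (x i).im) ≠ 0 := by
        intro h1; apply hx; funext i
        exact Complex.ext (congrFun h0 i) (congrFun h1 i)
      exact add_pos_of_nonneg_of_pos (h.posSemidef.dotProduct_mulVec_nonneg _)
        (h.dotProduct_mulVec_pos h1)
    · exact add_pos_of_pos_of_nonneg (h.dotProduct_mulVec_pos h0)
        (h.posSemidef.dotProduct_mulVec_nonneg _)
end cm

variable {ι : Type}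

/-- Imaginary part. -/
def Ym (Z : HH ι) : Matrix ι ι ℝ := mat fun p => (Z.1 p).im
/-- Real part. -/
def Xm (Z : HH ι) : Matrix ι ι ℝ := mat fun p => (Z.1 p).re

theorem Ym_posDef (Z : HH ι) : (Ym Z).PosDef := Z.2
theorem Ym_transpose (Z : HH ι) : (Ym Z)ᵀ = Ym Z := mat_transpose _
theorem Xm_transpose (Z : HH ι) : (Xm Z)ᵀ = Xm Z := mat_transpose _
theorem mat_eq (Z : HH ι) : mat Z.1 = cm (Xm Z) + Complex.I • cm (Ym Z) := by
  ext i j
  simp [Xm, Ym, mul_comm Complex.I]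
theorem mat_star (z : Sym2 ι → ℂ) : mat (star z) = (mat z)ᴴ := by
  ext i j; simp [Sym2.eq_swap]
theorem mat_sub_star (z : Sym2 ι → ℂ) :
    mat z - mat (star z) = (2 * Complex.I) • cm (mat fun p => (z p).im) := by
  ext i j
  simp only [Matrix.sub_apply, mat_apply, Pi.star_apply, Matrix.smul_apply, cm_apply, smul_eq_mul,
    RCLike.star_def, Complex.sub_conj]
  push_cast; ring
theorem continuous_Ym : Continuous (Ym : HH ι → Matrix ι ι ℝ) :=
  continuous_mat.comp (continuous_pi fun p =>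
    Complex.continuous_im.comp ((continuous_apply p).comp continuous_subtype_val))
theorem continuous_Xm : Continuous (Xm : HH ι → Matrix ι ι ℝ) :=
  continuous_mat.comp (continuous_pi fun p =>
    Complex.continuous_re.comp ((continuous_apply p).comp continuous_subtype_val))

variable [Fintype ι] [DecidableEq ι]

theorem Ym_det_pos (Z : HH ι) : 0 < (Ym Z).det := (Ym_posDef Z).det_pos

/-- `A Z + B`. -/
noncomputable def num (γ : Matrix (ι ⊕ ι) (ι ⊕ ι) ℝ) (z : Sym2 ι → ℂ) : Matrix ι ι ℂ :=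
  cm γ.toBlocks₁₁ * mat z + cm γ.toBlocks₁₂
/-- `C Z + D`. -/
noncomputable def den (γ : Matrix (ι ⊕ ι) (ι ⊕ ι) ℝ) (z : Sym2 ι → ℂ) : Matrix ι ι ℂ :=
  cm γ.toBlocks₂₁ * mat z + cm γ.toBlocks₂₂
/-- `(A Z + B) (C Z + D)⁻¹` in coordinates. -/
noncomputable def actF (γ : Matrix (ι ⊕ ι) (ι ⊕ ι) ℝ) (z : Sym2 ι → ℂ) : Sym2 ι → ℂ :=
  coord (num γ z * (den γ z)⁻¹)

theorem sp_rel (γ : SpR ι) :
    γ.1.toBlocks₁₁ᵀ * γ.1.toBlocks₂₁ = γ.1.toBlocks₂₁ᵀ * γ.1.toBlocks₁₁ ∧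
    γ.1.toBlocks₁₂ᵀ * γ.1.toBlocks₂₂ = γ.1.toBlocks₂₂ᵀ * γ.1.toBlocks₁₂ ∧
    γ.1.toBlocks₁₁ᵀ * γ.1.toBlocks₂₂ - γ.1.toBlocks₂₁ᵀ * γ.1.toBlocks₁₂ = 1 :=
  SymplecticGroup.fromBlocks_mem_iff.mp (by rw [fromBlocks_toBlocks]; exact γ.2)

/-- The basic polynomial identity. -/
theorem den_num (γ : SpR ι) (z w : Sym2 ι → ℂ) :
    (den γ.1 w)ᵀ * num γ.1 z - (num γ.1 w)ᵀ * den γ.1 z = mat z - mat w := by
  obtain ⟨h1, h2, h3⟩ := sp_rel γ
  have e1 := congrArg cm h1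
  have e2 := congrArg cm h2
  have e3 := congrArg cm h3
  have e4 := congrArg transpose e3
  simp only [cm_mul, cm_sub, cm_transpose, cm_one, transpose_sub, transpose_mul,
    transpose_transpose, transpose_one] at e1 e2 e3 e4
  simp only [den, num, transpose_add, transpose_mul, mat_transpose]
  set A := cm γ.1.toBlocks₁₁
  set B := cm γ.1.toBlocks₁₂
  set C := cm γ.1.toBlocks₂₁
  set D := cm γ.1.toBlocks₂₂
  have : (mat w * Cᵀ + Dᵀ) * (A * mat z + B) - (mat w * Aᵀ + Bᵀ) * (C * mat z + D) =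
      mat w * (Cᵀ * A - Aᵀ * C) * mat z - mat w * (Aᵀ * D - Cᵀ * B) + (Dᵀ * A - Bᵀ * C) * mat z +
        (Dᵀ * B - Bᵀ * D) := by noncomm_ring
  rw [this, e1, e2, e3, e4]
  simp only [sub_self, Matrix.mul_zero, Matrix.zero_mul, Matrix.mul_one, Matrix.one_mul]
  abel

omit [DecidableEq ι] in
theorem den_star (γ : Matrix (ι ⊕ ι) (ι ⊕ ι) ℝ) (z : Sym2 ι → ℂ) :
    (den γ (star z))ᵀ = (den γ z)ᴴ := by
  simp only [den, transpose_add, transpose_mul, conjTranspose_add,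
    conjTranspose_mul, cm_conjTranspose, cm_transpose, mat_star]
  rw [← mat_star, mat_transpose]

omit [DecidableEq ι] in
theorem num_star (γ : Matrix (ι ⊕ ι) (ι ⊕ ι) ℝ) (z : Sym2 ι → ℂ) :
    (num γ (star z))ᵀ = (num γ z)ᴴ := by
  simp only [num, transpose_add, transpose_mul, conjTranspose_add,
    conjTranspose_mul, cm_conjTranspose, cm_transpose, mat_star]
  rw [← mat_star, mat_transpose]

theorem den_num_star (γ : SpR ι) (Z : HH ι) :
    (den γ.1 Z.1)ᴴ * num γ.1 Z.1 - (num γ.1 Z.1)ᴴ * den γ.1 Z.1 =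
      (2 * Complex.I) • cm (Ym Z) := by
  rw [← den_star, ← num_star, den_num, mat_sub_star]; rfl

theorem den_isUnit (γ : SpR ι) (Z : HH ι) : IsUnit (den γ.1 Z.1).det := by
  rw [isUnit_iff_ne_zero]
  intro h
  obtain ⟨v, hv, h0⟩ := Matrix.exists_mulVec_eq_zero_iff.mpr h
  have h1 := (cm_posDef_iff.mpr (Ym_posDef Z)).dotProduct_mulVec_pos hv
  have h2 : star v ⬝ᵥ (((2 * Complex.I) • cm (Ym Z)) *ᵥ v) = 0 := by
    rw [← den_num_star γ, sub_mulVec, ← mulVec_mulVec, ← mulVec_mulVec, h0, mulVec_zero, sub_zero,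
      dotProduct_mulVec, ← star_mulVec, h0]
    simp
  rw [smul_mulVec, dotProduct_smul, smul_eq_mul] at h2
  rcases mul_eq_zero.mp h2 with h3 | h3
  · simp at h3
  · exact h1.ne' h3

theorem mat_actF_of (γ : SpR ι) (z : Sym2 ι → ℂ) (hu : IsUnit (den γ.1 z).det) :
    mat (actF γ.1 z) = num γ.1 z * (den γ.1 z)⁻¹ := by
  apply mat_coord
  have h := den_num γ z z
  rw [sub_self, sub_eq_zero] at h
  have hu' : IsUnit (den γ.1 z)ᵀ.det := by rwa [det_transpose]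
  rw [transpose_mul, transpose_nonsing_inv]
  calc (den γ.1 z)ᵀ⁻¹ * (num γ.1 z)ᵀ
      = (den γ.1 z)ᵀ⁻¹ * ((num γ.1 z)ᵀ * den γ.1 z) * (den γ.1 z)⁻¹ := by
        rw [Matrix.mul_assoc, Matrix.mul_assoc, mul_nonsing_inv _ hu, Matrix.mul_one]
    _ = num γ.1 z * (den γ.1 z)⁻¹ := by
        rw [← h, ← Matrix.mul_assoc, nonsing_inv_mul _ hu', Matrix.one_mul]

theorem mat_actF (γ : SpR ι) (Z : HH ι) :
    mat (actF γ.1 Z.1) = num γ.1 Z.1 * (den γ.1 Z.1)⁻¹ := mat_actF_of γ _ (den_isUnit γ Z)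

theorem actF_mul_den (γ : SpR ι) (Z : HH ι) :
    mat (actF γ.1 Z.1) * den γ.1 Z.1 = num γ.1 Z.1 := by
  rw [mat_actF, Matrix.mul_assoc, nonsing_inv_mul _ (den_isUnit γ Z), Matrix.mul_one]

theorem im_actF (γ : SpR ι) (Z : HH ι) :
    (den γ.1 Z.1)ᴴ * cm (mat fun p => (actF γ.1 Z.1 p).im) * den γ.1 Z.1 = cm (Ym Z) := by
  have h := den_num_star γ Z
  rw [← actF_mul_den, conjTranspose_mul, ← mat_star] at h
  have h2 : (den γ.1 Z.1)ᴴ * (mat (actF γ.1 Z.1) - mat (star (actF γ.1 Z.1))) * den γ.1 Z.1 =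
      (2 * Complex.I) • cm (Ym Z) := by
    rw [← h]; noncomm_ring
  rw [mat_sub_star, Matrix.mul_smul, Matrix.smul_mul] at h2
  exact smul_right_injective _ (by simp) h2

theorem actF_mem (γ : SpR ι) (Z : HH ι) : actF γ.1 Z.1 ∈ HS ι := by
  have hu := den_isUnit γ Z
  have hu' : IsUnit (den γ.1 Z.1)ᴴ.det := by rw [det_conjTranspose]; exact hu.star
  have h : cm (mat fun p => (actF γ.1 Z.1 p).im) =
      ((den γ.1 Z.1)⁻¹)ᴴ * cm (Ym Z) * (den γ.1 Z.1)⁻¹ := by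
    rw [← im_actF γ Z, conjTranspose_nonsing_inv]
    simp only [← Matrix.mul_assoc, nonsing_inv_mul _ hu', Matrix.one_mul]
    rw [Matrix.mul_assoc, mul_nonsing_inv _ hu, Matrix.mul_one]
  refine cm_posDef_iff.mp ?_
  rw [h]
  refine (cm_posDef_iff.mpr (Ym_posDef Z)).conjTranspose_mul_mul_same ?_
  exact mulVec_injective_iff_isUnit.mpr
    ((isUnit_iff_isUnit_det _).mpr (isUnit_nonsing_inv_det _ hu))

omit [DecidableEq ι] in
theorem toBlocks_mul (γ δ : Matrix (ι ⊕ ι) (ι ⊕ ι) ℝ) :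
    (γ * δ).toBlocks₁₁ = γ.toBlocks₁₁ * δ.toBlocks₁₁ + γ.toBlocks₁₂ * δ.toBlocks₂₁ ∧
    (γ * δ).toBlocks₁₂ = γ.toBlocks₁₁ * δ.toBlocks₁₂ + γ.toBlocks₁₂ * δ.toBlocks₂₂ ∧
    (γ * δ).toBlocks₂₁ = γ.toBlocks₂₁ * δ.toBlocks₁₁ + γ.toBlocks₂₂ * δ.toBlocks₂₁ ∧
    (γ * δ).toBlocks₂₂ = γ.toBlocks₂₁ * δ.toBlocks₁₂ + γ.toBlocks₂₂ * δ.toBlocks₂₂ := by
  refine ⟨?_, ?_, ?_, ?_⟩ <;> ext i j <;>
    simp [toBlocks₁₁, toBlocks₁₂, toBlocks₂₁, toBlocks₂₂, mul_apply, Fintype.sum_sum_type]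

theorem den_mul' (γ δ : SpR ι) (Z : HH ι) :
    den (γ * δ).1 Z.1 = den γ.1 (actF δ.1 Z.1) * den δ.1 Z.1 := by
  obtain ⟨-, -, h3, h4⟩ := toBlocks_mul γ.1 δ.1
  conv_rhs => rw [den, Matrix.add_mul, Matrix.mul_assoc, actF_mul_den]
  simp only [den, num, Submonoid.coe_mul, h3, h4, cm_add, cm_mul]
  noncomm_ring

theorem num_mul' (γ δ : SpR ι) (Z : HH ι) :
    num (γ * δ).1 Z.1 = num γ.1 (actF δ.1 Z.1) * den δ.1 Z.1 := by
  obtain ⟨h1, h2, -, -⟩ := toBlocks_mul γ.1 δ.1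
  conv_rhs => rw [num, Matrix.add_mul, Matrix.mul_assoc, actF_mul_den]
  simp only [den, num, Submonoid.coe_mul, h1, h2, cm_add, cm_mul]
  noncomm_ring

theorem den_one (z : Sym2 ι → ℂ) : den (1 : Matrix (ι ⊕ ι) (ι ⊕ ι) ℝ) z = 1 := by
  rw [den, ← fromBlocks_one, toBlocks_fromBlocks₂₁, toBlocks_fromBlocks₂₂]; simp

theorem num_one (z : Sym2 ι → ℂ) : num (1 : Matrix (ι ⊕ ι) (ι ⊕ ι) ℝ) z = mat z := by
  rw [num, ← fromBlocks_one, toBlocks_fromBlocks₁₁, toBlocks_fromBlocks₁₂]; simp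

noncomputable instance instActR : MulAction (SpR ι) (HH ι) where
  smul γ Z := ⟨actF γ.1 Z.1, actF_mem γ Z⟩
  one_smul Z := by
    apply Subtype.ext
    show actF (1 : Matrix (ι ⊕ ι) (ι ⊕ ι) ℝ) Z.1 = Z.1
    rw [actF, den_one, num_one]; simp
  mul_smul γ δ Z := by
    apply Subtype.ext
    show actF (γ * δ).1 Z.1 = actF γ.1 (actF δ.1 Z.1)
    rw [actF, den_mul', num_mul', Matrix.mul_inv_rev, Matrix.mul_assoc,
      ← Matrix.mul_assoc (den δ.1 Z.1), mul_nonsing_inv _ (den_isUnit δ Z), Matrix.one_mul]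
    rfl

theorem smul_val (γ : SpR ι) (Z : HH ι) : (γ • Z).1 = actF γ.1 Z.1 := rfl

theorem mat_smul_val (γ : SpR ι) (Z : HH ι) :
    mat (γ • Z).1 = num γ.1 Z.1 * (den γ.1 Z.1)⁻¹ := mat_actF γ Z

theorem smul_mul_den (γ : SpR ι) (Z : HH ι) : mat (γ • Z).1 * den γ.1 Z.1 = num γ.1 Z.1 :=
  actF_mul_den γ Z

/-- A point is the image as soon as the linear relation holds. -/
theorem smul_eq_iff (γ : SpR ι) (Z W : HH ι) :
    γ • Z = W ↔ mat W.1 * den γ.1 Z.1 = num γ.1 Z.1 := by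
  constructor
  · rintro rfl; exact smul_mul_den γ Z
  · intro h
    apply Subtype.ext
    apply mat_injective
    rw [mat_smul_val, ← h, Matrix.mul_assoc, mul_nonsing_inv _ (den_isUnit γ Z), Matrix.mul_one]

theorem den_mul (γ δ : SpR ι) (Z : HH ι) :
    den (γ * δ).1 Z.1 = den γ.1 (δ • Z).1 * den δ.1 Z.1 := den_mul' γ δ Z

theorem Ym_smul (γ : SpR ι) (Z : HH ι) :
    (den γ.1 Z.1)ᴴ * cm (Ym (γ • Z)) * den γ.1 Z.1 = cm (Ym Z) := im_actF γ Z

/-- The automorphy factor. -/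
noncomputable def jf (γ : SpR ι) (Z : HH ι) : ℂ := (den γ.1 Z.1).det

theorem jf_ne_zero (γ : SpR ι) (Z : HH ι) : jf γ Z ≠ 0 := (den_isUnit γ Z).ne_zero

theorem jf_mul (γ δ : SpR ι) (Z : HH ι) : jf (γ * δ) Z = jf γ (δ • Z) * jf δ Z := by
  rw [jf, den_mul, det_mul]; rfl

theorem jf_one (Z : HH ι) : jf 1 Z = 1 := by
  show (den (1 : Matrix (ι ⊕ ι) (ι ⊕ ι) ℝ) Z.1).det = 1
  rw [den_one, det_one]

theorem det_Ym_smul (γ : SpR ι) (Z : HH ι) : (Ym (γ • Z)).det * ‖jf γ Z‖ ^ 2 = (Ym Z).det := by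
  have h := congrArg det (Ym_smul γ Z)
  rw [det_mul, det_mul, det_conjTranspose, cm_det, cm_det] at h
  have h2 : ((Ym (γ • Z)).det : ℂ) * ((‖jf γ Z‖ : ℂ)) ^ 2 = ((Ym Z).det : ℂ) := by
    rw [← h, ← Complex.conj_mul', jf, RCLike.star_def]; ring
  exact_mod_cast h2

omit [DecidableEq ι] in
theorem continuous_den (γ : Matrix (ι ⊕ ι) (ι ⊕ ι) ℝ) : Continuous (den γ) :=
  (continuous_const.matrix_mul continuous_mat).add continuous_const

omit [DecidableEq ι] in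
theorem continuous_num (γ : Matrix (ι ⊕ ι) (ι ⊕ ι) ℝ) : Continuous (num γ) :=
  (continuous_const.matrix_mul continuous_mat).add continuous_const

theorem continuous_jf (γ : SpR ι) : Continuous (jf γ) :=
  ((continuous_den γ.1).comp continuous_subtype_val).matrix_det

instance instContR : ContinuousConstSMul (SpR ι) (HH ι) where
  continuous_const_smul γ := by
    refine Continuous.subtype_mk (f := fun Z : HH ι => actF γ.1 Z.1) ?_ _
    refine continuous_coord.comp ?_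
    refine ((continuous_num γ.1).comp continuous_subtype_val).matrix_mul ?_
    simp only [Matrix.inv_def, Ring.inverse_eq_inv']
    exact ((continuous_jf γ).inv₀ (jf_ne_zero γ)).smul
      ((continuous_den γ.1).comp continuous_subtype_val).matrix_adjugate

/-- Integral symplectic matrices as real ones. -/
def toR : SpZ ι →* SpR ι where
  toFun γ := ⟨γ.1.map (Int.castRingHom ℝ), SymplecticGroup.map_mem γ.2 _⟩
  map_one' := Subtype.ext (Matrix.map_one _ (map_zero _) (map_one _))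
  map_mul' _ _ := Subtype.ext Matrix.map_mul

@[simp] theorem toR_apply (γ : SpZ ι) (i j : ι ⊕ ι) : (toR γ).1 i j = (γ.1 i j : ℝ) := rfl

noncomputable instance instActZ : MulAction (SpZ ι) (HH ι) := MulAction.compHom _ toR

theorem smulZ_def (γ : SpZ ι) (Z : HH ι) : γ • Z = toR γ • Z := rfl

instance instContZ : ContinuousConstSMul (SpZ ι) (HH ι) where
  continuous_const_smul γ := continuous_const_smul (toR γ)

instance : Countable (SpZ ι) := by
  have : Countable (Matrix (ι ⊕ ι) (ι ⊕ ι) ℤ) := by unfold Matrix; infer_instance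
  infer_instance

instance : LocallyCompactSpace (HH ι) := (isOpen_HS ι).locallyCompactSpace

instance instMeasR : MeasurableConstSMul (SpR ι) (HH ι) where
  measurable_const_smul γ := (continuous_const_smul γ).measurable

instance instMeasZ : MeasurableConstSMul (SpZ ι) (HH ι) where
  measurable_const_smul γ := (continuous_const_smul γ).measurable

instance (G : Subgroup (SpZ ι)) : MeasurableConstSMul G (HH ι) where
  measurable_const_smul γ := measurable_const_smul γ.1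

theorem cz_mulVec (γ : SpZ ι) (v : ι ⊕ ι → ℤ) : cz (γ.1 *ᵥ v) = (toR γ).1 *ᵥ cz v := by
  funext i; simp [cz, mulVec, dotProduct]

/-- The invariant measure `det Y ^ (-(g+1)) dX dY`. -/
noncomputable def μH (ι : Type) [Fintype ι] [DecidableEq ι] : Measure (HH ι) :=
  (Measure.comap Subtype.val volume).withDensity fun Z =>
    ENNReal.ofReal (((Ym Z).det ^ (Fintype.card ι + 1))⁻¹)

/-- The positive symplectic form attached to `Z`: `(m, n) ↦ (m - Z n)* Y⁻¹ (m - Z n)`. -/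
noncomputable def Qm (Z : HH ι) : Matrix (ι ⊕ ι) (ι ⊕ ι) ℝ :=
  fromBlocks (Ym Z)⁻¹ (-((Ym Z)⁻¹ * Xm Z)) (-(Xm Z * (Ym Z)⁻¹)) (Ym Z + Xm Z * (Ym Z)⁻¹ * Xm Z)

/-- The invariant function `|f|^2 det Y^k`. -/
noncomputable def FF (k : ℕ) (f : (Sym2 ι → ℂ) → ℂ) (Z : HH ι) : ℝ := ‖f Z.1‖ ^ 2 * (Ym Z).det ^ k

/-- `det ((z - conj W) / (2 i))`. -/
noncomputable def kd (W : HH ι) (z : Sym2 ι → ℂ) : ℂ :=
  ((2 * Complex.I)⁻¹ • (mat z - mat (star W.1))).det

/-- The point pair invariant, equal to one on the diagonal. -/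
noncomputable def dl (Z W : HH ι) : ℝ := √((Ym Z).det * (Ym W).det) / ‖kd W Z.1‖

/-- The base point `i * 1`. -/
noncomputable def iH (ι : Type) [Fintype ι] [DecidableEq ι] : HH ι :=
  ⟨coord (Complex.I • (1 : Matrix ι ι ℂ)), by
    have : (mat fun p => (coord (Complex.I • (1 : Matrix ι ι ℂ)) p).im) = 1 := by
      ext i j
      by_cases h : i = j
      · subst h; simp
      · simp [h, Ne.symm h]
    show (mat fun p => (coord (Complex.I • (1 : Matrix ι ι ℂ)) p).im).PosDef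
    rw [this]
    exact PosDef.one⟩

theorem mat_iH : mat (iH ι).1 = Complex.I • (1 : Matrix ι ι ℂ) :=
  mat_coord (by rw [transpose_smul, transpose_one])

/-- The Cayley map `ζ ↦ i (1 + ζ) (1 - ζ)⁻¹`. -/
noncomputable def cay (ζ : Sym2 ι → ℂ) : Sym2 ι → ℂ :=
  coord (Complex.I • ((1 + mat ζ) * (1 - mat ζ)⁻¹))

/-- Mass of the peak function on a ball. -/
noncomputable def Ik (ι : Type) [Fintype ι] [DecidableEq ι] (k : ℕ) (ρ : ℝ) : ℝ≥0∞ :=
  ∫⁻ Z in {Z | ρ < dl Z (iH ι)}, ENNReal.ofReal (dl Z (iH ι) ^ (2 * k)) ∂μH ι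

/-- The constant `2^(-g) (2π)^(-N)`. -/
noncomputable def cg (g : ℕ) : ℝ := (2 ^ g * (2 * Real.pi) ^ tri g)⁻¹

/-- Holomorphic of weight `k` for the subgroup `G`. -/
def Mod (G : Subgroup (SpZ ι)) (k : ℕ) (f : (Sym2 ι → ℂ) → ℂ) : Prop :=
  DifferentiableOn ℂ f (HS ι) ∧ ∀ γ ∈ G, ∀ Z : HH ι, f (γ • Z).1 = jf (toR γ) Z ^ k * f Z.1

/-- The symmetric matrix `p pᵀ` in coordinates. -/
def tv (p : ι → ℤ) : Sym2 ι → ℂ :=
  Sym2.lift ⟨fun i j => (p i : ℂ) * p j, fun _ _ => mul_comm _ _⟩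

/-- The vector `(p, 0)`. -/
def lv (p : ι → ℤ) : ι ⊕ ι → ℤ := Sum.elim p 0

/-- Periodicity in all directions `p pᵀ` and vanishing of the coefficients of index `< j` in all
primitive directions. -/
def Van (j : ℕ) (f : (Sym2 ι → ℂ) → ℂ) : Prop :=
  ∀ p : ι → ℤ, Prim1 p → ∀ z ∈ HS ι, f (z + tv p) = f z ∧
    ∀ i : ℤ, i < j → cf (fun τ => f (z + τ • tv p)) i 0 = 0

/-- Petersson norm for the weight function `w`. -/
noncomputable def nrm (w : HH ι → ℝ≥0∞) (k : ℕ) (f : (Sym2 ι → ℂ) → ℂ) : ℝ≥0∞ :=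
  ∫⁻ Z, ENNReal.ofReal (FF k f Z) * w Z ∂μH ι

/-- Mass of a set for the weight function `w`. -/
noncomputable def mass (w : HH ι → ℝ≥0∞) (R : Set (HH ι)) : ℝ≥0∞ := ∫⁻ Z in R, w Z ∂μH ι

/-- The volume of the quotient stack. -/
noncomputable def vol (ι : Type) [Fintype ι] [DecidableEq ι] : ℝ≥0∞ :=
  ⨅ (w : HH ι → ℝ≥0∞) (_ : IsWt (SpZ ι) (HH ι) w), ∫⁻ Z, w Z ∂μH ι

/-- Points whose lattice has a nonzero vector of norm `< s`. -/
def Short (ι : Type) [Fintype ι] [DecidableEq ι] (s : ℝ) : Set (HH ι) :=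
  {Z | ∃ v : ι ⊕ ι → ℤ, v ≠ 0 ∧ qf (Qm Z) v < s}

/-- Pointwise stabiliser of a family of integral vectors. -/
def stab {κ : Type} (v : κ → ι ⊕ ι → ℤ) : Subgroup (SpZ ι) where
  carrier := {γ | (fun a => γ.1 *ᵥ v a) = v}
  one_mem' := by funext a; simp
  mul_mem' := by
    intro γ δ hγ hδ
    funext a
    show (γ.1 * δ.1) *ᵥ v a = v a
    rw [← mulVec_mulVec, congrFun hδ a, congrFun hγ a]
  inv_mem' := by
    intro γ hγ
    funext a
    have h : (γ⁻¹).1 * γ.1 = 1 := congrArg Subtype.val (inv_mul_cancel γ)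
    conv_lhs => rw [← congrFun hγ a]
    show (γ⁻¹).1 *ᵥ (γ.1 *ᵥ v a) = v a
    rw [mulVec_mulVec, h, one_mulVec]

/-- Points whose stabiliser is `±1`. -/
def Free (ι : Type) [Fintype ι] [DecidableEq ι] : Set (HH ι) :=
  {Z | ∀ γ : SpZ ι, γ • Z = Z → γ.1 = 1 ∨ γ.1 = -1}

/-- The decay factor `u exp (1 - u)`. -/
noncomputable def psi (u : ℝ) : ℝ := u * Real.exp (1 - u)

theorem psi_nonneg {u : ℝ} (hu : 0 ≤ u) : 0 ≤ psi u := mul_nonneg hu (Real.exp_pos _).le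

theorem psi_lt_one {u : ℝ} (hu : u ≠ 1) : psi u < 1 := by
  have h := Real.add_one_lt_exp (x := u - 1) (sub_ne_zero.mpr hu)
  rw [psi, show 1 - u = -(u - 1) by ring, Real.exp_neg, ← div_eq_mul_inv,
    div_lt_one (Real.exp_pos _)]
  linarith

theorem psi_le_one (u : ℝ) : psi u ≤ 1 := by
  by_cases h : u = 1
  · simp [psi, h]
  · exact (psi_lt_one h).le

theorem psi_le_mul {u : ℝ} (hu : 0 ≤ u) : psi u ≤ Real.exp 1 * u := by
  rw [psi, mul_comm]
  exact mul_le_mul_of_nonneg_right (Real.exp_le_exp.mpr (by linarith)) hu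

theorem psi_anti {u v : ℝ} (hu : 1 ≤ u) (huv : u ≤ v) : psi v ≤ psi u := by
  have h := Real.add_one_le_exp (v - u)
  have e : Real.exp (1 - u) = Real.exp (1 - v) * Real.exp (v - u) := by
    rw [← Real.exp_add]; congr 1; ring
  rw [psi, psi, e]
  have h0 := Real.exp_pos (1 - v)
  have : v ≤ u * Real.exp (v - u) := by nlinarith
  nlinarith

theorem psi_mono {u v : ℝ} (hu : 0 ≤ u) (huv : u ≤ v) (hv : v ≤ 1) : psi u ≤ psi v := by
  have h := Real.add_one_le_exp (u - v)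
  have e : Real.exp (1 - v) = Real.exp (1 - u) * Real.exp (u - v) := by
    rw [← Real.exp_add]; congr 1; ring
  rw [psi, psi, e]
  have h0 := Real.exp_pos (1 - u)
  have : u ≤ v * Real.exp (u - v) := by nlinarith
  nlinarith

theorem isWt_top {w : HH ι → ℝ≥0∞} :
    IsWt (⊤ : Subgroup (SpZ ι)) (HH ι) w ↔ IsWt (SpZ ι) (HH ι) w := by
  refine and_congr Iff.rfl (forall_congr' fun x => ?_)
  rw [← (Subgroup.topEquiv (G := SpZ ι)).toEquiv.tsum_eq fun γ => w (γ • x)]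
  rfl

theorem continuous_FF {k : ℕ} {f : (Sym2 ι → ℂ) → ℂ} (hf : ContinuousOn f (HS ι)) :
    Continuous (FF k f) :=
  ((hf.comp_continuous continuous_subtype_val fun Z => Z.2).norm.pow 2).mul
    (continuous_Ym.matrix_det.pow k)

theorem FF_nonneg (k : ℕ) (f : (Sym2 ι → ℂ) → ℂ) (Z : HH ι) : 0 ≤ FF k f Z :=
  mul_nonneg (sq_nonneg _) (pow_nonneg (Ym_det_pos Z).le _)

theorem Mod.FF_smul {G : Subgroup (SpZ ι)} {k : ℕ} {f : (Sym2 ι → ℂ) → ℂ} (hf : Mod G k f)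
    {γ : SpZ ι} (hγ : γ ∈ G) (Z : HH ι) : FF k f (γ • Z) = FF k f Z := by
  rw [FF, FF, hf.2 γ hγ Z, ← det_Ym_smul (toR γ) Z, norm_mul, norm_pow, smulZ_def]
  ring

omit [Fintype ι] [DecidableEq ι] in
theorem mat_tv (p : ι → ℤ) : mat (tv p) = vecMulVec (fun i => (p i : ℂ)) fun i => (p i : ℂ) := rfl

omit [Fintype ι] in
theorem tv_single (i : ι) : tv (Pi.single i 1 : ι → ℤ) = Pi.single s(i, i) 1 := by
  funext q
  induction q using Sym2.ind with
  | _ a b =>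
    show ((Pi.single i 1 : ι → ℤ) a : ℂ) * ((Pi.single i 1 : ι → ℤ) b : ℂ) = _
    by_cases ha : a = i <;> by_cases hb : b = i <;> simp [ha, hb]

omit [Fintype ι] in
theorem lv_single (i : ι) : lv (Pi.single i 1 : ι → ℤ) = ev i := by
  funext a
  rcases a with a | a <;> simp [lv, ev, Pi.single_apply]

/-- The weight `k` slash operator. -/
noncomputable def slash (γ : SpR ι) (k : ℕ) (f : (Sym2 ι → ℂ) → ℂ) (z : Sym2 ι → ℂ) : ℂ :=
  ((den γ.1 z).det⁻¹) ^ k * f (actF γ.1 z)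

/-- Points moved by a definite amount by all elements other than `±1`. -/
def Gd (ι : Type) [Fintype ι] [DecidableEq ι] (ρ : ℝ) : Set (HH ι) :=
  {W | ∀ γ : SpZ ι, ¬ (γ.1 = 1 ∨ γ.1 = -1) → dl (γ • W) W ≤ ρ}

/-- `f` is bounded, dominated by `D`, and exponentially small outside `R`. -/
def Loc (R : Set (HH ι)) (D : HH ι → ℝ) (C θ : ℝ) (k : ℕ) (f : (Sym2 ι → ℂ) → ℂ) : Prop :=
  (∃ M, ∀ Z, FF k f Z ≤ M) ∧ ∀ M, (∀ Z, FF k f Z ≤ M) → ∀ Z, FF k f Z ≤ D Z * M ∧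
    (Z ∉ R → FF k f Z ≤ C * θ ^ k * D Z * M)

/-- `f` is an eigenfunction of the real translations in the entry `(i, i)`. -/
def Eig (i : ι) (j : ℕ) (f : (Sym2 ι → ℂ) → ℂ) : Prop :=
  ∀ z ∈ HS ι, ∀ t : ℝ, f (z + Pi.single s(i, i) (t : ℂ)) =
    Complex.exp (2 * Real.pi * Complex.I * j * t) * f z

/-- The stabiliser of the vector `(e_i, 0)`. -/
def st1 (i : ι) : Subgroup (SpZ ι) := stab fun _ : Fin 1 => ev i

theorem mem_st1 {i : ι} {γ : SpZ ι} : γ ∈ st1 i ↔ γ.1 *ᵥ ev i = ev i :=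
  ⟨fun h => congrFun h 0, fun h => funext fun _ => h⟩

/-- The region where `(e_i, 0)` is short and almost a shortest vector. -/
def RR (i : ι) (s ε : ℝ) : Set (HH ι) :=
  {Z | qf (Qm Z) (ev i) ≤ s + ε ∧
    ∀ v : ι ⊕ ι → ℤ, v ≠ 0 → qf (Qm Z) (ev i) - 2 * ε ≤ qf (Qm Z) v}

/-- The integrable majorant on the quotient by `st1 i`. -/
noncomputable def DJ (i : ι) (Z : HH ι) : ℝ :=
  min 1 ((Real.exp 1 / qf (Qm Z) (ev i)) ^ (Fintype.card ι + 1))

/-- The half open unit box. -/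
def ubox (κ : Type) : Set (κ → ℝ) := {x | ∀ a, x a ∈ Set.Ico (0 : ℝ) 1}

section blocks
variable {ι₁ ι₂ : Type} [Fintype ι₁] [DecidableEq ι₁] [Fintype ι₂] [DecidableEq ι₂]

/-- The upper left block `τ`. -/
def bT (Z : HH (ι₁ ⊕ ι₂)) : HH ι₁ :=
  ⟨fun p => Z.1 (p.map Sum.inl), (Ym_posDef Z).submatrix Sum.inl_injective⟩

/-- `ξ`, where the upper right block is `τ ξ + η` with real `ξ`, `η`. -/
noncomputable def bXi (Z : HH (ι₁ ⊕ ι₂)) : Matrix ι₁ ι₂ ℝ :=
  (Ym (bT Z))⁻¹ * (Ym Z).toBlocks₁₂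

/-- `η`, where the upper right block is `τ ξ + η` with real `ξ`, `η`. -/
noncomputable def bEta (Z : HH (ι₁ ⊕ ι₂)) : Matrix ι₁ ι₂ ℝ :=
  (Xm Z).toBlocks₁₂ - Xm (bT Z) * bXi Z

/-- Real part of the lower right block. -/
def bX (Z : HH (ι₁ ⊕ ι₂)) : Sym2 ι₂ → ℝ := fun p => (Z.1 (p.map Sum.inr)).re

/-- The weight function of the stabiliser of the standard frame. -/
noncomputable def wB (w : HH ι₁ → ℝ≥0∞) (Z : HH (ι₁ ⊕ ι₂)) : ℝ≥0∞ :=
  w (bT Z) * (ubox (ι₁ × ι₂)).indicator 1 (fun a => bXi Z a.1 a.2) *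
    (ubox (ι₁ × ι₂)).indicator 1 (fun a => bEta Z a.1 a.2) * (ubox (Sym2 ι₂)).indicator 1 (bX Z)

/-- A symmetric matrix from its blocks `τ`, `x + i y`, `X + i Y`. -/
noncomputable def asm (τ : Sym2 ι₁ → ℂ) (x y : ι₁ × ι₂ → ℝ) (X Y : Sym2 ι₂ → ℝ) :
    Sym2 (ι₁ ⊕ ι₂) → ℂ :=
  coord (fromBlocks (mat τ) (Matrix.of fun a b => (x (a, b) : ℂ) + Complex.I * y (a, b))
    (Matrix.of fun b a => (x (a, b) : ℂ) + Complex.I * y (a, b))
    (mat fun p => (X p : ℂ) + Complex.I * Y p))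

end blocks

end Pool.Agent.P.MP_59bdab_ag
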