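import Pool.Agent.P.MP_59bdab_ag.IfB

/-!
The Cayley map: algebraic properties.
-/

namespace Pool.Agent.P.MP_59bdab_ag

open Matrix
open scoped ComplexOrder

namespace CAY

variable {ι : Type} [Fintype ι] [DecidableEq ι]

theorem inv_symm {A : Matrix ι ι ℂ} (h : Aᵀ = A) : (A⁻¹)ᵀ = A⁻¹ := by
  rw [transpose_nonsing_inv, h]

omit [Fintype ι] in
theorem one_sub_symm (ζ : Sym2 ι → ℂ) : (1 - mat ζ)ᵀ = 1 - mat ζ := by
  rw [transpose_sub, transpose_one, mat_transpose]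

theorem cay_eq (ζ : Sym2 ι → ℂ) (hu : IsUnit (1 - mat ζ).det) :
    Complex.I • ((1 + mat ζ) * (1 - mat ζ)⁻¹) =
      (2 * Complex.I) • (1 - mat ζ)⁻¹ - Complex.I • (1 : Matrix ι ι ℂ) := by
  have h : (1 + mat ζ : Matrix ι ι ℂ) = (2 : ℂ) • 1 - (1 - mat ζ) := by
    rw [two_smul]; abel
  rw [h, Matrix.sub_mul, mul_nonsing_inv _ hu, Matrix.smul_mul, Matrix.one_mul, smul_sub,
    smul_smul, mul_comm Complex.I 2]

theorem mat_cay (ζ : Sym2 ι → ℂ) (hu : IsUnit (1 - mat ζ).det) :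
    mat (cay ζ) = (2 * Complex.I) • (1 - mat ζ)⁻¹ - Complex.I • (1 : Matrix ι ι ℂ) := by
  rw [cay, cay_eq ζ hu]
  apply mat_coord
  rw [transpose_sub, transpose_smul, transpose_smul, transpose_one, inv_symm (one_sub_symm ζ)]

theorem im_cay (ζ : Sym2 ι → ℂ) (hu : IsUnit (1 - mat ζ).det) :
    cm (mat fun p => (cay ζ p).im) = (1 - mat ζ)⁻¹ + ((1 - mat ζ)⁻¹)ᴴ - 1 := by
  have h := mat_sub_star (cay ζ)
  rw [mat_star, mat_cay ζ hu] at h
  refine smul_right_injective _ (show (2 * Complex.I : ℂ) ≠ 0 by simp) ?_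
  show (2 * Complex.I) • _ = (2 * Complex.I) • _
  rw [← h]
  ext i j
  simp only [Matrix.sub_apply, Matrix.smul_apply, Matrix.add_apply, conjTranspose_apply,
    smul_eq_mul, star_sub, star_mul', Complex.star_def, Complex.conj_I, one_apply,
    map_ofNat]
  by_cases hij : i = j
  · subst hij; simp; ring
  · simp [hij, Ne.symm hij]; ring

theorem conj_im (ζ : Sym2 ι → ℂ) (hu : IsUnit (1 - mat ζ).det) :
    (1 - mat ζ) * cm (mat fun p => (cay ζ p).im) * (1 - mat ζ)ᴴ = 1 - mat ζ * (mat ζ)ᴴ := by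
  have hu' : IsUnit (1 - mat ζ)ᴴ.det := by rw [det_conjTranspose]; exact hu.star
  rw [im_cay ζ hu, conjTranspose_nonsing_inv, Matrix.mul_sub, Matrix.mul_add,
    mul_nonsing_inv _ hu, Matrix.sub_mul, Matrix.add_mul, Matrix.mul_assoc,
    nonsing_inv_mul _ hu', conjTranspose_sub, conjTranspose_one]
  noncomm_ring

theorem unit_vecMul {A : Matrix ι ι ℂ} (hu : IsUnit A.det) :
    Function.Injective fun v => v ᵥ* A :=
  vecMul_injective_iff_isUnit.mpr ((isUnit_iff_isUnit_det _).mpr hu)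

theorem cay_mem (ζ : Sym2 ι → ℂ) (hu : IsUnit (1 - mat ζ).det)
    (hp : (1 - mat ζ * (mat ζ)ᴴ).PosDef) : cay ζ ∈ HS ι := by
  have hu' : IsUnit (1 - mat ζ)ᴴ.det := by rw [det_conjTranspose]; exact hu.star
  have h : cm (mat fun p => (cay ζ p).im) =
      (1 - mat ζ)⁻¹ * (1 - mat ζ * (mat ζ)ᴴ) * ((1 - mat ζ)⁻¹)ᴴ := by
    rw [← conj_im ζ hu, conjTranspose_nonsing_inv]
    simp only [← Matrix.mul_assoc, nonsing_inv_mul _ hu, Matrix.one_mul]
    rw [Matrix.mul_assoc, mul_nonsing_inv _ hu', Matrix.mul_one]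
  refine cm_posDef_iff.mp ?_
  rw [h]
  exact hp.mul_mul_conjTranspose_same (unit_vecMul (isUnit_nonsing_inv_det _ hu))

theorem unit_of_mem {z : Sym2 ι → ℂ} (hz : z ∈ HS ι) : IsUnit (mat z).det := by
  rw [isUnit_iff_ne_zero]
  intro h
  obtain ⟨v, hv, h0⟩ := Matrix.exists_mulVec_eq_zero_iff.mpr h
  have h1 := (cm_posDef_iff.mpr hz).dotProduct_mulVec_pos hv
  have h2 : star v ⬝ᵥ (((2 * Complex.I) • cm (mat fun p => (z p).im)) *ᵥ v) = 0 := by
    rw [← mat_sub_star, mat_star, sub_mulVec, h0, zero_sub, dotProduct_neg, dotProduct_mulVec,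
      ← star_mulVec, h0]
    simp
  rw [smul_mulVec, dotProduct_smul, smul_eq_mul] at h2
  rcases mul_eq_zero.mp h2 with h3 | h3
  · simp at h3
  · exact h1.ne' h3

omit [Fintype ι] [DecidableEq ι] in
theorem add_mem {z w : Sym2 ι → ℂ} (hz : z ∈ HS ι) (hw : w ∈ HS ι) : z + w ∈ HS ι := by
  have h : (mat fun p => ((z + w) p).im) = (mat fun p => (z p).im) + mat fun p => (w p).im := by
    ext i j; simp
  show (mat fun p => ((z + w) p).im).PosDef
  rw [h]
  exact PosDef.add hz hw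

theorem surj {z : Sym2 ι → ℂ} (hz : z ∈ HS ι) :
    ∃ ζ : Sym2 ι → ℂ, (1 - mat ζ * (mat ζ)ᴴ).PosDef ∧ cay ζ = z := by
  have hB : IsUnit (mat (z + (iH ι).1)).det := unit_of_mem (add_mem hz (iH ι).2)
  set B := mat (z + (iH ι).1) with hBdef
  have hI : (2 * Complex.I : ℂ) ≠ 0 := by simp
  have hm : mat (coord (1 - (2 * Complex.I) • B⁻¹)) = 1 - (2 * Complex.I) • B⁻¹ := by
    apply mat_coord
    rw [transpose_sub, transpose_one, transpose_smul, inv_symm (mat_transpose _)]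
  have hA : 1 - mat (coord (1 - (2 * Complex.I) • B⁻¹)) = (2 * Complex.I) • B⁻¹ := by
    rw [hm]; abel
  have hprod : ((2 * Complex.I) • B⁻¹) * ((2 * Complex.I)⁻¹ • B) = 1 := by
    rw [Matrix.smul_mul, Matrix.mul_smul, smul_smul, mul_inv_cancel₀ hI, one_smul,
      nonsing_inv_mul _ hB]
  have hu : IsUnit (1 - mat (coord (1 - (2 * Complex.I) • B⁻¹))).det := by
    rw [hA]; exact isUnit_det_of_right_inverse hprod
  have hc : cay (coord (1 - (2 * Complex.I) • B⁻¹)) = z := by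
    apply mat_injective
    rw [mat_cay _ hu, hA, inv_eq_right_inv hprod, smul_smul, mul_inv_cancel₀ hI, one_smul, hBdef,
      mat_add, mat_iH, add_sub_cancel_right]
  refine ⟨_, ?_, hc⟩
  rw [← conj_im _ hu, hc]
  exact (cm_posDef_iff.mpr hz).mul_mul_conjTranspose_same (unit_vecMul hu)

theorem diff_det {E : Type} [NormedAddCommGroup E] [NormedSpace ℂ E] {F : E → Matrix ι ι ℂ}
    (hF : ∀ i j, Differentiable ℂ fun x => F x i j) : Differentiable ℂ fun x => (F x).det := by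
  simp only [det_apply']
  refine Differentiable.fun_sum fun σ _ => Differentiable.const_mul ?_ _
  intro x
  exact (HasFDerivAt.finsetProd (fun i _ => (hF (σ i) i x).hasFDerivAt)).differentiableAt

theorem diff_inv (i j : ι) : DifferentiableOn ℂ (fun ζ : Sym2 ι → ℂ => (1 - mat ζ)⁻¹ i j)
    {ζ | IsUnit (1 - mat ζ).det} := by
  have h0 : ∀ a b, Differentiable ℂ fun ζ : Sym2 ι → ℂ => (1 - mat ζ : Matrix ι ι ℂ) a b := by
    intro a b
    simp only [Matrix.sub_apply, mat_apply]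
    fun_prop
  simp only [Matrix.inv_def, Ring.inverse_eq_inv', Matrix.smul_apply, smul_eq_mul, adjugate_apply]
  refine DifferentiableOn.mul ?_ (Differentiable.differentiableOn (diff_det fun a b => ?_))
  · exact (diff_det h0).differentiableOn.inv fun ζ hζ => hζ.ne_zero
  · simp only [updateRow_apply]
    by_cases h : a = j
    · simp [h]
    · simpa [h] using h0 a b

theorem diff_cay : DifferentiableOn ℂ (cay : (Sym2 ι → ℂ) → Sym2 ι → ℂ)
    {ζ | IsUnit (1 - mat ζ).det} := by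
  refine differentiableOn_pi.mpr fun p => ?_
  induction p using Sym2.ind with
  | _ i j =>
    refine DifferentiableOn.congr (f := fun ζ : Sym2 ι → ℂ =>
      (2 * Complex.I) * (1 - mat ζ)⁻¹ i j - Complex.I * (1 : Matrix ι ι ℂ) i j) ?_ ?_
    · exact ((diff_inv i j).const_mul _).sub_const _
    · intro ζ hζ
      have := congrFun (congrFun (mat_cay ζ hζ) i) j
      simpa using this

theorem det_eq (ζ : Sym2 ι → ℂ) (hu : IsUnit (1 - mat ζ).det) (Z : HH ι) (hZ : Z.1 = cay ζ) :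
    (Ym Z).det * ‖(1 - mat ζ).det‖ ^ 2 = dd ζ := by
  have h := congrArg det (conj_im ζ hu)
  rw [det_mul, det_mul, det_conjTranspose, ← hZ, cm_det] at h
  have h2 : (((Ym Z).det * ‖(1 - mat ζ).det‖ ^ 2 : ℝ) : ℂ) = (1 - mat ζ * (mat ζ)ᴴ).det := by
    rw [← h]
    push_cast
    rw [← Complex.conj_mul', RCLike.star_def, Ym]
    ring
  rw [dd, ← h2, Complex.ofReal_re]

theorem Ym_iH : Ym (iH ι) = 1 := by
  ext i j
  have := congrFun (congrFun (mat_iH (ι := ι)) i) j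
  rw [mat_apply] at this
  rw [Ym, mat_apply, this]
  by_cases h : i = j
  · subst h; simp
  · simp [h]

theorem kd_eq (ζ : Sym2 ι → ℂ) (hu : IsUnit (1 - mat ζ).det) :
    kd (iH ι) (cay ζ) = ((1 - mat ζ).det)⁻¹ := by
  have hI : (2 * Complex.I : ℂ) ≠ 0 := by simp
  have h : mat (cay ζ) - mat (star (iH ι).1) = (2 * Complex.I) • (1 - mat ζ)⁻¹ := by
    rw [mat_cay ζ hu, mat_star, mat_iH, conjTranspose_smul, conjTranspose_one, Complex.star_def,
      Complex.conj_I, neg_smul]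
    abel
  rw [kd, h, smul_smul, inv_mul_cancel₀ hI, one_smul, det_nonsing_inv, Ring.inverse_eq_inv']

end CAY

open CAY in
theorem p_CAY (hDISC : S_DISC) : S_CAY := by
  intro ι _ _
  obtain ⟨-, -, h3, h4, -⟩ := hDISC ι
  have hu : ∀ ζ ∈ DD ι 0, IsUnit (1 - mat ζ).det := fun ζ hζ => (h3 ζ hζ).2.2.2.1
  refine ⟨⟨fun ζ hζ => cay_mem ζ (hu ζ hζ) hζ.1, ?_, ?_⟩, diff_cay.mono hu, ?_,
    fun ζ hζ => mat_cay ζ (hu ζ hζ), fun ζ hζ Z hZ => ⟨det_eq ζ (hu ζ hζ) Z hZ, ?_⟩⟩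
  · intro ζ hζ ζ' hζ' h
    have h1 := congrArg mat h
    rw [mat_cay ζ (hu ζ hζ), mat_cay ζ' (hu ζ' hζ'), sub_left_inj] at h1
    have h2 := smul_right_injective _ (show (2 * Complex.I : ℂ) ≠ 0 by simp) h1
    exact mat_injective (sub_right_injective (Matrix.inv_inj h2 (hu ζ hζ)))
  · intro z hz
    obtain ⟨ζ, h1, h2⟩ := surj hz
    exact ⟨ζ, h4 ζ h1, h2⟩
  · apply mat_injective
    have h0 : IsUnit (1 - mat (0 : Sym2 ι → ℂ)).det := by rw [mat_zero]; simp
    rw [mat_cay _ h0, mat_iH, mat_zero, sub_zero, inv_one, ← sub_smul]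
    congr 1; ring
  · rw [← det_eq ζ (hu ζ hζ) Z hZ, dl, hZ, kd_eq ζ (hu ζ hζ), Ym_iH, det_one, mul_one, div_pow,
      Real.sq_sqrt (Ym_det_pos Z).le, norm_inv, inv_pow, div_inv_eq_mul]

end Pool.Agent.P.MP_59bdab_ag
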