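import Pool.Agent.P.MP_59bdab_ag.IfB

/-! The invariant measure in the Siegel disc. -/

namespace Pool.Agent.P.MP_59bdab_ag

open Matrix MeasureTheory Filter Topology
open scoped ENNReal ComplexOrder

namespace CAYM

variable {ι : Type} [Fintype ι] [DecidableEq ι]

open scoped Matrix.Norms.Operator in
/-- The derivative of the inversion of symmetric matrices. -/
theorem hasFDerivAt_inv {z : Sym2 ι → ℂ} (hz : IsUnit (mat z).det) :
    HasFDerivAt (fun z : Sym2 ι → ℂ => coord (mat z)⁻¹)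
      (-LinearMap.toContinuousLinearMap (symL (mat z)⁻¹)) z := by
  have hu : IsUnit (mat z) := (isUnit_iff_isUnit_det _).2 hz
  have : CompleteSpace (Matrix ι ι ℂ) := FiniteDimensional.complete ℂ _
  have h1 := hasFDerivAt_ringInverse (𝕜 := ℂ) hu.unit
  have h2 : HasFDerivAt (mat : (Sym2 ι → ℂ) → Matrix ι ι ℂ)
      (LinearMap.toContinuousLinearMap (matL ι ℂ)) z :=
    (LinearMap.toContinuousLinearMap (matL ι ℂ)).hasFDerivAt
  have h3 := (LinearMap.toContinuousLinearMap (coordL ι ℂ)).hasFDerivAt.comp z (h1.comp z h2)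
  have e : (fun z : Sym2 ι → ℂ => coord (mat z)⁻¹) =
      (LinearMap.toContinuousLinearMap (coordL ι ℂ)) ∘ Ring.inverse ∘ mat := by
    funext w
    simp only [Function.comp_apply, nonsing_inv_eq_ringInverse]
    rfl
  rw [e]
  refine h3.congr_fderiv (ContinuousLinearMap.ext fun w => ?_)
  have e1 : ((hu.unit⁻¹ : (Matrix ι ι ℂ)ˣ) : Matrix ι ι ℂ) = (mat z)⁻¹ := by
    rw [coe_units_inv, hu.unit_spec]
  have e2 : ((mat z)⁻¹)ᵀ = (mat z)⁻¹ := by rw [transpose_nonsing_inv, mat_transpose]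
  change coordL ι ℂ (-(_ * mat w * _)) = -coord (_ * mat w * _)
  rw [map_neg, e1, e2]
  rfl

theorem mat_one_sub (ζ : Sym2 ι → ℂ) : mat (coord (1 : Matrix ι ι ℂ) - ζ) = 1 - mat ζ := by
  rw [mat_sub, mat_coord transpose_one]

/-- The complex derivative of the Cayley map. -/
noncomputable def dc (ζ : Sym2 ι → ℂ) : (Sym2 ι → ℂ) →L[ℂ] (Sym2 ι → ℂ) :=
  LinearMap.toContinuousLinearMap ((2 * Complex.I) • symL (1 - mat ζ)⁻¹)

theorem deriv_cay (hDISC : S_DISC) (hCAY : S_CAY) {ζ : Sym2 ι → ℂ} (hζ : ζ ∈ DD ι 0) :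
    HasFDerivWithinAt cay (dc ζ) (DD ι 0) ζ := by
  have hu := ((hDISC ι).2.2.1 ζ hζ).2.2.2.1
  rw [← mat_one_sub] at hu
  have h1 : HasFDerivAt (fun ξ : Sym2 ι → ℂ => coord (1 : Matrix ι ι ℂ) - ξ)
      (-ContinuousLinearMap.id ℂ _) ζ := (hasFDerivAt_id ζ).const_sub _
  have h2 := (((hasFDerivAt_inv hu).comp ζ h1).const_smul (2 * Complex.I)).sub_const
    (Complex.I • coord (1 : Matrix ι ι ℂ))
  have e : ∀ ξ ∈ DD ι 0, cay ξ = (2 * Complex.I) • coord (mat (coord (1 : Matrix ι ι ℂ) - ξ))⁻¹ -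
      Complex.I • coord (1 : Matrix ι ι ℂ) := by
    intro ξ hξ
    apply mat_injective
    rw [(hCAY ι).2.2.2.1 ξ hξ, mat_sub, mat_smul, mat_smul, mat_coord transpose_one,
      mat_coord (by rw [transpose_nonsing_inv, mat_transpose]), mat_one_sub]
  refine (h2.congr_fderiv (ContinuousLinearMap.ext fun w => ?_)).hasFDerivWithinAt.congr
    (fun ξ hξ => e ξ hξ) (e ζ hζ)
  simp [dc, mat_one_sub]

theorem det_dc (hDET : S_DET) (ζ : Sym2 ι → ℂ) :
    ((dc ζ).restrictScalars ℝ).det =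
      4 ^ tri (Fintype.card ι) * ((‖(1 - mat ζ).det‖ ^ 2) ^ (Fintype.card ι + 1))⁻¹ := by
  have e : ((dc ζ).restrictScalars ℝ).det =
      LinearMap.det (((2 * Complex.I) • symL (1 - mat ζ)⁻¹).restrictScalars ℝ) := rfl
  rw [e, LinearMap.det_restrictScalars, Algebra.norm_complex_apply, LinearMap.det_smul, hDET,
    Module.finrank_fintype_fun_eq_card, card_sym2_eq, det_nonsing_inv, Ring.inverse_eq_inv,
    map_mul, map_pow, map_pow, map_inv₀, Complex.normSq_eq_norm_sq (1 - mat ζ).det, inv_pow]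
  congr 2
  simp
  norm_num

end CAYM

theorem p_CAYM (hDISC : S_DISC) (hCAY : S_CAY) (hDET : S_DET) (hMEAS : S_MEAS) : S_CAYM := by
  intro ι _ _ φ ψ hφ hψ
  have hm : Measurable (Function.extend (Subtype.val : HH ι → _) φ 0) :=
    (MeasurableEmbedding.subtype_coe (isOpen_HS ι).measurableSet).measurable_extend hφ
      measurable_const
  have h1 := (hMEAS ι).2.2.2.2.2.2.1 _ hm
  simp only [Subtype.val_injective.extend_apply] at h1
  have hD := ((hDISC ι).2.1 0).measurableSet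
  have h2 := lintegral_image_eq_lintegral_abs_det_fderiv_mul volume hD
    (f := cay) (f' := fun ζ => (CAYM.dc ζ).restrictScalars ℝ)
    (fun ζ hζ => (CAYM.deriv_cay hDISC hCAY hζ).restrictScalars ℝ) (hCAY ι).1.injOn
    (fun z => ENNReal.ofReal (((mat fun p => (z p).im).det ^ (Fintype.card ι + 1))⁻¹) *
      Function.extend (Subtype.val : HH ι → _) φ 0 z)
  rw [(hCAY ι).1.image_eq] at h2
  rw [h1, h2, ← lintegral_const_mul' _ _ (ENNReal.pow_ne_top (by norm_num))]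
  refine setLIntegral_congr_fun hD fun ζ hζ => ?_
  let Z : HH ι := ⟨cay ζ, (hCAY ι).1.mapsTo hζ⟩
  have h3 : Function.extend (Subtype.val : HH ι → _) φ 0 (cay ζ) = ψ ζ := by
    rw [hψ ζ hζ Z rfl]
    exact Subtype.val_injective.extend_apply φ 0 Z
  have h4 : (Ym Z).det * ‖(1 - mat ζ).det‖ ^ 2 = dd ζ := ((hCAY ι).2.2.2.2 ζ hζ Z rfl).1
  have h5 : (mat fun p => (cay ζ p).im) = Ym Z := rfl
  have h6 := Ym_det_pos Z
  simp only [h3, h5, CAYM.det_dc hDET]
  rw [← mul_assoc, ← mul_assoc, ← ENNReal.ofReal_mul (abs_nonneg _), abs_of_nonneg (by positivity),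
    mul_assoc, ← mul_inv, ← mul_pow, mul_comm (_ ^ 2), h4, ENNReal.ofReal_mul (by positivity),
    ENNReal.ofReal_pow (by norm_num)]
  norm_num

end Pool.Agent.P.MP_59bdab_ag
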