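import Pool.Agent.P.MP_59bdab_ag.Inter

/-!
Intersection numbers of the Hodge bundle `M` and the boundary `D` on the perfect cone
compactification, as Chern-Weil integrals of smooth hermitian metrics.

The compactification is covered by the torus embedding of `HS / Sym(ℤ)` in the toric variety of the
perfect cone fan. The cones of the fan are spanned by the matrices `p pᵀ`, where `p` runs through
the vectors with `t[p] = 1` of a quadratic form `t` that is `≥ 1` on nonzero integer vectors.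
-/

namespace Pool.Agent.P.MP_59bdab_ag

open Matrix MeasureTheory
open scoped ContDiff

section forms
variable {κ : Type} [Fintype κ] [DecidableEq κ]

/-- Wirtinger derivatives: `wd (-I) a = ∂ / ∂ z_a` and `wd I a = ∂ / ∂ (conj z_a)`. -/
noncomputable def wd (c : ℂ) (a : κ) (u : (κ → ℂ) → ℂ) (z : κ → ℂ) : ℂ :=
  (fderiv ℝ u z (Pi.single a 1) + c * fderiv ℝ u z (Pi.single a Complex.I)) / 2

/-- The coefficient matrix of the form `∂ ∂bar u`. -/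
noncomputable def levi (u : (κ → ℂ) → ℝ) (z : κ → ℂ) : Matrix κ κ ℂ :=
  Matrix.of fun a b => wd (-Complex.I) a (wd Complex.I b fun y => (u y : ℂ)) z

/-- The coefficient of the wedge product of the forms `∑ a b, A l a b dz_a ∧ d(conj z_b)`. -/
noncomputable def wedge (A : κ → Matrix κ κ ℂ) : ℂ :=
  ∑ σ : Equiv.Perm κ, ∑ τ : Equiv.Perm κ,
    ((Equiv.Perm.sign σ : ℤ) : ℂ) * ((Equiv.Perm.sign τ : ℤ) : ℂ) * ∏ l, A l (σ l) (τ l)

/-- The character `exp (2 π i ⟨n, z⟩)` of the torus. -/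
noncomputable def chr (n : κ → ℤ) (z : κ → ℂ) : ℂ :=
  Complex.exp (2 * Real.pi * Complex.I * ∑ a, (n a : ℂ) * z a)

end forms

variable {ι : Type} [Fintype ι] [DecidableEq ι]

/-- The value at `p` of the quadratic form `∑_{i ≤ j} t_ij x_i x_j`; it is the pairing of `t`
with the symmetric matrix `p pᵀ`. -/
def pr (t : Sym2 ι → ℝ) (p : ι → ℤ) : ℝ := ∑ a, t a * (((a.map p).mul : ℤ) : ℝ)

open Classical in
/-- The value of a character, regular on the chart of the cone of `t`, at the point of the closed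
torus orbit of that chart given by `W`. -/
noncomputable def chr0 (t : Sym2 ι → ℝ) (W : Sym2 ι → ℂ) (n : Sym2 ι → ℤ) : ℂ :=
  if ∀ p, pr t p = 1 → pr (fun a => n a) p = 0 then chr n W else 0

/-- `u` extends smoothly to that point: near it, `u` is a smooth function of finitely many
characters from the dual cone. -/
def Sm (t : Sym2 ι → ℝ) (W : Sym2 ι → ℂ) (u : (Sym2 ι → ℂ) → ℝ) : Prop :=
  ∃ (m : ℕ) (n : Fin m → Sym2 ι → ℤ) (ε : ℝ) (F : (Fin m → ℂ) → ℝ), 0 < ε ∧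
    (∀ l p, pr t p = 1 → 0 ≤ pr (fun a => n l a) p) ∧
    ContDiffOn ℝ ∞ F (Metric.ball (fun l => chr0 t W (n l)) ε) ∧
    ∀ z ∈ HS ι, (fun l => chr (n l) z) ∈ Metric.ball (fun l => chr0 t W (n l)) ε →
      u z = F fun l => chr (n l) z

/-- `C z + D`. -/
def cd (γ : Matrix (ι ⊕ ι) (ι ⊕ ι) ℤ) (z : Sym2 ι → ℂ) : Matrix ι ι ℂ :=
  γ.toBlocks₂₁.map (↑) * mat z + γ.toBlocks₂₂.map (↑)

/-- `w = (A z + B) (C z + D)⁻¹`. -/
def Act (γ : Matrix (ι ⊕ ι) (ι ⊕ ι) ℤ) (z w : Sym2 ι → ℂ) : Prop :=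
  mat w = (γ.toBlocks₁₁.map (↑) * mat z + γ.toBlocks₁₂.map (↑)) * (cd γ z)⁻¹

/-- `exp (-u)` is a smooth hermitian metric on `c M + d D`. -/
def Met (c d : ℝ) (u : (Sym2 ι → ℂ) → ℝ) : Prop :=
  (∀ γ ∈ symplecticGroup ι ℤ, ∀ z ∈ HS ι, ∀ w, Act γ z w →
    u w = u z + c * Real.log (‖(cd γ z).det‖ ^ 2)) ∧
  ∀ t : Sym2 ι → ℝ, (∀ p, p ≠ 0 → 1 ≤ pr t p) → ∀ W ∈ HS ι,
    Sm t W fun z => u z - d * (4 * Real.pi * ∑ a, t a * (z a).im)

/-- Measurable fundamental domains for `Sp(2g, ℤ) / ±1`. -/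
def FD (F : Set (Sym2 ι → ℂ)) : Prop :=
  MeasurableSet F ∧ F ⊆ HS ι ∧ (∀ z ∈ HS ι, ∃ γ ∈ symplecticGroup ι ℤ, ∃ w ∈ F, Act γ z w) ∧
  ∀ γ ∈ symplecticGroup ι ℤ, γ ≠ 1 → γ ≠ -1 → volume {z ∈ F | ∃ w ∈ F, Act γ z w} = 0

/-- `M ^ (N - b) * D ^ b = c` on the stack: smooth metrics and fundamental domains exist, and for
all of them `(1 / 2) ∫_F c₁(M) ^ (N - b) ∧ c₁(D) ^ b` converges and equals `c`, where
`c₁ = (i / 2π) ∂ ∂bar u` and `i dz ∧ d(conj z) = 2 dx ∧ dy`. -/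
def IsInter (g b : ℕ) (c : ℝ) : Prop :=
  (∃ (μ δ : (Sym2 (Fin g) → ℂ) → ℝ) (F : Set (Sym2 (Fin g) → ℂ)),
    Met 1 0 μ ∧ Met 0 1 δ ∧ FD F) ∧
  ∀ (μ δ : (Sym2 (Fin g) → ℂ) → ℝ) (F : Set (Sym2 (Fin g) → ℂ)) (B : Finset (Sym2 (Fin g))),
    Met 1 0 μ → Met 0 1 δ → FD F → B.card = b →
    IntegrableOn (fun z => wedge fun l => levi (if l ∈ B then δ else μ) z) F ∧
    (1 / 2 : ℂ) * ((Real.pi : ℂ)⁻¹ ^ tri g *
      ∫ z in F, wedge fun l => levi (if l ∈ B then δ else μ) z) = c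

end Pool.Agent.P.MP_59bdab_ag
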