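import Pool.Agent.P.MP_59bdab_ag.IfB
import Pool.Agent.P.MP_59bdab_ag.CDefs

/-!
Auxiliary definitions for the Chern-Weil computation, with their first properties.
-/

set_option linter.unusedSectionVars false

namespace Pool.Agent.P.MP_59bdab_ag

open Matrix MeasureTheory Filter Topology
open scoped ENNReal ContDiff

section smooth
variable {𝕜 E n : Type} [RCLike 𝕜] [NormedAddCommGroup E] [NormedSpace 𝕜 E] [Fintype n]
  [DecidableEq n] {M : E → Matrix n n 𝕜} {s : Set E} {k : WithTop ℕ∞}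

theorem contDiffOn_det (h : ∀ i j, ContDiffOn 𝕜 k (fun x => M x i j) s) :
    ContDiffOn 𝕜 k (fun x => (M x).det) s := by
  simp only [det_apply']
  exact ContDiffOn.sum fun σ _ => contDiffOn_const.mul (contDiffOn_prod fun i _ => h _ _)

theorem contDiffOn_adjugate (h : ∀ i j, ContDiffOn 𝕜 k (fun x => M x i j) s) (i j : n) :
    ContDiffOn 𝕜 k (fun x => (M x).adjugate i j) s := by
  simp only [adjugate_apply]
  refine contDiffOn_det fun a b => ?_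
  by_cases ha : a = j
  · simp only [ha, updateRow_self]; exact contDiffOn_const
  · simp only [updateRow_ne ha]; exact h a b

theorem contDiffOn_minv (h : ∀ i j, ContDiffOn 𝕜 k (fun x => M x i j) s)
    (h0 : ∀ x ∈ s, (M x).det ≠ 0) (i j : n) : ContDiffOn 𝕜 k (fun x => (M x)⁻¹ i j) s := by
  simp only [Matrix.inv_def, Ring.inverse_eq_inv', Matrix.smul_apply, smul_eq_mul]
  exact ((contDiffOn_det h).inv h0).mul (contDiffOn_adjugate h i j)

theorem contDiffOn_coord (h : ∀ i j, ContDiffOn 𝕜 k (fun x => M x i j) s) :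
    ContDiffOn 𝕜 k (fun x => coord (M x)) s := by
  refine contDiffOn_pi.mpr fun a => ?_
  induction a using Sym2.ind with
  | _ i j => exact ((h i j).add (h j i)).div_const _

end smooth

section forms
variable {κ : Type}

/-- Imaginary part of a complex vector. -/
def imv (z : κ → ℂ) : κ → ℝ := fun a => (z a).im
/-- Real part of a complex vector. -/
def rev (z : κ → ℂ) : κ → ℝ := fun a => (z a).re
/-- The complex vector `x + i y`. -/
def cv (x y : κ → ℝ) : κ → ℂ := fun a => (x a : ℂ) + Complex.I * y a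

@[simp] theorem imv_cv (x y : κ → ℝ) : imv (cv x y) = y := by funext a; simp [imv, cv]
@[simp] theorem rev_cv (x y : κ → ℝ) : rev (cv x y) = x := by funext a; simp [rev, cv]
@[simp] theorem cv_rev_imv (z : κ → ℂ) : cv (rev z) (imv z) = z := by
  funext a; simp only [cv, rev, imv]; rw [mul_comm, Complex.re_add_im]
theorem imv_add (z w : κ → ℂ) : imv (z + w) = imv z + imv w := by funext a; simp [imv]
theorem imv_sub (z w : κ → ℂ) : imv (z - w) = imv z - imv w := by funext a; simp [imv]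
theorem rev_add (z w : κ → ℂ) : rev (z + w) = rev z + rev w := by funext a; simp [rev]
theorem rev_sub (z w : κ → ℂ) : rev (z - w) = rev z - rev w := by funext a; simp [rev]
theorem continuous_imv : Continuous (imv : (κ → ℂ) → κ → ℝ) :=
  continuous_pi fun a => Complex.continuous_im.comp (continuous_apply a)
theorem continuous_rev : Continuous (rev : (κ → ℂ) → κ → ℝ) :=
  continuous_pi fun a => Complex.continuous_re.comp (continuous_apply a)
theorem continuous_cv : Continuous fun p : (κ → ℝ) × (κ → ℝ) => cv p.1 p.2 := by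
  refine continuous_pi fun a => ?_
  simp only [cv]
  fun_prop

variable [Fintype κ]

/-- `imv` as a continuous linear map. -/
noncomputable def imL (κ : Type) [Fintype κ] : (κ → ℂ) →L[ℝ] (κ → ℝ) :=
  ContinuousLinearMap.pi fun a => Complex.imCLM.comp (ContinuousLinearMap.proj a)
@[simp] theorem imL_apply (z : κ → ℂ) : imL κ z = imv z := rfl
theorem contDiff_imv : ContDiff ℝ ∞ (imv : (κ → ℂ) → κ → ℝ) := (imL κ).contDiff

/-- The hermitian form `∑ a b, A a b ζ_a conj ζ_b`. -/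
def hq (A : Matrix κ κ ℂ) (ζ : κ → ℂ) : ℂ := ζ ⬝ᵥ A *ᵥ star ζ

theorem hq_add (A B : Matrix κ κ ℂ) (ζ : κ → ℂ) : hq (A + B) ζ = hq A ζ + hq B ζ := by
  simp [hq, add_mulVec]
theorem hq_sub (A B : Matrix κ κ ℂ) (ζ : κ → ℂ) : hq (A - B) ζ = hq A ζ - hq B ζ := by
  simp [hq, sub_mulVec]
theorem hq_smul (c : ℂ) (A : Matrix κ κ ℂ) (ζ : κ → ℂ) : hq (c • A) ζ = c * hq A ζ := by
  simp [hq, smul_mulVec]
@[simp] theorem hq_zero (ζ : κ → ℂ) : hq (0 : Matrix κ κ ℂ) ζ = 0 := by simp [hq]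

/-- Polarisation. -/
theorem hq_polar (A : Matrix κ κ ℂ) (ξ ζ : κ → ℂ) :
    4 * (ξ ⬝ᵥ A *ᵥ star ζ) = hq A (ξ + ζ) - hq A (ξ - ζ) +
      Complex.I * (hq A (ξ + Complex.I • ζ) - hq A (ξ - Complex.I • ζ)) := by
  simp only [hq, star_add, star_sub, star_smul, mulVec_add, mulVec_sub, mulVec_smul,
    add_dotProduct, sub_dotProduct, dotProduct_add, dotProduct_sub, smul_dotProduct,
    dotProduct_smul, smul_eq_mul, RCLike.star_def, Complex.conj_I]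
  linear_combination (2 * (ξ ⬝ᵥ A *ᵥ star ζ) - 2 * (ζ ⬝ᵥ A *ᵥ star ξ)) * Complex.I_mul_I

theorem hq_ext [DecidableEq κ] {A B : Matrix κ κ ℂ} (h : ∀ ζ, hq A ζ = hq B ζ) : A = B := by
  ext a b
  have h1 := hq_polar A (Pi.single a 1) (Pi.single b 1)
  have h2 := hq_polar B (Pi.single a 1) (Pi.single b 1)
  simp only [h] at h1
  rw [← h2] at h1
  have h3 := mul_left_cancel₀ (by norm_num : (4 : ℂ) ≠ 0) h1
  have h4 : star (Pi.single b 1 : κ → ℂ) = Pi.single b 1 := by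
    funext i; by_cases hi : i = b <;> simp [hi]
  simpa [h4] using h3

/-- A hermitian form of Poincare type. -/
noncomputable def omg (L : Finset (κ → ℝ)) (y : κ → ℝ) (ζ : κ → ℂ) : ℝ :=
  ∑ l ∈ L, ‖(fun a => (l a : ℂ)) ⬝ᵥ ζ‖ ^ 2 / (1 + (l ⬝ᵥ y) ^ 2)

/-- Its matrix. -/
noncomputable def Om (L : Finset (κ → ℝ)) (y : κ → ℝ) : Matrix κ κ ℝ :=
  ∑ l ∈ L, (1 + (l ⬝ᵥ y) ^ 2)⁻¹ • vecMulVec l l

theorem omg_nonneg (L : Finset (κ → ℝ)) (y : κ → ℝ) (ζ : κ → ℂ) : 0 ≤ omg L y ζ :=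
  Finset.sum_nonneg fun _ _ => by positivity

theorem omg_mono {L L' : Finset (κ → ℝ)} (h : L ⊆ L') (y : κ → ℝ) (ζ : κ → ℂ) :
    omg L y ζ ≤ omg L' y ζ :=
  Finset.sum_le_sum_of_subset_of_nonneg h fun _ _ _ => by positivity

/-- `A` is dominated by `C` times the form `omg`. -/
def Dom (L : Finset (κ → ℝ)) (y : κ → ℝ) (C : ℝ) (A : Matrix κ κ ℂ) : Prop :=
  ∀ ζ, ‖hq A ζ‖ ≤ C * omg L y ζ

theorem Dom.mono {L L' : Finset (κ → ℝ)} {y : κ → ℝ} {C C' : ℝ} {A : Matrix κ κ ℂ}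
    (h : Dom L y C A) (hL : L ⊆ L') (hC : C ≤ C') (hC' : 0 ≤ C') : Dom L' y C' A := fun ζ =>
  (h ζ).trans ((mul_le_mul_of_nonneg_right hC (omg_nonneg _ _ _)).trans
    (mul_le_mul_of_nonneg_left (omg_mono hL y ζ) hC'))

theorem Dom.add {L : Finset (κ → ℝ)} {y : κ → ℝ} {C C' : ℝ} {A B : Matrix κ κ ℂ}
    (h : Dom L y C A) (h' : Dom L y C' B) : Dom L y (C + C') (A + B) := fun ζ => by
  rw [hq_add, add_mul]
  exact (norm_add_le _ _).trans (add_le_add (h ζ) (h' ζ))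

theorem Dom.smul {L : Finset (κ → ℝ)} {y : κ → ℝ} {C : ℝ} {A : Matrix κ κ ℂ}
    (h : Dom L y C A) (c : ℂ) : Dom L y (‖c‖ * C) (c • A) := fun ζ => by
  rw [hq_smul, norm_mul, mul_assoc]
  exact mul_le_mul_of_nonneg_left (h ζ) (norm_nonneg _)

theorem chr_ne_zero (n : κ → ℤ) (z : κ → ℂ) : chr n z ≠ 0 := Complex.exp_ne_zero _

theorem chr_add (n : κ → ℤ) (z w : κ → ℂ) : chr n (z + w) = chr n z * chr n w := by
  simp only [chr, Pi.add_apply, mul_add, Finset.sum_add_distrib, Complex.exp_add]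

theorem chr_add' (n n' : κ → ℤ) (z : κ → ℂ) : chr (n + n') z = chr n z * chr n' z := by
  simp only [chr, Pi.add_apply, Int.cast_add, add_mul, mul_add, Finset.sum_add_distrib,
    Complex.exp_add]

theorem chr_int (n r : κ → ℤ) : chr n (fun a => (r a : ℂ)) = 1 := by
  have h := Complex.exp_int_mul_two_pi_mul_I (∑ a, n a * r a)
  rw [chr, ← h]
  congr 1
  push_cast
  ring

theorem norm_chr (n : κ → ℤ) (z : κ → ℂ) :
    ‖chr n z‖ = Real.exp (-(2 * Real.pi * (cz n ⬝ᵥ imv z))) := by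
  rw [chr, Complex.norm_exp]
  congr 1
  simp [dotProduct, cz, imv]

theorem cz_dot (n m : κ → ℤ) : cz n ⬝ᵥ cz m = ((n ⬝ᵥ m : ℤ) : ℝ) := by simp [cz, dotProduct]

theorem contDiff_chr (n : κ → ℤ) : ContDiff ℂ ∞ (chr n) := by
  unfold chr
  fun_prop

variable [DecidableEq κ]

/-- The coefficients of `∂ u`. -/
noncomputable def dzz (u : (κ → ℂ) → ℝ) (z : κ → ℂ) : κ → ℂ :=
  fun a => wd (-Complex.I) a (fun y => (u y : ℂ)) z

end forms

variable {ι : Type}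

theorem mem_HS {z : Sym2 ι → ℂ} : z ∈ HS ι ↔ imv z ∈ PD ι := Iff.rfl
theorem Ym_eq (Z : HH ι) : Ym Z = mat (imv Z.1) := rfl
theorem Xm_eq (Z : HH ι) : Xm Z = mat (rev Z.1) := rfl
theorem cv_mem {x y : Sym2 ι → ℝ} (h : y ∈ PD ι) : cv x y ∈ HS ι := by rwa [mem_HS, imv_cv]

/-- The integral matrix `p pᵀ` in coordinates. -/
def sqz (p : ι → ℤ) : Sym2 ι → ℤ := fun a => (a.map p).mul
/-- The real matrix `p pᵀ` in coordinates. -/
def sqr (p : ι → ℤ) : Sym2 ι → ℝ := cz (sqz p)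

@[simp] theorem sqz_mk (p : ι → ℤ) (i j : ι) : sqz p s(i, j) = p i * p j := rfl
@[simp] theorem sqr_mk (p : ι → ℤ) (i j : ι) : sqr p s(i, j) = (p i : ℝ) * p j := by
  simp [sqr, cz]
theorem mat_sqr (p : ι → ℤ) : mat (sqr p) = vecMulVec (cz p) (cz p) := by
  ext i j; simp [vecMulVec_apply, cz]
@[simp] theorem sqr_zero : sqr (0 : ι → ℤ) = 0 := by
  funext a; induction a using Sym2.ind with | _ i j => simp
theorem tv_eq (p : ι → ℤ) (a : Sym2 ι) : tv p a = (sqr p a : ℂ) := by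
  induction a using Sym2.ind with
  | _ i j => rw [sqr_mk]; push_cast; rfl
theorem tv_eq' (p : ι → ℤ) (a : Sym2 ι) : tv p a = (sqz p a : ℂ) := by
  rw [tv_eq]; simp [sqr, cz]

variable [DecidableEq ι]

/-- The symmetric matrix of the quadratic form `∑_{i ≤ j} t_ij x_i x_j`. -/
noncomputable def dm (t : Sym2 ι → ℝ) : Matrix ι ι ℝ :=
  Matrix.of fun i j => if i = j then t s(i, j) else t s(i, j) / 2

/-- The coefficients of the quadratic form of a matrix. -/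
noncomputable def ud (M : Matrix ι ι ℝ) : Sym2 ι → ℝ :=
  fun a => if a.IsDiag then coord M a else 2 * coord M a

theorem dm_apply (t : Sym2 ι → ℝ) (i j : ι) :
    dm t i j = if i = j then t s(i, j) else t s(i, j) / 2 := rfl
theorem dm_transpose (t : Sym2 ι → ℝ) : (dm t)ᵀ = dm t := by
  ext i j; simp only [transpose_apply, dm_apply, Sym2.eq_swap (a := j), eq_comm (a := j)]
theorem dm_isHermitian (t : Sym2 ι → ℝ) : (dm t).IsHermitian := by
  rw [IsHermitian, conjTranspose_eq_transpose_of_trivial, dm_transpose]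
theorem dm_add (s t : Sym2 ι → ℝ) : dm (s + t) = dm s + dm t := by
  ext i j; simp only [dm_apply, Matrix.add_apply, Pi.add_apply]; split_ifs <;> ring
theorem dm_smul (c : ℝ) (t : Sym2 ι → ℝ) : dm (c • t) = c • dm t := by
  ext i j; simp only [dm_apply, Matrix.smul_apply, Pi.smul_apply, smul_eq_mul]
  split_ifs <;> ring
@[simp] theorem ud_dm (t : Sym2 ι → ℝ) : ud (dm t) = t := by
  funext a
  induction a using Sym2.ind with
  | _ i j =>
    by_cases h : i = j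
    · subst h; simp [ud, dm_apply]
    · simp only [ud, Sym2.mk_isDiag_iff, h, if_false, coord_mk, dm_apply, Ne.symm h,
        Sym2.eq_swap (a := j)]
      ring
theorem dm_ud {M : Matrix ι ι ℝ} (h : Mᵀ = M) : dm (ud M) = M := by
  ext i j
  have h1 : M j i = M i j := congrFun (congrFun h i) j
  by_cases hij : i = j
  · subst hij; simp [ud, dm_apply]
  · simp only [ud, Sym2.mk_isDiag_iff, hij, if_false, coord_mk, dm_apply, h1]
    ring
theorem dm_injective : Function.Injective (dm : (Sym2 ι → ℝ) → Matrix ι ι ℝ) :=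
  Function.LeftInverse.injective ud_dm
theorem continuous_dm : Continuous (dm : (Sym2 ι → ℝ) → Matrix ι ι ℝ) := by
  refine continuous_pi fun i => continuous_pi fun j => ?_
  simp only [dm_apply]
  split_ifs <;> fun_prop
theorem continuous_ud : Continuous (ud : Matrix ι ι ℝ → Sym2 ι → ℝ) := by
  refine continuous_pi fun a => ?_
  have h : Continuous fun M : Matrix ι ι ℝ => coord M a :=
    (continuous_apply a).comp continuous_coord
  simp only [ud]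
  split_ifs
  · exact h
  · exact continuous_const.mul h

/-- `dm` as a linear map. -/
noncomputable def dmL (ι : Type) [DecidableEq ι] : (Sym2 ι → ℝ) →ₗ[ℝ] Matrix ι ι ℝ where
  toFun := dm
  map_add' := dm_add
  map_smul' := dm_smul

variable [Fintype ι]

theorem pr_eq (t : Sym2 ι → ℝ) (p : ι → ℤ) : pr t p = t ⬝ᵥ sqr p := rfl
@[simp] theorem pr_zero (t : Sym2 ι → ℝ) : pr t 0 = 0 := by simp [pr_eq]
theorem pr_add (s t : Sym2 ι → ℝ) (p : ι → ℤ) : pr (s + t) p = pr s p + pr t p := by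
  simp [pr_eq]
theorem pr_sub (s t : Sym2 ι → ℝ) (p : ι → ℤ) : pr (s - t) p = pr s p - pr t p := by
  simp [pr_eq]
theorem pr_smul (c : ℝ) (t : Sym2 ι → ℝ) (p : ι → ℤ) : pr (c • t) p = c * pr t p := by
  simp [pr_eq]
theorem pr_cz (n : Sym2 ι → ℤ) (p : ι → ℤ) : pr (cz n) p = ((n ⬝ᵥ sqz p : ℤ) : ℝ) :=
  cz_dot n (sqz p)
theorem chr0_of {t : Sym2 ι → ℝ} (W : Sym2 ι → ℂ) {n : Sym2 ι → ℤ}
    (h : ∀ p, pr t p = 1 → pr (cz n) p = 0) : chr0 t W n = chr n W := if_pos h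
theorem chr0_of_not {t : Sym2 ι → ℝ} (W : Sym2 ι → ℂ) {n : Sym2 ι → ℤ}
    (h : ¬ ∀ p, pr t p = 1 → pr (cz n) p = 0) : chr0 t W n = 0 := if_neg h
theorem continuous_pr (p : ι → ℤ) : Continuous fun t : Sym2 ι → ℝ => pr t p := by
  unfold pr; fun_prop

/-- The pairing of coefficients with coordinates is the trace pairing. -/
theorem dot_eq_trace (t y : Sym2 ι → ℝ) : t ⬝ᵥ y = (dm t * mat y).trace := by
  have h1 : (dm t * mat y).trace = ∑ x : ι × ι, dm t x.1 x.2 * y s(x.1, x.2) := by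
    rw [Fintype.sum_prod_type]
    simp only [trace, diag_apply, mul_apply, mat_apply]
    refine Finset.sum_congr rfl fun i _ => Finset.sum_congr rfl fun j _ => ?_
    rw [Sym2.eq_swap]
  rw [h1, ← Finset.sum_fiberwise (s := Finset.univ) (g := fun x : ι × ι => s(x.1, x.2))]
  refine Finset.sum_congr rfl fun a _ => ?_
  induction a using Sym2.ind with
  | _ i j =>
    by_cases h : i = j
    · subst h
      rw [Finset.sum_eq_single (i, i)]
      · simp [dm_apply]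
      · intro x hx hx'
        simp only [Finset.mem_filter, Finset.mem_univ, true_and, Sym2.eq_iff, or_self] at hx
        exact absurd (Prod.ext hx.1 hx.2) hx'
      · simp
    · have h2 : (Finset.univ.filter fun x : ι × ι => s(x.1, x.2) = s(i, j)) = {(i, j), (j, i)} := by
        ext x
        simp only [Finset.mem_filter, Finset.mem_univ, true_and, Sym2.eq_iff, Finset.mem_insert,
          Finset.mem_singleton, Prod.ext_iff]
      rw [h2, Finset.sum_pair (by simp [h])]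
      simp only [dm_apply, h, Ne.symm h, if_false, Sym2.eq_swap (a := j)]
      ring

theorem pr_eq_qf (t : Sym2 ι → ℝ) (p : ι → ℤ) : pr t p = qf (dm t) p := by
  rw [pr_eq, dot_eq_trace, mat_sqr, mul_vecMulVec, trace_vecMulVec, qf, dotProduct_comm]

/-- Forms that are positive definite. -/
def PT (ι : Type) [DecidableEq ι] : Set (Sym2 ι → ℝ) := {t | (dm t).PosDef}

theorem isOpen_PT : IsOpen (PT ι) := isOpen_posDef continuous_dm dm_isHermitian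

/-- The Ryshkov polyhedron. -/
def Ry (ι : Type) [Fintype ι] [DecidableEq ι] : Set (Sym2 ι → ℝ) :=
  {t | ∀ p, p ≠ 0 → 1 ≤ pr t p}

/-- The interior of a dilated Ryshkov polyhedron. -/
def RI (ι : Type) [Fintype ι] [DecidableEq ι] (s : ℝ) : Set (Sym2 ι → ℝ) :=
  {t | ∀ p, p ≠ 0 → s < pr t p}

/-- `P` is the finite set of vectors with `t[p] = 1`. -/
def IsMin (t : Sym2 ι → ℝ) (P : Finset (ι → ℤ)) : Prop := ∀ p, p ∈ P ↔ pr t p = 1

/-- Characters in the dual cone. -/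
def Du (t : Sym2 ι → ℝ) (n : Sym2 ι → ℤ) : Prop := ∀ p, pr t p = 1 → 0 ≤ pr (cz n) p

/-- Neighbourhoods in the half space of a point of a toric chart. -/
noncomputable def cfil (t : Sym2 ι → ℝ) (W : Sym2 ι → ℂ) : Filter (Sym2 ι → ℂ) :=
  𝓟 (HS ι) ⊓ ⨅ (n : Sym2 ι → ℤ) (_ : Du t n), comap (chr n) (𝓝 (chr0 t W n))

theorem cfil_HS (t : Sym2 ι → ℝ) (W : Sym2 ι → ℂ) : ∀ᶠ z in cfil t W, z ∈ HS ι :=
  mem_inf_of_left (mem_principal_self _)

theorem tendsto_cfil {X : Type} {l : Filter X} {f : X → Sym2 ι → ℂ} {t : Sym2 ι → ℝ}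
    {W : Sym2 ι → ℂ} : Tendsto f l (cfil t W) ↔ (∀ᶠ x in l, f x ∈ HS ι) ∧
      ∀ n, Du t n → Tendsto (fun x => chr n (f x)) l (𝓝 (chr0 t W n)) := by
  simp only [cfil, tendsto_inf, tendsto_principal, tendsto_iInf, tendsto_comap_iff]
  rfl

theorem tendsto_chr {t : Sym2 ι → ℝ} (W : Sym2 ι → ℂ) {n : Sym2 ι → ℤ} (hn : Du t n) :
    Tendsto (chr n) (cfil t W) (𝓝 (chr0 t W n)) :=
  (tendsto_cfil.mp tendsto_id).2 n hn

/-- Vector valued version of `Sm`, with the value at the chart point. -/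
def SmV (t : Sym2 ι → ℝ) (W : Sym2 ι → ℂ) {E : Type} [NormedAddCommGroup E] [NormedSpace ℝ E]
    (u : (Sym2 ι → ℂ) → E) (c : E) : Prop :=
  ∃ (m : ℕ) (n : Fin m → Sym2 ι → ℤ) (O : Set (Fin m → ℂ)) (F : (Fin m → ℂ) → E),
    (∀ l, Du t (n l)) ∧ IsOpen O ∧ (fun l => chr0 t W (n l)) ∈ O ∧ ContDiffOn ℝ ∞ F O ∧
    F (fun l => chr0 t W (n l)) = c ∧ ∀ᶠ z in cfil t W, u z = F fun l => chr (n l) z

theorem cd_eq (γ : SpZ ι) (z : Sym2 ι → ℂ) : cd γ.1 z = den (toR γ).1 z := by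
  ext i j; simp [cd, den, mul_apply, toBlocks₂₁, toBlocks₂₂]

theorem act_iff (γ : SpZ ι) (Z : HH ι) (w : Sym2 ι → ℂ) : Act γ.1 Z.1 w ↔ w = (γ • Z).1 := by
  have h : (γ.1.toBlocks₁₁.map (↑) * mat Z.1 + γ.1.toBlocks₁₂.map (↑) : Matrix ι ι ℂ) =
      num (toR γ).1 Z.1 := by
    ext i j; simp [num, mul_apply, toBlocks₁₁, toBlocks₁₂]
  rw [Act, h, cd_eq, ← mat_smul_val, smulZ_def]
  exact mat_injective.eq_iff

theorem Met.smul {c d : ℝ} {u : (Sym2 ι → ℂ) → ℝ} (h : Met c d u) (γ : SpZ ι) (Z : HH ι) :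
    u (γ • Z).1 = u Z.1 + c * Real.log (‖jf (toR γ) Z‖ ^ 2) := by
  rw [h.1 γ.1 γ.2 Z.1 Z.2 _ ((act_iff γ Z _).mpr rfl), cd_eq]; rfl

theorem Met.sm {c d : ℝ} {u : (Sym2 ι → ℂ) → ℝ} (h : Met c d u) {t : Sym2 ι → ℝ} (ht : t ∈ Ry ι)
    {W : Sym2 ι → ℂ} (hW : W ∈ HS ι) :
    Sm t W fun z => u z - d * (4 * Real.pi * (t ⬝ᵥ imv z)) := h.2 t ht W hW

theorem met_of {c d : ℝ} {u : (Sym2 ι → ℂ) → ℝ}
    (h1 : ∀ (γ : SpZ ι) (Z : HH ι), u (γ • Z).1 = u Z.1 + c * Real.log (‖jf (toR γ) Z‖ ^ 2))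
    (h2 : ∀ t ∈ Ry ι, ∀ W ∈ HS ι, Sm t W fun z => u z - d * (4 * Real.pi * (t ⬝ᵥ imv z))) :
    Met c d u := by
  refine ⟨fun γ hγ z hz w hw => ?_, h2⟩
  rw [(act_iff ⟨γ, hγ⟩ ⟨z, hz⟩ w).mp hw, h1, cd_eq ⟨γ, hγ⟩]; rfl

/-- Smooth potentials of weight `c` on the half space. -/
def Pot (c : ℝ) (v : (Sym2 ι → ℂ) → ℝ) : Prop :=
  ContDiffOn ℝ ∞ v (HS ι) ∧
    ∀ (γ : SpZ ι) (Z : HH ι), v (γ • Z).1 = v Z.1 + c * Real.log (‖jf (toR γ) Z‖ ^ 2)

theorem Pot.comb {c c' : ℝ} {u v : (Sym2 ι → ℂ) → ℝ} (hu : Pot c u) (hv : Pot c' v) (x : ℝ) :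
    Pot (x * c + c') fun z => x * u z + v z :=
  ⟨(contDiffOn_const.mul hu.1).add hv.1, fun γ Z => by simp only [hu.2, hv.2]; ring⟩

theorem Pot.contDiffAt {c : ℝ} {u : (Sym2 ι → ℂ) → ℝ} (hu : Pot c u) (Z : HH ι) :
    ContDiffAt ℝ ∞ u Z.1 := hu.1.contDiffAt ((isOpen_HS ι).mem_nhds Z.2)

theorem Pot.continuous {c : ℝ} {u : (Sym2 ι → ℂ) → ℝ} (hu : Pot c u) :
    Continuous fun Z : HH ι => u Z.1 :=
  hu.1.continuousOn.comp_continuous continuous_subtype_val fun Z => Z.2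

/-- Density of the top form with respect to the invariant measure. -/
noncomputable def dns (v : Sym2 ι → (Sym2 ι → ℂ) → ℝ) (Z : HH ι) : ℂ :=
  wedge (fun l => levi (v l) Z.1) * (((Ym Z).det ^ (Fintype.card ι + 1) : ℝ) : ℂ)

/-- The measure of the quotient stack. -/
noncomputable def νw (w : HH ι → ℝ≥0∞) : Measure (HH ι) := (μH ι).withDensity w

/-- A measurable set with bounded real parts that meets every orbit. -/
def Reg (R : Set (HH ι)) : Prop :=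
  MeasurableSet R ∧ (∀ Z : HH ι, ∃ γ : SpZ ι, γ • Z ∈ R) ∧ ∃ C : ℝ, ∀ Z ∈ R, ‖rev Z.1‖ ≤ C

/-- The Levi form of `v` has Poincare growth on `R`. -/
def Tame (R : Set (HH ι)) (L : Finset (Sym2 ι → ℝ)) (v : (Sym2 ι → ℂ) → ℝ) : Prop :=
  ∃ C : ℝ, 0 ≤ C ∧ ∀ Z ∈ R, Dom L (imv Z.1) C (levi v Z.1)

/-- An invariant exhaustion function with Poincare growth. -/
def Exh (R : Set (HH ι)) (L : Finset (Sym2 ι → ℝ)) (ρ : (Sym2 ι → ℂ) → ℝ) : Prop :=
  Pot 0 ρ ∧ Tame R L ρ ∧ (∀ Z : HH ι, 0 ≤ ρ Z.1) ∧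
    (∃ C : ℝ, 0 ≤ C ∧ ∀ Z ∈ R, ∀ ζ, ‖dzz ρ Z.1 ⬝ᵥ ζ‖ ^ 2 ≤ C * omg L (imv Z.1) ζ) ∧
    ∀ r : ℝ, ∃ K : Set (HH ι), IsCompact K ∧ ∀ Z ∈ R, ρ Z.1 ≤ r → Z ∈ K

/-- Barrier functions. -/
structure Bar (s s' : ℝ) (b β : ℝ → ℝ) : Prop where
  pos : 0 < s
  lt : s < s'
  lt_one : s' < 1
  smooth_b : ContDiffOn ℝ ∞ b (Set.Ioi s)
  smooth_β : ContDiffOn ℝ ∞ β (Set.Ioi s)
  deriv_β : ∀ t, s < t → HasDerivAt β (-b t) t
  b_nonneg : ∀ t, s < t → 0 ≤ b t
  β_nonneg : ∀ t, s < t → 0 ≤ β t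
  b_mul_le : ∀ t, s < t → b t * (t - s) ≤ 1
  sq_le : ∀ t, s < t → b t ^ 2 ≤ -deriv b t
  b_zero : ∀ t, s' ≤ t → b t = 0
  β_zero : ∀ t, s' ≤ t → β t = 0
  b_at_zero : b 0 = 0
  β_at_zero : β 0 = 0
  β_le : ∃ C, ∀ t, s < t → β t ≤ C + Real.log (1 + b t)
  tendsto_b : Tendsto b (𝓝[>] s) atTop
  tendsto_β : Tendsto β (𝓝[>] s) atTop

/-- Minus the gradient of the barrier potential. -/
noncomputable def YY (b : ℝ → ℝ) (t : Sym2 ι → ℝ) : Sym2 ι → ℝ :=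
  coord (dm t)⁻¹ + ∑ᶠ p : ι → ℤ, b (pr t p) • sqr p

/-- The barrier. -/
noncomputable def BB (β : ℝ → ℝ) (t : Sym2 ι → ℝ) : ℝ := ∑ᶠ p : ι → ℤ, β (pr t p)

theorem Bar.YY_eq {s s' : ℝ} {b β : ℝ → ℝ} (h : Bar s s' b β) {t : Sym2 ι → ℝ}
    {P : Finset (ι → ℤ)} (hP : ∀ p, p ∉ P → s' ≤ pr t p) :
    YY b t = coord (dm t)⁻¹ + ∑ p ∈ P, b (pr t p) • sqr p := by
  rw [YY, finsum_eq_sum_of_support_subset (s := P)]
  intro p hp
  by_contra hp'
  exact hp (by simp [h.b_zero _ (hP p hp')])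

theorem Bar.BB_eq {s s' : ℝ} {b β : ℝ → ℝ} (h : Bar s s' b β) {t : Sym2 ι → ℝ}
    {P : Finset (ι → ℤ)} (hP : ∀ p, p ∉ P → s' ≤ pr t p) : BB β t = ∑ p ∈ P, β (pr t p) := by
  rw [BB, finsum_eq_sum_of_support_subset (s := P)]
  intro p hp
  by_contra hp'
  exact hp (h.β_zero _ (hP p hp'))

theorem Bar.b_pr_nonneg {s s' : ℝ} {b β : ℝ → ℝ} (h : Bar s s' b β) {t : Sym2 ι → ℝ}
    (ht : t ∈ RI ι s) (p : ι → ℤ) : 0 ≤ b (pr t p) := by
  by_cases hp : p = 0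
  · simp [hp, h.b_at_zero]
  · exact h.b_nonneg _ (ht p hp)

/-- The inverse of `YY`. -/
noncomputable def GG (s : ℝ) (b : ℝ → ℝ) : (Sym2 ι → ℝ) → Sym2 ι → ℝ :=
  Function.invFunOn (YY b) (RI ι s)

/-- The Legendre transform. -/
noncomputable def Ph (s : ℝ) (b β : ℝ → ℝ) (y : Sym2 ι → ℝ) : ℝ :=
  Real.log (dm (GG s b y)).det - BB β (GG s b y) - GG s b y ⬝ᵥ y

/-- The coefficients of the form `Y⁻¹`. -/
noncomputable def tOf (Z : HH ι) : Sym2 ι → ℝ := ud (Ym Z)⁻¹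

theorem dm_tOf (Z : HH ι) : dm (tOf Z) = (Ym Z)⁻¹ :=
  dm_ud (by rw [transpose_nonsing_inv, Ym_transpose])

theorem tOf_mem (Z : HH ι) : tOf Z ∈ PT ι := by
  show (dm (tOf Z)).PosDef
  rw [dm_tOf]
  exact (Ym_posDef Z).inv

theorem pr_tOf (Z : HH ι) (p : ι → ℤ) : pr (tOf Z) p = qf (Qm Z) (lv p) := by
  rw [pr_eq_qf, dm_tOf]
  have h : cz (lv p) = Sum.elim (cz p) 0 := by
    funext a; rcases a with a | a <;> simp [cz, lv]
  simp [qf, h, Qm, fromBlocks_mulVec, sumElim_dotProduct_sumElim]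

theorem coord_inv_tOf (Z : HH ι) : coord (dm (tOf Z))⁻¹ = imv Z.1 := by
  rw [dm_tOf, nonsing_inv_nonsing_inv _ (Ym_det_pos Z).ne'.isUnit, Ym_eq, coord_mat]

theorem continuous_tOf : Continuous (tOf : HH ι → Sym2 ι → ℝ) := by
  refine continuous_ud.comp ?_
  simp only [Matrix.inv_def, Ring.inverse_eq_inv']
  exact (continuous_Ym.matrix_det.inv₀ fun Z => (Ym_det_pos Z).ne').smul
    continuous_Ym.matrix_adjugate

open Classical in
/-- A point of the ambient space as a point of the half space. -/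
noncomputable def toH (z : Sym2 ι → ℂ) : HH ι := if h : z ∈ HS ι then ⟨z, h⟩ else iH ι

theorem toH_val {z : Sym2 ι → ℂ} (h : z ∈ HS ι) : (toH z).1 = z := by simp [toH, h]
@[simp] theorem toH_coe (Z : HH ι) : toH Z.1 = Z := Subtype.ext (toH_val Z.2)

theorem map_val_nhds (Z : HH ι) : map Subtype.val (𝓝 Z) = 𝓝 Z.1 :=
  (isOpen_HS ι).isOpenEmbedding_subtypeVal.map_nhds_eq Z

theorem eventually_amb {Z : HH ι} {p : (Sym2 ι → ℂ) → Prop} :
    (∀ᶠ z in 𝓝 Z.1, p z) ↔ ∀ᶠ W : HH ι in 𝓝 Z, p W.1 := by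
  rw [← map_val_nhds, eventually_map]

theorem continuous_toH {X : Type} [TopologicalSpace X] {f : X → Sym2 ι → ℂ} (hf : Continuous f)
    (h : ∀ x, f x ∈ HS ι) : Continuous fun x => toH (f x) :=
  continuous_induced_rng.mpr (hf.congr fun x => (toH_val (h x)).symm)

/-- Push a point towards the cusp along its short vectors. -/
noncomputable def shp (b : ℝ → ℝ) (Z : HH ι) : HH ι := toH (cv (rev Z.1) (YY b (tOf Z)))

/-- The inverse of `shp`. -/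
noncomputable def flt (s : ℝ) (b : ℝ → ℝ) (Z : HH ι) : HH ι :=
  toH (cv (rev Z.1) (coord (dm (GG s b (imv Z.1)))⁻¹))

/-- Points whose lattice has minimum `> s`. -/
def HG (ι : Type) [Fintype ι] [DecidableEq ι] (s : ℝ) : Set (HH ι) :=
  {Z | ∀ v : ι ⊕ ι → ℤ, v ≠ 0 → s < qf (Qm Z) v}

/-- All vectors of norm `≤ s` lie in the standard Lagrangian. -/
def OO (ι : Type) [Fintype ι] [DecidableEq ι] (s : ℝ) : Set (HH ι) :=
  {Z | ∀ v : ι ⊕ ι → ℤ, (∃ i, v (Sum.inr i) ≠ 0) → s < qf (Qm Z) v}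

/-- All vectors of norm `< 1` lie in the standard Lagrangian. -/
def NN (ι : Type) [Fintype ι] [DecidableEq ι] : Set (HH ι) :=
  {Z | ∀ v : ι ⊕ ι → ℤ, (∃ i, v (Sum.inr i) ≠ 0) → 1 ≤ qf (Qm Z) v}

/-- The region where the local formulas are used. -/
def OS (ι : Type) [Fintype ι] [DecidableEq ι] (s s' : ℝ) (b : ℝ → ℝ) : Set (HH ι) :=
  flt s b ⁻¹' (HG ι s ∩ OO ι s')

theorem lv_ne_zero {p : ι → ℤ} (hp : p ≠ 0) : lv p ≠ 0 := fun h =>
  hp (funext fun i => congrFun h (Sum.inl i))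

theorem HG.tOf_mem {s : ℝ} {Z : HH ι} (h : Z ∈ HG ι s) : tOf Z ∈ RI ι s := fun p hp => by
  rw [pr_tOf]; exact h _ (lv_ne_zero hp)

theorem NN_subset {s : ℝ} (hs : s < 1) : NN ι ⊆ OO ι s := fun _ h v hv => hs.trans_le (h v hv)

theorem eq_lv {v : ι ⊕ ι → ℤ} (h : ∀ i, v (Sum.inr i) = 0) : v = lv fun i => v (Sum.inl i) := by
  funext a; rcases a with a | a <;> simp [lv, h]

/-- The estimates near the boundary. -/
def Est (s : ℝ) (μ δ φ : (Sym2 ι → ℂ) → ℝ) (L : Finset (Sym2 ι → ℝ)) (C : ℝ)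
    (z : Sym2 ι → ℂ) : Prop :=
  Dom L (imv z) C (levi μ z) ∧ Dom L (imv z) C (levi δ z) ∧ -C ≤ δ z ∧
    (∀ ζ, ‖dzz δ z ⬝ᵥ ζ‖ ^ 2 ≤ C * (1 + δ z ^ 2) * omg L (imv z) ζ) ∧
    |μ z - s / (4 * Real.pi) * δ z - φ z| ≤ C * (1 + Real.log (1 + |δ z|)) ∧
    ‖imv z‖ ≤ C * (1 + |δ z|)

theorem Est.mono {s : ℝ} {μ δ φ : (Sym2 ι → ℂ) → ℝ} {L L' : Finset (Sym2 ι → ℝ)} {C C' : ℝ}
    {z : Sym2 ι → ℂ} (h : Est s μ δ φ L C z) (hL : L ⊆ L') (hC : C ≤ C') (hC' : 0 ≤ C') :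
    Est s μ δ φ L' C' z := by
  obtain ⟨h1, h2, h3, h4, h5, h6⟩ := h
  have h7 : 0 ≤ Real.log (1 + |δ z|) := Real.log_nonneg (by linarith [abs_nonneg (δ z)])
  refine ⟨h1.mono hL hC hC', h2.mono hL hC hC', by linarith, fun ζ => (h4 ζ).trans ?_,
    h5.trans (mul_le_mul_of_nonneg_right hC (by linarith)),
    h6.trans (mul_le_mul_of_nonneg_right hC (by positivity))⟩
  exact (mul_le_mul_of_nonneg_right (mul_le_mul_of_nonneg_right hC (by positivity))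
    (omg_nonneg _ _ _)).trans (mul_le_mul_of_nonneg_left (omg_mono hL _ ζ) (by positivity))

/-- The group of integral translations. -/
def UU (ι : Type) [Fintype ι] [DecidableEq ι] : Subgroup (SpZ ι) := stab (ev : ι → ι ⊕ ι → ℤ)

/-- Representative of a coset `UU γ`. -/
noncomputable def rep (q : SpZ ι ⧸ UU ι) : SpZ ι := (q.out)⁻¹

/-- Bump functions of a toric chart. -/
def Adm (t : Sym2 ι → ℝ) (P : Finset (ι → ℤ)) (a : (Sym2 ι → ℂ) → ℝ) : Prop :=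
  (∃ (m : ℕ) (n : Fin m → Sym2 ι → ℤ) (F : (Fin m → ℂ) → ℝ), (∀ l, Du t (n l)) ∧
    ContDiff ℝ ∞ F ∧ ∀ z, a z = F fun l => chr (n l) z) ∧ (∀ z, 0 ≤ a z) ∧
  ∃ K ⊆ PD ι, IsCompact K ∧ ∀ z ∈ HS ι, a z ≠ 0 →
    ∃ c : (ι → ℤ) → ℝ, (∀ p, 0 ≤ c p) ∧ imv z - ∑ p ∈ P, c p • sqr p ∈ K

/-- The sum of the translates of `a`, with a factor. -/
noncomputable def csum (a : (Sym2 ι → ℂ) → ℝ) (t t₁ : Sym2 ι → ℝ) (x₀ x₁ x₂ : ℝ) (Z : HH ι) : ℝ :=
  ∑ᶠ q : SpZ ι ⧸ UU ι, a (rep q • Z).1 * (x₀ + x₁ * Real.log (‖jf (toR (rep q)) Z‖ ^ 2) +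
    x₂ * (t ⬝ᵥ imv (rep q • Z).1 - t₁ ⬝ᵥ imv Z.1))

end Pool.Agent.P.MP_59bdab_ag
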