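import Pool.Agent.P.MP_59bdab_ag.IfC
import Pool.Agent.P.MP_59bdab_ag.ASM

/-!
Change of variables by `flt`.
-/

namespace Pool.Agent.P.MP_59bdab_ag

open Matrix MeasureTheory
open scoped ENNReal ContDiff

namespace CHV

variable {ι : Type} [Fintype ι] [DecidableEq ι]

theorem measurable_toH : Measurable (toH : (Sym2 ι → ℂ) → HH ι) := by
  classical
  unfold toH
  exact Measurable.dite (s := HS ι) (f := fun z => z) (g := fun _ => iH ι) measurable_id
    measurable_const (isOpen_HS ι).measurableSet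

/-- The density of the invariant measure. -/
noncomputable def dn (y : Sym2 ι → ℝ) : ℝ≥0∞ :=
  ENNReal.ofReal (((mat y).det ^ (Fintype.card ι + 1))⁻¹)

theorem measurable_dn : Measurable (dn : (Sym2 ι → ℝ) → ℝ≥0∞) :=
  ENNReal.measurable_ofReal.comp
    ((continuous_mat.matrix_det.pow _).measurable.inv)

theorem split (hMEAS : S_MEAS) (F : HH ι → ℝ≥0∞) (hF : Measurable F) :
    ∫⁻ Z, F Z ∂μH ι = ∫⁻ y in PD ι, dn y * ∫⁻ x, F (toH (cv x y)) := by
  have h1 := (hMEAS ι).2.2.2.2.2.2.1 (fun z => F (toH z)) (hF.comp measurable_toH)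
  simp only [toH_coe] at h1
  have hm : Measurable fun z : Sym2 ι → ℂ => dn (imv z) * F (toH z) :=
    (measurable_dn.comp continuous_imv.measurable).mul (hF.comp measurable_toH)
  have h2 : ∫⁻ Z, F Z ∂μH ι = ∫⁻ z in HS ι, dn (imv z) * F (toH z) := h1
  rw [h2, ← lintegral_indicator (isOpen_HS ι).measurableSet,
    ASM.lint_cx _ (hm.indicator (isOpen_HS ι).measurableSet),
    ← lintegral_indicator (isOpen_PD ι).measurableSet]
  refine lintegral_congr fun y => ?_
  have hc : ∀ x : Sym2 ι → ℝ, ASM.cx x y = cv x y := fun _ => rfl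
  simp only [hc]
  by_cases hy : y ∈ PD ι
  · rw [Set.indicator_of_mem hy,
      ← lintegral_const_mul' (dn y) _ (show dn y ≠ ⊤ from ENNReal.ofReal_ne_top)]
    refine lintegral_congr fun x => ?_
    rw [Set.indicator_of_mem (cv_mem hy), imv_cv]
  · rw [Set.indicator_of_notMem hy]
    have h3 : ∀ x : Sym2 ι → ℝ, cv x y ∉ HS ι := fun x h => hy (by rwa [mem_HS, imv_cv] at h)
    simp only [Set.indicator_of_notMem (h3 _), lintegral_zero]

/-- The weights of the linear change of coordinates. -/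
noncomputable def wt (a : Sym2 ι) : ℝ := if a.IsDiag then 1 else 2

/-- The map `q ↦ ud (mat q)`. -/
noncomputable def LL (ι : Type) [Fintype ι] [DecidableEq ι] :
    (Sym2 ι → ℝ) →L[ℝ] (Sym2 ι → ℝ) :=
  LinearMap.toContinuousLinearMap (Matrix.toLin' (diagonal wt))

theorem LL_apply (q : Sym2 ι → ℝ) : LL ι q = ud (mat q) := by
  funext a
  have h : LL ι q a = wt a * q a := by
    simp [LL, Matrix.toLin'_apply, mulVec_diagonal]
  rw [h, ud, coord_mat, wt]
  split_ifs <;> simp

theorem dm_LL (q : Sym2 ι → ℝ) : dm (LL ι q) = mat q := by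
  rw [LL_apply, dm_ud (mat_transpose q)]

theorem LL_coord (t : Sym2 ι → ℝ) : LL ι (coord (dm t)) = t := by
  rw [LL_apply, mat_coord (dm_transpose t), ud_dm]

theorem LL_inj : Function.Injective (LL ι) := fun q q' h => by
  apply mat_injective
  rw [← dm_LL, h, dm_LL]

theorem det_LL : (LL ι).det = 2 ^ (tri (Fintype.card ι) - Fintype.card ι) := by
  have h1 : (LL ι).det = ∏ a : Sym2 ι, wt a := by
    rw [ContinuousLinearMap.det, LL, LinearMap.coe_toContinuousLinearMap, LinearMap.det_toLin',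
      det_diagonal]
  rw [h1]
  simp only [wt]
  rw [Finset.prod_ite, Finset.prod_const_one, one_mul, Finset.prod_const, ← card_sym2_eq,
    ← Fintype.card_subtype, Fintype.card_subtype_compl, Sym2.card_subtype_diag]

theorem lin (S : Set (Sym2 ι → ℝ)) (hS : MeasurableSet S) (g : (Sym2 ι → ℝ) → ℝ≥0∞) :
    ∫⁻ t in S, g t = 2 ^ (tri (Fintype.card ι) - Fintype.card ι) *
      ∫⁻ q in LL ι ⁻¹' S, g (LL ι q) := by
  have h1 : S = LL ι '' (LL ι ⁻¹' S) :=
    (Set.image_preimage_eq S fun t => ⟨_, LL_coord t⟩).symm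
  have h2 := lintegral_image_eq_lintegral_abs_det_fderiv_mul volume
    ((LL ι).continuous.measurable hS) (f := LL ι) (f' := fun _ => LL ι)
    (fun x _ => (LL ι).hasFDerivAt.hasFDerivWithinAt) LL_inj.injOn g
  rw [← h1] at h2
  rw [h2, lintegral_const_mul' _ _ ENNReal.ofReal_ne_top, det_LL, abs_of_pos (by positivity),
    ENNReal.ofReal_pow (by norm_num), ENNReal.ofReal_ofNat]

end CHV

open CHV in
theorem p_CHV (hFLAT1 : S_FLAT1) (hLEG3 : S_LEG3) (hRYP : S_RYP) (hINV : S_INV)
    (hMEAS : S_MEAS) : S_CHV := by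
  intro ι _ _ s s' b β hB φ hφ
  obtain ⟨hsm, hbij, -⟩ := hLEG3 ι s s' b β hB
  obtain ⟨hopen, -, hsub, -⟩ := (hRYP ι).2.2.2.1 s hB.pos
  have hflt := (hFLAT1 ι s s' b β hB).1
  set Ψ : (Sym2 ι → ℝ) → ℝ≥0∞ := fun q => ∫⁻ x, φ (toH (cv x q)) with hΨ
  have hm : Measurable fun Z : HH ι => ENNReal.ofReal (|(fderiv ℝ (GG s b) (imv Z.1)).det| *
      (Ym Z).det ^ (Fintype.card ι + 1)) * φ (flt s b Z) := by
    refine Measurable.mul (ENNReal.measurable_ofReal.comp (Measurable.mul ?_ ?_))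
      (hφ.comp hflt.measurable)
    · exact (continuous_abs.comp ContinuousLinearMap.continuous_det).measurable.comp
        ((measurable_fderiv ℝ (GG s b)).comp
          (continuous_imv.comp continuous_subtype_val).measurable)
    · exact (continuous_Ym.matrix_det.pow _).measurable
  have hL : ∫⁻ Z, ENNReal.ofReal (|(fderiv ℝ (GG s b) (imv Z.1)).det| *
      (Ym Z).det ^ (Fintype.card ι + 1)) * φ (flt s b Z) ∂μH ι =
      ∫⁻ t in RI ι s, Ψ (coord (dm t)⁻¹) := by
    rw [split hMEAS _ hm, ← hbij.image_eq,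
      lintegral_image_eq_lintegral_abs_det_fderiv_mul volume (isOpen_PD ι).measurableSet
        (f' := fun y => fderiv ℝ (GG s b) y)
        (fun y hy => ((hsm.contDiffAt ((isOpen_PD ι).mem_nhds hy)).differentiableAt
          (by simp)).hasFDerivAt.hasFDerivWithinAt) hbij.injOn]
    refine setLIntegral_congr_fun (isOpen_PD ι).measurableSet fun y hy => ?_
    have hd : 0 < (mat y).det ^ (Fintype.card ι + 1) := pow_pos (PosDef.det_pos hy) _
    have h1 : ∀ x : Sym2 ι → ℝ, ENNReal.ofReal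
        (|(fderiv ℝ (GG s b) (imv (toH (cv x y)).1)).det| *
          (Ym (toH (cv x y))).det ^ (Fintype.card ι + 1)) * φ (flt s b (toH (cv x y))) =
        ENNReal.ofReal (|(fderiv ℝ (GG s b) y).det| * (mat y).det ^ (Fintype.card ι + 1)) *
          φ (toH (cv x (coord (dm (GG s b y))⁻¹))) := by
      intro x
      rw [flt, Ym_eq, toH_val (cv_mem hy), imv_cv, rev_cv]
    simp only [h1]
    rw [lintegral_const_mul' _ _ ENNReal.ofReal_ne_top, ← mul_assoc, dn,
      ← ENNReal.ofReal_mul (inv_nonneg.mpr hd.le), mul_left_comm, inv_mul_cancel₀ hd.ne', mul_one]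
  have hS : MeasurableSet {Z : HH ι | tOf Z ∈ RI ι s} :=
    (hopen.preimage continuous_tOf).measurableSet
  have hT : MeasurableSet (LL ι ⁻¹' RI ι s) := (hopen.preimage (LL ι).continuous).measurableSet
  have hTP : LL ι ⁻¹' RI ι s ⊆ PD ι := fun q hq => by
    have h : (dm (LL ι q)).PosDef := hsub hq
    rwa [dm_LL] at h
  have hR : ∫⁻ Z in {Z | tOf Z ∈ RI ι s}, φ Z ∂μH ι =
      ∫⁻ q in LL ι ⁻¹' RI ι s, Ψ (coord (mat q)⁻¹) := by
    have h2 : ∫⁻ q in LL ι ⁻¹' RI ι s, Ψ (coord (mat q)⁻¹) = ∫⁻ q in PD ι,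
        (LL ι ⁻¹' RI ι s).indicator (fun q => Ψ (coord (mat q)⁻¹)) q := by
      rw [lintegral_indicator hT, Measure.restrict_restrict hT, Set.inter_eq_left.mpr hTP]
    rw [h2, (hINV ι).2, ← lintegral_indicator hS, split hMEAS _ (hφ.indicator hS)]
    refine setLIntegral_congr_fun (isOpen_PD ι).measurableSet fun y hy => ?_
    have hu : IsUnit (mat y).det := (PosDef.det_pos hy).ne'.isUnit
    have h3 : mat (coord (mat y)⁻¹) = (mat y)⁻¹ :=
      mat_coord (by rw [transpose_nonsing_inv, mat_transpose])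
    have h4 : ∀ x : Sym2 ι → ℝ, tOf (toH (cv x y)) = LL ι (coord (mat y)⁻¹) := by
      intro x
      rw [tOf, Ym_eq, toH_val (cv_mem hy), imv_cv, LL_apply, h3]
    rw [dn]
    congr 1
    by_cases hy' : coord (mat y)⁻¹ ∈ LL ι ⁻¹' RI ι s
    · rw [Set.indicator_of_mem hy', h3, nonsing_inv_nonsing_inv _ hu, coord_mat]
      refine lintegral_congr fun x => Set.indicator_of_mem ?_ _
      show tOf (toH (cv x y)) ∈ RI ι s
      rw [h4]
      exact hy'
    · rw [Set.indicator_of_notMem hy']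
      have h5 : ∀ x : Sym2 ι → ℝ, toH (cv x y) ∉ {Z : HH ι | tOf Z ∈ RI ι s} := fun x h =>
        hy' (by
          have h' : tOf (toH (cv x y)) ∈ RI ι s := h
          rw [h4] at h'
          exact h')
      simp only [Set.indicator_of_notMem (h5 _), lintegral_zero]
  rw [hL, hR, lin _ hopen.measurableSet]
  simp only [dm_LL]

end Pool.Agent.P.MP_59bdab_ag
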