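import Pool.Agent.P.MP_59bdab_ag.IfA

/-!
Lattice points in ellipsoids.
-/

namespace Pool.Agent.P.MP_59bdab_ag

open Matrix MeasureTheory Filter Topology
open scoped ENNReal MatrixOrder Pointwise

namespace CNT

variable {n : Type} [Fintype n] [DecidableEq n]

theorem exists_root {Q : Matrix n n ℝ} (hQ : Q.PosDef) : ∃ P : Matrix n n ℝ, IsUnit P ∧
    Q.det = P.det ^ 2 ∧ ∀ x : n → ℝ, x ⬝ᵥ Q *ᵥ x = ∑ i, (P *ᵥ x) i ^ 2 := by
  obtain ⟨P, hP, rfl⟩ :=
    CStarAlgebra.isStrictlyPositive_iff_eq_star_mul_self.mp hQ.isStrictlyPositive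
  rw [star_eq_conjTranspose, conjTranspose_eq_transpose_of_trivial]
  refine ⟨P, hP, by rw [det_mul, det_transpose, sq], fun x => ?_⟩
  rw [← mulVec_mulVec, dotProduct_mulVec, vecMul_transpose, dotProduct]
  exact Finset.sum_congr rfl fun i _ => (sq _).symm

omit [DecidableEq n] in
theorem cnt_eq (Q : Matrix n n ℝ) (R : ℝ) : cnt Q R = {v | qf Q v ≤ R}.encard := by
  rw [cnt, ← tsum_subtype, ← ENNReal.tsum_set_one]
  rfl

/-- The coordinates in which the form is a sum of squares. -/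
noncomputable def tr (P : Matrix n n ℝ) : (n → ℝ) →ₗ[ℝ] EuclideanSpace ℝ n :=
  (WithLp.linearEquiv 2 ℝ (n → ℝ)).symm.toLinearMap ∘ₗ P.mulVecLin

omit [DecidableEq n] in
theorem mem_tr (P : Matrix n n ℝ) {r : ℝ} (hr : 0 ≤ r) (x : n → ℝ) :
    x ∈ tr P ⁻¹' Metric.closedBall 0 r ↔ ∑ i, (P *ᵥ x) i ^ 2 ≤ r ^ 2 := by
  rw [EuclideanSpace.closedBall_zero_eq r hr]
  rfl

theorem bdd_tr {P : Matrix n n ℝ} (hP : IsUnit P) (r : ℝ) :
    Bornology.IsBounded (tr P ⁻¹' Metric.closedBall 0 r) := by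
  obtain ⟨K, -, hK⟩ := (tr P).exists_antilipschitzWith (LinearMap.ker_eq_bot.2
    ((WithLp.linearEquiv 2 ℝ (n → ℝ)).symm.injective.comp (mulVec_injective_iff_isUnit.2 hP)))
  exact hK.isBounded_preimage Metric.isBounded_closedBall

omit [DecidableEq n] in
theorem finite_cz {s : Set (n → ℝ)} (hs : Bornology.IsBounded s) : (cz ⁻¹' s).Finite := by
  obtain ⟨r, hr⟩ := hs.subset_closedBall 0
  refine (Set.Finite.pi' fun _ : n => Set.finite_Icc (-⌈r⌉) ⌈r⌉).subset fun v hv i => ?_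
  have h1 : ‖cz v i‖ ≤ r := (norm_le_pi_norm _ i).trans (mem_closedBall_zero_iff.1 (hr hv))
  have h2 : |(v i : ℝ)| ≤ (⌈r⌉ : ℤ) := h1.trans (Int.le_ceil r)
  exact abs_le.1 (by exact_mod_cast h2)

theorem vol_tr {P : Matrix n n ℝ} (hP : P.det ^ 2 = 1) {g : ℕ} (hg : Fintype.card n = 2 * g) :
    volume (tr P ⁻¹' Metric.closedBall 0 1) = ENNReal.ofReal (Real.pi ^ g / g.factorial) := by
  have h1 : |P.det| = 1 := by rw [← sq_eq_sq₀ (abs_nonneg _) zero_le_one, sq_abs, hP, one_pow]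
  have h2 : LinearMap.det (toLin' P) ≠ 0 := by
    rw [LinearMap.det_toLin']
    intro h
    simp [h] at h1
  have h3 := Measure.addHaar_preimage_linearMap volume h2
    (WithLp.toLp 2 ⁻¹' Metric.closedBall (0 : EuclideanSpace ℝ n) 1)
  rw [LinearMap.det_toLin', abs_inv, h1, inv_one, ENNReal.ofReal_one, one_mul,
    (PiLp.volume_preserving_toLp n).measure_preimage
      measurableSet_closedBall.nullMeasurableSet] at h3
  refine h3.trans ?_
  rcases isEmpty_or_nonempty n with h | h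
  · have h4 : g = 0 := by
      rw [Fintype.card_eq_zero] at hg
      omega
    rw [volume_euclideanSpace_eq_dirac, Measure.dirac_apply_of_mem (by simp), h4]
    simp
  · rw [InnerProductSpace.volume_closedBall_of_dim_even (k := g) (by simpa using hg)]
    simp

theorem lim {g : ℕ} (hg : Fintype.card n = 2 * g) {Q : Matrix n n ℝ} (hQ : Q.PosDef)
    (hd : Q.det = 1) : Tendsto (fun m : ℕ => cnt Q ((m : ℝ) ^ 2) / (m : ℝ≥0∞) ^ (2 * g)) atTop
      (𝓝 (ENNReal.ofReal (Real.pi ^ g / g.factorial))) := by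
  obtain ⟨P, hP, h1, h2⟩ := exists_root hQ
  have hv := vol_tr (h1 ▸ hd) hg
  set E := tr P ⁻¹' Metric.closedBall 0 1 with hE
  have h3 := ENNReal.tendsto_ofReal (tendsto_card_div_pow_atTop_volume E (bdd_tr hP 1)
    ((tr P).continuous_of_finiteDimensional.measurable measurableSet_closedBall)
    (((convex_closedBall _ _).linear_preimage (tr P)).addHaar_frontier volume))
  rw [measureReal_def, ENNReal.ofReal_toReal (hv ▸ ENNReal.ofReal_ne_top), hv] at h3
  refine h3.congr' ?_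
  filter_upwards [eventually_gt_atTop 0] with m hm
  have : NeZero m := ⟨hm.ne'⟩
  have hm' : (0 : ℝ) < m := by exact_mod_cast hm
  have hS : {v | qf Q v ≤ (m : ℝ) ^ 2} = cz ⁻¹' (tr P ⁻¹' Metric.closedBall 0 m) := by
    ext v
    rw [Set.mem_preimage, mem_tr P hm'.le, ← h2]
    rfl
  have hsc : ∀ x : n → ℝ, (m : ℝ)⁻¹ • x ∈ E ↔ x ∈ tr P ⁻¹' Metric.closedBall 0 m := fun x => by
    rw [hE, Set.mem_preimage, Set.mem_preimage, map_smul, mem_closedBall_zero_iff,
      mem_closedBall_zero_iff, norm_smul, norm_inv, Real.norm_natCast, inv_mul_le_iff₀ hm',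
      mul_one]
  have himg : (fun v : n → ℤ => (m : ℝ)⁻¹ • cz v) '' {v | qf Q v ≤ (m : ℝ) ^ 2} =
      E ∩ (m : ℝ)⁻¹ • Submodule.span ℤ (Set.range (Pi.basisFun ℝ n)) := by
    rw [hS]
    ext x
    constructor
    · rintro ⟨v, hv, rfl⟩
      refine ⟨(hsc _).2 hv, BoxIntegral.unitPartition.mem_smul_span_iff.2 fun i => ⟨v i, ?_⟩⟩
      simp [cz, hm'.ne']
    · rintro ⟨hx, hx'⟩
      choose v hv using BoxIntegral.unitPartition.mem_smul_span_iff.1 hx'
      have e : (m : ℝ)⁻¹ • cz v = x := by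
        funext i
        have : (v i : ℝ) = m * x i := hv i
        simp [cz, this, hm'.ne']
      exact ⟨v, (hsc _).1 (e ▸ hx), e⟩
  have hinj : Function.Injective fun v : n → ℤ => (m : ℝ)⁻¹ • cz v := fun v w e => by
    have e' := smul_right_injective _ (inv_ne_zero hm'.ne') e
    funext i
    exact Int.cast_injective (α := ℝ) (congrFun e' i)
  rw [← himg, Nat.card_coe_set_eq, Set.ncard_image_of_injective _ hinj, cnt_eq,
    ← Set.Finite.cast_ncard_eq (hS ▸ finite_cz (bdd_tr hP m)), hg,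
    ENNReal.ofReal_div_of_pos (by positivity), ENNReal.ofReal_pow hm'.le, ENNReal.ofReal_natCast,
    ENNReal.ofReal_natCast, ENat.toENNReal_coe]

theorem bound {Q : Matrix n n ℝ} (hQ : Q.PosDef) (m : ℕ) :
    cnt Q ((m : ℝ) ^ 2) ≤
      ((2 * ((Fintype.card n + 1) * m) + 1) ^ Fintype.card n : ℕ) * cnt Q 1 := by
  obtain ⟨P, -, -, h2⟩ := exists_root hQ
  set N := Fintype.card n + 1 with hN
  have hN0 : (0 : ℝ) < N := by positivity
  let φ : (n → ℤ) → n → ℤ := fun v i => ⌊(N : ℝ) * (P *ᵥ cz v) i⌋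
  let F : Finset (n → ℤ) := Fintype.piFinset fun _ => Finset.Icc (-(N * m : ℕ) : ℤ) (N * m : ℕ)
  have hfib : ∀ v w, φ v = φ w → qf Q (v - w) ≤ 1 := fun v w e => by
    have e1 : cz (v - w) = cz v - cz w := by
      funext i
      simp [cz]
    rw [qf, h2, e1, mulVec_sub]
    calc _ ≤ ∑ _i : n, ((N : ℝ)⁻¹) ^ 2 := by
          refine Finset.sum_le_sum fun i _ => sq_le_sq.2 ?_
          have e2 := (Int.abs_sub_lt_one_of_floor_eq_floor (congrFun e i)).le
          rw [← mul_sub, abs_mul, abs_of_pos hN0] at e2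
          rw [abs_of_pos (inv_pos.2 hN0), Pi.sub_apply, ← mul_one (N : ℝ)⁻¹, le_inv_mul_iff₀ hN0]
          exact e2
      _ ≤ 1 := by
          rw [Finset.sum_const, Finset.card_univ, nsmul_eq_mul, inv_pow, ← div_eq_mul_inv,
            div_le_one (by positivity), hN]
          push_cast
          nlinarith [Nat.cast_nonneg (α := ℝ) (Fintype.card n)]
  have h3 := Set.encard_le_encard_of_injOn (f := fun v => (φ v, v - Function.invFun φ (φ v)))
    (s := {v | qf Q v ≤ (m : ℝ) ^ 2}) (t := (F : Set (n → ℤ)) ×ˢ {v | qf Q v ≤ 1})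
    (fun v hv => ⟨Finset.mem_coe.2 (Fintype.mem_piFinset.2 fun i => by
      have e1 : (P *ᵥ cz v) i ^ 2 ≤ (m : ℝ) ^ 2 :=
        (Finset.single_le_sum (f := fun i => (P *ᵥ cz v) i ^ 2) (fun _ _ => sq_nonneg _)
          (Finset.mem_univ i)).trans ((h2 _).symm.le.trans hv)
      obtain ⟨e2, e3⟩ := abs_le_of_sq_le_sq' e1 (Nat.cast_nonneg m)
      refine Finset.mem_Icc.2 ⟨Int.le_floor.2 ?_, Int.floor_le_iff.2 ?_⟩
      · push_cast
        nlinarith
      · push_cast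
        nlinarith), hfib _ _ (Function.invFun_eq ⟨v, rfl⟩).symm⟩)
    (fun v _ w _ e => by
      obtain ⟨e1, e2⟩ := Prod.mk.inj e
      rwa [e1, sub_left_inj] at e2)
  rw [Set.encard_prod, Set.encard_coe_eq_coe_finsetCard, Fintype.card_piFinset, Finset.prod_const,
    Int.card_Icc, Finset.card_univ] at h3
  have e : ((N * m : ℕ) + 1 - -(N * m : ℕ) : ℤ).toNat = 2 * (N * m) + 1 := by omega
  rw [e] at h3
  rw [cnt_eq, cnt_eq]
  have h4 := ENat.toENNReal_le.2 h3
  rwa [ENat.toENNReal_mul, ENat.toENNReal_coe] at h4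

end CNT

theorem p_CNT : S_CNT := by
  intro n _ _ g hg
  refine ⟨fun Q hQ hd => CNT.lim hg hQ hd,
    ((2 * (2 * g + 1) + 1) ^ (2 * g) : ℕ), ENNReal.natCast_ne_top _, fun Q hQ m hm => ?_⟩
  refine (CNT.bound hQ m).trans (mul_le_mul_left ?_ _)
  rw [hg, ← Nat.cast_pow, ← Nat.cast_mul, ← mul_pow]
  exact Nat.cast_le.2 (Nat.pow_le_pow_left (by nlinarith) _)

end Pool.Agent.P.MP_59bdab_ag
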