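import Pool.Agent.P.MP_59bdab_ag.IfC

namespace Pool.Agent.P.MP_59bdab_ag

open Matrix MeasureTheory Filter Topology
open scoped ENNReal ContDiff

theorem p_COV (hBAR : S_BAR) (hREG2 : S_REG2) (hFLAT1 : S_FLAT1) (hFLAT3 : S_FLAT3) (hQ : S_Q) :
    S_COV := by
  intro ι _ _ V hV
  classical
  obtain ⟨b, β, hb⟩ := hBAR (1 / 2) (3 / 4) (by norm_num) (by norm_num) (by norm_num)
  obtain ⟨-, -, -, K, -, hK, hcov⟩ := hFLAT3 ι _ _ b β hb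
  have hK3 : IsCompact (K \ Short ι (1 / 2)) :=
    hK.diff ((hQ ι).2.2.2.2.2.2.2.2.2.1 _)
  have h1 : ∀ Z₀ ∈ K \ Short ι (1 / 2), ∃ x : (Sym2 ι → ℝ) × (Sym2 ι → ℂ),
      (x.1 ∈ Ry ι ∧ x.2 ∈ HS ι) ∧ {Z | Z ∈ HG ι (1 / 2) → (shp b Z).1 ∈ V x} ∈ 𝓝 Z₀ := by
    intro Z₀ hZ
    obtain ⟨h2, W, hW, h3⟩ := hREG2 ι _ _ b β hb Z₀ hZ.2
    exact ⟨(_, W), ⟨h2, hW⟩, eventually_nhdsWithin_iff.mp (h3.eventually (hV (_, W) h2 hW))⟩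
  choose x hx hU using h1
  obtain ⟨s, hs⟩ := hK3.elim_nhds_subcover' _ hU
  refine ⟨s.image fun Z => x Z.1 Z.2, ?_, fun Z => ?_⟩
  · intro y hy
    obtain ⟨Z, -, rfl⟩ := Finset.mem_image.mp hy
    exact hx _ _
  · obtain ⟨γ, hγ, hγ'⟩ := hcov Z
    have h4 : flt (1 / 2) b (γ • Z) ∈ K \ Short ι (1 / 2) :=
      ⟨hγ, fun ⟨v, hv, h⟩ => (hγ' v hv).not_gt h⟩
    obtain ⟨Z₀, hZ₀, h5⟩ := Set.mem_iUnion₂.mp (hs h4)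
    refine ⟨γ, _, Finset.mem_image_of_mem _ hZ₀, ?_⟩
    have h6 := h5 hγ'
    rwa [((hFLAT1 ι _ _ b β hb).2.2.1 (γ • Z)).2.2.2.1] at h6

end Pool.Agent.P.MP_59bdab_ag
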