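import Pool.Agent.P.MP_59bdab_ag.IfC

/-! Algebra of the coset sums. -/

namespace Pool.Agent.P.MP_59bdab_ag

open Matrix

namespace CSI

variable {ι : Type} [Fintype ι] [DecidableEq ι]

theorem rep_mk {f : SpZ ι → ℝ} (hf : ∀ u ∈ UU ι, ∀ γ, f (u * γ) = f γ) (γ : SpZ ι) :
    f (rep (QuotientGroup.mk γ⁻¹)) = f γ := by
  obtain ⟨h, e⟩ := QuotientGroup.mk_out_eq_mul (UU ι) γ⁻¹
  rw [rep, e, _root_.mul_inv_rev, inv_inv]
  exact hf _ (inv_mem h.2) γ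

theorem shift {f : SpZ ι → ℝ} (hf : ∀ u ∈ UU ι, ∀ γ, f (u * γ) = f γ) (g : SpZ ι) :
    ∑ᶠ q, f (rep q * g) = ∑ᶠ q, f (rep q) := by
  rw [← finsum_comp_equiv (MulAction.toPerm g⁻¹) (f := fun q => f (rep q))]
  refine finsum_congr fun q => ?_
  rw [← rep_mk hf, _root_.mul_inv_rev, show (rep q)⁻¹ = q.out from inv_inv _,
    MulAction.toPerm_apply,
    ← MulAction.Quotient.mk_smul_out (UU ι) g⁻¹ q, smul_eq_mul]

theorem one_eq (a : (Sym2 ι → ℂ) → ℝ) (t : Sym2 ι → ℝ) (Z : HH ι) :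
    csum a t 0 1 0 0 Z = ∑ᶠ q : SpZ ι ⧸ UU ι, a (rep q • Z).1 := by
  simp [csum]

theorem split {Q : Type} {A : Q → ℝ} (hA : (Function.support A).Finite) (u : Q → ℝ) (c : ℝ) :
    ∑ᶠ q, A q * (u q - c) = ∑ᶠ q, A q * u q - c * ∑ᶠ q, A q := by
  rw [mul_finsum' _ _ hA, ← finsum_sub_distrib
    (hA.subset (Function.support_mul_subset_left _ _))
    (hA.subset (Function.support_mul_subset_right _ _))]
  exact finsum_congr fun q => by ring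

theorem fin (hPQ : S_PQ) (hRYP : S_RYP) {t : Sym2 ι → ℝ} {P : Finset (ι → ℤ)}
    {a : (Sym2 ι → ℂ) → ℝ} (ht : t ∈ Ry ι) (hP : IsMin t P) (ha : Adm t P a) (Z : HH ι) :
    (Function.support fun q : SpZ ι ⧸ UU ι => a (rep q • Z).1).Finite := by
  obtain ⟨t₁, h1, h2⟩ := (hRYP ι).2.2.2.2.2.2.2
  obtain ⟨K, k1, k2, k3⟩ := ha.2.2
  obtain ⟨R, Λ, -, h⟩ := hPQ ι t t₁ P ∅ K {imv Z.1} ‖rev Z.1‖ ht h1 hP
    (fun p => by simp [h2 p]) k1 k2 (Set.singleton_subset_iff.2 Z.2) isCompact_singleton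
  refine Λ.finite_toSet.subset fun q hq => ?_
  obtain ⟨c, c1, c2⟩ := k3 _ (rep q • Z).2 hq
  exact h q Z c (fun _ => R) le_rfl (fun _ => le_rfl) (by simp) c1 c2

end CSI

open CSI

theorem p_CSI (hPQ : S_PQ) (hMOV : S_MOV) (hRYP : S_RYP) : S_CSI := by
  intro ι _ _ t P a ht hP ha
  have hf := fin hPQ hRYP ht hP ha
  have hU := (hMOV ι).2.2.2.1
  have u1 : ∀ u ∈ UU ι, ∀ Z : HH ι, a (u • Z).1 = a Z.1 := fun u hu Z => by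
    obtain ⟨r, hr⟩ := (hU u hu).1
    obtain ⟨m, n, F, -, -, e⟩ := ha.1
    simp only [e, hr, chr_add, chr_int, mul_one]
  have u2 : ∀ u ∈ UU ι, ∀ Z : HH ι, imv (u • Z).1 = imv Z.1 := fun u hu Z => by
    obtain ⟨r, hr⟩ := (hU u hu).1
    funext b
    simp [hr, imv]
  have u3 : ∀ u ∈ UU ι, ∀ (γ : SpZ ι) (Z : HH ι), jf (toR (u * γ)) Z = jf (toR γ) Z :=
    fun u hu γ Z => by rw [map_mul, jf_mul, (hU u hu).2.1, one_mul]
  have c1 : ∀ (x₀ x₁ x₂ : ℝ) (γ : SpZ ι) (Z : HH ι), csum a t 0 x₀ x₁ x₂ (γ • Z) =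
      csum a t 0 x₀ x₁ x₂ Z - x₁ * Real.log (‖jf (toR γ) Z‖ ^ 2) * csum a t 0 1 0 0 Z := by
    intro x₀ x₁ x₂ γ Z
    rw [one_eq, csum, csum, ← split (hf Z), ← shift (f := fun δ => a (δ • Z).1 *
      (x₀ + x₁ * Real.log (‖jf (toR δ) Z‖ ^ 2) + x₂ * (t ⬝ᵥ imv (δ • Z).1 - 0 ⬝ᵥ imv Z.1) -
        x₁ * Real.log (‖jf (toR γ) Z‖ ^ 2)))
      (fun u hu δ => by rw [u3 u hu, mul_smul, u1 u hu, u2 u hu]) γ]
    refine finsum_congr fun q => ?_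
    rw [mul_smul, map_mul, jf_mul, norm_mul, mul_pow, Real.log_mul
      (pow_ne_zero _ (norm_ne_zero_iff.2 (jf_ne_zero _ _)))
      (pow_ne_zero _ (norm_ne_zero_iff.2 (jf_ne_zero _ _))), ← smulZ_def, zero_dotProduct,
      zero_dotProduct]
    ring
  have c2 : ∀ (t₁ : Sym2 ι → ℝ) (x₀ x₁ x₂ : ℝ) (Z : HH ι), csum a t t₁ x₀ x₁ x₂ Z =
      csum a t 0 x₀ x₁ x₂ Z - x₂ * (t₁ ⬝ᵥ imv Z.1) * csum a t 0 1 0 0 Z := by
    intro t₁ x₀ x₁ x₂ Z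
    rw [one_eq, csum, csum, ← split (hf Z)]
    refine finsum_congr fun q => ?_
    rw [zero_dotProduct]
    ring
  refine ⟨c1, c2, fun t₁ x₀ x₁ x₂ u hu Z => ?_, fun Z => ?_, fun γ Z => ?_⟩
  · rw [c2 t₁ _ _ _ (u • Z), c2 t₁ _ _ _ Z, c1, c1, u2 u hu, (hU u hu).2.1]
    simp
  · rw [one_eq]
    exact finsum_nonneg fun q => ha.2.1 _
  · rw [one_eq, ← rep_mk (f := fun δ => a (δ • Z).1)
      (fun u hu δ => by rw [mul_smul, u1 u hu]) γ]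
    exact single_le_finsum _ (hf Z) fun q => ha.2.1 _

end Pool.Agent.P.MP_59bdab_ag
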