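import Pool.Agent.P.MP_59bdab_ag.IfC

namespace Pool.Agent.P.MP_59bdab_ag

open Matrix MeasureTheory Filter Topology
open scoped ENNReal ContDiff

namespace CW

/-- A sum over all subsets of a function of the cardinality. -/
theorem sum_card {κ : Type} [Fintype κ] [DecidableEq κ] (f : ℕ → ℂ) :
    ∑ B : Finset κ, f B.card =
      ∑ b ∈ Finset.range (Fintype.card κ + 1), ((Fintype.card κ).choose b : ℂ) * f b := by
  rw [← Finset.powerset_univ, Finset.sum_powerset_apply_card, Finset.card_univ]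
  refine Finset.sum_congr rfl fun b _ => ?_
  rw [nsmul_eq_mul]

/-- Coefficients are determined by the values on an interval. -/
theorem coeff_zero (N : ℕ) (d : ℕ → ℂ) (r : ℝ) (hr : 0 < r)
    (h : ∀ σ : ℝ, 0 < σ → σ < r → ∑ b ∈ Finset.range (N + 1), d b * (-σ : ℂ) ^ b = 0)
    (b : ℕ) (hb : b ≤ N) : d b = 0 := by
  set P : Polynomial ℂ := ∑ b ∈ Finset.range (N + 1), Polynomial.C (d b) * Polynomial.X ^ b
    with hP
  have hP0 : P = 0 := by
    apply Polynomial.eq_zero_of_infinite_isRoot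
    have hinf : ((fun σ : ℝ => (-σ : ℂ)) '' Set.Ioo 0 r).Infinite := by
      refine (Set.Ioo_infinite hr).image ?_
      intro x _ y _ hxy
      have : (x : ℂ) = y := neg_injective hxy
      exact_mod_cast this
    refine hinf.mono ?_
    rintro _ ⟨σ, hσ, rfl⟩
    show P.IsRoot _
    rw [Polynomial.IsRoot.def, hP, Polynomial.eval_finset_sum]
    simpa using h σ hσ.1 hσ.2
  have hc := congrArg (fun Q : Polynomial ℂ => Q.coeff b) hP0
  simp only [hP, Polynomial.finset_sum_coeff, Polynomial.coeff_C_mul_X_pow,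
    Polynomial.coeff_zero] at hc
  rw [Finset.sum_ite_eq, if_pos (Finset.mem_range.2 (Nat.lt_succ_of_le hb))] at hc
  exact hc

/-- Reading off the coefficients of the generating identity. -/
theorem read {κ : Type} [Fintype κ] [DecidableEq κ] (I : Finset κ → ℂ) (c : ℕ → ℂ)
    (hI : ∀ S T : Finset κ, S.card = T.card → I S = I T) (r : ℝ) (hr : 0 < r)
    (h : ∀ σ : ℝ, 0 < σ → σ < r → ∑ B : Finset κ, (-σ : ℂ) ^ B.card * I B =
      ∑ b ∈ Finset.range (Fintype.card κ + 1),
        ((Fintype.card κ).choose b : ℂ) * (-σ : ℂ) ^ b * c b)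
    (B : Finset κ) : I B = c B.card := by
  classical
  have hJ : ∃ J : ℕ → ℂ, ∀ S : Finset κ, I S = J S.card := by
    refine ⟨fun b => if hb : ∃ S : Finset κ, S.card = b then I hb.choose else 0, fun S => ?_⟩
    have hS : ∃ T : Finset κ, T.card = S.card := ⟨S, rfl⟩
    simp only [dif_pos hS]
    exact hI _ _ hS.choose_spec.symm
  obtain ⟨J, hJ⟩ := hJ
  have hB : B.card ≤ Fintype.card κ := Finset.card_le_univ B
  have h0 := coeff_zero (Fintype.card κ)
    (fun b => ((Fintype.card κ).choose b : ℂ) * (J b - c b)) r hr (fun σ h1 h2 => by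
      have h3 := h σ h1 h2
      simp only [hJ] at h3
      rw [sum_card (κ := κ) (fun b => (-σ : ℂ) ^ b * J b), ← sub_eq_zero,
        ← Finset.sum_sub_distrib] at h3
      rw [← h3]
      refine Finset.sum_congr rfl fun b _ => ?_
      ring) B.card hB
  have hne : ((Fintype.card κ).choose B.card : ℂ) ≠ 0 := by
    exact_mod_cast (Nat.choose_pos hB).ne'
  rw [hJ]
  exact sub_eq_zero.1 ((mul_eq_zero.1 h0).resolve_left hne)

end CW

theorem p_CW (hCW1 : S_CW1) (hWED : S_WED) : S_CW := by
  intro g μ δ w B hμ hδ hw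
  obtain ⟨hint, hgen⟩ := hCW1 g μ δ w hμ hδ hw
  refine ⟨hint B, ?_⟩
  have hN : Fintype.card (Sym2 (Fin g)) = tri g := by rw [card_sym2_eq, Fintype.card_fin]
  have hpi := Real.pi_pos
  refine CW.read (κ := Sym2 (Fin g))
    (fun B => ∫ Z, dns (fun l => if l ∈ B then δ else μ) Z ∂νw w)
    (fun b => ((Real.pi ^ tri g * inter g b : ℝ) : ℂ)) (fun S T hST => ?_)
    (1 / (4 * Real.pi)) (by positivity) (fun σ h1 h2 => ?_) B
  · refine integral_congr_ae (Eventually.of_forall fun Z => ?_)
    simp only [dns]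
    congr 1
    have := (hWED (Sym2 (Fin g))).2.2.2.2.2.1 (levi μ Z.1) (levi δ Z.1) S T hST
    simp only [apply_ite (fun u => levi u Z.1)]
    exact this
  · rw [hgen σ h1 (by rw [lt_div_iff₀ (by positivity)] at h2; linarith), hN]
    push_cast
    rw [Finset.mul_sum]
    refine Finset.sum_congr rfl fun b _ => ?_
    ring

end Pool.Agent.P.MP_59bdab_ag
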