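import Pool.Agent.P.MP_59bdab_ag.IfB

namespace Pool.Agent.P.MP_59bdab_ag

open Matrix MeasureTheory Filter Topology
open scoped ENNReal

namespace MAIN

theorem two_tri (n : ℕ) : 2 * tri n = n * (n + 1) := by
  rw [tri]; exact Nat.mul_div_cancel' (Nat.even_mul_succ_self n).two_dvd

theorem tri_add (j r : ℕ) : tri (j + r) = tri j + (tri r + r * j) := by
  have h1 := two_tri (j + r)
  have h2 := two_tri j
  have h3 := two_tri r
  nlinarith

theorem le_tri (r : ℕ) : r ≤ tri r := by
  have h := two_tri r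
  rcases r with _ | r
  · simp
  · nlinarith

theorem cg_pos (g : ℕ) : 0 < cg g := by unfold cg; positivity

theorem cg_add (j r : ℕ) : cg (j + r) * (4 * Real.pi) ^ (tri r + r * j) =
    2 ^ (tri r + r * j - r) * cg j := by
  have hr : r ≤ tri r + r * j := (le_tri r).trans (Nat.le_add_right _ _)
  obtain ⟨e, he⟩ := Nat.exists_eq_add_of_le hr
  have hpi := Real.pi_pos
  rw [cg, cg, tri_add, he, Nat.add_sub_cancel_left,
    show 4 * Real.pi = 2 * (2 * Real.pi) by ring, mul_pow 2 (2 * Real.pi)]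
  simp only [pow_add]
  field_simp

/-- The polynomial of `S_POLY`. -/
noncomputable def poly (g : ℕ) (t : ℝ) : ℝ :=
  ∑ r ∈ Finset.range g, (-1) ^ r * (vol (Fin (g - (r + 1)))).toReal * WW (r + 1) (g - (r + 1)) *
    t ^ (tri (r + 1) + (r + 1) * (g - (r + 1)))

theorem continuous_poly (g : ℕ) : Continuous (poly g) := by
  unfold poly; fun_prop

theorem value (hSV : S_SV) (hFINW : S_FINW) (g : ℕ) (σ : ℝ) :
    2 * cg g * ((vol (Fin g)).toReal - poly g (4 * Real.pi * σ)) = vlim g σ := by
  rw [vlim, Finset.sum_range_succ', poly]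
  have h0 := ((hFINW 0).2.2 g).2.2
  simp only [Nat.sub_zero, Nat.sub_self, pow_zero, h0, one_mul, mul_one]
  rw [← hSV g, mul_assoc, mul_sub, Finset.mul_sum, sub_eq_add_neg, add_comm,
    ← Finset.sum_neg_distrib, mul_comm (cg g)]
  congr 2
  refine Finset.sum_congr rfl fun r hr => ?_
  have hr' : r + 1 ≤ g := Finset.mem_range.mp hr
  obtain ⟨j, hj⟩ := Nat.exists_eq_add_of_le' hr'
  have e1 : g - (r + 1) = j := by omega
  have e2 : tri g - tri j = tri (r + 1) + (r + 1) * j := by
    rw [hj, tri_add]; omega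
  rw [e1, e2, ← hSV j, mul_pow (4 * Real.pi) σ]
  have := cg_add j (r + 1)
  rw [← hj] at this
  calc _ = (-1) ^ (r + 1) * (cg g * (4 * Real.pi) ^ (tri (r + 1) + (r + 1) * j)) *
        (vol (Fin j)).toReal * WW (r + 1) j * σ ^ (tri (r + 1) + (r + 1) * j) := by ring
    _ = _ := by rw [this]; ring

end MAIN

open MAIN in
theorem p_MAIN (hUP : S_UP) (hLOW : S_LOW) (hPOLY : S_POLY) (hSV : S_SV) (hVFIN : S_VFIN)
    (hPROP : S_PROP) (hFINW : S_FINW) (hQ : S_Q) : S_MAIN := by
  intro g hg σ hσ hσ1 k m hk hm hev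
  have : Nonempty (Fin g) := ⟨⟨0, hg⟩⟩
  obtain ⟨-, ⟨w, hw⟩, hvol, -⟩ := hPROP (Fin g)
  have hpi := Real.pi_pos
  set s := 4 * Real.pi * σ with hs
  have hs0 : 0 < s := by positivity
  have hpoly : ∀ t, 0 < t → t ≤ 1 → (mass w (Short (Fin g) t)).toReal = poly g t := by
    intro t h0 h1
    have := (hPOLY (Fin g) w t hw h0 h1).2
    rw [Fintype.card_fin] at this
    exact this
  have hcompl : ∀ t, 0 < t → t ≤ 1 →
      (mass w (Short (Fin g) t)ᶜ).toReal = (vol (Fin g)).toReal - poly g t := by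
    intro t h0 h1
    have hm : MeasurableSet (Short (Fin g) t) :=
      ((hQ (Fin g)).2.2.2.2.2.2.2.2.2.1 t).measurableSet
    have h2 : mass w (Short (Fin g) t) + mass w (Short (Fin g) t)ᶜ = vol (Fin g) := by
      rw [← hvol w hw]; exact lintegral_add_compl w hm
    have h3 := hVFIN.1 (Fin g)
    rw [← h2] at h3
    rw [← hpoly t h0 h1, ← h2, ENNReal.toReal_add (ENNReal.add_ne_top.mp h3).1
      (ENNReal.add_ne_top.mp h3).2]
    ring
  set P : ℝ → ℝ := fun t => 2 * cg g * ((vol (Fin g)).toReal - poly g t) with hP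
  have hPc : Continuous P := continuous_const.mul (continuous_const.sub (continuous_poly g))
  have hPs : P s = vlim g σ := value hSV hFINW g σ
  have hratio : Tendsto (fun n => 4 * Real.pi * m n / k n) atTop (𝓝 s) := by
    simpa only [mul_div_assoc] using hm.const_mul (4 * Real.pi)
  have hkpos : ∀ᶠ n in atTop, (0 : ℝ) < (k n : ℝ) ^ tri g := by
    filter_upwards [hk.eventually_ge_atTop 1] with n hn
    have : (0 : ℝ) < k n := by exact_mod_cast hn
    positivity
  constructor
  · exact (hUP (Fin g) w k m (s / 2) (s / 4) hw hk (by positivity) (by linarith)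
      (hratio.eventually_const_le (by linarith))).1
  rw [← hPs, tendsto_order]
  constructor
  · intro a ha
    have h1 : ∀ᶠ t in 𝓝[>] s, a < P t ∧ t < 1 :=
      ((hPc.tendsto s).eventually_const_lt ha).and (eventually_lt_nhds hσ1) |>.filter_mono
        nhdsWithin_le_nhds
    obtain ⟨t, ⟨ht1, ht2⟩, ht3⟩ := (h1.and self_mem_nhdsWithin).exists
    have ht3' : s < t := ht3
    have h2 := hLOW (Fin g) w k m (s / 2) ((s + t) / 2) t hw hk
      (by simpa only [Fintype.card_fin] using hev) (by positivity) (by linarith) (by linarith)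
      ht2.le ((hratio.eventually_const_le (by linarith)).and
        (hratio.eventually_le_const (by linarith))) ((P t - a) / 2) (by linarith)
    rw [Fintype.card_fin, hpoly t (by linarith) ht2.le] at h2
    filter_upwards [h2, hkpos] with n h3 h4
    rw [lt_div_iff₀ h4]
    refine lt_of_lt_of_le (mul_lt_mul_of_pos_right ?_ h4) h3
    show a < P t - (P t - a) / 2
    linarith
  · intro a ha
    have h1 : ∀ᶠ t in 𝓝[<] s, P t < a ∧ 0 < t :=
      ((hPc.tendsto s).eventually_lt_const ha).and (eventually_gt_nhds hs0) |>.filter_mono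
        nhdsWithin_le_nhds
    obtain ⟨t, ⟨ht1, ht2⟩, ht3⟩ := (h1.and self_mem_nhdsWithin).exists
    have ht3' : t < s := ht3
    have h2 := (hUP (Fin g) w k m ((s + t) / 2) t hw hk ht2 (by linarith)
      (hratio.eventually_const_le (by linarith))).2 ((a - P t) / 2) (by linarith)
    rw [Fintype.card_fin, hcompl t ht2 (by linarith)] at h2
    filter_upwards [h2, hkpos] with n h3 h4
    rw [div_lt_iff₀ h4]
    refine lt_of_le_of_lt h3 (mul_lt_mul_of_pos_right ?_ h4)
    show P t + (a - P t) / 2 < a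
    linarith

end Pool.Agent.P.MP_59bdab_ag
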