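import Pool.Agent.P.MP_59bdab_ag.Inter
import Pool.Agent.P.MP_59bdab_ag.MAIN

namespace Pool.Agent.P.MP_59bdab_ag

open MAIN

theorem vlim_eq (g : ℕ) (σ : ℝ) : vlim g σ =
    2 * (∑ b ∈ Finset.range (tri g + 1), ((tri g).choose b : ℝ) * (-σ) ^ b * inter g b) /
      (tri g).factorial := by
  rw [vlim, mul_div_assoc]
  congr 1
  simp only [inter, Finset.sum_filter, Finset.mul_sum]
  rw [Finset.sum_comm, Finset.sum_div]
  refine Finset.sum_congr rfl fun r hr => ?_
  have hr' : r ≤ g := Nat.lt_succ_iff.mp (Finset.mem_range.mp hr)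
  obtain ⟨j, hj⟩ := Nat.exists_eq_add_of_le' hr'
  have e1 : g - r = j := by omega
  have e2 : tri g = tri j + (tri r + r * j) := by rw [hj, tri_add]
  have e3 : r ≤ tri r + r * j := (le_tri r).trans (Nat.le_add_right _ _)
  rw [e1, Finset.sum_eq_single (tri g - tri j)]
  · rw [if_pos rfl]
    obtain ⟨e, he⟩ := Nat.exists_eq_add_of_le e3
    have e4 : tri g - tri j = r + e := by omega
    have e5 : tri g = (r + e) + tri j := by omega
    have h := Nat.add_choose_mul_factorial_mul_factorial (tri j) (r + e)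
    rw [e4, Nat.add_sub_cancel_left, eq_div_iff (by positivity), e5, add_comm (r + e) (tri j), ← h]
    push_cast
    rw [neg_pow σ, neg_pow (2 : ℝ), pow_add (-1 : ℝ)]
    have h1 : ((-1 : ℝ) ^ e) * (-1) ^ e = 1 := by rw [← mul_pow]; simp
    linear_combination (-((-1 : ℝ) ^ r * 2 ^ e * hh j * WW r j * σ ^ (r + e) *
      ((tri j + (r + e)).choose (r + e)) * (tri j).factorial * (r + e).factorial)) * h1
  · intro b _ hb
    rw [if_neg hb, mul_zero]
  · intro h
    exact absurd (Finset.mem_range.mpr (by omega)) h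

end Pool.Agent.P.MP_59bdab_ag
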