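import Pool.Agent.P.MP_59bdab_ag.IfC
import Pool.Agent.P.MP_59bdab_ag.InterEq

namespace Pool.Agent.P.MP_59bdab_ag

open Matrix MeasureTheory Filter Topology
open scoped ENNReal ContDiff

theorem p_CW1 (hBAR : S_BAR) (hPOT : S_POT) (hREG1 : S_REG1) (hREG3 : S_REG3) (hEXH : S_EXH)
    (hINT : S_INT) (hTEL : S_TEL) (hMASS : S_MASS) (hNUL : S_NUL) (hWED : S_WED)
    (hLEVI1 : S_LEVI1) : S_CW1 := by
  intro g μ δ w hμ hδ hw
  have pμ : Pot 1 μ := (hREG1 (Fin g)).2 _ _ _ hμ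
  have pδ : Pot 0 δ := (hREG1 (Fin g)).2 _ _ _ hδ
  have setup : ∀ s : ℝ, 0 < s → s < 1 → ∃ (s' : ℝ) (b β : ℝ → ℝ) (φ : (Sym2 (Fin g) → ℂ) → ℝ)
      (R : Set (HH (Fin g))) (L : Finset (Sym2 (Fin g) → ℝ)) (ρ : (Sym2 (Fin g) → ℂ) → ℝ)
      (C : ℝ), Bar s s' b β ∧ Pot 1 φ ∧
      (∀ Z ∈ OS (Fin g) s s' b, φ Z.1 = Ph s b β (imv Z.1)) ∧ Reg R ∧ Exh R L ρ ∧ Tame R L μ ∧
      Tame R L δ ∧ Tame R L φ ∧
      ∀ Z ∈ R, |μ Z.1 - s / (4 * Real.pi) * δ Z.1 - φ Z.1| ≤ C * (1 + ρ Z.1) := by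
    intro s h0 h1
    obtain ⟨b, β, hb⟩ := hBAR s ((s + 1) / 2) h0 (by linarith) (by linarith)
    obtain ⟨φ, pφ, hφ⟩ := hPOT (Fin g) _ _ b β hb
    obtain ⟨R, L, C, hR, tφ, hC, hE, hK⟩ := hREG3 (Fin g) _ _ b β μ δ φ hb hμ hδ hφ
    obtain ⟨ρ, C', hρ, h2⟩ := hEXH (Fin g) s μ δ φ R L C hR pδ hC hE hK
    exact ⟨_, b, β, φ, R, L, ρ, C', hb, pφ, hφ, hR, hρ, ⟨C, hC, fun Z hZ => (hE Z hZ).1⟩,
      ⟨C, hC, fun Z hZ => (hE Z hZ).2.1⟩, tφ, h2⟩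
  have hint : ∀ B : Finset (Sym2 (Fin g)),
      Integrable (dns fun l => if l ∈ B then δ else μ) (νw w) := by
    intro B
    obtain ⟨-, -, -, -, R, L, -, -, -, -, -, hR, -, tμ, tδ, -⟩ :=
      setup (1 / 2) (by norm_num) (by norm_num)
    refine (hINT (Fin g) R L hR).2 w (fun l => if l ∈ B then 0 else 1) _ hw fun l => ?_
    split_ifs
    exacts [⟨pδ, tδ⟩, ⟨pμ, tμ⟩]
  refine ⟨hint, fun σ hσ hσ1 => ?_⟩
  have hpi := Real.pi_pos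
  obtain ⟨s', b, β, φ, R, L, ρ, C, hb, pφ, hφ, hR, hρ, tμ, tδ, tφ, hC⟩ :=
    setup (4 * Real.pi * σ) (by positivity) hσ1
  set u : (Sym2 (Fin g) → ℂ) → ℝ := fun z => (-σ) * δ z + μ z with hu
  have pu : Pot 1 u := by
    have := pδ.comb pμ (-σ)
    rwa [mul_zero, zero_add] at this
  have lu : ∀ Z : HH (Fin g), levi u Z.1 = ((-σ : ℝ) : ℂ) • levi δ Z.1 + levi μ Z.1 := fun Z =>
    ((hLEVI1 (Sym2 (Fin g))).2.2.2.1 δ μ (-σ) Z.1 ((pδ.contDiffAt Z).of_le (by norm_cast))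
      ((pμ.contDiffAt Z).of_le (by norm_cast))).1
  have tu : Tame R L u := by
    obtain ⟨C1, h1, h2⟩ := tμ
    obtain ⟨C2, h3, h4⟩ := tδ
    refine ⟨‖((-σ : ℝ) : ℂ)‖ * C2 + C1, by positivity, fun Z hZ => ?_⟩
    rw [lu]
    exact ((h4 Z hZ).smul _).add (h2 Z hZ)
  have h1 := hTEL (Fin g) R L ρ w u φ C hR hρ hw pu pφ tu tφ fun Z hZ => by
    have h := hC Z hZ
    rwa [show μ Z.1 - 4 * Real.pi * σ / (4 * Real.pi) * δ Z.1 = u Z.1 by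
      simp only [hu]; field_simp; ring] at h
  have h2 : ∀ Z, dns (fun _ => u) Z = ∑ B : Finset (Sym2 (Fin g)), (-σ : ℂ) ^ B.card *
      dns (fun l => if l ∈ B then δ else μ) Z := by
    intro Z
    simp only [dns, lu, (hWED (Sym2 (Fin g))).2.2.2.2.1, Finset.sum_mul]
    refine Finset.sum_congr rfl fun B _ => ?_
    simp only [apply_ite (fun v => levi v Z.1)]
    push_cast
    ring
  simp only [h2] at h1
  rw [integral_finsetSum _ fun B _ => (hint B).const_mul _] at h1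
  simp only [integral_const_mul] at h1
  rw [h1, hMASS (Fin g) _ _ b β hb φ w pφ hφ hw]
  congr 1
  have h3 := hNUL g σ w hσ hσ1 hw
  rw [vlim_eq, cg] at h3
  simp only [Fintype.card_fin]
  have h4 : (mass w (HG (Fin g) (4 * Real.pi * σ))).toReal = 2 ^ g * (2 * Real.pi) ^ tri g *
      (∑ b ∈ Finset.range (tri g + 1), ((tri g).choose b : ℝ) * (-σ) ^ b * inter g b) /
        (tri g).factorial := by
    field_simp at h3 ⊢
    linarith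
  have h5 : (4 : ℝ) ^ tri g = 2 ^ tri g * (2 ^ g * 2 ^ (tri g - g)) := by
    rw [← pow_add, Nat.add_sub_cancel' (MAIN.le_tri g), ← mul_pow]; norm_num
  rw [h4, h5, mul_pow]
  field_simp

end Pool.Agent.P.MP_59bdab_ag
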