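import Pool.Agent.P.MP_59bdab_ag.IfB

/-! Decay of forms with vanishing order at points with a short vector. -/

namespace Pool.Agent.P.MP_59bdab_ag

open Matrix MeasureTheory Filter Topology
open scoped ENNReal ComplexOrder

theorem p_DEC (hMOVE : S_MOVE) (hEXT : S_EXT) (hQ : S_Q) : S_DEC := by
  intro ι _ _ G k j f M hk hj hf hV hM Z v hv ⟨γ, hγ, h0⟩ hq
  obtain ⟨-, -, hQ3, -, -, -, -, hQ8, hQ9, -⟩ := hQ ι
  have hq0 := hQ8 Z v hv
  have hw : γ.1 *ᵥ v = lv fun i => (γ.1 *ᵥ v) (Sum.inl i) := by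
    funext a
    rcases a with a | a
    · rfl
    · exact h0 a
  have hp : (fun i => (γ.1 *ᵥ v) (Sum.inl i)) ≠ 0 := by
    intro h
    have h1 := hQ3 γ Z v
    have h2 := hQ9 (γ • Z) 0 0
    have h3 : (lv (0 : ι → ℤ)) = (0 : ℤ) • (0 : ι ⊕ ι → ℤ) := by
      funext a
      rcases a with a | a <;> rfl
    rw [hw, h, h3, h2] at h1
    simp at h1
    exact hq0.ne h1
  obtain ⟨⟨c, p⟩, hp1, hcp⟩ := (hEXT ι).2.2.2.2.surjOn hp
  have hcp' : ((c + 1 : ℕ) : ℤ) • p = fun i => (γ.1 *ᵥ v) (Sum.inl i) := hcp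
  have hl : γ.1 *ᵥ v = ((c + 1 : ℕ) : ℤ) • lv p := by
    rw [hw, ← hcp']
    funext a
    rcases a with a | a <;> simp [lv]
  have h1 := hQ3 γ Z v
  rw [hl, hQ9] at h1
  have hc : (1 : ℝ) ≤ (((c + 1 : ℕ) : ℤ) : ℝ) ^ 2 := by
    have : (1 : ℝ) ≤ (((c + 1 : ℕ) : ℤ) : ℝ) := by
      push_cast
      linarith [Nat.cast_nonneg (α := ℝ) c]
    nlinarith
  have hpos : 0 < qf (Qm (γ • Z)) (lv p) := by
    by_contra h
    nlinarith
  have hle : qf (Qm (γ • Z)) (lv p) ≤ qf (Qm Z) v := by nlinarith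
  obtain ⟨Z', -, -, -, hZ'⟩ :=
    (hMOVE ι k j f (γ • Z) hk hj hf.1).1 p hp1 hV (hle.trans hq)
  rw [hf.FF_smul hγ] at hZ'
  have hs : 1 ≤ 4 * Real.pi * j / k / qf (Qm Z) v := (one_le_div hq0).2 hq
  have hs2 : 4 * Real.pi * j / k / qf (Qm Z) v ≤ 4 * Real.pi * j / k / qf (Qm (γ • Z)) (lv p) :=
    div_le_div_of_nonneg_left (hq0.le.trans hq) hpos hle
  refine hZ'.trans (mul_le_mul (pow_le_pow_left₀ (psi_nonneg (by linarith)) (psi_anti hs hs2) k)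
    (hM Z') (FF_nonneg _ _ _) (pow_nonneg (psi_nonneg (by linarith)) _))

end Pool.Agent.P.MP_59bdab_ag
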