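import Pool.Agent.P.MP_59bdab_ag.IfC

namespace Pool.Agent.P.MP_59bdab_ag

open Matrix Filter Topology

namespace DEEP

variable {ι : Type} [Fintype ι] [DecidableEq ι] {t : Sym2 ι → ℝ} (W : Sym2 ι → ℂ)
  {n : Sym2 ι → ℤ}

theorem tendsto_flat (h : ∀ p, pr t p = 1 → pr (cz n) p = 0) :
    Tendsto (fun z => cz n ⬝ᵥ imv z) (cfil t W) (𝓝 (cz n ⬝ᵥ imv W)) := by
  have h1 := (tendsto_chr W (n := n) (t := t) fun p hp => (h p hp).ge).norm
  rw [chr0_of W h] at h1
  have h2 := (h1.log (norm_ne_zero_iff.2 (chr_ne_zero n W))).div_const (-(2 * Real.pi))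
  have h3 : ∀ z, Real.log ‖chr n z‖ / (-(2 * Real.pi)) = cz n ⬝ᵥ imv z := fun z => by
    rw [norm_chr, Real.log_exp]
    field_simp
  simpa only [h3] using h2

theorem tendsto_top (hn : Du t n) (h : ¬ ∀ p, pr t p = 1 → pr (cz n) p = 0) :
    Tendsto (fun z => cz n ⬝ᵥ imv z) (cfil t W) atTop := by
  have h1 := (tendsto_chr W hn).norm
  rw [chr0_of_not W h, norm_zero] at h1
  simp only [norm_chr] at h1
  have h2 := tendsto_neg_atBot_iff.1 (Real.tendsto_exp_comp_nhds_zero.1 h1)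
  exact (tendsto_const_mul_atTop_of_pos (by positivity)).1 h2

end DEEP

open DEEP in
theorem p_DEEP (hMW : S_MW) (hSPL : S_SPL) : S_DEEP := by
  intro ι _ _ t W P hP η hη R
  obtain ⟨r, m, e, hm, hme, hsp⟩ := hSPL (Sym2 ι) (ι → ℤ) P sqz
  obtain ⟨A, hA, hA'⟩ := hMW (Sym2 ι) (ι → ℤ) P sqz
  set E : (Sym2 ι → ℂ) → Sym2 ι → ℝ :=
    fun z => ∑ j, (cz (m j) ⬝ᵥ imv z - cz (m j) ⬝ᵥ imv W) • cz (e j) with hE
  have hE0 : Tendsto E (cfil t W) (𝓝 0) := by
    have : Tendsto E (cfil t W)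
        (𝓝 (∑ j, (cz (m j) ⬝ᵥ imv W - cz (m j) ⬝ᵥ imv W) • cz (e j))) :=
      tendsto_finsetSum _ fun j _ => ((tendsto_flat W fun p hp => by
        rw [pr_cz, hm j p ((hP p).2 hp), Int.cast_zero]).sub_const _).smul_const _
    simpa using this
  have hS : ∀ z, ∃ c : (ι → ℤ) → ℝ, imv z - imv W - E z = ∑ p ∈ P, c p • sqr p := fun z =>
    hsp _ fun j => by
      simp [hE, dotProduct_sub, dotProduct_sum, cz_dot, hme]
  have h1 : ∀ᶠ z in cfil t W, ‖E z‖ ≤ η := by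
    have := hE0.norm
    rw [norm_zero] at this
    exact this.eventually (ge_mem_nhds hη)
  have h2 : ∀ n ∈ A, ∀ᶠ z in cfil t W,
      0 ≤ cz n ⬝ᵥ (imv z - imv W - E z - ∑ p ∈ P, R • sqr p) := by
    intro n hn
    by_cases h : ∀ p, pr t p = 1 → pr (cz n) p = 0
    · refine Eventually.of_forall fun z => ?_
      obtain ⟨c, hc⟩ := hS z
      have h0 : ∀ p ∈ P, cz n ⬝ᵥ sqr p = 0 := fun p hp => h p ((hP p).1 hp)
      rw [hc, dotProduct_sub, dotProduct_sum, dotProduct_sum, Finset.sum_eq_zero,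
        Finset.sum_eq_zero, sub_zero]
      · exact fun p hp => by rw [dotProduct_smul, h0 p hp, smul_zero]
      · exact fun p hp => by rw [dotProduct_smul, h0 p hp, smul_zero]
    · have hn' : Du t n := fun p hp => by
        rw [pr_cz]
        exact_mod_cast hA n hn p ((hP p).2 hp)
      have h3 : Tendsto (fun z => -(cz n ⬝ᵥ imv W) - cz n ⬝ᵥ E z - cz n ⬝ᵥ ∑ p ∈ P, R • sqr p)
          (cfil t W) (𝓝 (-(cz n ⬝ᵥ imv W) - cz n ⬝ᵥ 0 - cz n ⬝ᵥ ∑ p ∈ P, R • sqr p)) :=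
        (tendsto_const_nhds.sub
          (((continuous_const.dotProduct continuous_id).tendsto _).comp hE0)).sub_const _
      filter_upwards [((tendsto_top W hn' h).atTop_add h3).eventually_ge_atTop 0] with z hz
      simp only [dotProduct_sub]
      linarith
  filter_upwards [h1, (eventually_all_finset A).2 h2] with z hz hz'
  obtain ⟨c, hc, hc'⟩ := hA' _ hz'
  refine ⟨fun p => c p + R, fun p => by linarith [hc p], ?_⟩
  have : imv z - ∑ p ∈ P, (c p + R) • sqr p - imv W = E z := by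
    simp only [add_smul, Finset.sum_add_distrib]
    change imv z - (∑ p ∈ P, c p • cz (sqz p) + ∑ p ∈ P, R • sqr p) - imv W = E z
    rw [← hc']
    abel
  rwa [this]

end Pool.Agent.P.MP_59bdab_ag
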