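import Pool.Agent.P.MP_59bdab_ag.IfA

/-! The determinant of the action of a matrix on symmetric matrices. -/

namespace Pool.Agent.P.MP_59bdab_ag

open Matrix

namespace DET

variable {K ι : Type} [Field K]

/-- The product of the values at the two ends. -/
def w (d : ι → K) : Sym2 ι → K := Sym2.lift ⟨fun i j => d i * d j, fun _ _ => mul_comm _ _⟩

theorem prod_w (d : ι → K) (s : Finset ι) :
    ∏ p ∈ s.sym2, w d p = (∏ i ∈ s, d i) ^ (s.card + 1) := by
  induction s using Finset.cons_induction with
  | empty => simp
  | cons a s ha ih =>
    rw [Finset.sym2_cons, Finset.prod_disjUnion, ih, Finset.prod_map]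
    have : ∀ b, w d (Sym2.mkEmbedding a b) = d a * d b := fun _ => rfl
    simp only [this, Finset.prod_mul_distrib, Finset.prod_const, Finset.prod_cons, Finset.card_cons]
    ring

variable [CharZero K] [Fintype ι] [DecidableEq ι]

omit [DecidableEq ι] in
theorem symL_mul (P Q : Matrix ι ι K) : symL (P * Q) = symL P ∘ₗ symL Q := by
  refine LinearMap.ext fun q => mat_injective ?_
  rw [LinearMap.comp_apply, mat_symL, mat_symL, mat_symL, transpose_mul]
  simp only [Matrix.mul_assoc]

omit [DecidableEq ι] in
theorem det_mul (P Q : Matrix ι ι K) :
    LinearMap.det (symL (P * Q)) = LinearMap.det (symL P) * LinearMap.det (symL Q) := by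
  rw [symL_mul, LinearMap.det_comp]

theorem det_diag (d : ι → K) :
    LinearMap.det (symL (diagonal d)) = (diagonal d).det ^ (Fintype.card ι + 1) := by
  have h : symL (diagonal d) = Matrix.toLin' (diagonal (w d)) := by
    refine LinearMap.ext fun q => mat_injective ?_
    rw [mat_symL]
    ext i j
    rw [diagonal_transpose, mul_diagonal, diagonal_mul, mat_apply, mat_apply, toLin'_apply,
      mulVec_diagonal]
    change _ = d i * d j * _
    ring
  rw [h, LinearMap.det_toLin', det_diagonal, det_diagonal, ← Finset.sym2_univ, prod_w,
    Finset.card_univ]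

theorem det_trans (i j : ι) (hij : i ≠ j) (c : K) :
    LinearMap.det (symL (transvection i j c)) = 1 := by
  have h1 : LinearMap.det (symL (transvection i j c)) *
      LinearMap.det (symL (transvection i j (-c))) = 1 := by
    rw [← det_mul, transvection_mul_transvection_same i j hij, add_neg_cancel, transvection_zero,
      ← diagonal_one, det_diag, diagonal_one, det_one, one_pow]
  have h2 : diagonal (Function.update (fun _ => (1 : K)) i 2) * transvection i j c =
      transvection i j c * transvection i j c *
        diagonal (Function.update (fun _ => (1 : K)) i 2) := by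
    rw [transvection_mul_transvection_same i j hij]
    ext a b
    rw [diagonal_mul, mul_diagonal]
    simp only [transvection, Matrix.add_apply, one_apply, single_apply, Function.update_apply]
    by_cases ha : a = i
    · subst ha
      by_cases hb : b = a
      · subst hb
        simp [hij.symm]
      · by_cases hb' : j = b
        · simp [hb, hb', Ne.symm hb, two_mul]
        · simp [hb', Ne.symm hb]
    · by_cases hb : b = i
      · simp [ha, hb, Ne.symm ha]
      · simp [ha, hb, Ne.symm ha]
  have h3 : LinearMap.det (symL (diagonal (Function.update (fun _ => (1 : K)) i 2))) ≠ 0 := by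
    rw [det_diag, det_diagonal]
    refine pow_ne_zero _ (Finset.prod_ne_zero_iff.mpr fun a _ => ?_)
    rw [Function.update_apply]
    split_ifs
    · exact two_ne_zero
    · exact one_ne_zero
  have h4 := congrArg (fun P => LinearMap.det (symL P)) h2
  simp only [det_mul] at h4
  rw [mul_comm] at h4
  have h5 := mul_right_cancel₀ h3 h4
  exact (mul_eq_left₀ (left_ne_zero_of_mul_eq_one h1)).mp h5.symm

end DET

theorem p_DET : S_DET := by
  intro K ι _ _ _ _ P
  refine diagonal_transvection_induction
    (fun P => LinearMap.det (symL P) = P.det ^ (Fintype.card ι + 1)) P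
    (fun d _ => DET.det_diag d) (fun t => ?_) fun A B hA hB => ?_
  · rw [TransvectionStruct.det, one_pow]
    exact DET.det_trans t.i t.j t.hij t.c
  · rw [DET.det_mul, hA, hB, Matrix.det_mul, mul_pow]

end Pool.Agent.P.MP_59bdab_ag
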