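import Pool.Agent.P.MP_59bdab_ag.IfA

namespace Pool.Agent.P.MP_59bdab_ag

open MeasureTheory
open scoped ENNReal NNReal

namespace DIM

theorem sq_eLp {X : Type} [MeasurableSpace X] (ν : Measure X) (g : X → ℂ) :
    eLpNorm g 2 ν ^ 2 = ∫⁻ x, ‖g x‖ₑ ^ 2 ∂ν := by
  have h := eLpNorm_nnreal_pow_eq_lintegral (f := g) (μ := ν) (p := (2 : ℝ≥0)) (by norm_num)
  have e1 : ((2 : ℝ≥0) : ℝ) = ((2 : ℕ) : ℝ) := by norm_num
  have e2 : ((2 : ℝ≥0) : ℝ≥0∞) = 2 := by norm_num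
  rw [e1, e2] at h
  simpa only [ENNReal.rpow_natCast] using h

theorem enorm_sq {F : Type} [NormedAddCommGroup F] (z : F) :
    ‖z‖ₑ ^ 2 = ENNReal.ofReal (‖z‖ ^ 2) := by
  rw [ENNReal.ofReal_pow (norm_nonneg z), ofReal_norm]

theorem bergman (W X : Type) [AddCommGroup W] [Module ℂ W] [FiniteDimensional ℂ W]
    [MeasurableSpace X] (ν : Measure X) (T : W →ₗ[ℂ] (X → ℂ))
    (hm : ∀ f, Measurable (T f)) (hf : ∀ f, ∫⁻ x, ‖T f x‖ₑ ^ 2 ∂ν ≠ ⊤)
    (hd : ∀ f, ∫⁻ x, ‖T f x‖ₑ ^ 2 ∂ν = 0 → f = 0) :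
    ∃ S : X → ℝ≥0∞, ∫⁻ x, S x ∂ν = (Module.finrank ℂ W : ℝ≥0∞) ∧ (∀ x, S x ≠ ⊤) ∧
      (∀ x f, ‖T f x‖ₑ ^ 2 ≤ S x * ∫⁻ y, ‖T f y‖ₑ ^ 2 ∂ν) ∧
      (∀ x, ∃ f, ∫⁻ y, ‖T f y‖ₑ ^ 2 ∂ν = S x ∧ ‖T f x‖ₑ ^ 2 = S x * S x) := by
  classical
  have hL : ∀ f, MemLp (T f) 2 ν := by
    intro f
    refine ⟨(hm f).aestronglyMeasurable, ?_⟩
    have h1 := hf f
    rw [← sq_eLp] at h1
    exact lt_top_iff_ne_top.2 fun h => h1 (by rw [h]; simp)
  let L : W →ₗ[ℂ] Lp ℂ 2 ν :=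
    { toFun := fun f => (hL f).toLp (T f)
      map_add' := by
        intro f g
        rw [← MemLp.toLp_add]
        exact MemLp.toLp_congr _ _ (by rw [map_add])
      map_smul' := by
        intro c f
        rw [RingHom.id_apply, ← MemLp.toLp_const_smul]
        exact MemLp.toLp_congr _ _ (by rw [map_smul]) }
  have hN : ∀ f, ∫⁻ x, ‖T f x‖ₑ ^ 2 ∂ν = ENNReal.ofReal (‖L f‖ ^ 2) := by
    intro f
    rw [← enorm_sq, ← sq_eLp]
    congr 1
    exact (Lp.enorm_toLp (hL f)).symm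
  have hinj : Function.Injective L := by
    rw [injective_iff_map_eq_zero]
    intro f h0
    apply hd
    rw [hN, h0]
    simp
  let φ : W ≃ₗ[ℂ] LinearMap.range L := LinearEquiv.ofInjective L hinj
  let ob := stdOrthonormalBasis ℂ (LinearMap.range L)
  let e : Fin (Module.finrank ℂ (LinearMap.range L)) → W := fun i => φ.symm (ob i)
  have hφ : ∀ f, ‖L f‖ = ‖φ f‖ := fun f => rfl
  have hsum : ∀ c : Fin (Module.finrank ℂ (LinearMap.range L)) → ℂ,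
      ∫⁻ x, ‖T (∑ i, c i • e i) x‖ₑ ^ 2 ∂ν = ENNReal.ofReal (∑ i, ‖c i‖ ^ 2) := by
    intro c
    rw [hN, hφ]
    congr 1
    have h1 : φ (∑ i, c i • e i) = ob.repr.symm (WithLp.toLp 2 c) := by
      rw [← OrthonormalBasis.sum_repr_symm, map_sum]
      refine Finset.sum_congr rfl fun i _ => ?_
      rw [map_smul]
      simp [e]
    rw [h1, LinearIsometryEquiv.norm_map, EuclideanSpace.norm_sq_eq]
  have hrep : ∀ f, ∃ c : Fin (Module.finrank ℂ (LinearMap.range L)) → ℂ,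
      f = ∑ i, c i • e i := by
    intro f
    refine ⟨fun i => ob.repr (φ f) i, φ.injective ?_⟩
    rw [map_sum]
    conv_lhs => rw [← ob.sum_repr (φ f)]
    refine Finset.sum_congr rfl fun i _ => ?_
    rw [map_smul]
    simp [e]
  have hev : ∀ (c : Fin (Module.finrank ℂ (LinearMap.range L)) → ℂ) x,
      T (∑ i, c i • e i) x = ∑ i, c i * T (e i) x := by
    intro c x
    rw [map_sum, Finset.sum_apply]
    refine Finset.sum_congr rfl fun i _ => ?_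
    rw [map_smul]
    rfl
  refine ⟨fun x => ENNReal.ofReal (∑ i, ‖T (e i) x‖ ^ 2), ?_, fun x => ENNReal.ofReal_ne_top,
    ?_, ?_⟩
  · have h1 : ∀ x, ENNReal.ofReal (∑ i, ‖T (e i) x‖ ^ 2) = ∑ i, ‖T (e i) x‖ₑ ^ 2 := by
      intro x
      rw [ENNReal.ofReal_sum_of_nonneg fun i _ => by positivity]
      exact Finset.sum_congr rfl fun i _ => (enorm_sq _).symm
    simp_rw [h1]
    rw [lintegral_finsetSum _ fun i _ => (hm (e i)).enorm.pow_const 2]
    have h2 : ∀ i, ∫⁻ x, ‖T (e i) x‖ₑ ^ 2 ∂ν = 1 := by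
      intro i
      rw [hN, hφ]
      have : φ (e i) = ob i := by simp [e]
      rw [this, ob.orthonormal.1 i]
      simp
    simp_rw [h2]
    rw [φ.finrank_eq]
    simp
  · intro x f
    obtain ⟨c, rfl⟩ := hrep f
    rw [hsum, hev, enorm_sq, ← ENNReal.ofReal_mul (by positivity)]
    apply ENNReal.ofReal_le_ofReal
    calc ‖∑ i, c i * T (e i) x‖ ^ 2 ≤ (∑ i, ‖T (e i) x‖ * ‖c i‖) ^ 2 := by
          gcongr
          refine (norm_sum_le _ _).trans (le_of_eq ?_)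
          exact Finset.sum_congr rfl fun i _ => by rw [norm_mul, mul_comm]
      _ ≤ _ := Finset.sum_mul_sq_le_sq_mul_sq _ _ _
  · intro x
    refine ⟨∑ i, (starRingEnd ℂ) (T (e i) x) • e i, ?_, ?_⟩
    · rw [hsum]
      simp
    · rw [hev, enorm_sq, ← ENNReal.ofReal_mul (by positivity)]
      congr 1
      have h1 : ∑ i, (starRingEnd ℂ) (T (e i) x) * T (e i) x =
          ((∑ i, ‖T (e i) x‖ ^ 2 : ℝ) : ℂ) := by
        push_cast
        exact Finset.sum_congr rfl fun i _ => Complex.conj_mul' _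
      rw [h1, Complex.norm_real, Real.norm_of_nonneg (by positivity), sq]

theorem upper (W X : Type) [AddCommGroup W] [Module ℂ W] [FiniteDimensional ℂ W]
    [MeasurableSpace X] (ν : Measure X) (T : W →ₗ[ℂ] (X → ℂ)) (b : X → ℝ≥0∞)
    (hi : ∀ f, T f = 0 → f = 0)
    (hm : ∀ f, Measurable (T f)) (hf : ∀ f, ∫⁻ x, ‖T f x‖ₑ ^ 2 ∂ν ≠ ⊤)
    (hb : ∀ f x, ‖T f x‖ₑ ^ 2 ≤ b x * ∫⁻ y, ‖T f y‖ₑ ^ 2 ∂ν) :
    (Module.finrank ℂ W : ℝ≥0∞) ≤ ∫⁻ x, b x ∂ν := by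
  obtain ⟨S, h1, h2, -, h4⟩ := bergman W X ν T hm hf (by
    intro f h0
    apply hi
    funext x
    have := hb f x
    rw [h0, mul_zero] at this
    simpa using this)
  rw [← h1]
  refine lintegral_mono fun x => ?_
  obtain ⟨f, a1, a2⟩ := h4 x
  have a3 := hb f x
  rw [a1, a2] at a3
  by_cases h0 : S x = 0
  · simp [h0]
  · exact (ENNReal.mul_le_mul_iff_left h0 (h2 x)).1 a3

end DIM

theorem p_DIMU : S_DIMU := by
  intro E X _ _ _ ν V T b hi hm hf hb htop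
  have key : ∀ (W : Submodule ℂ V) [FiniteDimensional ℂ W],
      (Module.finrank ℂ W : ℝ≥0∞) ≤ ∫⁻ x, b x ∂ν := by
    intro W _
    refine DIM.upper W X ν (T ∘ₗ V.subtype ∘ₗ W.subtype) b ?_ ?_ ?_ ?_
    · intro f h0
      exact Subtype.ext (Subtype.ext (hi _ f.1.2 h0))
    · exact fun f => hm _ f.1.2
    · exact fun f => hf _ f.1.2
    · exact fun f => hb _ f.1.2
  have hfin : FiniteDimensional ℂ V := by
    obtain ⟨n, hn⟩ := ENNReal.exists_nat_gt htop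
    have hr : Module.rank ℂ V ≤ n := by
      refine rank_le fun s hs => ?_
      have h1 := key (Submodule.span ℂ (s : Set V))
      rw [finrank_span_finset_eq_card hs] at h1
      exact_mod_cast (h1.trans hn.le)
    exact Module.rank_lt_aleph0_iff.1 (hr.trans_lt (Cardinal.natCast_lt_aleph0))
  refine ⟨hfin, ?_⟩
  have := key ⊤
  rwa [finrank_top] at this

theorem p_DIML : S_DIML := by
  intro E X _ _ _ ν V _ T b hm hf hd hb
  obtain ⟨S, h1, h2, h3, -⟩ := DIM.bergman V X ν (T ∘ₗ V.subtype) (fun f => hm _ f.2)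
    (fun f => hf _ f.2) (fun f h => Subtype.ext (hd _ f.2 h))
  rw [← h1]
  refine lintegral_mono_ae ?_
  filter_upwards [hb] with x hx
  rcases hx with h0 | ⟨f, hfV, hne, hle⟩
  · simp [h0]
  · have a := hle.trans (h3 x ⟨f, hfV⟩)
    exact (ENNReal.mul_le_mul_iff_left (fun h => hne (hd f hfV h)) (hf f hfV)).1 a

end Pool.Agent.P.MP_59bdab_ag
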