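import Pool.Agent.P.MP_59bdab_ag.IfA

/-!
Elementary properties of the Siegel disc.
-/

namespace Pool.Agent.P.MP_59bdab_ag

open Matrix MeasureTheory Filter Topology
open scoped ENNReal ComplexOrder

namespace DISC

variable {ι : Type} [Fintype ι] [DecidableEq ι]

theorem spec {A : Matrix ι ι ℂ} (hA : A.PosSemidef) : ∃ a : ι → ℝ, (∀ i, 0 ≤ a i) ∧
    A.trace = (∑ i, a i : ℝ) ∧ ∀ t : ℝ, (1 - (t : ℂ) • A).det.re = ∏ i, (1 - t * a i) ∧
      ((1 - (t : ℂ) • A).PosDef ↔ ∀ i, t * a i < 1) := by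
  have h := hA.isHermitian
  refine ⟨h.eigenvalues, hA.eigenvalues_nonneg, by simp [h.trace_eq_sum_eigenvalues], fun t => ?_⟩
  have e : 1 - (t : ℂ) • A = h.eigenvectorUnitary *
      diagonal (fun i => ((1 - t * h.eigenvalues i : ℝ) : ℂ)) *
        star (h.eigenvectorUnitary : Matrix ι ι ℂ) := by
    have e1 : diagonal (fun i => ((1 - t * h.eigenvalues i : ℝ) : ℂ)) =
        1 - (t : ℂ) • diagonal (RCLike.ofReal ∘ h.eigenvalues) := by
      rw [← diagonal_one, ← diagonal_smul, diagonal_sub]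
      exact congrArg _ (funext fun i => by simp)
    rw [e1, Matrix.mul_sub, Matrix.sub_mul, Matrix.mul_one, Matrix.mul_smul, Matrix.smul_mul]
    congr 1
    · exact (Unitary.coe_mul_star_self _).symm
    · exact congrArg _ h.spectral_theorem
  rw [e]
  constructor
  · rw [det_mul_right_comm, ← Unitary.coe_star, Unitary.coe_mul_star_self, Matrix.one_mul,
      det_diagonal, ← Complex.ofReal_prod, Complex.ofReal_re]
  · rw [Unitary.isUnit_coe.posDef_star_right_conjugate_iff, posDef_diagonal_iff]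
    simp only [Complex.zero_lt_real, sub_pos]

omit [DecidableEq ι] in
theorem diag (ζ : Sym2 ι → ℂ) (i : ι) :
    (mat ζ * (mat ζ)ᴴ) i i = (∑ j, ‖ζ s(i, j)‖ ^ 2 : ℝ) := by
  simp [mul_apply, Complex.mul_conj']

omit [DecidableEq ι] in
theorem smul_eq (c : ℂ) (ζ : Sym2 ι → ℂ) :
    mat (c • ζ) * (mat (c • ζ))ᴴ = ((‖c‖ ^ 2 : ℝ) : ℂ) • (mat ζ * (mat ζ)ᴴ) := by
  rw [mat_smul, conjTranspose_smul, Matrix.smul_mul, Matrix.mul_smul, smul_smul]
  simp [Complex.mul_conj']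

theorem data (ζ : Sym2 ι → ℂ) : ∃ a : ι → ℝ, (∀ i, 0 ≤ a i) ∧
    ∑ i, a i = ∑ i, ∑ j, ‖ζ s(i, j)‖ ^ 2 ∧ ∀ c : ℂ, dd (c • ζ) = ∏ i, (1 - ‖c‖ ^ 2 * a i) ∧
      ((1 - mat (c • ζ) * (mat (c • ζ))ᴴ).PosDef ↔ ∀ i, ‖c‖ ^ 2 * a i < 1) := by
  obtain ⟨a, h1, h2, h3⟩ := spec (posSemidef_self_mul_conjTranspose (mat ζ))
  refine ⟨a, h1, ?_, fun c => by rw [dd, smul_eq]; exact h3 _⟩
  simp only [trace, Matrix.diag, diag] at h2
  exact_mod_cast h2.symm

theorem cont : Continuous fun ζ : Sym2 ι → ℂ => 1 - mat ζ * (mat ζ)ᴴ :=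
  continuous_const.sub (continuous_mat.matrix_mul continuous_mat.matrix_conjTranspose)

theorem herm (ζ : Sym2 ι → ℂ) : (1 - mat ζ * (mat ζ)ᴴ).IsHermitian :=
  isHermitian_one.sub (isHermitian_mul_conjTranspose_self _)

theorem cont_dd : Continuous (dd : (Sym2 ι → ℂ) → ℝ) :=
  Complex.continuous_re.comp cont.matrix_det

theorem entry {ζ : Sym2 ι → ℂ} (h : (1 - mat ζ * (mat ζ)ᴴ).PosSemidef) (p : Sym2 ι) :
    ‖ζ p‖ ≤ 1 := by
  induction p using Sym2.ind with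
  | _ i j =>
    have h1 := h.diag_nonneg (i := i)
    rw [Matrix.sub_apply, one_apply_eq, diag, sub_nonneg] at h1
    have h2 : ∑ j, ‖ζ s(i, j)‖ ^ 2 ≤ 1 := by exact_mod_cast h1
    exact (sq_le_one_iff₀ (norm_nonneg _)).1 ((Finset.single_le_sum
      (f := fun j => ‖ζ s(i, j)‖ ^ 2) (fun _ _ => sq_nonneg _) (Finset.mem_univ j)).trans h2)

theorem unit {Z : Matrix ι ι ℂ} (h : (1 - Z * Zᴴ).PosDef) : IsUnit (1 - Z).det := by
  refine isUnit_iff_ne_zero.2 fun e => ?_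
  obtain ⟨w, h0, hw⟩ := exists_vecMul_eq_zero_iff.2 e
  rw [vecMul_sub, vecMul_one, sub_eq_zero] at hw
  have := h.dotProduct_mulVec_pos (x := star w) (star_ne_zero.2 h0)
  rw [star_star, sub_mulVec, one_mulVec, ← mulVec_mulVec, ← star_vecMul, ← hw, dotProduct_sub,
    dotProduct_mulVec, ← hw, sub_self] at this
  exact this.false

theorem mem0 {ζ : Sym2 ι → ℂ} (h : (1 - mat ζ * (mat ζ)ᴴ).PosDef) : ζ ∈ DD ι 0 :=
  ⟨h, by simpa [dd] using (Complex.lt_def.1 h.det_pos).1⟩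

theorem le_exp {ζ : Sym2 ι → ℂ} (h : (1 - mat ζ * (mat ζ)ᴴ).PosDef) :
    dd ζ ≤ Real.exp (-(∑ i, ∑ j, ‖ζ s(i, j)‖ ^ 2)) := by
  obtain ⟨a, -, h2, h3⟩ := data ζ
  obtain ⟨h4, h5⟩ := h3 1
  simp only [one_smul, norm_one, one_pow, one_mul] at h4 h5
  rw [h4, ← h2, ← Finset.sum_neg_distrib, Real.exp_sum]
  exact Finset.prod_le_prod (fun i _ => sub_nonneg.2 (h5.1 h i).le) fun i _ =>
    Real.one_sub_le_exp_neg _

end DISC

open DISC in
theorem p_DISC : S_DISC := by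
  intro ι _ _
  refine ⟨cont_dd, fun ρ => (isOpen_posDef cont herm).inter (isOpen_lt continuous_const cont_dd),
    fun ζ h => ⟨entry h.1.posSemidef, (le_exp h.1).trans (Real.exp_le_one_iff.2
      (neg_nonpos.2 (by positivity))), fun e => ?_, unit h.1, le_exp h.1⟩, fun ζ => mem0,
    fun ρ ζ h c hc => ?_, fun ζ c hc => ?_, fun ρ hρ => ?_⟩
  · have h1 := le_exp h.1
    rw [e, Real.one_le_exp_iff, neg_nonneg] at h1
    funext p
    induction p using Sym2.ind with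
    | _ i j =>
      have h2 := (Finset.single_le_sum (f := fun j => ‖ζ s(i, j)‖ ^ 2) (fun _ _ => sq_nonneg _)
        (Finset.mem_univ j)).trans ((Finset.single_le_sum (f := fun i => ∑ j, ‖ζ s(i, j)‖ ^ 2)
          (fun _ _ => by positivity) (Finset.mem_univ i)).trans h1)
      simpa using h2
  · obtain ⟨a, h1, -, h3⟩ := data ζ
    obtain ⟨h4, h5⟩ := h3 1
    simp only [one_smul, norm_one, one_pow, one_mul] at h4 h5
    have h6 : ∀ i, ‖c‖ ^ 2 * a i ≤ a i := fun i =>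
      mul_le_of_le_one_left (h1 i) (pow_le_one₀ (norm_nonneg _) hc)
    refine ⟨(h3 c).2.2 fun i => (h6 i).trans_lt (h5.1 h.1 i), h.2.trans_le ?_⟩
    rw [h4, (h3 c).1]
    exact Finset.prod_le_prod (fun i _ => sub_nonneg.2 (h5.1 h.1 i).le) fun i _ =>
      sub_le_sub_left (h6 i) 1
  · rw [dd, smul_eq, hc, dd]
    simp
  · have e : {ζ | ζ ∈ DD ι 0 ∧ ρ ≤ dd ζ} =
        (⋂ v : ι → ℂ, {ζ | 0 ≤ star v ⬝ᵥ ((1 - mat ζ * (mat ζ)ᴴ) *ᵥ v)}) ∩ {ζ | ρ ≤ dd ζ} := by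
      ext ζ
      refine ⟨fun h => ⟨Set.mem_iInter.2 h.1.1.posSemidef.dotProduct_mulVec_nonneg, h.2⟩,
        fun h => ⟨mem0 ((PosSemidef.of_dotProduct_mulVec_nonneg (herm ζ)
          (Set.mem_iInter.1 h.1)).posDef_iff_det_ne_zero.2 fun e => ?_), h.2⟩⟩
      have := hρ.trans_le h.2
      rw [dd, e] at this
      exact this.false
    refine (isCompact_closedBall 0 1).of_isClosed_subset ?_ fun ζ h =>
      mem_closedBall_zero_iff.2 ((pi_norm_le_iff_of_nonneg zero_le_one).2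
        (entry h.1.1.posSemidef))
    rw [e]
    exact (isClosed_iInter fun v => isClosed_le continuous_const
      (continuous_const.dotProduct (cont.matrix_mulVec continuous_const))).inter
        (isClosed_le continuous_const cont_dd)

end Pool.Agent.P.MP_59bdab_ag
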