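import Pool.Agent.P.MP_59bdab_ag.IfB

/-!
The point pair invariant and the slash operator.
-/

namespace Pool.Agent.P.MP_59bdab_ag

open Matrix MeasureTheory Filter Topology
open scoped ENNReal ComplexOrder

namespace DL

variable {ι : Type} [Fintype ι] [DecidableEq ι]

/-- Entrywise differentiable matrix functions. -/
def ED (M : (Sym2 ι → ℂ) → Matrix ι ι ℂ) : Prop := ∀ i j, Differentiable ℂ fun z => M z i j

theorem ED.det {M : (Sym2 ι → ℂ) → Matrix ι ι ℂ} (h : ED M) :
    Differentiable ℂ fun z => (M z).det := by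
  simp only [det_apply']
  refine Differentiable.fun_sum fun σ _ => Differentiable.const_mul (fun z => ?_) _
  exact (HasFDerivAt.finsetProd fun i _ => (h (σ i) i z).hasFDerivAt).differentiableAt

theorem ED.adj {M : (Sym2 ι → ℂ) → Matrix ι ι ℂ} (h : ED M) : ED fun z => (M z).adjugate := by
  intro i j
  simp only [adjugate_apply]
  refine ED.det fun a b => ?_
  simp only [updateRow_apply]
  split_ifs
  exacts [differentiable_const _, h a b]

omit [DecidableEq ι] in
theorem ED.mul {M N : (Sym2 ι → ℂ) → Matrix ι ι ℂ} (h : ED M) (h' : ED N) :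
    ED fun z => M z * N z := fun i j => by
  simp only [mul_apply]
  exact Differentiable.fun_sum fun k _ => (h _ _).mul (h' _ _)

omit [DecidableEq ι] in
theorem ed_aff (A B : Matrix ι ι ℂ) : ED fun z => A * mat z + B := fun i j => by
  simp only [Matrix.add_apply, mul_apply, mat_apply]
  fun_prop

/-- The matrix in the definition of `kd`. -/
noncomputable def KM (W : HH ι) (z : Sym2 ι → ℂ) : Matrix ι ι ℂ :=
  (2 * Complex.I)⁻¹ • (mat z - mat (star W.1))

theorem inv_two_I : (2 * Complex.I)⁻¹ = -(Complex.I / 2) := by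
  rw [mul_inv, Complex.inv_I]
  ring

omit [Fintype ι] [DecidableEq ι] in
theorem KM_conj (Z W : HH ι) : (KM W Z.1)ᴴ = KM Z W.1 := by
  ext i j
  simp only [KM, inv_two_I, conjTranspose_apply, Matrix.smul_apply, Matrix.sub_apply, mat_apply,
    Pi.star_apply, smul_eq_mul, Sym2.eq_swap (a := j)]
  simp
  ring

omit [Fintype ι] [DecidableEq ι] in
theorem KM_add (Z W : HH ι) : KM W Z.1 + KM Z W.1 = cm (Ym Z + Ym W) := by
  have h : KM W Z.1 + KM Z W.1 = (2 * Complex.I)⁻¹ •
      ((mat Z.1 - mat (star Z.1)) + (mat W.1 - mat (star W.1))) := by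
    rw [KM, KM, ← smul_add]
    congr 1
    abel
  rw [h, mat_sub_star, mat_sub_star, ← smul_add, smul_smul, inv_mul_cancel₀ (by simp), one_smul,
    cm_add]
  rfl

theorem kd_ne (Z W : HH ι) : kd W Z.1 ≠ 0 := by
  intro h
  obtain ⟨v, hv, h0⟩ := Matrix.exists_mulVec_eq_zero_iff.mpr (show (KM W Z.1).det = 0 from h)
  have h1 := (cm_posDef_iff.mpr ((Ym_posDef Z).add (Ym_posDef W))).dotProduct_mulVec_pos hv
  rw [← KM_add, add_mulVec, h0, zero_add, ← KM_conj, dotProduct_mulVec, ← star_mulVec, h0] at h1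
  simp at h1

theorem kd_self (Z : HH ι) : kd Z Z.1 = ((Ym Z).det : ℂ) := by
  rw [kd, mat_sub_star, smul_smul, inv_mul_cancel₀ (by simp), one_smul, cm_det]
  rfl

theorem norm_kd_comm (Z W : HH ι) : ‖kd W Z.1‖ = ‖kd Z W.1‖ := by
  rw [show kd Z W.1 = (KM Z W.1).det from rfl, ← KM_conj, det_conjTranspose, norm_star]
  rfl

theorem kd_smul (γ : SpR ι) (Z W : HH ι) :
    star (jf γ W) * kd (γ • W) (γ • Z).1 * jf γ Z = kd W Z.1 := by
  have h := den_num γ Z.1 (star W.1)
  rw [den_star, num_star, ← smul_mul_den, ← smul_mul_den, conjTranspose_mul, ← mat_star] at h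
  have h2 : (den γ.1 W.1)ᴴ * KM (γ • W) (γ • Z).1 * den γ.1 Z.1 = KM W Z.1 := by
    rw [KM, KM, Matrix.mul_smul, Matrix.smul_mul, ← h]
    congr 1
    noncomm_ring
  have h3 := congrArg Matrix.det h2
  rw [det_mul, det_mul, det_conjTranspose] at h3
  exact h3

theorem dl_smul (γ : SpR ι) (Z W : HH ι) : dl (γ • Z) (γ • W) = dl Z W := by
  have h1 := congrArg norm (kd_smul γ Z W)
  rw [norm_mul, norm_mul, norm_star] at h1
  have h2 := norm_pos_iff.2 (jf_ne_zero γ Z)
  have h3 := norm_pos_iff.2 (jf_ne_zero γ W)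
  have h4 := norm_pos_iff.2 (kd_ne (γ • Z) (γ • W))
  rw [dl, dl, ← h1, ← det_Ym_smul γ Z, ← det_Ym_smul γ W,
    show ∀ a b c d : ℝ, a * b ^ 2 * (c * d ^ 2) = a * c * (b * d) ^ 2 from fun _ _ _ _ => by ring,
    Real.sqrt_mul' _ (sq_nonneg _), Real.sqrt_sq (by positivity)]
  field_simp

open scoped MatrixOrder in
theorem trans (Z : HH ι) : ∃ γ : SpR ι, γ • iH ι = Z := by
  obtain ⟨A, hA, hAA⟩ : ∃ A : Matrix ι ι ℝ, Aᵀ = A ∧ A * A = Ym Z := by
    refine ⟨CFC.sqrt (Ym Z), ?_, CFC.sqrt_mul_sqrt_self _ (Ym_posDef Z).posSemidef.nonneg⟩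
    have h := (Matrix.nonneg_iff_posSemidef.1 (CFC.sqrt_nonneg (Ym Z))).1
    rwa [IsHermitian, conjTranspose_eq_transpose_of_trivial] at h
  have hu : IsUnit A.det := by
    rw [isUnit_iff_ne_zero]
    intro h
    have h1 := Ym_det_pos Z
    rw [← hAA, det_mul, h, mul_zero] at h1
    exact lt_irrefl _ h1
  have hi : A⁻¹ᵀ = A⁻¹ := by rw [transpose_nonsing_inv, hA]
  refine ⟨⟨fromBlocks A (Xm Z * A⁻¹) 0 A⁻¹, SymplecticGroup.fromBlocks_mem_iff.mpr ⟨?_, ?_, ?_⟩⟩,
    (smul_eq_iff _ _ _).2 ?_⟩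
  · simp
  · rw [transpose_mul, hi, Xm_transpose, Matrix.mul_assoc]
  · rw [hA, mul_nonsing_inv _ hu]
    simp
  · simp only [den, num, toBlocks_fromBlocks₁₁, toBlocks_fromBlocks₁₂, toBlocks_fromBlocks₂₁,
      toBlocks_fromBlocks₂₂, cm_zero, Matrix.zero_mul, zero_add]
    rw [mat_eq Z, mat_iH, Matrix.add_mul, Matrix.smul_mul, ← cm_mul, ← cm_mul, ← hAA,
      Matrix.mul_assoc A, mul_nonsing_inv _ hu, Matrix.mul_one, Matrix.mul_smul, Matrix.mul_one,
      add_comm]

theorem diff_inv (γ : SpR ι) : DifferentiableOn ℂ (fun z => (den γ.1 z).det⁻¹) (HS ι) :=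
  (ed_aff _ _).det.differentiableOn.inv fun z hz => jf_ne_zero γ ⟨z, hz⟩

theorem diff_act (γ : SpR ι) : DifferentiableOn ℂ (actF γ.1) (HS ι) := by
  have h : ∀ i j, DifferentiableOn ℂ (fun z => (num γ.1 z * (den γ.1 z)⁻¹) i j) (HS ι) := by
    intro i j
    simp only [inv_def, Ring.inverse_eq_inv', Matrix.mul_smul, Matrix.smul_apply, smul_eq_mul]
    exact (diff_inv γ).mul (((ed_aff _ _).mul (ed_aff _ _).adj) i j).differentiableOn
  refine differentiableOn_pi.2 fun p => ?_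
  induction p using Sym2.ind with
  | _ i j =>
    simp only [actF, coord_mk, div_eq_mul_inv]
    exact ((h i j).add (h j i)).mul_const _

end DL

open DL in
theorem p_DL : S_DL := by
  intro ι _ _
  refine ⟨fun W => ED.det fun i j => ?_, kd_ne, kd_self, dl_smul, fun Z W => ?_, fun Z => ?_,
    fun Z W => ?_, ?_, trans, diff_act, fun γ k f hf => ?_, fun γ k f Z => ?_⟩
  · simp only [Matrix.smul_apply, Matrix.sub_apply, mat_apply, smul_eq_mul]
    fun_prop
  · rw [dl, dl, norm_kd_comm, mul_comm]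
  · rw [dl, kd_self, Real.sqrt_mul_self (Ym_det_pos Z).le, Complex.norm_real,
      Real.norm_of_nonneg (Ym_det_pos Z).le, div_self (Ym_det_pos Z).ne']
  · exact div_pos (Real.sqrt_pos.2 (mul_pos (Ym_det_pos Z) (Ym_det_pos W)))
      (norm_pos_iff.2 (kd_ne Z W))
  · refine Continuous.div (((continuous_Ym.comp continuous_fst).matrix_det.mul
      (continuous_Ym.comp continuous_snd).matrix_det).sqrt) (Continuous.norm ?_)
      fun x => norm_ne_zero_iff.2 (kd_ne x.1 x.2)
    have h1 : Continuous fun x : HH ι × HH ι => x.1.1 := by fun_prop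
    have h2 : Continuous fun x : HH ι × HH ι => star x.2.1 := by fun_prop
    exact (((continuous_mat.comp h1).sub (continuous_mat.comp h2)).const_smul
      (2 * Complex.I)⁻¹).matrix_det
  · exact ((diff_inv γ).pow k).mul (hf.comp (diff_act γ) fun z hz => actF_mem γ ⟨z, hz⟩)
  · have h := norm_pos_iff.2 (jf_ne_zero γ Z)
    rw [FF, FF, slash, ← det_Ym_smul γ Z, norm_mul, norm_pow, norm_inv, smul_val,
      show (den γ.1 Z.1).det = jf γ Z from rfl, mul_pow, mul_pow, inv_pow, inv_pow, ← pow_mul,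
      ← pow_mul, mul_comm 2 k]
    field_simp

end Pool.Agent.P.MP_59bdab_ag
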