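import Pool.Agent.P.MP_59bdab_ag.IfB

/-! Metric properties of the point pair invariant. -/

namespace Pool.Agent.P.MP_59bdab_ag

open Matrix MeasureTheory Set

theorem p_DL2 (hDISC : S_DISC) (hCAY : S_CAY) (hDL : S_DL) : S_DL2 := by
  intro ι _ _
  obtain ⟨-, -, d3, -, -, -, d7⟩ := hDISC ι
  obtain ⟨c1, c2, c3, -, c5⟩ := hCAY ι
  obtain ⟨-, -, -, l4, l5, l6, l7, l8, l9, -⟩ := hDL ι
  have base : ∀ Z : HH ι, dl Z (iH ι) ≤ 1 ∧ (dl Z (iH ι) = 1 → Z = iH ι) := fun Z => by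
    obtain ⟨ζ, h1, h2⟩ := c1.surjOn Z.2
    obtain ⟨-, e1, e2, -⟩ := d3 ζ h1
    have e := (c5 ζ h1 Z h2.symm).2
    refine ⟨(sq_le_one_iff₀ (l7 _ _).le).1 (e ▸ e1), fun h => Subtype.ext ?_⟩
    rw [← h2, e2 (by rw [← e, h, one_pow]), c3]
  have mv : ∀ (γ : SpR ι) (Z : HH ι), dl Z (γ • iH ι) = dl (γ⁻¹ • Z) (iH ι) := fun γ Z => by
    rw [← l4 γ (γ⁻¹ • Z), smul_inv_smul]
  have ball : ∀ r > 0, IsCompact {Z : HH ι | r ≤ dl Z (iH ι)} := fun r hr => by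
    rw [Subtype.isCompact_iff]
    convert (d7 (r ^ 2) (by positivity)).image_of_continuousOn
      (c2.continuousOn.mono fun ζ h => h.1) using 1
    ext z
    constructor
    · rintro ⟨Z, hZ, rfl⟩
      obtain ⟨ζ, h1, h2⟩ := c1.surjOn Z.2
      exact ⟨ζ, ⟨h1, (c5 ζ h1 Z h2.symm).2 ▸ pow_le_pow_left₀ hr.le hZ 2⟩, h2⟩
    · rintro ⟨ζ, ⟨h1, h2⟩, rfl⟩
      refine ⟨⟨_, c1.mapsTo h1⟩, ?_, rfl⟩
      rw [← (c5 ζ h1 ⟨_, c1.mapsTo h1⟩ rfl).2] at h2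
      exact (pow_le_pow_iff_left₀ hr.le (l7 _ _).le two_ne_zero).1 h2
  have co : Continuous fun Z : HH ι => dl Z (iH ι) := l8.comp (Continuous.prodMk_left _)
  refine ⟨fun Z W => ?_, fun Z W h => ?_, fun K hK ρ hρ => ?_, fun ρ hρ => ?_⟩
  · obtain ⟨γ, rfl⟩ := l9 W
    exact mv γ Z ▸ (base _).1
  · obtain ⟨γ, rfl⟩ := l9 W
    exact inv_smul_eq_iff.1 ((base _).2 (mv γ Z ▸ h))
  · obtain ⟨r, r0, hr⟩ := hK.exists_forall_le' co.continuousOn fun W _ => l7 W _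
    have m0 : 0 < min ρ r := lt_min hρ r0
    obtain ⟨s, s0, hs⟩ := ((ball _ m0).prod (ball _ m0)).exists_forall_le' l8.continuousOn
      fun x _ => l7 x.1 x.2
    convert (((ball s s0).prod hK).inter_right (isClosed_le continuous_const l8 :
      IsClosed {x : HH ι × HH ι | ρ ≤ dl x.1 x.2})).image continuous_fst using 1
    ext Z
    constructor
    · rintro ⟨W, hW, h⟩
      refine ⟨(Z, W), ⟨⟨?_, hW⟩, h⟩, rfl⟩
      have h1 := hr W hW
      obtain ⟨γ, rfl⟩ := l9 W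
      rw [l5, mv] at h1
      rw [mv] at h
      exact (hs (γ⁻¹ • Z, γ⁻¹ • iH ι) ⟨(min_le_left _ _).trans h,
        (min_le_right _ _).trans h1⟩).trans (l4 _ _ _).le
    · rintro ⟨x, ⟨⟨-, h1⟩, h2⟩, rfl⟩
      exact ⟨x.2, h1, h2⟩
  · have cm : Continuous fun x : HH ι × HH ι => -min (dl x.1 (iH ι)) (dl x.2 (iH ι)) :=
      continuous_neg.comp' (co.fst'.min co.snd')
    obtain ⟨a, a0, ha⟩ := (((ball _ one_half_pos).prod (ball _ one_half_pos)).inter_right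
      (isClosed_le l8 continuous_const : IsClosed {x : HH ι × HH ι | dl x.1 x.2 ≤ ρ}
      )).exists_forall_le' (a := -1) cm.continuousOn fun x hx => by
        by_contra g
        rw [neg_lt_neg_iff, not_lt, le_min_iff] at g
        have h1 : dl x.1 x.2 ≤ ρ := hx.2
        rw [(base _).2 (le_antisymm (base _).1 g.1), (base _).2 (le_antisymm (base _).1 g.2),
          l6] at h1
        linarith
    refine ⟨max (1 / 2) (-a), lt_max_of_lt_left one_half_pos, max_lt (by norm_num) (by linarith),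
      fun A B C h1 h2 => ?_⟩
    obtain ⟨γ, rfl⟩ := l9 B
    rw [l5] at h2
    rw [mv, max_lt_iff] at h1 h2
    by_contra g
    have := ha (γ⁻¹ • A, γ⁻¹ • C) ⟨⟨h1.1.le, h2.1.le⟩, (l4 _ _ _).le.trans (not_lt.1 g)⟩
    linarith [lt_min h1.2 h2.2]

end Pool.Agent.P.MP_59bdab_ag
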