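import Mathlib

/-!
Siegel modular forms with prescribed vanishing order at the boundary, and the constants in the
asymptotic dimension formula.
-/

namespace Pool.Agent.P.MP_59bdab_ag

open Matrix MeasureTheory

/-- The symmetric matrix with entries `z s(i,j)`. -/
def mat {ι R : Type} (z : Sym2 ι → R) : Matrix ι ι R := Matrix.of fun i j => z s(i, j)

/-- The Siegel upper half space: complex symmetric matrices with positive definite imaginary
part, in the coordinates `z s(i,j)`. -/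
def HS (ι : Type) : Set (Sym2 ι → ℂ) := {z | (mat fun p => (z p).im).PosDef}

/-- The Fourier-Jacobi coefficient of index `j` of `f` for the diagonal entry `i`, at `z`. -/
noncomputable def fj {ι : Type} [DecidableEq ι] (f : (Sym2 ι → ℂ) → ℂ) (i : ι) (j : ℤ)
    (z : Sym2 ι → ℂ) : ℂ :=
  ∫ t in (0 : ℝ)..1, f (z + Pi.single s(i, i) (t : ℂ)) *
    Complex.exp (-(2 * Real.pi * Complex.I * j * t))

/-- Weight `k` transformation law under `Sp(2g, ℤ)`:
`f ((A Z + B) (C Z + D)⁻¹) = det (C Z + D) ^ k * f Z`. -/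
def IsModular {ι : Type} [Fintype ι] [DecidableEq ι] (k : ℕ) (f : (Sym2 ι → ℂ) → ℂ) : Prop :=
  ∀ (A B C D : Matrix ι ι ℤ), fromBlocks A B C D ∈ symplecticGroup ι ℤ →
    ∀ z ∈ HS ι, ∀ w : Sym2 ι → ℂ,
      mat w = (A.map (↑) * mat z + B.map (↑)) * (C.map (↑) * mat z + D.map (↑))⁻¹ →
      f w = (C.map (↑) * mat z + D.map (↑) : Matrix ι ι ℂ).det ^ k * f z

theorem add_single_mem {ι : Type} [DecidableEq ι] {z : Sym2 ι → ℂ} (hz : z ∈ HS ι) (p : Sym2 ι)
    (t : ℝ) : z + Pi.single p (t : ℂ) ∈ HS ι := by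
  have : (fun q => ((z + Pi.single p (t : ℂ) : Sym2 ι → ℂ) q).im) = fun q => (z q).im := by
    funext q
    by_cases h : q = p
    · subst h; simp
    · simp [h]
  show (mat fun q => ((z + Pi.single p (t : ℂ) : Sym2 ι → ℂ) q).im).PosDef
  rw [this]
  exact hz

theorem fj_int {ι : Type} [Fintype ι] [DecidableEq ι] {f : (Sym2 ι → ℂ) → ℂ}
    (hf : DifferentiableOn ℂ f (HS ι)) (i : ι) (j : ℤ) {z : Sym2 ι → ℂ} (hz : z ∈ HS ι) :
    IntervalIntegrable (fun t : ℝ => f (z + Pi.single s(i, i) (t : ℂ)) *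
      Complex.exp (-(2 * Real.pi * Complex.I * j * t))) volume 0 1 := by
  apply Continuous.intervalIntegrable
  refine Continuous.mul ?_ (by fun_prop)
  refine hf.continuousOn.comp_continuous ?_ fun t => add_single_mem hz _ t
  refine continuous_const.add ?_
  refine continuous_pi fun q => ?_
  by_cases h : q = s(i, i)
  · subst h; simpa using Complex.continuous_ofReal
  · simpa [h] using continuous_const

/-- Siegel modular forms of weight `k` (extended by zero outside the half space) whose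
Fourier-Jacobi coefficients of index `j < m` all vanish. -/
def SF (ι : Type) [Fintype ι] [DecidableEq ι] (k m : ℕ) :
    Submodule ℂ ((Sym2 ι → ℂ) → ℂ) where
  carrier := {f | (∀ z, z ∉ HS ι → f z = 0) ∧ DifferentiableOn ℂ f (HS ι) ∧ IsModular k f ∧
    ∀ (i : ι) (j : ℤ), j < m → ∀ z ∈ HS ι, fj f i j z = 0}
  add_mem' := by
    rintro f g ⟨f0, f1, f2, f3⟩ ⟨g0, g1, g2, g3⟩
    refine ⟨fun z hz => by simp [f0 z hz, g0 z hz], f1.add g1, ?_, ?_⟩
    · intro A B C D h z hz w hw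
      simp only [Pi.add_apply, f2 A B C D h z hz w hw, g2 A B C D h z hz w hw, mul_add]
    · intro i j hj z hz
      have := intervalIntegral.integral_add (fj_int f1 i j hz) (fj_int g1 i j hz)
      have h1 := f3 i j hj z hz
      have h2 := g3 i j hj z hz
      simp only [fj] at h1 h2 ⊢
      rw [h1, h2] at this
      simpa [add_mul] using this
  zero_mem' := ⟨fun _ _ => rfl, differentiableOn_const 0, fun _ _ _ _ _ _ _ _ _ => by simp,
    fun _ _ _ _ _ => by simp [fj]⟩
  smul_mem' := by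
    rintro c f ⟨f0, f1, f2, f3⟩
    refine ⟨fun z hz => by simp [f0 z hz], f1.const_smul c, ?_, ?_⟩
    · intro A B C D h z hz w hw
      simp only [Pi.smul_apply, smul_eq_mul, f2 A B C D h z hz w hw]
      ring
    · intro i j hj z hz
      have h1 := f3 i j hj z hz
      simp only [fj] at h1 ⊢
      simp only [Pi.smul_apply, smul_eq_mul, mul_assoc]
      rw [intervalIntegral.integral_const_mul]
      simp only [mul_assoc] at h1
      rw [h1, mul_zero]

/-- The triangular number `n (n + 1) / 2`. -/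
def tri (n : ℕ) : ℕ := n * (n + 1) / 2

/-- `hh n = ∏_{i=1}^n ζ(2i) (i-1)! / (2 π^i (2π)^i)`. -/
noncomputable def hh (n : ℕ) : ℝ :=
  ∏ i ∈ Finset.range n, (∑' l : ℕ, 1 / ((l + 1 : ℕ) : ℝ) ^ (2 * (i + 1))) * (i.factorial : ℝ) /
    (2 * Real.pi ^ (i + 1) * (2 * Real.pi) ^ (i + 1))

/-- The symmetric matrix with diagonal entries one and off-diagonal entries `a s(i,j)`. -/
def Gm {r : ℕ} (a : {p : Sym2 (Fin r) // ¬ p.IsDiag} → ℝ) : Matrix (Fin r) (Fin r) ℝ :=
  Matrix.of fun i j => if h : i = j then 1 else a ⟨s(i, j), by simpa using h⟩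

/-- The standard lattice `ℤ^r` in `ℚ^r`. -/
def stdL (r : ℕ) : AddSubgroup (Fin r → ℚ) :=
  AddSubgroup.pi Set.univ fun _ => AddSubgroup.zmultiples (1 : ℚ)

/-- Lattices of `ℚ^r` that contain `ℤ^r` with finite index. -/
def Ov (r : ℕ) : Type :=
  {L : AddSubgroup (Fin r → ℚ) // stdL r ≤ L ∧ (stdL r).relIndex L ≠ 0}

/-- Positive definite forms with unit diagonal whose minimum on the lattice `L` is one. -/
def CL {r : ℕ} (L : AddSubgroup (Fin r → ℚ)) : Set ({p : Sym2 (Fin r) // ¬ p.IsDiag} → ℝ) :=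
  {a | (Gm a).PosDef ∧
    ∀ y ∈ L, y ≠ 0 → 1 ≤ (fun i => (y i : ℝ)) ⬝ᵥ Gm a *ᵥ fun i => (y i : ℝ)}

/-- The constant `W r j`. -/
noncomputable def WW (r j : ℕ) : ℝ :=
  ((2 * j + 1).factorial : ℝ) / (r.factorial * (2 * j + r + 1).factorial) *
    ∑' L : Ov r, (((stdL r).relIndex L.1 : ℝ) ^ (2 * j + r + 1))⁻¹ *
      ∫ a in CL L.1, (Gm a).det ^ (j + 1)

/-- The limit: `2 ∑_{r=0}^g (-1)^r 2^(d_r - r) hh (g-r) WW r (g-r) σ^(d_r)` with
`d_r = tri g - tri (g - r)`. -/
noncomputable def vlim (g : ℕ) (σ : ℝ) : ℝ :=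
  2 * ∑ r ∈ Finset.range (g + 1), (-1) ^ r * 2 ^ (tri g - tri (g - r) - r) * hh (g - r) *
    WW r (g - r) * σ ^ (tri g - tri (g - r))

end Pool.Agent.P.MP_59bdab_ag
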