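import Pool.Agent.P.MP_59bdab_ag.IfC

/-! The exhaustion function. -/

namespace Pool.Agent.P.MP_59bdab_ag

open Matrix MeasureTheory Filter Topology
open scoped ContDiff

namespace EXH

/-- The shifted logarithm. -/
noncomputable def kk (C x : ℝ) : ℝ := Real.log (x + C + 1)

theorem kk_deriv {C x : ℝ} (h : 0 < x + C + 1) : HasDerivAt (kk C) (x + C + 1)⁻¹ x := by
  have h1 : HasDerivAt (fun y : ℝ => y + C + 1) 1 x := ((hasDerivAt_id x).add_const C).add_const 1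
  have h2 := h1.log h.ne'
  rw [one_div] at h2
  exact h2

theorem kk_deriv2 {C x : ℝ} (h : 0 < x + C + 1) :
    deriv (deriv (kk C)) x = -((x + C + 1) ^ 2)⁻¹ := by
  have h1 : HasDerivAt (fun y : ℝ => y + C + 1) 1 x := ((hasDerivAt_id x).add_const C).add_const 1
  have h2 : ∀ᶠ y in 𝓝 x, 0 < y + C + 1 := h1.continuousAt.eventually (lt_mem_nhds h)
  have h3 : deriv (kk C) =ᶠ[𝓝 x] fun y => (y + C + 1)⁻¹ := h2.mono fun y hy => (kk_deriv hy).deriv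
  rw [h3.deriv_eq, (h1.fun_inv h.ne').deriv, neg_div, one_div]

theorem kk_smooth {C x : ℝ} (h : 0 < x + C + 1) {n : WithTop ℕ∞} : ContDiffAt ℝ n (kk C) x :=
  ((contDiffAt_id.add contDiffAt_const).add contDiffAt_const).log h.ne'

theorem abs_le {C x : ℝ} (hC : 0 ≤ C) (h : -C ≤ x) : 1 + |x| ≤ (C + 2) * (x + C + 1) := by
  rcases abs_cases x with ⟨e, _⟩ | ⟨e, _⟩ <;> rw [e] <;> nlinarith

theorem sq_le {C x : ℝ} (hC : 0 ≤ C) (h : -C ≤ x) :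
    ((x + C + 1) ^ 2)⁻¹ * (1 + x ^ 2) ≤ (C + 2) ^ 2 := by
  have h0 : 0 < x + C + 1 := by linarith
  rw [inv_mul_le_iff₀ (by positivity), ← mul_pow, mul_comm]
  have h1 := pow_le_pow_left₀ (by positivity) (abs_le hC h) 2
  have h2 := sq_abs x
  nlinarith [abs_nonneg x]

end EXH

open EXH in
theorem p_EXH (hLEVI3 : S_LEVI3) : S_EXH := by
  intro ι _ _ s μ δ φ R L C hR hδ hC hE hK
  have low : ∀ Z : HH ι, -C ≤ δ Z.1 := fun Z => by
    obtain ⟨γ, hγ⟩ := hR.2.1 Z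
    have h1 := (hE _ hγ).2.2.1
    rwa [hδ.2, zero_mul, add_zero] at h1
  have pos : ∀ Z : HH ι, 0 < δ Z.1 + C + 1 := fun Z => by linarith [low Z]
  have one : ∀ Z : HH ι, 1 ≤ δ Z.1 + C + 1 := fun Z => by linarith [low Z]
  have nn : ∀ Z : HH ι, 0 ≤ kk C (δ Z.1) := fun Z => Real.log_nonneg (one Z)
  have ch := fun Z : HH ι => (hLEVI3 (Sym2 ι)).1 δ (kk C) Z.1
    ((hδ.contDiffAt Z).of_le (ENat.natCast_le_of_coe_top_le_withTop le_rfl 2)) (kk_smooth (pos Z))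
  have gr : ∀ Z ∈ R, ∀ ζ, ((δ Z.1 + C + 1) ^ 2)⁻¹ * ‖dzz δ Z.1 ⬝ᵥ ζ‖ ^ 2 ≤
      C * (C + 2) ^ 2 * omg L (imv Z.1) ζ := fun Z hZ ζ => by
    have h1 := (hE Z hZ).2.2.2.1 ζ
    have h2 := sq_le hC (low Z)
    have h3 := omg_nonneg L (imv Z.1) ζ
    calc ((δ Z.1 + C + 1) ^ 2)⁻¹ * ‖dzz δ Z.1 ⬝ᵥ ζ‖ ^ 2
        ≤ ((δ Z.1 + C + 1) ^ 2)⁻¹ * (C * (1 + δ Z.1 ^ 2) * omg L (imv Z.1) ζ) :=
          mul_le_mul_of_nonneg_left h1 (by positivity)
      _ = C * (((δ Z.1 + C + 1) ^ 2)⁻¹ * (1 + δ Z.1 ^ 2)) * omg L (imv Z.1) ζ := by ring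
      _ ≤ C * (C + 2) ^ 2 * omg L (imv Z.1) ζ :=
          mul_le_mul_of_nonneg_right (mul_le_mul_of_nonneg_left h2 hC) h3
  refine ⟨fun z => kk C (δ z), C * (1 + Real.log (C + 2)), ⟨⟨fun z hz => ?_, fun γ Z => ?_⟩,
    ⟨C + C * (C + 2) ^ 2, by positivity, fun Z hZ ζ => ?_⟩, nn,
    ⟨C * (C + 2) ^ 2, by positivity, fun Z hZ ζ => ?_⟩, fun r => ?_⟩, fun Z hZ => ?_⟩
  · exact ((kk_smooth (pos ⟨z, hz⟩)).comp z (hδ.contDiffAt ⟨z, hz⟩)).contDiffWithinAt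
  · simp only [hδ.2, zero_mul, add_zero]
  · rw [(ch Z).1 ζ, (kk_deriv (pos Z)).deriv, kk_deriv2 (pos Z), add_mul]
    refine (norm_add_le _ _).trans (add_le_add ?_ ?_)
    · rw [norm_mul, Complex.norm_real, Real.norm_eq_abs, abs_of_pos (inv_pos.2 (pos Z))]
      exact (mul_le_of_le_one_left (norm_nonneg _) (inv_le_one_of_one_le₀ (one Z))).trans
        ((hE Z hZ).2.1 ζ)
    · rw [Complex.norm_real, Real.norm_eq_abs, neg_mul, abs_neg, abs_of_nonneg (by positivity)]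
      exact gr Z hZ ζ
  · rw [(ch Z).2, (kk_deriv (pos Z)).deriv, smul_dotProduct, norm_smul, Complex.norm_real,
      Real.norm_eq_abs, mul_pow, sq_abs, inv_pow]
    exact gr Z hZ ζ
  · obtain ⟨K, hK1, hK2⟩ := hK (C * ((C + 2) * Real.exp r))
    refine ⟨K, hK1, fun Z hZ h => hK2 Z hZ ((hE Z hZ).2.2.2.2.2.trans ?_)⟩
    have h1 : δ Z.1 + C + 1 ≤ Real.exp r := (Real.log_le_iff_le_exp (pos Z)).1 h
    exact mul_le_mul_of_nonneg_left ((abs_le hC (low Z)).trans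
      (mul_le_mul_of_nonneg_left h1 (by positivity))) hC
  · refine (hE Z hZ).2.2.2.2.1.trans ?_
    have h1 : Real.log (1 + |δ Z.1|) ≤ Real.log (C + 2) + kk C (δ Z.1) := by
      rw [kk, ← Real.log_mul (by positivity) (pos Z).ne']
      exact Real.log_le_log (by positivity) (abs_le hC (low Z))
    have h2 : 0 ≤ Real.log (C + 2) := Real.log_nonneg (by linarith)
    rw [mul_assoc]
    refine mul_le_mul_of_nonneg_left ?_ hC
    nlinarith [mul_nonneg h2 (nn Z)]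

end Pool.Agent.P.MP_59bdab_ag
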