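import Pool.Agent.P.MP_59bdab_ag.IfC

namespace Pool.Agent.P.MP_59bdab_ag

open Matrix MeasureTheory Filter Topology
open scoped ENNReal ContDiff

theorem p_EXM (hBMP : S_BMP) (hCSI : S_CSI) (hLFS : S_LFS) (hCOV : S_COV) (hSMV : S_SMV)
    (hRYP : S_RYP) : S_EXM := by
  intro ι _ _
  have h0 : ∀ x : (Sym2 ι → ℝ) × (Sym2 ι → ℂ), ∃ (P : Finset (ι → ℤ))
      (a : (Sym2 ι → ℂ) → ℝ), x.1 ∈ Ry ι → x.2 ∈ HS ι →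
      IsMin x.1 P ∧ Adm x.1 P a ∧ ∀ᶠ z in cfil x.1 x.2, a z = 1 := by
    intro x
    by_cases h : x.1 ∈ Ry ι ∧ x.2 ∈ HS ι
    · obtain ⟨P, hP, -⟩ := (hRYP ι).2.2.2.2.2.2.1 x.1 h.1
      obtain ⟨a, ha⟩ := hBMP ι x.1 x.2 P hP h.2
      exact ⟨P, a, fun _ _ => ⟨hP, ha⟩⟩
    · exact ⟨∅, 0, fun h1 h2 => absurd ⟨h1, h2⟩ h⟩
  choose P a hPa using h0
  obtain ⟨s, hs, hcov⟩ := hCOV ι (fun x => {z | a x z = 1}) fun x h1 h2 => (hPa x h1 h2).2.2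
  have hC := fun x (hx : x ∈ s) => hCSI ι x.1 (P x) (a x) (hs x hx).1
    (hPa x (hs x hx).1 (hs x hx).2).1 (hPa x (hs x hx).1 (hs x hx).2).2.1
  let T : (Sym2 ι → ℝ) → ℝ → ℝ → ℝ → HH ι → ℝ := fun t₁ x₀ x₁ x₂ Z =>
    ∑ x ∈ s, csum (a x) x.1 t₁ x₀ x₁ x₂ Z
  have T1 : ∀ x₀ x₁ x₂ (γ : SpZ ι) Z, T 0 x₀ x₁ x₂ (γ • Z) =
      T 0 x₀ x₁ x₂ Z - x₁ * Real.log (‖jf (toR γ) Z‖ ^ 2) * T 0 1 0 0 Z := by
    intro x₀ x₁ x₂ γ Z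
    simp only [T, Finset.mul_sum, ← Finset.sum_sub_distrib]
    exact Finset.sum_congr rfl fun x hx => (hC x hx).1 _ _ _ _ _
  have T2 : ∀ t₁ x₀ x₁ x₂ Z, T t₁ x₀ x₁ x₂ Z =
      T 0 x₀ x₁ x₂ Z - x₂ * (t₁ ⬝ᵥ imv Z.1) * T 0 1 0 0 Z := by
    intro t₁ x₀ x₁ x₂ Z
    simp only [T, Finset.mul_sum, ← Finset.sum_sub_distrib]
    exact Finset.sum_congr rfl fun x hx => (hC x hx).2.1 _ _ _ _ _
  have T3 : ∀ Z, 1 ≤ T 0 1 0 0 Z := by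
    intro Z
    obtain ⟨γ, x, hx, h1⟩ := hcov Z
    have h2 := (hC x hx).2.2.2.2 γ Z
    rw [show a x (γ • Z).1 = 1 from h1] at h2
    exact h2.trans (Finset.single_le_sum (f := fun x => csum (a x) x.1 0 1 0 0 Z)
      (fun y hy => (hC y hy).2.2.2.1 Z) hx)
  have T4 : ∀ t₁ ∈ Ry ι, ∀ W ∈ HS ι, ∀ x₀ x₁ x₂,
      ∃ c, SmV t₁ W (fun z => T t₁ x₀ x₁ x₂ (toH z)) c := by
    intro t₁ ht W hW x₀ x₁ x₂
    have h1 := fun x (hx : x ∈ s) => hLFS ι x.1 t₁ W (P x) (a x) x₀ x₁ x₂ (hs x hx).1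
      (hPa x (hs x hx).1 (hs x hx).2).1 (hPa x (hs x hx).1 (hs x hx).2).2.1 ht hW
    choose! c hc using h1
    exact ⟨_, ((hSMV ι t₁ W).2.2.2.2.2.2 ℝ).2.2.2.2.1 _ s _ c hc⟩
  have T5 : ∀ t₁ ∈ Ry ι, ∀ W ∈ HS ι, ∀ x₁ x₂ (u : (Sym2 ι → ℂ) → ℝ),
      (∀ Z : HH ι, u Z.1 = T t₁ 0 x₁ x₂ Z / T 0 1 0 0 Z) → Sm t₁ W u := by
    intro t₁ ht W hW x₁ x₂ u hu
    obtain ⟨-, m2, -, m4, -, -, m7⟩ := hSMV ι t₁ W
    obtain ⟨c, hc⟩ := T4 t₁ ht W hW 0 x₁ x₂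
    obtain ⟨d, hd⟩ := T4 t₁ ht W hW 1 0 0
    have e : ∀ Z, T t₁ 1 0 0 Z = T 0 1 0 0 Z := fun Z => by rw [T2]; ring
    simp only [e] at hd
    have := m4 ht hW
    have hd1 : 1 ≤ d := ge_of_tendsto' ((m7 ℝ).2.1 _ _ hd) fun z => T3 _
    have h1 := ((m7 (ℝ × ℝ)).2.2.2.2.2 ℝ).2 _ _ (fun y : ℝ × ℝ => y.1 / y.2) {y | y.2 ≠ 0}
      (((m7 ℝ).2.2.2.2.2 ℝ).1 _ _ _ _ hc hd) (isOpen_ne_fun continuous_snd continuous_const)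
      (show d ≠ 0 by linarith) (contDiffOn_fst.div contDiffOn_snd fun y hy => hy)
    refine m2 _ _ ((m7 ℝ).1 _ _ _ h1 ?_)
    filter_upwards [cfil_HS t₁ W] with z hz
    have h2 := hu (toH z)
    rwa [toH_val hz] at h2
  have T6 : ∀ Z, T 0 1 0 0 Z ≠ 0 := fun Z => by linarith [T3 Z]
  have T7 : ∀ (γ : SpZ ι) Z, T 0 1 0 0 (γ • Z) = T 0 1 0 0 Z := fun γ Z => by rw [T1]; ring
  constructor
  · refine ⟨fun z => T 0 0 (-1) 0 (toH z) / T 0 1 0 0 (toH z), met_of (fun γ Z => ?_)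
      fun t ht W hW => T5 t ht W hW (-1) 0 _ fun Z => ?_⟩
    · simp only [toH_coe, T7]
      rw [T1]
      field_simp [T6 Z]
      ring
    · simp only [toH_coe]
      rw [T2 t]
      ring
  · refine ⟨fun z => T 0 0 0 (4 * Real.pi) (toH z) / T 0 1 0 0 (toH z), met_of (fun γ Z => ?_)
      fun t ht W hW => T5 t ht W hW 0 (4 * Real.pi) _ fun Z => ?_⟩
    · simp only [toH_coe, T7]
      rw [T1]
      ring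
    · simp only [toH_coe]
      rw [T2 t]
      field_simp [T6 Z]

end Pool.Agent.P.MP_59bdab_ag
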