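import Pool.Agent.P.MP_59bdab_ag.IfA

/-!
Primitive families of integral vectors.
-/

namespace Pool.Agent.P.MP_59bdab_ag

open Matrix Module

namespace EXT

variable {n κ : Type} [Fintype κ]

theorem dvd_of_prim {u : κ → n → ℤ} (h : Prim u) {m : ℤ} (hm : m ≠ 0) {c : κ → ℤ} {w : n → ℤ}
    (e : ∑ a, c a • u a = m • w) (a : κ) : m ∣ c a := by
  have hm' : (m : ℚ) ≠ 0 := by exact_mod_cast hm
  obtain ⟨z, hz⟩ := h (fun a => (c a : ℚ) / m) (fun i => ⟨w i, by
    have h1 := congrFun e i
    simp only [Finset.sum_apply, Pi.smul_apply, smul_eq_mul] at h1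
    have h2 : (∑ a, (c a : ℚ) * u a i) = m * w i := by exact_mod_cast h1
    simp only [div_mul_eq_mul_div]
    rw [← Finset.sum_div, h2, mul_div_cancel_left₀ _ hm']⟩) a
  rw [div_eq_iff hm'] at hz
  exact ⟨z, by rw [mul_comm]; exact_mod_cast hz⟩

theorem li {u : κ → n → ℤ} (h : Prim u) : LinearIndependent ℤ u := by
  rw [Fintype.linearIndependent_iff]
  intro c hc a
  by_contra ha
  obtain ⟨z, hz⟩ := dvd_of_prim h (m := 2 * c a) (w := 0) (by omega) (by simpa using hc) a
  have : c a * 1 = c a * (2 * z) := by linarith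
  have := mul_left_cancel₀ ha this
  omega

theorem extend [Fintype n] [DecidableEq n] {u : κ → n → ℤ} (e : κ ↪ n) (h : Prim u) :
    ∃ U : Matrix n n ℤ, IsUnit U.det ∧ ∀ a i, U i (e a) = u a i := by
  let N := Submodule.span ℤ (Set.range u)
  have : Module.IsTorsionFree ℤ ((n → ℤ) ⧸ N) := .of_smul_eq_zero fun m w hw => by
    obtain ⟨w, rfl⟩ := N.mkQ_surjective w
    rw [← map_smul, Submodule.mkQ_apply, Submodule.Quotient.mk_eq_zero,
      Submodule.mem_span_range_iff_exists_fun] at hw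
    obtain ⟨c, hc⟩ := hw
    refine or_iff_not_imp_left.2 fun hm => ?_
    choose z hz using dvd_of_prim h hm hc
    rw [Submodule.mkQ_apply, Submodule.Quotient.mk_eq_zero,
      Submodule.mem_span_range_iff_exists_fun]
    refine ⟨z, smul_right_injective _ hm ?_⟩
    simp only [← hc, hz, Finset.smul_sum, smul_smul]
  let b := (Basis.span (li h)).sumQuot (Module.Free.chooseBasis ℤ ((n → ℤ) ⧸ N))
  let f := b.indexEquiv (Pi.basisFun ℤ n)
  obtain ⟨σ, hσ⟩ := Equiv.Perm.exists_extending_pair (fun a => f (Sum.inl a)) e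
    (f.injective.comp Sum.inl_injective) e.injective
  have := (Pi.basisFun ℤ n).invertibleToMatrix (b.reindex (f.trans σ))
  refine ⟨(Pi.basisFun ℤ n).toMatrix (b.reindex (f.trans σ)), isUnit_det_of_invertible _,
    fun a i => ?_⟩
  rw [Basis.toMatrix_apply, ← hσ a]
  simp [b]

theorem prim_of_mulVec [Fintype n] {u : κ → n → ℤ} (U : Matrix n n ℤ)
    (h : Prim fun a => U *ᵥ u a) : Prim u := fun c hc => h c fun i => by
  choose z hz using hc
  refine ⟨∑ j, U i j * z j, ?_⟩
  simp only [mulVec, dotProduct]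
  push_cast
  simp only [← hz, Finset.mul_sum]
  rw [Finset.sum_comm]
  exact Finset.sum_congr rfl fun _ _ => Finset.sum_congr rfl fun _ _ => by ring

theorem dvd1 {p q : n → ℤ} (h : Prim1 p) {a b : ℤ} (hb : b ≠ 0) (e : a • p = b • q) : b ∣ a :=
  dvd_of_prim h hb (c := fun _ => a) (by simpa using e) 0

end EXT

open EXT in
theorem p_EXT : S_EXT := by
  intro n _ _
  refine ⟨fun κ _ u e h => extend e h, fun κ _ u h => li h, fun κ _ u U hU =>
    ⟨prim_of_mulVec U, fun h => prim_of_mulVec U⁻¹ ?_⟩, fun κ _ e c hc a => ?_, ?_, ?_, ?_⟩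
  · simpa only [mulVec_mulVec, nonsing_inv_mul U hU, one_mulVec] using h
  · obtain ⟨z, hz⟩ := hc (e a)
    refine ⟨z, ?_⟩
    rw [← hz, Finset.sum_eq_single a]
    · simp
    · intro b _ hb
      simp [Pi.single_eq_of_ne (e.injective.ne hb.symm)]
    · simp
  · rintro ⟨k, p⟩ hp
    exact smul_ne_zero (by positivity) ((li hp).ne_zero 0)
  · rintro ⟨k, p⟩ hp ⟨k', p'⟩ hp' h
    have h1 := dvd1 hp (by positivity) h
    have h2 := dvd1 hp' (by positivity) h.symm
    have h3 : k = k' := by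
      have := Nat.dvd_antisymm (Int.natCast_dvd_natCast.1 h1) (Int.natCast_dvd_natCast.1 h2)
      omega
    subst h3
    exact Prod.ext rfl (smul_right_injective _ (show ((k + 1 : ℕ) : ℤ) ≠ 0 by positivity) h)
  · intro v hv
    obtain ⟨i₀, hi₀⟩ := Function.ne_iff.1 hv
    obtain ⟨g, h1, h2⟩ := Finset.extract_gcd (s := Finset.univ) v ⟨i₀, Finset.mem_univ _⟩
    obtain ⟨w, hw⟩ := Finset.gcd_eq_sum_mul Finset.univ g
    have h3 : 0 ≤ Finset.univ.gcd v := Int.nonneg_of_normalize_eq_self Finset.normalize_gcd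
    have h4 : Finset.univ.gcd v ≠ 0 := fun h => hi₀ (by
      rw [h1 i₀ (Finset.mem_univ _), h, zero_mul]
      rfl)
    generalize Finset.univ.gcd v = d at *
    refine ⟨(d.toNat - 1, g), fun c hc a => ?_, funext fun i => ?_⟩
    · choose z hz using hc
      simp only [Finset.univ_unique, Finset.sum_singleton] at hz
      refine ⟨∑ i, z i * w i, ?_⟩
      have h5 : (1 : ℚ) = ∑ i, (g i : ℚ) * w i := by exact_mod_cast h2.symm.trans hw
      push_cast
      simp only [← hz, mul_assoc, ← Finset.mul_sum, ← h5, mul_one]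
      exact congrArg c (Subsingleton.elim _ _)
    · rw [h1 i (Finset.mem_univ _)]
      change ((d.toNat - 1 + 1 : ℕ) : ℤ) * g i = d * g i
      congr 1
      omega

end Pool.Agent.P.MP_59bdab_ag
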