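import Pool.Agent.P.MP_59bdab_ag.IfC

namespace Pool.Agent.P.MP_59bdab_ag

open Matrix MeasureTheory Filter Topology
open scoped ENNReal

namespace FD1

/-- A measurable set of orbit representatives. -/
theorem reps {G X : Type} [Group G] [Countable G] [MulAction G X] [MeasurableSpace X]
    [MeasurableConstSMul G X] (h e : X → ℝ) (hh : Measurable h) (he : Measurable e)
    (hi : Function.Injective e) (hf : ∀ Z, {γ : G | h (γ • Z) ≤ h Z}.Finite) :
    ∃ F : Set X, MeasurableSet F ∧ (∀ Z, ∃ γ : G, γ • Z ∈ F) ∧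
      ∀ (γ : G), ∀ Z ∈ F, γ • Z ∈ F → γ • Z = Z := by
  refine ⟨⋂ γ : G, {Z | h Z < h (γ • Z)} ∪ ({Z | h Z = h (γ • Z)} ∩ {Z | e Z ≤ e (γ • Z)}),
    MeasurableSet.iInter fun γ => ?_, fun Z => ?_, fun γ Z h1 h2 => ?_⟩
  · have m := measurable_const_smul (α := X) γ
    exact (measurableSet_lt hh (hh.comp m)).union
      ((measurableSet_eq_fun hh (hh.comp m)).inter (measurableSet_le he (he.comp m)))
  · obtain ⟨γ, h1, h2⟩ := Set.exists_min_image _ (fun γ : G => toLex (h (γ • Z), e (γ • Z)))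
      (hf Z) ⟨1, by simp⟩
    refine ⟨γ, Set.mem_iInter.2 fun δ => ?_⟩
    simp only [Set.mem_union, Set.mem_inter_iff, Set.mem_ofPred_eq, smul_smul]
    by_cases h3 : h ((δ * γ) • Z) ≤ h Z
    · exact Prod.Lex.toLex_le_toLex.1 (h2 _ h3)
    · exact Or.inl (lt_of_le_of_lt h1 (not_le.1 h3))
  · have a := Set.mem_iInter.1 h1 γ
    have b := Set.mem_iInter.1 h2 γ⁻¹
    simp only [Set.mem_union, Set.mem_inter_iff, Set.mem_ofPred_eq, inv_smul_smul] at a b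
    rcases a with a | a <;> rcases b with b | b
    · exact absurd a (not_lt.2 b.le)
    · exact absurd a (not_lt.2 b.1.le)
    · exact absurd b (not_lt.2 a.1.le)
    · exact hi (le_antisymm b.2 a.2)

end FD1

theorem p_FD1 (hQ : S_Q) (hQC : S_QC) (hPROP : S_PROP) (hMEAS : S_MEAS) : S_FD1 := by
  intro ι _ _
  obtain ⟨e, he⟩ := exists_measurableEmbedding_real (Sym2 ι → ℂ)
  have hv : MeasurableEmbedding (Subtype.val : HH ι → Sym2 ι → ℂ) :=
    MeasurableEmbedding.subtype_coe (isOpen_HS ι).measurableSet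
  obtain ⟨q1, -, -, -, -, q6, -⟩ := hQ ι
  obtain ⟨c1, -, -, -, c5⟩ := hQC ι
  obtain ⟨-, -, -, -, p5, -⟩ := hPROP ι
  have hd : ∀ (Z : HH ι) i, Qm Z i i ≤ (Qm Z).trace := fun Z i =>
    Finset.single_le_sum (f := fun i => Qm Z i i) (fun j _ => (q1 Z).1.diag_pos.le)
      (Finset.mem_univ i)
  obtain ⟨F, f1, f2, f3⟩ := FD1.reps (G := SpZ ι) (fun Z : HH ι => (Qm Z).trace)
    (fun Z => e Z.1) q6.matrix_trace.measurable (he.comp hv).measurable (he.comp hv).injective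
    fun Z => (c5 _ (c1 (Qm Z).trace)).subset fun γ hγ =>
      ⟨Z, fun i => hd Z i, fun i => (hd _ i).trans hγ⟩
  refine ⟨Subtype.val '' F, hv.measurableSet_image.2 f1, ?_, fun z hz => ?_,
    fun γ hγ h1 h2 => ?_⟩
  · rintro _ ⟨Z, -, rfl⟩
    exact Z.2
  · obtain ⟨γ, hγ⟩ := f2 ⟨z, hz⟩
    exact ⟨γ.1, γ.2, _, ⟨_, hγ, rfl⟩, (act_iff γ ⟨z, hz⟩ _).2 rfl⟩
  · have ac : Measure.comap (Subtype.val : HH ι → Sym2 ι → ℂ) volume ≪ μH ι := by
      refine withDensity_absolutelyContinuous' ?_ (Eventually.of_forall fun Z => ?_)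
      · exact ((continuous_Ym.matrix_det.pow _).measurable.inv.ennreal_ofReal).aemeasurable
      · exact (ENNReal.ofReal_pos.2 (inv_pos.2 (pow_pos (Ym_det_pos Z) _))).ne'
    have h0 := ac (ae_iff.1 p5)
    rw [hv.comap_apply] at h0
    refine measure_mono_null ?_ h0
    rintro _ ⟨⟨Z, hZ, rfl⟩, _, ⟨W, hW, rfl⟩, ha⟩
    have hw : W = (⟨γ, hγ⟩ : SpZ ι) • Z := Subtype.ext ((act_iff ⟨γ, hγ⟩ Z _).1 ha)
    exact ⟨Z, fun hF => (hF ⟨γ, hγ⟩ (f3 _ Z hZ (hw ▸ hW))).elim h1 h2, rfl⟩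

end Pool.Agent.P.MP_59bdab_ag
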