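import Pool.Agent.P.MP_59bdab_ag.IfC

/-!
Integrals over a fundamental domain for `Sp(2g, ℤ) / ±1` and integrals against a weight.
-/

namespace Pool.Agent.P.MP_59bdab_ag

open Matrix MeasureTheory Filter Topology
open scoped ENNReal

namespace FD2

section abstract
variable {G X : Type} [Group G] [Countable G] [MulAction G X] [MeasurableSpace X]
  [MeasurableConstSMul G X] (μ : Measure X) [SMulInvariantMeasure G X μ]

theorem count (A : Set X) (ε : G) (hε : ε ≠ 1) (hfix : ∀ x : X, ε • x = x)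
    (hcov : ∀ x : X, ∃ γ : G, γ • x ∈ A)
    (hnull : ∀ γ : G, γ ≠ 1 → γ ≠ ε → μ {x | x ∈ A ∧ γ • x ∈ A} = 0) :
    ∀ᵐ x ∂μ, ∑' γ : G, A.indicator (1 : X → ℝ≥0∞) (γ • x) = 2 := by
  classical
  have h1 : ∀ᵐ x ∂μ, ∀ γ δ : G, γ ≠ 1 → γ ≠ ε → ¬ (δ • x ∈ A ∧ γ • δ • x ∈ A) := by
    refine ae_all_iff.2 fun γ => ae_all_iff.2 fun δ => ?_
    by_cases h1 : γ = 1
    · exact Eventually.of_forall fun _ h => absurd h1 h
    by_cases h2 : γ = ε
    · exact Eventually.of_forall fun _ _ h => absurd h2 h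
    have h3 : μ ((fun x => δ • x) ⁻¹' {x | x ∈ A ∧ γ • x ∈ A}) = 0 := by
      rw [measure_preimage_smul]
      exact hnull γ h1 h2
    have h4 := measure_eq_zero_iff_ae_notMem.1 h3
    exact h4.mono fun x hx _ _ h => hx h
  refine h1.mono fun x hx => ?_
  obtain ⟨g, hg⟩ := hcov x
  have hne : g ≠ ε * g := fun h => hε (by simpa using h.symm)
  rw [tsum_eq_sum (s := {g, ε * g}) (fun γ hγ => ?_), Finset.sum_pair hne,
    Set.indicator_of_mem hg, Set.indicator_of_mem (by rw [mul_smul, hfix]; exact hg)]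
  · simp only [Pi.one_apply]
    norm_num
  · simp only [Finset.mem_insert, Finset.mem_singleton, not_or] at hγ
    refine Set.indicator_of_notMem (fun h => ?_) _
    refine hx (γ * g⁻¹) g (fun e => hγ.1 (mul_inv_eq_one.1 e))
      (fun e => hγ.2 (mul_inv_eq_iff_eq_mul.1 e)) ⟨hg, ?_⟩
    rw [← mul_smul, inv_mul_cancel_right]
    exact h

theorem map_eq (A : Set X) (hA : MeasurableSet A) (w : X → ℝ≥0∞) (hw : Measurable w)
    (hWT : ∀ φ : X → ℝ≥0∞, Measurable φ →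
      ∫⁻ x, φ x ∂μ = ∫⁻ x, (∑' γ : G, φ (γ • x)) * w x ∂μ)
    (hc : ∀ᵐ x ∂μ, ∑' γ : G, A.indicator (1 : X → ℝ≥0∞) (γ • x) = 2)
    (φ : X → ℂ) (hφ : Measurable φ) (hinv : ∀ (γ : G) x, φ (γ • x) = φ x) :
    Measure.map φ (μ.restrict A) = Measure.map φ ((2 : ℝ≥0∞) • μ.withDensity w) := by
  ext S hS
  have hT : MeasurableSet (φ ⁻¹' S) := hφ hS
  rw [Measure.map_apply hφ hS, Measure.map_apply hφ hS, Measure.restrict_apply hT,
    Measure.smul_apply, withDensity_apply _ hT, smul_eq_mul, ← lintegral_indicator_one (hT.inter hA),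
    hWT _ (measurable_one.indicator (hT.inter hA)), ← lintegral_indicator hT,
    ← lintegral_const_mul _ (hw.indicator hT)]
  refine lintegral_congr_ae (hc.mono fun x hx => ?_)
  by_cases h : x ∈ φ ⁻¹' S
  · have e : ∀ γ : G, (φ ⁻¹' S ∩ A).indicator (1 : X → ℝ≥0∞) (γ • x) =
        A.indicator (1 : X → ℝ≥0∞) (γ • x) := fun γ => by
      have h' : γ • x ∈ φ ⁻¹' S := by
        rw [Set.mem_preimage, hinv]
        exact h
      by_cases h2 : γ • x ∈ A
      · rw [Set.indicator_of_mem h2, Set.indicator_of_mem (Set.mem_inter h' h2)]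
      · rw [Set.indicator_of_notMem h2, Set.indicator_of_notMem fun h3 => h2 h3.2]
    simp only [e, hx, Set.indicator_of_mem h]
  · have e : ∀ γ : G, (φ ⁻¹' S ∩ A).indicator (1 : X → ℝ≥0∞) (γ • x) = 0 := fun γ => by
      refine Set.indicator_of_notMem (fun h3 => h ?_) _
      have h4 := h3.1
      rw [Set.mem_preimage, hinv] at h4
      exact h4
    simp only [e, tsum_zero, zero_mul, Set.indicator_of_notMem h, mul_zero]

end abstract

theorem transfer {X : Type} [MeasurableSpace X] (μ ν : Measure X) (φ : X → ℂ) (hφ : Measurable φ)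
    (h : Measure.map φ μ = Measure.map φ ((2 : ℝ≥0∞) • ν)) (hi : Integrable φ ν) :
    Integrable φ μ ∧ ∫ x, φ x ∂μ = 2 * ∫ x, φ x ∂ν := by
  have h1 : Integrable φ ((2 : ℝ≥0∞) • ν) := hi.smul_measure (by norm_num)
  have h2 : Integrable (id : ℂ → ℂ) (Measure.map φ ((2 : ℝ≥0∞) • ν)) :=
    (integrable_map_measure aestronglyMeasurable_id hφ.aemeasurable).2 h1
  refine ⟨?_, ?_⟩
  · rw [← h] at h2
    exact (integrable_map_measure aestronglyMeasurable_id hφ.aemeasurable).1 h2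
  · have h3 := integral_map (μ := μ) hφ.aemeasurable (f := fun z : ℂ => z) aestronglyMeasurable_id
    have h4 := integral_map (μ := (2 : ℝ≥0∞) • ν) hφ.aemeasurable (f := fun z : ℂ => z)
      aestronglyMeasurable_id
    rw [← h3, h, h4, integral_smul_measure]
    simp

end FD2

theorem p_FD2 (hWT : S_WT) (hPROP : S_PROP) (hMEAS : S_MEAS) : S_FD2 := by
  intro ι _ _ _ F w φ hF hw hφ hinv hi
  have hM := hMEAS ι
  haveI := hM.2.1
  have hA : MeasurableSet {Z : HH ι | Z.1 ∈ F} := measurable_subtype_coe hF.1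
  let ε : SpZ ι := ⟨-1, SymplecticGroup.neg_mem (one_mem _)⟩
  have hε : ε ≠ 1 := by
    intro h
    obtain ⟨i⟩ := ‹Nonempty ι›
    have h1 : (-1 : Matrix (ι ⊕ ι) (ι ⊕ ι) ℤ) = 1 := congrArg Subtype.val h
    have h2 := congrFun (congrFun h1 (.inl i)) (.inl i)
    simp at h2
  have hc := FD2.count (μH ι) {Z : HH ι | Z.1 ∈ F} ε hε
    (fun Z => (hPROP ι).2.2.2.2.2.1 ε Z (Or.inr rfl)) (fun Z => by
      obtain ⟨γ, hγ, v, hv, ha⟩ := hF.2.2.1 Z.1 Z.2
      refine ⟨⟨γ, hγ⟩, ?_⟩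
      have := (act_iff ⟨γ, hγ⟩ Z v).1 ha
      show ((⟨γ, hγ⟩ : SpZ ι) • Z).1 ∈ F
      rw [← this]
      exact hv) (fun γ h1 h2 => by
      have h3 := hF.2.2.2 γ.1 γ.2 (fun e => h1 (Subtype.ext e)) (fun e => h2 (Subtype.ext e))
      refine measure_mono_null (fun Z hZ => ?_) (hM.2.2.2.2.2.2.2 _ h3)
      exact ⟨hZ.1, (γ • Z).1, hZ.2, (act_iff γ Z _).2 rfl⟩)
  have hm := FD2.map_eq (μH ι) {Z : HH ι | Z.1 ∈ F} hA w hw.1
    (hWT (SpZ ι) (HH ι) (μH ι) w hw).1 hc φ hφ hinv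
  exact FD2.transfer _ _ φ hφ hm hi

end Pool.Agent.P.MP_59bdab_ag
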