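import Pool.Agent.P.MP_59bdab_ag.IfA

/-!
Dimension count along a filtration.
-/

namespace Pool.Agent.P.MP_59bdab_ag

open Module

theorem p_FIL : S_FIL := by
  intro E _ _ S P a _ hS hk hl hi m hm
  have h0 : ∀ j, P j 0 = 0 := fun j => by
    simpa using hl j 1 0 (zero_mem _) 0 (zero_mem _)
  induction m, hm using Nat.le_induction with
  | base => exact ⟨⊥, inferInstance, fun v hv => ⟨0, fun _ _ => zero_mem _, by simpa using hv⟩,
      by simp⟩
  | succ m hm ih =>
    obtain ⟨V, _, hV, hr⟩ := ih
    have := Submodule.finiteDimensional_of_le (hS hm)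
    let L : S m →ₗ[ℂ] E :=
      { toFun := fun f => P m f
        map_add' := fun f g => by simpa using hl m 1 f (hS hm f.2) g (hS hm g.2)
        map_smul' := fun c f => by simpa [h0] using hl m c f (hS hm f.2) 0 (zero_mem _) }
    have hup : ∀ v ∈ V, ∀ g : S m, ∃ f : ℕ → E, (∀ j, a ≤ j → f j ∈ S j) ∧ f m = g ∧
        v + L g = ∑ j ∈ Finset.Ico a (m + 1), P j (f j) := fun v hv g => by
      obtain ⟨f, hf, rfl⟩ := hV v hv
      refine ⟨Function.update f m g, fun j hj => ?_, by simp, ?_⟩
      · rcases eq_or_ne j m with rfl | h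
        · simp
        · rw [Function.update_of_ne h]
          exact hf j hj
      · rw [Finset.sum_Ico_succ_top hm, Function.update_self]
        exact congrArg (· + _) (Finset.sum_congr rfl fun j hj => by
          rw [Function.update_of_ne (Finset.mem_Ico.1 hj).2.ne])
    have hd : V ⊓ LinearMap.range L = ⊥ := by
      refine (Submodule.eq_bot_iff _).2 ?_
      rintro _ ⟨hv, g, rfl⟩
      obtain ⟨f, hf, h1, h2⟩ := hup _ hv (-g)
      rw [map_neg, add_neg_cancel] at h2
      have h3 := hi _ f (fun j hj => hS (Finset.mem_Ico.1 hj).1 (hf j (Finset.mem_Ico.1 hj).1))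
        h2.symm m (Finset.mem_Ico.2 ⟨hm, m.lt_succ_self⟩)
      rw [h1] at h3
      exact neg_eq_zero.1 ((map_neg L g).symm.trans h3)
    have hker : LinearMap.ker L = (S (m + 1)).comap (S m).subtype :=
      Submodule.ext fun f => (hk m hm f f.2).symm
    refine ⟨V ⊔ LinearMap.range L, inferInstance, fun v hv => ?_, ?_⟩
    · obtain ⟨u, hu, _, ⟨g, rfl⟩, rfl⟩ := Submodule.mem_sup.1 hv
      obtain ⟨f, hf, -, h⟩ := hup u hu g
      exact ⟨f, hf, h⟩
    · have h1 := Submodule.finrank_sup_add_finrank_inf_eq V (LinearMap.range L)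
      have h2 := L.finrank_range_add_finrank_ker
      rw [hker, (Submodule.comapSubtypeEquivOfLe (hS (Nat.le_add_right m 1))).finrank_eq] at h2
      rw [hd, finrank_bot] at h1
      omega

end Pool.Agent.P.MP_59bdab_ag
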