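import Pool.Agent.P.MP_59bdab_ag.IfC

namespace Pool.Agent.P.MP_59bdab_ag

open Matrix MeasureTheory Filter Topology
open scoped ENNReal ContDiff

theorem p_FIN (hCW : S_CW) (hFD1 : S_FD1) (hFD2 : S_FD2) (hEXM : S_EXM) (hAMB : S_AMB)
    (hINVD : S_INVD) (hREG1 : S_REG1) (hPROP : S_PROP) : S_FIN := by
  intro g b hg _
  have : Nonempty (Fin g) := ⟨⟨0, hg⟩⟩
  refine ⟨?_, ?_⟩
  · obtain ⟨⟨μ, hμ⟩, δ, hδ⟩ := hEXM (Fin g)
    obtain ⟨F, hF⟩ := hFD1 (Fin g)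
    exact ⟨μ, δ, F, hμ, hδ, hF⟩
  · intro μ δ F B hμ hδ hF hB
    obtain ⟨-, ⟨w, hw⟩, -⟩ := hPROP (Fin g)
    have hp : ∀ l, Pot (if l ∈ B then (0 : ℝ) else 1) (if l ∈ B then δ else μ) := by
      intro l
      split_ifs
      · exact (hREG1 (Fin g)).2 _ _ _ hδ
      · exact (hREG1 (Fin g)).2 _ _ _ hμ
    obtain ⟨h1, h2⟩ := hCW g μ δ w B hμ hδ hw
    obtain ⟨h3, h4⟩ := hFD2 (Fin g) F w _ hF hw
      ((hINVD (Fin g)).2.2.2.2 _ fun l => (hp l).1).measurable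
      (fun γ Z => (hINVD (Fin g)).2.2.2.1 _ _ γ Z hp) h1
    obtain ⟨h5, h6⟩ := hAMB (Fin g) (fun z => wedge fun l => levi (if l ∈ B then δ else μ) z) F
      hF.1 hF.2.1
    refine ⟨h5.mp h3, ?_⟩
    rw [← h6]
    change (1 / 2 : ℂ) * ((Real.pi : ℂ)⁻¹ ^ tri g * ∫ Z in {Z : HH (Fin g) | Z.1 ∈ F},
      dns (fun l => if l ∈ B then δ else μ) Z ∂μH (Fin g)) = _
    rw [h4, h2, hB]
    have hpi : (Real.pi : ℂ) ≠ 0 := by exact_mod_cast Real.pi_ne_zero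
    push_cast
    rw [inv_pow]
    field_simp

end Pool.Agent.P.MP_59bdab_ag
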