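import Pool.Agent.P.MP_59bdab_ag.IfA

/-! Finiteness of the lattice sum. -/

namespace Pool.Agent.P.MP_59bdab_ag

open Matrix MeasureTheory Filter Topology
open scoped ENNReal ComplexOrder

namespace FINW

variable {r : ℕ}

theorem cont : Continuous (Gm : ({p : Sym2 (Fin r) // ¬ p.IsDiag} → ℝ) → _) := by
  refine continuous_pi fun i => continuous_pi fun j => ?_
  by_cases h : i = j
  · simpa [Gm, h] using continuous_const
  · simpa [Gm, h] using continuous_apply _

theorem diag (a : {p : Sym2 (Fin r) // ¬ p.IsDiag} → ℝ) (i : Fin r) : Gm a i i = 1 := by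
  simp [Gm]

theorem symm (a : {p : Sym2 (Fin r) // ¬ p.IsDiag} → ℝ) (i j : Fin r) : Gm a j i = Gm a i j := by
  by_cases h : i = j
  · rw [h]
  · simp [Gm, h, Ne.symm h, Sym2.eq_swap]

theorem mpos : Measurable fun a : {p : Sym2 (Fin r) // ¬ p.IsDiag} → ℝ => (Gm a).PosDef :=
  measurableSet_setOfPred.1 (isOpen_posDef cont fun a => by
    ext i j
    simpa using symm a i j).measurableSet

theorem contq (y : Fin r → ℝ) :
    Continuous fun a : {p : Sym2 (Fin r) // ¬ p.IsDiag} → ℝ => y ⬝ᵥ Gm a *ᵥ y :=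
  continuous_const.dotProduct (cont.matrix_mulVec continuous_const)

theorem mCL (L : AddSubgroup (Fin r → ℚ)) : MeasurableSet (CL L) :=
  measurableSet_setOfPred.2 (mpos.and (Measurable.forall fun _ => measurable_const.imp
    (measurable_const.imp (measurableSet_setOfPred.1
      (isClosed_le continuous_const (contq _)).measurableSet))))

theorem mCLo (L : AddSubgroup (Fin r → ℚ)) : MeasurableSet (CLo L) :=
  measurableSet_setOfPred.2 (mpos.and (Measurable.forall fun _ => measurable_const.imp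
    (measurable_const.imp (measurable_const.imp (measurableSet_setOfPred.1
      (isOpen_lt continuous_const (contq _)).measurableSet)))))

theorem q_two (G : Matrix (Fin r) (Fin r) ℝ) (i j : Fin r) (c d : ℝ) :
    (Pi.single i c + Pi.single j d) ⬝ᵥ G *ᵥ (Pi.single i c + Pi.single j d) =
      c * c * G i i + c * d * (G i j + G j i) + d * d * G j j := by
  simp only [mulVec_add, add_dotProduct, dotProduct_add, single_dotProduct, mulVec_single,
    MulOpposite.smul_eq_mul_unop, MulOpposite.unop_op, Pi.smul_apply, col_apply]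
  ring

theorem sub (L : AddSubgroup (Fin r → ℚ)) : CLo L ⊆ CL L := by
  refine fun a ha => ⟨ha.1, fun y hy h0 => ?_⟩
  by_cases h : ∀ i, y ≠ Pi.single i 1 ∧ y ≠ -Pi.single i 1
  · exact (ha.2 y hy h0 h).le
  · simp only [not_forall, not_and_or, not_not] at h
    obtain ⟨i, h⟩ := h
    obtain ⟨c, hc, h⟩ : ∃ c : ℝ, c * c = 1 ∧
        (fun l => (y l : ℝ)) = Pi.single i c + Pi.single i 0 := by
      rcases h with rfl | rfl
      · exact ⟨1, by simp, funext fun l => by by_cases h : l = i <;> simp [h]⟩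
      · exact ⟨-1, by simp, funext fun l => by by_cases h : l = i <;> simp [h]⟩
    rw [h, q_two, diag, hc]
    simp

theorem abs_le {a : {p : Sym2 (Fin r) // ¬ p.IsDiag} → ℝ} (h : (Gm a).PosDef) (i j : Fin r) :
    |Gm a i j| ≤ 1 := by
  have h1 := h.posSemidef.dotProduct_mulVec_nonneg (Pi.single i 1 + Pi.single j 1)
  have h2 := h.posSemidef.dotProduct_mulVec_nonneg (Pi.single i 1 + Pi.single j (-1))
  rw [star_trivial, q_two, diag, diag, symm a i j] at h1 h2
  exact _root_.abs_le.2 ⟨by linarith, by linarith⟩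

theorem null (y : Fin r → ℚ) (h : ∀ i, y ≠ Pi.single i 1 ∧ y ≠ -Pi.single i 1) :
    volume {a : {p : Sym2 (Fin r) // ¬ p.IsDiag} → ℝ |
      (fun i => (y i : ℝ)) ⬝ᵥ Gm a *ᵥ (fun i => (y i : ℝ)) = 1} = 0 := by
  generalize hx : (fun i => (y i : ℝ)) = x
  let s : AffineSubspace ℝ ({p : Sym2 (Fin r) // ¬ p.IsDiag} → ℝ) :=
    { carrier := {a | x ⬝ᵥ Gm a *ᵥ x = 1}
      smul_vsub_vadd_mem' := fun c a b d ha hb hd => by
        have e : Gm (c • (a -ᵥ b) +ᵥ d) = c • (Gm a - Gm b) + Gm d := by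
          ext i j
          by_cases h : i = j <;> simp [Gm, h]
        simp only [Set.mem_ofPred_eq] at ha hb hd ⊢
        rw [e, add_mulVec, smul_mulVec, sub_mulVec, dotProduct_add, dotProduct_smul,
          dotProduct_sub, ha, hb, hd]
        simp }
  refine Measure.addHaar_affineSubspace volume s fun hs => ?_
  have hall : ∀ a, x ⬝ᵥ Gm a *ᵥ x = 1 := fun a => (hs.ge (AffineSubspace.mem_top ℝ _ a) : a ∈ s)
  have h0 : Gm (0 : {p : Sym2 (Fin r) // ¬ p.IsDiag} → ℝ) = 1 := by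
    ext i j
    by_cases h : i = j <;> simp [Gm, h, one_apply]
  have hx' : ∀ l, x l = y l := fun l => (congrFun hx l).symm
  have h1 : x ⬝ᵥ x = 1 := by simpa [h0] using hall 0
  have h2 : ∀ i l, i ≠ l → x i * x l = 0 := by
    intro i l hil
    have e : Gm (Pi.single ⟨s(i, l), by simpa using hil⟩ 1) =
        1 + (Matrix.single i l 1 + Matrix.single l i 1) := by
      ext u v
      by_cases h : u = v
      · subst h
        by_cases h' : i = u
        · subst h'
          simp [Gm, hil.symm]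
        · simp [Gm, h']
      · simp only [Gm, of_apply, h, dite_false, Pi.single_apply, Subtype.mk.injEq, Sym2.eq_iff,
          Matrix.add_apply, one_apply_ne h, single_apply, zero_add]
        by_cases h1 : u = i ∧ v = l
        · obtain ⟨rfl, rfl⟩ := h1
          simp [hil, hil.symm]
        · by_cases h2 : u = l ∧ v = i
          · obtain ⟨rfl, rfl⟩ := h2
            simp [hil, hil.symm]
          · rw [if_neg (by tauto), if_neg (by tauto), if_neg (by tauto), add_zero]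
    have := hall (Pi.single ⟨s(i, l), by simpa using hil⟩ 1)
    rw [e, add_mulVec, add_mulVec, dotProduct_add, dotProduct_add, one_mulVec, h1, single_mulVec,
      single_mulVec] at this
    change 1 + (x ⬝ᵥ Pi.single i (1 * x l) + x ⬝ᵥ Pi.single l (1 * x i)) = 1 at this
    rw [dotProduct_single, dotProduct_single] at this
    linarith
  obtain ⟨i, hi⟩ : ∃ i, x i ≠ 0 := by
    by_contra hn
    simp only [not_exists, not_not] at hn
    simp [dotProduct, hn] at h1
  have h3 : ∀ l, l ≠ i → y l = 0 := fun l hl => by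
    have := (mul_eq_zero.1 (h2 i l hl.symm)).resolve_left hi
    rw [hx'] at this
    exact_mod_cast this
  have h4 : y i * y i = 1 := by
    rw [dotProduct, Finset.sum_eq_single i (fun l _ hl => by simp [hx', h3 l hl]) (by simp),
      hx'] at h1
    exact_mod_cast h1
  rcases mul_self_eq_one_iff.1 h4 with h5 | h5
  · exact (h i).1 (funext fun l => by by_cases hl : l = i <;> simp [hl, h5, h3])
  · exact (h i).2 (funext fun l => by by_cases hl : l = i <;> simp [hl, h5, h3])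

theorem bd (L : AddSubgroup (Fin r → ℚ)) : volume (CL L \ CLo L) = 0 := by
  refine measure_mono_null (t := ⋃ y : {y : Fin r → ℚ // ∀ i, y ≠ Pi.single i 1 ∧
    y ≠ -Pi.single i 1}, {a | (fun i => (y.1 i : ℝ)) ⬝ᵥ Gm a *ᵥ (fun i => (y.1 i : ℝ)) = 1}) ?_
    (measure_iUnion_null fun y => null y.1 y.2)
  rintro a ⟨h1, h2⟩
  by_contra hn
  refine h2 ⟨h1.1, fun y hy h0 h => lt_of_le_of_ne (h1.2 y hy h0) fun e => hn ?_⟩
  exact Set.mem_iUnion.2 ⟨⟨y, h⟩, e.symm⟩

theorem small {L : AddSubgroup (Fin r → ℚ)} (hL : (CL L).Nonempty) {y : Fin r → ℚ} (hy : y ∈ L)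
    (h : ∀ i, |(r : ℚ) * y i| < 1) : y = 0 := by
  obtain ⟨a, ha, hb⟩ := hL
  by_contra h0
  have h1 := hb y hy h0
  obtain ⟨i0, -⟩ := Function.ne_iff.1 h0
  have hr : (0 : ℝ) < r := by exact_mod_cast i0.pos
  have h2 : ∑ i, |(y i : ℝ)| < 1 := by
    have : ∑ i, |(y i : ℝ)| < ∑ _i : Fin r, 1 / (r : ℝ) := by
      refine Finset.sum_lt_sum_of_nonempty ⟨i0, Finset.mem_univ _⟩ fun i _ => ?_
      have h3 : |(r : ℝ) * y i| < 1 := by exact_mod_cast h i
      rw [abs_mul, abs_of_pos hr] at h3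
      rw [lt_div_iff₀ hr]
      linarith
    simpa [hr.ne'] using this
  have h3 : (fun i => (y i : ℝ)) ⬝ᵥ Gm a *ᵥ (fun i => (y i : ℝ)) ≤
      (∑ i, |(y i : ℝ)|) * ∑ i, |(y i : ℝ)| := by
    rw [Finset.sum_mul_sum]
    simp only [dotProduct, mulVec, Finset.mul_sum]
    refine Finset.sum_le_sum fun i _ => Finset.sum_le_sum fun j _ => (le_abs_self _).trans ?_
    rw [abs_mul, abs_mul]
    exact mul_le_mul_of_nonneg_left (mul_le_of_le_one_left (abs_nonneg _) (abs_le ha i j))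
      (abs_nonneg _)
  have h4 : 0 ≤ ∑ i, |(y i : ℝ)| := Finset.sum_nonneg fun _ _ => abs_nonneg _
  nlinarith

theorem int_mem (z : Fin r → ℤ) : (fun i => (z i : ℚ)) ∈ stdL r := fun i _ => ⟨z i, by simp⟩

theorem den {L : AddSubgroup (Fin r → ℚ)} (h1 : stdL r ≤ L) (hL : (CL L).Nonempty)
    {y : Fin r → ℚ} (hy : y ∈ L) (i : Fin r) : ∃ z : ℤ, ((r ^ r).factorial : ℚ) * y i = z := by
  have hr : (0 : ℚ) < r := by exact_mod_cast i.pos
  have key : ∀ k k' : ℕ, k < k' → k' ≤ r ^ r →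
      (fun l => ⌊(r : ℚ) * Int.fract (k * y l)⌋) = (fun l => ⌊(r : ℚ) * Int.fract (k' * y l)⌋) →
      ∃ z : ℤ, ((r ^ r).factorial : ℚ) * y i = z := by
    intro k k' hk hk' e
    have h2 : (k' • y - fun l => (⌊k' * y l⌋ : ℚ)) - (k • y - fun l => (⌊k * y l⌋ : ℚ)) = 0 := by
      refine small hL (L.sub_mem (L.sub_mem (L.nsmul_mem hy _) (h1 (int_mem _)))
        (L.sub_mem (L.nsmul_mem hy _) (h1 (int_mem _)))) fun l => ?_
      have := Int.abs_sub_lt_one_of_floor_eq_floor (congrFun e l).symm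
      rw [← mul_sub] at this
      rw [Pi.sub_apply, Pi.sub_apply, Pi.sub_apply, Pi.smul_apply, Pi.smul_apply, nsmul_eq_mul,
        nsmul_eq_mul]
      exact this
    have h3 := congrFun h2 i
    rw [Pi.sub_apply, Pi.sub_apply, Pi.sub_apply, Pi.smul_apply, Pi.smul_apply, nsmul_eq_mul,
      nsmul_eq_mul, Pi.zero_apply] at h3
    obtain ⟨d, rfl⟩ := Nat.exists_eq_add_of_lt hk
    obtain ⟨m, hm⟩ := Nat.dvd_factorial (m := d + 1) (n := r ^ r) d.succ_pos (by omega)
    refine ⟨m * (⌊((k + d + 1 : ℕ) : ℚ) * y i⌋ - ⌊(k : ℚ) * y i⌋), ?_⟩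
    rw [hm]
    push_cast at h3 ⊢
    linear_combination (m : ℚ) * h3
  obtain ⟨k, hk, k', hk', hne, e⟩ := Finset.exists_ne_map_eq_of_card_lt_of_maps_to
    (s := Finset.range (r ^ r + 1)) (t := Fintype.piFinset fun _ : Fin r => Finset.Ico (0 : ℤ) r)
    (f := fun k : ℕ => fun l => ⌊(r : ℚ) * Int.fract (k * y l)⌋) (by simp) (fun k _ => by
      simp only [Finset.mem_coe, Fintype.mem_piFinset, Finset.mem_Ico]
      refine fun l => ⟨Int.floor_nonneg.2 (mul_nonneg hr.le (Int.fract_nonneg _)),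
        Int.floor_lt.2 ?_⟩
      simpa using mul_lt_of_lt_one_right hr (Int.fract_lt_one _))
  rw [Finset.mem_range] at hk hk'
  rcases lt_or_gt_of_ne hne with h | h
  · exact key k k' h (by omega) e
  · exact key k' k h (by omega) e.symm

theorem fin (r : ℕ) : {L : Ov r | (CL L.1).Nonempty}.Finite := by
  have hN : (0 : ℚ) < ((r ^ r).factorial : ℕ) := by exact_mod_cast Nat.factorial_pos _
  generalize hM : (r ^ r).factorial = N at hN
  have hF : {y : Fin r → ℚ | ∀ i, y i ∈ (fun z : ℤ => (z : ℚ) / N) '' Set.Ico 0 (N : ℤ)}.Finite :=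
    Set.Finite.pi' fun _ => (Set.finite_Ico _ _).image _
  have key : ∀ L L' : Ov r, (CL L.1).Nonempty →
      {y : Fin r → ℚ | ∀ i, y i ∈ (fun z : ℤ => (z : ℚ) / N) '' Set.Ico 0 (N : ℤ)} ∩ L.1 ⊆ L'.1 →
      L.1 ≤ L'.1 := by
    intro L L' hL h y hy
    have h1 : (y - fun l => (⌊y l⌋ : ℚ)) ∈ L.1 := L.1.sub_mem hy (L.2.1 (int_mem _))
    have h2 : (y - fun l => (⌊y l⌋ : ℚ)) ∈ L'.1 := by
      refine h ⟨fun i => ?_, h1⟩
      obtain ⟨z, hz⟩ := den L.2.1 hL h1 i
      rw [hM] at hz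
      have h3 : (N : ℚ) * Int.fract (y i) = z := hz
      have h4 : (0 : ℚ) ≤ z := h3 ▸ mul_nonneg hN.le (Int.fract_nonneg _)
      have h5 : (z : ℚ) < N := h3 ▸ mul_lt_of_lt_one_right hN (Int.fract_lt_one _)
      refine ⟨z, ⟨by exact_mod_cast h4, by exact_mod_cast h5⟩, ?_⟩
      change (z : ℚ) / N = _
      rw [← hz]
      exact mul_div_cancel_left₀ _ hN.ne'
    simpa using L'.1.add_mem h2 (L'.2.1 (int_mem fun l => ⌊y l⌋))
  refine Set.Finite.of_injOn (f := fun L : Ov r => {y : Fin r → ℚ |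
    ∀ i, y i ∈ (fun z : ℤ => (z : ℚ) / N) '' Set.Ico 0 (N : ℤ)} ∩ L.1)
    (fun L _ => Set.inter_subset_left) (fun L hL L' hL' e => ?_) hF.finite_subsets
  exact Subtype.ext (le_antisymm (key L L' hL (e.le.trans Set.inter_subset_right))
    (key L' L hL' (e.ge.trans Set.inter_subset_right)))

theorem integ (L : AddSubgroup (Fin r → ℚ)) (j : ℕ) :
    IntegrableOn (fun a => (Gm a).det ^ (j + 1)) (CL L) := by
  refine ((cont.matrix_det.pow (j + 1)).continuousOn.integrableOn_compact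
    (isCompact_closedBall 0 1)).mono_set fun a ha => ?_
  rw [mem_closedBall_zero_iff, pi_norm_le_iff_of_nonneg zero_le_one]
  rintro ⟨p, hp⟩
  induction p using Sym2.ind with
  | _ i l =>
    have h : i ≠ l := by simpa using hp
    simpa [Gm, h] using abs_le ha.1 i l

theorem zero (j : ℕ) : WW 0 j = 1 := by
  have : IsEmpty {p : Sym2 (Fin 0) // ¬ p.IsDiag} := ⟨fun ⟨p, _⟩ => by
    induction p using Sym2.ind with
    | _ i l => exact i.elim0⟩
  have h1 : CL (stdL 0) = Set.univ := Set.eq_univ_of_forall fun a =>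
    ⟨(Subsingleton.elim 1 (Gm a)) ▸ PosDef.one, fun y _ h => absurd (Subsingleton.elim _ _) h⟩
  have h2 : ((2 * j + 1).factorial : ℝ) ≠ 0 := by exact_mod_cast Nat.factorial_ne_zero _
  obtain ⟨L0, h0⟩ : ∃ L0 : Ov 0, L0.1 = stdL 0 := ⟨⟨stdL 0, le_rfl, by simp⟩, rfl⟩
  rw [WW, tsum_eq_single L0 fun L hL => absurd (Subtype.ext (Subsingleton.elim _ _)) hL, h0]
  simp [h1, h2, Measure.real, volume_pi]

end FINW

theorem p_FINW : S_FINW := by
  intro r
  refine ⟨FINW.fin r, fun L => ⟨FINW.mCL L, FINW.mCLo L, FINW.sub L, FINW.bd L⟩, fun j => ?_⟩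
  have ht : ∀ L : Ov r, (((stdL r).relIndex L.1 : ℝ≥0∞) ^ (2 * j + r + 1))⁻¹ *
      ∫⁻ a in CL L.1, ENNReal.ofReal ((Gm a).det ^ (j + 1)) ≠ ⊤ := fun L =>
    ENNReal.mul_ne_top (ENNReal.inv_ne_top.2 (pow_ne_zero _ (Nat.cast_ne_zero.2 L.2.2)))
      (FINW.integ L.1 j).lintegral_lt_top.ne
  refine ⟨?_, ?_, FINW.zero j⟩
  · rw [WE, tsum_eq_sum (s := (FINW.fin r).toFinset) fun L hL => ?_]
    · exact ENNReal.sum_ne_top.2 fun L _ => ht L
    · have : CL L.1 = ∅ := by simpa [Set.not_nonempty_iff_eq_empty] using hL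
      simp [this]
  · rw [WW, WE, ENNReal.tsum_toReal_eq ht]
    congr 2
    funext L
    rw [integral_eq_lintegral_of_nonneg_ae (ae_restrict_of_forall_mem (FINW.mCL L.1)
      fun a ha => pow_nonneg ha.1.det_pos.le _) (FINW.integ L.1 j).aestronglyMeasurable]
    simp

end Pool.Agent.P.MP_59bdab_ag
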