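import Pool.Agent.P.MP_59bdab_ag.IfC

namespace Pool.Agent.P.MP_59bdab_ag

open Matrix MeasureTheory Filter Topology
open scoped ENNReal ContDiff

namespace FLAT1
variable {ι : Type} [Fintype ι] [DecidableEq ι]

theorem mat_inv (t : Sym2 ι → ℝ) : mat (coord (dm t)⁻¹) = (dm t)⁻¹ :=
  mat_coord (by rw [transpose_nonsing_inv, dm_transpose])

theorem inv_mem {t : Sym2 ι → ℝ} (ht : t ∈ PT ι) : coord (dm t)⁻¹ ∈ PD ι := by
  show (mat (coord (dm t)⁻¹)).PosDef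
  rw [mat_inv]
  exact PosDef.inv ht

end FLAT1

open FLAT1 in
theorem p_FLAT1 (hLEG1 : S_LEG1) (hLEG3 : S_LEG3) (hRYP : S_RYP) : S_FLAT1 := by
  intro ι _ _ s s' b β hb
  obtain ⟨hY, -, -, hI, hM, -⟩ := hLEG1 ι s s' b β hb
  obtain ⟨hG, hB, hYG, hGY, -⟩ := hLEG3 ι s s' b β hb
  have hPT : RI ι s ⊆ PT ι := ((hRYP ι).2.2.2.1 s hb.pos).2.2.1
  have hG1 : ∀ Z : HH ι, GG s b (imv Z.1) ∈ RI ι s := fun Z => hB.mapsTo Z.2
  have hf : ∀ Z : HH ι, (flt s b Z).1 = cv (rev Z.1) (coord (dm (GG s b (imv Z.1)))⁻¹) :=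
    fun Z => toH_val (cv_mem (inv_mem (hPT (hG1 Z))))
  have hs : ∀ Z : HH ι, tOf Z ∈ RI ι s → (shp b Z).1 = cv (rev Z.1) (YY b (tOf Z)) :=
    fun Z hZ => toH_val (cv_mem (hM hZ))
  have ht : ∀ Z : HH ι, tOf (flt s b Z) = GG s b (imv Z.1) := by
    intro Z
    have h0 : (dm (GG s b (imv Z.1))).PosDef := hPT (hG1 Z)
    rw [tOf, Ym_eq, hf, imv_cv, mat_inv, nonsing_inv_nonsing_inv _ h0.det_pos.ne'.isUnit, ud_dm]
  have hr : Continuous fun Z : HH ι => rev Z.1 := continuous_rev.comp continuous_subtype_val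
  refine ⟨?_, ?_, fun Z => ⟨ht Z, ht Z ▸ hG1 Z, by rw [hf, rev_cv], ?_, ?_⟩,
    fun Z hZ => ⟨hs Z hZ, ?_, ?_⟩⟩
  · refine continuous_toH (continuous_cv.comp (hr.prodMk ?_))
      fun Z => cv_mem (inv_mem (hPT (hG1 Z)))
    exact hI.continuousOn.comp_continuous (hG.continuousOn.comp_continuous
      (continuous_imv.comp continuous_subtype_val) fun Z => Z.2) fun Z => hPT (hG1 Z)
  · rw [continuousOn_iff_continuous_domRestrict]
    refine continuous_toH (f := fun Z : {Z : HH ι | tOf Z ∈ RI ι s} =>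
      cv (rev Z.1.1) (YY b (tOf Z.1))) (continuous_cv.comp
        ((hr.comp continuous_subtype_val).prodMk ?_)) fun Z => cv_mem (hM Z.2)
    exact hY.continuousOn.comp_continuous (continuous_tOf.comp continuous_subtype_val)
      fun Z => Z.2
  · rw [shp, ht, hYG (imv Z.1) Z.2, hf, rev_cv, cv_rev_imv, toH_coe]
  · rw [ht, hYG (imv Z.1) Z.2]
  · rw [flt, hs Z hZ, imv_cv, rev_cv, hGY _ hZ, coord_inv_tOf, cv_rev_imv, toH_coe]
  · rw [hs Z hZ, imv_cv, hGY _ hZ]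

end Pool.Agent.P.MP_59bdab_ag
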