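import Pool.Agent.P.MP_59bdab_ag.IfC

namespace Pool.Agent.P.MP_59bdab_ag

open Matrix MeasureTheory Filter Topology
open scoped ENNReal ContDiff

namespace FLAT2
variable {ι : Type} [Fintype ι] [DecidableEq ι]

/-- The first half of `γ (p, 0)`. -/
def qq (γ : SpZ ι) (p : ι → ℤ) : ι → ℤ := fun i => (γ.1 *ᵥ lv p) (Sum.inl i)

omit [Fintype ι] [DecidableEq ι] in
theorem lv_inj {p q : ι → ℤ} (h : lv p = lv q) : p = q := funext fun i => congrFun h (Sum.inl i)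

theorem inv_mulVec (γ : SpZ ι) (v : ι ⊕ ι → ℤ) : (γ⁻¹).1 *ᵥ (γ.1 *ᵥ v) = v := by
  have h : (γ⁻¹).1 * γ.1 = 1 := congrArg Subtype.val (inv_mul_cancel γ)
  rw [mulVec_mulVec, h, one_mulVec]

theorem mulVec_inv (γ : SpZ ι) (v : ι ⊕ ι → ℤ) : γ.1 *ᵥ ((γ⁻¹).1 *ᵥ v) = v := by
  have h := inv_mulVec γ⁻¹ v
  rwa [inv_inv] at h

theorem exP (hRYP : S_RYP) (W : HH ι) (s' : ℝ) :
    ∃ P : Finset (ι → ℤ), ∀ p, p ∈ P ↔ pr (tOf W) p ≤ s' := by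
  classical
  obtain ⟨P, hP⟩ := (hRYP ι).2.1 {tOf W} (Set.singleton_subset_iff.mpr (tOf_mem W))
    isCompact_singleton (s' + 1)
  refine ⟨P.filter fun p => pr (tOf W) p ≤ s', fun p => ?_⟩
  rw [Finset.mem_filter]
  refine ⟨fun h => h.2, fun h => ⟨?_, h⟩⟩
  by_contra hp
  have := hP _ rfl p hp
  linarith

theorem move (hQ : S_Q) {s' : ℝ} (γ : SpZ ι) (W : HH ι) (hO : γ • W ∈ OO ι s') {p : ι → ℤ}
    (hp : pr (tOf W) p ≤ s') :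
    γ.1 *ᵥ lv p = lv (qq γ p) ∧ pr (tOf (γ • W)) (qq γ p) = pr (tOf W) p := by
  have h1 : qf (Qm (γ • W)) (γ.1 *ᵥ lv p) = pr (tOf W) p := by
    rw [(hQ ι).2.2.1, pr_tOf]
  have h2 : γ.1 *ᵥ lv p = lv (qq γ p) := by
    refine eq_lv fun i => ?_
    by_contra hi
    have := hO _ ⟨i, hi⟩
    linarith
  exact ⟨h2, by rw [pr_tOf, ← h2, h1]⟩

theorem sum_move (hQ : S_Q) {s' : ℝ} (γ : SpZ ι) (W : HH ι) (hW : W ∈ OO ι s')
    (hO : γ • W ∈ OO ι s') {P P' : Finset (ι → ℤ)} (hP : ∀ p, p ∈ P ↔ pr (tOf W) p ≤ s')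
    (hP' : ∀ p, p ∈ P' ↔ pr (tOf (γ • W)) p ≤ s') {M : Type} [AddCommMonoid M]
    (F : ℝ → (ι → ℤ) → M) :
    ∑ p ∈ P, F (pr (tOf W) p) (qq γ p) = ∑ p ∈ P', F (pr (tOf (γ • W)) p) p := by
  refine Finset.sum_bij (fun p _ => qq γ p) ?_ ?_ ?_ ?_
  · intro p hp
    rw [hP', (move hQ γ W hO ((hP p).mp hp)).2]
    exact (hP p).mp hp
  · intro p hp p' hp' h
    have h1 := (move hQ γ W hO ((hP p).mp hp)).1
    have h2 := (move hQ γ W hO ((hP p').mp hp')).1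
    apply lv_inj
    rw [← inv_mulVec γ (lv p), ← inv_mulVec γ (lv p'), h1, h2, h]
  · intro p' hp'
    have hW' : γ⁻¹ • (γ • W) ∈ OO ι s' := by rwa [inv_smul_smul]
    obtain ⟨h1, h2⟩ := move hQ γ⁻¹ (γ • W) hW' ((hP' p').mp hp')
    rw [inv_smul_smul] at h2
    have hm : pr (tOf W) (qq γ⁻¹ p') ≤ s' := by rw [h2]; exact (hP' p').mp hp'
    refine ⟨qq γ⁻¹ p', (hP _).mpr hm, ?_⟩
    apply lv_inj
    rw [← (move hQ γ W hO hm).1, ← h1, mulVec_inv]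
  · intro p hp
    rw [(move hQ γ W hO ((hP p).mp hp)).2]

theorem YY_tOf {s s' : ℝ} {b β : ℝ → ℝ} (hb : Bar s s' b β) (W : HH ι) {P : Finset (ι → ℤ)}
    (hP : ∀ p, p ∈ P ↔ pr (tOf W) p ≤ s') :
    YY b (tOf W) = imv W.1 + ∑ p ∈ P, b (pr (tOf W) p) • sqr p := by
  rw [hb.YY_eq (P := P) fun p hp => (not_le.mp fun h => hp ((hP p).mpr h)).le, coord_inv_tOf]

theorem shp_eq (hFLAT1 : S_FLAT1) {s s' : ℝ} {b β : ℝ → ℝ} (hb : Bar s s' b β) (W : HH ι)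
    (hW : tOf W ∈ RI ι s) {P : Finset (ι → ℤ)} (hP : ∀ p, p ∈ P ↔ pr (tOf W) p ≤ s') :
    (shp b W).1 = W.1 + ∑ p ∈ P, (Complex.I * (b (pr (tOf W) p) : ℂ)) • tv p := by
  rw [((hFLAT1 ι s s' b β hb).2.2.2 W hW).1, YY_tOf hb W hP]
  funext a
  have h := congrFun (cv_rev_imv W.1) a
  simp only [cv, Pi.add_apply, Finset.sum_apply, Pi.smul_apply, smul_eq_mul, tv_eq] at h ⊢
  rw [← h]
  push_cast
  rw [mul_add, Finset.mul_sum, add_assoc]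
  simp only [mul_assoc]

theorem Ph_eq (hFLAT1 : S_FLAT1) {s s' : ℝ} {b β : ℝ → ℝ} (hb : Bar s s' b β) (W : HH ι)
    (hW : tOf W ∈ RI ι s) {P : Finset (ι → ℤ)} (hP : ∀ p, p ∈ P ↔ pr (tOf W) p ≤ s') :
    Ph s b β (imv (shp b W).1) = -Real.log (Ym W).det - ∑ p ∈ P, β (pr (tOf W) p) -
      (Fintype.card ι + ∑ p ∈ P, b (pr (tOf W) p) * pr (tOf W) p) := by
  obtain ⟨h1, -, h3⟩ := (hFLAT1 ι s s' b β hb).2.2.2 W hW
  rw [Ph, h3, h1, imv_cv, YY_tOf hb W hP,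
    hb.BB_eq (P := P) fun p hp => (not_le.mp fun h => hp ((hP p).mpr h)).le, dotProduct_add,
    dot_eq_trace, dm_tOf, ← Ym_eq, nonsing_inv_mul _ (Ym_det_pos W).ne'.isUnit, trace_one,
    det_nonsing_inv, Ring.inverse_eq_inv', Real.log_inv, dotProduct_sum]
  simp only [dotProduct_smul, smul_eq_mul, pr_eq]

end FLAT2

open FLAT2 in
theorem p_FLAT2 (hFLAT1 : S_FLAT1) (hMOV : S_MOV) (hQ : S_Q) (hRYP : S_RYP) (hLEG1 : S_LEG1) :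
    S_FLAT2 := by
  intro ι _ _ s s' b β hb γ Z hZ hO hO'
  have hZ' : γ • Z ∈ HG ι s := by
    intro v hv
    have h := hZ ((γ⁻¹).1 *ᵥ v) (fun h0 => hv (by rw [← mulVec_inv γ v, h0, mulVec_zero]))
    rwa [← (hQ ι).2.2.1 γ, mulVec_inv] at h
  obtain ⟨P, hP⟩ := exP hRYP Z s'
  obtain ⟨P', hP'⟩ := exP hRYP (γ • Z) s'
  have e1 := shp_eq hFLAT1 hb Z (HG.tOf_mem hZ) hP
  have e2 := shp_eq hFLAT1 hb (γ • Z) (HG.tOf_mem hZ') hP'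
  obtain ⟨m1, m2⟩ := (hMOV ι).1 γ P (qq γ) (fun p => Complex.I * (b (pr (tOf Z) p) : ℂ)) Z.1
    fun p hp => (move hQ γ Z hO' ((hP p).mp hp)).1
  have e3 : shp b (γ • Z) = γ • shp b Z := by
    apply Subtype.ext
    rw [e2, smulZ_def γ (shp b Z), smul_val, e1, m2 (jf_ne_zero (toR γ) Z),
      sum_move hQ γ Z hO hO' hP hP' fun x p => (Complex.I * (b x : ℂ)) • tv p]
    rfl
  refine ⟨e3, ?_⟩
  have e4 : jf (toR γ) (shp b Z) = jf (toR γ) Z := by rw [jf, jf, e1, m1]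
  rw [← e3, Ph_eq hFLAT1 hb _ (HG.tOf_mem hZ') hP', Ph_eq hFLAT1 hb _ (HG.tOf_mem hZ) hP, e4,
    ← sum_move hQ γ Z hO hO' hP hP' fun x _ => β x,
    ← sum_move hQ γ Z hO hO' hP hP' fun x _ => b x * x, ← det_Ym_smul (toR γ) Z,
    Real.log_mul (Ym_det_pos _).ne' (pow_ne_zero 2 (norm_ne_zero_iff.mpr (jf_ne_zero _ _))),
    smulZ_def]
  ring

end Pool.Agent.P.MP_59bdab_ag
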