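import Pool.Agent.P.MP_59bdab_ag.IfC

namespace Pool.Agent.P.MP_59bdab_ag

open Matrix MeasureTheory Filter Topology
open scoped ENNReal ContDiff

namespace FLAT3
variable {ι : Type} [Fintype ι] [DecidableEq ι]

theorem mulVec_inv (γ : SpZ ι) (v : ι ⊕ ι → ℤ) : γ.1 *ᵥ ((γ⁻¹).1 *ᵥ v) = v := by
  have h : γ.1 * (γ⁻¹).1 = 1 := congrArg Subtype.val (mul_inv_cancel γ)
  rw [mulVec_mulVec, h, one_mulVec]

theorem qf_nonneg (hQ : S_Q) (Z : HH ι) (v : ι ⊕ ι → ℤ) : 0 ≤ qf (Qm Z) v := by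
  by_cases hv : v = 0
  · subst hv
    have h : cz (0 : ι ⊕ ι → ℤ) = 0 := by funext a; simp [cz]
    simp [qf, h]
  · exact ((hQ ι).2.2.2.2.2.2.2.1 Z v hv).le

theorem key (hFLAT1 : S_FLAT1) (hMOV : S_MOV) (hRYP : S_RYP) {s s' : ℝ} {b β : ℝ → ℝ}
    (hb : Bar s s' b β) (Z : HH ι) (v : ι ⊕ ι → ℤ)
    (hv : ∀ p, b (pr (tOf (flt s b Z)) p) ≠ 0 → om (lv p) v = 0) :
    qf (Qm Z) v ≤ qf (Qm (flt s b Z)) v := by
  obtain ⟨-, h2, h3, -, h5⟩ := (hFLAT1 ι s s' b β hb).2.2.1 Z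
  obtain ⟨P, hP⟩ := (hRYP ι).2.1 {tOf (flt s b Z)} (Set.singleton_subset_iff.mpr (tOf_mem _))
    isCompact_singleton s'
  refine (hMOV ι).2.1 Z (flt s b Z) P (fun p => b (pr (tOf (flt s b Z)) p))
    (fun p => hb.b_pr_nonneg h2 p) h3.symm ?_ v fun p _ hp => hv p hp
  rw [h5, hb.YY_eq (P := P) (hP _ rfl), coord_inv_tOf]

theorem nn_sub (hFLAT1 : S_FLAT1) (hMOV : S_MOV) (hQ : S_Q) (hRYP : S_RYP) {s s' : ℝ}
    {b β : ℝ → ℝ} (hb : Bar s s' b β) : NN ι ⊆ OS ι s s' b := by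
  intro Z hZ
  have hO : flt s b Z ∈ OO ι s' := by
    intro v hv
    by_contra hle
    rw [not_lt] at hle
    have h1 := key hFLAT1 hMOV hRYP hb Z v fun p hp => by
      have h2 : pr (tOf (flt s b Z)) p < s' := not_le.mp fun h => hp (hb.b_zero _ h)
      have h3 := (hQ ι).2.2.2.2.1 (flt s b Z) (lv p) v
      have h4 := qf_nonneg hQ (flt s b Z) v
      have h5 := qf_nonneg hQ (flt s b Z) (lv p)
      rw [pr_tOf] at h2
      have h6 : (om (lv p) v : ℝ) ^ 2 < 1 := by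
        have := hb.lt_one
        nlinarith
      have h7 : om (lv p) v ^ 2 < 1 := by exact_mod_cast h6
      nlinarith [sq_nonneg (om (lv p) v), pow_eq_zero_iff (a := om (lv p) v) (two_ne_zero)]
    have h8 := hZ v hv
    have := hb.lt_one
    linarith
  refine ⟨fun v hv => ?_, hO⟩
  by_cases h : ∃ i, v (Sum.inr i) ≠ 0
  · exact hb.lt.trans (hO v h)
  · push Not at h
    have e := eq_lv h
    have h2 := ((hFLAT1 ι s s' b β hb).2.2.1 Z).2.1 (fun i => v (Sum.inl i)) fun h0 => hv (by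
      rw [e, h0]; funext a; rcases a with a | a <;> simp [lv])
    rwa [pr_tOf, ← e] at h2

theorem lemB (hFLAT1 : S_FLAT1) (hFLAT2 : S_FLAT2) (hMOV : S_MOV) (hISOL : S_ISOL) (hQ : S_Q)
    (hRYP : S_RYP) {s s' : ℝ} {b β : ℝ → ℝ} (hb : Bar s s' b β) (g : SpZ ι) (Z : HH ι)
    (hZ : Z ∈ OS ι s s' b) (hg : g • Z ∈ NN ι) : flt s b (g • Z) = g • flt s b Z := by
  have hO : g • flt s b Z ∈ OO ι s' := by
    intro v hv
    by_contra hle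
    rw [not_lt] at hle
    have h1 : qf (Qm (flt s b Z)) ((g⁻¹).1 *ᵥ v) ≤ s' := by
      rwa [← (hQ ι).2.2.1 g, mulVec_inv]
    have h2 : ∀ i, ((g⁻¹).1 *ᵥ v) (Sum.inr i) = 0 := fun i => by
      by_contra hi
      exact absurd (hZ.2 _ ⟨i, hi⟩) (not_lt.mpr h1)
    have h3 := key hFLAT1 hMOV hRYP hb Z ((g⁻¹).1 *ᵥ v) fun p _ => by
      rw [eq_lv h2]; exact (hMOV ι).2.2.2.2.2 _ _
    have h4 := hg v hv
    rw [← mulVec_inv g v, (hQ ι).2.2.1 g] at h4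
    have := hb.lt_one
    linarith
  have h5 := (hFLAT2 ι s s' b β hb g (flt s b Z) hZ.1 hZ.2 hO).1
  rw [((hFLAT1 ι s s' b β hb).2.2.1 Z).2.2.2.1] at h5
  rw [← h5]
  exact ((hFLAT1 ι s s' b β hb).2.2.2 _
    (HG.tOf_mem (((hISOL ι).2.2.2.2 s g _).mpr hZ.1))).2.1

end FLAT3

open FLAT3 in
theorem p_FLAT3 (hFLAT1 : S_FLAT1) (hFLAT2 : S_FLAT2) (hMOV : S_MOV) (hISOL : S_ISOL) (hQ : S_Q)
    (hRYP : S_RYP) : S_FLAT3 := by
  intro ι _ _ s s' b β hb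
  have hN := nn_sub (ι := ι) hFLAT1 hMOV hQ hRYP hb
  refine ⟨?_, hN, ?_, ?_⟩
  · exact (((hISOL ι).2.2.2.1 s).1.inter ((hISOL ι).2.2.2.1 s').2).preimage
      (hFLAT1 ι s s' b β hb).1
  · intro γ Z hZ hγ
    obtain ⟨g, hg⟩ := (hISOL ι).2.1 Z
    have e0 : (g * γ⁻¹) • γ • Z = g • Z := by rw [mul_smul, inv_smul_smul]
    have h1 := lemB hFLAT1 hFLAT2 hMOV hISOL hQ hRYP hb g Z hZ hg
    have h2 := lemB hFLAT1 hFLAT2 hMOV hISOL hQ hRYP hb (g * γ⁻¹) (γ • Z) hγ (by rwa [e0])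
    rw [e0, h1, mul_smul] at h2
    have h3 : flt s b (γ • Z) = γ • flt s b Z := by
      rw [MulAction.injective g h2, smul_inv_smul]
    refine ⟨h3, ?_⟩
    have h4 := (hFLAT2 ι s s' b β hb γ (flt s b Z) hZ.1 hZ.2 (h3 ▸ hγ.2)).2
    rwa [((hFLAT1 ι s s' b β hb).2.2.1 Z).2.2.2.1] at h4
  · obtain ⟨K, hK, hKc, hK'⟩ := (hISOL ι).2.2.1 s hb.pos
    refine ⟨K, hK, hKc, fun Z => ?_⟩
    obtain ⟨γ, hγ⟩ := (hISOL ι).2.1 Z
    have h1 := hN hγ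
    obtain ⟨γ', hγ'⟩ := hK' (flt s b (γ • Z)) (by
      rintro ⟨v, hv, hlt⟩
      exact absurd (h1.1 v hv) (not_lt.mpr hlt.le))
    have h2 : γ' • flt s b (γ • Z) ∈ HG ι s := ((hISOL ι).2.2.2.2 s γ' _).mpr h1.1
    have h3 := (hFLAT2 ι s s' b β hb γ' (flt s b (γ • Z)) h1.1 h1.2
      (NN_subset hb.lt_one (hK hγ'))).1
    rw [((hFLAT1 ι s s' b β hb).2.2.1 (γ • Z)).2.2.2.1] at h3
    refine ⟨γ' * γ, ?_⟩
    rw [mul_smul, ← h3, ((hFLAT1 ι s s' b β hb).2.2.2 _ (HG.tOf_mem h2)).2.1]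
    exact ⟨hγ', h2⟩

end Pool.Agent.P.MP_59bdab_ag
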