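import Pool.Agent.P.MP_59bdab_ag.IfB

/-! The mean number of frames. -/

namespace Pool.Agent.P.MP_59bdab_ag

open Matrix MeasureTheory Filter Topology
open scoped ENNReal ComplexOrder

namespace FR

variable {ι : Type} [Fintype ι] [DecidableEq ι] {r : ℕ}

theorem enc (T : AddSubgroup (Fin r → ℚ) → Set (Sym2 (Fin r) → ℝ))
    (Q : Matrix (ι ⊕ ι) (ι ⊕ ι) ℝ)
    (h : ∀ v : Fin r → ι ⊕ ι → ℤ, LinearIndependent ℤ v → coord (gram Q v) ∈ T (Lam v) → Iso v) :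
    (({v : Fin r → ι ⊕ ι → ℤ | LinearIndependent ℤ v ∧ coord (gram Q v) ∈ T (Lam v)}.encard :
      ℕ∞) : ℝ≥0∞) = ∑' v : {v : Fin r → ι ⊕ ι → ℤ | LinearIndependent ℤ v ∧ Iso v},
        (T (Lam v.1)).indicator (1 : (Sym2 (Fin r) → ℝ) → ℝ≥0∞) (coord (gram Q v.1)) := by
  classical
  rw [← ENNReal.tsum_set_one, tsum_subtype _ (fun _ => (1 : ℝ≥0∞)),
    tsum_subtype _ (fun v : Fin r → ι ⊕ ι → ℤ =>
      (T (Lam v)).indicator (1 : (Sym2 (Fin r) → ℝ) → ℝ≥0∞) (coord (gram Q v)))]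
  refine tsum_congr fun v => ?_
  simp only [Set.indicator_apply, Set.mem_ofPred_eq, Pi.one_apply]
  by_cases h1 : LinearIndependent ℤ v
  · by_cases h2 : coord (gram Q v) ∈ T (Lam v)
    · simp [h1, h2, h v h1 h2]
    · simp [h2]
  · simp [h1]

theorem cont (hQ : S_Q) (v : Fin r → ι ⊕ ι → ℤ) :
    Continuous fun Z : HH ι => coord (gram (Qm Z) v) :=
  continuous_coord.comp (continuous_pi fun _ => continuous_pi fun _ =>
    continuous_const.dotProduct ((hQ ι).2.2.2.2.2.1.matrix_mulVec continuous_const))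

theorem symm (hQ : S_Q) (Z : HH ι) : (Qm Z).IsSymm := by
  have := ((hQ ι).1 Z).1.1
  rwa [IsHermitian, conjTranspose_eq_transpose_of_trivial] at this

theorem iso (hFRS : S_FRS) (hQ : S_Q) {s : ℝ} (h0 : 0 < s) (h1 : s ≤ 1) (Z : HH ι)
    {v : Fin r → ι ⊕ ι → ℤ} (hv : v ∈ FrC (Qm Z) s r) : Iso v := by
  intro a b
  have h2 := (hFRS _ (Qm Z) s r (symm hQ Z)).2 v hv
  have h3 := (hQ ι).2.2.2.2.1 Z (v a) (v b)
  have h4 : 0 < qf (Qm Z) (v b) := (hQ ι).2.2.2.2.2.2.2.1 Z _ (hv.1.ne_zero b)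
  have h5 : ((om (v a) (v b) : ℤ) : ℝ) ^ 2 < 1 := by nlinarith [h2 a, h2 b]
  have h6 : om (v a) (v b) ^ 2 < 1 := by exact_mod_cast h5
  nlinarith

theorem main (hUNF2 : S_UNF2) (hJAC : S_JAC) (hQ : S_Q) {w : HH ι → ℝ≥0∞}
    (hw : IsWt (SpZ ι) (HH ι) w)
    (C : AddSubgroup (Fin r → ℚ) → Set ({p : Sym2 (Fin r) // ¬ p.IsDiag} → ℝ))
    (S : Set (Fin r → ℝ)) (hC : ∀ L, MeasurableSet (C L)) (hS : MeasurableSet S)
    (hC' : ∀ L, ∀ a ∈ C L, (Gm a).PosDef) (hS' : ∀ s ∈ S, ∀ i, 0 < s i)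
    (h : ∀ (Z : HH ι) (v : Fin r → ι ⊕ ι → ℤ), LinearIndependent ℤ v →
      coord (gram (Qm Z) v) ∈ TriSet (C (Lam v)) S → Iso v) :
    (Measurable fun Z : HH ι => (({v : Fin r → ι ⊕ ι → ℤ | LinearIndependent ℤ v ∧
      coord (gram (Qm Z) v) ∈ TriSet (C (Lam v)) S}.encard : ℕ∞) : ℝ≥0∞)) ∧
    (r ≤ Fintype.card ι → ∫⁻ Z, (({v : Fin r → ι ⊕ ι → ℤ | LinearIndependent ℤ v ∧
      coord (gram (Qm Z) v) ∈ TriSet (C (Lam v)) S}.encard : ℕ∞) : ℝ≥0∞) * w Z ∂μH ι =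
      vol (Fin (Fintype.card ι - r)) * (∑' L : Ov r,
        (((stdL r).relIndex L.1 : ℝ≥0∞) ^ (2 * (Fintype.card ι - r) + r + 1))⁻¹ *
          ∫⁻ a in C L.1, ENNReal.ofReal ((Gm a).det ^ (Fintype.card ι - r + 1))) *
        ∫⁻ s in S, ENNReal.ofReal (∏ i : Fin r, s i ^ (r - 1 - i + (Fintype.card ι - r)))) := by
  have hJ := fun L => hJAC r (Fintype.card ι - r) (C L) S (hC L) hS (hC' L) hS'
  have hm : ∀ L, Measurable ((TriSet (C L) S).indicator (1 : (Sym2 (Fin r) → ℝ) → ℝ≥0∞)) :=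
    fun L => measurable_one.indicator (hJ L).1
  simp only [fun Z => enc (fun L => TriSet (C L) S) (Qm Z) (h Z)]
  refine ⟨Measurable.ennreal_tsum fun v => (hm _).comp (cont hQ v.1).measurable, fun hr => ?_⟩
  rw [hUNF2 ι r w (fun L => (TriSet (C L) S).indicator 1) hr hw hm, mul_assoc,
    ← ENNReal.tsum_mul_right]
  congr 1
  refine tsum_congr fun L => ?_
  rw [mul_assoc, ← (hJ L.1).2.2]
  congr 1
  have e : ∀ q, (TriSet (C L.1) S).indicator (1 : (Sym2 (Fin r) → ℝ) → ℝ≥0∞) q *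
      ENNReal.ofReal ((mat q).det ^ (Fintype.card ι - r)) = (TriSet (C L.1) S).indicator
        (fun q => ENNReal.ofReal ((mat q).det ^ (Fintype.card ι - r))) q := fun q => by
    rw [← Set.indicator_mul_left _ _ (fun q => ENNReal.ofReal ((mat q).det ^
      (Fintype.card ι - r)))]
    simp only [Pi.one_apply, one_mul]
  simp only [e]
  rw [lintegral_indicator (hJ L.1).1, Measure.restrict_restrict (hJ L.1).1,
    Set.inter_eq_left.2 (hJ L.1).2.1]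

end FR

open FR in
theorem p_FR (hUNF2 : S_UNF2) (hJAC : S_JAC) (hSIMP : S_SIMP) (hFINW : S_FINW) (hFRS : S_FRS)
    (hQ : S_Q) (hLAG : S_LAG) : S_FR := by
  intro ι _ _ w s r hw h0 h1
  obtain ⟨s1, s2, s3, s4⟩ := hSIMP r (Fintype.card ι - r) s h0
  have hF := (hFINW r).2.1
  obtain ⟨a1, a2⟩ := main hUNF2 hJAC hQ hw CL (Sc s r) (fun L => (hF L).1) s1 (fun _ _ h => h.1)
    (fun _ h i => (h.1 i).1) fun Z v h2 h3 => iso hFRS hQ h0 h1 Z ⟨h2, h3⟩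
  obtain ⟨b1, b2⟩ := main hUNF2 hJAC hQ hw CLo (So s r) (fun L => (hF L).2.1) s2
    (fun _ _ h => h.1) (fun _ h i => (h.1 i).1) fun Z v h2 h3 =>
      iso hFRS hQ h0 h1 Z ((hFRS _ (Qm Z) s r (symm hQ Z)).1 ⟨h2, h3⟩)
  refine ⟨a1, b1, fun hr Z => Set.eq_empty_of_forall_notMem fun v hv => ?_, fun hr => ?_⟩
  · have := (hLAG ι).2.2.2.2.1 _ v hv.1 (iso hFRS hQ h0 h1 Z hv)
    rw [Fintype.card_fin] at this
    omega
  have a3 := a2 hr
  have b3 := b2 hr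
  rw [s3] at a3
  rw [s4] at b3
  refine ⟨a3, b3.trans (Eq.trans ?_ a3.symm)⟩
  congr 2
  refine tsum_congr fun L => ?_
  congr 1
  refine setLIntegral_congr (ae_eq_set.2 ⟨?_, (hF L.1).2.2.2⟩)
  rw [Set.sdiff_eq_empty.2 (hF L.1).2.2.1, measure_empty]

end Pool.Agent.P.MP_59bdab_ag
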