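import Pool.Agent.P.MP_59bdab_ag.IfA

/-!
Vectors of a closed frame are short.
-/

namespace Pool.Agent.P.MP_59bdab_ag

open Matrix

namespace FRS

theorem gram_symm {n κ : Type} [Fintype n] {Q : Matrix n n ℝ} (hQ : Q.IsSymm) (v : κ → n → ℤ) :
    (gram Q v)ᵀ = gram Q v := by
  ext a b
  simp only [gram, transpose_apply, of_apply]
  rw [dotProduct_mulVec, ← mulVec_transpose, hQ.eq, dotProduct_comm]

theorem diag_entry {r : ℕ} (L : Matrix (Fin r) (Fin r) ℝ) (d : Fin r → ℝ) (a : Fin r) :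
    (L * diagonal d * Lᵀ) a a = ∑ m, L a m ^ 2 * d m := by
  rw [mul_apply]
  refine Finset.sum_congr rfl fun m _ => ?_
  rw [mul_diagonal, transpose_apply]
  ring

theorem val_single {r : ℕ} (G : Matrix (Fin r) (Fin r) ℝ) (i : Fin r) :
    (fun j => ((Pi.single i 1 : Fin r → ℚ) j : ℝ)) ⬝ᵥ G *ᵥ
      (fun j => ((Pi.single i 1 : Fin r → ℚ) j : ℝ)) = G i i := by
  have : (fun j => ((Pi.single i 1 : Fin r → ℚ) j : ℝ)) = Pi.single i 1 := by
    funext j
    by_cases h : j = i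
    · subst h; simp
    · simp [h]
  rw [this]
  simp

theorem clo_sub {r : ℕ} (L : AddSubgroup (Fin r → ℚ)) : CLo L ⊆ CL L := by
  rintro a ⟨h1, h2⟩
  refine ⟨h1, fun y hy h0 => ?_⟩
  by_cases h : ∀ i, y ≠ Pi.single i 1 ∧ y ≠ -Pi.single i 1
  · exact (h2 y hy h0 h).le
  · obtain ⟨i, hi⟩ := not_forall.1 h
    have hv := val_single (Gm a) i
    have hg : Gm a i i = 1 := by simp [Gm]
    rcases not_and_or.1 hi with e | e
    · rw [not_not.1 e, hv, hg]
    · rw [not_not.1 e]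
      have : (fun j => ((-Pi.single i 1 : Fin r → ℚ) j : ℝ)) =
          -fun j => ((Pi.single i 1 : Fin r → ℚ) j : ℝ) := by
        funext j
        simp
      rw [this, mulVec_neg, neg_dotProduct_neg, hv, hg]

end FRS

theorem p_FRS : S_FRS := by
  intro n _ _ Q s0 r hQ
  refine ⟨?_, ?_⟩
  · rintro v ⟨h1, a, ha, s, hs, h2⟩
    exact ⟨h1, a, FRS.clo_sub _ ha, s, ⟨hs.1, hs.2.antitone⟩, h2⟩
  · rintro v ⟨-, b, -, s, hs, L, d, h1, -, hd, hG, hq⟩ a
    rw [mat_coord (FRS.gram_symm hQ v)] at hq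
    have e1 : qf Q (v a) = ∑ m, L a m ^ 2 * (d m * s m) := by
      rw [← FRS.diag_entry, ← hq]; rfl
    have e2 : ∑ m, L a m ^ 2 * d m = 1 := by
      rw [← FRS.diag_entry, ← hG]; simp [Gm]
    rw [e1, ← one_mul s0, ← e2, Finset.sum_mul]
    refine Finset.sum_lt_sum (fun m _ => ?_) ⟨a, Finset.mem_univ _, ?_⟩
    · rw [mul_assoc]
      exact mul_le_mul_of_nonneg_left
        (mul_le_mul_of_nonneg_left (hs.1 m).2.le (hd m).le) (sq_nonneg _)
    · rw [h1, one_pow, one_mul, one_mul]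
      exact mul_lt_mul_of_pos_left (hs.1 a).2 (hd a)

end Pool.Agent.P.MP_59bdab_ag
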