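import Pool.Agent.P.MP_59bdab_ag.IfA

/-!
Laplace asymptotics in the Siegel disc.
-/

namespace Pool.Agent.P.MP_59bdab_ag

open Matrix MeasureTheory Filter Topology
open scoped ENNReal ComplexOrder

namespace GAU

variable {ι : Type} [Fintype ι] [DecidableEq ι]

/-- The squared Frobenius norm. -/
noncomputable def q (ζ : Sym2 ι → ℂ) : ℝ := ∑ i, ∑ j, ‖ζ s(i, j)‖ ^ 2

theorem sum_sym (f : Sym2 ι → ℝ) :
    ∑ i, ∑ j, f s(i, j) = ∑ p, (if p.IsDiag then 1 else 2) * f p := by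
  rw [← Fintype.sum_prod_type', ← Finset.sum_fiberwise Finset.univ fun x : ι × ι => s(x.1, x.2)]
  refine Finset.sum_congr rfl fun p _ => ?_
  rw [Finset.sum_congr rfl fun x hx => congrArg f (Finset.mem_filter.1 hx).2, Finset.sum_const,
    nsmul_eq_mul]
  induction p using Sym2.ind with
  | _ a b =>
    rw [show (Finset.univ.filter fun x : ι × ι => s(x.1, x.2) = s(a, b)) = {(a, b), (b, a)} by
      ext x
      simp [Prod.ext_iff]]
    by_cases h : a = b
    · simp [h]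
    · rw [Finset.card_pair (by simp [h])]
      simp [h]

theorem gauss {b : ℝ} (hb : 0 < b) :
    ∫⁻ ζ : Sym2 ι → ℂ, ENNReal.ofReal (Real.exp (-b * q ζ)) = ENNReal.ofReal
      ((Real.pi / b) ^ tri (Fintype.card ι) / 2 ^ (tri (Fintype.card ι) - Fintype.card ι)) := by
  have h : ∫ ζ : Sym2 ι → ℂ, Real.exp (-b * q ζ) =
      (Real.pi / b) ^ tri (Fintype.card ι) / 2 ^ (tri (Fintype.card ι) - Fintype.card ι) := by
    simp only [q, sum_sym fun p => ‖_‖ ^ 2, Finset.mul_sum, Real.exp_sum, ← mul_assoc, neg_mul]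
    simp only [← neg_mul]
    rw [integral_fintype_prod_volume_eq_prod fun (p : Sym2 ι) (z : ℂ) =>
      Real.exp (-b * (if p.IsDiag then 1 else 2) * ‖z‖ ^ 2)]
    rw [Finset.prod_congr rfl (g := fun p : Sym2 ι => Real.pi / b / if p.IsDiag then 1 else 2)
      fun p _ => by
        rw [neg_mul, GaussianFourier.integral_rexp_neg_mul_sq_norm (by split_ifs <;> positivity)]
        simp [div_div], Finset.prod_div_distrib, Finset.prod_const, Finset.card_univ,
      Finset.prod_ite, Finset.prod_const_one, one_mul, Finset.prod_const, ← Fintype.card_subtype,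
      Fintype.card_subtype_compl, Sym2.card_subtype_diag, card_sym2_eq]
  rw [← h, ofReal_integral_eq_lintegral_ofReal (.of_integral_ne_zero (by rw [h]; positivity))
    (.of_forall fun _ => (Real.exp_pos _).le)]

omit [DecidableEq ι] in
theorem q_smul (c : ℝ) (ζ : Sym2 ι → ℂ) : q (c • ζ) = c ^ 2 * q ζ := by
  simp [q, Finset.mul_sum, mul_pow]

theorem sq (k : ℕ) : (√(k : ℝ))⁻¹ ^ 2 = (k : ℝ)⁻¹ := by
  rw [inv_pow, Real.sq_sqrt k.cast_nonneg]

theorem lim (ζ : Sym2 ι → ℂ) :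
    Tendsto (fun k : ℕ => k * (dd ((√(k : ℝ))⁻¹ • ζ) - 1)) atTop (𝓝 (-q ζ)) := by
  obtain ⟨A, hA⟩ : ∃ A, A = -(mat ζ * (mat ζ)ᴴ) := ⟨_, rfl⟩
  have h1 : A.trace.re = -q ζ := by
    simp [hA, q, trace, mul_apply, Complex.mul_conj, Complex.normSq_eq_norm_sq,
      -Complex.ofReal_pow]
  obtain ⟨P, hP⟩ : ∃ P : Polynomial ℂ, ∀ r : ℂ, (1 + r • A).det = 1 + A.trace * r + P.eval r * r ^ 2 :=
    ⟨_, fun r => det_one_add_smul r A⟩
  have h2 : Tendsto (fun k : ℕ => ((k : ℂ))⁻¹) atTop (𝓝 0) := tendsto_inv_atTop_nhds_zero_nat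
  have h3 := ((by fun_prop : Continuous fun r : ℂ => (A.trace + P.eval r * r).re).tendsto 0).comp h2
  rw [mul_zero, add_zero, h1] at h3
  refine h3.congr' ((eventually_ne_atTop 0).mono fun k hk => ?_)
  have h4 : 1 - mat ((√(k : ℝ))⁻¹ • ζ) * (mat ((√(k : ℝ))⁻¹ • ζ))ᴴ = 1 + ((k : ℂ))⁻¹ • A := by
    rw [show mat ((√(k : ℝ))⁻¹ • ζ) = (√(k : ℝ))⁻¹ • mat ζ from rfl, conjTranspose_smul,
      smul_mul_smul_comm, star_trivial, ← pow_two, sq, hA, smul_neg, ← sub_eq_add_neg,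
      ← Complex.coe_smul]
    simp
  have h5 : (k : ℂ) ≠ 0 := Nat.cast_ne_zero.2 hk
  beta_reduce
  rw [dd, h4, hP, ← Complex.one_re, ← Complex.sub_re, ← Complex.re_ofReal_mul, Function.comp_apply]
  congr 1
  push_cast
  field_simp
  ring

end GAU

theorem p_GAU (hD : S_DISC) : S_GAU := by
  intro ι _ _ ρ h0 h1
  obtain ⟨a1, a2, a3, -⟩ := hD ι
  obtain ⟨g, hg⟩ : ∃ g, g = Fintype.card ι + 1 := ⟨_, rfl⟩
  rw [← hg]
  let F : ℕ → (Sym2 ι → ℂ) → ℝ≥0∞ := fun k =>
    (DD ι ρ).indicator fun ζ => ENNReal.ofReal (dd ζ ^ (k - g))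
  have hF : ∀ k, Measurable (F k) := fun k =>
    (a1.pow _).measurable.ennreal_ofReal.indicator (a2 ρ).measurableSet
  have hs : ∀ c : ℝ, Measurable fun ζ : Sym2 ι → ℂ => c • ζ := fun c => by fun_prop
  have key := tendsto_lintegral_filter_of_dominated_convergence (μ := volume) (l := atTop)
    (F := fun k ζ => F k ((√(k : ℝ))⁻¹ • ζ)) (f := fun ζ => ENNReal.ofReal (Real.exp (-1 * GAU.q ζ)))
    (fun ζ => ENNReal.ofReal (Real.exp (-2⁻¹ * GAU.q ζ)))
    (.of_forall fun k => (hF k).comp (hs _))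
    ((eventually_ge_atTop (2 * g)).mono fun k hk => .of_forall fun ζ => ?_)
    (by rw [GAU.gauss (by norm_num)]; exact ENNReal.ofReal_ne_top) (.of_forall fun ζ => ?_)
  · rw [GAU.gauss one_pos, div_one] at key
    refine key.congr' ((eventually_ne_atTop 0).mono fun k hk => ?_)
    have h2 : (0 : ℝ) < k := by positivity
    beta_reduce
    rw [← lintegral_map (hF k) (hs _), Measure.map_addHaar_smul _ (by positivity),
      lintegral_smul_measure, lintegral_indicator (a2 ρ).measurableSet, smul_eq_mul,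
      Module.finrank_pi_fintype, Finset.sum_const, Finset.card_univ, card_sym2_eq,
      Complex.finrank_real_complex, smul_eq_mul, mul_comm _ 2, pow_mul, GAU.sq, inv_pow, inv_inv,
      abs_of_pos (by positivity), ENNReal.ofReal_pow h2.le, ENNReal.ofReal_natCast]
  · refine Set.indicator_apply_le' (fun h => ENNReal.ofReal_le_ofReal ?_) fun _ => zero_le
    have h2 := (sq_nonneg ρ).trans_lt h.2
    have h3 : dd _ ≤ Real.exp (-GAU.q _) := (a3 _ ⟨h.1, by simpa using h2⟩).2.2.2.2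
    refine (pow_le_pow_left₀ h2.le h3 _).trans ?_
    rw [← Real.exp_nat_mul, Real.exp_le_exp, GAU.q_smul, GAU.sq, Nat.cast_sub (by omega)]
    have h4 : (0 : ℝ) < k := by exact_mod_cast (by omega : 0 < k)
    have h5 : (2 : ℝ) * g ≤ k := by exact_mod_cast hk
    have h6 : 0 ≤ (k : ℝ)⁻¹ * GAU.q ζ := by unfold GAU.q; positivity
    have h7 : GAU.q ζ = k * ((k : ℝ)⁻¹ * GAU.q ζ) := by field_simp
    nlinarith
  · have h2 : Tendsto (fun k : ℕ => (√(k : ℝ))⁻¹ • ζ) atTop (𝓝 0) := by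
      simpa using (tendsto_inv_atTop_zero.comp
        (Real.tendsto_sqrt_atTop.comp tendsto_natCast_atTop_atTop)).smul_const ζ
    have h3 : dd (0 : Sym2 ι → ℂ) = 1 := by simp [dd, mat_zero]
    have h4 := (a1.tendsto 0).comp h2
    have h5 := (Real.tendsto_one_add_pow_exp_of_tendsto (GAU.lim ζ)).div (h4.pow g) (by simp [h3])
    rw [h3, one_pow, div_one, ← neg_one_mul] at h5
    refine (ENNReal.tendsto_ofReal h5).congr' ?_
    filter_upwards [eventually_ge_atTop g, h2.eventually ((a2 ρ).mem_nhds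
      ⟨by simpa [mat_zero] using PosDef.one, by rw [h3]; nlinarith⟩)] with k e1 e2
    simp only [F, Pi.div_apply, add_sub_cancel, Function.comp_apply]
    rw [Set.indicator_of_mem (s := DD ι ρ) e2, pow_sub₀ _ ((sq_nonneg ρ).trans_lt e2.2).ne' e1, div_eq_mul_inv]

end Pool.Agent.P.MP_59bdab_ag
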