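import Pool.Agent.P.MP_59bdab_ag.IfC

namespace Pool.Agent.P.MP_59bdab_ag

open Matrix

namespace GRD

variable {κ : Type} [Fintype κ]

noncomputable def tm (η y l : κ → ℝ) : ℝ := (l ⬝ᵥ η) ^ 2 / (1 + (l ⬝ᵥ y) ^ 2)

theorem tm_nonneg (η y l : κ → ℝ) : 0 ≤ tm η y l := by unfold tm; positivity

theorem tm_mul (η y l : κ → ℝ) : (l ⬝ᵥ η) ^ 2 = tm η y l * (1 + (l ⬝ᵥ y) ^ 2) := by
  unfold tm; field_simp

theorem cs (x y : κ → ℝ) : (x ⬝ᵥ y) ^ 2 ≤ (x ⬝ᵥ x) * (y ⬝ᵥ y) := by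
  simpa [dotProduct, sq] using Finset.sum_mul_sq_le_sq_mul_sq Finset.univ x y

theorem self_nonneg (x : κ → ℝ) : 0 ≤ x ⬝ᵥ x :=
  Finset.sum_nonneg fun _ _ => mul_self_nonneg _

theorem dot_le (l y : κ → ℝ) {M : ℝ} (h : ‖y‖ ≤ M) : |l ⬝ᵥ y| ≤ (∑ a, |l a|) * M := by
  rw [Finset.sum_mul]
  refine (Finset.abs_sum_le_sum_abs _ _).trans (Finset.sum_le_sum fun a _ => ?_)
  rw [abs_mul]
  exact mul_le_mul_of_nonneg_left ((norm_le_pi_norm y a).trans h) (abs_nonneg _)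

def Est {I : Type} (s : Finset I) (v : I → κ → ℝ) (M : ℝ) (Q : (I → ℝ) → Prop) : Prop :=
  ∃ (L : Finset (κ → ℝ)) (C : ℝ), 0 ≤ C ∧
    ∀ (b : I → ℝ) (y₀ η S : κ → ℝ), (∀ i, 0 ≤ b i) → Q b → ‖y₀‖ ≤ M → (η ⬝ᵥ S) ^ 2 ≤
      C * (∑ l ∈ L, tm η (y₀ + ∑ i ∈ s, b i • v i) l) *
        (S ⬝ᵥ S + ∑ i ∈ s, b i ^ 2 * (v i ⬝ᵥ S) ^ 2)

theorem base {I : Type} (v : I → κ → ℝ) (M : ℝ) : Est ∅ v M fun _ => True := by
  classical
  refine ⟨Finset.univ.image fun a => Pi.single a 1, 1 + M ^ 2, by positivity,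
    fun b y η S _ _ hy => ?_⟩
  simp only [Finset.sum_empty, add_zero]
  refine (cs η S).trans (mul_le_mul_of_nonneg_right ?_ (self_nonneg S))
  rw [Finset.sum_image fun a _ a' _ h => by
    by_contra hne
    simpa [hne] using congrFun h a, Finset.mul_sum]
  refine Finset.sum_le_sum fun a _ => ?_
  have h1 := tm_mul η y (Pi.single a 1)
  have h2 := tm_nonneg η y (Pi.single a 1)
  have h3 : |y a| ≤ M := (norm_le_pi_norm y a).trans hy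
  have h4 : y a ^ 2 ≤ M ^ 2 := sq_le_sq' (abs_le.1 h3).1 (abs_le.1 h3).2
  simp only [single_dotProduct, one_mul] at h1
  nlinarith

theorem step {I : Type} [DecidableEq I] {s : Finset I} {i₀ : I} (hi : i₀ ∈ s) (v : I → κ → ℝ)
    (M : ℝ) (ih : ∀ (v : I → κ → ℝ) (M : ℝ), Est (s.erase i₀) v M fun _ => True) :
    Est s v M fun b => ∀ i ∈ s, b i ≤ b i₀ := by
  classical
  obtain ⟨l, hl⟩ : ∃ l : κ → ℝ, (l ⬝ᵥ v i₀) • v i₀ = v i₀ := by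
    by_cases h : v i₀ = 0
    · exact ⟨0, by simp [h]⟩
    · refine ⟨(v i₀ ⬝ᵥ v i₀)⁻¹ • v i₀, ?_⟩
      rw [smul_dotProduct, smul_eq_mul, inv_mul_cancel₀ (by simpa using h), one_smul]
  have hl' : ∀ S, (l ⬝ᵥ v i₀) * (v i₀ ⬝ᵥ S) = v i₀ ⬝ᵥ S := fun S => by
    rw [← smul_eq_mul, ← smul_dotProduct, hl]
  set c2 := (∑ a, |l a|) * M with hc2
  obtain ⟨L, C, hC, H⟩ := ih (fun i => v i - (l ⬝ᵥ v i) • v i₀) (M + c2 * ‖v i₀‖)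
  set c3 := ∑ i ∈ s, |l ⬝ᵥ v i| with hc3
  set c4 := (1 + 2 * c2 ^ 2) * (v i₀ ⬝ᵥ v i₀) + 2 * c3 ^ 2 with hc4
  set c5 := 2 + 2 * ((v i₀ ⬝ᵥ v i₀) * (l ⬝ᵥ l)) + 2 * ∑ i ∈ s.erase i₀, (l ⬝ᵥ v i) ^ 2 with hc5
  have p0 := self_nonneg (v i₀)
  have p1 := self_nonneg l
  have p4 : 0 ≤ c4 := by positivity
  have p5 : 0 ≤ c5 := by positivity
  refine ⟨insert l (L.image fun u => u - (v i₀ ⬝ᵥ u) • l), 2 * c4 + 2 * (C * L.card * c5),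
    by positivity, fun b y η S hb hm hy => ?_⟩
  have k1 := dot_le l y hy
  have H1 := H b (y - (l ⬝ᵥ y) • v i₀) (η - (l ⬝ᵥ η) • v i₀) (S - (v i₀ ⬝ᵥ S) • l) hb trivial (by
    refine (norm_sub_le _ _).trans (add_le_add hy ?_)
    rw [norm_smul]
    exact mul_le_mul_of_nonneg_right k1 (norm_nonneg _))
  have key : ∀ x, (x - (l ⬝ᵥ x) • v i₀) ⬝ᵥ (S - (v i₀ ⬝ᵥ S) • l) =
      x ⬝ᵥ S - (l ⬝ᵥ x) * (v i₀ ⬝ᵥ S) := fun x => by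
    simp only [sub_dotProduct, dotProduct_sub, smul_dotProduct, dotProduct_smul, smul_eq_mul,
      dotProduct_comm x l, dotProduct_comm (v i₀) l]
    linear_combination (l ⬝ᵥ x) * hl' S
  set Y := y + ∑ i ∈ s, b i • v i with hY
  have k2 : l ⬝ᵥ Y = l ⬝ᵥ y + ∑ i ∈ s, b i * (l ⬝ᵥ v i) := by
    simp [hY, dotProduct_sum]
  have k3 : y - (l ⬝ᵥ y) • v i₀ + ∑ i ∈ s.erase i₀, b i • (v i - (l ⬝ᵥ v i) • v i₀) =
      Y - (l ⬝ᵥ Y) • v i₀ := by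
    rw [Finset.sum_erase _ (by rw [hl, sub_self, smul_zero]), k2, hY]
    simp only [smul_sub, Finset.sum_sub_distrib, add_smul, Finset.sum_smul, mul_smul]
    abel
  have k4 : ∀ u x : κ → ℝ, u ⬝ᵥ (x - (l ⬝ᵥ x) • v i₀) = (u - (v i₀ ⬝ᵥ u) • l) ⬝ᵥ x := fun u x => by
    simp only [sub_dotProduct, dotProduct_sub, smul_dotProduct, dotProduct_smul, smul_eq_mul,
      dotProduct_comm u (v i₀)]
    ring
  simp only [k3, key, tm, k4] at H1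
  set A := ∑ u ∈ insert l (L.image fun u => u - (v i₀ ⬝ᵥ u) • l), tm η Y u with hA
  set E := S ⬝ᵥ S + ∑ i ∈ s, b i ^ 2 * (v i ⬝ᵥ S) ^ 2 with hE
  have a1 : ∀ u ∈ insert l (L.image fun u => u - (v i₀ ⬝ᵥ u) • l), tm η Y u ≤ A := fun u hu =>
    Finset.single_le_sum (fun u _ => tm_nonneg η Y u) hu
  have a0 : 0 ≤ A := Finset.sum_nonneg fun u _ => tm_nonneg η Y u
  have a2 : ∑ u ∈ L, tm η Y (u - (v i₀ ⬝ᵥ u) • l) ≤ L.card * A := by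
    rw [← nsmul_eq_mul]
    exact Finset.sum_le_card_nsmul _ _ _ fun u hu =>
      a1 _ (Finset.mem_insert_of_mem (Finset.mem_image_of_mem _ hu))
  have s0 := self_nonneg S
  have e0 : 0 ≤ ∑ i ∈ s.erase i₀, b i ^ 2 * (v i ⬝ᵥ S) ^ 2 := by positivity
  have e1 : E = S ⬝ᵥ S + (b i₀ ^ 2 * (v i₀ ⬝ᵥ S) ^ 2 +
      ∑ i ∈ s.erase i₀, b i ^ 2 * (v i ⬝ᵥ S) ^ 2) := by
    rw [hE, Finset.add_sum_erase _ (fun i => b i ^ 2 * (v i ⬝ᵥ S) ^ 2) hi]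
  have e2 : 0 ≤ b i₀ ^ 2 * (v i₀ ⬝ᵥ S) ^ 2 := by positivity
  have c0 := cs (v i₀) S
  have e3 : (S - (v i₀ ⬝ᵥ S) • l) ⬝ᵥ (S - (v i₀ ⬝ᵥ S) • l) ≤
      2 * (S ⬝ᵥ S) + 2 * ((v i₀ ⬝ᵥ v i₀) * (l ⬝ᵥ l)) * E := by
    have h1 := self_nonneg (S + (v i₀ ⬝ᵥ S) • l)
    have h2 := mul_le_mul_of_nonneg_right (c0.trans (mul_le_mul_of_nonneg_left
      (show S ⬝ᵥ S ≤ E by linarith) p0)) p1
    simp only [sub_dotProduct, dotProduct_sub, add_dotProduct, dotProduct_add, smul_dotProduct,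
      dotProduct_smul, smul_eq_mul] at h1 ⊢
    linarith
  have e4 : ∑ i ∈ s.erase i₀, b i ^ 2 * (v i ⬝ᵥ S - (l ⬝ᵥ v i) * (v i₀ ⬝ᵥ S)) ^ 2 ≤
      2 * ∑ i ∈ s.erase i₀, b i ^ 2 * (v i ⬝ᵥ S) ^ 2 +
        2 * (∑ i ∈ s.erase i₀, (l ⬝ᵥ v i) ^ 2) * E := by
    rw [Finset.mul_sum, mul_assoc, Finset.sum_mul, Finset.mul_sum, ← Finset.sum_add_distrib]
    refine Finset.sum_le_sum fun i hi' => ?_
    have h1 : b i ^ 2 ≤ b i₀ ^ 2 :=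
      pow_le_pow_left₀ (hb i) (hm i (Finset.mem_of_mem_erase hi')) 2
    have h2 : b i ^ 2 * (v i₀ ⬝ᵥ S) ^ 2 ≤ E :=
      (mul_le_mul_of_nonneg_right h1 (sq_nonneg _)).trans (by linarith)
    have h3 := mul_le_mul_of_nonneg_left h2 (sq_nonneg (l ⬝ᵥ v i))
    have h4 := mul_nonneg (sq_nonneg (b i)) (sq_nonneg (v i ⬝ᵥ S + (l ⬝ᵥ v i) * (v i₀ ⬝ᵥ S)))
    linarith
  have x2 : (η ⬝ᵥ S - (l ⬝ᵥ η) * (v i₀ ⬝ᵥ S)) ^ 2 ≤ C * L.card * c5 * A * E := by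
    refine H1.trans ?_
    rw [show C * L.card * c5 * A * E = C * (L.card * A) * (c5 * E) by ring]
    refine mul_le_mul (mul_le_mul_of_nonneg_left a2 hC) ?_ ?_ (by positivity)
    · rw [hc5]; linarith
    · exact add_nonneg (self_nonneg _) (by positivity)
  have y1 : |l ⬝ᵥ Y| ≤ c2 + c3 * b i₀ := by
    rw [k2, hc3, Finset.sum_mul]
    refine (abs_add_le _ _).trans (add_le_add k1 ((Finset.abs_sum_le_sum_abs _ _).trans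
      (Finset.sum_le_sum fun i hi' => ?_)))
    rw [abs_mul, abs_of_nonneg (hb i), mul_comm]
    exact mul_le_mul_of_nonneg_left (hm i hi') (abs_nonneg _)
  have y2 : (l ⬝ᵥ Y) ^ 2 ≤ 2 * c2 ^ 2 + 2 * c3 ^ 2 * b i₀ ^ 2 := by
    have := sq_le_sq' (abs_le.1 y1).1 (abs_le.1 y1).2
    nlinarith [sq_nonneg (c2 - c3 * b i₀)]
  have y3 : (1 + (l ⬝ᵥ Y) ^ 2) * (v i₀ ⬝ᵥ S) ^ 2 ≤ c4 * E := by
    have h1 := mul_le_mul_of_nonneg_right y2 (sq_nonneg (v i₀ ⬝ᵥ S))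
    have h2 := mul_le_mul_of_nonneg_left (c0.trans (mul_le_mul_of_nonneg_left
      (show S ⬝ᵥ S ≤ E by linarith) p0)) (show 0 ≤ 1 + 2 * c2 ^ 2 by positivity)
    have h3 := mul_le_mul_of_nonneg_left (show b i₀ ^ 2 * (v i₀ ⬝ᵥ S) ^ 2 ≤ E by linarith)
      (show 0 ≤ 2 * c3 ^ 2 by positivity)
    rw [hc4]; linarith
  have x1 : ((l ⬝ᵥ η) * (v i₀ ⬝ᵥ S)) ^ 2 ≤ c4 * A * E := by
    rw [mul_pow, tm_mul η Y l, mul_assoc, show c4 * A * E = A * (c4 * E) by ring]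
    exact mul_le_mul (a1 l (Finset.mem_insert_self _ _)) y3 (by positivity) a0
  nlinarith [sq_nonneg (η ⬝ᵥ S - 2 * ((l ⬝ᵥ η) * (v i₀ ⬝ᵥ S)))]

theorem all {I : Type} (s : Finset I) : ∀ (v : I → κ → ℝ) (M : ℝ), Est s v M fun _ => True := by
  classical
  induction s using Finset.strongInduction with
  | H s ih =>
  intro v M
  rcases s.eq_empty_or_nonempty with rfl | hs
  · exact base v M
  choose! L C hC H using fun i (hi : i ∈ s) => step hi v M (ih _ (Finset.erase_ssubset hi))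
  refine ⟨s.biUnion L, ∑ i ∈ s, C i, Finset.sum_nonneg hC, fun b y η S hb _ hy => ?_⟩
  obtain ⟨i, hi, hm⟩ := Finset.exists_max_image s b hs
  refine (H i hi b y η S hb hm hy).trans (mul_le_mul_of_nonneg_right (mul_le_mul
    (Finset.single_le_sum hC hi) (Finset.sum_le_sum_of_subset_of_nonneg
      (Finset.subset_biUnion_of_mem L hi) fun u _ _ => tm_nonneg _ _ u)
    (Finset.sum_nonneg fun u _ => tm_nonneg _ _ u) (Finset.sum_nonneg hC))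
    (add_nonneg (self_nonneg S) (by positivity)))

end GRD

theorem p_GRD : S_GRD := fun _ _ _ _ s v M =>
  let ⟨L, C, hC, H⟩ := GRD.all s v M
  ⟨L, C, hC, fun b y η S hb hy => H b y η S hb trivial hy⟩

end Pool.Agent.P.MP_59bdab_ag
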