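import Pool.Agent.P.MP_59bdab_ag.IfA

/-! Hermite reduction. -/

namespace Pool.Agent.P.MP_59bdab_ag

open Matrix

namespace HERM

/-- The statement for one index type. -/
def H (n : Type) [Fintype n] [DecidableEq n] : Prop := ∀ s Δ : ℝ, 0 < s →
    ∃ C : ℝ, ∀ Q : Matrix n n ℝ, Q.PosDef → Q.det ≤ Δ → (∀ v : n → ℤ, v ≠ 0 → s ≤ qf Q v) →
      ∃ U : Matrix n n ℤ, IsUnit U.det ∧ ∀ j, qf Q (fun i => U i j) ≤ C

variable {α β : Type} [Fintype α] [DecidableEq α] [Fintype β] [DecidableEq β]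

omit [DecidableEq α] [DecidableEq β] in
theorem qf_sub (e : α ≃ β) (Q : Matrix β β ℝ) (v : α → ℤ) :
    qf (Q.submatrix e e) v = qf Q (v ∘ e.symm) := by
  simp only [qf, dotProduct, mulVec, cz, submatrix_apply, Function.comp]
  rw [← e.sum_comp]
  refine Finset.sum_congr rfl fun i _ => ?_
  rw [← e.sum_comp]
  simp

theorem H.equiv (e : α ≃ β) (h : H α) : H β := by
  intro s Δ hs
  obtain ⟨C, hC⟩ := h s Δ hs
  refine ⟨C, fun Q hQ hd hm => ?_⟩
  obtain ⟨U, hU, hU'⟩ := hC (Q.submatrix e e) (hQ.submatrix e.injective)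
    (by rwa [det_submatrix_equiv_self]) fun v hv => by
      rw [qf_sub]
      exact hm _ fun h0 => hv (funext fun i => by simpa using congrFun h0 (e i))
  refine ⟨U.submatrix e.symm e.symm, by rwa [det_submatrix_equiv_self], fun j => ?_⟩
  have := hU' (e.symm j)
  rwa [qf_sub] at this

theorem schur {Q : Matrix (Unit ⊕ α) (Unit ⊕ α) ℝ} (hQ : Q.PosDef) :
    ∃ (b : α → ℝ) (Q' : Matrix α α ℝ), Q'.PosDef ∧ Q (.inl ()) (.inl ()) * Q'.det = Q.det ∧
      ∀ x y, Sum.elim (fun _ => x) y ⬝ᵥ Q *ᵥ Sum.elim (fun _ => x) y =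
        Q (.inl ()) (.inl ()) * (x + b ⬝ᵥ y) ^ 2 + y ⬝ᵥ Q' *ᵥ y := by
  have ha : 0 < Q (.inl ()) (.inl ()) := hQ.diag_pos
  have hs : ∀ i j, Q i j = Q j i := fun i j => by simpa using hQ.1.apply j i
  obtain ⟨a, e⟩ : ∃ a, a = Q (.inl ()) (.inl ()) := ⟨_, rfl⟩
  rw [← e] at ha ⊢
  let b : α → ℝ := fun i => Q (.inl ()) (.inr i) / a
  let Q' : Matrix α α ℝ := of fun i j => Q (.inr i) (.inr j) - a * (b i * b j)
  have hb : ∀ i, Q (.inl ()) (.inr i) = a * b i := fun i => (mul_div_cancel₀ _ ha.ne').symm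
  have key : ∀ x y, Sum.elim (fun _ => x) y ⬝ᵥ Q *ᵥ Sum.elim (fun _ => x) y =
      a * (x + b ⬝ᵥ y) ^ 2 + y ⬝ᵥ Q' *ᵥ y := by
    intro x y
    have h1 : ∀ i, ∑ j, (Q (.inr i) (.inr j) - a * (b i * b j)) * y j =
        ∑ j, Q (.inr i) (.inr j) * y j - a * b i * ∑ j, b j * y j := fun i => by
      rw [Finset.mul_sum, ← Finset.sum_sub_distrib]
      exact Finset.sum_congr rfl fun j _ => by ring
    have h2 : ∑ i, y i * (a * b i * x + ∑ j, Q (.inr i) (.inr j) * y j) -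
        ∑ i, y i * (∑ j, Q (.inr i) (.inr j) * y j - a * b i * ∑ j, b j * y j) =
        a * (x + ∑ j, b j * y j) * ∑ j, b j * y j := by
      rw [← Finset.sum_sub_distrib, Finset.mul_sum]
      exact Finset.sum_congr rfl fun j _ => by ring
    have h3 : ∑ j, a * b j * y j = a * ∑ j, b j * y j := by
      rw [Finset.mul_sum]
      exact Finset.sum_congr rfl fun j _ => by ring
    simp only [dotProduct, mulVec, Fintype.sum_sum_type, Finset.univ_unique, Finset.sum_singleton,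
      Sum.elim_inl, Sum.elim_inr, Q', of_apply, PUnit.default_eq_unit, ← e,
      hs (.inr _) (.inl ()), hb, h1, h3]
    linear_combination h2
  refine ⟨b, Q', PosDef.of_dotProduct_mulVec_pos ?_ fun y hy => ?_, ?_, key⟩
  · ext i j
    simp [Q', hs (.inr i) (.inr j), mul_comm]
  · have := hQ.dotProduct_mulVec_pos (x := Sum.elim (fun _ => -(b ⬝ᵥ y)) y)
      fun h0 => hy (funext fun i => congrFun h0 (.inr i))
    rw [star_trivial, key] at this
    simpa using this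
  · have h1 : Q = fromBlocks 1 0 (of fun i _ => b i) 1 *
        fromBlocks (of fun _ _ => a) (of fun _ j => a * b j) 0 Q' := by
      rw [fromBlocks_multiply]
      ext (i | i) (j | j)
      · simp [e]
      · simp [hb]
      · simp [mul_apply, hs (.inr _) (.inl ()), hb, mul_comm]
      · simp [mul_apply, Q']
    rw [h1, det_mul, det_fromBlocks_zero₁₂, det_fromBlocks_zero₂₁]
    simp

omit [DecidableEq α] in
theorem qf_mul (Q : Matrix α α ℝ) (U : Matrix α α ℤ) (v : α → ℤ) :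
    qf ((U.map (Int.castRingHom ℝ))ᵀ * Q * U.map (Int.castRingHom ℝ)) v = qf Q (U *ᵥ v) := by
  have : cz (U *ᵥ v) = U.map (Int.castRingHom ℝ) *ᵥ cz v :=
    funext fun i => by simp [cz, mulVec, dotProduct]
  rw [qf, qf, this, ← mulVec_mulVec, ← mulVec_mulVec, dotProduct_mulVec, vecMul_transpose]

omit [DecidableEq α] in
theorem qf_smul (Q : Matrix α α ℝ) (c : ℤ) (v : α → ℤ) : qf Q (c • v) = (c : ℝ) ^ 2 * qf Q v := by
  have : cz (c • v) = (c : ℝ) • cz v := funext fun i => by simp [cz]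
  rw [qf, qf, this, mulVec_smul, smul_dotProduct, dotProduct_smul, smul_eq_mul, smul_eq_mul]
  ring

theorem short (hEXT : S_EXT) (i₀ : α) {Q : Matrix α α ℝ} {s : ℝ} (hs : 0 < s)
    (hm : ∀ v : α → ℤ, v ≠ 0 → s ≤ qf Q v) : ∃ U : Matrix α α ℤ, IsUnit U.det ∧
      ∀ v : α → ℤ, v ≠ 0 → qf Q (U *ᵥ Pi.single i₀ 1) ≤ 2 * qf Q v := by
  have hne : (qf Q '' {v | v ≠ 0}).Nonempty :=
    ⟨_, Pi.single i₀ 1, fun h => by simpa using congrFun h i₀, rfl⟩
  have hb : s ∈ lowerBounds (qf Q '' {v | v ≠ 0}) := by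
    rintro _ ⟨v, hv, rfl⟩
    exact hm v hv
  have h1 := le_csInf hne hb
  obtain ⟨_, ⟨u, hu, rfl⟩, h2⟩ := exists_lt_of_csInf_lt hne
    (show sInf (qf Q '' {v | v ≠ 0}) < 2 * sInf (qf Q '' {v | v ≠ 0}) by linarith)
  obtain ⟨⟨c, p⟩, hp, rfl⟩ := (hEXT α).2.2.2.2.surjOn hu
  obtain ⟨U, hU, hU'⟩ := (hEXT α).1 (Fin 1) (fun _ => p) ⟨fun _ => i₀, fun _ _ _ =>
    Subsingleton.elim _ _⟩ hp
  refine ⟨U, hU, fun v hv => ?_⟩
  have h3 : U *ᵥ Pi.single i₀ 1 = p := funext fun i => by simpa using hU' 0 i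
  have h4 := csInf_le ⟨s, hb⟩ (Set.mem_image_of_mem (qf Q) hv)
  have h5 : 0 < qf Q p := hs.trans_le (hm p fun h => hu (by simp [h]))
  have h6 : (1 : ℝ) ≤ (((c + 1 : ℕ) : ℤ) : ℝ) ^ 2 := by exact_mod_cast Nat.one_le_pow _ _ c.succ_pos
  simp only [qf_smul] at h2
  rw [h3]
  nlinarith

theorem H.step (hEXT : S_EXT) (h : H α) : H (Unit ⊕ α) := by
  intro s Δ hs
  obtain ⟨C, hC⟩ := h (s / 2) (Δ / s) (by positivity)
  refine ⟨|Δ| + 5 * |C|, fun Q hQ hd hm => ?_⟩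
  obtain ⟨U, hU, hU'⟩ := short hEXT (Sum.inl ()) hs hm
  have hdet : (U.map (Int.castRingHom ℝ)).det ^ 2 = 1 := by
    rw [← RingHom.mapMatrix_apply, ← RingHom.map_det, ← map_pow]
    rcases Int.isUnit_iff.1 hU with h | h <;> simp [h]
  have hinj : ∀ v, v ≠ 0 → U *ᵥ v ≠ 0 := fun v hv h0 =>
    hv (mulVec_injective_of_isUnit ((isUnit_iff_isUnit_det U).2 hU) (by simpa using h0))
  obtain ⟨Q1, e⟩ : ∃ Q1, Q1 = (U.map (Int.castRingHom ℝ))ᵀ * Q * U.map (Int.castRingHom ℝ) :=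
    ⟨_, rfl⟩
  have p1 : Q1.PosDef := by
    rw [e, ← conjTranspose_eq_transpose_of_trivial]
    exact hQ.conjTranspose_mul_mul_same (mulVec_injective_of_isUnit
      ((isUnit_iff_isUnit_det _).2 (IsUnit.of_pow_eq_one hdet two_ne_zero)))
  have d1 : Q1.det = Q.det := by
    rw [e, det_mul, det_mul, det_transpose]
    linear_combination Q.det * hdet
  have q1 : ∀ v, qf Q1 v = qf Q (U *ᵥ v) := fun v => by rw [e, qf_mul]
  obtain ⟨b, Q', p2, d2, key⟩ := schur p1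
  obtain ⟨a, ea⟩ : ∃ a, a = Q1 (.inl ()) (.inl ()) := ⟨_, rfl⟩
  rw [← ea] at d2 key
  have a1 : qf Q1 (Pi.single (.inl ()) 1) = a := by
    have : cz (Pi.single (.inl ()) 1 : Unit ⊕ α → ℤ) = Pi.single (.inl ()) 1 :=
      funext fun i => by simp [cz, Pi.single_apply]
    simp [qf, this, ea]
  have a2 : s ≤ a := by
    rw [← a1, q1]
    exact hm _ (hinj _ fun h => by simpa using congrFun h (.inl ()))
  have a3 : ∀ y : α → ℤ, qf Q1 (Sum.elim (fun _ => -round (b ⬝ᵥ cz y)) y) ≤ a / 4 + qf Q' y := by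
    intro y
    have h1 : cz (Sum.elim (fun _ : Unit => -round (b ⬝ᵥ cz y)) y) =
        Sum.elim (fun _ => -(round (b ⬝ᵥ cz y) : ℝ)) (cz y) := by
      ext (i | i) <;> simp [cz]
    have h2 := abs_le.1 (abs_sub_round (b ⬝ᵥ cz y))
    have h3 : (-(round (b ⬝ᵥ cz y) : ℝ) + b ⬝ᵥ cz y) ^ 2 ≤ 1 / 4 := by nlinarith [h2.1, h2.2]
    rw [qf, h1, key, qf]
    nlinarith
  have a4 : ∀ y : α → ℤ, y ≠ 0 → a ≤ 4 * qf Q' y ∧ s / 2 ≤ qf Q' y := by
    intro y hy
    have h0 := hinj (Sum.elim (fun _ => -round (b ⬝ᵥ cz y)) y)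
      fun h => hy (funext fun i => congrFun h (.inr i))
    have h1 := hU' _ h0
    have h2 := hm _ h0
    have h3 := a3 y
    rw [← q1, ← q1, a1] at h1
    rw [← q1] at h2
    constructor <;> linarith
  obtain ⟨V, hV, hV'⟩ := hC Q' p2 (by
    rw [le_div_iff₀ hs]
    nlinarith [p2.det_pos]) fun y hy => (a4 y hy).2
  have c1 := le_abs_self C
  have c2 := le_abs_self Δ
  have c3 := abs_nonneg C
  have c4 := abs_nonneg Δ
  have a5 : a ≤ |Δ| + 4 * |C| := by
    rcases isEmpty_or_nonempty α with h | ⟨⟨j⟩⟩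
    · rw [det_isEmpty] at d2
      linarith
    · have := (a4 (fun i => V i j) fun h0 => hV.ne_zero
        (det_eq_zero_of_column_eq_zero j fun i => congrFun h0 i)).1
      linarith [hV' j]
  refine ⟨U * fromBlocks 1 (of fun _ j => -round (b ⬝ᵥ cz fun i => V i j)) 0 V, ?_, fun j => ?_⟩
  · rw [det_mul, det_fromBlocks_zero₂₁, det_one, one_mul]
    exact hU.mul hV
  · have h1 : ∀ W : Matrix (Unit ⊕ α) (Unit ⊕ α) ℤ,
        (fun i => (U * W) i j) = U *ᵥ fun i => W i j := fun W => rfl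
    rw [h1, ← q1]
    rcases j with j | j
    · refine le_trans (le_of_eq (Eq.trans (congrArg _ ?_) a1)) (by linarith)
      ext (i | i) <;> simp
    · refine le_trans (le_of_eq (congrArg _ ?_)) ((a3 fun i => V i j).trans (by linarith [hV' j]))
      ext (i | i) <;> simp

end HERM

open HERM in
theorem p_HERM (hEXT : S_EXT) : S_HERM := by
  have key : ∀ k : ℕ, H (Fin k) := by
    intro k
    induction k with
    | zero => exact fun s Δ _ => ⟨0, fun Q _ _ _ => ⟨1, by simp, fun j => j.elim0⟩⟩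
    | succ k ih => exact (ih.step hEXT).equiv (Fintype.equivFinOfCardEq (by simp [add_comm]))
  exact fun n _ _ => (key _).equiv (Fintype.equivFin n).symm

end Pool.Agent.P.MP_59bdab_ag
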