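import Pool.Agent.P.MP_59bdab_ag.IfB

namespace Pool.Agent.P.MP_59bdab_ag

open Matrix MeasureTheory Filter Topology
open scoped ENNReal

theorem p_IK (hGAU : S_GAU) (hDISC : S_DISC) (hCAY : S_CAY) (hCAYM : S_CAYM) (hDL : S_DL)
    (hMEAS : S_MEAS) : S_IK := by
  intro ι _ _
  obtain ⟨-, -, -, d1, -, d2, d3, d4, d5, -⟩ := hDL ι
  obtain ⟨c1, c2, c3, -⟩ := hDISC ι
  have hc : ∀ W : HH ι, Continuous fun Z => dl Z W := fun W =>
    d4.comp (continuous_id.prodMk continuous_const)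
  have ho : ∀ ρ (W : HH ι), IsOpen {Z | ρ < dl Z W} := fun ρ W => isOpen_lt continuous_const (hc W)
  have hm : ∀ (k : ℕ) (W : HH ι), Measurable fun Z => ENNReal.ofReal (dl Z W ^ (2 * k)) :=
    fun k W => ((hc W).pow _).measurable.ennreal_ofReal
  have key : ∀ (k : ℕ) (ρ : ℝ), 0 ≤ ρ → Fintype.card ι + 1 ≤ k → Ik ι k ρ =
      4 ^ tri (Fintype.card ι) *
        ∫⁻ ζ in DD ι ρ, ENNReal.ofReal (dd ζ ^ (k - (Fintype.card ι + 1))) := by
    intro k ρ hρ hk
    have hs : DD ι ρ ⊆ DD ι 0 := fun ζ h => ⟨h.1, lt_of_le_of_lt (by nlinarith) h.2⟩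
    rw [Ik, ← lintegral_indicator (ho _ _).measurableSet,
      hCAYM ι _ ((DD ι ρ).indicator fun ζ => ENNReal.ofReal (dd ζ ^ k))
        ((hm k _).indicator (ho _ _).measurableSet)]
    · congr 1
      rw [← Measure.restrict_restrict_of_subset hs, ← lintegral_indicator (c2 ρ).measurableSet]
      refine setLIntegral_congr_fun (c2 0).measurableSet fun ζ hζ => ?_
      by_cases h : ζ ∈ DD ι ρ
      · have h0 : 0 < dd ζ := by simpa using hζ.2
        simp only [Set.indicator_of_mem h]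
        rw [← ENNReal.ofReal_mul (by positivity), pow_sub₀ _ h0.ne' hk, mul_comm]
      · simp [h]
    · intro ζ hζ Z hZ
      have h1 := ((hCAY ι).2.2.2.2 ζ hζ Z hZ).2
      have h2 : ζ ∈ DD ι ρ ↔ Z ∈ {Z | ρ < dl Z (iH ι)} := by
        rw [Set.mem_ofPred_eq, ← sq_lt_sq₀ hρ (d3 _ _).le, h1]
        exact ⟨fun h => h.2, fun h => ⟨hζ.1, h⟩⟩
      by_cases h : ζ ∈ DD ι ρ
      · rw [Set.indicator_of_mem h, Set.indicator_of_mem (h2.1 h), pow_mul, h1]
      · rw [Set.indicator_of_notMem h, Set.indicator_of_notMem (mt h2.2 h)]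
  have h4 : ∀ k ρ (W : HH ι),
      ∫⁻ Z in {Z | ρ < dl Z W}, ENNReal.ofReal (dl Z W ^ (2 * k)) ∂μH ι = Ik ι k ρ := by
    intro k ρ W
    obtain ⟨γ, rfl⟩ := d5 W
    have := (hMEAS ι).1
    rw [Ik, ← (measurePreserving_smul γ (μH ι)).setLIntegral_comp_preimage
      (ho _ _).measurableSet (hm k _)]
    simp only [Set.preimage_ofPred_eq, d1]
  refine ⟨fun ρ h0 h1 => ?_, ?_, fun k ρ hρ => ?_, h4, fun k W => ?_⟩
  · have h2 := ENNReal.Tendsto.const_mul (a := 4 ^ tri (Fintype.card ι)) (hGAU ι ρ h0 h1)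
      (Or.inr (by simp))
    have h3 : Fintype.card ι ≤ tri (Fintype.card ι) := by
      rw [tri, Nat.le_div_iff_mul_le two_pos]
      rcases Nat.eq_zero_or_pos (Fintype.card ι) with h | h
      · simp [h]
      · exact Nat.mul_le_mul_left _ (by omega)
    have h5 : (4 : ℝ≥0∞) ^ tri (Fintype.card ι) * ENNReal.ofReal (Real.pi ^ tri (Fintype.card ι) /
        2 ^ (tri (Fintype.card ι) - Fintype.card ι)) = ENNReal.ofReal (cg (Fintype.card ι))⁻¹ := by
      rw [← ENNReal.ofReal_ofNat 4, ← ENNReal.ofReal_pow (by norm_num),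
        ← ENNReal.ofReal_mul (by positivity), cg, inv_inv, pow_sub₀ _ two_ne_zero h3,
        show (4 : ℝ) = 2 * 2 by norm_num, mul_pow, mul_pow]
      congr 1
      field_simp
    rw [h5] at h2
    refine h2.congr' ?_
    filter_upwards [eventually_ge_atTop (Fintype.card ι + 1)] with k hk
    rw [key k ρ h0 hk, mul_left_comm]
  · rw [key _ 0 le_rfl le_rfl]
    refine ENNReal.mul_ne_top (by simp) ?_
    simp only [Nat.sub_self, pow_zero, ENNReal.ofReal_one, setLIntegral_one]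
    refine ne_top_of_le_ne_top (isCompact_closedBall (0 : Sym2 ι → ℂ) 1).measure_ne_top
      (measure_mono fun ζ hζ => ?_)
    exact mem_closedBall_zero_iff.2 ((pi_norm_le_iff_of_nonneg zero_le_one).2 (c3 ζ hζ).1)
  · have := (hMEAS ι).2.2.2.2.1
    refine ((setLIntegral_pos_iff (hm k _)).2 ?_).ne'
    rw [Set.inter_eq_right.2 fun Z _ => by simp [pow_pos (d3 Z _)]]
    exact (ho _ _).measure_pos _ ⟨iH ι, by simpa [d2] using hρ⟩
  · rw [← h4 k 0 W]
    simp [d3]

end Pool.Agent.P.MP_59bdab_ag
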