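import Pool.Agent.P.MP_59bdab_ag.IfA

/-! Linear changes of variables and inversion on symmetric matrices. -/

namespace Pool.Agent.P.MP_59bdab_ag

open Matrix MeasureTheory Filter Topology
open scoped ENNReal ComplexOrder

namespace INV

variable {ι : Type} [Fintype ι] [DecidableEq ι]

open scoped Matrix.Norms.Operator in
/-- The derivative of the inversion of symmetric matrices. -/
theorem hasFDerivAt_inv {K : Type} [RCLike K] {z : Sym2 ι → K} (hz : (mat z).det ≠ 0) :
    HasFDerivAt (fun z : Sym2 ι → K => coord (mat z)⁻¹)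
      (-LinearMap.toContinuousLinearMap (symL (mat z)⁻¹)) z := by
  have hu : IsUnit (mat z) := (isUnit_iff_isUnit_det _).2 hz.isUnit
  have : CompleteSpace (Matrix ι ι K) := FiniteDimensional.complete K _
  have h1 := hasFDerivAt_ringInverse (𝕜 := K) hu.unit
  have h2 : HasFDerivAt (mat : (Sym2 ι → K) → Matrix ι ι K)
      (LinearMap.toContinuousLinearMap (matL ι K)) z :=
    (LinearMap.toContinuousLinearMap (matL ι K)).hasFDerivAt
  have h3 := (LinearMap.toContinuousLinearMap (coordL ι K)).hasFDerivAt.comp z (h1.comp z h2)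
  have e : (fun z : Sym2 ι → K => coord (mat z)⁻¹) =
      (LinearMap.toContinuousLinearMap (coordL ι K)) ∘ Ring.inverse ∘ mat := by
    funext w
    simp only [Function.comp_apply, nonsing_inv_eq_ringInverse]
    rfl
  rw [e]
  refine h3.congr_fderiv (ContinuousLinearMap.ext fun w => ?_)
  have e1 : ((hu.unit⁻¹ : (Matrix ι ι K)ˣ) : Matrix ι ι K) = (mat z)⁻¹ := by
    rw [coe_units_inv, hu.unit_spec]
  have e2 : ((mat z)⁻¹)ᵀ = (mat z)⁻¹ := by rw [transpose_nonsing_inv, mat_transpose]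
  change coordL ι K (-(_ * mat w * _)) = -coord (_ * mat w * _)
  rw [map_neg, e1, e2]
  rfl

theorem symL_mem {P : Matrix ι ι ℝ} (hP : P.det ≠ 0) {q : Sym2 ι → ℝ} (hq : q ∈ PD ι) :
    symL P q ∈ PD ι := by
  have hu : IsUnit P := (isUnit_iff_isUnit_det _).2 hP.isUnit
  have h := PosDef.mul_mul_conjTranspose_same (B := P) (hq : (mat q).PosDef)
    (vecMul_injective_of_isUnit hu)
  change (mat (symL P q)).PosDef
  rwa [mat_symL, ← conjTranspose_eq_transpose_of_trivial]

theorem symL_symL (P Q : Matrix ι ι ℝ) (h : P * Q = 1) (q : Sym2 ι → ℝ) :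
    symL P (symL Q q) = q := by
  apply mat_injective
  rw [mat_symL, mat_symL, ← Matrix.mul_assoc, ← Matrix.mul_assoc, h, Matrix.one_mul,
    Matrix.mul_assoc, ← transpose_mul, h, transpose_one, Matrix.mul_one]

theorem lin (hDET : S_DET) (P : Matrix ι ι ℝ) (φ : (Sym2 ι → ℝ) → ℝ≥0∞) (hP : P.det ≠ 0) :
    ∫⁻ q in PD ι, φ (symL P q) =
      ENNReal.ofReal ((|P.det| ^ (Fintype.card ι + 1))⁻¹) * ∫⁻ q in PD ι, φ q := by
  have h1 : P * P⁻¹ = 1 := mul_nonsing_inv _ hP.isUnit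
  have h2 : P⁻¹ * P = 1 := nonsing_inv_mul _ hP.isUnit
  have hP' : P⁻¹.det ≠ 0 := (isUnit_nonsing_inv_det _ hP.isUnit).ne_zero
  have him : symL P⁻¹ '' PD ι = PD ι :=
    Set.Subset.antisymm (fun _ ⟨q, hq, e⟩ => e ▸ symL_mem hP' hq)
      fun q hq => ⟨symL P q, symL_mem hP hq, symL_symL _ _ h2 q⟩
  have h := lintegral_image_eq_lintegral_abs_det_fderiv_mul volume (isOpen_PD ι).measurableSet
    (f := symL P⁻¹) (f' := fun _ => LinearMap.toContinuousLinearMap (symL P⁻¹))
    (fun x _ => (LinearMap.toContinuousLinearMap (symL P⁻¹)).hasFDerivAt.hasFDerivWithinAt)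
    (fun a _ b _ e => by rw [← symL_symL _ _ h1 a, e, symL_symL _ _ h1]) fun q => φ (symL P q)
  rw [him] at h
  rw [h, lintegral_const_mul' _ _ ENNReal.ofReal_ne_top]
  simp only [symL_symL _ _ h1]
  congr 2
  rw [LinearMap.det_toContinuousLinearMap, hDET, abs_pow, det_nonsing_inv, Ring.inverse_eq_inv,
    abs_inv, inv_pow]

theorem mat_inv {K : Type} [Field K] [CharZero K] (t : Sym2 ι → K) :
    mat (coord (mat t)⁻¹) = (mat t)⁻¹ :=
  mat_coord (by rw [transpose_nonsing_inv, mat_transpose])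

theorem inv_mem {t : Sym2 ι → ℝ} (ht : t ∈ PD ι) : coord (mat t)⁻¹ ∈ PD ι := by
  change (mat _).PosDef
  rw [mat_inv]
  exact PosDef.inv ht

theorem inv_inv {t : Sym2 ι → ℝ} (ht : t ∈ PD ι) : coord (mat (coord (mat t)⁻¹))⁻¹ = t := by
  rw [mat_inv, nonsing_inv_nonsing_inv _ (PosDef.det_pos ht).ne'.isUnit, coord_mat]

theorem inv (hDET : S_DET) (φ : (Sym2 ι → ℝ) → ℝ≥0∞) : ∫⁻ q in PD ι, φ q =
    ∫⁻ t in PD ι, ENNReal.ofReal (((mat t).det ^ (Fintype.card ι + 1))⁻¹) *
      φ (coord (mat t)⁻¹) := by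
  have him : (fun t : Sym2 ι → ℝ => coord (mat t)⁻¹) '' PD ι = PD ι :=
    Set.Subset.antisymm (fun _ ⟨q, hq, e⟩ => e ▸ inv_mem hq)
      fun q hq => ⟨_, inv_mem hq, inv_inv hq⟩
  have h := lintegral_image_eq_lintegral_abs_det_fderiv_mul volume (isOpen_PD ι).measurableSet
    (f := fun t : Sym2 ι → ℝ => coord (mat t)⁻¹)
    (f' := fun t => -LinearMap.toContinuousLinearMap (symL (mat t)⁻¹))
    (fun t ht => (hasFDerivAt_inv (PosDef.det_pos ht).ne').hasFDerivWithinAt)
    (fun a ha b hb e => by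
      have e' : coord (mat a)⁻¹ = coord (mat b)⁻¹ := e
      rw [← inv_inv ha, e', inv_inv hb]) φ
  rw [him] at h
  rw [h]
  refine setLIntegral_congr_fun (isOpen_PD ι).measurableSet fun t ht => ?_
  have hp : 0 < (mat t).det := PosDef.det_pos ht
  have e : (-LinearMap.toContinuousLinearMap (symL (mat t)⁻¹)).det =
      (-1) ^ Module.finrank ℝ (Sym2 ι → ℝ) * LinearMap.det (symL (mat t)⁻¹) := by
    rw [← map_neg, LinearMap.det_toContinuousLinearMap, ← neg_one_smul ℝ, LinearMap.det_smul]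
  simp only [e]
  rw [abs_mul, abs_pow, abs_neg, abs_one, one_pow, one_mul, hDET, abs_pow, det_nonsing_inv,
    Ring.inverse_eq_inv, abs_inv, inv_pow, abs_of_pos hp]

end INV

theorem p_INV (hDET : S_DET) : S_INV := fun _ _ _ =>
  ⟨fun P φ hP _ => INV.lin hDET P φ hP, INV.inv hDET⟩

end Pool.Agent.P.MP_59bdab_ag
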