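import Pool.Agent.P.MP_59bdab_ag.IfB

/-!
Localisation of Fourier-Jacobi coefficients.
-/

namespace Pool.Agent.P.MP_59bdab_ag

open Matrix MeasureTheory Filter Topology
open scoped ENNReal ComplexOrder

namespace JLOC

/-- The decay rate. -/
noncomputable def th (ε : ℝ) : ℝ := max (psi (1 / (1 + ε))) (psi (1 + ε))

theorem th_pos {ε : ℝ} (h : 0 < ε) : 0 < th ε :=
  lt_max_of_lt_right (mul_pos (by linarith) (Real.exp_pos _))

theorem th_lt {ε : ℝ} (h : 0 < ε) : th ε < 1 :=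
  max_lt (psi_lt_one (ne_of_lt ((div_lt_one (by linarith)).2 (by linarith))))
    (psi_lt_one (by linarith))

theorem big {ε σ q : ℝ} (h : 0 < ε) (h0 : 0 < σ) (h1 : σ ≤ 1) (hq : σ + ε ≤ q) :
    psi (σ / q) ≤ th ε := by
  refine (psi_mono (div_nonneg h0.le (by linarith)) ?_
    ((div_le_one (by linarith)).2 (by linarith))).trans (le_max_left _ _)
  rw [div_le_div_iff₀ (by linarith) (by linarith)]
  nlinarith

theorem small {ε σ q : ℝ} (h : 0 < ε) (h0 : 0 < q) (h1 : σ ≤ 1) (hq : q ≤ σ - ε) :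
    psi (σ / q) ≤ th ε := by
  refine (psi_anti (by linarith) ?_).trans (le_max_right _ _)
  rw [le_div_iff₀ h0]
  nlinarith

theorem dom {σ q : ℝ} (h0 : 0 < σ) (h1 : σ ≤ 1) (hq : 0 < q) (n : ℕ) :
    psi (σ / q) ^ n ≤ min 1 ((Real.exp 1 / q) ^ n) := by
  have h2 := psi_nonneg (div_pos h0 hq).le
  refine le_min (pow_le_one₀ h2 (psi_le_one _)) (pow_le_pow_left₀ h2
    ((psi_le_mul (div_pos h0 hq).le).trans ?_) n)
  rw [← mul_div_assoc]
  exact div_le_div_of_nonneg_right (mul_le_of_le_one_right (Real.exp_pos 1).le h1) hq.le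

end JLOC

open JLOC in
theorem p_JLOC (hMOVE : S_MOVE) (hDEC : S_DEC) (hLAG : S_LAG) (hQ : S_Q) : S_JLOC := by
  intro ι _ _ i s0 s ε hε hs0 hs
  have t0 := th_pos hε
  have t1 := th_lt hε
  refine ⟨(th ε)⁻¹ ^ (Fintype.card ι + 1), th ε, by positivity, t0.le, t1,
    fun k j f hk h1 h2 hM hV hE hb => ⟨hb, fun M hbM Z => ?_⟩⟩
  have hk0 : 0 < k := by omega
  have hσ : 0 < 4 * Real.pi * j / k := by linarith
  have hj : 0 < j := by
    rcases Nat.eq_zero_or_pos j with rfl | h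
    · simp at hσ
    · exact h
  obtain ⟨-, -, -, -, q5, -, -, q8, -⟩ := hQ ι
  have hq : 0 < qf (Qm Z) (ev i) := q8 Z _ fun h => by simpa [ev] using congrFun h (Sum.inl i)
  obtain ⟨Z', hZ'⟩ := (hMOVE ι k j f Z hk0 hj hM.1).2 i hE
  have hM0 : 0 ≤ M := (FF_nonneg k f Z).trans (hbM Z)
  set σ := 4 * Real.pi * j / k with hσd
  set q := qf (Qm Z) (ev i) with hqd
  have hσ1 : σ ≤ 1 := by linarith
  have p0 := psi_nonneg (div_pos hσ hq).le
  have hD : psi (σ / q) ^ (Fintype.card ι + 1) ≤ DJ i Z := dom hσ hσ1 hq _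
  have hD0 : 0 ≤ DJ i Z := (pow_nonneg p0 _).trans hD
  obtain ⟨m, rfl⟩ := Nat.exists_eq_add_of_le hk
  have key : ∀ t, 0 ≤ t → psi (σ / q) ≤ t →
      FF (Fintype.card ι + 1 + m) f Z ≤ t ^ m * DJ i Z * M := fun t ht h => by
    rw [hZ', pow_add, mul_comm _ (_ ^ m)]
    exact mul_le_mul (mul_le_mul (pow_le_pow_left₀ p0 h m) hD (by positivity) (by positivity))
      (hbM Z') (FF_nonneg _ _ _) (by positivity)
  refine ⟨by simpa using key 1 zero_le_one (psi_le_one _), fun hZ => ?_⟩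
  have e : (th ε)⁻¹ ^ (Fintype.card ι + 1) * th ε ^ (Fintype.card ι + 1 + m) = th ε ^ m := by
    rw [pow_add (th ε), ← mul_assoc, ← mul_pow, inv_mul_cancel₀ t0.ne', one_pow, one_mul]
  rw [e]
  rcases le_total (σ + ε) q with c1 | c1
  · exact key _ t0.le (big hε hσ hσ1 c1)
  rcases le_total q (σ - ε) with c2 | c2
  · exact key _ t0.le (small hε hq hσ1 c2)
  obtain ⟨v, hv, hv'⟩ : ∃ v : ι ⊕ ι → ℤ, v ≠ 0 ∧ qf (Qm Z) v < q - 2 * ε := by
    by_contra hn
    simp only [not_exists, not_and, not_lt] at hn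
    exact hZ ⟨⟨by linarith, hn⟩, show s0 - ε ≤ q by linarith⟩
  have hv0 := q8 Z v hv
  have ho : om (ev i) v = 0 := by
    have h3 : (om (ev i) v : ℝ) ^ 2 < 1 := (q5 Z (ev i) v).trans_lt (by nlinarith)
    have h4 : om (ev i) v ^ 2 < 1 := by exact_mod_cast h3
    exact pow_eq_zero_iff (two_ne_zero) |>.1 (by have := sq_nonneg (om (ev i) v); omega)
  obtain ⟨γ, g1, g2⟩ := (hLAG ι).1 v
  rw [(hLAG ι).2.2.2.1 i v, neg_eq_zero] at ho
  have h5 := hDEC ι (st1 i) _ j f M hk0 hj hM hV hbM Z v hv ⟨γ, mem_st1.2 (g2 i ho), g1⟩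
    (by linarith)
  have h6 : DJ i Z = 1 := min_eq_left (one_le_pow₀ ((one_le_div hq).2
    (by linarith [Real.add_one_le_exp 1])))
  rw [h6, mul_one]
  refine h5.trans (mul_le_mul_of_nonneg_right ((pow_le_pow_left₀
    (psi_nonneg (div_pos hσ hv0).le) (small hε hv0 hσ1 (by linarith)) _).trans ?_) hM0)
  exact pow_le_pow_of_le_one t0.le t1.le (Nat.le_add_left _ _)

end Pool.Agent.P.MP_59bdab_ag
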