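import Pool.Agent.P.MP_59bdab_ag.IfB

/-!
Upper bound for the quotient of two steps of the filtration.
-/

namespace Pool.Agent.P.MP_59bdab_ag

open Matrix MeasureTheory Filter Topology
open scoped ENNReal ComplexOrder

namespace JUP

variable {ι : Type} [Fintype ι] [DecidableEq ι]

theorem cont_qf (hQ : S_Q) (v : ι ⊕ ι → ℤ) : Continuous fun Z : HH ι => qf (Qm Z) v :=
  Continuous.dotProduct continuous_const
    (Continuous.matrix_mulVec (hQ ι).2.2.2.2.2.1 continuous_const)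

omit [Fintype ι] in
theorem ev_ne (i : ι) : ev i ≠ 0 := by
  intro h
  have := congrFun h (Sum.inl i)
  simp [ev] at this

theorem encard_le (i : ι) : {γ : st1 i | γ.1.1 = 1 ∨ γ.1.1 = -1}.encard ≤ (1 : ℕ) := by
  have key : ∀ γ : st1 i, γ.1.1 = 1 ∨ γ.1.1 = -1 → γ.1.1 = 1 := by
    rintro γ (h | h)
    · exact h
    · exfalso
      have h1 := congrFun (mem_st1.1 γ.2) (Sum.inl i)
      rw [h, neg_mulVec, one_mulVec] at h1
      simp [ev] at h1
  rw [Nat.cast_one, Set.encard_le_one_iff]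
  intro a b ha hb
  exact Subtype.ext (Subtype.ext ((key a ha).trans (key b hb).symm))

theorem closed_RR (hQ : S_Q) (i : ι) (s ε : ℝ) : IsClosed (RR i s ε) := by
  have h : RR i s ε = {Z | qf (Qm Z) (ev i) ≤ s + ε} ∩
      ⋂ v : {v : ι ⊕ ι → ℤ // v ≠ 0}, {Z | qf (Qm Z) (ev i) - 2 * ε ≤ qf (Qm Z) v.1} := by
    ext Z
    simp [RR]
  rw [h]
  exact (isClosed_le (cont_qf hQ _) continuous_const).inter (isClosed_iInter fun v =>
    isClosed_le ((cont_qf hQ _).sub continuous_const) (cont_qf hQ _))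

theorem DJ_mem (hQ : S_Q) (i : ι) (Z : HH ι) : 0 ≤ DJ i Z ∧ DJ i Z ≤ 1 := by
  have h := (hQ ι).2.2.2.2.2.2.2.1 Z _ (ev_ne i)
  exact ⟨le_min zero_le_one (by positivity), min_le_left _ _⟩

theorem meas_DJ (hQ : S_Q) (i : ι) : Measurable fun Z : HH ι => ENNReal.ofReal (DJ i Z) :=
  (measurable_const.min ((measurable_const.div (cont_qf hQ _).measurable).pow_const _)).ennreal_ofReal

theorem cg_nonneg (g : ℕ) : 0 ≤ cg g := by
  rw [cg]
  positivity

end JUP

open JUP in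
theorem p_JUP (hFIL : S_FIL) (hUBD : S_UBD) (hLOC : S_LOC) (hJLOC : S_JLOC) (hPROJ : S_PROJ)
    (hNRM : S_NRM) (hBDD : S_BDD) (hUNF1 : S_UNF1) (hVFIN : S_VFIN) (hPROP : S_PROP) (hQ : S_Q) :
    S_JUP := by
  intro ι _ _ i w k a m s0 s ε hw hk hε hs0 hs hev δ hδ
  set R : Set (HH ι) := RR i s ε ∩ {Z | s0 - ε ≤ qf (Qm Z) (ev i)} with hR
  have hRm : MeasurableSet R :=
    ((closed_RR hQ i s ε).inter (isClosed_le continuous_const (cont_qf hQ _))).measurableSet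
  have hdis : Disjoint R (Short ι (s0 - 3 * ε)) := by
    rw [Set.disjoint_left]
    rintro Z ⟨⟨-, h1⟩, h2⟩ ⟨v, hv, h3⟩
    have h4 := h1 v hv
    have h5 : s0 - ε ≤ qf (Qm Z) (ev i) := h2
    linarith
  obtain ⟨w0, hw0⟩ := (hPROP ι).2.1
  obtain ⟨hD, hM⟩ := (hUNF1 ι i w0 w hw0 hw).2.2 (hVFIN.1 _)
  have hRR : mass w (RR i s ε) ≠ ⊤ :=
    ne_top_of_le_ne_top (hM (s + ε)) (lintegral_mono_set fun Z hZ => hZ.1)
  have hle : mass w R ≤ mass w (RR i s ε) := lintegral_mono_set Set.inter_subset_left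
  obtain ⟨C, θ, hC, hθ0, hθ1, hJ⟩ := hJLOC ι i s0 s ε hε (by linarith) hs
  obtain ⟨η, hη, hL⟩ := hLOC ι (s0 - 3 * ε) C θ (by linarith) hC hθ0 hθ1
  have hV : ∀ n, ∃ V : Submodule ℂ ((Sym2 ι → ℂ) → ℂ),
      a n ≤ m n → FiniteDimensional ℂ (SF ι (k n) (a n)) →
      (∀ v ∈ V, ∃ f : ℕ → (Sym2 ι → ℂ) → ℂ, (∀ j, a n ≤ j → f j ∈ SF ι (k n) j) ∧
        v = ∑ j ∈ Finset.Ico (a n) (m n), fj (f j) i (j : ℕ)) ∧
      Module.finrank ℂ (SF ι (k n) (a n)) =
        Module.finrank ℂ (SF ι (k n) (m n)) + Module.finrank ℂ V := by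
    intro n
    by_cases h : a n ≤ m n ∧ FiniteDimensional ℂ (SF ι (k n) (a n))
    · obtain ⟨-, p2, p3, p4, p5⟩ := hPROJ ι i (k n)
      have := h.2
      obtain ⟨V, -, h1, h2⟩ := hFIL _ (SF ι (k n)) (fun j f => fj f i (j : ℕ)) (a n) p5
        (fun j _ f hf => p2 j f hf) (fun j c f hf g hg => p3 (a n) j c f hf g hg)
        (fun t f hf => p4 (a n) t f hf) (m n) h.1
      exact ⟨V, fun _ _ => ⟨h1, h2⟩⟩
    · exact ⟨⊥, fun h1 h2 => (h ⟨h1, h2⟩).elim⟩
  choose V hV using hV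
  have hU := hUBD ι (st1 i) w 1 R (s0 - 3 * ε) (fun Z => ENNReal.ofReal (DJ i Z)) k
    (fun n => η (k n)) V hw (encard_le i) hRm (by linarith) hdis (ne_top_of_le_ne_top hRR hle)
    (meas_DJ hQ i) hD hk (hη.comp hk) (by
      filter_upwards [hev, hk.eventually hL, hk.eventually_ge_atTop 13,
        hk.eventually_ge_atTop (Fintype.card ι + 1)] with n hn hLn h13 hg v hv
      obtain ⟨h1, h2, h3, h4⟩ := hn
      obtain ⟨f, hf, rfl⟩ := (hV n h2 h4).1 v hv
      have hk0 : (0 : ℝ) < k n := by exact_mod_cast (by omega : 0 < k n)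
      have hP := fun j (hj : j ∈ Finset.Ico (a n) (m n)) =>
        (hPROJ ι i (k n)).1 j j (f j) (hf j (Finset.mem_Ico.1 hj).1)
      have ha1 : 1 ≤ a n := by
        rcases Nat.eq_zero_or_pos (a n) with h0 | h0
        · rw [h0] at h1
          simp only [Nat.cast_zero, mul_zero, zero_div] at h1
          linarith
        · exact h0
      have hmk : m n ≤ k n := by
        have h5 : 4 * Real.pi * m n ≤ k n := by
          have h6 : 4 * Real.pi * m n / k n ≤ 1 := by linarith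
          rwa [div_le_one hk0] at h6
        have h7 : (m n : ℝ) ≤ 4 * Real.pi * m n :=
          le_mul_of_one_le_left (Nat.cast_nonneg _) (by linarith [Real.pi_gt_three])
        exact_mod_cast h7.trans h5
      refine ⟨fun z hz => ?_, hLn (st1 i) w R (DJ i) _ (Finset.Ico (a n) (m n))
        (fun j => fj (f j) i (j : ℕ)) hw hdis (DJ_mem hQ i) hD ?_ (fun Z => ?_) fun j hj => ?_⟩
      · rw [Finset.sum_apply]
        exact Finset.sum_eq_zero fun j hj => (hP j hj).1 z hz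
      · rw [Nat.card_Ico]
        omega
      · rw [Finset.sum_apply]
      · obtain ⟨j1, j2⟩ := Finset.mem_Ico.1 hj
        obtain ⟨-, q2, q3, q4, q5⟩ := hP j hj
        obtain ⟨M, hM⟩ := (hBDD ι (k n) (f j)).1 j (ha1.trans j1) h13 (hf j j1)
        have j1' : (a n : ℝ) ≤ j := by exact_mod_cast j1
        have j2' : (j : ℝ) ≤ m n := by exact_mod_cast j2.le
        refine ⟨q2, hNRM ι i (k n) w _ (fun j => fj (f j) i (j : ℕ)) hw
          (fun l hl => ⟨(hP l hl).2.1, (hP l hl).2.2.2.1⟩) j hj,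
          hJ (k n) j _ hg (h1.trans ?_) (le_trans ?_ h3) q2 q3 q4 ⟨M, q5 M hM⟩⟩
        · gcongr
        · gcongr)
  filter_upwards [hev, hU.2 δ hδ] with n hn h1
  rw [(hV n hn.2.1 hn.2.2.2).2, Nat.cast_add]
  refine add_le_add le_rfl (h1.trans ?_)
  have h2 : (mass w R).toReal ≤ (mass w (RR i s ε)).toReal := ENNReal.toReal_mono hRR hle
  have h3 := cg_nonneg (Fintype.card ι)
  rw [Nat.cast_one, one_mul]
  gcongr

end Pool.Agent.P.MP_59bdab_ag
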