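import Pool.Agent.P.MP_59bdab_ag.IfA

/-!
Symplectic lattices.
-/

namespace Pool.Agent.P.MP_59bdab_ag

open Matrix

namespace LAG

variable {ι : Type} [Fintype ι] [DecidableEq ι]

theorem bez (m n : ℤ) : ∃ a b c d : ℤ, a * d - c * b = 1 ∧ c * m + d * n = 0 ∧
    (n = 0 → a = 1 ∧ c = 0) := by
  by_cases hn : n = 0
  · exact ⟨1, 0, 0, 1, by simp, by simp [hn], fun _ => ⟨rfl, rfl⟩⟩
  · obtain ⟨m', n', h1, h2, h3⟩ := Int.exists_gcd_one (Int.gcd_pos_of_ne_zero_right m hn)
    obtain ⟨x, y, hxy⟩ := Int.isCoprime_iff_gcd_eq_one.2 h1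
    refine ⟨x, y, -n', m', by linear_combination hxy, ?_, fun h => absurd h hn⟩
    generalize ((Int.gcd m n : ℕ) : ℤ) = g at h2 h3
    rw [h2, h3]
    ring

theorem one (v : ι ⊕ ι → ℤ) : ∃ γ : SpZ ι, (∀ i, (γ.1 *ᵥ v) (Sum.inr i) = 0) ∧
    ∀ i, v (Sum.inr i) = 0 → γ.1 *ᵥ ev i = ev i := by
  choose a b c d h1 h2 h3 using fun i => bez (v (Sum.inl i)) (v (Sum.inr i))
  refine ⟨⟨fromBlocks (diagonal a) (diagonal b) (diagonal c) (diagonal d), ?_⟩, fun i => ?_,
    fun i hi => ?_⟩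
  · rw [SymplecticGroup.fromBlocks_mem_iff]
    simp only [diagonal_transpose, diagonal_mul_diagonal, diagonal_sub]
    refine ⟨by simp only [mul_comm], by simp only [mul_comm], ?_⟩
    rw [← diagonal_one]
    exact congrArg diagonal (funext h1)
  · simp only [fromBlocks_mulVec, Sum.elim_inr, Pi.add_apply, mulVec_diagonal,
      Function.comp_apply]
    exact h2 i
  · obtain ⟨ha, hc⟩ := h3 i hi
    funext j
    rcases j with j | j
    · simp only [fromBlocks_mulVec, Sum.elim_inl, Pi.add_apply, mulVec_diagonal,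
        Function.comp_apply, ev]
      by_cases hj : j = i
      · subst hj
        simp [ha]
      · simp [hj]
    · simp only [fromBlocks_mulVec, Sum.elim_inr, Pi.add_apply, mulVec_diagonal,
        Function.comp_apply, ev]
      by_cases hj : j = i
      · subst hj
        simp [hc]
      · simp [hj]

theorem two (U : Matrix ι ι ℤ) (hU : IsUnit U.det) :
    fromBlocks U 0 0 (U⁻¹)ᵀ ∈ symplecticGroup ι ℤ := by
  rw [SymplecticGroup.fromBlocks_mem_iff]
  refine ⟨by simp, by simp, ?_⟩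
  rw [← transpose_mul, nonsing_inv_mul U hU]
  simp

theorem three (γ : SpZ ι) (u v : ι ⊕ ι → ℤ) : om (γ.1 *ᵥ u) (γ.1 *ᵥ v) = om u v := by
  have h := SymplecticGroup.mem_iff'.1 γ.2
  unfold om
  conv_rhs => rw [← h]
  rw [Matrix.mul_assoc, ← mulVec_mulVec, ← mulVec_mulVec, dotProduct_mulVec u, vecMul_transpose]

theorem four (i : ι) (v : ι ⊕ ι → ℤ) : om (ev i) v = -v (Sum.inr i) := by
  unfold om ev
  rw [single_one_dotProduct, J, fromBlocks_mulVec]
  simp [neg_mulVec]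

theorem five {κ : Type} [Fintype κ] (v : κ → ι ⊕ ι → ℤ) (hv : LinearIndependent ℤ v)
    (hi : Iso v) : Fintype.card κ ≤ Fintype.card ι := by
  classical
  let V : Matrix κ (ι ⊕ ι) ℚ := Matrix.of fun a i => (v a i : ℚ)
  have h1 : LinearIndependent ℚ V.row := by
    rw [← LinearIndependent.iff_fractionRing ℤ ℚ, Fintype.linearIndependent_iff]
    intro c hc
    refine Fintype.linearIndependent_iff.1 hv c (funext fun i => ?_)
    have h := congrFun hc i
    simp only [Finset.sum_apply, Pi.smul_apply, Pi.zero_apply] at h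
    simp only [Matrix.row, V, of_apply, zsmul_eq_mul] at h
    simp only [Finset.sum_apply, Pi.smul_apply, smul_eq_mul, Pi.zero_apply]
    exact_mod_cast h
  have h2 : V * (J ι ℚ * Vᵀ) = 0 := by
    ext a b
    have h := hi a b
    have h' : ((om (v a) (v b) : ℤ) : ℚ) = (V * (J ι ℚ * Vᵀ)) a b := by
      rw [← map_J ι (Int.castRingHom ℚ)]
      simp only [om, dotProduct, mulVec, mul_apply, V, of_apply, transpose_apply, map_apply,
        eq_intCast]
      push_cast
      rfl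
    rw [← h', h]
    simp
  have h3 := rank_add_rank_le_card_of_mul_eq_zero h2
  rw [rank_mul_eq_right_of_isUnit_det _ _ (isUnit_det_J ι ℚ), rank_transpose, h1.rank_matrix,
    Fintype.card_sum] at h3
  omega

theorem frame (hEXT : S_EXT) {κ : Type} [Fintype κ] (e : κ ↪ ι) (w : κ → ι ⊕ ι → ℤ)
    (hw : Prim w) (s : Finset κ) (hs : ∀ a ∈ s, ∀ i, w a (Sum.inr i) = 0) :
    ∃ M : SpZ ι, ∀ a ∈ s, M.1 *ᵥ ev (e a) = w a := by
  classical
  have hp : Prim fun (a : s) (i : ι) => w a (Sum.inl i) := by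
    intro c hc a
    have key : ∀ j, ∑ a, (if h : a ∈ s then c ⟨a, h⟩ else 0) * (w a j : ℚ) =
        ∑ a : s, c a * (w a j : ℚ) := by
      intro j
      rw [← Finset.sum_subset (Finset.subset_univ s) (fun a _ ha => by simp [ha]),
        ← Finset.sum_coe_sort]
      exact Finset.sum_congr rfl fun a _ => by simp [a.2]
    obtain ⟨z, hz⟩ := hw (fun a => if h : a ∈ s then c ⟨a, h⟩ else 0) (fun j => by
      rw [key]
      rcases j with i | i
      · exact hc i
      · exact ⟨0, by simp [fun a : s => hs a a.2 i]⟩) a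
    exact ⟨z, by simpa [a.2] using hz⟩
  obtain ⟨U, hU, hU'⟩ := (hEXT ι).1 s _ ((Function.Embedding.subtype _).trans e) hp
  refine ⟨⟨_, two U hU⟩, fun a ha => funext fun j => ?_⟩
  unfold ev
  rw [mulVec_single_one]
  rcases j with i | i
  · exact hU' ⟨a, ha⟩ i
  · rw [hs a ha i]
    rfl

theorem six (hEXT : S_EXT) {κ : Type} [Fintype κ] (e : κ ↪ ι) (v : κ → ι ⊕ ι → ℤ)
    (hv : Prim v) (hi : Iso v) (t : Finset κ) : ∃ γ : SpZ ι, ∀ a ∈ t, γ.1 *ᵥ v a = ev (e a) := by
  classical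
  induction t using Finset.induction_on with
  | empty => exact ⟨1, by simp⟩
  | insert b t _ ih =>
    obtain ⟨γ, hγ⟩ := ih
    obtain ⟨δ, h1, h2⟩ := one (γ.1 *ᵥ v b)
    have h3 : ∀ a ∈ t, (δ * γ).1 *ᵥ v a = ev (e a) := fun a ha => by
      rw [Submonoid.coe_mul, ← mulVec_mulVec, hγ a ha]
      refine h2 _ (neg_eq_zero.1 ?_)
      rw [← four, ← hγ a ha, three]
      exact hi a b
    obtain ⟨M, hM⟩ := frame hEXT e (fun a => (δ * γ).1 *ᵥ v a)
      (((hEXT (ι ⊕ ι)).2.2.1 κ v _ (SymplecticGroup.symplectic_det (δ * γ).2)).2 hv)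
      (insert b t) (fun a ha i => by
        rcases Finset.mem_insert.1 ha with rfl | ha
        · rw [Submonoid.coe_mul, ← mulVec_mulVec]
          exact h1 i
        · rw [h3 a ha]
          simp [ev])
    refine ⟨M⁻¹ * (δ * γ), fun a ha => ?_⟩
    rw [Submonoid.coe_mul, ← mulVec_mulVec, ← hM a ha, mulVec_mulVec, ← Submonoid.coe_mul,
      inv_mul_cancel, Submonoid.coe_one, one_mulVec]

end LAG

open LAG in
theorem p_LAG (hEXT : S_EXT) : S_LAG := by
  intro ι _ _
  refine ⟨one, two, three, four, fun κ _ => five, fun κ _ e v => ⟨fun h => ?_, ?_⟩⟩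
  · obtain ⟨γ, hγ⟩ := six hEXT e v h.1 h.2 Finset.univ
    refine ⟨γ⁻¹, funext fun a => ?_⟩
    rw [← hγ a (Finset.mem_univ a), mulVec_mulVec, ← Submonoid.coe_mul, inv_mul_cancel,
      Submonoid.coe_one, one_mulVec]
  · rintro ⟨γ, rfl⟩
    refine ⟨((hEXT (ι ⊕ ι)).2.2.1 κ _ _ (SymplecticGroup.symplectic_det γ.2)).2
      ((hEXT (ι ⊕ ι)).2.2.2.1 κ (e.trans Function.Embedding.inl)), fun a b => ?_⟩
    rw [three, four]
    simp [ev]

end Pool.Agent.P.MP_59bdab_ag
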