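import Pool.Agent.P.MP_59bdab_ag.IfA

namespace Pool.Agent.P.MP_59bdab_ag

open Matrix

namespace LDL

variable {r : ℕ}

theorem entry (L : Matrix (Fin r) (Fin r) ℝ) (d : Fin r → ℝ) (i j : Fin r) :
    (L * diagonal d * Lᵀ) i j = ∑ m, L i m * d m * L j m := by
  simp [Matrix.mul_apply, Matrix.diagonal_apply]

theorem det_low {L : Matrix (Fin r) (Fin r) ℝ} (h0 : ∀ i j, i < j → L i j = 0) :
    L.det = ∏ i, L i i :=
  det_of_lowerTriangular L fun i j hij => h0 i j hij

theorem det_one {L : Matrix (Fin r) (Fin r) ℝ} (h1 : ∀ i, L i i = 1)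
    (h0 : ∀ i j, i < j → L i j = 0) : L.det = 1 := by
  rw [det_low h0]; simp [h1]

theorem pos {L : Matrix (Fin r) (Fin r) ℝ} {d : Fin r → ℝ} (h1 : ∀ i, L i i = 1)
    (h0 : ∀ i j, i < j → L i j = 0) (hd : ∀ i, 0 < d i) : (L * diagonal d * Lᵀ).PosDef := by
  have hu : IsUnit L := (Matrix.isUnit_iff_isUnit_det L).2 (by rw [det_one h1 h0]; exact isUnit_one)
  have h := (Matrix.posDef_diagonal_iff.2 hd).mul_mul_conjTranspose_same
    (Matrix.vecMul_injective_iff_isUnit.2 hu)
  rwa [conjTranspose_eq_transpose_of_trivial] at h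

theorem det_eq {L : Matrix (Fin r) (Fin r) ℝ} (d : Fin r → ℝ) (h1 : ∀ i, L i i = 1)
    (h0 : ∀ i j, i < j → L i j = 0) : (L * diagonal d * Lᵀ).det = ∏ i, d i := by
  rw [det_mul, det_mul, det_transpose, det_one h1 h0, det_diagonal, one_mul, mul_one]

theorem uniq {L L' : Matrix (Fin r) (Fin r) ℝ} {d d' : Fin r → ℝ} (h1 : ∀ i, L i i = 1)
    (h0 : ∀ i j, i < j → L i j = 0) (hd : ∀ i, 0 < d i) (h1' : ∀ i, L' i i = 1)
    (h0' : ∀ i j, i < j → L' i j = 0) (h : L * diagonal d * Lᵀ = L' * diagonal d' * L'ᵀ) :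
    L = L' ∧ d = d' := by
  have key : ∀ j : Fin r, d j = d' j ∧ ∀ i, L i j = L' i j := by
    intro j
    induction j using WellFoundedLT.induction with
    | ind j ih =>
      have e : ∀ i, L i j * d j = L' i j * d' j := by
        intro i
        have e1 := congrFun (congrFun h i) j
        rw [entry, entry, ← sub_eq_zero, ← Finset.sum_sub_distrib, Finset.sum_eq_single j] at e1
        · rw [h1, h1', mul_one, mul_one] at e1
          exact sub_eq_zero.1 e1
        · intro m _ hm
          rcases lt_or_gt_of_ne hm with hm | hm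
          · rw [(ih m hm).1, (ih m hm).2, (ih m hm).2, sub_self]
          · rw [h0 j m hm, h0' j m hm]; simp
        · simp
      have ej : d j = d' j := by simpa [h1, h1'] using e j
      refine ⟨ej, fun i => ?_⟩
      have := e i
      rw [← ej] at this
      exact mul_right_cancel₀ (hd j).ne' this
  exact ⟨by ext i j; exact (key j).2 i, funext fun j => (key j).1⟩

theorem diag_uniq {L : Matrix (Fin r) (Fin r) ℝ} {d d' : Fin r → ℝ} (h1 : ∀ i, L i i = 1)
    (h0 : ∀ i j, i < j → L i j = 0)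
    (h : ∀ i, (L * diagonal d * Lᵀ) i i = (L * diagonal d' * Lᵀ) i i) : d = d' := by
  funext j
  induction j using WellFoundedLT.induction with
  | ind j ih =>
    have e1 := h j
    rw [entry, entry, ← sub_eq_zero, ← Finset.sum_sub_distrib, Finset.sum_eq_single j] at e1
    · simpa [h1, sub_eq_zero] using e1
    · intro m _ hm
      rcases lt_or_gt_of_ne hm with hm | hm
      · rw [ih m hm, sub_self]
      · rw [h0 j m hm]; simp
    · simp

theorem exists_ldl (G : Matrix (Fin r) (Fin r) ℝ) (hG : G.PosDef) :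
    ∃ (L : Matrix (Fin r) (Fin r) ℝ) (d : Fin r → ℝ),
      (∀ i, L i i = 1) ∧ (∀ i j, i < j → L i j = 0) ∧ (∀ i, 0 < d i) ∧
      G = L * diagonal d * Lᵀ := by
  have hT : (_root_.LDL.lowerInv hG).BlockTriangular OrderDual.toDual :=
    fun i j hij => _root_.LDL.lowerInv_triangular hG hij
  have hT' : (_root_.LDL.lower hG).BlockTriangular OrderDual.toDual :=
    blockTriangular_inv_of_blockTriangular hT
  have h0 : ∀ i j, i < j → _root_.LDL.lower hG i j = 0 := fun i j hij => hT' hij
  have hc := _root_.LDL.lower_conj_diag hG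
  rw [conjTranspose_eq_transpose_of_trivial, _root_.LDL.diag] at hc
  have hu : IsUnit (_root_.LDL.lowerInv hG) := isUnit_of_invertible _
  have hD : (_root_.LDL.diag hG).PosDef := by
    rw [_root_.LDL.diag_eq_lowerInv_conj]
    exact hG.mul_mul_conjTranspose_same (Matrix.vecMul_injective_iff_isUnit.2 hu)
  have hD' : ∀ i, 0 < _root_.LDL.diagEntries hG i := Matrix.posDef_diagonal_iff.1 hD
  generalize _root_.LDL.diagEntries hG = D at hc hD'
  generalize _root_.LDL.lower hG = L at hc h0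
  have hne : ∀ i, L i i ≠ 0 := by
    have hdet := hG.det_pos
    rw [← hc, det_mul, det_mul, det_transpose, det_low h0] at hdet
    have : ∏ i, L i i ≠ 0 := by
      intro h
      rw [h] at hdet
      simp at hdet
    exact fun i => Finset.prod_ne_zero_iff.1 this i (Finset.mem_univ i)
  refine ⟨Matrix.of fun i j => L i j / L j j, fun i => D i * L i i ^ 2, fun i => ?_,
    fun i j hij => ?_, fun i => ?_, ?_⟩
  · simp [hne]
  · simp [h0 i j hij]
  · exact mul_pos (hD' i) (sq_pos_of_ne_zero (hne i))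
  · ext i j
    rw [← hc, entry, entry]
    refine Finset.sum_congr rfl fun m _ => ?_
    have := hne m
    simp only [Matrix.of_apply]
    field_simp

end LDL

theorem p_LDL : S_LDL := by
  intro r
  refine ⟨LDL.exists_ldl, fun L L' d d' h1 h0 hd h1' h0' h => LDL.uniq h1 h0 hd h1' h0' h, ?_, ?_⟩
  · rintro Q G G' s s' hs hG hG' ⟨L, d, h1, h0, hd, e1, e2⟩ ⟨L', d', h1', h0', hd', e1', e2'⟩
    obtain ⟨rfl, hds⟩ := LDL.uniq h1 h0 (fun i => mul_pos (hd i) (hs i)) h1' h0' (e2.symm.trans e2')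
    have hdd : d = d' := LDL.diag_uniq h1 h0 fun i => by rw [← e1, ← e1', hG, hG']
    subst hdd
    refine ⟨e1.trans e1'.symm, funext fun i => ?_⟩
    exact mul_left_cancel₀ (hd i).ne' (congrFun hds i)
  · rintro Q G s hs ⟨L, d, h1, h0, hd, rfl, rfl⟩
    refine ⟨LDL.pos h1 h0 fun i => mul_pos (hd i) (hs i), LDL.pos h1 h0 hd, ?_⟩
    rw [LDL.det_eq _ h1 h0, LDL.det_eq _ h1 h0, Finset.prod_mul_distrib]

end Pool.Agent.P.MP_59bdab_ag
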