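import Pool.Agent.P.MP_59bdab_ag.IfB

/-!
From localised pieces to a bound by the Petersson norm.
-/

namespace Pool.Agent.P.MP_59bdab_ag

open Matrix MeasureTheory Filter Topology
open scoped ENNReal ComplexOrder

namespace LOC

variable {ι : Type} [Fintype ι] [DecidableEq ι]

theorem FF_sum_le {k : ℕ} {f : (Sym2 ι → ℂ) → ℂ} {s : Finset ℕ} {φ : ℕ → (Sym2 ι → ℂ) → ℂ}
    (hs : s.card ≤ k) (hf : ∀ Z : HH ι, f Z.1 = ∑ j ∈ s, φ j Z.1) (Z : HH ι) :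
    FF k f Z ≤ k * ∑ j ∈ s, FF k (φ j) Z := by
  have h1 : ‖f Z.1‖ ^ 2 ≤ k * ∑ j ∈ s, ‖φ j Z.1‖ ^ 2 := by
    rw [hf]
    calc ‖∑ j ∈ s, φ j Z.1‖ ^ 2 ≤ (∑ j ∈ s, ‖φ j Z.1‖) ^ 2 :=
          pow_le_pow_left₀ (norm_nonneg _) (norm_sum_le _ _) 2
      _ ≤ s.card * ∑ j ∈ s, ‖φ j Z.1‖ ^ 2 := sq_sum_le_card_mul_sum_sq
      _ ≤ _ := mul_le_mul_of_nonneg_right (by exact_mod_cast hs)
          (Finset.sum_nonneg fun _ _ => sq_nonneg _)
  simp only [FF]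
  rw [← Finset.sum_mul, ← mul_assoc]
  exact mul_le_mul_of_nonneg_right h1 (pow_nonneg (Ym_det_pos Z).le _)

theorem mod_sum {G : Subgroup (SpZ ι)} {k : ℕ} {f : (Sym2 ι → ℂ) → ℂ} {s : Finset ℕ}
    {φ : ℕ → (Sym2 ι → ℂ) → ℂ} (hf : ∀ Z : HH ι, f Z.1 = ∑ j ∈ s, φ j Z.1)
    (h : ∀ j ∈ s, Mod G k (φ j)) : Mod G k f := by
  refine ⟨?_, fun γ hγ Z => ?_⟩
  · exact (DifferentiableOn.fun_sum fun j hj => (h j hj).1).congr fun z hz => hf ⟨z, hz⟩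
  · rw [hf, hf, Finset.mul_sum]
    exact Finset.sum_congr rfl fun j hj => (h j hj).2 γ hγ Z

/-- A localised function is bounded by its bound on `R`. -/
theorem bound_of_loc {R : Set (HH ι)} {D : HH ι → ℝ} {C θ a : ℝ} {k : ℕ}
    {f : (Sym2 ι → ℂ) → ℂ} (hL : Loc R D C θ k f) (hD : ∀ Z, 0 ≤ D Z ∧ D Z ≤ 1)
    (h0 : 0 ≤ C * θ ^ k) (h1 : C * θ ^ k ≤ 1 / 2) (ha : 0 ≤ a) (hR : ∀ Z ∈ R, FF k f Z ≤ a) :
    ∀ Z, FF k f Z ≤ a := by
  obtain ⟨⟨M0, hM0⟩, hL⟩ := hL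
  haveI : Nonempty (HH ι) := ⟨iH ι⟩
  have hb : BddAbove (Set.range (FF k f)) := ⟨M0, by rintro _ ⟨Z, rfl⟩; exact hM0 Z⟩
  set M := ⨆ Z, FF k f Z with hM
  have hle : ∀ Z, FF k f Z ≤ M := fun Z => le_ciSup hb Z
  have hM1 : 0 ≤ M := (FF_nonneg k f (iH ι)).trans (hle _)
  have hM2 : M ≤ max (M / 2) a := by
    refine ciSup_le fun Z => ?_
    by_cases hZ : Z ∈ R
    · exact (hR Z hZ).trans (le_max_right _ _)
    · refine (((hL M hle Z).2 hZ).trans ?_).trans (le_max_left _ _)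
      have h2 : C * θ ^ k * D Z ≤ 1 / 2 := by nlinarith [hD Z]
      nlinarith
  have hM3 : M ≤ a := by
    rcases le_max_iff.mp hM2 with h | h
    · linarith
    · exact h
  exact fun Z => (hle Z).trans hM3

end LOC

open LOC in
theorem p_LOC (hBERG : S_BERG) (hIK : S_IK) : S_LOC := by
  intro ι _ _ s0 C θ hs0 hC hθ0 hθ1
  obtain ⟨n0, hn0, hB⟩ := (hBERG ι).1 s0 hs0
  set N := tri (Fintype.card ι) with hN
  have hc : 0 < cg (Fintype.card ι) := by unfold cg; positivity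
  have hI := (hIK ι).1 (1 / 2) (by norm_num) (by norm_num)
  have habs : |θ| < 1 := by rw [abs_of_nonneg hθ0]; exact hθ1
  refine ⟨fun k => ENNReal.ofReal ((k : ℝ) ^ (N + 2) * θ ^ k * C) * n0 *
    ((k : ℝ≥0∞) ^ N * Ik ι k (1 / 2))⁻¹, ?_, ?_⟩
  · have h1 : Tendsto (fun k : ℕ => ENNReal.ofReal ((k : ℝ) ^ (N + 2) * θ ^ k * C)) atTop
        (𝓝 0) := by
      have := ENNReal.tendsto_ofReal
        ((tendsto_pow_const_mul_const_pow_of_abs_lt_one (N + 2) habs).mul_const C)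
      simpa using this
    have h2 := ENNReal.Tendsto.mul_const h1 (b := n0) (Or.inr hn0)
    have h3 := ENNReal.Tendsto.mul h2 (Or.inr (ENNReal.inv_ne_top.mpr
      (ENNReal.ofReal_pos.mpr (inv_pos.mpr hc)).ne')) (ENNReal.tendsto_inv_iff.mpr hI)
      (Or.inr (by simp))
    simpa using h3
  have hT : Tendsto (fun k : ℕ => C * θ ^ k) atTop (𝓝 0) := by
    simpa using (tendsto_pow_atTop_nhds_zero_of_lt_one hθ0 hθ1).const_mul C
  filter_upwards [hI.eventually (gt_mem_nhds ENNReal.ofReal_lt_top),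
    hT.eventually (gt_mem_nhds (by norm_num : (0 : ℝ) < 1 / 2)), eventually_ge_atTop 1]
    with k hk1 hk2 hk3 G w R D f s φ hw hR hD hDi hs hf hφ
  have hk0 : ((k : ℝ≥0∞) ^ N) ≠ 0 := pow_ne_zero _ (by exact_mod_cast (by omega : k ≠ 0))
  have hkt : ((k : ℝ≥0∞) ^ N) ≠ ⊤ := ENNReal.pow_ne_top (ENNReal.natCast_ne_top k)
  have hI0 : Ik ι k (1 / 2) ≠ 0 := (hIK ι).2.2.1 k _ (by norm_num)
  have hIt : Ik ι k (1 / 2) ≠ ⊤ := by
    intro h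
    rw [h, ENNReal.mul_top hk0] at hk1
    exact lt_irrefl _ hk1
  have hCθ : 0 ≤ C * θ ^ k := mul_nonneg hC (pow_nonneg hθ0 _)
  have hfin : nrm w k f ≠ ⊤ := by
    choose! M hM using fun j (hj : j ∈ s) => (hφ j hj).2.2.1
    have h1 : ∀ Z, FF k f Z ≤ (k * ∑ j ∈ s, M j) * D Z := by
      intro Z
      refine (FF_sum_le hs hf Z).trans ?_
      rw [mul_assoc, Finset.sum_mul]
      refine mul_le_mul_of_nonneg_left (Finset.sum_le_sum fun j hj => ?_) (Nat.cast_nonneg _)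
      rw [mul_comm]
      exact ((hφ j hj).2.2.2 (M j) (hM j hj) Z).1
    have h2 : nrm w k f ≤ ENNReal.ofReal (k * ∑ j ∈ s, M j) *
        ∫⁻ Z, ENNReal.ofReal (D Z) * w Z ∂μH ι := by
      rw [← lintegral_const_mul' _ _ ENNReal.ofReal_ne_top]
      refine lintegral_mono fun Z => ?_
      show _ ≤ ENNReal.ofReal (k * ∑ j ∈ s, M j) * (ENNReal.ofReal (D Z) * w Z)
      rw [← mul_assoc, ← ENNReal.ofReal_mul' (hD Z).1]
      exact mul_le_mul_left (ENNReal.ofReal_le_ofReal (h1 Z)) _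
    exact ne_top_of_le_ne_top (ENNReal.mul_ne_top ENNReal.ofReal_ne_top hDi) h2
  refine ⟨mod_sum hf fun j hj => (hφ j hj).1, hfin, fun Z hZ => ?_⟩
  set A := n0 * nrm w k f / Ik ι k (1 / 2) with hA
  have hAt : A ≠ ⊤ := ENNReal.div_ne_top (ENNReal.mul_ne_top hn0 hfin) hI0
  have hbd : ∀ j ∈ s, ∀ W, FF k (φ j) W ≤ A.toReal := by
    intro j hj
    refine bound_of_loc (hφ j hj).2.2 hD hCθ hk2.le ENNReal.toReal_nonneg fun W hW => ?_
    rw [← ENNReal.ofReal_le_iff_le_toReal hAt, hA,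
      ENNReal.le_div_iff_mul_le (Or.inl hI0) (Or.inl hIt)]
    exact (hB G w k (φ j) hw (hφ j hj).1 W (Set.disjoint_left.mp hR hW)).trans
      (mul_le_mul_right (hφ j hj).2.1 _)
  have h1 : FF k f Z ≤ (k : ℝ) ^ 2 * θ ^ k * C * D Z * A.toReal := by
    refine (FF_sum_le hs hf Z).trans ?_
    have h2 : ∑ j ∈ s, FF k (φ j) Z ≤ s.card • (C * θ ^ k * D Z * A.toReal) :=
      Finset.sum_le_card_nsmul _ _ _ fun j hj => ((hφ j hj).2.2.2 _ (hbd j hj) Z).2 hZ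
    rw [nsmul_eq_mul] at h2
    have h3 : 0 ≤ C * θ ^ k * D Z * A.toReal :=
      mul_nonneg (mul_nonneg hCθ (hD Z).1) ENNReal.toReal_nonneg
    have h4 : (s.card : ℝ) ≤ k := by exact_mod_cast hs
    calc (k : ℝ) * ∑ j ∈ s, FF k (φ j) Z ≤ k * (k * (C * θ ^ k * D Z * A.toReal)) :=
          mul_le_mul_of_nonneg_left (h2.trans (mul_le_mul_of_nonneg_right h4 h3))
            (Nat.cast_nonneg _)
      _ = _ := by ring
  refine (ENNReal.ofReal_le_ofReal h1).trans (le_of_eq ?_)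
  have e : (k : ℝ) ^ (N + 2) * θ ^ k * C = (k : ℝ) ^ N * ((k : ℝ) ^ 2 * θ ^ k * C) := by ring
  rw [ENNReal.ofReal_mul' ENNReal.toReal_nonneg, ENNReal.ofReal_mul' (hD Z).1,
    ENNReal.ofReal_toReal hAt, e, ENNReal.ofReal_mul (pow_nonneg (Nat.cast_nonneg k) N),
    ENNReal.ofReal_pow (Nat.cast_nonneg _), ENNReal.ofReal_natCast,
    ENNReal.mul_inv (Or.inl hk0) (Or.inl hkt), hA, div_eq_mul_inv]
  calc _ = ((k : ℝ≥0∞) ^ N * ((k : ℝ≥0∞) ^ N)⁻¹) * (ENNReal.ofReal ((k : ℝ) ^ 2 * θ ^ k * C) *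
        ENNReal.ofReal (D Z) * (n0 * nrm w k f * (Ik ι k (1 / 2))⁻¹)) := by
        rw [ENNReal.mul_inv_cancel hk0 hkt, one_mul]
    _ = _ := by ring

end Pool.Agent.P.MP_59bdab_ag
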