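import Pool.Agent.P.MP_59bdab_ag.IfB

namespace Pool.Agent.P.MP_59bdab_ag

open Matrix MeasureTheory Filter Topology
open scoped ENNReal

theorem p_LOW (hLOW1 : S_LOW1) (hMUL : S_MUL) (hUP : S_UP) (hJUP : S_JUP) (hTIE : S_TIE)
    (hPROP : S_PROP) : S_LOW := by
  intro ι _ _ _ w k m s0 s s' hw hk hev hs0 hs0s hss' hs'1 hm ε hε
  have hpi := Real.pi_pos
  obtain ⟨⟨k0, hk0, χ, hχ, hχ0⟩, hL⟩ := hLOW1 ι
  set N := tri (Fintype.card ι) with hN
  set c := cg (Fintype.card ι) with hc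
  have hc0 : 0 < c := by rw [hc]; unfold cg; positivity
  set v := (vol ι).toReal with hv
  have hv0 : 0 ≤ v := ENNReal.toReal_nonneg
  obtain ⟨i⟩ := ‹Nonempty ι›
  obtain ⟨w₁, hw₁⟩ := (hPROP ι).1 (st1 i)
  -- choice of `δ`
  have hcont : Continuous fun δ : ℝ => 2 * c * v * (1 - δ * k0) ^ N := by fun_prop
  have h1 : ∀ᶠ δ in 𝓝[>] (0 : ℝ), (2 * c * v - ε / 4 < 2 * c * v * (1 - δ * k0) ^ N ∧
      4 * Real.pi * δ < s0) ∧ δ * k0 < 1 / 2 := by
    refine Eventually.filter_mono nhdsWithin_le_nhds (Eventually.and (Eventually.and ?_ ?_) ?_)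
    · exact (hcont.tendsto 0).eventually_const_lt (by simp; linarith)
    · exact ((by fun_prop : Continuous fun δ : ℝ => 4 * Real.pi * δ).tendsto 0).eventually_lt_const
        (by simpa using hs0)
    · exact ((by fun_prop : Continuous fun δ : ℝ => δ * k0).tendsto 0).eventually_lt_const
        (by simp)
  obtain ⟨δ, ⟨⟨hδ1, hδ2⟩, hδ3⟩, hδ0⟩ := (h1.and self_mem_nhdsWithin).exists
  have hδ0 : 0 < δ := hδ0
  set a : ℕ → ℕ := fun n => ⌊δ * k n⌋₊ with ha
  have ha1 : ∀ n, (a n : ℝ) ≤ δ * k n := fun n => Nat.floor_le (by positivity)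
  have ha2 : ∀ n, δ * k n < (a n : ℝ) + 1 := fun n => Nat.lt_floor_add_one _
  have hak : ∀ n, ((a n * k0 : ℕ) : ℝ) ≤ δ * k0 * k n := fun n => by
    push_cast
    have := mul_le_mul_of_nonneg_right (ha1 n) (Nat.cast_nonneg (α := ℝ) k0)
    linarith
  have hle : ∀ n, a n * k0 ≤ k n := fun n => by
    have h := hak n
    have h2 : (0 : ℝ) ≤ k n := Nat.cast_nonneg _
    have : ((a n * k0 : ℕ) : ℝ) ≤ k n := by nlinarith
    exact_mod_cast this
  set k' : ℕ → ℕ := fun n => k n - a n * k0 with hk'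
  have hkk : ∀ n, k' n + a n * k0 = k n := fun n => Nat.sub_add_cancel (hle n)
  have hk'ge : ∀ n, (1 - δ * k0) * k n ≤ k' n := fun n => by
    have h := hak n
    have h2 : ((k' n : ℝ)) + ((a n * k0 : ℕ) : ℝ) = k n := by exact_mod_cast hkk n
    linarith
  have hkR : Tendsto (fun n => (k n : ℝ)) atTop atTop := tendsto_natCast_atTop_atTop.comp hk
  have hk'top : Tendsto k' atTop atTop := by
    rw [← tendsto_natCast_atTop_iff (R := ℝ)]
    exact tendsto_atTop_mono hk'ge (hkR.const_mul_atTop (by linarith))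
  have hev' : ∀ n, Even (Fintype.card ι * k' n) := fun n => by
    have h := hev n
    rw [← hkk n, mul_add, Nat.even_add] at h
    exact h.mpr ((hk0.mul_left _).mul_left _)
  have hkpos : ∀ᶠ n in atTop, (0 : ℝ) < k n := hkR.eventually_gt_atTop 0
  have hlow : ∀ᶠ n in atTop, 4 * Real.pi * δ ≤ 4 * Real.pi * ((a n + 1 : ℕ) : ℝ) / k n := by
    filter_upwards [hkpos] with n hn
    rw [le_div_iff₀ hn]
    push_cast
    have := ha2 n
    nlinarith
  have hfin := (hUP ι w k (fun n => a n + 1) (4 * Real.pi * δ) (2 * Real.pi * δ) hw hk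
    (by positivity) (by nlinarith [mul_pos hpi hδ0]) hlow).1
  have ham : ∀ᶠ n in atTop, a n + 1 ≤ m n := by
    filter_upwards [hkpos, hm, hkR.eventually_ge_atTop (4 * Real.pi / (s0 - 4 * Real.pi * δ))]
      with n hn h2 h3
    have h4 := h2.1
    rw [le_div_iff₀ hn] at h4
    rw [div_le_iff₀ (by linarith)] at h3
    have h5 := ha1 n
    have h6 : 4 * Real.pi * ((a n + 1 : ℕ) : ℝ) ≤ 4 * Real.pi * m n := by
      push_cast; nlinarith
    exact_mod_cast le_of_mul_le_mul_left h6 (by positivity)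
  obtain ⟨ε₁, hε₁, hε₁', hT⟩ := hTIE ι i w w₁ s s' hw hw₁ (by linarith) hss' hs'1 (ε / (4 * c))
    (by positivity) (min (4 * Real.pi * δ / 3) (1 - s)) (lt_min (by positivity) (by linarith))
  rw [lt_min_iff] at hε₁'
  have hJ := hJUP ι i w₁ k (fun n => a n + 1) m (4 * Real.pi * δ) s ε₁ hw₁ hk hε₁
    (by linarith [hε₁'.1]) (by linarith [hε₁'.2]) (by
      filter_upwards [hlow, ham, hm, hfin] with n h1 h2 h3 h4 using ⟨h1, h2, h3.2, h4⟩)
    (ε / 4) (by positivity)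
  have hL' := hk'top.eventually (hL (ε / 4) (by positivity))
  filter_upwards [hJ, hL', hfin, hkpos] with n h1 h2 h3 h4
  have h5 := (hMUL ι).2 k0 χ hχ hχ0 (k' n) (a n) (by rw [hkk n]; exact h3)
  have h6 := h2 (hev' n) h5.1
  have h7 : (Module.finrank ℂ (SF ι (k' n) 1) : ℝ) ≤ Module.finrank ℂ (SF ι (k n) (a n + 1)) := by
    have := h5.2
    rw [hkk n] at this
    exact_mod_cast this
  have hK : (0 : ℝ) < (k n : ℝ) ^ N := by positivity
  have h8 : ((1 - δ * k0) * k n) ^ N ≤ (k' n : ℝ) ^ N :=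
    pow_le_pow_left₀ (mul_nonneg (by linarith) h4.le) (hk'ge n) N
  have h9 : (k' n : ℝ) ^ N ≤ (k n : ℝ) ^ N :=
    pow_le_pow_left₀ (Nat.cast_nonneg _) (by exact_mod_cast Nat.sub_le _ _) N
  rw [mul_pow] at h8
  have h10 : c * (mass w₁ (RR i s ε₁)).toReal ≤ 2 * c * (mass w (Short ι s')).toReal + ε / 4 := by
    have := mul_le_mul_of_nonneg_left hT hc0.le
    have e : c * (ε / (4 * c)) = ε / 4 := by field_simp
    nlinarith
  have h11 : (2 * c * v - ε / 2) * (k n : ℝ) ^ N ≤ (2 * c * v - ε / 4) * (k' n : ℝ) ^ N := by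
    have h12 := mul_le_mul_of_nonneg_left h8 (by positivity : 0 ≤ 2 * c * v)
    have h13 := mul_le_mul_of_nonneg_right hδ1.le hK.le
    nlinarith
  have h14 := mul_le_mul_of_nonneg_right h10 hK.le
  nlinarith

end Pool.Agent.P.MP_59bdab_ag
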