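import Pool.Agent.P.MP_59bdab_ag.IfB

/-!
Lower bound for the dimension of spaces of cusp forms.
-/

namespace Pool.Agent.P.MP_59bdab_ag

open Matrix MeasureTheory Filter Topology
open scoped ENNReal ComplexOrder

namespace LOW1

variable {ι : Type} [Fintype ι] [DecidableEq ι]

/-- The unitary normalisation of a function. -/
noncomputable def TT (ι : Type) [Fintype ι] [DecidableEq ι] (k : ℕ) :
    ((Sym2 ι → ℂ) → ℂ) →ₗ[ℂ] (HH ι → ℂ) where
  toFun f Z := f Z.1 * (√((Ym Z).det ^ k) : ℝ)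
  map_add' f g := by funext Z; simp [add_mul]
  map_smul' c f := by funext Z; simp [mul_assoc]

theorem enorm_TT (k : ℕ) (f : (Sym2 ι → ℂ) → ℂ) (Z : HH ι) :
    ‖TT ι k f Z‖ₑ ^ 2 = ENNReal.ofReal (FF k f Z) := by
  change ‖f Z.1 * (√((Ym Z).det ^ k) : ℝ)‖ₑ ^ 2 = _
  rw [← ofReal_norm, ← ENNReal.ofReal_pow (norm_nonneg _), norm_mul,
    Complex.norm_real, Real.norm_of_nonneg (Real.sqrt_nonneg _), mul_pow,
    Real.sq_sqrt (pow_nonneg (Ym_det_pos Z).le _), FF]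

/-- The good sets. -/
def EE (ι : Type) [Fintype ι] [DecidableEq ι] (l : ℕ) : Set (HH ι) :=
  Gd ι (1 - 1 / ((l : ℝ) + 1)) \ Short ι (1 / ((l : ℝ) + 1))

theorem short_mono {s t : ℝ} (h : s ≤ t) : Short ι s ⊆ Short ι t :=
  fun _ ⟨v, h1, h2⟩ => ⟨v, h1, h2.trans_le h⟩

theorem lim (hPROP : S_PROP) (hMULT : S_MULT) (hQC : S_QC) {w : HH ι → ℝ≥0∞}
    (hw : IsWt (SpZ ι) (HH ι) w) :
    Tendsto (fun l => (μH ι).withDensity w (EE ι l)) atTop (𝓝 (vol ι)) := by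
  obtain ⟨-, -, -, h4, h5, -⟩ := hMULT ι
  have h1 := tendsto_measure_iUnion_atTop (μ := (μH ι).withDensity w) (s := EE ι)
    fun l l' h => Set.sdiff_subset_sdiff (h4 (sub_le_sub_left (Nat.one_div_le_one_div h) 1))
      (short_mono (Nat.one_div_le_one_div h))
  rwa [measure_congr (t := Set.univ) (ae_eq_univ.2 ?_), withDensity_apply _ .univ,
    Measure.restrict_univ, (hPROP ι).2.2.1 w hw] at h1
  refine withDensity_absolutelyContinuous _ _ (measure_mono_null (t := {Z | ¬ Z ∈ Free ι})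
    (fun W hW hF => hW ?_) (ae_iff.1 (hPROP ι).2.2.2.2.1))
  obtain ⟨ρ, hρ, h⟩ := h5 W hF
  obtain ⟨s, hs, h'⟩ := (hQC ι).2.2.2.1 W
  obtain ⟨l, hl⟩ := exists_nat_one_div_lt (lt_min (sub_pos.2 hρ) hs)
  rw [lt_min_iff] at hl
  exact Set.mem_iUnion.2 ⟨l, h4 (by linarith [hl.1]) h, fun h2 => h' (short_mono hl.2.le h2)⟩

theorem defin (hWT : S_WT) (hMEAS : S_MEAS) {w : HH ι → ℝ≥0∞} (hw : IsWt (SpZ ι) (HH ι) w)
    {k : ℕ} {f : (Sym2 ι → ℂ) → ℂ} (h0 : ∀ z, z ∉ HS ι → f z = 0) (hf : Mod ⊤ k f)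
    (h : nrm w k f = 0) : f = 0 := by
  have := (hMEAS ι).2.1
  have := (hMEAS ι).2.2.2.2.1
  have hc := continuous_FF (k := k) hf.1.continuousOn
  have hm := hc.measurable.ennreal_ofReal
  have h1 : ∫⁻ Z, ENNReal.ofReal (FF k f Z) ∂μH ι = 0 := by
    rw [(hWT _ _ _ w hw).1 _ hm]
    refine (lintegral_congr_ae ?_).trans lintegral_zero
    filter_upwards [(lintegral_eq_zero_iff (hm.mul hw.1)).1 h] with Z hZ
    simp only [hf.FF_smul (Subgroup.mem_top _), ← ENNReal.tsum_mul_right]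
    exact ENNReal.tsum_eq_zero.2 fun _ => hZ
  have h2 := (Continuous.ae_eq_iff_eq _ (ENNReal.continuous_ofReal.comp hc) continuous_const).1
    ((lintegral_eq_zero_iff hm).1 h1)
  funext z
  by_cases hz : z ∈ HS ι
  · have h3 := (ENNReal.ofReal_eq_zero.1 (congrFun h2 ⟨z, hz⟩)).antisymm (FF_nonneg _ _ _)
    simpa [FF, (Ym_det_pos ⟨z, hz⟩).ne'] using h3
  · exact h0 z hz

end LOW1

open LOW1 in
theorem p_LOW1 (hPLOW : S_PLOW) (hDIML : S_DIML) (hPROP : S_PROP) (hMULT : S_MULT) (hQC : S_QC)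
    (hQ : S_Q) (hBDD : S_BDD) (hVAN : S_VAN) (hVFIN : S_VFIN) (hWT : S_WT) (hMEAS : S_MEAS) :
    S_LOW1 := by
  intro ι _ _ _
  obtain ⟨w, hw⟩ := (hPROP ι).2.1
  have h1 := lim hPROP hMULT hQC hw
  have h2 := fun (l : ℕ) => hPLOW ι w hw _ (sub_lt_self 1 (Nat.one_div_pos_of_nat (n := l))) _
    (Nat.one_div_pos_of_nat (n := l)) _ (Nat.one_div_pos_of_nat (n := l))
  refine ⟨?_, fun ε hε => ?_⟩
  · obtain ⟨l, hl⟩ := (h1.eventually_ne (hPROP ι).2.2.2.1).exists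
    obtain ⟨W, hW⟩ := nonempty_of_measure_ne_zero hl
    obtain ⟨k, hk, h⟩ := (Nat.frequently_even.and_eventually (h2 l)).exists
    obtain ⟨P, h3, h4, -⟩ := h (hk.mul_left _) W hW.1 hW.2
    exact ⟨k, hk, P, h3, h4⟩
  set ν := (μH ι).withDensity w with hν
  have hν1 : ν Set.univ ≠ ⊤ := by
    rw [hν, withDensity_apply _ .univ, Measure.restrict_univ, (hPROP ι).2.2.1 w hw]
    exact hVFIN.1 ι
  have h3 := ((tendsto_const_nhds (x := 2 * cg (Fintype.card ι))).sub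
    tendsto_one_div_add_atTop_nhds_zero_nat).mul ((ENNReal.tendsto_toReal (hVFIN.1 ι)).comp h1)
  rw [sub_zero] at h3
  obtain ⟨l, hl⟩ := (h3.eventually (Ici_mem_nhds (sub_lt_self _ hε))).exists
  have hE : MeasurableSet (EE ι l) :=
    ((hMULT ι).2.2.1 _).measurableSet.diff ((hQ ι).2.2.2.2.2.2.2.2.2.1 _).measurableSet
  filter_upwards [h2 l, eventually_ge_atTop 13] with k hk hk' he hfin
  have hf := fun f (hf : f ∈ SF ι k 1) => (hVAN ι k 1 f).1.1 hf
  have hm := fun f (h : f ∈ SF ι k 1) =>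
    (continuous_FF (k := k) (hf f h).2.1.1.continuousOn).measurable.ennreal_ofReal
  have hn : ∀ f ∈ SF ι k 1, ∫⁻ x, ‖TT ι k f x‖ₑ ^ 2 ∂ν = nrm w k f := fun f h => by
    simp_rw [enorm_TT]
    rw [hν, lintegral_withDensity_eq_lintegral_mul _ hw.1 (hm f h)]
    exact lintegral_congr fun Z => mul_comm _ _
  have h4 := hDIML _ _ ν (SF ι k 1) (TT ι k) ((EE ι l).indicator fun _ => ENNReal.ofReal
    ((2 * cg (Fintype.card ι) - 1 / ((l : ℝ) + 1)) * (k : ℝ) ^ tri (Fintype.card ι)))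
    (fun f h => (((hf f h).2.1.1.continuousOn.comp_continuous continuous_subtype_val
      fun Z => Z.2).mul (Complex.continuous_ofReal.comp
        (continuous_Ym.matrix_det.pow k).sqrt)).measurable)
    (fun f h => by
      obtain ⟨M, hM⟩ := (hBDD ι k f).1 1 le_rfl hk' h
      simp_rw [enorm_TT]
      refine ne_top_of_le_ne_top ?_ (lintegral_mono fun Z => ENNReal.ofReal_le_ofReal (hM Z))
      rw [lintegral_const]
      exact ENNReal.mul_ne_top ENNReal.ofReal_ne_top hν1)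
    (fun f h h0 => defin hWT hMEAS hw (hf f h).1 (hf f h).2.1 ((hn f h).symm.trans h0))
    (ae_of_all _ fun W => by
      by_cases hW : W ∈ EE ι l
      · obtain ⟨P, h5, h6, h7⟩ := hk he W hW.1 hW.2
        exact Or.inr ⟨P, h5, h6, by rwa [Set.indicator_of_mem hW, hn P h5, enorm_TT]⟩
      · exact Or.inl (Set.indicator_of_notMem hW _))
  rw [lintegral_indicator_const hE, ← ENNReal.ofReal_toReal (a := ν (EE ι l))
    (ne_top_of_le_ne_top hν1 (measure_mono (Set.subset_univ _))),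
    ← ENNReal.ofReal_mul' ENNReal.toReal_nonneg, ← ENNReal.ofReal_natCast,
    ENNReal.ofReal_le_ofReal_iff (Nat.cast_nonneg _), mul_right_comm] at h4
  exact (mul_le_mul_of_nonneg_right hl (by positivity)).trans h4

end Pool.Agent.P.MP_59bdab_ag
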