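import Pool.Agent.P.MP_59bdab_ag.IfB

/-!
The compactness criterion of Mahler for the Siegel modular group.
-/

namespace Pool.Agent.P.MP_59bdab_ag

open Matrix MeasureTheory Filter Topology

namespace MAH

variable {n : Type} [Fintype n]

theorem qf_nonneg {Q : Matrix n n ℝ} (hQ : Q.PosDef) (v : n → ℤ) : 0 ≤ qf Q v := by
  simpa [qf] using hQ.posSemidef.dotProduct_mulVec_nonneg (cz v)

theorem qf_add {Q : Matrix n n ℝ} (hQ : Q.PosDef) (u v : n → ℤ) :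
    qf Q (u + v) ≤ 2 * qf Q u + 2 * qf Q v := by
  have h := qf_nonneg hQ (u - v)
  have e1 : cz (u + v) = cz u + cz v := by funext i; simp [cz]
  have e2 : cz (u - v) = cz u - cz v := by funext i; simp [cz]
  simp only [qf, e1, e2, mulVec_add, mulVec_sub, add_dotProduct, sub_dotProduct, dotProduct_add,
    dotProduct_sub] at h ⊢
  linarith

theorem qf_single [DecidableEq n] (Q : Matrix n n ℝ) (i : n) : qf Q (Pi.single i 1) = Q i i := by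
  have e : cz (Pi.single i 1 : n → ℤ) = Pi.single i 1 := by
    funext j; simp [cz, Pi.single_apply]
  simp [qf, e]

variable {ι : Type} [Fintype ι] [DecidableEq ι]

theorem cpt (hQ : S_Q) (hQC : S_QC) (C : ℝ) (U : Matrix (ι ⊕ ι) (ι ⊕ ι) ℤ) (hU : IsUnit U.det) :
    ∃ K : Set (HH ι), IsCompact K ∧ ∀ Z, (∀ j, qf (Qm Z) (fun i => U i j) ≤ C) → Z ∈ K := by
  have key : ∀ i : ι ⊕ ι, ∃ D : ℝ, ∀ Z : HH ι, (∀ j, qf (Qm Z) (fun i => U i j) ≤ C) →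
      qf (Qm Z) (Pi.single i 1) ≤ D := fun i => by
    have e : (Pi.single i 1 : ι ⊕ ι → ℤ) = ∑ j, U⁻¹ j i • fun k => U k j := by
      funext k
      have := congrFun (congrFun (mul_nonsing_inv U hU) k) i
      rw [mul_apply, one_apply] at this
      simp only [Finset.sum_apply, Pi.smul_apply, smul_eq_mul, Pi.single_apply, ← this, mul_comm]
    rw [e]
    refine Finset.sum_induction _ (fun v => ∃ D : ℝ, ∀ Z : HH ι,
      (∀ j, qf (Qm Z) (fun i => U i j) ≤ C) → qf (Qm Z) v ≤ D) ?_ ⟨0, fun Z _ => ?_⟩ fun j _ => ?_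
    · rintro u v ⟨D, hD⟩ ⟨E, hE⟩
      refine ⟨2 * D + 2 * E, fun Z hZ => (qf_add ((hQ ι).1 Z).1 u v).trans ?_⟩
      linarith [hD Z hZ, hE Z hZ]
    · have e0 : cz (0 : ι ⊕ ι → ℤ) = 0 := by funext i; simp [cz]
      simp [qf, e0]
    · refine ⟨(U⁻¹ j i : ℤ) ^ 2 * C, fun Z hZ => ?_⟩
      rw [(hQ ι).2.2.2.2.2.2.2.2.1]
      exact mul_le_mul_of_nonneg_left (hZ j) (sq_nonneg _)
  choose D hD using key
  obtain ⟨E, hE⟩ := (Set.finite_range D).bddAbove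
  exact ⟨_, (hQC ι).1 E, fun Z hZ i => (qf_single _ i).symm.trans_le
    ((hD i Z hZ).trans (hE ⟨i, rfl⟩))⟩

theorem one (hQ : S_Q) (hQC : S_QC) (C : ℝ) (Ω : Matrix (ι ⊕ ι) (ι ⊕ ι) ℤ) :
    ∃ K : Set (HH ι), IsCompact K ∧ ∀ (Z : HH ι) (U : Matrix (ι ⊕ ι) (ι ⊕ ι) ℤ), IsUnit U.det →
      Uᵀ * J ι ℤ * U = Ω → (∀ j, qf (Qm Z) (fun i => U i j) ≤ C) → ∃ γ : SpZ ι, γ • Z ∈ K := by
  by_cases h : ∃ V : Matrix (ι ⊕ ι) (ι ⊕ ι) ℤ, IsUnit V.det ∧ Vᵀ * J ι ℤ * V = Ω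
  swap
  · exact ⟨∅, isCompact_empty, fun Z U h1 h2 _ => absurd ⟨U, h1, h2⟩ h⟩
  obtain ⟨V, hV, hΩ⟩ := h
  obtain ⟨K, hK, hK'⟩ := cpt hQ hQC C V hV
  refine ⟨K, hK, fun Z U hU e hZ => ?_⟩
  have hm : V * U⁻¹ ∈ symplecticGroup ι ℤ := by
    rw [SymplecticGroup.mem_iff', transpose_mul]
    calc U⁻¹ᵀ * Vᵀ * J ι ℤ * (V * U⁻¹) = U⁻¹ᵀ * (Vᵀ * J ι ℤ * V) * U⁻¹ := by
          simp only [Matrix.mul_assoc]
      _ = (U * U⁻¹)ᵀ * J ι ℤ * (U * U⁻¹) := by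
          rw [hΩ, ← e, transpose_mul]; simp only [Matrix.mul_assoc]
      _ = J ι ℤ := by rw [mul_nonsing_inv U hU, transpose_one, Matrix.one_mul, Matrix.mul_one]
  refine ⟨⟨_, hm⟩, hK' _ fun j => ?_⟩
  have e1 : (fun i => V i j) = (V * U⁻¹) *ᵥ fun i => U i j := by
    funext i
    conv_lhs => rw [← nonsing_inv_mul_cancel_right U V hU]
    rfl
  rw [e1]
  exact ((hQ ι).2.2.1 ⟨_, hm⟩ Z _).trans_le (hZ j)

end MAH

open MAH in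
theorem p_MAH (hHERM : S_HERM) (hQ : S_Q) (hQC : S_QC) : S_MAH := by
  intro ι _ _
  have h1 : ∀ s > 0, ∃ K : Set (HH ι), IsCompact K ∧
      ∀ Z, Z ∉ Short ι s → ∃ γ : SpZ ι, γ • Z ∈ K := fun s hs => by
    obtain ⟨C, hC⟩ := hHERM (ι ⊕ ι) s 1 hs
    choose K hK hK' using one (ι := ι) hQ hQC C
    have hf : {Ω : Matrix (ι ⊕ ι) (ι ⊕ ι) ℤ | ∀ a b, Ω a b ∈ Set.Icc (-⌈|C|⌉) ⌈|C|⌉}.Finite :=
      Set.Finite.pi' fun _ => Set.Finite.pi' fun _ => Set.finite_Icc _ _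
    refine ⟨_, hf.isCompact_biUnion fun Ω _ => hK Ω, fun Z hZ => ?_⟩
    obtain ⟨hp, hd⟩ := (hQ ι).1 Z
    obtain ⟨U, hU, hb⟩ := hC (Qm Z) hp hd.le fun v hv => not_lt.1 fun h => hZ ⟨v, hv, h⟩
    obtain ⟨γ, hγ⟩ := hK' _ Z U hU rfl hb
    refine ⟨γ, Set.mem_biUnion (fun a b => abs_le.1 ?_) hγ⟩
    have e : (Uᵀ * J ι ℤ * U) a b = om (fun i => U i a) fun i => U i b := by
      rw [Matrix.mul_assoc]; rfl
    have h2 := ((hQ ι).2.2.2.2.1 Z _ _).trans (mul_le_mul (hb a) (hb b) (qf_nonneg hp _)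
      ((qf_nonneg hp _).trans (hb a)))
    rw [← sq, sq_le_sq, ← e, ← Int.cast_abs] at h2
    exact_mod_cast h2.trans (Int.le_ceil _)
  refine ⟨h1, fun ⟨i⟩ => ?_⟩
  obtain ⟨K, hK, hK'⟩ := h1 1 one_pos
  have hc : Continuous fun Z : HH ι => Qm Z (Sum.inl i) (Sum.inl i) :=
    (continuous_apply_apply _ _).comp (hQ ι).2.2.2.2.2.1
  obtain ⟨D, hD⟩ := hK.bddAbove_image hc.continuousOn
  refine ⟨max (D + 1) 1, fun Z => ?_⟩
  by_cases h : Z ∈ Short ι 1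
  · obtain ⟨v, hv, h⟩ := h
    exact ⟨v, hv, h.trans_le (le_max_right _ _)⟩
  · obtain ⟨γ, hγ⟩ := hK' Z h
    refine ((hQ ι).2.2.2.2.2.2.2.2.2.2 _ γ Z).1 ⟨Pi.single (Sum.inl i) 1, by simp, ?_⟩
    rw [qf_single]
    exact ((hD ⟨_, hγ, rfl⟩).trans_lt (lt_add_one D)).trans_le (le_max_left _ _)

end Pool.Agent.P.MP_59bdab_ag
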