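import Pool.Agent.P.MP_59bdab_ag.IfB

/-!
The invariant measure on the Siegel half space.
-/

namespace Pool.Agent.P.MP_59bdab_ag

open Matrix MeasureTheory Filter Topology Set
open scoped ENNReal ComplexOrder

namespace MEAS

/-- Derivative from a continuous factorisation of the increment. -/
theorem carath {E F : Type} [NormedAddCommGroup E] [NormedSpace ℂ E] [NormedAddCommGroup F]
    [NormedSpace ℂ F] (f : E → F) (Φ : E → E →L[ℂ] F) (z : E) (hΦ : ContinuousAt Φ z)
    (h : ∀ᶠ w in 𝓝 z, f w - f z = Φ w (w - z)) : HasFDerivAt f (Φ z) z := by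
  rw [hasFDerivAt_iff_isLittleO, Asymptotics.isLittleO_iff]
  intro c hc
  have h1 : ∀ᶠ w in 𝓝 z, ‖Φ w - Φ z‖ < c := by
    have := Metric.tendsto_nhds.mp hΦ c hc
    simpa only [dist_eq_norm] using this
  filter_upwards [h, h1] with w hw h2
  rw [hw]
  calc ‖Φ w (w - z) - Φ z (w - z)‖ = ‖(Φ w - Φ z) (w - z)‖ := rfl
    _ ≤ ‖Φ w - Φ z‖ * ‖w - z‖ := (Φ w - Φ z).le_opNorm _
    _ ≤ c * ‖w - z‖ := mul_le_mul_of_nonneg_right h2.le (norm_nonneg _)

variable {ι : Type} [Fintype ι] [DecidableEq ι]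

/-- The map `q ↦ P q Q` in coordinates. -/
noncomputable def LL (P Q : Matrix ι ι ℂ) : (Sym2 ι → ℂ) →L[ℂ] (Sym2 ι → ℂ) :=
  LinearMap.toContinuousLinearMap
    { toFun := fun q => coord (P * mat q * Q)
      map_add' := fun a b => by rw [mat_add, Matrix.mul_add, Matrix.add_mul, coord_add]
      map_smul' := fun c a => by
        rw [mat_smul, Matrix.mul_smul, Matrix.smul_mul, coord_smul]; rfl }

omit [DecidableEq ι] in
theorem LL_apply (P Q : Matrix ι ι ℂ) (q : Sym2 ι → ℂ) : LL P Q q = coord (P * mat q * Q) := rfl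

theorem act_sub (γ : SpR ι) (Z W : HH ι) :
    actF γ.1 W.1 - actF γ.1 Z.1 = LL ((den γ.1 Z.1)⁻¹)ᵀ (den γ.1 W.1)⁻¹ (W.1 - Z.1) := by
  have h := den_num γ W.1 Z.1
  rw [← actF_mul_den γ W, ← actF_mul_den γ Z, transpose_mul, mat_transpose] at h
  have hu : IsUnit (den γ.1 Z.1)ᵀ.det := by rw [det_transpose]; exact den_isUnit γ Z
  have h2 : ((den γ.1 Z.1)⁻¹)ᵀ * mat (W.1 - Z.1) * (den γ.1 W.1)⁻¹ =
      mat (actF γ.1 W.1 - actF γ.1 Z.1) := by
    rw [mat_sub, mat_sub, ← h, transpose_nonsing_inv]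
    have : (den γ.1 Z.1)ᵀ * (mat (actF γ.1 W.1) * den γ.1 W.1) -
        (den γ.1 Z.1)ᵀ * mat (actF γ.1 Z.1) * den γ.1 W.1 =
        (den γ.1 Z.1)ᵀ * ((mat (actF γ.1 W.1) - mat (actF γ.1 Z.1)) * den γ.1 W.1) := by
      noncomm_ring
    rw [this, ← Matrix.mul_assoc, nonsing_inv_mul _ hu, Matrix.one_mul, Matrix.mul_assoc,
      mul_nonsing_inv _ (den_isUnit γ W), Matrix.mul_one]
  rw [LL_apply, h2, coord_mat]

theorem hasFDeriv (γ : SpR ι) (Z : HH ι) :
    HasFDerivAt (actF γ.1) (LL ((den γ.1 Z.1)⁻¹)ᵀ (den γ.1 Z.1)⁻¹) Z.1 := by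
  refine carath (actF γ.1) (fun w => LL ((den γ.1 Z.1)⁻¹)ᵀ (den γ.1 w)⁻¹) Z.1 ?_ ?_
  · refine continuousAt_clm_apply.mpr fun q => ?_
    simp only [LL_apply]
    refine continuous_coord.continuousAt.comp ?_
    have h1 : ContinuousAt (fun w => (den γ.1 w)⁻¹) Z.1 := by
      simp only [Matrix.inv_def, Ring.inverse_eq_inv']
      exact ((continuous_den γ.1).matrix_det.continuousAt.inv₀ (jf_ne_zero γ Z)).smul
        (continuous_den γ.1).matrix_adjugate.continuousAt
    exact (continuous_const.matrix_mul continuous_id).continuousAt.comp h1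
  · filter_upwards [(isOpen_HS ι).mem_nhds Z.2] with w hw
    exact act_sub γ Z ⟨w, hw⟩

theorem det_LL (hDET : S_DET) (P : Matrix ι ι ℂ) :
    ((LL Pᵀ P).restrictScalars ℝ).det = (‖P.det‖ ^ 2) ^ (Fintype.card ι + 1) := by
  have h1 : (LL Pᵀ P).det = P.det ^ (Fintype.card ι + 1) := by
    rw [← det_transpose P, ← hDET ℂ ι Pᵀ]
    rfl
  rw [← pow_mul, mul_comm 2, pow_mul, ← norm_pow, ← h1, ← Complex.normSq_eq_norm_sq,
    ← Algebra.norm_complex_apply, ContinuousLinearMap.det, ContinuousLinearMap.det,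
    ← LinearMap.det_restrictScalars]
  rfl

/-- The density. -/
noncomputable def dens (z : Sym2 ι → ℂ) : ℝ≥0∞ :=
  ENNReal.ofReal (((mat fun p => (z p).im).det ^ (Fintype.card ι + 1))⁻¹)

theorem measurable_dens : Measurable (dens : (Sym2 ι → ℂ) → ℝ≥0∞) := by
  refine Measurable.ennreal_ofReal (Measurable.inv (Continuous.measurable ?_))
  exact (continuous_mat.comp (continuous_pi fun p =>
    Complex.continuous_im.comp (continuous_apply p))).matrix_det.pow _

theorem mu_eq : μH ι = (Measure.comap Subtype.val volume).withDensity fun Z : HH ι => dens Z.1 :=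
  rfl

theorem mu_apply {s : Set (HH ι)} (hs : MeasurableSet s) :
    μH ι s = ∫⁻ z in Subtype.val '' s, dens z := by
  rw [mu_eq, withDensity_apply _ hs]
  exact setLIntegral_subtype (isOpen_HS ι).measurableSet s dens

theorem dens_smul (hDET : S_DET) (γ : SpR ι) (Z : HH ι) :
    ENNReal.ofReal |((LL ((den γ.1 Z.1)⁻¹)ᵀ (den γ.1 Z.1)⁻¹).restrictScalars ℝ).det| *
      dens (actF γ.1 Z.1) = dens Z.1 := by
  rw [det_LL hDET, abs_of_nonneg (by positivity), dens, dens,
    ← ENNReal.ofReal_mul (by positivity)]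
  congr 1
  change _ * ((Ym (γ • Z)).det ^ _)⁻¹ = ((Ym Z).det ^ _)⁻¹
  rw [← det_Ym_smul γ Z, det_nonsing_inv, Ring.inverse_eq_inv', norm_inv, mul_pow, mul_inv,
    mul_comm, inv_pow, inv_pow]
  rfl

theorem inv_R (hDET : S_DET) : SMulInvariantMeasure (SpR ι) (HH ι) (μH ι) := by
  refine ⟨fun γ s hs => ?_⟩
  have ht : MeasurableSet ((fun Z : HH ι => γ • Z) ⁻¹' s) := measurable_const_smul γ hs
  have hH := (isOpen_HS ι).measurableSet
  have ht' : MeasurableSet (Subtype.val '' ((fun Z : HH ι => γ • Z) ⁻¹' s)) :=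
    (MeasurableEmbedding.subtype_coe hH).measurableSet_image.mpr ht
  have him : Subtype.val '' s =
      actF γ.1 '' (Subtype.val '' ((fun Z : HH ι => γ • Z) ⁻¹' s)) := by
    ext z
    constructor
    · rintro ⟨Z, hZ, rfl⟩
      refine ⟨_, ⟨γ⁻¹ • Z, by simpa using hZ, rfl⟩, ?_⟩
      rw [← smul_val, smul_inv_smul]
    · rintro ⟨_, ⟨Z, hZ, rfl⟩, rfl⟩
      exact ⟨γ • Z, hZ, rfl⟩
  rw [mu_apply hs, mu_apply ht, him,
    lintegral_image_eq_lintegral_abs_det_fderiv_mul volume ht'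
      (f' := fun z => (LL ((den γ.1 z)⁻¹)ᵀ (den γ.1 z)⁻¹).restrictScalars ℝ)]
  · refine setLIntegral_congr_fun ht' ?_
    rintro _ ⟨Z, -, rfl⟩
    exact (dens_smul hDET γ Z).symm
  · rintro _ ⟨Z, -, rfl⟩
    exact ((hasFDeriv γ Z).restrictScalars ℝ).hasFDerivWithinAt
  · rintro _ ⟨Z, -, rfl⟩ _ ⟨W, -, rfl⟩ h
    have h2 : γ • Z = γ • W := Subtype.ext h
    rw [smul_left_cancel γ h2]

theorem locFin : IsLocallyFiniteMeasure (μH ι) := by
  have hH := (isOpen_HS ι).measurableSet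
  have : IsFiniteMeasureOnCompacts (Measure.comap (Subtype.val : HH ι → _) volume) :=
    IsFiniteMeasureOnCompacts.comap' _ continuous_subtype_val (MeasurableEmbedding.subtype_coe hH)
  exact IsLocallyFiniteMeasure.withDensity_ofReal
    ((continuous_Ym.matrix_det.pow _).inv₀ fun Z => (pow_pos (Ym_det_pos Z) _).ne')

theorem openPos : (μH ι).IsOpenPosMeasure := by
  have : (Measure.comap (Subtype.val : HH ι → _) volume).IsOpenPosMeasure :=
    Measure.IsOpenPosMeasure.comap _ (isOpen_HS ι).isOpenEmbedding_subtypeVal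
  refine Measure.AbsolutelyContinuous.isOpenPosMeasure
    (μ := Measure.comap (Subtype.val : HH ι → _) volume) ?_
  refine withDensity_absolutelyContinuous'
    (measurable_dens.comp measurable_subtype_coe).aemeasurable (ae_of_all _ fun Z => ?_)
  exact (ENNReal.ofReal_pos.mpr (inv_pos.mpr (pow_pos (Ym_det_pos Z) _))).ne'

end MEAS

open MEAS in
theorem p_MEAS (hDET : S_DET) : S_MEAS := by
  intro ι _ _
  have hR : SMulInvariantMeasure (SpR ι) (HH ι) (μH ι) := inv_R hDET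
  have hZ : SMulInvariantMeasure (SpZ ι) (HH ι) (μH ι) :=
    ⟨fun γ s hs => hR.measure_preimage_smul (toR γ) hs⟩
  have hL : IsLocallyFiniteMeasure (μH ι) := locFin
  have hH := (isOpen_HS ι).measurableSet
  refine ⟨hR, hZ, fun G => ⟨fun γ s hs => hZ.measure_preimage_smul γ.1 hs⟩, inferInstance,
    openPos, inferInstance, fun φ hφ => ?_, fun s hs => ?_⟩
  · exact (lintegral_withDensity_eq_lintegral_mul _
      (measurable_dens.comp measurable_subtype_coe) (hφ.comp measurable_subtype_coe)).trans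
      (lintegral_subtype_comap hH fun z => dens z * φ z)
  · refine withDensity_absolutelyContinuous _ _ ?_
    rw [(MeasurableEmbedding.subtype_coe hH).comap_apply]
    refine measure_mono_null ?_ hs
    rintro _ ⟨Z, hZ, rfl⟩
    exact hZ

end Pool.Agent.P.MP_59bdab_ag
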