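import Pool.Agent.P.MP_59bdab_ag.IfB

/-! The gain of a rank one move. -/

namespace Pool.Agent.P.MP_59bdab_ag

open Matrix MeasureTheory

namespace MOVE

theorem gain {k j : ℕ} (hk : 0 < k) {s q : ℝ} (hs : s = 4 * Real.pi * j / k) (hs0 : 0 < s)
    (hq : 0 < q) (D n : ℝ) :
    psi (s / q) ^ k * (n ^ 2 * (D * (1 + (s⁻¹ - q⁻¹) * q)) ^ k) =
      (Real.exp (-(2 * Real.pi * j * (q⁻¹ - s⁻¹))) * n) ^ 2 * D ^ k := by
  have hk' : (0 : ℝ) < k := by exact_mod_cast hk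
  have h1 : Real.exp (-(2 * Real.pi * j * (q⁻¹ - s⁻¹))) ^ 2 = Real.exp (1 - s / q) ^ k := by
    rw [← Real.exp_nat_mul, ← Real.exp_nat_mul]
    have h2 : 2 * Real.pi * j = k * s / 2 := by
      rw [hs]
      field_simp
      ring
    rw [h2]
    refine congrArg Real.exp ?_
    field_simp
    push_cast
    ring
  have h3 : (s / q) ^ k * (1 + (s⁻¹ - q⁻¹) * q) ^ k = 1 := by
    rw [← mul_pow, show s / q * (1 + (s⁻¹ - q⁻¹) * q) = 1 by field_simp; ring, one_pow]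
  rw [mul_pow (Real.exp _), h1, psi, mul_pow, mul_pow]
  linear_combination Real.exp (1 - s / q) ^ k * n ^ 2 * D ^ k * h3

variable {ι : Type} [Fintype ι] [DecidableEq ι]

omit [Fintype ι] [DecidableEq ι] in
theorem lv_ne {p : ι → ℤ} (hp : Prim1 p) : lv p ≠ 0 := by
  intro h
  obtain ⟨z, hz⟩ := hp (fun _ => 1 / 2) (fun i => ⟨0, by
    have : p i = 0 := congrFun h (Sum.inl i)
    simp [this]⟩) 0
  have h1 : (1 : ℚ) = 2 * z := by linarith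
  have h2 : (1 : ℤ) = 2 * z := by exact_mod_cast h1
  omega

theorem mem (hRK1 : S_RK1) (Z : HH ι) {p : ι → ℤ} (hq : 0 < qf (Qm Z) (lv p)) {τ : ℂ}
    (h : -(qf (Qm Z) (lv p))⁻¹ < τ.im) : Z.1 + τ • tv p ∈ HS ι := by
  obtain ⟨Z', h1, -⟩ := hRK1 ι Z p τ (by
    have := mul_lt_mul_of_pos_right h hq
    rw [neg_mul, inv_mul_cancel₀ hq.ne'] at this
    linarith)
  exact h1 ▸ Z'.2

theorem diff (hRK1 : S_RK1) (Z : HH ι) {p : ι → ℤ} (hq : 0 < qf (Qm Z) (lv p))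
    {f : (Sym2 ι → ℂ) → ℂ} (hf : DifferentiableOn ℂ f (HS ι)) :
    DifferentiableOn ℂ (fun τ : ℂ => f (Z.1 + τ • tv p)) {τ | -(qf (Qm Z) (lv p))⁻¹ < τ.im} :=
  hf.comp (f := fun τ : ℂ => Z.1 + τ • tv p) (by fun_prop) fun _ h => mem hRK1 Z hq h

theorem move (hRK1 : S_RK1) {k j : ℕ} (hk : 0 < k) {s : ℝ} (hs : s = 4 * Real.pi * j / k)
    (hs0 : 0 < s) (f : (Sym2 ι → ℂ) → ℂ) (Z : HH ι) {p : ι → ℤ} (hq : 0 < qf (Qm Z) (lv p)) {τ : ℂ}
    (h : τ.im = s⁻¹ - (qf (Qm Z) (lv p))⁻¹) : ∃ Z' : HH ι, Z'.1 = Z.1 + τ • tv p ∧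
      psi (s / qf (Qm Z) (lv p)) ^ k * FF k f Z' = (Real.exp (-(2 * Real.pi * j *
        ((qf (Qm Z) (lv p))⁻¹ - s⁻¹))) * ‖f (Z.1 + τ • tv p)‖) ^ 2 * (Ym Z).det ^ k := by
  obtain ⟨Z', h1, h2, -⟩ := hRK1 ι Z p τ (by
    rw [h, sub_mul, inv_mul_cancel₀ hq.ne', add_sub_cancel]
    positivity)
  exact ⟨Z', h1, by rw [FF, h2, h, h1, gain hk hs hs0 hq]⟩

theorem exists_max {u : ℝ → ℝ} (hu : Continuous u) (hp : Function.Periodic u 1) :
    ∃ x₀, ∀ x, u x ≤ u x₀ := by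
  obtain ⟨x₀, -, h⟩ := (isCompact_Icc (a := (0 : ℝ)) (b := 1)).exists_isMaxOn
    (Set.nonempty_Icc.2 zero_le_one) hu.continuousOn
  refine ⟨x₀, fun x => ?_⟩
  obtain ⟨y, hy, e⟩ := hp.exists_mem_Ico₀ one_pos x
  rw [e]
  exact h (Set.Ico_subset_Icc_self hy)

end MOVE

open MOVE in
theorem p_MOVE (hONE : S_ONE) (hRK1 : S_RK1) (hQ : S_Q) : S_MOVE := by
  intro ι _ _ k j f Z hk hj hf
  have hpos := (hQ ι).2.2.2.2.2.2.2.1 Z
  obtain ⟨s, hs⟩ : ∃ s : ℝ, s = 4 * Real.pi * j / k := ⟨_, rfl⟩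
  have hs0 : 0 < s := by
    rw [hs]
    positivity
  have hs1 : 0 < s⁻¹ := inv_pos.2 hs0
  rw [← hs]
  refine ⟨fun p hp hV hqs => ?_, fun i hE => ?_⟩
  · have hq := hpos _ (lv_ne hp)
    have hper : ∀ τ : ℂ, -(qf (Qm Z) (lv p))⁻¹ < τ.im →
        f (Z.1 + (τ + 1) • tv p) = f (Z.1 + τ • tv p) := fun τ h => by
      rw [add_smul, one_smul, ← add_assoc, (hV p hp _ (mem hRK1 Z hq h)).1]
    have hd := diff hRK1 Z hq hf
    obtain ⟨a, ha⟩ : ∃ a : ℝ, a = (qf (Qm Z) (lv p))⁻¹ - s⁻¹ := ⟨_, rfl⟩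
    have ha0 : 0 ≤ a := ha ▸ sub_nonneg.2 (inv_anti₀ hq hqs)
    have him : ∀ x : ℝ, (0 - a * Complex.I + x : ℂ).im = s⁻¹ - (qf (Qm Z) (lv p))⁻¹ := fun x => by
      simp [ha]
    have hlt : ∀ x : ℝ, -(qf (Qm Z) (lv p))⁻¹ < (0 - a * Complex.I + x : ℂ).im := fun x => by
      rw [him]
      linarith
    obtain ⟨x₀, hx₀⟩ := exists_max
      (u := fun x : ℝ => ‖f (Z.1 + (0 - a * Complex.I + x : ℂ) • tv p)‖)
      (hd.continuousOn.comp_continuous (f := fun x : ℝ => (0 - a * Complex.I + x : ℂ))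
        (by fun_prop) hlt).norm fun x => by
        beta_reduce
        rw [Complex.ofReal_add, Complex.ofReal_one, ← add_assoc, hper _ (hlt x)]
    have h1 := (hONE _ _ hd hper).2.1 j 0 a _ ha0 (by
      rw [Complex.zero_im, ha]
      linarith) (hV p hp _ Z.2).2 hx₀
    obtain ⟨Z', h2, h3⟩ := move hRK1 hk hs hs0 f Z hq (him x₀)
    refine ⟨Z', _, him x₀, h2, ?_⟩
    rw [h3, ← ha]
    rw [zero_smul, add_zero, Int.cast_natCast] at h1
    exact mul_le_mul_of_nonneg_right (pow_le_pow_left₀ (norm_nonneg _) h1 2)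
      (pow_nonneg (Ym_det_pos Z).le k)
  · have hq : 0 < qf (Qm Z) (lv (Pi.single i 1)) := hpos _ fun h => by
      simpa [lv] using congrFun h (Sum.inl i)
    have hE' : ∀ τ : ℂ, -(qf (Qm Z) (lv (Pi.single i 1)))⁻¹ < τ.im → ∀ t : ℝ,
        f (Z.1 + (τ + t) • tv (Pi.single i 1)) = Complex.exp (2 * Real.pi * Complex.I * j * t) *
          f (Z.1 + τ • tv (Pi.single i 1)) := fun τ h t => by
      rw [← hE _ (mem hRK1 Z hq h) t, add_smul, ← add_assoc, tv_single, ← Pi.single_smul' _ (t : ℂ),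
        smul_eq_mul, mul_one]
    have hcf : ∀ τ : ℂ, -(qf (Qm Z) (lv (Pi.single i 1)))⁻¹ < τ.im →
        cf (fun τ : ℂ => f (Z.1 + τ • tv (Pi.single i 1))) j τ =
          f (Z.1 + τ • tv (Pi.single i 1)) := fun τ h => by
      have e : ∀ t : ℝ, f (Z.1 + (τ + t) • tv (Pi.single i 1)) *
          Complex.exp (-(2 * Real.pi * Complex.I * (j : ℤ) * t)) =
          f (Z.1 + τ • tv (Pi.single i 1)) := fun t => by
        rw [hE' τ h t, mul_right_comm, ← Complex.exp_add, Int.cast_natCast, add_neg_cancel,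
          Complex.exp_zero, one_mul]
      simp only [cf, e]
      simp
    obtain ⟨a, ha⟩ : ∃ a : ℝ, a = (qf (Qm Z) (lv (Pi.single i 1)))⁻¹ - s⁻¹ := ⟨_, rfl⟩
    have him : (-(a * Complex.I) : ℂ).im = s⁻¹ - (qf (Qm Z) (lv (Pi.single i 1)))⁻¹ := by
      simp [ha]
    have h0 : -(qf (Qm Z) (lv (Pi.single i 1)))⁻¹ < (0 : ℂ).im := by simpa using hq
    have hlt : -(qf (Qm Z) (lv (Pi.single i 1)))⁻¹ < (-(a * Complex.I) : ℂ).im := by
      rw [him]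
      linarith
    have h1 := (hONE _ _ (diff hRK1 Z hq hf) fun τ h => by
      have h2 := hE' τ h 1
      rwa [Complex.ofReal_one, mul_one, mul_comm _ (j : ℂ), Complex.exp_nat_mul_two_pi_mul_I,
        one_mul] at h2).1 j _ _ hlt h0
    rw [hcf _ h0, hcf _ hlt, zero_smul, add_zero] at h1
    obtain ⟨Z', -, h3⟩ := move hRK1 hk hs hs0 f Z hq him
    refine ⟨Z', ?_⟩
    rw [← lv_single, h3, ← ha, FF, h1, norm_mul, Complex.norm_exp]
    simp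

end Pool.Agent.P.MP_59bdab_ag
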