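import Pool.Agent.P.MP_59bdab_ag.IfB

/-!
Multiplicity of balls.
-/

namespace Pool.Agent.P.MP_59bdab_ag

open Matrix MeasureTheory Filter Topology
open scoped ENNReal ComplexOrder

theorem p_MULT (hQC : S_QC) (hDL : S_DL) (hDL2 : S_DL2) (hMAH : S_MAH) (hQ : S_Q) :
    S_MULT := by
  intro ι _ _
  obtain ⟨-, -, -, hinv, hsym, hone, -, hcont, -⟩ := hDL ι
  obtain ⟨hle, heq, hcpt, htri⟩ := hDL2 ι
  have hfin := (hQC ι).2.2.2.2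
  have hinvZ : ∀ (γ : SpZ ι) (Z W : HH ι), dl (γ • Z) (γ • W) = dl Z W := fun γ => hinv (toR γ)
  have h6 : ∀ (W : HH ι), ∀ K : Set (HH ι), IsCompact K → ∀ ε > 0,
      {γ : SpZ ι | ∃ Z ∈ K, ε ≤ dl (γ • Z) W}.Finite := by
    intro W K hK ε hε
    refine (hfin _ (hK.union (hcpt {W} isCompact_singleton ε hε))).subset ?_
    rintro γ ⟨Z, hZ, h⟩
    exact ⟨Z, Or.inl hZ, Or.inr ⟨W, rfl, h⟩⟩
  refine ⟨fun s hs => ?_, fun ρ hρ => ?_, fun ρ => ?_, fun ρ ρ' h W hW γ hγ => (hW γ hγ).trans h,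
    fun W hW => ?_, h6⟩
  · obtain ⟨K, hK, hKs⟩ := (hMAH ι).1 s hs
    have hF := hfin _ (hcpt K hK (1 / 2) one_half_pos)
    refine ⟨(Set.encard {γ : SpZ ι | ∃ Z ∈ {Z | ∃ W ∈ K, 1 / 2 ≤ dl Z W},
      γ • Z ∈ {Z | ∃ W ∈ K, 1 / 2 ≤ dl Z W}} : ℕ∞), ?_, fun W hW Z => ?_⟩
    · simpa using hF.encard_lt_top.ne
    obtain ⟨δ, hδ⟩ := hKs W hW
    have h1 : ∑' γ : SpZ ι, {X | 1 / 2 < dl X W}.indicator (1 : HH ι → ℝ≥0∞) (γ • Z) =
        (Set.encard {γ : SpZ ι | 1 / 2 < dl (γ • Z) W} : ℕ∞) := by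
      rw [← ENNReal.tsum_set_one, tsum_subtype _ fun _ => (1 : ℝ≥0∞)]
      rfl
    rw [h1, ENat.toENNReal_le]
    rcases Set.eq_empty_or_nonempty {γ : SpZ ι | 1 / 2 < dl (γ • Z) W} with h0 | ⟨γ₀, h0⟩
    · rw [h0, Set.encard_empty]
      exact zero_le
    have h2 : ∀ γ : SpZ ι, 1 / 2 < dl (γ • Z) W → ∃ W ∈ K, 1 / 2 ≤ dl ((δ * γ) • Z) W :=
      fun γ hγ => ⟨δ • W, hδ, by rw [mul_smul, hinvZ]; exact hγ.le⟩
    refine Set.encard_le_encard_of_injOn (f := fun γ => δ * γ * (δ * γ₀)⁻¹)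
      (fun γ hγ => ⟨(δ * γ₀) • Z, h2 γ₀ h0, ?_⟩) fun a _ b _ h => ?_
    · rw [← mul_smul, inv_mul_cancel_right]
      exact h2 γ hγ
    · exact mul_left_cancel (mul_right_cancel h)
  · obtain ⟨ρ', h0, h1, h⟩ := htri ρ hρ
    refine ⟨ρ', h0, h1, fun W hW γ Z h2 h3 => ?_⟩
    by_contra hn
    exact (hW γ hn).not_gt (h (γ • W) (γ • Z) W (by rw [hinvZ, hsym]; exact h2) h3)
  · have : Gd ι ρ = ⋂ γ : SpZ ι, ⋂ _ : ¬ (γ.1 = 1 ∨ γ.1 = -1), {W | dl (γ • W) W ≤ ρ} := by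
      ext W
      simp only [Gd, Set.mem_iInter]
      rfl
    rw [this]
    exact isClosed_iInter fun γ => isClosed_iInter fun _ => isClosed_le
      (hcont.comp ((continuous_const_smul γ).prodMk continuous_id)) continuous_const
  · have hT := h6 W {W} isCompact_singleton (1 / 2) one_half_pos
    have h1 : ∀ᶠ ρ in 𝓝[<] (1 : ℝ), ∀ γ ∈ {γ : SpZ ι | ∃ Z ∈ ({W} : Set (HH ι)),
        1 / 2 ≤ dl (γ • Z) W}, ¬ (γ.1 = 1 ∨ γ.1 = -1) → dl (γ • W) W ≤ ρ := by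
      refine (eventually_all_finite hT).2 fun γ _ => ?_
      by_cases hγ : γ.1 = 1 ∨ γ.1 = -1
      · exact Eventually.of_forall fun _ h => absurd hγ h
      have h2 : dl (γ • W) W < 1 := (hle _ _).lt_of_ne fun h => hγ (hW γ (heq _ _ h))
      exact ((eventually_ge_nhds h2).filter_mono nhdsWithin_le_nhds).mono fun _ h _ => h
    have h2 : ∀ᶠ ρ in 𝓝[<] (1 : ℝ), 1 / 2 ≤ ρ :=
      (eventually_ge_nhds one_half_lt_one).filter_mono nhdsWithin_le_nhds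
    obtain ⟨ρ, ⟨h3, h4⟩, h5⟩ := ((h1.and h2).and self_mem_nhdsWithin).exists
    refine ⟨ρ, h5, fun γ hγ => ?_⟩
    rcases le_total (1 / 2) (dl (γ • W) W) with h | h
    · exact h3 γ ⟨W, rfl, h⟩ hγ
    · exact h.trans h4

end Pool.Agent.P.MP_59bdab_ag
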