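import Pool.Agent.P.MP_59bdab_ag.IfB

/-!
The components of a sum of eigenfunctions of the real translations have smaller norm.
-/

namespace Pool.Agent.P.MP_59bdab_ag

open Matrix MeasureTheory Filter Topology
open scoped ENNReal ComplexOrder

namespace NRM

theorem orth (N : ℕ) (l j : ℕ) (hl : l < N) (hj : j < N) :
    ∑ a ∈ Finset.range N, Complex.exp (2 * Real.pi * Complex.I * l * ((a / N : ℝ) : ℂ)) *
      Complex.exp (-(2 * Real.pi * Complex.I * j * ((a / N : ℝ) : ℂ))) =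
      if l = j then (N : ℂ) else 0 := by
  have hN : (N : ℂ) ≠ 0 := by
    have : N ≠ 0 := by omega
    exact_mod_cast this
  set x : ℂ := Complex.exp (2 * Real.pi * Complex.I * (((l : ℂ) - j) / N)) with hx
  have h1 : ∀ a : ℕ, Complex.exp (2 * Real.pi * Complex.I * l * ((a / N : ℝ) : ℂ)) *
      Complex.exp (-(2 * Real.pi * Complex.I * j * ((a / N : ℝ) : ℂ))) = x ^ a := by
    intro a
    rw [hx, ← Complex.exp_nat_mul, ← Complex.exp_add]
    congr 1
    push_cast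
    field_simp
    ring
  simp only [h1]
  split_ifs with h
  · subst h
    have : x = 1 := by rw [hx]; simp
    simp [this]
  · have hxN : x ^ N = 1 := by
      rw [hx, ← Complex.exp_nat_mul, Complex.exp_eq_one_iff]
      refine ⟨(l : ℤ) - j, ?_⟩
      push_cast
      field_simp
    have hx1 : x ≠ 1 := by
      intro h0
      rw [hx, Complex.exp_eq_one_iff] at h0
      obtain ⟨n, hn⟩ := h0
      have hpi : (2 * Real.pi * Complex.I : ℂ) ≠ 0 := Complex.two_pi_I_ne_zero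
      rw [mul_comm (n : ℂ)] at hn
      have h2 := mul_left_cancel₀ hpi hn
      rw [div_eq_iff hN] at h2
      have h3 : (l : ℤ) - j = n * N := by exact_mod_cast h2
      have h4 : n = 0 := by
        by_contra h5
        rcases lt_or_gt_of_ne h5 with h6 | h6
        · have : n * N ≤ -1 * N := mul_le_mul_of_nonneg_right (by omega) (by positivity)
          omega
        · have : 1 * (N : ℤ) ≤ n * N := mul_le_mul_of_nonneg_right (by omega) (by positivity)
          omega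
      rw [h4] at h3
      omega
    have h5 := geom_sum_mul x N
    rw [hxN, sub_self] at h5
    exact (mul_eq_zero.mp h5).resolve_right (sub_ne_zero.mpr hx1)

variable {ι : Type} [Fintype ι] [DecidableEq ι]

theorem point (i : ι) (s : Finset ℕ) (φ : ℕ → (Sym2 ι → ℂ) → ℂ) (hφ : ∀ j ∈ s, Eig i j (φ j))
    (N : ℕ) (hN : ∀ l ∈ s, l < N) (j : ℕ) (hj : j ∈ s) (z : Sym2 ι → ℂ) (hz : z ∈ HS ι) :
    (N : ℝ) * ‖φ j z‖ ^ 2 ≤
      ∑ a ∈ Finset.range N, ‖(∑ l ∈ s, φ l) (z + Pi.single s(i, i) ((a / N : ℝ) : ℂ))‖ ^ 2 := by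
  have hN0 : (0 : ℝ) < N := by
    have := hN j hj
    have : 0 < N := by omega
    exact_mod_cast this
  have h1 : (N : ℂ) * φ j z = ∑ a ∈ Finset.range N,
      (∑ l ∈ s, φ l) (z + Pi.single s(i, i) ((a / N : ℝ) : ℂ)) *
        Complex.exp (-(2 * Real.pi * Complex.I * j * ((a / N : ℝ) : ℂ))) := by
    have h2 : ∀ a : ℕ, (∑ l ∈ s, φ l) (z + Pi.single s(i, i) ((a / N : ℝ) : ℂ)) *
        Complex.exp (-(2 * Real.pi * Complex.I * j * ((a / N : ℝ) : ℂ))) =
        ∑ l ∈ s, (Complex.exp (2 * Real.pi * Complex.I * l * ((a / N : ℝ) : ℂ)) *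
          Complex.exp (-(2 * Real.pi * Complex.I * j * ((a / N : ℝ) : ℂ)))) * φ l z := by
      intro a
      rw [Finset.sum_apply, Finset.sum_mul]
      refine Finset.sum_congr rfl fun l hl => ?_
      rw [hφ l hl z hz]
      ring
    simp only [h2]
    rw [Finset.sum_comm]
    have h3 : ∀ l ∈ s, ∑ a ∈ Finset.range N,
        (Complex.exp (2 * Real.pi * Complex.I * l * ((a / N : ℝ) : ℂ)) *
          Complex.exp (-(2 * Real.pi * Complex.I * j * ((a / N : ℝ) : ℂ)))) * φ l z =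
        if l = j then (N : ℂ) * φ l z else 0 := by
      intro l hl
      rw [← Finset.sum_mul, orth N l j (hN l hl) (hN j hj)]
      split_ifs <;> simp
    rw [Finset.sum_congr rfl h3, Finset.sum_ite_eq' s j, if_pos hj]
  have h4 : (N : ℝ) * ‖φ j z‖ ≤ ∑ a ∈ Finset.range N,
      ‖(∑ l ∈ s, φ l) (z + Pi.single s(i, i) ((a / N : ℝ) : ℂ))‖ := by
    have h5 : (N : ℝ) * ‖φ j z‖ = ‖(N : ℂ) * φ j z‖ := by simp
    rw [h5, h1]
    refine (norm_sum_le _ _).trans (le_of_eq (Finset.sum_congr rfl fun a _ => ?_))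
    rw [norm_mul]
    have h6 : -(2 * Real.pi * Complex.I * j * ((a / N : ℝ) : ℂ)) =
        ((-(2 * Real.pi * j * (a / N)) : ℝ) : ℂ) * Complex.I := by
      push_cast
      ring
    rw [h6, Complex.norm_exp_ofReal_mul_I, mul_one]
  have h7 := sq_sum_le_card_mul_sum_sq (s := Finset.range N)
    (f := fun a : ℕ => ‖(∑ l ∈ s, φ l) (z + Pi.single s(i, i) ((a / N : ℝ) : ℂ))‖)
  rw [Finset.card_range] at h7
  have h8 : ((N : ℝ) * ‖φ j z‖) ^ 2 ≤ _ := (pow_le_pow_left₀ (by positivity) h4 2).trans h7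
  refine le_of_mul_le_mul_left ?_ hN0
  calc (N : ℝ) * (N * ‖φ j z‖ ^ 2) = (N * ‖φ j z‖) ^ 2 := by ring
    _ ≤ _ := h8

theorem shift (hWT : S_WT) (hMEAS : S_MEAS) (G : Subgroup (SpZ ι)) (w : HH ι → ℝ≥0∞)
    (hw : IsWt G (HH ι) w) (τ : SpR ι) (hτ : ∀ γ ∈ G, toR γ * τ = τ * toR γ)
    (F : HH ι → ℝ≥0∞) (hF : Measurable F) (hFG : ∀ γ ∈ G, ∀ Z, F (γ • Z) = F Z) :
    ∫⁻ Z, F (τ • Z) * w Z ∂μH ι = ∫⁻ Z, F Z * w Z ∂μH ι := by
  haveI := (hMEAS ι).1
  haveI := (hMEAS ι).2.2.1 G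
  have hc : ∀ (γ : G) (Z : HH ι), τ • γ • Z = γ • τ • Z := by
    intro γ Z
    show τ • toR γ.1 • Z = toR γ.1 • τ • Z
    rw [← mul_smul, ← mul_smul, hτ γ.1 γ.2]
  have hw' : IsWt G (HH ι) fun Z => w (τ • Z) := by
    refine ⟨hw.1.comp (measurable_const_smul τ), fun Z => ?_⟩
    simp only [hc]
    exact hw.2 _
  have h1 := (hWT G (HH ι) (μH ι) w hw).2.1 (fun Z => w (τ • Z)) (fun Z => F (τ • Z)) hw'
    (hF.comp (measurable_const_smul τ)) (fun γ Z => by
      show F (τ • γ • Z) = F (τ • Z)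
      rw [hc]
      exact hFG γ.1 γ.2 _)
  rw [h1]
  exact (measurePreserving_smul τ (μH ι)).lintegral_comp (hF.mul hw.1)

end NRM

theorem p_NRM (hTR : S_TR) (hWT : S_WT) (hMEAS : S_MEAS) : S_NRM := by
  intro ι _ _ i k w s φ hw hφ j hj
  obtain ⟨tr, h1, h2, -, -⟩ := hTR ι i
  set f : (Sym2 ι → ℂ) → ℂ := ∑ l ∈ s, φ l with hf
  have hM : Mod (st1 i) k f := by
    refine ⟨?_, fun γ hγ Z => ?_⟩
    · exact DifferentiableOn.sum fun l hl => (hφ l hl).1.1
    · rw [hf, Finset.sum_apply, Finset.sum_apply, Finset.mul_sum]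
      exact Finset.sum_congr rfl fun l hl => (hφ l hl).1.2 γ hγ Z
  obtain ⟨N, hN⟩ : ∃ N : ℕ, ∀ l ∈ s, l < N :=
    ⟨s.sup id + 1, fun l hl => Nat.lt_succ_of_le (Finset.le_sup (f := id) hl)⟩
  have hN0 : N ≠ 0 := by
    have := hN j hj
    omega
  have hF : Measurable fun Z => ENNReal.ofReal (FF k f Z) :=
    (continuous_FF hM.1.continuousOn).measurable.ennreal_ofReal
  have hsh : ∀ t : ℝ, ∫⁻ Z, ENNReal.ofReal (FF k f (tr t • Z)) * w Z ∂μH ι = nrm w k f :=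
    fun t => NRM.shift hWT hMEAS (st1 i) w hw (tr t) (h2 t) _ hF
      fun γ hγ Z => by rw [hM.FF_smul hγ]
  have hpt : ∀ Z : HH ι, (N : ℝ≥0∞) * (ENNReal.ofReal (FF k (φ j) Z) * w Z) ≤
      ∑ a ∈ Finset.range N, ENNReal.ofReal (FF k f (tr (a / N) • Z)) * w Z := by
    intro Z
    rw [← Finset.sum_mul, ← mul_assoc]
    refine mul_le_mul_left ?_ _
    rw [← ENNReal.ofReal_sum_of_nonneg fun a _ => FF_nonneg _ _ _, ← ENNReal.ofReal_natCast,
      ← ENNReal.ofReal_mul (Nat.cast_nonneg N)]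
    refine ENNReal.ofReal_le_ofReal ?_
    have h3 := NRM.point i s φ (fun l hl => (hφ l hl).2) N hN j hj Z.1 Z.2
    have h4 : ∀ a : ℕ, FF k f (tr (a / N) • Z) =
        ‖f (Z.1 + Pi.single s(i, i) ((a / N : ℝ) : ℂ))‖ ^ 2 * (Ym Z).det ^ k := by
      intro a
      rw [FF, (h1 _ Z).1, (h1 _ Z).2.2]
    simp only [h4]
    rw [← Finset.sum_mul, FF, ← mul_assoc]
    exact mul_le_mul_of_nonneg_right h3 (pow_nonneg (Ym_det_pos Z).le _)
  have h5 : (N : ℝ≥0∞) * nrm w k (φ j) ≤ N * nrm w k f := by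
    calc (N : ℝ≥0∞) * nrm w k (φ j)
        = ∫⁻ Z, (N : ℝ≥0∞) * (ENNReal.ofReal (FF k (φ j) Z) * w Z) ∂μH ι := by
          rw [nrm, lintegral_const_mul' _ _ (ENNReal.natCast_ne_top N)]
      _ ≤ ∫⁻ Z, ∑ a ∈ Finset.range N, ENNReal.ofReal (FF k f (tr (a / N) • Z)) * w Z ∂μH ι :=
          lintegral_mono hpt
      _ = ∑ a ∈ Finset.range N, ∫⁻ Z, ENNReal.ofReal (FF k f (tr (a / N) • Z)) * w Z ∂μH ι :=
          lintegral_finsetSum _ fun a _ => (hF.comp (measurable_const_smul _)).mul hw.1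
      _ = N * nrm w k f := by
          simp only [hsh]
          simp
  exact (ENNReal.mul_le_mul_iff_right (by exact_mod_cast hN0) (ENNReal.natCast_ne_top N)).mp h5

end Pool.Agent.P.MP_59bdab_ag
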