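import Pool.Agent.P.MP_59bdab_ag.IfA

/-!
Periodic holomorphic functions of one variable.
-/

namespace Pool.Agent.P.MP_59bdab_ag

open MeasureTheory Filter Topology Complex

namespace ONE

theorem norm_e (j : ℤ) (z : ℂ) :
    ‖exp (2 * Real.pi * I * j * z)‖ = Real.exp (-(2 * Real.pi * j * z.im)) := by
  rw [norm_exp]
  congr 1
  simp

theorem e_one (j : ℤ) (z : ℂ) :
    exp (-(2 * Real.pi * I * j * (z + 1))) = exp (-(2 * Real.pi * I * j * z)) := by
  rw [show -(2 * Real.pi * I * j * (z + 1)) =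
    -(2 * Real.pi * I * j * z) + ((-j : ℤ) : ℂ) * (2 * Real.pi * I) by push_cast; ring, exp_add,
    exp_int_mul_two_pi_mul_I, mul_one]

variable {h : ℂ → ℂ} {T : ℝ}

theorem const (hd : DifferentiableOn ℂ h {τ | -T < τ.im})
    (hp : ∀ τ : ℂ, -T < τ.im → h (τ + 1) = h τ) {τ τ' : ℂ} (h1 : -T < τ.im) (h2 : -T < τ'.im) :
    ∫ t in (0 : ℝ)..1, h (τ' + t) = ∫ t in (0 : ℝ)..1, h (τ + t) := by
  have hor : ∀ z : ℂ, -T < z.im →
      ∫ t in (0 : ℝ)..1, h (z + t) = ∫ t in (0 : ℝ)..1, h (t + z.im * I) := fun z hz => by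
    have per : Function.Periodic (fun t : ℝ => h (t + z.im * I)) 1 := fun t => by
      simp only [ofReal_add, ofReal_one]
      rw [add_right_comm, hp _ (by simpa using hz)]
    have e := per.intervalIntegral_add_eq z.re 0
    rw [zero_add] at e
    rw [← e, ← zero_add z.re, add_assoc, add_comm z.re 1, zero_add (1 + z.re),
      ← intervalIntegral.integral_comp_add_right (fun t : ℝ => h (t + z.im * I))]
    refine intervalIntegral.integral_congr fun t _ => ?_
    simp only [ofReal_add]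
    rw [add_assoc, re_add_im, add_comm]
  have key := integral_boundary_rect_eq_zero_of_differentiableOn h ⟨0, τ'.im⟩ ⟨1, τ.im⟩
    (hd.mono fun z hz => (lt_min h2 h1).trans_le hz.2.1)
  have ver : ∫ y : ℝ in τ'.im..τ.im, h (((1 : ℝ) : ℂ) + y * I) =
      ∫ y : ℝ in τ'.im..τ.im, h (((0 : ℝ) : ℂ) + y * I) :=
    intervalIntegral.integral_congr fun y hy => by
      simp only [ofReal_one, ofReal_zero, zero_add]
      rw [add_comm, hp _ (by simpa using (lt_min h2 h1).trans_le hy.1)]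
  rw [hor τ h1, hor τ' h2]
  simp only [ver, add_sub_cancel_right] at key
  exact sub_eq_zero.1 key

theorem shift (hd : DifferentiableOn ℂ h {τ | -T < τ.im})
    (hp : ∀ τ : ℂ, -T < τ.im → h (τ + 1) = h τ) (j : ℤ) {τ τ' : ℂ} (h1 : -T < τ.im)
    (h2 : -T < τ'.im) : cf h j τ' = exp (2 * Real.pi * I * j * (τ' - τ)) * cf h j τ := by
  have e : ∀ z : ℂ, cf h j z = exp (2 * Real.pi * I * j * z) *
      ∫ t in (0 : ℝ)..1, h (z + t) * exp (-(2 * Real.pi * I * j * (z + t))) := fun z => by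
    rw [cf, ← intervalIntegral.integral_const_mul]
    refine intervalIntegral.integral_congr fun t _ => ?_
    rw [mul_left_comm, ← exp_add]
    congr 2
    ring
  have k := const (h := fun z => h z * exp (-(2 * Real.pi * I * j * z))) (T := T)
    (hd.mul (by fun_prop)) (fun z hz => by simp only [hp z hz, e_one]) h1 h2
  rw [e, e, k, ← mul_assoc, ← exp_add]
  congr 2
  ring

theorem norm_cf (j : ℤ) {τ : ℂ} {M : ℝ} (hM : ∀ x : ℝ, ‖h (τ + x)‖ ≤ M) : ‖cf h j τ‖ ≤ M := by
  have := intervalIntegral.norm_integral_le_of_norm_le_const (a := 0) (b := 1) (C := M)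
    (f := fun t : ℝ => h (τ + t) * exp (-(2 * Real.pi * I * j * t))) fun t _ => by
      rw [norm_mul, exp_neg, norm_inv, norm_e]
      simpa using hM t
  simpa [cf] using this

theorem vanish (hd : DifferentiableOn ℂ h {τ | -T < τ.im})
    (hp : ∀ τ : ℂ, -T < τ.im → h (τ + 1) = h τ) (j : ℤ) (τ : ℂ) (B : ℝ → ℝ) (h1 : -T < τ.im)
    (hB : ∀ a : ℝ, 0 ≤ a → ∀ x : ℝ, ‖h (τ + a * I + x)‖ ≤ B a)
    (ht : Tendsto (fun a => B a * Real.exp (2 * Real.pi * j * a)) atTop (𝓝 0)) :
    cf h j τ = 0 := by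
  refine norm_le_zero_iff.1 (ge_of_tendsto ht ?_)
  filter_upwards [eventually_ge_atTop 0] with a ha
  rw [shift hd hp j (τ := τ + a * I) (by simpa using by linarith) h1, norm_mul, norm_e, mul_comm]
  refine mul_le_mul (norm_cf j (hB a ha)) (le_of_eq ?_) (Real.exp_pos _).le
    ((norm_nonneg _).trans (hB a ha 0))
  simp

theorem inversion {φ : ℝ → ℂ} (hc : Continuous φ) (hp : Function.Periodic φ 1)
    (hs : Summable fun j : ℤ => ∫ t in (0 : ℝ)..1, φ t * exp (-(2 * Real.pi * I * j * t))) :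
    HasSum (fun j : ℤ => ∫ t in (0 : ℝ)..1, φ t * exp (-(2 * Real.pi * I * j * t))) (φ 0) := by
  let f : C(AddCircle (1 : ℝ), ℂ) := ⟨hp.lift, continuous_coinduced_dom.2 hc⟩
  have e : fourierCoeff f =
      fun j : ℤ => ∫ t in (0 : ℝ)..1, φ t * exp (-(2 * Real.pi * I * j * t)) := by
    funext j
    rw [fourierCoeff_eq_intervalIntegral f j 0, zero_add, div_one, one_smul]
    refine intervalIntegral.integral_congr fun t _ => ?_
    simp only [fourier_coe_apply, smul_eq_mul]
    rw [mul_comm]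
    congr 2
    push_cast
    ring
  have := has_pointwise_sum_fourier_series_of_summable (f := f) (e ▸ hs) ((0 : ℝ) : AddCircle (1 : ℝ))
  simp only [e, fourier_coe_apply, ofReal_zero, mul_zero, zero_div, exp_zero, smul_eq_mul,
    mul_one] at this
  exact this

theorem crude (hd : DifferentiableOn ℂ h {τ | -T < τ.im})
    (hp : ∀ τ : ℂ, -T < τ.im → h (τ + 1) = h τ) {w τ : ℂ} {a M : ℝ} (ha : 0 < a) (h1 : -T < w.im)
    (h2 : w.im + a ≤ τ.im) (h0 : ∀ j < (0 : ℤ), cf h j w = 0) (hM : ∀ x : ℝ, ‖h (w + x)‖ ≤ M) :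
    ‖h τ‖ ≤ (1 - Real.exp (-(2 * Real.pi * a)))⁻¹ * M := by
  have h3 : -T < τ.im := by linarith
  have hr : Real.exp (-(2 * Real.pi * a)) < 1 :=
    Real.exp_lt_one_iff.2 (neg_lt_zero.2 (by positivity))
  have hB : HasSum (fun j : ℤ => if j < 0 then 0 else Real.exp (-(2 * Real.pi * a)) ^ j.toNat * M)
      ((1 - Real.exp (-(2 * Real.pi * a)))⁻¹ * M + 0) := by
    refine HasSum.of_nat_of_neg_add_one ?_ ?_
    · simp only [show ∀ n : ℕ, ((n : ℤ) < 0) = False from fun n => eq_false (by omega), if_false,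
        Int.toNat_natCast]
      exact (hasSum_geometric_of_lt_one (Real.exp_pos _).le hr).mul_right M
    · simp only [show ∀ n : ℕ, (-((n : ℤ) + 1) < 0) = True from fun n => eq_true (by omega),
        if_true]
      exact hasSum_zero
  have hb : ∀ j : ℤ, ‖cf h j τ‖ ≤
      if j < 0 then 0 else Real.exp (-(2 * Real.pi * a)) ^ j.toNat * M := fun j => by
    rw [shift hd hp j h1 h3]
    split_ifs with hj
    · simp [h0 j hj]
    · lift j to ℕ using not_lt.1 hj
      rw [norm_mul, norm_e, Int.toNat_natCast, ← Real.exp_nat_mul]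
      refine mul_le_mul (Real.exp_le_exp.2 ?_) (norm_cf _ hM) (norm_nonneg _) (Real.exp_pos _).le
      have : (j : ℝ) * (2 * Real.pi * a) ≤ j * (2 * Real.pi * (τ.im - w.im)) := by
        gcongr
        linarith
      simp only [sub_im, Int.cast_natCast]
      linarith
  have hc : Continuous fun t : ℝ => h (τ + t) :=
    hd.continuousOn.comp_continuous (by fun_prop) fun t => by simpa using h3
  have := (inversion hc (fun t => by
    simp only [ofReal_add, ofReal_one]
    rw [← add_assoc, hp _ (by simpa using h3)])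
    (Summable.of_norm_bounded hB.summable hb)).norm_le_of_bounded hB hb
  simpa using this

theorem le_of_pow {x C M : ℝ} (hM : 0 ≤ M) (h : ∀ n : ℕ, x ^ n ≤ C * M ^ n) : x ≤ M := by
  by_contra hc
  rcases hM.eq_or_lt with rfl | hM
  · exact hc (by simpa using h 1)
  obtain ⟨n, hn⟩ := pow_unbounded_of_one_lt C ((one_lt_div hM).2 (not_le.1 hc))
  rw [div_pow, lt_div_iff₀ (pow_pos hM n)] at hn
  exact hn.not_ge (h n)

theorem maxp (hd : DifferentiableOn ℂ h {τ | -T < τ.im})
    (hp : ∀ τ : ℂ, -T < τ.im → h (τ + 1) = h τ) {w τ : ℂ} {M : ℝ} (h1 : -T < w.im)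
    (h2 : w.im < τ.im) (h0 : ∀ j < (0 : ℤ), cf h j τ = 0) (hM : ∀ x : ℝ, ‖h (w + x)‖ ≤ M) :
    ‖h τ‖ ≤ M := by
  have h3 : -T < τ.im := h1.trans h2
  have ha : 0 < τ.im - w.im := sub_pos.2 h2
  refine le_of_pow (C := (1 - Real.exp (-(2 * Real.pi * (τ.im - w.im))))⁻¹)
    ((norm_nonneg _).trans (hM 0)) fun n => ?_
  have hd' : DifferentiableOn ℂ (fun z => h z ^ n) {τ | -T < τ.im} := hd.pow n
  have hp' : ∀ τ : ℂ, -T < τ.im → h (τ + 1) ^ n = h τ ^ n := fun z hz => by rw [hp z hz]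
  rw [← norm_pow]
  refine crude hd' hp' ha h1 (by linarith) (fun j hj => ?_) fun x => by
    rw [norm_pow]
    exact pow_le_pow_left₀ (norm_nonneg _) (hM x) n
  rw [shift hd' hp' j h3 h1, vanish hd' hp' j τ
    (fun _ => ((1 - Real.exp (-(2 * Real.pi * (τ.im - w.im))))⁻¹ * M) ^ n) h3 (fun b hb x => ?_) ?_,
    mul_zero]
  · have hj' : 2 * Real.pi * (j : ℝ) < 0 :=
      mul_neg_of_pos_of_neg (by positivity) (by exact_mod_cast hj)
    simpa using (Real.tendsto_exp_atBot.comp (tendsto_id.const_mul_atTop_of_neg hj')).const_mul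
      (((1 - Real.exp (-(2 * Real.pi * (τ.im - w.im))))⁻¹ * M) ^ n)
  · rw [norm_pow]
    refine pow_le_pow_left₀ (norm_nonneg _) (crude hd hp ha h1 (by simpa using hb)
      (fun j hj => ?_) hM) n
    rw [shift hd hp j h3 h1, h0 j hj, mul_zero]

end ONE

open ONE in
theorem p_ONE : S_ONE := by
  intro h T hd hp
  refine ⟨fun j τ τ' h1 h2 => shift hd hp j h1 h2, fun m τ a M ha h1 h0 hM => ?_, vanish hd hp⟩
  have key : ∀ x : ℝ, ‖h (τ - a * I + x) * exp (-(2 * Real.pi * I * m * (τ - a * I + x - τ)))‖ ≤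
      Real.exp (-(2 * Real.pi * m * a)) * M := fun x => by
    rw [norm_mul, exp_neg, norm_inv, norm_e, ← Real.exp_neg, mul_comm]
    refine mul_le_mul (le_of_eq ?_) (hM x) (norm_nonneg _) (Real.exp_pos _).le
    simp
  rcases ha.eq_or_lt with rfl | ha
  · simpa using key 0
  have := maxp (h := fun z => h z * exp (-(2 * Real.pi * I * m * (z - τ)))) (T := T)
    (hd.mul (by fun_prop)) (fun z hz => by simp only [hp z hz, add_sub_right_comm z 1 τ, e_one])
    (w := τ - a * I) (τ := τ) (by simpa using h1) (by simpa using ha) (fun j hj => by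
      rw [← h0 (j + m) (by omega), cf, cf]
      refine intervalIntegral.integral_congr fun t _ => ?_
      rw [mul_assoc, ← exp_add]
      congr 2
      push_cast
      ring) key
  simpa using this

end Pool.Agent.P.MP_59bdab_ag
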