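import Pool.Agent.P.MP_59bdab_ag.IfA

/-!
Independent families of integer vectors, overlattices and primitive families.
-/

namespace Pool.Agent.P.MP_59bdab_ag

open Matrix Module

namespace ORB

variable {r : ℕ}

theorem mem_std {c : Fin r → ℚ} : c ∈ stdL r ↔ ∀ a, ∃ z : ℤ, c a = z := by
  simp [stdL, AddSubgroup.mem_pi, AddSubgroup.mem_zmultiples_iff, eq_comm]

theorem mem_clos (b : Basis (Fin r) ℚ (Fin r → ℚ)) {c : Fin r → ℚ} :
    c ∈ AddSubgroup.closure (Set.range b) ↔ ∀ i, ∃ z : ℤ, b.repr c i = z := by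
  rw [← Submodule.span_int_eq_addSubgroupClosure, Submodule.mem_toAddSubgroup,
    Basis.mem_span_iff_repr_mem]
  simp [eq_comm]

theorem std_eq : stdL r = AddSubgroup.closure (Set.range (Pi.basisFun ℚ (Fin r))) := by
  ext c
  rw [mem_clos, mem_std]
  simp

theorem exists_basis {L : AddSubgroup (Fin r → ℚ)} (h1 : stdL r ≤ L) {N : ℤ} (hN : N ≠ 0)
    (h2 : ∀ x ∈ L, N • x ∈ stdL r) :
    ∃ b : Basis (Fin r) ℚ (Fin r → ℚ), L = AddSubgroup.closure (Set.range b) := by
  have hN' : (N : ℚ) ≠ 0 := by exact_mod_cast hN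
  let b0 := (Pi.basisFun ℚ (Fin r)).isUnitSMul (w := fun _ => (N : ℚ)⁻¹)
    fun _ => (inv_ne_zero hN').isUnit
  have hle : L.toIntSubmodule ≤ Submodule.span ℤ (Set.range b0) := by
    intro x hx
    rw [← Submodule.mem_toAddSubgroup, Submodule.span_int_eq_addSubgroupClosure, mem_clos]
    intro i
    obtain ⟨z, hz⟩ := mem_std.1 (h2 x hx) i
    refine ⟨z, ?_⟩
    rw [← hz]
    simp [b0, Basis.repr_isUnitSMul, Units.smul_def]
  obtain ⟨n, β⟩ := Submodule.basisOfPidOfLESpan
    (b0.linearIndependent.restrict_scalars' ℤ) hle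
  have hli : LinearIndependent ℤ fun i => (β i : Fin r → ℚ) :=
    β.linearIndependent.map' L.toIntSubmodule.subtype (Submodule.ker_subtype _)
  have hsp : Submodule.span ℤ (Set.range fun i => (β i : Fin r → ℚ)) = L.toIntSubmodule := by
    have := congrArg (Submodule.map L.toIntSubmodule.subtype) β.span_eq
    rwa [Submodule.map_span, ← Set.range_comp, Submodule.map_subtype_top] at this
  have htop : ⊤ ≤ Submodule.span ℚ (Set.range fun i => (β i : Fin r → ℚ)) := by
    rw [← (Pi.basisFun ℚ (Fin r)).span_eq, Submodule.span_le]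
    rintro _ ⟨i, rfl⟩
    refine Submodule.span_le_restrictScalars ℤ ℚ _ ?_
    rw [hsp]
    exact h1 (std_eq ▸ AddSubgroup.subset_closure ⟨i, rfl⟩)
  let b := Basis.mk ((LinearIndependent.iff_fractionRing ℤ ℚ).1 hli) htop
  have hn : n = r := by simpa using (finrank_eq_card_basis b).symm
  subst hn
  refine ⟨b, ?_⟩
  rw [← Submodule.span_int_eq_addSubgroupClosure, Basis.coe_mk, hsp]
  rfl

theorem exists_mat {L : AddSubgroup (Fin r → ℚ)} (h1 : stdL r ≤ L) {N : ℤ} (hN : N ≠ 0)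
    (h2 : ∀ x ∈ L, N • x ∈ stdL r) : ∃ B : Matrix (Fin r) (Fin r) ℤ, B.det ≠ 0 ∧
      B.det.natAbs = (stdL r).relIndex L ∧
      ∀ c, c ∈ L ↔ ∀ i, ∃ z : ℤ, ∑ a, c a * (B i a : ℚ) = z := by
  obtain ⟨b, hb⟩ := exists_basis h1 hN h2
  have h3 : ∀ a, Pi.basisFun ℚ (Fin r) a ∈ AddSubgroup.closure (Set.range b) := fun a =>
    hb ▸ h1 (std_eq ▸ AddSubgroup.subset_closure ⟨a, rfl⟩)
  choose z hz using fun a => (mem_clos b).1 (h3 a)
  have h4 : (((Matrix.of fun i a => z a i).det : ℤ) : ℚ) = b.det (Pi.basisFun ℚ (Fin r)) := by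
    rw [Int.cast_det, Basis.det_apply]
    congr 1
    ext i a
    exact (hz a i).symm
  refine ⟨Matrix.of fun i a => z a i, fun h => ?_, ?_, fun c => ?_⟩
  · rw [h, Int.cast_zero] at h4
    exact (b.isUnit_det _).ne_zero h4.symm
  · have h5 := AddSubgroup.relIndex_eq_abs_det _ L h1 _ b std_eq hb
    rw [← h4, ← Int.cast_abs, ← Nat.cast_natAbs] at h5
    exact_mod_cast h5.symm
  · rw [hb, mem_clos]
    refine forall_congr' fun i => exists_congr fun w => ?_
    conv_lhs => rw [← (Pi.basisFun ℚ (Fin r)).sum_repr c, map_sum]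
    simp only [map_smul, Finsupp.coe_finsetSum, Finset.sum_apply, Finsupp.smul_apply, hz,
      smul_eq_mul, Pi.basisFun_repr, Matrix.of_apply]

theorem exists_mat' (L : Ov r) : ∃ B : Matrix (Fin r) (Fin r) ℤ, B.det ≠ 0 ∧
    B.det.natAbs = (stdL r).relIndex L.1 ∧
      ∀ c, c ∈ L.1 ↔ ∀ i, ∃ z : ℤ, ∑ a, c a * (B i a : ℚ) = z :=
  exists_mat L.2.1 (N := (stdL r).relIndex L.1) (by exact_mod_cast L.2.2) fun x hx => by
    rw [natCast_zsmul]
    exact (stdL r).nsmul_relIndex_mem hx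

variable {n : Type}

theorem sum_rmul (p : Fin r → n → ℤ) (B : Matrix (Fin r) (Fin r) ℤ) (c : Fin r → ℚ) (i : n) :
    ∑ a, c a * (rmul p B a i : ℚ) = ∑ b, (∑ a, c a * (B b a : ℚ)) * (p b i : ℚ) := by
  simp only [rmul, Finset.sum_apply, Pi.smul_apply, smul_eq_mul, Int.cast_sum, Int.cast_mul,
    Finset.mul_sum, Finset.sum_mul, mul_assoc]
  exact Finset.sum_comm

theorem int_sum {c : Fin r → ℚ} (h : ∀ a, ∃ z : ℤ, c a = z) (w : Fin r → ℤ) :
    ∃ z : ℤ, ∑ a, c a * (w a : ℚ) = z := by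
  choose z hz using h
  exact ⟨∑ a, z a * w a, by simp [hz]⟩

theorem prim_zero {p : Fin r → n → ℤ} (hp : Prim p) {c : Fin r → ℚ}
    (h : ∀ i, ∑ a, c a * (p a i : ℚ) = 0) (a : Fin r) : c a = 0 := by
  by_contra h0
  obtain ⟨z, hz⟩ := hp (fun b => (2 * c a)⁻¹ * c b) (fun i => ⟨0, by
    simp only [mul_assoc, ← Finset.mul_sum, h i, mul_zero, Int.cast_zero]⟩) a
  have h1 : (1 : ℚ) = 2 * z := by
    rw [← hz]
    field_simp
  have h2 : (1 : ℤ) = 2 * z := by exact_mod_cast h1
  omega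

theorem lam_bound [Fintype n] {v : Fin r → n → ℤ} (hv : LinearIndependent ℤ v) :
    ∃ N : ℤ, N ≠ 0 ∧ ∀ x ∈ Lam v, N • x ∈ stdL r := by
  let V : Matrix (Fin r) n ℤ := Matrix.of v
  refine ⟨(V * Vᵀ).det, fun h => ?_, fun x hx => ?_⟩
  · obtain ⟨g, hg, h1⟩ := Matrix.exists_mulVec_eq_zero_iff.2 h
    have h2 : g ᵥ* V = 0 := by
      rw [← dotProduct_self_eq_zero]
      nth_rewrite 2 [← mulVec_transpose]
      rw [← dotProduct_mulVec, mulVec_mulVec, h1, dotProduct_zero]
    refine hg (funext (Fintype.linearIndependent_iff.1 hv g ?_))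
    rw [← h2]
    funext i
    simp [V, vecMul, dotProduct]
  · choose z hz using hx
    let f := Int.castRingHom ℚ
    have h1 : x ᵥ* V.map f = f ∘ z := funext fun i => hz i
    have h2 : (V * Vᵀ).det • x = f ∘ (z ᵥ* (Vᵀ * (V * Vᵀ).adjugate)) := by
      funext a
      rw [Function.comp_apply, RingHom.map_vecMul, ← h1, vecMul_vecMul, ← Matrix.map_mul,
        ← Matrix.mul_assoc, mul_adjugate]
      generalize (V * Vᵀ).det = d
      simp only [vecMul, dotProduct, map_apply, Matrix.smul_apply, Matrix.one_apply, smul_eq_mul]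
      simp [f, mul_comm]
    rw [h2]
    exact mem_std.2 fun a => ⟨_, rfl⟩

end ORB

open ORB

theorem p_ORB : S_ORB := by
  intro r
  choose B h0 h1 h2 using exists_mat' (r := r)
  have hL : ∀ (n : Type) (L : Ov r) (p : Fin r → n → ℤ), Prim p → Lam (rmul p (B L)) = L.1 := by
    intro n L p hp
    ext c
    rw [h2]
    change (∀ i, ∃ z : ℤ, ∑ a, c a * (rmul p (B L) a i : ℚ) = z) ↔ _
    simp only [sum_rmul]
    exact ⟨hp _, fun h i => int_sum h _⟩
  have : Countable (Matrix (Fin r) (Fin r) ℤ) := inferInstanceAs (Countable (Fin r → Fin r → ℤ))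
  refine ⟨Function.Injective.countable (f := B) fun L L' h => Subtype.ext ?_, B, h1,
    fun n _ => ⟨hL n, ?_, ?_, ?_⟩⟩
  · ext c
    rw [h2, h2, h]
  · rintro ⟨L, p⟩ hp
    refine Fintype.linearIndependent_iff.2 fun g hg => congrFun ?_
    refine Matrix.eq_zero_of_mulVec_eq_zero (h0 L) (funext fun b => ?_)
    have h3 := prim_zero hp (c := fun b => ∑ a, (g a : ℚ) * (B L b a : ℚ)) (fun i => by
      rw [← sum_rmul]
      have h4 := congrFun hg i
      simp only [Finset.sum_apply, Pi.smul_apply, smul_eq_mul, Pi.zero_apply] at h4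
      exact_mod_cast h4) b
    have h5 : ∑ a, g a * B L b a = 0 := by exact_mod_cast h3
    simpa [mulVec, dotProduct, mul_comm] using h5
  · rintro ⟨L, p⟩ hp ⟨L', p'⟩ hp' h
    have h' : rmul p (B L) = rmul p' (B L') := h
    obtain rfl : L = L' := Subtype.ext (by rw [← hL n L p hp, h', hL n L' p' hp'])
    refine Prod.ext rfl (funext fun b => funext fun i => sub_eq_zero.1 ?_)
    refine congrFun (Matrix.eq_zero_of_vecMul_eq_zero (h0 L) (v := fun b => p b i - p' b i)
      (funext fun a => ?_)) b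
    have h3 := congrFun (congrFun h' a) i
    simp only [rmul, Finset.sum_apply, Pi.smul_apply, smul_eq_mul] at h3
    simp only [vecMul, dotProduct, mul_sub, Finset.sum_sub_distrib, Pi.zero_apply, mul_comm, h3,
      sub_self]
  · intro v hv
    obtain ⟨N, hN, hN'⟩ := lam_bound hv
    have hs : stdL r ≤ Lam v := fun c hc i => int_sum (mem_std.1 hc) _
    obtain ⟨B', a1, a2, -⟩ := exists_mat hs hN hN'
    let L : Ov r := ⟨Lam v, hs, a2 ▸ Int.natAbs_ne_zero.2 a1⟩
    let A : Matrix (Fin r) (Fin r) ℚ := (B L).map (Int.castRingHom ℚ)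
    have hA : IsUnit A.det := by
      have e : A.det = ((B L).det : ℤ) := (Int.cast_det _).symm
      rw [e]
      exact (Int.cast_ne_zero.2 (h0 L)).isUnit
    have hm : ∀ c, c ∈ Lam v ↔ ∀ i, ∃ z : ℤ, (A *ᵥ c) i = z := fun c => by
      rw [h2 L c]
      simp [A, mulVec, dotProduct, mul_comm]
    have h3 : ∀ b, A⁻¹ *ᵥ Pi.single b 1 ∈ Lam v := fun b => by
      rw [hm, mulVec_mulVec, mul_nonsing_inv _ hA, one_mulVec]
      exact mem_std.1 (std_eq ▸ AddSubgroup.subset_closure ⟨b, by simp⟩)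
    choose p hp using h3
    have h4 : ∀ (c : Fin r → ℚ) i, ∑ b, c b * (p b i : ℚ) = ∑ a, (A⁻¹ *ᵥ c) a * (v a i : ℚ) := by
      intro c i
      simp only [← hp, mulVec_single_one, col_apply, Finset.mul_sum]
      rw [Finset.sum_comm]
      simp only [mulVec, dotProduct, Finset.sum_mul]
      exact Finset.sum_congr rfl fun a _ => Finset.sum_congr rfl fun b _ => by ring
    refine ⟨(L, p), fun c hc => ?_, funext fun a => funext fun i => ?_⟩
    · have h5 := (hm (A⁻¹ *ᵥ c)).1 fun i => by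
        rw [← h4]
        exact hc i
      rwa [mulVec_mulVec, mul_nonsing_inv _ hA, one_mulVec] at h5
    · have h5 := h4 (A *ᵥ Pi.single a 1) i
      rw [mulVec_mulVec, nonsing_inv_mul _ hA, one_mulVec] at h5
      simp only [mulVec_single_one, col_apply, Pi.single_apply, ite_mul, one_mul, zero_mul,
        Finset.sum_ite_eq', Finset.mem_univ, if_true, A, map_apply, eq_intCast] at h5
      simp only [rmul, Finset.sum_apply, Pi.smul_apply, smul_eq_mul]
      exact_mod_cast h5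

end Pool.Agent.P.MP_59bdab_ag
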