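import Pool.Agent.P.MP_59bdab_ag.IfB

/-!
Lower bound for the Bergman function through Poincare series.
-/

namespace Pool.Agent.P.MP_59bdab_ag

open Matrix MeasureTheory Filter Topology
open scoped ENNReal ComplexOrder

namespace PLOW

variable {ι : Type} [Fintype ι] [DecidableEq ι]

theorem tsum_val_le (M : Matrix (ι ⊕ ι) (ι ⊕ ι) ℤ) (x : ℝ≥0∞) :
    ∑' γ : SpZ ι, (if γ.1 = M then x else 0) ≤ x := by
  classical
  by_cases h : ∃ δ : SpZ ι, δ.1 = M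
  · obtain ⟨δ, rfl⟩ := h
    have e : ∀ γ : SpZ ι, (if γ.1 = δ.1 then x else 0) = if γ = δ then x else 0 := by
      intro γ
      by_cases hγ : γ = δ
      · simp [hγ]
      · have : γ.1 ≠ δ.1 := fun h => hγ (Subtype.ext h)
        simp [hγ, this]
    simp only [e, tsum_ite_eq, le_refl]
  · have e : ∀ γ : SpZ ι, (if γ.1 = M then x else 0) = 0 := fun γ => if_neg fun h' => h ⟨γ, h'⟩
    simp [e]

theorem pow_split {a θ : ℝ} {k k0 : ℕ} (ha : 0 ≤ a) (h : a ≤ θ) (hk : k0 ≤ k) :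
    a ^ k ≤ θ ^ (k - k0) * a ^ k0 := by
  rw [show a ^ k = a ^ (k - k0) * a ^ k0 by rw [← pow_add, Nat.sub_add_cancel hk]]
  exact mul_le_mul_of_nonneg_right (pow_le_pow_left₀ ha h _) (pow_nonneg ha _)

/-- The majorant of the Poincare series. -/
noncomputable def maj (k : ℕ) (W Z : HH ι) : ℝ≥0∞ :=
  ∑' γ : SpZ ι, ENNReal.ofReal (dl (γ • Z) W ^ k)

theorem maj_smul (k : ℕ) (W Z : HH ι) (γ : SpZ ι) : maj k W (γ • Z) = maj k W Z := by
  unfold maj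
  rw [← (Equiv.mulRight γ).tsum_eq fun δ : SpZ ι => ENNReal.ofReal (dl (δ • Z) W ^ k)]
  simp only [Equiv.coe_mulRight, mul_smul]

theorem meas_dl (hDL : S_DL) (k : ℕ) (W : HH ι) :
    Measurable fun Z : HH ι => ENNReal.ofReal (dl Z W ^ k) := by
  have hc : Continuous fun Z : HH ι => dl Z W :=
    (hDL ι).2.2.2.2.2.2.2.1.comp (continuous_id.prodMk continuous_const)
  exact ENNReal.measurable_ofReal.comp (hc.pow k).measurable

theorem meas_maj (hDL : S_DL) (k : ℕ) (W : HH ι) : Measurable (maj k W) :=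
  Measurable.ennreal_tsum fun γ => (meas_dl hDL k W).comp (measurable_const_smul γ)

/-- Pointwise bound of the unfolded integrand. -/
theorem point_le (hDL : S_DL) (hDL2 : S_DL2) (hPROP : S_PROP) {k k0 : ℕ} (hk : k0 ≤ k)
    {θ : ℝ} (hθ : 0 ≤ θ) (W Z : HH ι) {C : ℝ≥0∞} (hC : maj k0 W Z ≤ C)
    (h : ∀ γ : SpZ ι, θ < dl Z W → θ < dl (γ • Z) W → γ.1 = 1 ∨ γ.1 = -1) :
    ENNReal.ofReal (dl Z W ^ k) * maj k W Z ≤ 2 * ENNReal.ofReal (dl Z W ^ (2 * k)) +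
      ENNReal.ofReal (θ ^ (k - k0)) * C * ENNReal.ofReal (dl Z W ^ k0) := by
  classical
  have hpos : ∀ A B : HH ι, 0 < dl A B := (hDL ι).2.2.2.2.2.2.1
  have hle : ∀ A B : HH ι, dl A B ≤ 1 := (hDL2 ι).1
  set x := ENNReal.ofReal (dl Z W ^ (2 * k)) with hx
  have key : ∀ γ : SpZ ι, ENNReal.ofReal (dl Z W ^ k) * ENNReal.ofReal (dl (γ • Z) W ^ k) ≤
      ((if γ.1 = 1 then x else 0) + if γ.1 = -1 then x else 0) +
        ENNReal.ofReal (θ ^ (k - k0)) * ENNReal.ofReal (dl Z W ^ k0) *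
          ENNReal.ofReal (dl (γ • Z) W ^ k0) := by
    intro γ
    rw [← ENNReal.ofReal_mul (pow_nonneg (hpos _ _).le _)]
    by_cases hγ : γ.1 = 1 ∨ γ.1 = -1
    · rw [(hPROP ι).2.2.2.2.2.1 γ Z hγ, ← pow_add, ← two_mul, ← hx]
      refine le_trans ?_ le_self_add
      rcases hγ with h1 | h1
      · rw [if_pos h1]; exact le_self_add
      · rw [if_pos h1]; exact le_add_self
    · refine le_trans ?_ le_add_self
      rw [← ENNReal.ofReal_mul (pow_nonneg hθ _),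
        ← ENNReal.ofReal_mul (mul_nonneg (pow_nonneg hθ _) (pow_nonneg (hpos _ _).le _))]
      apply ENNReal.ofReal_le_ofReal
      have hab : dl Z W * dl (γ • Z) W ≤ θ := by
        by_cases h1 : θ < dl Z W
        · have h2 : dl (γ • Z) W ≤ θ := not_lt.mp fun h2 => hγ (h γ h1 h2)
          nlinarith [hle Z W, hpos (γ • Z) W]
        · nlinarith [hle (γ • Z) W, hpos Z W, not_lt.mp h1]
      rw [← mul_pow, mul_assoc, ← mul_pow]
      exact pow_split (mul_pos (hpos _ _) (hpos _ _)).le hab hk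
  calc ENNReal.ofReal (dl Z W ^ k) * maj k W Z
      = ∑' γ : SpZ ι, ENNReal.ofReal (dl Z W ^ k) * ENNReal.ofReal (dl (γ • Z) W ^ k) := by
        rw [maj, ENNReal.tsum_mul_left]
    _ ≤ _ := ENNReal.tsum_le_tsum key
    _ = (∑' γ : SpZ ι, (if γ.1 = 1 then x else 0)) + (∑' γ : SpZ ι, (if γ.1 = -1 then x else 0)) +
        ENNReal.ofReal (θ ^ (k - k0)) * ENNReal.ofReal (dl Z W ^ k0) * maj k0 W Z := by
        rw [ENNReal.tsum_add, ENNReal.tsum_add, ENNReal.tsum_mul_left, maj]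
    _ ≤ x + x + ENNReal.ofReal (θ ^ (k - k0)) * ENNReal.ofReal (dl Z W ^ k0) * C :=
        add_le_add (add_le_add (tsum_val_le _ _) (tsum_val_le _ _)) (mul_le_mul_right hC _)
    _ = _ := by ring

/-- The norm bound. -/
theorem nrm_le (hIK : S_IK) (hWT : S_WT) (hMEAS : S_MEAS) (hDL : S_DL) (hDL2 : S_DL2)
    (hPROP : S_PROP) {w : HH ι → ℝ≥0∞} (hw : IsWt (SpZ ι) (HH ι) w) {k : ℕ}
    (hk : 2 * (Fintype.card ι + 1) ≤ k) {θ : ℝ} (hθ : 0 ≤ θ) (W : HH ι) {C : ℝ≥0∞}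
    (hC : ∀ Z, maj (2 * (Fintype.card ι + 1)) W Z ≤ C)
    (h : ∀ (γ : SpZ ι) (Z : HH ι), θ < dl Z W → θ < dl (γ • Z) W → γ.1 = 1 ∨ γ.1 = -1)
    (P : (Sym2 ι → ℂ) → ℂ) (hP : ∀ Z, ENNReal.ofReal √(FF k P Z) ≤ maj k W Z) :
    nrm w k P ≤ 2 * Ik ι k 0 + ENNReal.ofReal (θ ^ (k - 2 * (Fintype.card ι + 1))) * C *
      Ik ι (Fintype.card ι + 1) 0 := by
  haveI := (hMEAS ι).2.1
  have hφ : Measurable fun Z : HH ι => ENNReal.ofReal (dl Z W ^ k) * maj k W Z :=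
    (meas_dl hDL k W).mul (meas_maj hDL k W)
  have h1 := (hWT (SpZ ι) (HH ι) (μH ι) w hw).1 _ hφ
  have h2 : ∀ Z : HH ι, ∑' γ : SpZ ι, ENNReal.ofReal (dl (γ • Z) W ^ k) * maj k W (γ • Z) =
      maj k W Z * maj k W Z := by
    intro Z
    simp only [maj_smul]
    rw [ENNReal.tsum_mul_right]
    rfl
  simp only [h2] at h1
  calc nrm w k P ≤ ∫⁻ Z, maj k W Z * maj k W Z * w Z ∂μH ι := by
        refine lintegral_mono fun Z => mul_le_mul_left ?_ _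
        rw [← Real.mul_self_sqrt (FF_nonneg k P Z), ENNReal.ofReal_mul (Real.sqrt_nonneg _)]
        exact mul_le_mul' (hP Z) (hP Z)
    _ = _ := h1.symm
    _ ≤ ∫⁻ Z, (2 * ENNReal.ofReal (dl Z W ^ (2 * k)) +
          ENNReal.ofReal (θ ^ (k - 2 * (Fintype.card ι + 1))) * C *
            ENNReal.ofReal (dl Z W ^ (2 * (Fintype.card ι + 1)))) ∂μH ι :=
        lintegral_mono fun Z => point_le hDL hDL2 hPROP hk hθ W Z (hC Z) fun γ => h γ Z
    _ = _ := by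
        rw [lintegral_add_left ((meas_dl hDL _ W).const_mul _),
          lintegral_const_mul _ (meas_dl hDL _ W), lintegral_const_mul _ (meas_dl hDL _ W),
          (hIK ι).2.2.2.2, (hIK ι).2.2.2.2]

/-- The remainder of the series at the peak point. -/
theorem rem_le (hDL : S_DL) {k k0 : ℕ} (hk : k0 ≤ k) {θ : ℝ} (hθ : 0 ≤ θ) (W : HH ι)
    {C : ℝ≥0∞} (hC : maj k0 W W ≤ C)
    (h : ∀ γ : SpZ ι, ¬ (γ.1 = 1 ∨ γ.1 = -1) → dl (γ • W) W ≤ θ) :
    ∑' γ : {γ : SpZ ι // ¬ (γ.1 = 1 ∨ γ.1 = -1)}, ENNReal.ofReal (dl (γ.1 • W) W ^ k) ≤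
      ENNReal.ofReal (θ ^ (k - k0)) * C := by
  have hpos : ∀ A B : HH ι, 0 < dl A B := (hDL ι).2.2.2.2.2.2.1
  calc _ ≤ ∑' γ : {γ : SpZ ι // ¬ (γ.1 = 1 ∨ γ.1 = -1)},
          ENNReal.ofReal (θ ^ (k - k0)) * ENNReal.ofReal (dl (γ.1 • W) W ^ k0) := by
        refine ENNReal.tsum_le_tsum fun γ => ?_
        rw [← ENNReal.ofReal_mul (pow_nonneg hθ _)]
        exact ENNReal.ofReal_le_ofReal (pow_split (hpos _ _).le (h γ.1 γ.2) hk)
    _ ≤ ENNReal.ofReal (θ ^ (k - k0)) * maj k0 W W := by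
        rw [ENNReal.tsum_mul_left]
        refine mul_le_mul_right ?_ _
        exact ENNReal.tsum_comp_le_tsum_of_injective Subtype.val_injective
          fun γ : SpZ ι => ENNReal.ofReal (dl (γ • W) W ^ k0)
    _ ≤ _ := mul_le_mul_right hC _

theorem tendsto_shift (N k0 : ℕ) {θ : ℝ} (h0 : 0 < θ) (h1 : θ < 1) :
    Tendsto (fun k : ℕ => (k : ℝ) ^ N * θ ^ (k - k0)) atTop (𝓝 0) := by
  have h := (tendsto_pow_const_mul_const_pow_of_abs_lt_one N
    (r := θ) (by rw [abs_of_pos h0]; exact h1)).mul_const (θ ^ k0)⁻¹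
  rw [zero_mul] at h
  refine h.congr' ?_
  filter_upwards [eventually_ge_atTop k0] with k hk
  rw [pow_sub₀ _ h0.ne' hk, mul_assoc]

end PLOW

open PLOW in
theorem p_PLOW (hPSER : S_PSER) (hSUMD : S_SUMD) (hIK : S_IK) (hWT : S_WT) (hMEAS : S_MEAS)
    (hDL : S_DL) (hDL2 : S_DL2) (hMULT : S_MULT) (hPROP : S_PROP) : S_PLOW := by
  intro ι _ _ _ w hw ρ hρ s hs ε hε
  obtain ⟨C, hCt, hC⟩ := hSUMD ι s hs
  obtain ⟨ρ', hρ0, hρ1, hM⟩ := (hMULT ι).2.1 ρ hρ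
  set g := Fintype.card ι with hg
  set θ := max ρ ρ' with hθ
  have hθ0 : 0 < θ := lt_max_of_lt_right hρ0
  have hθ1 : θ < 1 := max_lt hρ hρ1
  have hc : 0 < cg g := by unfold cg; positivity
  have hI := (hIK ι).1 0 le_rfl one_pos
  have hI1 : Tendsto (fun k : ℕ => ((k : ℝ≥0∞) ^ tri g * Ik ι k 0).toReal) atTop (𝓝 (cg g)⁻¹) := by
    have := (ENNReal.tendsto_toReal ENNReal.ofReal_ne_top).comp hI
    rwa [ENNReal.toReal_ofReal (inv_nonneg.mpr hc.le)] at this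
  have hI2 : ∀ᶠ k : ℕ in atTop, (k : ℝ≥0∞) ^ tri g * Ik ι k 0 < ⊤ :=
    hI.eventually (gt_mem_nhds ENNReal.ofReal_lt_top)
  have hBt : C * Ik ι (g + 1) 0 ≠ ⊤ := ENNReal.mul_ne_top hCt (hIK ι).2.1
  set B := (C * Ik ι (g + 1) 0).toReal with hB
  have hT0 : Tendsto (fun k : ℕ => θ ^ (k - 2 * (g + 1)) * C.toReal) atTop (𝓝 0) := by
    have := (tendsto_shift 0 (2 * (g + 1)) hθ0 hθ1).mul_const C.toReal
    simpa using this
  have hL : Tendsto (fun k : ℕ => (2 * cg g - ε) * (2 * ((k : ℝ≥0∞) ^ tri g * Ik ι k 0).toReal +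
      (k : ℝ) ^ tri g * θ ^ (k - 2 * (g + 1)) * B)) atTop
      (𝓝 ((2 * cg g - ε) * (2 * (cg g)⁻¹ + 0 * B))) :=
    ((hI1.const_mul 2).add ((tendsto_shift _ _ hθ0 hθ1).mul_const B)).const_mul _
  have hR : Tendsto (fun k : ℕ => (2 - θ ^ (k - 2 * (g + 1)) * C.toReal) ^ 2) atTop
      (𝓝 ((2 - 0) ^ 2)) := (hT0.const_sub 2).pow 2
  have hlt : (2 * cg g - ε) * (2 * (cg g)⁻¹ + 0 * B) < (2 - 0 : ℝ) ^ 2 := by
    have e : (2 * cg g - ε) * (2 * (cg g)⁻¹ + 0 * B) = 4 - 2 * (ε * (cg g)⁻¹) := by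
      field_simp
      ring
    have : 0 < ε * (cg g)⁻¹ := mul_pos hε (inv_pos.mpr hc)
    rw [e]; linarith
  filter_upwards [hL.eventually_lt hR hlt, hI2, hT0.eventually (gt_mem_nhds one_pos),
    eventually_gt_atTop (2 * (g + 1))] with k hk1 hk2 hk3 hk4 hev W hW hWs
  obtain ⟨P, hP, hP1, hP2⟩ := hPSER ι k W hk4 hev
  have ht0 : 0 ≤ θ ^ (k - 2 * (g + 1)) := pow_nonneg hθ0.le _
  have hrem := rem_le hDL hk4.le hθ0.le W (hC W hWs W)
    fun γ hγ => (hW γ hγ).trans (le_max_left _ _)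
  have h2 : 2 ≤ √(FF k P W) + θ ^ (k - 2 * (g + 1)) * C.toReal := by
    have h3 := hP2.trans (add_le_add_right hrem _)
    rw [← ENNReal.ofReal_toReal hCt, ← ENNReal.ofReal_mul ht0,
      ← ENNReal.ofReal_add (Real.sqrt_nonneg _) (mul_nonneg ht0 ENNReal.toReal_nonneg),
      ← ENNReal.ofReal_ofNat 2] at h3
    exact (ENNReal.ofReal_le_ofReal_iff (by positivity)).mp h3
  have h4 : (2 - θ ^ (k - 2 * (g + 1)) * C.toReal) ^ 2 ≤ FF k P W := by
    rw [← Real.sq_sqrt (FF_nonneg k P W)]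
    exact pow_le_pow_left₀ (by linarith) (by linarith) 2
  refine ⟨P, hP, ?_, ?_⟩
  · rintro rfl
    have : FF k (0 : (Sym2 ι → ℂ) → ℂ) W = 0 := by simp [FF]
    rw [this, Real.sqrt_zero] at h2
    linarith
  · have hn := nrm_le hIK hWT hMEAS hDL hDL2 hPROP hw hk4.le hθ0.le W (hC W hWs)
      (fun γ Z h1 h2 => hM W hW γ Z ((le_max_right _ _).trans_lt h1)
        ((le_max_right _ _).trans_lt h2)) P hP1
    by_cases hneg : 2 * cg g - ε ≤ 0
    · rw [ENNReal.ofReal_of_nonpos (mul_nonpos_of_nonpos_of_nonneg hneg (by positivity)), zero_mul]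
      exact bot_le
    · have hp : 0 ≤ 2 * cg g - ε := (not_le.mp hneg).le
      refine le_trans ?_ (ENNReal.ofReal_le_ofReal (hk1.le.trans h4))
      refine (mul_le_mul_right hn _).trans (le_of_eq ?_)
      have hB0 : 0 ≤ B := ENNReal.toReal_nonneg
      rw [ENNReal.ofReal_mul hp, ENNReal.ofReal_mul hp,
        ENNReal.ofReal_add (by positivity) (by positivity),
        ENNReal.ofReal_mul (by norm_num : (0 : ℝ) ≤ 2), ENNReal.ofReal_toReal hk2.ne,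
        ENNReal.ofReal_mul (by positivity), ENNReal.ofReal_mul (by positivity), hB,
        ENNReal.ofReal_toReal hBt, ENNReal.ofReal_pow (Nat.cast_nonneg _), ENNReal.ofReal_natCast,
        ENNReal.ofReal_ofNat]
      ring

end Pool.Agent.P.MP_59bdab_ag
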