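import Pool.Agent.P.MP_59bdab_ag.IfB

namespace Pool.Agent.P.MP_59bdab_ag

open Matrix MeasureTheory Filter Topology
open scoped ENNReal ComplexOrder

namespace POLY

theorem toReal_encard {α : Type} (S : Set α) : ((S.encard : ℝ≥0∞)).toReal = S.ncard := by
  rw [Set.ncard_def]
  induction S.encard using ENat.recTopCoe with
  | top => simp
  | coe n => simp

end POLY

theorem p_POLY (hFR : S_FR) (hPW : S_PW) (hFRS : S_FRS) (hFINW : S_FINW) (hVFIN : S_VFIN)
    (hQ : S_Q) : S_POLY := by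
  intro ι _ _ w s hw hs hs1
  set ν := (μH ι).withDensity w with hν
  have hl : ∀ φ : HH ι → ℝ≥0∞, Measurable φ → ∫⁻ Z, φ Z ∂ν = ∫⁻ Z, φ Z * w Z ∂μH ι := by
    intro φ hφ
    rw [hν, lintegral_withDensity_eq_lintegral_mul _ hw.1 hφ]
    exact lintegral_congr fun Z => mul_comm _ _
  have mC := fun r => (hFR ι w s r hw hs hs1).1
  have mO := fun r => (hFR ι w s r hw hs hs1).2.1
  have hE := fun r => (hFR ι w s r hw hs hs1).2.2.1
  have hI := fun r => (hFR ι w s r hw hs hs1).2.2.2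
  have hfin : ∀ r, r ≤ Fintype.card ι →
      ∫⁻ Z, ((FrC (Qm Z) s r).encard : ℝ≥0∞) ∂ν ≠ ⊤ := by
    intro r hr
    rw [hl _ (mC r), (hI r hr).1]
    exact ENNReal.mul_ne_top (ENNReal.mul_ne_top (hVFIN.1 _) ((hFINW r).2.2 _).1)
      ENNReal.ofReal_ne_top
  have hsub : ∀ r (Z : HH ι), FrO (Qm Z) s r ⊆ FrC (Qm Z) s r := fun r Z =>
    (hFRS _ (Qm Z) s r (by
      have := ((hQ ι).1 Z).1.isHermitian
      rwa [IsHermitian, conjTranspose_eq_transpose_of_trivial] at this)).1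
  have hae : ∀ᵐ Z ∂ν, ∀ r, FrC (Qm Z) s r ⊆ FrO (Qm Z) s r := by
    rw [ae_all_iff]
    intro r
    rcases le_or_gt r (Fintype.card ι) with hr | hr
    · have e : ∫⁻ Z, ((FrO (Qm Z) s r).encard : ℝ≥0∞) ∂ν =
          ∫⁻ Z, ((FrC (Qm Z) s r).encard : ℝ≥0∞) ∂ν := by
        rw [hl _ (mC r), hl _ (mO r), (hI r hr).2]
      have h1 := ae_eq_of_ae_le_of_lintegral_le (μ := ν)
        (f := fun Z => ((FrO (Qm Z) s r).encard : ℝ≥0∞))
        (g := fun Z => ((FrC (Qm Z) s r).encard : ℝ≥0∞))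
        (Eventually.of_forall fun Z => ENat.toENNReal_le.2 (Set.encard_le_encard (hsub r Z)))
        (e ▸ hfin r hr) (mC r).aemeasurable e.ge
      filter_upwards [h1, ae_lt_top (mC r) (hfin r hr)] with Z a b
      have f1 : (FrC (Qm Z) s r).Finite := by
        rw [← Set.encard_lt_top_iff]
        simpa using b
      exact ((f1.subset (hsub r Z)).eq_of_subset_of_encard_le (hsub r Z)
        (ENat.toENNReal_le.1 a.ge)).superset
    · exact Eventually.of_forall fun Z => by rw [hE r hr Z]; exact Set.empty_subset _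
  have hP := fun (Z : HH ι) (h : ∀ r, FrC (Qm Z) s r ⊆ FrO (Qm Z) s r) =>
    hPW _ (Qm Z) s (Fintype.card ι) ((hQ ι).1 Z).1 hs h (hE _ (Nat.lt_succ_self _) Z)
  refine ⟨hae.mono fun Z h => (hP Z h).2.2.2, ?_⟩
  have hS : MeasurableSet (Short ι s) := ((hQ ι).2.2.2.2.2.2.2.2.2.1 s).measurableSet
  have e1 : (mass w (Short ι s)).toReal = ∫ Z, (Short ι s).indicator (fun _ => (1 : ℝ)) Z ∂ν := by
    rw [integral_indicator_const _ hS, smul_eq_mul, mul_one, Measure.real, hν,
      withDensity_apply _ hS, mass]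
  have e2 : ∀ᵐ Z ∂ν, (Short ι s).indicator (fun _ => (1 : ℝ)) Z =
      ∑ r ∈ Finset.range (Fintype.card ι),
        (-1 : ℝ) ^ r / 2 ^ (r + 1) * ((FrC (Qm Z) s (r + 1)).encard : ℝ≥0∞).toReal := by
    filter_upwards [hae] with Z h
    by_cases hz : Z ∈ Short ι s
    · rw [Set.indicator_of_mem hz]
      refine ((hP Z h).2.1 hz).symm.trans (Finset.sum_congr rfl fun r _ => ?_)
      rw [POLY.toReal_encard]
      ring
    · rw [Set.indicator_of_notMem hz]
      refine (Finset.sum_eq_zero fun r _ => ?_).symm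
      rw [(hP Z h).2.2.1 hz r]
      simp
  rw [e1, integral_congr_ae e2, integral_finsetSum _ fun r hr =>
    (integrable_toReal_of_lintegral_ne_top (mC (r + 1)).aemeasurable
      (hfin _ (Finset.mem_range.1 hr))).const_mul _]
  refine Finset.sum_congr rfl fun r hr => ?_
  have hr' : r + 1 ≤ Fintype.card ι := Finset.mem_range.1 hr
  rw [integral_const_mul, integral_toReal (mC (r + 1)).aemeasurable
    (ae_lt_top (mC _) (hfin _ hr')), hl _ (mC _), (hI _ hr').1, ((hFINW (r + 1)).2.2 _).2.1,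
    ENNReal.toReal_mul, ENNReal.toReal_mul, ENNReal.toReal_ofReal (by positivity)]
  field_simp

end Pool.Agent.P.MP_59bdab_ag
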