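import Pool.Agent.P.MP_59bdab_ag.IfB

/-!
The Fourier-Jacobi coefficients as functions on the half space.
-/

namespace Pool.Agent.P.MP_59bdab_ag

open Matrix MeasureTheory Filter Topology
open scoped ENNReal ComplexOrder

namespace PROJ

variable {ι : Type}

theorem add_real_mem {z x : Sym2 ι → ℂ} (hz : z ∈ HS ι) (hx : ∀ q, (x q).im = 0) :
    z + x ∈ HS ι := by
  have : (fun q => ((z + x) q).im) = fun q => (z q).im := by
    funext q
    simp [hx q]
  show (mat fun q => ((z + x) q).im).PosDef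
  rw [this]
  exact hz

theorem tv_im (p : ι → ℤ) (t : ℝ) (q : Sym2 ι) : (((t : ℂ) • tv p) q).im = 0 := by
  induction q using Sym2.ind with
  | _ a b =>
    show ((t : ℂ) * ((p a : ℂ) * p b)).im = 0
    simp

theorem swap {F : ℝ → ℝ → ℂ} (hF : Continuous (Function.uncurry F)) :
    ∫ t in (0 : ℝ)..1, ∫ u in (0 : ℝ)..1, F t u = ∫ u in (0 : ℝ)..1, ∫ t in (0 : ℝ)..1, F t u := by
  simp only [intervalIntegral.integral_of_le zero_le_one]
  refine integral_integral_swap ?_
  rw [Measure.prod_restrict]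
  exact (hF.continuousOn.integrableOn_compact (isCompact_Icc.prod isCompact_Icc)).mono_set
    (Set.prod_mono Set.Ioc_subset_Icc_self Set.Ioc_subset_Icc_self)

theorem int_exp {n : ℤ} (hn : n ≠ 0) :
    ∫ t in (0 : ℝ)..1, Complex.exp (n * (2 * Real.pi * Complex.I) * t) = 0 := by
  rw [integral_exp_mul_complex (mul_ne_zero (by exact_mod_cast hn) Complex.two_pi_I_ne_zero)]
  simp [Complex.exp_int_mul_two_pi_mul_I]

variable [DecidableEq ι]

theorem sg_eq (p : Sym2 ι) (c : ℂ) :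
    (Pi.single p c : Sym2 ι → ℂ) = c • (Pi.single p 1 : Sym2 ι → ℂ) := by
  rw [← Pi.single_smul', smul_eq_mul, mul_one]

theorem mem_of_add {z : Sym2 ι → ℂ} {p : Sym2 ι} {t : ℝ} (h : z + Pi.single p (t : ℂ) ∈ HS ι) :
    z ∈ HS ι := by
  have := add_single_mem h p (-t)
  rwa [add_assoc, ← Pi.single_add, ← Complex.ofReal_add, add_neg_cancel, Complex.ofReal_zero,
    Pi.single_zero, add_zero] at this

theorem fj_out {f : (Sym2 ι → ℂ) → ℂ} (h : ∀ z, z ∉ HS ι → f z = 0) (i : ι) (j : ℤ)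
    (z : Sym2 ι → ℂ) (hz : z ∉ HS ι) : fj f i j z = 0 := by
  have : ∀ t : ℝ, f (z + Pi.single s(i, i) (t : ℂ)) = 0 := fun t => h _ fun h => hz (mem_of_add h)
  simp [fj, this]

theorem fj_eig {i : ι} {l : ℕ} {φ : (Sym2 ι → ℂ) → ℂ} (h : Eig i l φ) (j : ℕ) {z : Sym2 ι → ℂ}
    (hz : z ∈ HS ι) : fj φ i j z = if j = l then φ z else 0 := by
  have e : ∀ t : ℝ, φ (z + Pi.single s(i, i) (t : ℂ)) *
      Complex.exp (-(2 * Real.pi * Complex.I * (j : ℤ) * t)) =
      φ z * Complex.exp (((l : ℤ) - j : ℤ) * (2 * Real.pi * Complex.I) * t) := fun t => by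
    rw [h z hz t, mul_comm _ (φ z), mul_assoc, ← Complex.exp_add]
    congr 2
    push_cast
    ring
  simp only [fj, e, intervalIntegral.integral_const_mul]
  split_ifs with h
  · simp [h]
  · rw [int_exp (by omega), mul_zero]

theorem eig_fj {f : (Sym2 ι → ℂ) → ℂ} {i : ι}
    (hp : ∀ z ∈ HS ι, f (z + Pi.single s(i, i) 1) = f z) (j : ℕ) : Eig i j (fj f i j) := by
  intro z hz t
  set g : ℝ → ℂ := fun u => f (z + Pi.single s(i, i) (u : ℂ)) *
    Complex.exp (-(2 * Real.pi * Complex.I * (j : ℤ) * u)) with hg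
  have per : Function.Periodic g 1 := fun u => by
    simp only [hg, Complex.ofReal_add, Complex.ofReal_one, Pi.single_add, ← add_assoc]
    rw [hp _ (add_single_mem hz _ u)]
    congr 1
    rw [Complex.exp_eq_exp_iff_exists_int]
    exact ⟨-j, by push_cast; ring⟩
  have h1 := per.intervalIntegral_add_eq t 0
  have h2 := intervalIntegral.integral_comp_add_left (a := 0) (b := 1) g t
  rw [add_zero, h1, zero_add] at h2
  show _ = _ * ∫ u in (0 : ℝ)..1, g u
  rw [← h2, ← intervalIntegral.integral_const_mul]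
  refine intervalIntegral.integral_congr fun u _ => ?_
  simp only [hg, Complex.ofReal_add, Pi.single_add, ← add_assoc]
  rw [mul_left_comm, ← Complex.exp_add]
  congr 2
  push_cast
  ring

variable [Fintype ι]

theorem van_fj {f : (Sym2 ι → ℂ) → ℂ} (hf : DifferentiableOn ℂ f (HS ι)) {m : ℕ} (hv : Van m f)
    (i : ι) (j : ℤ) : Van m (fj f i j) := by
  intro p hp z hz
  refine ⟨intervalIntegral.integral_congr fun u _ => ?_, fun l hl => ?_⟩
  · rw [add_right_comm, (hv p hp _ (add_single_mem hz _ u)).1]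
  have hc : Continuous (Function.uncurry fun t u : ℝ =>
      f (z + Pi.single s(i, i) (u : ℂ) + (0 + (t : ℂ)) • tv p) *
        Complex.exp (-(2 * Real.pi * Complex.I * l * t)) *
        Complex.exp (-(2 * Real.pi * Complex.I * j * u))) := by
    refine (Continuous.mul ?_ (by fun_prop)).mul (by fun_prop)
    refine hf.continuousOn.comp_continuous ?_ fun x => ?_
    · simp only [sg_eq _ ((_ : ℝ) : ℂ)]
      fun_prop
    · rw [zero_add]
      exact add_real_mem (add_single_mem hz _ _) (tv_im p _)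
  have h1 := swap hc
  have h2 : ∀ u : ℝ, ∫ t in (0 : ℝ)..1, f (z + Pi.single s(i, i) (u : ℂ) + (0 + (t : ℂ)) • tv p) *
      Complex.exp (-(2 * Real.pi * Complex.I * l * t)) = 0 :=
    fun u => (hv p hp _ (add_single_mem hz _ u)).2 l hl
  simp only [intervalIntegral.integral_mul_const, h2, zero_mul, intervalIntegral.integral_zero]
    at h1
  refine Eq.trans (intervalIntegral.integral_congr fun t _ => ?_) h1
  simp only [fj]
  rw [← intervalIntegral.integral_mul_const]
  refine intervalIntegral.integral_congr fun u _ => ?_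
  rw [add_right_comm z, mul_right_comm (f _)]

theorem mod_fj (hTR : S_TR) (hWEI : S_WEI) {f : (Sym2 ι → ℂ) → ℂ} {k : ℕ} (hf : Mod ⊤ k f) (i : ι)
    (j : ℤ) : Mod (st1 i) k (fj f i j) := by
  obtain ⟨tr, h1, h2, h3, -⟩ := hTR ι i
  refine ⟨?_, fun γ hγ Z => ?_⟩
  · have := (hWEI _ _ (isOpen_HS ι)).2 f (Pi.single s(i, i) 1)
      (fun t => Complex.exp (-(2 * Real.pi * Complex.I * j * t))) hf.1 (by fun_prop)
      fun z hz t => by rw [← sg_eq]; exact add_single_mem hz _ t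
    simp only [← sg_eq] at this
    exact this
  · simp only [fj]
    rw [← intervalIntegral.integral_const_mul]
    refine intervalIntegral.integral_congr fun t _ => ?_
    rw [← (h1 t _).1, ← (h1 t _).1, smulZ_def, ← mul_smul, ← h2 t γ hγ, mul_smul, ← smulZ_def,
      hf.2 γ trivial, h3 t γ hγ, mul_assoc]

theorem bd_fj (hTR : S_TR) {f : (Sym2 ι → ℂ) → ℂ} {k : ℕ} (i : ι) (j : ℤ) {M : ℝ}
    (hM : ∀ Z, FF k f Z ≤ M) (Z : HH ι) : FF k (fj f i j) Z ≤ M := by
  obtain ⟨tr, h1, -⟩ := hTR ι i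
  have hd : 0 < (Ym Z).det ^ k := pow_pos (Ym_det_pos Z) _
  have h0 : 0 ≤ M / (Ym Z).det ^ k := div_nonneg ((FF_nonneg k f Z).trans (hM Z)) hd.le
  have h2 : ‖fj f i j Z.1‖ ≤ √(M / (Ym Z).det ^ k) * |1 - 0| := by
    refine intervalIntegral.norm_integral_le_of_norm_le_const fun t _ => ?_
    have h3 := hM (tr t • Z)
    rw [FF, (h1 t Z).2.2, (h1 t Z).1, ← le_div_iff₀ hd] at h3
    have h4 : ‖Complex.exp (-(2 * Real.pi * Complex.I * j * t))‖ = 1 := by
      rw [Complex.norm_exp]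
      simp
    rw [norm_mul, h4, mul_one]
    exact Real.le_sqrt_of_sq_le h3
  rw [sub_zero, abs_one, mul_one] at h2
  rw [FF, ← le_div_iff₀ hd]
  exact (pow_le_pow_left₀ (norm_nonneg _) h2 2).trans_eq (Real.sq_sqrt h0)

theorem fj_sum (s : Finset ℕ) (φ : ℕ → (Sym2 ι → ℂ) → ℂ)
    (h : ∀ l ∈ s, DifferentiableOn ℂ (φ l) (HS ι)) (i : ι) (j : ℤ) {z : Sym2 ι → ℂ}
    (hz : z ∈ HS ι) : fj (∑ l ∈ s, φ l) i j z = ∑ l ∈ s, fj (φ l) i j z := by
  simp only [fj, Finset.sum_apply, Finset.sum_mul]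
  exact intervalIntegral.integral_finsetSum fun l hl => fj_int (h l hl) i j hz

end PROJ

open PROJ in
theorem p_PROJ (hTR : S_TR) (hWEI : S_WEI) (hVAN : S_VAN) : S_PROJ := by
  intro ι _ _ i k
  have A : ∀ (m j : ℕ), ∀ f ∈ SF ι k m, (∀ z, z ∉ HS ι → fj f i j z = 0) ∧
      Mod (st1 i) k (fj f i j) ∧ Van m (fj f i j) ∧ Eig i j (fj f i j) ∧
      ∀ M, (∀ Z, FF k f Z ≤ M) → ∀ Z, FF k (fj f i j) Z ≤ M := by
    intro m j f hf
    obtain ⟨h0, h1, h2⟩ := (hVAN ι k m f).1.1 hf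
    refine ⟨fj_out h0 i j, mod_fj hTR hWEI h1 i j, van_fj h1.1 h2 i j, eig_fj (fun z hz => ?_) j,
      fun M hM => bd_fj hTR i j hM⟩
    rw [← tv_single]
    exact (hVAN ι k m f).2.1 h1 _ z hz
  refine ⟨A, fun j f hf => ⟨fun h => funext fun z => ?_, fun h => ?_⟩, fun m j c f hf h hh => ?_,
    fun m s f hf hs j hj => funext fun z => ?_, fun m m' hm f hf => ?_⟩
  · by_cases hz : z ∈ HS ι
    · exact h.2.2.2 i j (by push_cast; omega) z hz
    · exact fj_out h.1 i j z hz
  · obtain ⟨h0, h1, -⟩ := (hVAN ι k j f).1.1 hf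
    refine (hVAN ι k (j + 1) f).2.2.2 i h0 h1 fun l hl z hz => ?_
    rcases (show l < j ∨ l = j by push_cast at hl; omega) with h2 | rfl
    · exact hf.2.2.2 i l h2 z hz
    · exact congrFun h z
  · funext z
    by_cases hz : z ∈ HS ι
    · have h1 := intervalIntegral.integral_add ((fj_int hf.2.1 i j hz).const_mul c)
        (fj_int hh.2.1 i j hz)
      rw [intervalIntegral.integral_const_mul] at h1
      simp only [fj, Pi.add_apply, Pi.smul_apply, smul_eq_mul, add_mul, mul_assoc c]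
      exact h1
    · have h1 : c • f + h ∈ SF ι k m := add_mem (Submodule.smul_mem _ c hf) hh
      simp [fj_out h1.1 i j z hz, fj_out hf.1 i j z hz, fj_out hh.1 i j z hz]
  · by_cases hz : z ∈ HS ι
    · have h1 := fj_sum s (fun l => fj (f l) i l) (fun l hl => (A m l _ (hf l hl)).2.1.1) i j hz
      rw [hs, Finset.sum_congr rfl fun l hl => fj_eig (A m l _ (hf l hl)).2.2.2.1 j hz,
        Finset.sum_ite_eq, if_pos hj] at h1
      rw [← h1]
      simp [fj]
    · exact (A m j _ (hf j hj)).1 z hz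
  · exact ⟨hf.1, hf.2.1, hf.2.2.1, fun i j hj => hf.2.2.2 i j (hj.trans_le (by exact_mod_cast hm))⟩

end Pool.Agent.P.MP_59bdab_ag
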