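import Pool.Agent.P.MP_59bdab_ag.IfB

/-! Weights exist, generic stabilisers are plus or minus one. -/

namespace Pool.Agent.P.MP_59bdab_ag

open Matrix MeasureTheory Filter Topology
open scoped ENNReal ComplexOrder

namespace PROP

variable {ι : Type} [Fintype ι] [DecidableEq ι]

theorem scalar {A : Matrix ι ι ℂ} (h : ∀ M : Matrix ι ι ℂ, Mᵀ = M → M * A = A * M) (i : ι) :
    A = A i i • (1 : Matrix ι ι ℂ) := by
  have h1 : ∀ a b, a ≠ b → A a b = 0 := fun a b hab => by
    have := congrFun (congrFun (h (single a a 1) (transpose_single _ _ _)) a) b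
    rwa [single_mul_apply_same, mul_single_apply_of_ne _ _ _ _ _ hab.symm, one_mul] at this
  have h2 : ∀ a b, a ≠ b → A a a = A b b := fun a b hab => by
    have := congrFun (congrFun (h (single a b 1 + single b a 1) (by
      rw [transpose_add, transpose_single, transpose_single, add_comm])) a) b
    rw [Matrix.add_mul, Matrix.mul_add, Matrix.add_apply, Matrix.add_apply, single_mul_apply_same,
      mul_single_apply_same, single_mul_apply_of_ne _ _ _ _ _ hab,
      mul_single_apply_of_ne _ _ _ _ _ hab.symm] at this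
    simpa using this.symm
  ext a b
  by_cases hab : a = b
  · subst hab
    by_cases hi : a = i
    · simp [hi]
    · simp [h2 a i hi]
  · simp [hab, h1 a b hab]

theorem rigid (γ : SpR ι) (h : ∀ z, mat z * den γ.1 z = num γ.1 z) : γ.1 = 1 ∨ γ.1 = -1 := by
  rcases isEmpty_or_nonempty ι with h0 | ⟨⟨i⟩⟩
  · exact Or.inl (Subsingleton.elim _ _)
  have e3 := congrArg cm (sp_rel γ).2.2
  simp only [cm_mul, cm_sub, cm_transpose, cm_one] at e3
  have hγ : cm γ.1 = fromBlocks (cm γ.1.toBlocks₁₁) (cm γ.1.toBlocks₁₂) (cm γ.1.toBlocks₂₁)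
      (cm γ.1.toBlocks₂₂) := by
    ext (a | a) (b | b) <;> rfl
  simp only [den, num] at h
  generalize cm γ.1.toBlocks₁₁ = A at *
  generalize cm γ.1.toBlocks₁₂ = B at *
  generalize cm γ.1.toBlocks₂₁ = C at *
  generalize cm γ.1.toBlocks₂₂ = D at *
  have h1 : ∀ M : Matrix ι ι ℂ, Mᵀ = M → M * (C * M + D) = A * M + B := fun M hM => by
    have := h (coord M)
    rwa [mat_coord hM] at this
  have hB : B = 0 := by simpa using (h1 0 transpose_zero).symm
  have h2 := h1 1 transpose_one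
  have h3 := h1 (-1) (by rw [transpose_neg, transpose_one])
  simp only [hB, Matrix.mul_one, Matrix.one_mul, add_zero, Matrix.mul_neg, Matrix.neg_mul,
    neg_inj] at h2 h3
  have hC : C = 0 := by
    have h4 : (2 : ℂ) • C = 0 := by
      rw [two_smul]
      calc C + C = (C + D) - (-C + D) := by abel
        _ = 0 := by rw [h2, h3, sub_self]
    exact (smul_eq_zero.1 h4).resolve_left two_ne_zero
  have hD : D = A := by simpa [hC] using h2
  subst hB hC hD
  have h5 := scalar (A := D) (fun M hM => by simpa using h1 M hM) i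
  generalize D i i = a at h5
  subst h5
  have h6 : a * a = 1 := by simpa using congrFun (congrFun e3 i) i
  rcases mul_self_eq_one_iff.1 h6 with rfl | rfl
  · refine Or.inl (cm_injective ?_)
    rw [hγ, one_smul, fromBlocks_one, cm_one]
  · refine Or.inr (cm_injective ?_)
    rw [hγ, cm_neg, cm_one, ← fromBlocks_one, fromBlocks_neg, neg_smul, one_smul, neg_zero]

theorem toR_eq {γ : SpZ ι} (h : (toR γ).1 = 1 ∨ (toR γ).1 = -1) : γ.1 = 1 ∨ γ.1 = -1 := by
  refine h.imp (fun h => ?_) fun h => ?_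
  · ext a b
    have := congrFun (congrFun h a) b
    rw [toR_apply, Matrix.one_apply] at this
    rw [Matrix.one_apply]
    split_ifs at this ⊢ <;> exact_mod_cast this
  · ext a b
    have := congrFun (congrFun h a) b
    rw [toR_apply, Matrix.neg_apply, Matrix.one_apply] at this
    rw [Matrix.neg_apply, Matrix.one_apply]
    split_ifs at this ⊢ <;> exact_mod_cast this

theorem toR_neg {γ : SpZ ι} (h : γ.1 = -1) : (toR γ).1 = -1 := by
  ext a b
  rw [toR_apply, h, Matrix.neg_apply, Matrix.neg_apply, Matrix.one_apply, Matrix.one_apply]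
  split_ifs <;> simp

theorem den_neg1 (z : Sym2 ι → ℂ) : den (-1 : Matrix (ι ⊕ ι) (ι ⊕ ι) ℝ) z = -1 := by
  rw [den, ← fromBlocks_one, fromBlocks_neg, toBlocks_fromBlocks₂₁, toBlocks_fromBlocks₂₂]
  simp [cm_neg]

theorem num_neg1 (z : Sym2 ι → ℂ) : num (-1 : Matrix (ι ⊕ ι) (ι ⊕ ι) ℝ) z = -mat z := by
  rw [num, ← fromBlocks_one, fromBlocks_neg, toBlocks_fromBlocks₁₁, toBlocks_fromBlocks₁₂]
  simp [cm_neg]

omit [DecidableEq ι] in
theorem diff (γ : Matrix (ι ⊕ ι) (ι ⊕ ι) ℝ) (i j : ι) :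
    Differentiable ℂ fun z : Sym2 ι → ℂ => (mat z * den γ z - num γ z) i j := by
  simp only [den, num, Matrix.sub_apply, Matrix.add_apply, Matrix.mul_apply, mat_apply]
  fun_prop

end PROP

open PROP in
theorem p_PROP (hQC : S_QC) (hWEX : S_WEX) (hWT : S_WT) (hZERO : S_ZERO) (hMEAS : S_MEAS) :
    S_PROP := by
  intro ι _ _
  obtain ⟨-, m2, -, -, m5, -, -, m8⟩ := hMEAS ι
  have hfin := (hQC ι).2.2.2.2
  have h2 : ∃ w, IsWt (SpZ ι) (HH ι) w := hWEX _ _ hfin
  have h3 : ∀ w, IsWt (SpZ ι) (HH ι) w → ∫⁻ Z, w Z ∂μH ι = vol ι := fun w hw => by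
    refine le_antisymm (le_iInf₂ fun w' hw' => ?_) (iInf₂_le w hw)
    have := (hWT _ _ (μH ι) w hw).2.1 w' (fun _ => 1) hw' measurable_const fun _ _ => rfl
    simp only [one_mul] at this
    exact this.le
  refine ⟨fun G => ?_, h2, h3, fun h0 => ?_, ?_, fun γ Z h => ?_,
    fun γ Z h => ?_⟩
  · have : ContinuousConstSMul G (HH ι) := ⟨fun γ => continuous_const_smul γ.1⟩
    exact hWEX _ _ fun K hK =>
      (hfin K hK).preimage (f := fun γ : G => (γ : SpZ ι)) Subtype.val_injective.injOn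
  · obtain ⟨w, hw⟩ := h2
    rw [← h3 w hw, lintegral_eq_zero_iff hw.1] at h0
    have h4 := (hWT _ _ (μH ι) w hw).1 (fun _ => 1) measurable_const
    rw [lintegral_one, lintegral_congr_ae (g := fun _ => 0) (h0.mono fun Z hZ => by
      simp only [Pi.zero_apply] at hZ
      simp only [hZ, mul_zero]), lintegral_zero] at h4
    exact isOpen_univ.measure_ne_zero (μH ι) ⟨iH ι, trivial⟩ h4
  · refine ae_all_iff.2 fun γ => ?_
    by_cases hγ : γ.1 = 1 ∨ γ.1 = -1
    · exact Eventually.of_forall fun _ _ => hγ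
    obtain ⟨z, hz⟩ : ∃ z, mat z * den (toR γ).1 z ≠ num (toR γ).1 z := by
      by_contra! h
      exact hγ (toR_eq (rigid _ h))
    obtain ⟨i, j, hij⟩ : ∃ i j, (mat z * den (toR γ).1 z - num (toR γ).1 z) i j ≠ 0 := by
      by_contra! h
      exact hz (sub_eq_zero.1 (Matrix.ext h))
    refine measure_mono_null (fun Z hZ => ?_) (m8 _ ((hZERO _).1 _ (diff (toR γ).1 i j) ⟨z, hij⟩))
    have h4 : γ • Z = Z := by_contra fun h => hZ fun h' => absurd h' h
    rw [smulZ_def, smul_eq_iff] at h4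
    show (mat Z.1 * den (toR γ).1 Z.1 - num (toR γ).1 Z.1) i j = 0
    rw [h4, sub_self, Matrix.zero_apply]
  · rcases h with h | h
    · rw [show γ = 1 from Subtype.ext h, one_smul]
    · rw [smulZ_def, smul_eq_iff, toR_neg h, den_neg1, num_neg1, Matrix.mul_neg, Matrix.mul_one]
  · rw [jf, toR_neg h, den_neg1, det_neg, det_one, mul_one]

end Pool.Agent.P.MP_59bdab_ag
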