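import Pool.Agent.P.MP_59bdab_ag.IfB

/-!
Poincare series of a peak function.
-/

namespace Pool.Agent.P.MP_59bdab_ag

open Matrix MeasureTheory Filter Topology
open scoped ENNReal ComplexOrder

namespace PSER

variable {ι : Type} [Fintype ι] [DecidableEq ι]

/-- The peak function. -/
noncomputable def uu (k : ℕ) (W : HH ι) (z : Sym2 ι → ℂ) : ℂ :=
  ((√(Ym W).det : ℝ) : ℂ) ^ k * ((kd W z)⁻¹) ^ k

/-- The terms of the Poincare series. -/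
noncomputable def tm (k : ℕ) (W : HH ι) (γ : SpZ ι) : (Sym2 ι → ℂ) → ℂ :=
  slash (toR γ) k (uu k W)

theorem sqrt_FF (k : ℕ) (f : (Sym2 ι → ℂ) → ℂ) (Z : HH ι) :
    √(FF k f Z) = ‖f Z.1‖ * √(Ym Z).det ^ k := by
  have h : FF k f Z = (‖f Z.1‖ * √(Ym Z).det ^ k) ^ 2 := by
    rw [FF, mul_pow, ← pow_mul, mul_comm k 2, pow_mul, Real.sq_sqrt (Ym_det_pos Z).le]
  rw [h, Real.sqrt_sq (by positivity)]

theorem sqrt_FF_uu (k : ℕ) (W Z : HH ι) : √(FF k (uu k W) Z) = dl Z W ^ k := by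
  rw [sqrt_FF, uu, dl, norm_mul, norm_pow, norm_pow, norm_inv, Complex.norm_real,
    Real.norm_of_nonneg (Real.sqrt_nonneg _), Real.sqrt_mul (Ym_det_pos Z).le, ← mul_pow,
    ← mul_pow]
  congr 1
  ring

theorem uu_diff (hDL : S_DL) (k : ℕ) (W : HH ι) : DifferentiableOn ℂ (uu k W) (HS ι) := by
  obtain ⟨h1, h2, -⟩ := hDL ι
  exact (differentiableOn_const _).mul
    (((h1 W).differentiableOn.inv fun z hz => h2 ⟨z, hz⟩ W).pow k)

theorem norm_tm (hDL : S_DL) (k : ℕ) (W : HH ι) (γ : SpZ ι) (Z : HH ι) :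
    ‖tm k W γ Z.1‖ * √(Ym Z).det ^ k = dl (γ • Z) W ^ k := by
  obtain ⟨-, -, -, -, -, -, -, -, -, -, -, h⟩ := hDL ι
  rw [← sqrt_FF, tm, h, sqrt_FF_uu, smulZ_def]

theorem tm_val (k : ℕ) (W : HH ι) (γ : SpZ ι) (Z : HH ι) :
    tm k W γ Z.1 = (jf (toR γ) Z)⁻¹ ^ k * uu k W (γ • Z).1 := rfl

theorem tm_smul (k : ℕ) (W : HH ι) (γ δ : SpZ ι) (Z : HH ι) :
    tm k W γ (δ • Z).1 = jf (toR δ) Z ^ k * tm k W (γ * δ) Z.1 := by
  rw [tm_val, tm_val, map_mul, jf_mul, mul_smul, ← smulZ_def δ Z]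
  have h1 := jf_ne_zero (toR δ) Z
  rw [mul_inv, mul_pow, inv_pow (jf (toR δ) Z)]
  have h2 : jf (toR δ) Z ^ k ≠ 0 := pow_ne_zero _ h1
  field_simp

theorem sum_le_of {I : Type} {a : I → ℝ} (ha : ∀ i, 0 ≤ a i) {C : ℝ≥0∞} (hC : C ≠ ⊤)
    (h : ∑' i, ENNReal.ofReal (a i) ≤ C) (t : Finset I) : ∑ i ∈ t, a i ≤ C.toReal := by
  rw [← ENNReal.ofReal_le_iff_le_toReal hC, ENNReal.ofReal_sum_of_nonneg fun i _ => ha i]
  exact (ENNReal.sum_le_tsum t).trans h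

/-- The majorant. -/
theorem major (hSUMD : S_SUMD) (hQC : S_QC) (hDL : S_DL) (W : HH ι) : ∃ C : ℝ, 0 ≤ C ∧
    ∀ (Z : HH ι) (t : Finset (SpZ ι)),
      ∑ γ ∈ t, dl (γ • Z) W ^ (2 * (Fintype.card ι + 1)) ≤ C := by
  obtain ⟨s, hs, hW⟩ := (hQC ι).2.2.2.1 W
  obtain ⟨C, hC, h⟩ := hSUMD ι s hs
  obtain ⟨-, -, -, -, -, -, hpos, -⟩ := hDL ι
  exact ⟨C.toReal, ENNReal.toReal_nonneg, fun Z t =>
    sum_le_of (fun γ => pow_nonneg (hpos _ _).le _) hC (h W hW Z) t⟩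

theorem det_lower (K : Set (HH ι)) (hK : IsCompact K) (k : ℕ) :
    ∃ c > 0, ∀ Z ∈ K, c ≤ √(Ym Z).det ^ k := by
  rcases K.eq_empty_or_nonempty with rfl | hne
  · exact ⟨1, one_pos, fun Z hZ => hZ.elim⟩
  · have hc : Continuous fun Z : HH ι => √(Ym Z).det ^ k :=
      (continuous_Ym.matrix_det.sqrt).pow k
    obtain ⟨Z0, -, h0⟩ := hK.exists_isMinOn hne hc.continuousOn
    exact ⟨_, pow_pos (Real.sqrt_pos.mpr (Ym_det_pos Z0)) k, fun Z hZ => h0 hZ⟩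

theorem tsum_diff (hSUMD : S_SUMD) (hWEI : S_WEI) (hDL : S_DL) (hDL2 : S_DL2) (hMULT : S_MULT)
    (hQC : S_QC) {k : ℕ} (W : HH ι) (hk : 2 * (Fintype.card ι + 1) < k) :
    DifferentiableOn ℂ (fun z => ∑' γ, tm k W γ z) (HS ι) := by
  obtain ⟨C, hC0, hC⟩ := major hSUMD hQC hDL W
  have hpos : ∀ Z W : HH ι, 0 < dl Z W := (hDL ι).2.2.2.2.2.2.1
  have hsl := (hDL ι).2.2.2.2.2.2.2.2.2.2.1
  refine (hWEI (Sym2 ι) (HS ι) (isOpen_HS ι)).1 (SpZ ι) (tm k W)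
    (fun γ => hsl _ _ _ (uu_diff hDL k W)) fun K hKU hK ε hε => ?_
  have hK' : IsCompact (Subtype.val ⁻¹' K : Set (HH ι)) := by
    rw [Subtype.isCompact_iff, Set.image_preimage_eq_inter_range, Subtype.range_coe_subtype]
    have : K ∩ {x | x ∈ HS ι} = K := Set.inter_eq_left.mpr hKU
    rw [this]
    exact hK
  obtain ⟨c, hc, hcK⟩ := det_lower _ hK' k
  have hη : 0 < ε * c / (C + 1) := by positivity
  have hfin := (hMULT ι).2.2.2.2.2 W _ hK' _ hη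
  refine ⟨hfin.toFinset, fun t ht z hz => ?_⟩
  set Z : HH ι := ⟨z, hKU hz⟩ with hZ
  have hZK : Z ∈ (Subtype.val ⁻¹' K : Set (HH ι)) := hz
  have hterm : ∀ γ ∈ t, ‖tm k W γ z‖ ≤
      ε / (C + 1) * dl (γ • Z) W ^ (2 * (Fintype.card ι + 1)) := by
    intro γ hγ
    have h1 : dl (γ • Z) W < ε * c / (C + 1) := by
      by_contra h
      exact Finset.disjoint_left.mp ht (hfin.mem_toFinset.mpr ⟨Z, hZK, not_lt.mp h⟩) hγ
    have h2 : dl (γ • Z) W ^ k ≤ dl (γ • Z) W ^ (2 * (Fintype.card ι + 1) + 1) :=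
      pow_le_pow_of_le_one (hpos _ _).le ((hDL2 ι).1 _ _) hk
    have h3 := norm_tm hDL k W γ Z
    have h4 : ‖tm k W γ z‖ * c ≤ ‖tm k W γ Z.1‖ * √(Ym Z).det ^ k :=
      mul_le_mul_of_nonneg_left (hcK Z hZK) (norm_nonneg _)
    have h5 : dl (γ • Z) W ^ (2 * (Fintype.card ι + 1) + 1) ≤
        dl (γ • Z) W ^ (2 * (Fintype.card ι + 1)) * (ε * c / (C + 1)) := by
      rw [pow_succ]
      exact mul_le_mul_of_nonneg_left h1.le (pow_nonneg (hpos _ _).le _)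
    refine le_of_mul_le_mul_right ?_ hc
    calc ‖tm k W γ z‖ * c ≤ _ := h4
      _ = _ := h3
      _ ≤ _ := h2
      _ ≤ _ := h5
      _ = _ := by ring
  calc ∑ γ ∈ t, ‖tm k W γ z‖
      ≤ ∑ γ ∈ t, ε / (C + 1) * dl (γ • Z) W ^ (2 * (Fintype.card ι + 1)) :=
        Finset.sum_le_sum hterm
    _ = ε / (C + 1) * ∑ γ ∈ t, dl (γ • Z) W ^ (2 * (Fintype.card ι + 1)) := by
        rw [Finset.mul_sum]
    _ ≤ ε / (C + 1) * (C + 1) :=
        mul_le_mul_of_nonneg_left ((hC Z t).trans (by linarith)) (by positivity)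
    _ = ε := by field_simp

theorem major_k (hSUMD : S_SUMD) (hQC : S_QC) (hDL : S_DL) (hDL2 : S_DL2) {k : ℕ} (W : HH ι)
    (hk : 2 * (Fintype.card ι + 1) < k) : ∃ C : ℝ, 0 ≤ C ∧
    ∀ (Z : HH ι) (t : Finset (SpZ ι)), ∑ γ ∈ t, dl (γ • Z) W ^ k ≤ C := by
  obtain ⟨C, hC0, hC⟩ := major hSUMD hQC hDL W
  have hpos : ∀ Z W : HH ι, 0 < dl Z W := (hDL ι).2.2.2.2.2.2.1
  exact ⟨C, hC0, fun Z t => (Finset.sum_le_sum fun γ _ =>
    pow_le_pow_of_le_one (hpos _ _).le ((hDL2 ι).1 _ _) hk.le).trans (hC Z t)⟩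

theorem summable_norm (hDL : S_DL) {k : ℕ} {W Z : HH ι}
    (h : Summable fun γ : SpZ ι => dl (γ • Z) W ^ k) :
    Summable fun γ : SpZ ι => ‖tm k W γ Z.1‖ := by
  have hp : √(Ym Z).det ^ k ≠ 0 := (pow_pos (Real.sqrt_pos.mpr (Ym_det_pos Z)) k).ne'
  rw [← summable_mul_right_iff hp]
  simpa only [norm_tm hDL] using h

/-- The element `-1`. -/
def neg1 (ι : Type) [Fintype ι] [DecidableEq ι] : SpZ ι :=
  ⟨-1, SymplecticGroup.neg_mem (one_mem _)⟩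

theorem one_ne_neg1 [Nonempty ι] : (1 : SpZ ι) ≠ neg1 ι := by
  intro h
  obtain ⟨i⟩ := ‹Nonempty ι›
  have h1 : (1 : Matrix (ι ⊕ ι) (ι ⊕ ι) ℤ) = -1 := congrArg Subtype.val h
  have h2 := congrFun (congrFun h1 (Sum.inl i)) (Sum.inl i)
  simp at h2

theorem uu_self (hDL : S_DL) (k : ℕ) (W : HH ι) :
    uu k W W.1 * ((√(Ym W).det ^ k : ℝ) : ℂ) = 1 := by
  have h1 : ((√(Ym W).det : ℝ) : ℂ) * ((√(Ym W).det : ℝ) : ℂ) = ((Ym W).det : ℂ) := by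
    rw [← Complex.ofReal_mul, Real.mul_self_sqrt (Ym_det_pos W).le]
  have h2 : ((Ym W).det : ℂ) ≠ 0 := Complex.ofReal_ne_zero.mpr (Ym_det_pos W).ne'
  rw [uu, (hDL ι).2.2.1 W, Complex.ofReal_pow, ← mul_pow, ← mul_pow, mul_right_comm, h1,
    mul_inv_cancel₀ h2, one_pow]

theorem split [Nonempty ι] {f : SpZ ι → ℂ} (hf : Summable f) :
    ∑' γ, f γ = f 1 + f (neg1 ι) +
      ∑' γ : {γ : SpZ ι // ¬ (γ.1 = 1 ∨ γ.1 = -1)}, f γ.1 := by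
  classical
  have h := hf.tsum_subtype_add_tsum_subtype_compl {γ : SpZ ι | γ.1 = 1 ∨ γ.1 = -1}
  have hs : {γ : SpZ ι | γ.1 = 1 ∨ γ.1 = -1} = ↑({1, neg1 ι} : Finset (SpZ ι)) := by
    ext γ
    simp only [Set.mem_ofPred_eq, Finset.coe_insert, Finset.coe_singleton, Set.mem_insert_iff,
      Set.mem_singleton_iff, Subtype.ext_iff]
    rfl
  have h2 : ∑' γ : ({γ : SpZ ι | γ.1 = 1 ∨ γ.1 = -1} : Set (SpZ ι)), f γ.1 =
      f 1 + f (neg1 ι) := by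
    rw [hs, Finset.tsum_subtype' _ f, Finset.sum_pair one_ne_neg1]
  rw [← h, h2]
  rfl

end PSER

open PSER in
theorem p_PSER (hSUMD : S_SUMD) (hWEI : S_WEI) (hDL : S_DL) (hDL2 : S_DL2) (hMULT : S_MULT)
    (hQC : S_QC) (hBDD : S_BDD) (hPROP : S_PROP) : S_PSER := by
  intro ι _ _ _ k W hk hev
  obtain ⟨C, hC0, hC⟩ := major_k hSUMD hQC hDL hDL2 W hk
  have hpos : ∀ Z W : HH ι, 0 < dl Z W := (hDL ι).2.2.2.2.2.2.1
  have hsum : ∀ Z : HH ι, Summable fun γ : SpZ ι => dl (γ • Z) W ^ k := fun Z =>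
    summable_of_sum_le (fun γ => pow_nonneg (hpos _ _).le _) (hC Z)
  have hsn : ∀ Z : HH ι, Summable fun γ : SpZ ι => ‖tm k W γ Z.1‖ := fun Z =>
    summable_norm hDL (hsum Z)
  set P : (Sym2 ι → ℂ) → ℂ := (HS ι).indicator fun z => ∑' γ, tm k W γ z with hP
  have hPv : ∀ Z : HH ι, P Z.1 = ∑' γ, tm k W γ Z.1 := fun Z => Set.indicator_of_mem Z.2 _
  have hbd : ∀ Z : HH ι, √(FF k P Z) ≤ ∑' γ : SpZ ι, dl (γ • Z) W ^ k := by
    intro Z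
    rw [sqrt_FF, hPv]
    calc ‖∑' γ, tm k W γ Z.1‖ * √(Ym Z).det ^ k
        ≤ (∑' γ, ‖tm k W γ Z.1‖) * √(Ym Z).det ^ k :=
          mul_le_mul_of_nonneg_right (norm_tsum_le_tsum_norm (hsn Z)) (by positivity)
      _ = ∑' γ : SpZ ι, dl (γ • Z) W ^ k := by
          rw [← tsum_mul_right]
          exact tsum_congr fun γ => norm_tm hDL k W γ Z
  have hmod : Mod ⊤ k P := by
    refine ⟨(tsum_diff hSUMD hWEI hDL hDL2 hMULT hQC W hk).congr fun z hz =>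
      Set.indicator_of_mem hz _, fun δ _ Z => ?_⟩
    rw [hPv, hPv, ← (Equiv.mulRight δ).tsum_eq fun γ => tm k W γ Z.1, ← tsum_mul_left]
    exact tsum_congr fun γ => tm_smul k W γ δ Z
  refine ⟨P, (hBDD ι k P).2 (by omega) (fun z hz => Set.indicator_of_notMem hz _) hmod
    ⟨C ^ 2, fun Z => ?_⟩, fun Z => ?_, ?_⟩
  · have h1 : √(FF k P Z) ≤ C := (hbd Z).trans
      (Real.tsum_le_of_sum_le (fun γ => pow_nonneg (hpos _ _).le _) (hC Z))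
    rw [← Real.sq_sqrt (FF_nonneg k P Z)]
    exact pow_le_pow_left₀ (Real.sqrt_nonneg _) h1 2
  · rw [← ENNReal.ofReal_tsum_of_nonneg (fun γ => pow_nonneg (hpos _ _).le _) (hsum Z)]
    exact ENNReal.ofReal_le_ofReal (hbd Z)
  · obtain ⟨-, -, -, -, -, h6, h7⟩ := hPROP ι
    have hs2 : Summable fun γ : {γ : SpZ ι // ¬ (γ.1 = 1 ∨ γ.1 = -1)} => dl (γ.1 • W) W ^ k :=
      (hsum W).subtype _
    have hs3 : Summable fun γ : {γ : SpZ ι // ¬ (γ.1 = 1 ∨ γ.1 = -1)} => ‖tm k W γ.1 W.1‖ :=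
      (hsn W).subtype _
    rw [← ENNReal.ofReal_tsum_of_nonneg (fun γ => pow_nonneg (hpos _ _).le _) hs2,
      ← ENNReal.ofReal_add (Real.sqrt_nonneg _)
        (tsum_nonneg fun γ => pow_nonneg (hpos _ _).le _), ← ENNReal.ofReal_ofNat 2]
    refine ENNReal.ofReal_le_ofReal ?_
    have e1 : tm k W 1 W.1 = uu k W W.1 := by
      rw [tm_val, map_one, jf_one, one_smul, inv_one, one_pow, one_mul]
    have e2 : tm k W (neg1 ι) W.1 = uu k W W.1 := by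
      rw [tm_val, h7 _ _ rfl, h6 _ _ (Or.inr rfl), inv_pow, ← pow_mul, hev.neg_one_pow, inv_one,
        one_mul]
    have e3 := split (ι := ι) (hsn W).of_norm
    rw [e1, e2, ← hPv] at e3
    set R := ∑' γ : {γ : SpZ ι // ¬ (γ.1 = 1 ∨ γ.1 = -1)}, tm k W γ.1 W.1 with hR
    have hy : 0 ≤ √(Ym W).det ^ k := by positivity
    have e4 : ‖R‖ * √(Ym W).det ^ k ≤
        ∑' γ : {γ : SpZ ι // ¬ (γ.1 = 1 ∨ γ.1 = -1)}, dl (γ.1 • W) W ^ k := by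
      calc ‖R‖ * √(Ym W).det ^ k
          ≤ (∑' γ : {γ : SpZ ι // ¬ (γ.1 = 1 ∨ γ.1 = -1)}, ‖tm k W γ.1 W.1‖) *
              √(Ym W).det ^ k :=
            mul_le_mul_of_nonneg_right (norm_tsum_le_tsum_norm hs3) hy
        _ = _ := by
            rw [← tsum_mul_right]
            exact tsum_congr fun γ => norm_tm hDL k W γ.1 W
    have e5 : (2 : ℂ) = (P W.1 - R) * ((√(Ym W).det ^ k : ℝ) : ℂ) := by
      rw [e3, add_sub_cancel_right, add_mul, uu_self hDL]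
      norm_num
    have e6 : (2 : ℝ) = ‖P W.1 - R‖ * √(Ym W).det ^ k := by
      have := congrArg norm e5
      rwa [norm_mul, Complex.norm_real, Real.norm_of_nonneg hy, Complex.norm_ofNat] at this
    rw [sqrt_FF, e6]
    calc ‖P W.1 - R‖ * √(Ym W).det ^ k ≤ (‖P W.1‖ + ‖R‖) * √(Ym W).det ^ k :=
          mul_le_mul_of_nonneg_right (norm_sub_le _ _) hy
      _ ≤ _ := by rw [add_mul]; linarith

end Pool.Agent.P.MP_59bdab_ag
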