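import Pool.Agent.P.MP_59bdab_ag.PW2

/-!
The pointwise inclusion-exclusion identity.
-/

namespace Pool.Agent.P.MP_59bdab_ag

open Finset Matrix

namespace PW

variable {n : Type} [Fintype n] [DecidableEq n] {Q : Matrix n n ℝ} {s0 : ℝ} {r : ℕ}

/-- Frames that cannot be extended with a smaller scale. -/
def MM (Q : Matrix n n ℝ) (s0 : ℝ) (r : ℕ) : Set (Fin r → n → ℤ) :=
  {v | Ch (toBilin' Q) s0 (ex v) r ∧ ∀ z : n → ℤ, z ≠ 0 →
    1 ≤ A (toBilin' Q) (ex v) r (cz z) (cz z) +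
      N (toBilin' Q) (ex v) r (cz z) (cz z) / t (toBilin' Q) s0 (ex v) r}

/-- The scale of a new vector. -/
noncomputable def sg (Q : Matrix n n ℝ) (v : Fin r → n → ℤ) (y : n → ℤ) : ℝ :=
  N (toBilin' Q) (ex v) r (cz y) (cz y) / (1 - A (toBilin' Q) (ex v) r (cz y) (cz y))

/-- Optimal extensions. -/
structure Ext (Q : Matrix n n ℝ) (s0 : ℝ) (v : Fin r → n → ℤ) (y : n → ℤ) : Prop where
  pos : 0 < N (toBilin' Q) (ex v) r (cz y) (cz y)
  lt : A (toBilin' Q) (ex v) r (cz y) (cz y) < 1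
  lt0 : sg Q v y < s0
  le : sg Q v y ≤ t (toBilin' Q) s0 (ex v) r
  opt : ∀ z : n → ℤ, z ≠ 0 → 1 ≤ A (toBilin' Q) (ex v) r (cz z) (cz z) +
    N (toBilin' Q) (ex v) r (cz z) (cz z) / sg Q v y

theorem cl_of_MM {v : Fin r → n → ℤ} (h : v ∈ MM Q s0 r) : Cl Q s0 v :=
  ⟨h.1, fun z hz h0 => by simpa [h0] using h.2 z hz⟩

theorem snoc_mem {v : Fin r → n → ℤ} {y : n → ℤ} :
    (Fin.snoc v y : Fin (r + 1) → n → ℤ) ∈ MM Q s0 (r + 1) ↔
      Ch (toBilin' Q) s0 (ex v) r ∧ Ext Q s0 v y := by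
  rw [MM, Set.mem_ofPred_eq, ex_snoc, ch_upd]
  constructor
  · rintro ⟨⟨h1, h2, h3, h4, h5⟩, h6⟩
    exact ⟨h1, h2, h3, h4, h5, fun z hz => (h6 z hz).trans_eq (H_upd h2.ne' _)⟩
  · rintro ⟨h1, h2, h3, h4, h5, h6⟩
    exact ⟨⟨h1, h2, h3, h4, h5⟩, fun z hz => (h6 z hz).trans_eq (H_upd h2.ne' _).symm⟩

theorem cl_init (hQ : Q.PosDef) {v : Fin r → n → ℤ} {y : n → ℤ}
    (h : Cl Q s0 (Fin.snoc v y : Fin (r + 1) → n → ℤ)) : Cl Q s0 v := by
  obtain ⟨h1, h2⟩ := h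
  rw [ex_snoc] at h1 h2
  refine ⟨((ch_upd r _).1 h1).1, fun z hz h0 => ?_⟩
  obtain ⟨e1, e2, -⟩ := upd (B := toBilin' Q) (u := ex v) (s0 := s0) (cz y) (le_refl r)
  obtain ⟨a1, a2⟩ := succ_of_ker (u := Function.update (ex v) r (cz y)) (hs hQ) (hp hQ)
    (m := r) (x := cz z) (by rw [e1, h0])
  rw [← e2, ← a2]
  exact h2 z hz a1

theorem sg_eq {v : Fin r → n → ℤ} {y : n → ℤ} (h1 : 0 < N (toBilin' Q) (ex v) r (cz y) (cz y)) :
    A (toBilin' Q) (ex v) r (cz y) (cz y) +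
      N (toBilin' Q) (ex v) r (cz y) (cz y) / sg Q v y = 1 := by
  rw [sg, div_div_cancel₀ h1.ne']
  ring

theorem Ext.sg_pos {v : Fin r → n → ℤ} {y : n → ℤ} (h : Ext Q s0 v y) : 0 < sg Q v y :=
  div_pos h.pos (sub_pos.2 h.lt)

theorem Ext.ne {v : Fin r → n → ℤ} {y : n → ℤ} (h : Ext Q s0 v y) : y ≠ 0 := by
  rintro rfl
  have := h.pos
  rw [show cz (0 : n → ℤ) = 0 from funext fun _ => Int.cast_zero, map_zero] at this
  exact lt_irrefl _ this

theorem Ext.neg {v : Fin r → n → ℤ} {y : n → ℤ} (h : Ext Q s0 v y) : Ext Q s0 v (-y) := by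
  have e : sg Q v (-y) = sg Q v y := by simp [sg, cz_neg]
  refine ⟨by simpa [cz_neg] using h.pos, by simpa [cz_neg] using h.lt, ?_, ?_, ?_⟩ <;> rw [e]
  exacts [h.lt0, h.le, h.opt]

theorem Ext.sg_le {v : Fin r → n → ℤ} {y y' : n → ℤ} (h : Ext Q s0 v y) (h' : Ext Q s0 v y') :
    sg Q v y ≤ sg Q v y' := by
  have := h.opt y' h'.ne
  rw [← sg_eq h'.pos, add_le_add_iff_left] at this
  exact (div_le_div_iff_of_pos_left h'.pos h'.sg_pos h.sg_pos).1 this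

theorem fin_short (hQ : Q.PosDef) (c : ℝ) : {u : n → ℤ | toBilin' Q (cz u) (cz u) < c}.Finite := by
  obtain ⟨ε, hε, h⟩ : ∃ ε > (0 : ℝ), ∀ x : n → ℝ, ε * ‖x‖ ^ 2 ≤ toBilin' Q x x := by
    have hc : Continuous fun x : n → ℝ => toBilin' Q x x := by
      simp only [toBilin'_apply']
      exact continuous_id.dotProduct (continuous_const.matrix_mulVec continuous_id)
    obtain ⟨ε, hε, h⟩ := (isCompact_sphere (0 : n → ℝ) 1).exists_forall_le' hc.continuousOn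
      (a := 0) fun x hx => hp hQ x (by rintro rfl; simp at hx)
    refine ⟨ε, hε, fun x => ?_⟩
    rcases eq_or_ne x 0 with rfl | h0
    · simp
    have hn := norm_pos_iff.2 h0
    have := h (‖x‖⁻¹ • x) (by simp [norm_smul, hn.ne'])
    simp only [map_smul, LinearMap.smul_apply, smul_eq_mul] at this
    rw [← le_div_iff₀ (by positivity)]
    exact this.trans_eq (by field_simp)
  refine (Set.Finite.pi' fun _ : n => Set.finite_Icc (-⌈c / ε + 1⌉) ⌈c / ε + 1⌉).subset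
    fun u hu i => abs_le.1 ?_
  have h1 : ‖cz u‖ ^ 2 < c / ε := (lt_div_iff₀' hε).2 ((h _).trans_lt hu)
  have h2 : |(u i : ℝ)| ≤ ‖cz u‖ := norm_le_pi_norm (cz u) i
  have h3 : |(u i : ℝ)| ≤ ⌈c / ε + 1⌉ :=
    le_trans (by nlinarith [sq_nonneg (‖cz u‖ - 1)]) (Int.le_ceil _)
  exact_mod_cast h3

theorem exists_ext (hQ : Q.PosDef) (h0 : 0 < s0) {v : Fin r → n → ℤ} (h : Cl Q s0 v)
    (hn : v ∉ MM Q s0 r) : ∃ y, Ext Q s0 v y := by
  obtain ⟨t0, t1⟩ := h.1.pos h0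
  have hN := fun z : n → ℤ => N_nonneg (u := ex v) (hs hQ) (hp hQ) r (cz z)
  set S := {z : n → ℤ | z ≠ 0 ∧ A (toBilin' Q) (ex v) r (cz z) (cz z) +
    N (toBilin' Q) (ex v) r (cz z) (cz z) / t (toBilin' Q) s0 (ex v) r < 1}
  have hS : ∀ z ∈ S, 0 < N (toBilin' Q) (ex v) r (cz z) (cz z) ∧
      A (toBilin' Q) (ex v) r (cz z) (cz z) < 1 := fun z hz => by
    have a1 := (le_add_of_nonneg_right (div_nonneg (hN z) t0.le)).trans_lt hz.2
    exact ⟨(hN z).lt_of_ne' fun e => a1.not_ge (h.2 z hz.1 e), a1⟩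
  have hfin : S.Finite := (fin_short hQ s0).subset fun z hz => (div_lt_one h0).1
    (((h.1.le h0 _).trans (add_le_add_right (div_le_div_of_nonneg_left (hN z) t0 t1) _)).trans_lt
      hz.2)
  have hne : S.Nonempty := by
    by_contra e
    exact hn ⟨h.1, fun z hz => not_lt.1 fun h' => e ⟨z, hz, h'⟩⟩
  obtain ⟨y, hy, hmin⟩ := Set.exists_min_image S (sg Q v) hfin hne
  obtain ⟨y1, y2⟩ := hS y hy
  have y0 : 0 < sg Q v y := div_pos y1 (sub_pos.2 y2)
  have y3 : sg Q v y < t (toBilin' Q) s0 (ex v) r := by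
    have := hy.2
    rw [← sg_eq y1, add_lt_add_iff_left] at this
    exact (div_lt_div_iff_of_pos_left y1 t0 y0).1 this
  refine ⟨y, y1, y2, y3.trans_le t1, y3.le, fun z hz => ?_⟩
  by_cases hzS : z ∈ S
  · rw [← sg_eq (hS z hzS).1]
    exact add_le_add_right (div_le_div_of_nonneg_left (hN z) y0 (hmin z hzS)) _
  · exact (not_lt.1 fun h' => hzS ⟨hz, h'⟩).trans
      (add_le_add_right (div_le_div_of_nonneg_left (hN z) y0 y3.le) _)

variable (hQ : Q.PosDef) (hLDL : S_LDL) (hO : ∀ r, FrC Q s0 r ⊆ FrO Q s0 r)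
include hQ hLDL hO

theorem Ext.sg_lt {v : Fin r → n → ℤ} {y : n → ℤ} (h : Ext Q s0 v y)
    (hc : Ch (toBilin' Q) s0 (ex v) r) : sg Q v y < t (toBilin' Q) s0 (ex v) r := by
  have := (strict hQ hLDL (hO _ (mem_of_cl hQ hLDL (cl_of_MM (snoc_mem.2 ⟨hc, h⟩))))).1 r
    (Nat.lt_succ_self r)
  rwa [ex_snoc, t_upd, (upd _ le_rfl).2.2] at this

theorem Ext.not_mem {v : Fin r → n → ℤ} {y : n → ℤ} (h : Ext Q s0 v y) : v ∉ MM Q s0 r := by
  intro hv
  have h1 := h.sg_lt hQ hLDL hO hv.1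
  have h2 := hv.2 y h.ne
  rw [← sg_eq h.pos, add_le_add_iff_left] at h2
  exact h1.not_ge ((div_le_div_iff_of_pos_left h.pos h.sg_pos (h.sg_pos.trans h1)).1 h2)

theorem Ext.unique {v : Fin r → n → ℤ} {y y' : n → ℤ} (h : Ext Q s0 v y) (h' : Ext Q s0 v y')
    (hc : Ch (toBilin' Q) s0 (ex v) r) : y' = y ∨ y' = -y := by
  have hM := snoc_mem.2 ⟨hc, h⟩
  set w : Fin (r + 1) → n → ℤ := Fin.snoc v y with hw
  have e0 : t (toBilin' Q) s0 (ex w) (r + 1) = sg Q v y := by rw [hw, ex_snoc, t_upd, sg]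
  have e1 : A (toBilin' Q) (ex w) (r + 1) (cz y') (cz y') +
      N (toBilin' Q) (ex w) (r + 1) (cz y') (cz y') / t (toBilin' Q) s0 (ex w) (r + 1) = 1 := by
    rw [hw, ex_snoc, H_upd h.pos.ne', ← sg, le_antisymm (h.sg_le h') (h'.sg_le h), sg_eq h'.pos]
  rcases (N_nonneg (u := ex w) (hs hQ) (hp hQ) (r + 1) (cz y')).eq_or_lt with h0 | h0
  · by_contra hn
    rw [not_or] at hn
    have := (strict hQ hLDL (hO _ (mem_of_cl hQ hLDL (cl_of_MM hM)))).2 y' h'.ne h0.symm fun a => ?_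
    · rw [← h0, zero_div, add_zero] at e1
      exact this.ne' e1
    refine Fin.lastCases ?_ (fun a => ?_) a
    · rw [hw, Fin.snoc_last]
      exact hn
    · have a1 := N_self (u := ex v) (hs hQ) (hp hQ) a.2 (cz y')
      rw [hw, Fin.snoc_castSucc]
      rw [ex_val] at a1
      refine ⟨fun e => h'.pos.ne' ?_, fun e => h'.pos.ne' ?_⟩
      · nth_rewrite 2 [e]
        exact a1
      · nth_rewrite 2 [e]
        rw [cz_neg, map_neg, a1, neg_zero]
  · have p0 : 0 < t (toBilin' Q) s0 (ex w) (r + 1) := e0 ▸ h.sg_pos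
    have e2 : sg Q w y' = t (toBilin' Q) s0 (ex w) (r + 1) := by
      rw [sg, ← e1, add_sub_cancel_left, div_div_cancel₀ h0.ne']
    have hE : Ext Q s0 w y' := ⟨h0, by linarith [div_pos h0 p0], by rw [e2, e0]; exact h.lt0,
      e2.le, by rw [e2]; exact hM.2⟩
    exact absurd e2 (hE.sg_lt hQ hLDL hO hM.1).ne

theorem card_succ (h0 : 0 < s0) (hf : ∀ r, (FrC Q s0 r).Finite) (r : ℕ) :
    ((MM Q s0 (r + 1)).ncard : ℝ) = 2 * ((FrC Q s0 r).ncard - (MM Q s0 r).ncard) := by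
  classical
  have sub : ∀ r, MM Q s0 r ⊆ FrC Q s0 r := fun r v hv => mem_of_cl hQ hLDL (cl_of_MM hv)
  have f1 := (hf (r + 1)).subset (sub _)
  have f2 : (FrC Q s0 r \ MM Q s0 r).Finite := (hf r).sdiff
  have key := card_eq_sum_card_fiberwise (f := fun w : Fin (r + 1) → n → ℤ => Fin.init w)
    (s := f1.toFinset) (t := f2.toFinset) fun w hw => by
      rw [Set.Finite.coe_toFinset] at hw ⊢
      rw [← Fin.snoc_init_self w] at hw
      exact ⟨mem_of_cl hQ hLDL (cl_init hQ (cl_of_MM hw)), (snoc_mem.1 hw).2.not_mem hQ hLDL hO⟩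
  rw [sum_congr rfl (g := fun _ => 2) fun v hv => ?_, sum_const, smul_eq_mul,
    ← Set.ncard_eq_toFinset_card _ f1, ← Set.ncard_eq_toFinset_card _ f2] at key
  · rw [key, Nat.cast_mul, Set.cast_ncard_sdiff (sub r) (hf r), mul_comm, Nat.cast_ofNat]
  rw [Set.Finite.mem_toFinset] at hv
  have hc := cl_of_mem hQ hLDL hv.1
  obtain ⟨y, hy⟩ := exists_ext hQ h0 hc hv.2
  refine card_eq_two.2 ⟨Fin.snoc v y, Fin.snoc v (-y), fun e => hy.ne ?_, Finset.ext fun w => ?_⟩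
  · have := congrFun e (Fin.last r)
    rw [Fin.snoc_last, Fin.snoc_last] at this
    exact self_eq_neg.1 this
  · rw [mem_filter, Set.Finite.mem_toFinset, mem_insert, mem_singleton]
    constructor
    · rintro ⟨hw, rfl⟩
      rw [← Fin.snoc_init_self w] at hw
      exact (hy.unique hQ hLDL hO (snoc_mem.1 hw).2 hc.1).imp
        (fun e => by rw [← e, Fin.snoc_init_self]) fun e => by rw [← e, Fin.snoc_init_self]
    · rintro (rfl | rfl)
      · exact ⟨snoc_mem.2 ⟨hc.1, hy⟩, Fin.init_snoc _ _⟩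
      · exact ⟨snoc_mem.2 ⟨hc.1, hy.neg⟩, Fin.init_snoc _ _⟩

end PW

open PW in
theorem p_PW (hLDL : S_LDL) (hFRS : S_FRS) : S_PW := by
  intro n _ _ Q s0 R hQ h0 hO hR
  have hq : ∀ u, qf Q u = toBilin' Q (cz u) (cz u) := fun u => (toBilin'_apply' _ _ _).symm
  have hF := fun r => (hFRS n Q s0 r (show Qᵀ = Q by simpa using hQ.isHermitian.eq)).2
  have hf : ∀ r, (FrC Q s0 r).Finite := fun r =>
    (Set.Finite.pi' fun _ : Fin r => fin_short hQ s0).subset fun v hv a =>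
      (hq _).ge.trans_lt (hF r v hv a)
  have c0 : ∀ v : Fin 0 → n → ℤ, Ch (toBilin' Q) s0 (ex v) 0 := fun _ _ hm => absurd hm (by simp)
  refine ⟨hf, fun ⟨u, hu, hu'⟩ => ?_, fun h r => Set.eq_empty_of_forall_notMem fun v hv =>
    h ⟨v 0, hv.1.ne_zero 0, hF _ v hv 0⟩, fun u v hu hv h1 h2 h3 => ?_⟩
  · have hc := card_succ hQ hLDL hO h0 hf
    have e0 : FrC Q s0 0 = Set.univ := Set.eq_univ_of_forall fun v => mem_of_cl hQ hLDL
      ⟨c0 v, fun z hz e => absurd e (hp hQ _ fun e' => hz (cz_inj (e'.trans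
        (funext fun _ => Int.cast_zero.symm)))).ne'⟩
    have e1 : MM Q s0 0 = ∅ := Set.eq_empty_of_forall_notMem fun v hv => by
      have := hv.2 u hu
      simp only [A, N, t, LinearMap.zero_apply, zero_add, ← hq] at this
      exact hu'.not_ge ((one_le_div h0).1 this)
    have e2 : MM Q s0 (R + 1) = ∅ := Set.subset_eq_empty
      (fun v hv => mem_of_cl hQ hLDL (cl_of_MM hv)) hR
    have key : ∀ k : ℕ, ∑ r ∈ range k, (-1 : ℝ) ^ r * (FrC Q s0 (r + 1)).ncard / 2 ^ (r + 1) =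
        1 - (-1) ^ k * (MM Q s0 (k + 1)).ncard / 2 ^ (k + 1) := fun k => by
      induction k with
      | zero => simp [hc, e0, e1]
      | succ k ih =>
        rw [sum_range_succ, ih, hc (k + 1)]
        field_simp
        ring
    rw [key, e2]
    simp
  · have hE : ∀ w, w ≠ 0 → qf Q w = qf Q u → Ext Q s0 (Fin.elim0 : Fin 0 → n → ℤ) w := by
      intro w hw e
      have p : 0 < qf Q w := hq w ▸ hp hQ _ fun e' => hw (cz_inj (e'.trans
        (funext fun _ => Int.cast_zero.symm)))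
      have e3 : sg Q (Fin.elim0 : Fin 0 → n → ℤ) w = qf Q u := by simp [sg, A, N, ← hq, e]
      refine ⟨hq w ▸ p, by simp [A], e3 ▸ h1, e3 ▸ h1.le, fun z hz => ?_⟩
      simp only [e3, A, N, LinearMap.zero_apply, zero_add, ← hq]
      exact (one_le_div (e ▸ p)).2 (h2 z hz)
    exact (hE u hu rfl).unique hQ hLDL hO (hE v hv h3) (c0 _)

end Pool.Agent.P.MP_59bdab_ag
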