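import Pool.Agent.P.MP_59bdab_ag.IfB

namespace Pool.Agent.P.MP_59bdab_ag

open Matrix MeasureTheory Filter Topology
open scoped ENNReal ComplexOrder

namespace Q

variable {ι : Type} [Fintype ι] [DecidableEq ι]

theorem Yinv_transpose (Z : HH ι) : ((Ym Z)⁻¹)ᵀ = (Ym Z)⁻¹ := by
  rw [transpose_nonsing_inv, Ym_transpose]

theorem Qm_eq (Z : HH ι) : Qm Z = (fromBlocks 1 (-Xm Z) 0 1)ᵀ *
    fromBlocks (Ym Z)⁻¹ 0 0 (Ym Z) * fromBlocks 1 (-Xm Z) 0 1 := by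
  simp [Qm, fromBlocks_transpose, fromBlocks_multiply, Xm_transpose, add_comm]

omit [DecidableEq ι] in
theorem posDef_blocks {A D : Matrix ι ι ℝ} (hA : A.PosDef) (hD : D.PosDef) :
    (fromBlocks A 0 0 D).PosDef := by
  refine PosDef.of_dotProduct_mulVec_pos (IsHermitian.fromBlocks hA.1 (by simp) hD.1) fun x hx => ?_
  have e : star x ⬝ᵥ (fromBlocks A 0 0 D *ᵥ x) =
      star (x ∘ Sum.inl) ⬝ᵥ (A *ᵥ (x ∘ Sum.inl)) + star (x ∘ Sum.inr) ⬝ᵥ (D *ᵥ (x ∘ Sum.inr)) := by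
    simp [fromBlocks_mulVec, dotProduct, Fintype.sum_sum_type]
  rw [e]
  by_cases h : x ∘ Sum.inl = 0
  · have h2 : x ∘ Sum.inr ≠ 0 := by
      intro h2
      apply hx
      funext a
      rcases a with a | a
      · exact congrFun h a
      · exact congrFun h2 a
    exact add_pos_of_nonneg_of_pos (hA.posSemidef.dotProduct_mulVec_nonneg _)
      (hD.dotProduct_mulVec_pos h2)
  · exact add_pos_of_pos_of_nonneg (hA.dotProduct_mulVec_pos h)
      (hD.posSemidef.dotProduct_mulVec_nonneg _)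

theorem Qm_posDef (Z : HH ι) : (Qm Z).PosDef := by
  rw [Qm_eq, ← conjTranspose_eq_transpose_of_trivial]
  refine (posDef_blocks (Ym_posDef Z).inv (Ym_posDef Z)).conjTranspose_mul_mul_same ?_
  exact mulVec_injective_iff_isUnit.mpr ((isUnit_iff_isUnit_det _).mpr (by simp))

theorem Qm_det (Z : HH ι) : (Qm Z).det = 1 := by
  rw [Qm_eq, det_mul, det_mul, det_transpose]
  simp [(Ym_det_pos Z).ne']

theorem cm_inv (M : Matrix ι ι ℝ) (h : M.det ≠ 0) : cm M⁻¹ = (cm M)⁻¹ :=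
  (inv_eq_left_inv (by rw [← cm_mul, nonsing_inv_mul _ (isUnit_iff_ne_zero.mpr h), cm_one])).symm

theorem cm_fromBlocks {a b c d : Type} (A : Matrix a c ℝ) (B : Matrix a d ℝ) (C : Matrix b c ℝ)
    (D : Matrix b d ℝ) : cm (fromBlocks A B C D) = fromBlocks (cm A) (cm B) (cm C) (cm D) :=
  fromBlocks_map _ _ _ _ _

/-- The matrix `(1, -Z)`. -/
noncomputable def R (Z : HH ι) : Matrix ι (ι ⊕ ι) ℂ := fromCols 1 (-mat Z.1)

theorem herm (Z : HH ι) :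
    (R Z)ᴴ * (cm (Ym Z))⁻¹ * R Z = cm (Qm Z) + Complex.I • cm (J ι ℝ) := by
  have hu : IsUnit (cm (Ym Z)).det := by
    rw [cm_det]; exact isUnit_iff_ne_zero.mpr (by exact_mod_cast (Ym_det_pos Z).ne')
  have h1 := nonsing_inv_mul _ hu
  have h2 := mul_nonsing_inv _ hu
  have hZ : (mat Z.1)ᴴ = cm (Xm Z) - Complex.I • cm (Ym Z) := by
    rw [mat_eq, conjTranspose_add, conjTranspose_smul, cm_conjTranspose, cm_conjTranspose,
      Xm_transpose, Ym_transpose]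
    simp [sub_eq_add_neg]
  rw [R, conjTranspose_fromCols_eq_fromRows_conjTranspose, fromRows_mul, fromRows_mul_fromCols,
    conjTranspose_neg, hZ, mat_eq, Qm, J, cm_fromBlocks, cm_fromBlocks, fromBlocks_smul,
    fromBlocks_add]
  simp only [cm_neg, cm_mul, cm_add, cm_inv _ (Ym_det_pos Z).ne', cm_zero, cm_one]
  set X := cm (Xm Z)
  set Y := cm (Ym Z)
  congr 1
  · simp
  · simp only [conjTranspose_one, Matrix.one_mul, Matrix.mul_neg, Matrix.mul_add, Matrix.mul_smul,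
      h1, smul_neg]
    abel
  · simp only [Matrix.mul_one, Matrix.neg_mul, Matrix.sub_mul, Matrix.smul_mul, h2]
    abel
  · have e : -(X - Complex.I • Y) * Y⁻¹ = Complex.I • (1 : Matrix ι ι ℂ) - X * Y⁻¹ := by
      simp only [Matrix.neg_mul, Matrix.sub_mul, Matrix.smul_mul, h2]
      abel
    rw [e]
    simp only [Matrix.mul_neg, Matrix.sub_mul, Matrix.smul_mul, Matrix.mul_add, Matrix.mul_smul,
      Matrix.mul_assoc X Y⁻¹ Y, h1, Matrix.one_mul, Matrix.mul_one, smul_sub, smul_smul,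
      Complex.I_mul_I, smul_zero, neg_smul, one_smul]
    abel

theorem R_smul (γ : SpR ι) (Z : HH ι) : (den γ.1 Z.1)ᵀ * (R (γ • Z) * cm γ.1) = R Z := by
  obtain ⟨h1, h2, h3⟩ := sp_rel γ
  have e1 := congrArg cm h1
  have e2 := congrArg cm h2
  have e3 := congrArg cm h3
  have e4 := congrArg transpose e3
  simp only [cm_mul, cm_sub, cm_transpose, cm_one, transpose_sub, transpose_mul,
    transpose_transpose, transpose_one] at e1 e2 e3 e4
  have hW : (den γ.1 Z.1)ᵀ * mat (γ • Z).1 = (num γ.1 Z.1)ᵀ := by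
    rw [← smul_mul_den, transpose_mul, mat_transpose]
  have hγ : cm γ.1 = fromBlocks (cm γ.1.toBlocks₁₁) (cm γ.1.toBlocks₁₂) (cm γ.1.toBlocks₂₁)
      (cm γ.1.toBlocks₂₂) := by rw [← cm_fromBlocks, fromBlocks_toBlocks]
  rw [R, R, hγ, fromCols_mul_fromBlocks, mul_fromCols]
  simp only [Matrix.one_mul, Matrix.neg_mul, Matrix.mul_add, Matrix.mul_neg, ← Matrix.mul_assoc, hW]
  simp only [den, num, transpose_add, transpose_mul, mat_transpose]
  set A := cm γ.1.toBlocks₁₁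
  set B := cm γ.1.toBlocks₁₂
  set C := cm γ.1.toBlocks₂₁
  set D := cm γ.1.toBlocks₂₂
  congr 1
  · have : (mat Z.1 * Cᵀ + Dᵀ) * A + -((mat Z.1 * Aᵀ + Bᵀ) * C) =
        mat Z.1 * (Cᵀ * A - Aᵀ * C) + (Dᵀ * A - Bᵀ * C) := by noncomm_ring
    rw [this, e1, e4]; simp
  · have : (mat Z.1 * Cᵀ + Dᵀ) * B + -((mat Z.1 * Aᵀ + Bᵀ) * D) =
        -(mat Z.1 * (Aᵀ * D - Cᵀ * B)) + (Dᵀ * B - Bᵀ * D) := by noncomm_ring
    rw [this, e2, e3]; simp

theorem Qm_smul (γ : SpR ι) (Z : HH ι) : γ.1ᵀ * Qm (γ • Z) * γ.1 = Qm Z := by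
  set E := (den γ.1 Z.1)ᵀ with hE
  have hEu : IsUnit E.det := by rw [hE, det_transpose]; exact den_isUnit γ Z
  have hEu' : IsUnit Eᴴ.det := by rw [det_conjTranspose]; exact hEu.star
  have hY : cm (Ym Z) = E * cm (Ym (γ • Z)) * Eᴴ := by
    have := congrArg transpose (Ym_smul γ Z)
    rw [transpose_mul, transpose_mul, ← cm_transpose, ← cm_transpose, Ym_transpose, Ym_transpose,
      ← Matrix.mul_assoc] at this
    rw [← this]; rfl
  have hY' : Eᴴ * (cm (Ym Z))⁻¹ * E = (cm (Ym (γ • Z)))⁻¹ := by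
    rw [hY, Matrix.mul_inv_rev, Matrix.mul_inv_rev, ← Matrix.mul_assoc, mul_nonsing_inv _ hEu',
      Matrix.one_mul, Matrix.mul_assoc, nonsing_inv_mul _ hEu, Matrix.mul_one]
  have h1 := herm Z
  rw [← R_smul γ Z, ← hE, conjTranspose_mul, conjTranspose_mul, cm_conjTranspose] at h1
  have h2 : cm γ.1ᵀ * (R (γ • Z))ᴴ * Eᴴ * (cm (Ym Z))⁻¹ * (E * (R (γ • Z) * cm γ.1)) =
      cm γ.1ᵀ * ((R (γ • Z))ᴴ * (Eᴴ * (cm (Ym Z))⁻¹ * E) * R (γ • Z)) * cm γ.1 := by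
    simp only [Matrix.mul_assoc]
  rw [h2, hY', herm, Matrix.mul_add, Matrix.add_mul, Matrix.mul_smul, Matrix.smul_mul, ← cm_mul,
    ← cm_mul, ← cm_mul, ← cm_mul, SymplecticGroup.mem_iff'.mp γ.2] at h1
  exact cm_injective (add_right_cancel h1)

theorem bil_smul (γ : SpZ ι) (Z : HH ι) (u v : ι ⊕ ι → ℤ) :
    cz (γ.1 *ᵥ u) ⬝ᵥ Qm (γ • Z) *ᵥ cz (γ.1 *ᵥ v) = cz u ⬝ᵥ Qm Z *ᵥ cz v := by
  rw [cz_mulVec, cz_mulVec, ← Qm_smul (toR γ) Z, smulZ_def, ← mulVec_mulVec, ← mulVec_mulVec,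
    dotProduct_mulVec (cz u), vecMul_transpose]

omit [DecidableEq ι] in
theorem cplx (M : Matrix (ι ⊕ ι) (ι ⊕ ι) ℝ) (x y : ι ⊕ ι → ℝ) :
    (fun i => (x i : ℂ)) ⬝ᵥ cm M *ᵥ (fun i => (y i : ℂ)) = ((x ⬝ᵥ M *ᵥ y : ℝ) : ℂ) := by
  simp [dotProduct, mulVec]

theorem J_skew (x y : ι ⊕ ι → ℝ) : y ⬝ᵥ J ι ℝ *ᵥ x = -(x ⬝ᵥ J ι ℝ *ᵥ y) := by
  rw [dotProduct_mulVec, ← mulVec_transpose, J_transpose, neg_mulVec, neg_dotProduct,
    dotProduct_comm]

theorem om_sq_real (Z : HH ι) (x y : ι ⊕ ι → ℝ) :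
    (x ⬝ᵥ J ι ℝ *ᵥ y) ^ 2 ≤ (x ⬝ᵥ Qm Z *ᵥ x) * (y ⬝ᵥ Qm Z *ᵥ y) := by
  have hP : (cm (Qm Z) + Complex.I • cm (J ι ℝ)).PosSemidef := by
    rw [← herm]
    exact (cm_posDef_iff.mpr (Ym_posDef Z)).inv.posSemidef.conjTranspose_mul_mul_same _
  have hsym : y ⬝ᵥ Qm Z *ᵥ x = x ⬝ᵥ Qm Z *ᵥ y := by
    have h := (Qm_posDef Z).1
    rw [IsHermitian, conjTranspose_eq_transpose_of_trivial] at h
    rw [dotProduct_mulVec, ← mulVec_transpose, h, dotProduct_comm]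
  have hxx : x ⬝ᵥ J ι ℝ *ᵥ x = 0 := by have := J_skew x x; linarith
  have hyy : y ⬝ᵥ J ι ℝ *ᵥ y = 0 := by have := J_skew y y; linarith
  have key : ∀ t : ℝ, 0 ≤ (x ⬝ᵥ Qm Z *ᵥ x) * (t * t) + (-2 * (x ⬝ᵥ J ι ℝ *ᵥ y)) * t +
      y ⬝ᵥ Qm Z *ᵥ y := by
    intro t
    have h := hP.dotProduct_mulVec_nonneg
      ((t : ℂ) • (fun i => (x i : ℂ)) + Complex.I • fun i => (y i : ℂ))
    have hs : star ((t : ℂ) • (fun i => (x i : ℂ)) + Complex.I • fun i => (y i : ℂ)) =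
        (t : ℂ) • (fun i => (x i : ℂ)) + (-Complex.I) • fun i => (y i : ℂ) := by
      funext i; simp
    rw [hs] at h
    simp only [add_mulVec, mulVec_add, smul_mulVec, mulVec_smul, add_dotProduct, dotProduct_add,
      smul_dotProduct, dotProduct_smul, cplx, hsym, hxx, hyy, J_skew x y, smul_eq_mul] at h
    have h2 := (Complex.nonneg_iff.mp h).1
    simp at h2
    nlinarith
  have := discrim_le_zero key
  rw [discrim] at this
  nlinarith

theorem om_cast (u v : ι ⊕ ι → ℤ) : (om u v : ℝ) = cz u ⬝ᵥ J ι ℝ *ᵥ cz v := by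
  have : J ι ℝ = (J ι ℤ).map (Int.castRingHom ℝ) := (map_J ι (Int.castRingHom ℝ)).symm
  rw [this]
  simp [om, cz, dotProduct, mulVec]

theorem continuous_Qm : Continuous (Qm : HH ι → Matrix (ι ⊕ ι) (ι ⊕ ι) ℝ) := by
  have hi : Continuous fun Z : HH ι => (Ym Z)⁻¹ := by
    simp only [Matrix.inv_def, Ring.inverse_eq_inv']
    exact (continuous_Ym.matrix_det.inv₀ fun Z => (Ym_det_pos Z).ne').smul
      continuous_Ym.matrix_adjugate
  exact Continuous.matrix_fromBlocks hi (hi.matrix_mul continuous_Xm).neg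
    (continuous_Xm.matrix_mul hi).neg
    (continuous_Ym.add ((continuous_Xm.matrix_mul hi).matrix_mul continuous_Xm))

omit [Fintype ι] [DecidableEq ι] in
theorem cz_ne_zero {v : ι ⊕ ι → ℤ} (hv : v ≠ 0) : cz v ≠ 0 := by
  intro h; apply hv; funext i
  have : (v i : ℝ) = 0 := congrFun h i
  exact_mod_cast this

theorem mulVec_ne_zero (γ : SpZ ι) {v : ι ⊕ ι → ℤ} (hv : v ≠ 0) : γ.1 *ᵥ v ≠ 0 := by
  intro h; apply hv
  have h1 : (γ⁻¹).1 * γ.1 = 1 := congrArg Subtype.val (inv_mul_cancel γ)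
  rw [← one_mulVec v, ← h1, ← mulVec_mulVec, h, mulVec_zero]

theorem short_smul {s : ℝ} (γ : SpZ ι) {Z : HH ι} (h : Z ∈ Short ι s) : γ • Z ∈ Short ι s := by
  obtain ⟨v, hv, h⟩ := h
  exact ⟨γ.1 *ᵥ v, mulVec_ne_zero γ hv, (bil_smul γ Z v v).trans_lt h⟩

end Q

open Q in
theorem p_Q : S_Q := by
  intro ι _ _
  refine ⟨fun Z => ⟨Qm_posDef Z, Qm_det Z⟩, Qm_smul, fun γ Z v => bil_smul γ Z v v, ?_, ?_,
    continuous_Qm, ?_, ?_, ?_, ?_, ?_⟩
  · intro γ Z κ v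
    ext a b
    exact bil_smul γ Z _ _
  · intro Z u v
    rw [om_cast]; exact om_sq_real Z _ _
  · intro Z p
    have : cz (lv p) = Sum.elim (cz p) 0 := by
      funext a; rcases a with a | a <;> simp [cz, lv]
    rw [qf, this, Qm, fromBlocks_mulVec]
    simp
  · intro Z v hv
    simpa [qf] using (Qm_posDef Z).dotProduct_mulVec_pos (cz_ne_zero hv)
  · intro Z c v
    have : cz (c • v) = (c : ℝ) • cz v := by funext a; simp [cz]
    rw [qf, qf, this, mulVec_smul, smul_dotProduct, dotProduct_smul, smul_eq_mul, smul_eq_mul]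
    ring
  · intro s
    have : Short ι s = ⋃ v : {v : ι ⊕ ι → ℤ // v ≠ 0}, {Z | qf (Qm Z) v.1 < s} := by
      ext Z; simp [Short]
    rw [this]
    refine isOpen_iUnion fun v => isOpen_lt ?_ continuous_const
    exact continuous_const.dotProduct (continuous_Qm.matrix_mulVec continuous_const)
  · intro s γ Z
    refine ⟨fun h => ?_, short_smul γ⟩
    simpa using short_smul γ⁻¹ h

end Pool.Agent.P.MP_59bdab_ag
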