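import Pool.Agent.P.MP_59bdab_ag.IfB

/-! Transport along a bijection of index types. -/

namespace Pool.Agent.P.MP_59bdab_ag

open Matrix MeasureTheory Filter Topology
open scoped ENNReal ComplexOrder

namespace REIDX

variable {ι ι' : Type}

/-- The bijection of unordered pairs. -/
def s2 (e : ι ≃ ι') : Sym2 ι ≃ Sym2 ι' where
  toFun := Sym2.map e
  invFun := Sym2.map e.symm
  left_inv p := by simp [Sym2.map_map]
  right_inv p := by simp [Sym2.map_map]

/-- The ambient map. -/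
noncomputable def amb (e : ι ≃ ι') : (Sym2 ι → ℂ) ≃ᵐ (Sym2 ι' → ℂ) :=
  MeasurableEquiv.arrowCongr' (s2 e) (MeasurableEquiv.refl ℂ)

theorem amb_apply (e : ι ≃ ι') (z : Sym2 ι → ℂ) (p : Sym2 ι') :
    amb e z p = z (Sym2.map e.symm p) := rfl

theorem mat_amb (e : ι ≃ ι') (z : Sym2 ι → ℂ) :
    mat (amb e z) = (mat z).submatrix e.symm e.symm := rfl

theorem im_amb (e : ι ≃ ι') (z : Sym2 ι → ℂ) :
    (mat fun p => (amb e z p).im) = (mat fun p => (z p).im).submatrix e.symm e.symm := rfl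

theorem amb_mem (e : ι ≃ ι') (z : Sym2 ι → ℂ) : z ∈ HS ι ↔ amb e z ∈ HS ι' := by
  constructor
  · intro h
    exact PosDef.submatrix (M := mat fun p => (z p).im) h e.symm.injective
  · intro h
    have h1 := PosDef.submatrix (M := mat fun p => (amb e z p).im) h e.injective
    rw [im_amb, submatrix_submatrix] at h1
    simpa [HS] using h1

/-- The map of half spaces. -/
noncomputable def Phi (e : ι ≃ ι') : HH ι ≃ᵐ HH ι' where
  toEquiv := (amb e).toEquiv.subtypeEquiv (amb_mem e)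
  measurable_toFun := ((amb e).measurable.comp measurable_subtype_coe).subtype_mk
  measurable_invFun := ((amb e).symm.measurable.comp measurable_subtype_coe).subtype_mk

theorem Phi_val (e : ι ≃ ι') (Z : HH ι) : (Phi e Z).1 = amb e Z.1 := rfl

variable [Fintype ι] [DecidableEq ι] [Fintype ι'] [DecidableEq ι']

omit [Fintype ι] [Fintype ι'] in
theorem J_sub (e : ι ≃ ι') :
    (J ι ℤ).submatrix (e.sumCongr e).symm (e.sumCongr e).symm = J ι' ℤ := by
  ext (a | a) (b | b) <;> simp [J, one_apply]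

theorem sub_mem (e : ι ≃ ι') (γ : SpZ ι) :
    reindex (e.sumCongr e) (e.sumCongr e) γ.1 ∈ symplecticGroup ι' ℤ := by
  have h : γ.1 * J ι ℤ * γ.1ᵀ = J ι ℤ := γ.2
  rw [SymplecticGroup.mem_iff, reindex_apply, ← J_sub e, transpose_submatrix, submatrix_mul_equiv,
    submatrix_mul_equiv, h]

/-- The isomorphism of groups. -/
def psi (e : ι ≃ ι') : SpZ ι ≃* SpZ ι' where
  toFun γ := ⟨_, sub_mem e γ⟩
  invFun γ := ⟨_, sub_mem e.symm γ⟩
  left_inv γ := Subtype.ext (by ext (a | a) (b | b) <;> simp)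
  right_inv γ := Subtype.ext (by ext (a | a) (b | b) <;> simp)
  map_mul' γ δ := Subtype.ext (submatrix_mul_equiv γ.1 δ.1 _ (e.sumCongr e).symm _).symm

theorem den_psi (e : ι ≃ ι') (γ : SpZ ι) (z : Sym2 ι → ℂ) :
    den (toR (psi e γ)).1 (amb e z) = (den (toR γ).1 z).submatrix e.symm e.symm := by
  rw [den, den, submatrix_add, Pi.add_apply, Pi.add_apply, ← submatrix_mul_equiv _ _ _ e.symm]
  rfl

theorem num_psi (e : ι ≃ ι') (γ : SpZ ι) (z : Sym2 ι → ℂ) :
    num (toR (psi e γ)).1 (amb e z) = (num (toR γ).1 z).submatrix e.symm e.symm := by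
  rw [num, num, submatrix_add, Pi.add_apply, Pi.add_apply, ← submatrix_mul_equiv _ _ _ e.symm]
  rfl

theorem Phi_smul (e : ι ≃ ι') (γ : SpZ ι) (Z : HH ι) : Phi e (γ • Z) = psi e γ • Phi e Z := by
  symm
  rw [smulZ_def, smul_eq_iff, Phi_val, Phi_val, den_psi, num_psi, mat_amb, submatrix_mul_equiv,
    smulZ_def, smul_mul_den]

theorem Qm_Phi (e : ι ≃ ι') (Z : HH ι) :
    Qm (Phi e Z) = reindex (e.sumCongr e) (e.sumCongr e) (Qm Z) := by
  have h1 : Ym (Phi e Z) = (Ym Z).submatrix e.symm e.symm := rfl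
  have h2 : Xm (Phi e Z) = (Xm Z).submatrix e.symm e.symm := rfl
  rw [Qm, Qm, h1, h2, inv_submatrix_equiv]
  simp only [submatrix_mul_equiv]
  ext (a | a) (b | b) <;> rfl

theorem lint (hMEAS : S_MEAS) (e : ι ≃ ι') (φ : HH ι' → ℝ≥0∞) (hφ : Measurable φ) :
    ∫⁻ Z, φ (Phi e Z) ∂μH ι = ∫⁻ Z, φ Z ∂μH ι' := by
  have hm : Measurable (Function.extend (Subtype.val : HH ι' → _) φ 0) :=
    (MeasurableEmbedding.subtype_coe (isOpen_HS ι').measurableSet).measurable_extend hφ
      measurable_const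
  have h1 := (hMEAS ι').2.2.2.2.2.2.1 _ hm
  have h2 := (hMEAS ι).2.2.2.2.2.2.1 _ (hm.comp (amb e).measurable)
  simp only [Function.comp_apply, ← Phi_val, Subtype.val_injective.extend_apply] at h1 h2
  have hp : MeasurePreserving (amb e) :=
    volume_preserving_arrowCongr' (s2 e) (MeasurableEquiv.refl ℂ) (MeasurePreserving.id _)
  have h3 : HS ι = amb e ⁻¹' HS ι' := Set.ext (amb_mem e)
  rw [h1, h2, ← hp.setLIntegral_comp_preimage_emb (amb e).measurableEmbedding, ← h3]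
  refine lintegral_congr fun z => ?_
  rw [im_amb, det_submatrix_equiv_self, Fintype.card_congr e]

theorem mp (hMEAS : S_MEAS) (e : ι ≃ ι') : MeasurePreserving (Phi e) (μH ι) (μH ι') := by
  refine ⟨(Phi e).measurable, Measure.ext fun s hs => ?_⟩
  rw [← lintegral_indicator_one hs, ← lintegral_indicator_one hs,
    lintegral_map (measurable_one.indicator hs) (Phi e).measurable,
    lint hMEAS e _ (measurable_one.indicator hs)]

theorem vol_le (hMEAS : S_MEAS) (e : ι ≃ ι') : vol ι ≤ vol ι' := by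
  refine le_iInf₂ fun w hw => ?_
  rw [← lint hMEAS e w hw.1]
  refine iInf₂_le (f := fun (w : HH ι → ℝ≥0∞) (_ : IsWt (SpZ ι) (HH ι) w) => ∫⁻ Z, w Z ∂μH ι)
    (fun Z => w (Phi e Z)) ⟨hw.1.comp (Phi e).measurable, fun Z => ?_⟩
  simp only [Phi_smul]
  rw [← hw.2 (Phi e Z)]
  exact (psi e).toEquiv.tsum_eq fun γ => w (γ • Phi e Z)

end REIDX

theorem p_REIDX (hMEAS : S_MEAS) : S_REIDX := fun _ _ _ _ _ _ e =>
  ⟨REIDX.Phi e, REIDX.psi e, REIDX.mp hMEAS e, REIDX.Phi_smul e, fun _ => rfl, REIDX.Qm_Phi e,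
    le_antisymm (REIDX.vol_le hMEAS e) (REIDX.vol_le hMEAS e.symm)⟩

end Pool.Agent.P.MP_59bdab_ag
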