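import Pool.Agent.P.MP_59bdab_ag.IfB

/-!
Rank one moves.
-/

namespace Pool.Agent.P.MP_59bdab_ag

open Matrix MeasureTheory Filter Topology
open scoped ENNReal ComplexOrder

namespace RK1

variable {ι : Type} [Fintype ι] [DecidableEq ι]

omit [DecidableEq ι] in
theorem vv_mulVec (u v w : ι → ℝ) : vecMulVec u v *ᵥ w = (v ⬝ᵥ w) • u := by
  rw [vecMulVec_mulVec, op_smul_eq_smul]

omit [DecidableEq ι] in
theorem symm_dot {A : Matrix ι ι ℝ} (hA : Aᵀ = A) (x y : ι → ℝ) :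
    x ⬝ᵥ A *ᵥ y = y ⬝ᵥ A *ᵥ x := by
  rw [dotProduct_mulVec, ← mulVec_transpose, hA, dotProduct_comm]

theorem mul_inv_vec {Y : Matrix ι ι ℝ} (hY : Y.PosDef) (P : ι → ℝ) : Y *ᵥ (Y⁻¹ *ᵥ P) = P := by
  rw [mulVec_mulVec, mul_nonsing_inv _ hY.det_pos.ne'.isUnit, one_mulVec]

theorem cs {Y : Matrix ι ι ℝ} (hY : Y.PosDef) (hs : Yᵀ = Y) (P x : ι → ℝ) :
    (P ⬝ᵥ x) ^ 2 ≤ (P ⬝ᵥ Y⁻¹ *ᵥ P) * (x ⬝ᵥ Y *ᵥ x) := by
  have h : ∀ t : ℝ, 0 ≤ (P ⬝ᵥ Y⁻¹ *ᵥ P) * (t * t) + (2 * (P ⬝ᵥ x)) * t + x ⬝ᵥ Y *ᵥ x := by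
    intro t
    have h1 := hY.posSemidef.dotProduct_mulVec_nonneg (x + t • (Y⁻¹ *ᵥ P))
    rw [star_trivial, mulVec_add, mulVec_smul, mul_inv_vec hY, add_dotProduct, dotProduct_add,
      dotProduct_add, smul_dotProduct, smul_dotProduct, dotProduct_smul, dotProduct_smul,
      symm_dot hs (Y⁻¹ *ᵥ P) x, mul_inv_vec hY, dotProduct_comm x P,
      dotProduct_comm (Y⁻¹ *ᵥ P) P] at h1
    simp only [smul_eq_mul] at h1
    linarith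
  have h2 := discrim_le_zero h
  rw [discrim] at h2
  nlinarith

theorem posDef_add {Y : Matrix ι ι ℝ} (hY : Y.PosDef) (hs : Yᵀ = Y) (P : ι → ℝ) {a : ℝ}
    (h : 0 < 1 + a * (P ⬝ᵥ Y⁻¹ *ᵥ P)) : (Y + a • vecMulVec P P).PosDef := by
  refine PosDef.of_dotProduct_mulVec_pos ?_ fun x hx => ?_
  · rw [IsHermitian, conjTranspose_eq_transpose_of_trivial, transpose_add, transpose_smul,
      transpose_vecMulVec, hs]
  · have h1 := hY.dotProduct_mulVec_pos hx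
    have h2 := cs hY hs P x
    rw [star_trivial] at h1 ⊢
    rw [add_mulVec, smul_mulVec, vv_mulVec, dotProduct_add, dotProduct_smul, dotProduct_smul,
      dotProduct_comm x P]
    simp only [smul_eq_mul]
    rcases le_total 0 a with ha | ha
    · have := mul_nonneg ha (mul_self_nonneg (P ⬝ᵥ x))
      linarith
    · have h3 := mul_pos h h1
      have h4 := mul_le_mul_of_nonpos_left h2 ha
      nlinarith

theorem det_add {Y : Matrix ι ι ℝ} (hY : Y.PosDef) (P : ι → ℝ) (a : ℝ) :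
    (Y + a • vecMulVec P P).det = Y.det * (1 + a * (P ⬝ᵥ Y⁻¹ *ᵥ P)) := by
  have h : Y + a • vecMulVec P P = Y * (1 + vecMulVec (a • (Y⁻¹ *ᵥ P)) P) := by
    rw [Matrix.mul_add, Matrix.mul_one, mul_vecMulVec, mulVec_smul, mul_inv_vec hY, smul_vecMulVec]
  rw [h, det_mul, vecMulVec_eq Unit, det_one_add_replicateCol_mul_replicateRow, dotProduct_smul,
    smul_eq_mul]

theorem inv_add {Y : Matrix ι ι ℝ} (hY : Y.PosDef) (hs : Yᵀ = Y) (P : ι → ℝ) {a : ℝ}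
    (h : 1 + a * (P ⬝ᵥ Y⁻¹ *ᵥ P) ≠ 0) : (Y + a • vecMulVec P P)⁻¹ =
      Y⁻¹ - (a / (1 + a * (P ⬝ᵥ Y⁻¹ *ᵥ P))) • vecMulVec (Y⁻¹ *ᵥ P) (Y⁻¹ *ᵥ P) := by
  apply inv_eq_right_inv
  have h1 : P ᵥ* Y⁻¹ = Y⁻¹ *ᵥ P := by
    rw [← mulVec_transpose, transpose_nonsing_inv, hs]
  rw [Matrix.add_mul, Matrix.mul_sub, Matrix.mul_sub, mul_nonsing_inv _ hY.det_pos.ne'.isUnit,
    Matrix.mul_smul, mul_vecMulVec, mul_inv_vec hY, Matrix.smul_mul, vecMulVec_mul, h1,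
    Matrix.mul_smul, Matrix.smul_mul, vecMulVec_mul_vecMulVec, vecMulVec_smul, smul_smul, smul_smul,
    ← sub_smul, sub_add, ← sub_smul]
  have h2 : a / (1 + a * (P ⬝ᵥ Y⁻¹ *ᵥ P)) -
      (a - a / (1 + a * (P ⬝ᵥ Y⁻¹ *ᵥ P)) * a * (P ⬝ᵥ Y⁻¹ *ᵥ P)) = 0 := by
    field_simp
    ring
  rw [h2, zero_smul, sub_zero]

theorem qf_eq (Z : HH ι) (v : ι ⊕ ι → ℤ) : qf (Qm Z) v =
    (cz (v ∘ Sum.inl) - Xm Z *ᵥ cz (v ∘ Sum.inr)) ⬝ᵥ (Ym Z)⁻¹ *ᵥ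
      (cz (v ∘ Sum.inl) - Xm Z *ᵥ cz (v ∘ Sum.inr)) +
    cz (v ∘ Sum.inr) ⬝ᵥ Ym Z *ᵥ cz (v ∘ Sum.inr) := by
  have h : cz v = Sum.elim (cz (v ∘ Sum.inl)) (cz (v ∘ Sum.inr)) := by
    funext a
    rcases a with a | a <;> rfl
  rw [qf, Qm, h, fromBlocks_mulVec, sumElim_dotProduct_sumElim, Sum.elim_comp_inl,
    Sum.elim_comp_inr]
  set m := cz (v ∘ Sum.inl)
  set n := cz (v ∘ Sum.inr)
  simp only [neg_mulVec, add_mulVec, ← mulVec_mulVec, dotProduct_add, dotProduct_neg, mulVec_sub,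
    sub_dotProduct, dotProduct_sub, symm_dot (Xm_transpose Z) n, dotProduct_comm (Xm Z *ᵥ n)]
  ring

theorem om_lv (p : ι → ℤ) (v : ι ⊕ ι → ℤ) (h : om (lv p) v = 0) :
    cz p ⬝ᵥ cz (v ∘ Sum.inr) = 0 := by
  rw [om, Matrix.J, fromBlocks_mulVec, lv, sumElim_dotProduct_sumElim, zero_dotProduct, add_zero,
    zero_mulVec, zero_add, neg_mulVec, one_mulVec, dotProduct_neg, neg_eq_zero] at h
  have h2 := congrArg (Int.cast : ℤ → ℝ) h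
  simpa [cz, dotProduct] using h2

omit [Fintype ι] [DecidableEq ι] in
theorem im_add (z : Sym2 ι → ℂ) (p : ι → ℤ) (τ : ℂ) :
    (mat fun q => ((z + τ • tv p : Sym2 ι → ℂ) q).im) =
      (mat fun q => (z q).im) + τ.im • vecMulVec (cz p) (cz p) := by
  ext i j
  have : tv p s(i, j) = (p i : ℂ) * p j := rfl
  simp [this, vecMulVec_apply, cz]

omit [Fintype ι] [DecidableEq ι] in
theorem re_add (z : Sym2 ι → ℂ) (p : ι → ℤ) (τ : ℂ) :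
    (mat fun q => ((z + τ • tv p : Sym2 ι → ℂ) q).re) =
      (mat fun q => (z q).re) + τ.re • vecMulVec (cz p) (cz p) := by
  ext i j
  have : tv p s(i, j) = (p i : ℂ) * p j := rfl
  simp [this, vecMulVec_apply, cz]

end RK1

open RK1 in
theorem p_RK1 (hQ : S_Q) : S_RK1 := by
  intro ι _ _ Z p τ h
  have h7 := (hQ ι).2.2.2.2.2.2.1
  rw [h7 Z p] at h ⊢
  have hY := Ym_posDef Z
  have hs := Ym_transpose Z
  have hmem : Z.1 + τ • tv p ∈ HS ι := by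
    show (mat fun q => ((Z.1 + τ • tv p : Sym2 ι → ℂ) q).im).PosDef
    rw [im_add]
    exact posDef_add hY hs _ h
  have e1 : Ym ⟨_, hmem⟩ = Ym Z + τ.im • vecMulVec (cz p) (cz p) := im_add _ _ _
  have e2 : Xm ⟨_, hmem⟩ = Xm Z + τ.re • vecMulVec (cz p) (cz p) := re_add _ _ _
  have e3 := inv_add hY hs (cz p) h.ne'
  refine ⟨⟨_, hmem⟩, rfl, by rw [e1, det_add hY], ?_, fun ha v hv => ?_⟩
  · rw [h7, e1, e3, sub_mulVec, smul_mulVec, vv_mulVec, dotProduct_sub, dotProduct_smul,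
      dotProduct_smul, dotProduct_comm ((Ym Z)⁻¹ *ᵥ cz p)]
    simp only [smul_eq_mul]
    have h' := h.ne'
    generalize cz p ⬝ᵥ (Ym Z)⁻¹ *ᵥ cz p = q at h' ⊢
    rw [eq_div_iff h', div_mul_eq_mul_div, sub_mul, div_mul_cancel₀ _ h']
    ring
  · have h0 := om_lv p v hv
    rw [qf_eq, qf_eq, e1, e2, e3, add_mulVec, add_mulVec, smul_mulVec, smul_mulVec, vv_mulVec, h0,
      zero_smul, smul_zero, smul_zero, add_zero, add_zero, sub_mulVec, smul_mulVec, vv_mulVec]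
    set x := cz (v ∘ Sum.inl) - Xm Z *ᵥ cz (v ∘ Sum.inr)
    rw [dotProduct_sub, dotProduct_smul, dotProduct_smul, dotProduct_comm x ((Ym Z)⁻¹ *ᵥ cz p)]
    simp only [smul_eq_mul]
    have h1 := mul_nonneg_of_nonpos_of_nonpos (div_nonpos_of_nonpos_of_nonneg ha h.le)
      (neg_nonpos.2 (mul_self_nonneg (((Ym Z)⁻¹ *ᵥ cz p) ⬝ᵥ x)))
    linarith

end Pool.Agent.P.MP_59bdab_ag
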