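import Pool.Agent.P.MP_59bdab_ag.IfA

/-! Sub-mean value inequality for a circular weight. -/

namespace Pool.Agent.P.MP_59bdab_ag

open MeasureTheory Filter Topology Set Metric
open scoped ENNReal

namespace ROT

theorem mp_one {c : ℂ} (hc : ‖c‖ = 1) :
    MeasurePreserving (fun z : ℂ => c * z) volume volume :=
  (rotation ⟨c, by simpa [Submonoid.unitSphere] using hc⟩).measurePreserving

theorem mp {κ : Type} [Fintype κ] {c : ℂ} (hc : ‖c‖ = 1) :
    MeasurePreserving (fun z : κ → ℂ => c • z) volume volume :=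
  volume_preserving_pi fun _ : κ => mp_one hc

theorem mean {f : ℂ → ℂ} (hf : DifferentiableOn ℂ f (closedBall 0 1)) :
    ENNReal.ofReal (2 * Real.pi) * ‖f 0‖ₑ ≤
      ∫⁻ t in Ioc (0 : ℝ) (2 * Real.pi), ‖f (circleMap 0 1 t)‖ₑ := by
  have h1 : DiffContOnCl ℂ f (ball 0 |(1 : ℝ)|) := by
    rw [abs_one]
    exact DifferentiableOn.diffContOnCl (by rwa [closure_ball _ one_ne_zero])
  have h2 := h1.circleAverage
  have h3 : ∫ t in Ioc (0 : ℝ) (2 * Real.pi), f (circleMap 0 1 t) = (2 * Real.pi) • f 0 := by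
    rw [← h2, Real.circleAverage_def, smul_inv_smul₀ Real.two_pi_pos.ne',
      intervalIntegral.integral_of_le Real.two_pi_pos.le]
  refine le_trans (le_of_eq ?_) (enorm_integral_le_lintegral_enorm _)
  rw [h3, enorm_smul, Real.enorm_eq_ofReal Real.two_pi_pos.le]

end ROT

open ROT in
theorem p_ROT : S_ROT := by
  intro κ _ U u ψ hU hb hu hψ hr
  have hm : MeasurableSet U := hU.measurableSet
  set F : (κ → ℂ) → ℝ≥0∞ := U.indicator fun z => ‖u z‖ₑ ^ 2 * ψ z with hF
  have hFm : Measurable F := by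
    classical
    have h1 : Measurable (U.piecewise u 0) :=
      hu.continuousOn.measurable_piecewise continuousOn_const hm
    have h2 : F = U.indicator fun z => ‖U.piecewise u 0 z‖ₑ ^ 2 * ψ z :=
      indicator_congr fun z hz => by simp only [piecewise_eq_of_mem _ _ _ hz]
    rw [h2]
    exact ((h1.enorm.pow_const 2).mul hψ).indicator hm
  have hn : ∀ t, ‖circleMap 0 1 t‖ = 1 := fun t => by simp
  have hG : Measurable fun q : ℝ × (κ → ℂ) => F (circleMap 0 1 q.1 • q.2) :=
    hFm.comp (by fun_prop : Continuous fun q : ℝ × (κ → ℂ) => circleMap 0 1 q.1 • q.2).measurable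
  have h0 : ENNReal.ofReal (2 * Real.pi) ≠ 0 := (ENNReal.ofReal_pos.2 Real.two_pi_pos).ne'
  rw [← ENNReal.mul_le_mul_iff_right h0 ENNReal.ofReal_ne_top, ← lintegral_indicator hm (fun z =>
    ‖u z‖ₑ ^ 2 * ψ z)]
  calc ENNReal.ofReal (2 * Real.pi) * (‖u 0‖ₑ ^ 2 * ∫⁻ z in U, ψ z)
      = ∫⁻ z in U, ENNReal.ofReal (2 * Real.pi) * ‖u 0‖ₑ ^ 2 * ψ z := by
        rw [lintegral_const_mul _ hψ, mul_assoc]
    _ ≤ ∫⁻ z in U, ∫⁻ t in Ioc (0 : ℝ) (2 * Real.pi), F (circleMap 0 1 t • z) := by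
        refine setLIntegral_mono' hm fun z hz => ?_
        have h1 : DifferentiableOn ℂ (fun w : ℂ => u (w • z) ^ 2) (closedBall 0 1) :=
          (hu.comp (by fun_prop) fun w hw => hb z hz w (mem_closedBall_zero_iff.1 hw)).pow 2
        have h2 := mean h1
        simp only [zero_smul, enorm_pow] at h2
        refine le_trans (mul_le_mul_left h2 _) ((lintegral_mul_const_le _ _).trans (le_of_eq ?_))
        refine lintegral_congr fun t => ?_
        rw [hF, indicator_of_mem (hb z hz _ (hn t).le), hr z _ (hn t)]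
    _ ≤ ∫⁻ z, ∫⁻ t in Ioc (0 : ℝ) (2 * Real.pi), F (circleMap 0 1 t • z) :=
        setLIntegral_le_lintegral _ _
    _ = ∫⁻ t in Ioc (0 : ℝ) (2 * Real.pi), ∫⁻ z, F (circleMap 0 1 t • z) :=
        (lintegral_lintegral_swap hG.aemeasurable).symm
    _ = ∫⁻ _ in Ioc (0 : ℝ) (2 * Real.pi), ∫⁻ z, F z :=
        lintegral_congr fun t => (mp (hn t)).lintegral_comp hFm
    _ = _ := by
        rw [setLIntegral_const, Real.volume_Ioc, sub_zero, mul_comm]

end Pool.Agent.P.MP_59bdab_ag
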