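import Pool.Agent.P.MP_59bdab_ag.IfA

namespace Pool.Agent.P.MP_59bdab_ag

open Matrix MeasureTheory Filter Topology
open scoped ENNReal

namespace SIMP

theorem meas_box (s0 : ℝ) (r : ℕ) :
    MeasurableSet {s : Fin r → ℝ | ∀ i, 0 < s i ∧ s i < s0} := by
  rw [Set.ofPred_forall]
  refine MeasurableSet.iInter fun i => ?_
  exact (measurableSet_lt measurable_const (measurable_pi_apply i)).inter
    (measurableSet_lt (measurable_pi_apply i) measurable_const)

theorem meas_Sc (s0 : ℝ) (r : ℕ) : MeasurableSet (Sc s0 r) := by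
  refine (meas_box s0 r).inter ?_
  have e : {s : Fin r → ℝ | Antitone s} = ⋂ a, ⋂ b, ⋂ (_ : a ≤ b), {s | s b ≤ s a} := by
    ext s
    simp only [Set.mem_ofPred_eq, Set.mem_iInter]
    exact ⟨fun h a b hab => h hab, fun h a b hab => h a b hab⟩
  change MeasurableSet {s : Fin r → ℝ | Antitone s}
  rw [e]
  exact MeasurableSet.iInter fun a => MeasurableSet.iInter fun b => MeasurableSet.iInter fun _ =>
    measurableSet_le (measurable_pi_apply b) (measurable_pi_apply a)

theorem meas_So (s0 : ℝ) (r : ℕ) : MeasurableSet (So s0 r) := by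
  refine (meas_box s0 r).inter ?_
  have e : {s : Fin r → ℝ | StrictAnti s} = ⋂ a, ⋂ b, ⋂ (_ : a < b), {s | s b < s a} := by
    ext s
    simp only [Set.mem_ofPred_eq, Set.mem_iInter]
    exact ⟨fun h a b hab => h hab, fun h a b hab => h a b hab⟩
  change MeasurableSet {s : Fin r → ℝ | StrictAnti s}
  rw [e]
  exact MeasurableSet.iInter fun a => MeasurableSet.iInter fun b => MeasurableSet.iInter fun _ =>
    measurableSet_lt (measurable_pi_apply b) (measurable_pi_apply a)

theorem null_eq {r : ℕ} {a b : Fin r} (hab : a ≠ b) :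
    volume {s : Fin r → ℝ | s a = s b} = 0 := by
  let K : Submodule ℝ (Fin r → ℝ) :=
    LinearMap.ker ((LinearMap.proj a : (Fin r → ℝ) →ₗ[ℝ] ℝ) - LinearMap.proj b)
  have hK : K ≠ ⊤ := by
    intro h
    have h1 : (Pi.single a (1 : ℝ) : Fin r → ℝ) ∈ K := by rw [h]; trivial
    simp [K, hab.symm] at h1
  have e : {s : Fin r → ℝ | s a = s b} = (K : Set (Fin r → ℝ)) := by
    ext s
    simp [K, sub_eq_zero]
  rw [e]
  exact Measure.addHaar_submodule volume K hK

theorem ae_eq (s0 : ℝ) (r : ℕ) : Sc s0 r =ᵐ[volume] So s0 r := by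
  have h : ∀ᵐ s : Fin r → ℝ, ∀ a b : Fin r, a ≠ b → s a ≠ s b := by
    refine ae_all_iff.2 fun a => ae_all_iff.2 fun b => ?_
    by_cases hab : a = b
    · exact Eventually.of_forall fun s h => absurd hab h
    · have := null_eq hab
      rw [← compl_mem_ae_iff] at this
      filter_upwards [this] with s hs _ using hs
  filter_upwards [h] with s hs
  apply propext
  constructor
  · rintro ⟨h1, h2⟩
    exact ⟨h1, fun a b hab => lt_of_le_of_ne (h2 hab.le) (hs b a hab.ne')⟩
  · rintro ⟨h1, h2⟩
    exact ⟨h1, h2.antitone⟩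

theorem cons_mem {s0 x : ℝ} {r : ℕ} {t : Fin r → ℝ} :
    (Fin.cons x t : Fin (r + 1) → ℝ) ∈ So s0 (r + 1) ↔ x ∈ Set.Ioo 0 s0 ∧ t ∈ So x r := by
  constructor
  · rintro ⟨h1, h2⟩
    refine ⟨by simpa using h1 0, fun i => ⟨by simpa using (h1 i.succ).1, ?_⟩, fun a b hab => ?_⟩
    · simpa using h2 (Fin.succ_pos i)
    · simpa using h2 (Fin.succ_lt_succ_iff.2 hab)
  · rintro ⟨h0, h1, h2⟩
    refine ⟨fun i => ?_, fun a b hab => ?_⟩
    · refine Fin.cases ?_ (fun k => ?_) i
      · simpa using h0
      · simpa using ⟨(h1 k).1, (h1 k).2.trans h0.2⟩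
    · revert hab
      refine Fin.cases ?_ (fun k => ?_) b
      · intro hab; exact absurd hab (Fin.not_lt_zero a)
      · refine Fin.cases ?_ (fun l => ?_) a
        · intro _; simpa using (h1 k).2
        · intro hab; simpa using h2 (Fin.succ_lt_succ_iff.1 hab)

theorem meas_f (r j : ℕ) :
    Measurable (fun s : Fin r → ℝ => ENNReal.ofReal (∏ i : Fin r, s i ^ (r - 1 - i + j))) := by
  refine ENNReal.measurable_ofReal.comp ?_
  exact Finset.measurable_prod _ fun i _ => (measurable_pi_apply i).pow_const _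

theorem tri_succ (r : ℕ) : tri (r + 1) = tri r + r + 1 := by
  unfold tri
  have : (r + 1) * (r + 1 + 1) = r * (r + 1) + 2 * (r + 1) := by ring
  rw [this, Nat.add_mul_div_left _ _ (by norm_num)]
  ring

theorem two_tri (r : ℕ) : 2 * tri r = r * (r + 1) := by
  induction r with
  | zero => simp [tri]
  | succ r ih => rw [tri_succ]; nlinarith

theorem lint_pow (n : ℕ) (c s0 : ℝ) (hc : 0 ≤ c) (hs : 0 < s0) :
    ∫⁻ x in Set.Ioo 0 s0, ENNReal.ofReal (x ^ n * c) =
      ENNReal.ofReal (s0 ^ (n + 1) * (c / (n + 1))) := by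
  have hi : IntegrableOn (fun x : ℝ => x ^ n * c) (Set.Ioo 0 s0) :=
    ((by fun_prop : Continuous fun x : ℝ => x ^ n * c).integrableOn_Icc).mono_set
      Set.Ioo_subset_Icc_self
  rw [← ofReal_integral_eq_lintegral_ofReal hi]
  · congr 1
    rw [← integral_Ioc_eq_integral_Ioo, ← intervalIntegral.integral_of_le hs.le,
      intervalIntegral.integral_mul_const, integral_pow]
    simp only [ne_eq, Nat.add_eq_zero_iff, one_ne_zero, and_false, not_false_eq_true, zero_pow,
      sub_zero]
    ring
  · filter_upwards [ae_restrict_mem measurableSet_Ioo] with x hx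
    exact mul_nonneg (pow_nonneg hx.1.le _) hc

theorem main (j r : ℕ) : ∀ s0 : ℝ, 0 < s0 →
    (∫⁻ s in So s0 r, ENNReal.ofReal (∏ i : Fin r, s i ^ (r - 1 - i + j))) =
      ENNReal.ofReal (s0 ^ (tri r + r * j) * (2 ^ r * (2 * j + 1).factorial /
        (r.factorial * (2 * j + r + 1).factorial))) := by
  induction r with
  | zero =>
    intro s0 _
    have e : So s0 0 = Set.univ := by
      ext s
      simp only [Set.mem_univ, iff_true]
      exact ⟨fun i => i.elim0, fun a => a.elim0⟩
    have hf : ((2 * j + 1).factorial : ℝ) ≠ 0 := by positivity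
    rw [e]
    simp [tri, hf, volume_pi]
  | succ r ih =>
    intro s0 hs
    set c : ℝ := 2 ^ r * (2 * j + 1).factorial / (r.factorial * (2 * j + r + 1).factorial) with hc
    have hc0 : 0 ≤ c := by positivity
    have hm := (volume_preserving_piFinSuccAbove (fun _ : Fin (r + 1) => ℝ) 0).symm
    have hg : Measurable ((So s0 (r + 1)).indicator (fun s : Fin (r + 1) → ℝ =>
        ENNReal.ofReal (∏ i : Fin (r + 1), s i ^ (r + 1 - 1 - i + j)))) :=
      (meas_f (r + 1) j).indicator (meas_So s0 (r + 1))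
    have hg2 : Measurable (fun a : ℝ × (Fin r → ℝ) => (So s0 (r + 1)).indicator
        (fun s : Fin (r + 1) → ℝ =>
          ENNReal.ofReal (∏ i : Fin (r + 1), s i ^ (r + 1 - 1 - i + j)))
        ((MeasurableEquiv.piFinSuccAbove (fun _ : Fin (r + 1) => ℝ) 0).symm a)) :=
      hg.comp (MeasurableEquiv.measurable _)
    rw [← lintegral_indicator (meas_So s0 (r + 1)), ← hm.lintegral_comp hg, Measure.volume_eq_prod,
      lintegral_prod _ hg2.aemeasurable]
    have e : ∀ x : ℝ, ∫⁻ t : Fin r → ℝ, (So s0 (r + 1)).indicator (fun s : Fin (r + 1) → ℝ =>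
        ENNReal.ofReal (∏ i : Fin (r + 1), s i ^ (r + 1 - 1 - i + j)))
        ((MeasurableEquiv.piFinSuccAbove (fun _ : Fin (r + 1) => ℝ) 0).symm (x, t)) =
        (Set.Ioo 0 s0).indicator
          (fun x : ℝ => ENNReal.ofReal (x ^ (tri r + r * j + (r + j)) * c)) x := by
      intro x
      have e1 : ∀ t : Fin r → ℝ,
          (MeasurableEquiv.piFinSuccAbove (fun _ : Fin (r + 1) => ℝ) 0).symm (x, t) =
            Fin.cons x t := by
        intro t
        simp [MeasurableEquiv.piFinSuccAbove_symm_apply, Fin.insertNthEquiv]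
      simp only [e1]
      by_cases hx : x ∈ Set.Ioo 0 s0
      · have e2 : ∀ t : Fin r → ℝ, (So s0 (r + 1)).indicator (fun s : Fin (r + 1) → ℝ =>
            ENNReal.ofReal (∏ i : Fin (r + 1), s i ^ (r + 1 - 1 - i + j))) (Fin.cons x t) =
            (So x r).indicator (fun t : Fin r → ℝ => ENNReal.ofReal (x ^ (r + j)) *
              ENNReal.ofReal (∏ i : Fin r, t i ^ (r - 1 - i + j))) t := by
          intro t
          by_cases ht : t ∈ So x r
          · rw [Set.indicator_of_mem (cons_mem.2 ⟨hx, ht⟩), Set.indicator_of_mem ht,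
              ← ENNReal.ofReal_mul (pow_nonneg hx.1.le _), Fin.prod_univ_succ]
            congr 2
            refine Finset.prod_congr rfl fun i _ => ?_
            rw [Fin.cons_succ, Fin.val_succ]
            congr 1
            omega
          · rw [Set.indicator_of_notMem (fun h => ht (cons_mem.1 h).2),
              Set.indicator_of_notMem ht]
        simp only [e2]
        rw [lintegral_indicator (meas_So x r), lintegral_const_mul _ (meas_f r j), ih x hx.1,
          Set.indicator_of_mem hx, ← ENNReal.ofReal_mul (pow_nonneg hx.1.le _)]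
        congr 1
        ring
      · rw [Set.indicator_of_notMem hx]
        have e2 : ∀ t : Fin r → ℝ, (So s0 (r + 1)).indicator (fun s : Fin (r + 1) → ℝ =>
            ENNReal.ofReal (∏ i : Fin (r + 1), s i ^ (r + 1 - 1 - i + j))) (Fin.cons x t) = 0 :=
          fun t => Set.indicator_of_notMem (fun h => hx (cons_mem.1 h).1) _
        simp only [e2, lintegral_zero]
    simp only [e]
    rw [lintegral_indicator measurableSet_Ioo, lint_pow _ c s0 hc0 hs]
    congr 1
    have e3 : tri r + r * j + (r + j) + 1 = tri (r + 1) + (r + 1) * j := by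
      rw [tri_succ]; ring
    have e4 : (((tri r + r * j + (r + j) : ℕ) : ℝ) + 1) = (r + 1) * (2 * j + r + 2) / 2 := by
      have h2 : (2 : ℝ) * tri r = r * (r + 1) := by exact_mod_cast two_tri r
      push_cast
      linarith
    rw [e3, e4, hc, show 2 * j + (r + 1) + 1 = (2 * j + r + 1) + 1 by ring, Nat.factorial_succ r,
      Nat.factorial_succ (2 * j + r + 1)]
    congr 1
    push_cast
    field_simp
    ring

end SIMP

theorem p_SIMP : S_SIMP := by
  intro r j s0 hs
  refine ⟨SIMP.meas_Sc s0 r, SIMP.meas_So s0 r, ?_, SIMP.main j r s0 hs⟩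
  rw [setLIntegral_congr (SIMP.ae_eq s0 r)]
  exact SIMP.main j r s0 hs

end Pool.Agent.P.MP_59bdab_ag
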