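import Pool.Agent.P.MP_59bdab_ag.IfA

/-!
The pointwise stabiliser of a standard isotropic frame.
-/

namespace Pool.Agent.P.MP_59bdab_ag

open Matrix

namespace STR

variable {ι₁ ι₂ : Type} [Fintype ι₁] [DecidableEq ι₁] [Fintype ι₂] [DecidableEq ι₂]

theorem emb_mem (γ : SpZ ι₁) : embM ι₂ γ.1 ∈ symplecticGroup (ι₁ ⊕ ι₂) ℤ := by
  have h := γ.2
  rw [← fromBlocks_toBlocks γ.1, SymplecticGroup.fromBlocks_mem_iff] at h
  obtain ⟨h1, h2, h3⟩ := h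
  rw [embM, SymplecticGroup.fromBlocks_mem_iff, ← fromBlocks_one]
  simp [fromBlocks_transpose, fromBlocks_multiply, h1, h2, ← h3, sub_eq_add_neg, fromBlocks_neg,
    fromBlocks_add]

theorem uu_mem (l : Matrix ι₁ ι₂ ℤ) : uuM l ∈ symplecticGroup (ι₁ ⊕ ι₂) ℤ := by
  rw [uuM, SymplecticGroup.fromBlocks_mem_iff]
  simp [fromBlocks_transpose, fromBlocks_multiply]

theorem tt_mem (m : Matrix ι₁ ι₂ ℤ) (c : Sym2 ι₂ → ℤ) :
    ttM m c ∈ symplecticGroup (ι₁ ⊕ ι₂) ℤ := by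
  rw [ttM, SymplecticGroup.fromBlocks_mem_iff]
  simp [fromBlocks_transpose, mat_transpose]

theorem prod_eq (γ : Matrix (ι₁ ⊕ ι₁) (ι₁ ⊕ ι₁) ℤ) (l m : Matrix ι₁ ι₂ ℤ) (k : Sym2 ι₂ → ℤ) :
    ttM m k * uuM l * embM ι₂ γ = fromBlocks
      (fromBlocks γ.toBlocks₁₁ 0 (lᵀ * γ.toBlocks₁₁ + mᵀ * γ.toBlocks₂₁) 1)
      (fromBlocks γ.toBlocks₁₂ m (lᵀ * γ.toBlocks₁₂ + mᵀ * γ.toBlocks₂₂) (mat k - mᵀ * l))
      (fromBlocks γ.toBlocks₂₁ 0 0 0) (fromBlocks γ.toBlocks₂₂ (-l) 0 1) := by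
  rw [Matrix.mul_assoc]
  simp [ttM, uuM, embM, fromBlocks_multiply, fromBlocks_add, sub_eq_neg_add]

theorem col (M : Matrix ((ι₁ ⊕ ι₂) ⊕ (ι₁ ⊕ ι₂)) ((ι₁ ⊕ ι₂) ⊕ (ι₁ ⊕ ι₂)) ℤ) (i : ι₂) :
    M *ᵥ ev (Sum.inr i : ι₁ ⊕ ι₂) = fun j => M j (Sum.inl (Sum.inr i)) := by
  rw [ev, mulVec_single_one]
  rfl

theorem exists_mat {ι₂ : Type} {K : Matrix ι₂ ι₂ ℤ} (h : Kᵀ = K) : ∃ k, mat k = K :=
  ⟨Sym2.lift ⟨fun i j => K i j, fun i j => congrFun (congrFun h j) i⟩, rfl⟩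

end STR

theorem p_STR : S_STR := by
  intro ι₁ ι₂ _ _ _ _
  refine ⟨STR.emb_mem, STR.uu_mem, STR.tt_mem, ?_, ?_, ?_⟩
  · rintro ⟨γ, l, m, k⟩ -
    refine ⟨mul_mem (mul_mem (STR.tt_mem _ _) (STR.uu_mem _)) (STR.emb_mem _), fun i => ?_⟩
    rw [STR.col]
    beta_reduce
    rw [STR.prod_eq]
    funext j
    rcases j with (j | j) | (j | j) <;> simp [ev, one_apply, Pi.single_apply]
  · rintro ⟨γ, l, m, k⟩ - ⟨γ', l', m', k'⟩ - h
    simp only [STR.prod_eq, fromBlocks_inj, neg_inj] at h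
    obtain ⟨⟨a, -⟩, ⟨b, rfl, -, e⟩, ⟨c, -⟩, d, rfl, -⟩ := h
    obtain rfl : γ = γ' := Subtype.ext (by
      rw [← fromBlocks_toBlocks γ.1, a, b, c, d, fromBlocks_toBlocks])
    rw [mat_injective (sub_left_inj.1 e)]
  · rintro M ⟨h, hc⟩
    obtain ⟨A, B, C, D, rfl⟩ : ∃ A B C D, M = fromBlocks A B C D :=
      ⟨_, _, _, _, (fromBlocks_toBlocks M).symm⟩
    obtain ⟨a, a₂, a₃, a₄, rfl⟩ : ∃ a a₂ a₃ a₄, A = fromBlocks a a₂ a₃ a₄ :=
      ⟨_, _, _, _, (fromBlocks_toBlocks A).symm⟩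
    obtain ⟨b, b₂, b₃, b₄, rfl⟩ : ∃ a a₂ a₃ a₄, B = fromBlocks a a₂ a₃ a₄ :=
      ⟨_, _, _, _, (fromBlocks_toBlocks B).symm⟩
    obtain ⟨c, c₂, c₃, c₄, rfl⟩ : ∃ a a₂ a₃ a₄, C = fromBlocks a a₂ a₃ a₄ :=
      ⟨_, _, _, _, (fromBlocks_toBlocks C).symm⟩
    obtain ⟨d, d₂, d₃, d₄, rfl⟩ : ∃ a a₂ a₃ a₄, D = fromBlocks a a₂ a₃ a₄ :=
      ⟨_, _, _, _, (fromBlocks_toBlocks D).symm⟩
    simp only [STR.col] at hc
    obtain rfl : a₂ = 0 := by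
      ext j i; simpa [ev] using congrFun (hc i) (Sum.inl (Sum.inl j))
    obtain rfl : a₄ = 1 := by
      ext j i; simpa [ev, one_apply, Pi.single_apply] using congrFun (hc i) (Sum.inl (Sum.inr j))
    obtain rfl : c₂ = 0 := by
      ext j i; simpa [ev] using congrFun (hc i) (Sum.inr (Sum.inl j))
    obtain rfl : c₄ = 0 := by
      ext j i; simpa [ev] using congrFun (hc i) (Sum.inr (Sum.inr j))
    rw [SymplecticGroup.fromBlocks_mem_iff, ← fromBlocks_one] at h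
    simp only [fromBlocks_transpose, fromBlocks_multiply, sub_eq_add_neg, fromBlocks_neg,
      fromBlocks_add, fromBlocks_inj, transpose_zero, transpose_one, Matrix.zero_mul,
      Matrix.mul_zero, Matrix.one_mul, Matrix.mul_one, add_zero, zero_add, neg_zero] at h
    obtain ⟨⟨h1, -, rfl, -⟩, ⟨h2, -, h3, h4⟩, h5, h6, rfl, rfl⟩ := h
    simp only [transpose_zero, transpose_one, Matrix.zero_mul,
      Matrix.mul_zero, Matrix.one_mul, Matrix.mul_one, add_zero] at h1 h2 h3 h4 h5 h6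
    obtain ⟨k, hk⟩ := STR.exists_mat (K := b₄ - b₂ᵀ * d₂) (by
      rw [transpose_sub, transpose_mul, transpose_transpose]
      linear_combination (norm := abel1) h4)
    refine ⟨(⟨fromBlocks a b c d, SymplecticGroup.fromBlocks_mem_iff.2
      ⟨h1, h2, by rwa [sub_eq_add_neg]⟩⟩, -d₂, b₂, k), trivial, ?_⟩
    have h7 := congrArg transpose h6
    simp only [transpose_add, transpose_neg, transpose_mul, transpose_transpose,
      transpose_zero] at h7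
    simp only [STR.prod_eq, toBlocks_fromBlocks₁₁, toBlocks_fromBlocks₁₂, toBlocks_fromBlocks₂₁,
      toBlocks_fromBlocks₂₂, fromBlocks_inj, hk, neg_neg, transpose_neg, Matrix.neg_mul,
      Matrix.mul_neg, true_and, and_true, sub_neg_eq_add, sub_add_cancel]
    exact ⟨by linear_combination (norm := abel1) -h7, by linear_combination (norm := abel1) h3⟩

end Pool.Agent.P.MP_59bdab_ag
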