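import Pool.Agent.P.MP_59bdab_ag.IfB

namespace Pool.Agent.P.MP_59bdab_ag

open Matrix MeasureTheory Filter Topology
open scoped ENNReal ComplexOrder

namespace SUB

variable {ι : Type} [Fintype ι] [DecidableEq ι]

theorem sub_zero' {ρ : ℝ} {ζ : Sym2 ι → ℂ} (h : ζ ∈ DD ι ρ) : ζ ∈ DD ι 0 :=
  ⟨h.1, lt_of_le_of_lt (by simpa using sq_nonneg ρ) h.2⟩

theorem meas_ball (hDL : S_DL) (ρ : ℝ) (W : HH ι) : MeasurableSet {Z : HH ι | ρ < dl Z W} :=
  (isOpen_lt continuous_const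
    ((hDL ι).2.2.2.2.2.2.2.1.comp (continuous_id.prodMk continuous_const))).measurableSet

theorem transfer (hDISC : S_DISC) (hCAY : S_CAY) (hCAYM : S_CAYM) (hDL : S_DL) {ρ : ℝ}
    (hρ : 0 ≤ ρ) (φ : HH ι → ℝ≥0∞) (ψ : (Sym2 ι → ℂ) → ℝ≥0∞) (hφ : Measurable φ)
    (h : ∀ ζ ∈ DD ι 0, ∀ Z : HH ι, Z.1 = cay ζ → ψ ζ = φ Z) :
    ∫⁻ Z in {Z | ρ < dl Z (iH ι)}, φ Z ∂μH ι = 4 ^ tri (Fintype.card ι) *
      ∫⁻ ζ in DD ι ρ, ENNReal.ofReal ((dd ζ ^ (Fintype.card ι + 1))⁻¹) * ψ ζ := by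
  have hm : MeasurableSet (DD ι ρ) := ((hDISC ι).2.1 ρ).measurableSet
  rw [← lintegral_indicator (meas_ball hDL ρ _),
    hCAYM ι _ ((DD ι ρ).indicator ψ) (hφ.indicator (meas_ball hDL ρ _)) ?_]
  · congr 1
    have e : ∀ ζ : Sym2 ι → ℂ,
        ENNReal.ofReal ((dd ζ ^ (Fintype.card ι + 1))⁻¹) * (DD ι ρ).indicator ψ ζ =
        (DD ι ρ).indicator
          (fun ζ => ENNReal.ofReal ((dd ζ ^ (Fintype.card ι + 1))⁻¹) * ψ ζ) ζ := by
      intro ζ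
      by_cases hz : ζ ∈ DD ι ρ <;> simp [hz]
    simp only [e]
    rw [lintegral_indicator hm, Measure.restrict_restrict hm,
      Set.inter_eq_self_of_subset_left fun ζ hz => sub_zero' hz]
  · intro ζ hζ Z hZ
    have h1 := ((hCAY ι).2.2.2.2 ζ hζ Z hZ).2
    have h2 := (hDL ι).2.2.2.2.2.2.1 Z (iH ι)
    have h3 : ζ ∈ DD ι ρ ↔ Z ∈ {Z | ρ < dl Z (iH ι)} := by
      constructor
      · intro hz
        have := hz.2
        rw [← h1] at this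
        exact lt_of_pow_lt_pow_left₀ 2 h2.le this
      · intro hz
        refine ⟨hζ.1, ?_⟩
        rw [← h1]
        exact pow_lt_pow_left₀ hz hρ two_ne_zero
    by_cases hz : ζ ∈ DD ι ρ
    · rw [Set.indicator_of_mem hz, Set.indicator_of_mem (h3.1 hz), h ζ hζ Z hZ]
    · rw [Set.indicator_of_notMem hz, Set.indicator_of_notMem fun hh => hz (h3.2 hh)]

theorem diff_det : Differentiable ℂ fun ζ : Sym2 ι → ℂ => (1 - mat ζ).det := by
  simp only [Matrix.det_apply', Matrix.sub_apply, mat_apply]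
  fun_prop

theorem det_iH : (Ym (iH ι)).det = 1 := by
  have : Ym (iH ι) = 1 := by
    ext i j
    by_cases h : i = j
    · subst h; simp [Ym, iH]
    · simp [Ym, iH, h, Ne.symm h]
  rw [this, det_one]

theorem base (hROT : S_ROT) (hDISC : S_DISC) (hCAY : S_CAY) (hCAYM : S_CAYM) (hDL : S_DL)
    (k : ℕ) (f : (Sym2 ι → ℂ) → ℂ) (ρ : ℝ) (hf : DifferentiableOn ℂ f (HS ι)) (hρ : 0 ≤ ρ) :
    ENNReal.ofReal (FF k f (iH ι)) * Ik ι k ρ ≤
      ∫⁻ Z in {Z | ρ < dl Z (iH ι)}, ENNReal.ofReal (FF k f Z) ∂μH ι := by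
  obtain ⟨c1, c2, c3, -, c5⟩ := hCAY ι
  obtain ⟨d1, d2, d3, -, d5, d6, -⟩ := hDISC ι
  set u : (Sym2 ι → ℂ) → ℂ := fun ζ => f (cay ζ) * ((1 - mat ζ).det⁻¹) ^ k with hu
  have hud : DifferentiableOn ℂ u (DD ι ρ) := by
    refine DifferentiableOn.mul ?_ (DifferentiableOn.pow ?_ k)
    · exact hf.comp (c2.mono fun ζ hz => sub_zero' hz) fun ζ hz => c1.mapsTo (sub_zero' hz)
    · exact diff_det.differentiableOn.inv fun ζ hz => (d3 ζ (sub_zero' hz)).2.2.2.1.ne_zero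
  have hdl : Continuous fun Z : HH ι => dl Z (iH ι) :=
    (hDL ι).2.2.2.2.2.2.2.1.comp (continuous_id.prodMk continuous_const)
  have e1 := transfer hDISC hCAY hCAYM hDL hρ (fun Z => ENNReal.ofReal (dl Z (iH ι) ^ (2 * k)))
    (fun ζ => ENNReal.ofReal (dd ζ ^ k)) (hdl.pow _).measurable.ennreal_ofReal
    (fun ζ hζ Z hZ => by rw [pow_mul, (c5 ζ hζ Z hZ).2])
  have e2 := transfer hDISC hCAY hCAYM hDL hρ (fun Z => ENNReal.ofReal (FF k f Z))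
    (fun ζ => ‖u ζ‖ₑ ^ 2 * ENNReal.ofReal (dd ζ ^ k))
    (continuous_FF hf.continuousOn).measurable.ennreal_ofReal
    (fun ζ hζ Z hZ => by
      have h0 : ‖(1 - mat ζ).det‖ ≠ 0 := norm_ne_zero_iff.2 (d3 ζ hζ).2.2.2.1.ne_zero
      rw [← ofReal_norm, ← ENNReal.ofReal_pow (norm_nonneg _),
        ← ENNReal.ofReal_mul (sq_nonneg _), ← (c5 ζ hζ Z hZ).1, FF, hZ, hu]
      congr 1
      simp only [norm_mul, norm_pow, norm_inv, mul_pow, inv_pow, ← pow_mul]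
      rw [mul_comm k 2]
      field_simp)
  have e3 := hROT (Sym2 ι) (DD ι ρ) u
    (fun ζ => ENNReal.ofReal ((dd ζ ^ (Fintype.card ι + 1))⁻¹) * ENNReal.ofReal (dd ζ ^ k))
    (d2 ρ) (d5 ρ) hud
    ((d1.pow _).measurable.inv.ennreal_ofReal.mul (d1.pow _).measurable.ennreal_ofReal)
    (fun z c hc => by rw [d6 z c hc])
  have e4 : ENNReal.ofReal (FF k f (iH ι)) = ‖u 0‖ₑ ^ 2 := by
    rw [← ofReal_norm, ← ENNReal.ofReal_pow (norm_nonneg _), FF, det_iH, hu]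
    simp [c3, mat_zero]
  rw [Ik, e1, e2, e4, mul_left_comm]
  refine mul_le_mul_right (e3.trans (le_of_eq ?_)) _
  exact lintegral_congr fun ζ => mul_left_comm _ _ _

end SUB

theorem p_SUB (hROT : S_ROT) (hDISC : S_DISC) (hCAY : S_CAY) (hCAYM : S_CAYM) (hDL : S_DL)
    (hIK : S_IK) (hMEAS : S_MEAS) : S_SUB := by
  intro ι _ _ k f W ρ hf hρ
  obtain ⟨-, -, -, l4, -, -, -, -, l9, -, l11, l12⟩ := hDL ι
  obtain ⟨γ, rfl⟩ := l9 W
  have := (hMEAS ι).1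
  have h := SUB.base hROT hDISC hCAY hCAYM hDL k (slash γ k f) ρ (l11 γ k f hf) hρ
  simp only [l12] at h
  refine h.trans (le_of_eq ?_)
  rw [← (measurePreserving_smul γ (μH ι)).setLIntegral_comp_preimage (SUB.meas_ball hDL ρ _)
    (continuous_FF hf.continuousOn).measurable.ennreal_ofReal]
  simp only [Set.preimage_ofPred_eq, l4]

end Pool.Agent.P.MP_59bdab_ag
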