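import Pool.Agent.P.MP_59bdab_ag.IfB

/-!
Uniform convergence of the Poincare majorant.
-/

namespace Pool.Agent.P.MP_59bdab_ag

open Matrix MeasureTheory Filter Topology
open scoped ENNReal ComplexOrder

namespace SUMD

variable {ι : Type} [Fintype ι] [DecidableEq ι]

/-- The peak function. -/
noncomputable def uu (k : ℕ) (W : HH ι) (z : Sym2 ι → ℂ) : ℂ :=
  ((√(Ym W).det : ℝ) : ℂ) ^ k * ((kd W z)⁻¹) ^ k

theorem FF_uu (k : ℕ) (W Z : HH ι) : FF k (uu k W) Z = dl Z W ^ (2 * k) := by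
  have h1 : dl Z W ^ 2 = (Ym Z).det * (Ym W).det / ‖kd W Z.1‖ ^ 2 := by
    rw [dl, div_pow, Real.sq_sqrt (mul_pos (Ym_det_pos Z) (Ym_det_pos W)).le]
  have h2 : ‖uu k W Z.1‖ ^ 2 = ((Ym W).det / ‖kd W Z.1‖ ^ 2) ^ k := by
    rw [uu, norm_mul, norm_pow, norm_pow, norm_inv, Complex.norm_real,
      Real.norm_of_nonneg (Real.sqrt_nonneg _), ← mul_pow, ← pow_mul, mul_comm k 2, pow_mul,
      mul_pow, Real.sq_sqrt (Ym_det_pos W).le, inv_pow, div_eq_mul_inv]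
  rw [FF, h2, pow_mul, h1, ← mul_pow]
  congr 1
  ring

theorem uu_diff (hDL : S_DL) (k : ℕ) (W : HH ι) : DifferentiableOn ℂ (uu k W) (HS ι) := by
  obtain ⟨h1, h2, -⟩ := hDL ι
  exact (differentiableOn_const _).mul
    (((h1 W).differentiableOn.inv fun z hz => h2 ⟨z, hz⟩ W).pow k)

theorem dl_inv (hDL : S_DL) (γ : SpZ ι) (X W : HH ι) : dl X (γ⁻¹ • W) = dl (γ • X) W := by
  have h := (hDL ι).2.2.2.1 (toR γ) X (γ⁻¹ • W)
  rw [← smulZ_def, ← smulZ_def, smul_inv_smul] at h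
  exact h.symm

theorem cont_dl (hDL : S_DL) (W : HH ι) : Continuous fun X : HH ι => dl X W :=
  (hDL ι).2.2.2.2.2.2.2.1.comp (continuous_id.prodMk continuous_const)

theorem one_term (hSUB : S_SUB) (hDL : S_DL) (k : ℕ) (γ : SpZ ι) (Z W : HH ι) :
    ENNReal.ofReal (dl (γ • Z) W ^ (2 * k)) * Ik ι k (1 / 2) ≤
      ∫⁻ X, {X | 1 / 2 < dl X W}.indicator (1 : HH ι → ℝ≥0∞) (γ • X) *
        ENNReal.ofReal (dl X Z ^ (2 * k)) ∂μH ι := by
  have h := hSUB ι k (uu k Z) (γ⁻¹ • W) (1 / 2) (uu_diff hDL k Z) (by norm_num)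
  have hsym := (hDL ι).2.2.2.2.1
  rw [FF_uu, hsym (γ⁻¹ • W) Z, dl_inv hDL] at h
  refine h.trans (le_of_eq ?_)
  have hm : MeasurableSet {X : HH ι | 1 / 2 < dl X (γ⁻¹ • W)} :=
    (isOpen_lt continuous_const (cont_dl hDL _)).measurableSet
  rw [← lintegral_indicator hm]
  refine lintegral_congr fun X => ?_
  by_cases hX : 1 / 2 < dl (γ • X) W
  · have h1 : X ∈ {X : HH ι | 1 / 2 < dl X (γ⁻¹ • W)} := by
      show 1 / 2 < dl X (γ⁻¹ • W)
      rwa [dl_inv hDL]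
    have h2 : γ • X ∈ {X : HH ι | 1 / 2 < dl X W} := hX
    rw [Set.indicator_of_mem h1, Set.indicator_of_mem h2, FF_uu, Pi.one_apply, one_mul]
  · have h1 : X ∉ {X : HH ι | 1 / 2 < dl X (γ⁻¹ • W)} := by
      show ¬ 1 / 2 < dl X (γ⁻¹ • W)
      rwa [dl_inv hDL]
    have h2 : γ • X ∉ {X : HH ι | 1 / 2 < dl X W} := hX
    rw [Set.indicator_of_notMem h1, Set.indicator_of_notMem h2, zero_mul]

end SUMD

open SUMD in
theorem p_SUMD (hSUB : S_SUB) (hIK : S_IK) (hDL : S_DL) (hMULT : S_MULT) (hQ : S_Q) :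
    S_SUMD := by
  intro ι _ _ s hs
  obtain ⟨n, hn, hM⟩ := (hMULT ι).1 s hs
  obtain ⟨-, hI2, hI3, -, hI5⟩ := hIK ι
  set k := Fintype.card ι + 1 with hk
  have h0 : Ik ι k (1 / 2) ≠ 0 := hI3 k (1 / 2) (by norm_num)
  refine ⟨n * Ik ι k 0 / Ik ι k (1 / 2),
    ENNReal.div_ne_top (ENNReal.mul_ne_top hn hI2) h0, fun W hW Z => ?_⟩
  rw [ENNReal.le_div_iff_mul_le (Or.inl h0) (Or.inr (ENNReal.mul_ne_top hn hI2)),
    ← ENNReal.tsum_mul_right]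
  have hg : Measurable fun X : HH ι => ENNReal.ofReal (dl X Z ^ (2 * k)) :=
    ((cont_dl hDL Z).pow _).measurable.ennreal_ofReal
  have hB : MeasurableSet {X : HH ι | 1 / 2 < dl X W} :=
    (isOpen_lt continuous_const (cont_dl hDL _)).measurableSet
  have hmeas : ∀ γ : SpZ ι, Measurable fun X : HH ι =>
      {X | 1 / 2 < dl X W}.indicator (1 : HH ι → ℝ≥0∞) (γ • X) *
        ENNReal.ofReal (dl X Z ^ (2 * k)) := fun γ =>
    ((measurable_one.indicator hB).comp (measurable_const_smul γ)).mul hg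
  calc ∑' γ : SpZ ι, ENNReal.ofReal (dl (γ • Z) W ^ (2 * k)) * Ik ι k (1 / 2)
      ≤ ∑' γ : SpZ ι, ∫⁻ X, {X | 1 / 2 < dl X W}.indicator (1 : HH ι → ℝ≥0∞) (γ • X) *
        ENNReal.ofReal (dl X Z ^ (2 * k)) ∂μH ι :=
        ENNReal.tsum_le_tsum fun γ => one_term hSUB hDL k γ Z W
    _ = ∫⁻ X, ∑' γ : SpZ ι, {X | 1 / 2 < dl X W}.indicator (1 : HH ι → ℝ≥0∞) (γ • X) *
        ENNReal.ofReal (dl X Z ^ (2 * k)) ∂μH ι :=
        (lintegral_tsum fun γ => (hmeas γ).aemeasurable).symm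
    _ ≤ ∫⁻ X, n * ENNReal.ofReal (dl X Z ^ (2 * k)) ∂μH ι := by
        refine lintegral_mono fun X => ?_
        rw [ENNReal.tsum_mul_right]
        exact mul_le_mul_left (hM W hW X) _
    _ = n * Ik ι k 0 := by rw [lintegral_const_mul _ hg, hI5]

end Pool.Agent.P.MP_59bdab_ag
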