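import Pool.Agent.P.MP_59bdab_ag.IfB

/-! The volume formula of Siegel. -/

namespace Pool.Agent.P.MP_59bdab_ag

open Matrix MeasureTheory Filter Topology
open scoped ENNReal ComplexOrder

namespace SV

theorem int_pow (n : ℕ) {b : ℝ} (hb : 0 ≤ b) :
    ∫⁻ q in Set.Ioi (0 : ℝ), (Set.Iic b).indicator 1 q * ENNReal.ofReal (q ^ n) =
      ENNReal.ofReal (b ^ (n + 1) / (n + 1)) := by
  have h1 : (fun q : ℝ => (Set.Iic b).indicator (1 : ℝ → ℝ≥0∞) q * ENNReal.ofReal (q ^ n)) =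
      (Set.Iic b).indicator fun q => ENNReal.ofReal (q ^ n) := by
    funext q
    by_cases h : q ∈ Set.Iic b <;> simp [h]
  rw [h1, lintegral_indicator measurableSet_Iic, Measure.restrict_restrict measurableSet_Iic,
    Set.Iic_inter_Ioi, ← ofReal_integral_eq_lintegral_ofReal
      ((continuous_pow n).integrableOn_Ioc)
      ((ae_restrict_iff' measurableSet_Ioc).2 (ae_of_all _ fun q hq => pow_nonneg hq.1.le n)),
    ← intervalIntegral.integral_of_le hb, integral_pow]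
  simp

/-- The zeta value. -/
noncomputable def zt (n : ℕ) : ℝ := ∑' l : ℕ, 1 / ((l + 1 : ℕ) : ℝ) ^ (2 * (n + 1))

theorem zt_nonneg (n : ℕ) : 0 ≤ zt n := tsum_nonneg fun _ => by positivity

theorem int_sum (n : ℕ) {R : ℝ} (hR : 0 ≤ R) :
    ∫⁻ q in Set.Ioi (0 : ℝ), (∑' c : ℕ, (Set.Iic (R / ((c + 1 : ℕ) : ℝ) ^ 2)).indicator 1 q) *
      ENNReal.ofReal (q ^ n) = ENNReal.ofReal (R ^ (n + 1) / (n + 1) * zt n) := by
  have h1 : Summable fun l : ℕ => 1 / ((l + 1 : ℕ) : ℝ) ^ (2 * (n + 1)) :=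
    (summable_nat_add_iff (f := fun l : ℕ => 1 / (l : ℝ) ^ (2 * (n + 1))) 1).2
      (Real.summable_one_div_nat_pow.2 (by omega))
  simp only [← ENNReal.tsum_mul_right]
  rw [lintegral_tsum fun c => ((measurable_one.indicator measurableSet_Iic).fun_mul
    (by fun_prop)).aemeasurable, zt, ← tsum_mul_left,
    ENNReal.ofReal_tsum_of_nonneg (fun _ => by positivity) (h1.mul_left _)]
  refine tsum_congr fun c => ?_
  rw [int_pow n (by positivity), div_pow, ← pow_mul]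
  congr 1
  ring

theorem cnt_eq (hEXT : S_EXT) (hQ : S_Q) {ι : Type} [Fintype ι] [DecidableEq ι] (Z : HH ι) {R : ℝ}
    (hR : 0 ≤ R) : cnt (Qm Z) R = 1 + ∑' p : {p : ι ⊕ ι → ℤ | Prim1 p},
      ∑' c : ℕ, (Set.Iic (R / ((c + 1 : ℕ) : ℝ) ^ 2)).indicator 1 (qf (Qm Z) p.1) := by
  have h9 := (hQ ι).2.2.2.2.2.2.2.2.1 Z
  let e : {p : ι ⊕ ι → ℤ | Prim1 p} × ℕ ≃ {x : ℕ × (ι ⊕ ι → ℤ) | Prim1 x.2} :=
    ⟨fun a => ⟨(a.2, a.1.1), a.1.2⟩, fun x => (⟨x.1.2, x.2⟩, x.1.1), fun _ => rfl, fun _ => rfl⟩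
  have h0 : qf (Qm Z) 0 ≤ R := by simpa using (h9 0 0).trans_le (by simpa using hR)
  rw [cnt, ← ENNReal.summable.tsum_add_tsum_compl (s := {0}) ENNReal.summable, tsum_singleton,
    Set.indicator_of_mem (by exact h0), Pi.one_apply, ← ENNReal.tsum_prod]
  congr 1
  refine ((e.trans ((hEXT (ι ⊕ ι)).2.2.2.2.equiv _)).tsum_eq _).symm.trans
    (tsum_congr fun x => ?_)
  have h1 : qf (Qm Z) (((x.2 + 1 : ℕ) : ℤ) • x.1.1) ≤ R ↔
      qf (Qm Z) x.1.1 ≤ R / ((x.2 + 1 : ℕ) : ℝ) ^ 2 := by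
    rw [h9, le_div_iff₀' (by positivity), Int.cast_natCast]
  exact if_congr h1 rfl rfl

theorem meas (hQ : S_Q) {ι : Type} [Fintype ι] [DecidableEq ι] (R : ℝ) :
    Measurable fun Z : HH ι => cnt (Qm Z) R := by
  have h6 := (hQ ι).2.2.2.2.2.1
  refine Measurable.tsum fun v => ?_
  have : MeasurableSet {Z : HH ι | qf (Qm Z) v ≤ R} :=
    (isClosed_le (by unfold qf; fun_prop) continuous_const).measurableSet
  exact measurable_one.indicator this

theorem mean (hUNF1 : S_UNF1) (hEXT : S_EXT) (hPROP : S_PROP) (hQ : S_Q) (n : ℕ)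
    {w : HH (Fin (n + 1)) → ℝ≥0∞} (hw : IsWt (SpZ (Fin (n + 1))) _ w) {R : ℝ} (hR : 0 ≤ R) :
    ∫⁻ Z, cnt (Qm Z) R * w Z ∂μH (Fin (n + 1)) =
      vol (Fin (n + 1)) + vol (Fin n) * ENNReal.ofReal (R ^ (n + 1) / (n + 1) * zt n) := by
  obtain ⟨w₁, h1⟩ := (hPROP (Fin (n + 1))).1 (st1 0)
  have h2 := (hUNF1 _ 0 w w₁ hw h1).2.1
    (fun q => ∑' c : ℕ, (Set.Iic (R / ((c + 1 : ℕ) : ℝ) ^ 2)).indicator 1 q)
    (Measurable.tsum fun _ => measurable_one.indicator measurableSet_Iic)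
  rw [Fintype.card_fin, Nat.add_sub_cancel, int_sum n hR] at h2
  simp only [cnt_eq hEXT hQ _ hR, add_mul, one_mul]
  rw [lintegral_add_left hw.1, (hPROP _).2.2.1 w hw, h2]

theorem ratio (hUNF1 : S_UNF1) (hCNT : S_CNT) (hEXT : S_EXT) (hVFIN : S_VFIN) (hPROP : S_PROP)
    (hQ : S_Q) (n : ℕ) :
    ENNReal.ofReal (Real.pi ^ (n + 1) / (n + 1).factorial) * vol (Fin (n + 1)) =
      vol (Fin n) * ENNReal.ofReal (zt n / (n + 1)) := by
  obtain ⟨w, hw⟩ := (hPROP (Fin (n + 1))).2.1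
  obtain ⟨h1, C, hC, h2⟩ := hCNT (Fin (n + 1) ⊕ Fin (n + 1)) (n + 1) (by simp [two_mul])
  have h3 := (hQ (Fin (n + 1))).1
  have h4 := tendsto_lintegral_filter_of_dominated_convergence (μ := μH (Fin (n + 1)))
    (l := atTop) (F := fun (m : ℕ) Z => cnt (Qm Z) ((m : ℝ) ^ 2) / (m : ℝ≥0∞) ^ (2 * (n + 1)) * w Z)
    (f := fun Z => ENNReal.ofReal (Real.pi ^ (n + 1) / (n + 1).factorial) * w Z)
    (fun Z => C * (cnt (Qm Z) 1 * w Z))
    (Eventually.of_forall fun m => ((meas hQ _).div_const _).mul hw.1) ?_ ?_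
    (ae_of_all _ fun Z => ENNReal.Tendsto.mul_const (h1 _ (h3 Z).1 (h3 Z).2)
      (Or.inl (ENNReal.ofReal_pos.2 (by positivity)).ne'))
  · rw [lintegral_const_mul _ hw.1, (hPROP _).2.2.1 w hw] at h4
    refine tendsto_nhds_unique h4 ?_
    have h5 := (ENNReal.Tendsto.mul_const (ENNReal.Tendsto.pow (n := 2 * (n + 1))
      ENNReal.tendsto_inv_nat_nhds_zero) (Or.inr (hVFIN.1 (Fin (n + 1))))).add_const
      (vol (Fin n) * ENNReal.ofReal (zt n / (n + 1)))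
    rw [zero_pow (by omega), zero_mul, zero_add] at h5
    refine h5.congr' ?_
    filter_upwards [eventually_gt_atTop 0] with m hm
    have h6 : (m : ℝ≥0∞) ^ (2 * (n + 1)) ≠ 0 := pow_ne_zero _ (by exact_mod_cast hm.ne')
    have h7 : ENNReal.ofReal (((m : ℝ) ^ 2) ^ (n + 1) / (n + 1) * zt n) =
        (m : ℝ≥0∞) ^ (2 * (n + 1)) * ENNReal.ofReal (zt n / (n + 1)) := by
      rw [← ENNReal.ofReal_natCast m, ← ENNReal.ofReal_pow m.cast_nonneg,
        ← ENNReal.ofReal_mul (by positivity), ← pow_mul]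
      congr 1
      ring
    simp only [ENNReal.div_eq_inv_mul, mul_assoc]
    rw [lintegral_const_mul _ ((meas hQ _).fun_mul hw.1), mean hUNF1 hEXT hPROP hQ n hw (sq_nonneg _),
      h7, mul_add _ (vol _), mul_left_comm (vol (Fin n)), ← ENNReal.inv_pow,
      ENNReal.inv_mul_cancel_left h6 (by finiteness)]
  · filter_upwards [eventually_ge_atTop 1] with m hm
    refine ae_of_all _ fun Z => ?_
    rw [← mul_assoc]
    gcongr
    refine ENNReal.div_le_of_le_mul ((h2 _ (h3 Z).1 m hm).trans_eq ?_)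
    rw [mul_right_comm]
  · rw [lintegral_const_mul _ ((meas hQ _).fun_mul hw.1), mean hUNF1 hEXT hPROP hQ n hw zero_le_one]
    exact ENNReal.mul_ne_top hC (ENNReal.add_ne_top.2 ⟨hVFIN.1 _,
      ENNReal.mul_ne_top (hVFIN.1 _) ENNReal.ofReal_ne_top⟩)

theorem tri_succ (n : ℕ) : tri (n + 1) = tri n + (n + 1) := by
  rw [tri, tri, show (n + 1) * (n + 1 + 1) = n * (n + 1) + (n + 1) * 2 by ring,
    Nat.add_mul_div_right _ _ two_pos]

end SV

theorem p_SV (hUNF1 : S_UNF1) (hCNT : S_CNT) (hEXT : S_EXT) (hVFIN : S_VFIN) (hPROP : S_PROP)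
    (hQ : S_Q) : S_SV := by
  intro n
  induction n with
  | zero => simp [hVFIN.2, cg, hh, tri]
  | succ n ih =>
    have h1 := congrArg ENNReal.toReal (SV.ratio hUNF1 hCNT hEXT hVFIN hPROP hQ n)
    have h2 := SV.zt_nonneg n
    rw [ENNReal.toReal_mul, ENNReal.toReal_mul, ENNReal.toReal_ofReal (by positivity),
      ENNReal.toReal_ofReal (by positivity), Nat.factorial_succ] at h1
    have h3 : (vol (Fin (n + 1))).toReal =
        (vol (Fin n)).toReal * SV.zt n * n.factorial / Real.pi ^ (n + 1) := by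
      push_cast at h1
      field_simp at h1 ⊢
      linarith
    rw [hh, Finset.prod_range_succ, ← hh, ← ih, h3, cg, cg, SV.tri_succ, ← SV.zt,
      pow_add (2 * Real.pi), pow_succ 2]
    field_simp

end Pool.Agent.P.MP_59bdab_ag
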