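import Pool.Agent.P.MP_59bdab_ag.IfB

/-! The regions `RR` shrink to the set of lattices with a short vector. -/

namespace Pool.Agent.P.MP_59bdab_ag

open Matrix MeasureTheory Filter Topology
open scoped ENNReal ComplexOrder

namespace TIE

variable {ι : Type} [Fintype ι] [DecidableEq ι]

/-- The vector `v` is short and almost minimal. -/
def A (s ε : ℝ) (v : ι ⊕ ι → ℤ) : Set (HH ι) :=
  {Z | qf (Qm Z) v ≤ s + ε ∧ ∀ y : ι ⊕ ι → ℤ, y ≠ 0 → qf (Qm Z) v - 2 * ε ≤ qf (Qm Z) y}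

theorem closed (hQ : S_Q) (s ε : ℝ) (v : ι ⊕ ι → ℤ) : IsClosed (A s ε v) := by
  have hc : ∀ y : ι ⊕ ι → ℤ, Continuous fun Z : HH ι => qf (Qm Z) y := fun y =>
    continuous_const.dotProduct ((hQ ι).2.2.2.2.2.1.matrix_mulVec continuous_const)
  simp only [A, Set.ofPred_and, Set.ofPred_forall]
  refine (isClosed_le (hc v) continuous_const).inter ?_
  exact isClosed_iInter fun y => isClosed_iInter fun _ =>
    isClosed_le ((hc v).sub continuous_const) (hc y)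

theorem back (γ : SpZ ι) (v : ι ⊕ ι → ℤ) : (γ⁻¹).1 *ᵥ (γ.1 *ᵥ v) = v := by
  have e : (γ⁻¹).1 * γ.1 = 1 := congrArg Subtype.val (inv_mul_cancel γ)
  rw [mulVec_mulVec, e, one_mulVec]

theorem mv (hQ : S_Q) {s ε : ℝ} (γ : SpZ ι) (Z : HH ι) (v : ι ⊕ ι → ℤ)
    (h : γ • Z ∈ A s ε (γ.1 *ᵥ v)) : Z ∈ A s ε v := by
  have q3 := (hQ ι).2.2.1 γ Z
  refine ⟨q3 v ▸ h.1, fun y hy => ?_⟩
  rw [← q3 v, ← q3 y]
  exact h.2 _ fun h0 => hy (by rw [← back γ y, h0, mulVec_zero])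

theorem mv_iff (hQ : S_Q) {s ε : ℝ} (γ : SpZ ι) (Z : HH ι) (v : ι ⊕ ι → ℤ) :
    γ • Z ∈ A s ε (γ.1 *ᵥ v) ↔ Z ∈ A s ε v :=
  ⟨mv hQ γ Z v, fun h => mv hQ γ⁻¹ _ _ (by rwa [inv_smul_smul, back])⟩

theorem prim_ne {n : Type} {p : n → ℤ} (hp : Prim1 p) : p ≠ 0 := by
  rintro rfl
  obtain ⟨z, hz⟩ := hp (fun _ => 1 / 2) (fun _ => ⟨0, by simp⟩) 0
  have h : (2 * z : ℚ) = 1 := by rw [← hz]; norm_num
  have h' : 2 * z = 1 := by exact_mod_cast h
  omega

theorem zero (hUNF1 : S_UNF1) (hPOLY : S_POLY) (hQ : S_Q) (i : ι) {w w₁ : HH ι → ℝ≥0∞}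
    {s s' : ℝ} (hw : IsWt (SpZ ι) (HH ι) w) (hw₁ : IsWt (st1 i) (HH ι) w₁) (h0 : 0 < s')
    (h1 : s < s') (h2 : s' ≤ 1) : mass w₁ (A s 0 (ev i)) ≤ 2 * mass w (Short ι s') := by
  classical
  have hm : ∀ v : ι ⊕ ι → ℤ, MeasurableSet (A s 0 v) := fun v => (closed hQ s 0 v).measurableSet
  have hS : MeasurableSet (Short ι s') := ((hQ ι).2.2.2.2.2.2.2.2.2.1 s').measurableSet
  have h := (hUNF1 ι i w w₁ hw hw₁).1 (fun Z v => (A s 0 v).indicator 1 Z)
    (fun v => measurable_one.indicator (hm v)) fun γ Z v => by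
      simp only [Set.indicator_apply, mv_iff hQ, Pi.one_apply]
  have e : mass w₁ (A s 0 (ev i)) = ∫⁻ Z, (A s 0 (ev i)).indicator 1 Z * w₁ Z ∂μH ι := by
    rw [mass, ← lintegral_indicator (hm _)]
    refine lintegral_congr fun Z => ?_
    by_cases hZ : Z ∈ A s 0 (ev i) <;> simp [hZ]
  rw [e, h, mass, ← lintegral_indicator hS, ← lintegral_const_mul' _ _ (by simp)]
  refine lintegral_mono_ae ?_
  filter_upwards [(ae_withDensity_iff hw.1).1 (hPOLY ι w s' hw h0 h2).1] with Z hZ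
  by_cases hw0 : w Z = 0
  · simp [hw0]
  by_cases hu : ∃ u, Prim1 u ∧ Z ∈ A s 0 u
  · obtain ⟨u, u1, u2, u3⟩ := hu
    have u0 := prim_ne u1
    have u4 : qf (Qm Z) u < s' := by linarith
    have hs : Z ∈ Short ι s' := ⟨u, u0, u4⟩
    rw [Set.indicator_of_mem hs]
    refine mul_le_mul_left ?_ _
    calc _ ≤ ∑' p : {p : ι ⊕ ι → ℤ | Prim1 p},
          ((if p.1 = u then 1 else 0) + if p.1 = -u then 1 else 0 : ℝ≥0∞) := by
          refine ENNReal.tsum_le_tsum fun p => ?_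
          by_cases hp : Z ∈ A s 0 p.1
          · have p0 := prim_ne p.2
            have a1 := hp.2 u u0
            have a2 := u3 p.1 p0
            rw [Set.indicator_of_mem hp]
            rcases hZ hw0 u p.1 u0 p0 u4 (fun y hy => by simpa using u3 y hy)
              (by linarith) with e1 | e1
            · rw [if_pos e1]
              exact le_self_add
            · rw [if_pos e1]
              exact le_add_self
          · rw [Set.indicator_of_notMem hp]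
            exact zero_le
      _ ≤ ∑' v : ι ⊕ ι → ℤ, ((if v = u then 1 else 0) + if v = -u then 1 else 0 : ℝ≥0∞) :=
          ENNReal.tsum_comp_le_tsum_of_injective Subtype.val_injective
            fun v => (if v = u then 1 else 0) + if v = -u then 1 else 0
      _ = 2 := by rw [ENNReal.tsum_add, tsum_ite_eq, tsum_ite_eq, one_add_one_eq_two]
  · have e0 : ∀ p : {p : ι ⊕ ι → ℤ | Prim1 p}, (A s 0 p.1).indicator (1 : HH ι → ℝ≥0∞) Z = 0 :=
      fun p => Set.indicator_of_notMem (fun hp => hu ⟨p.1, p.2, hp⟩) _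
    simp [e0]

end TIE

theorem p_TIE (hUNF1 : S_UNF1) (hPOLY : S_POLY) (hVFIN : S_VFIN) (hPROP : S_PROP) (hQ : S_Q) :
    S_TIE := by
  intro ι _ _ i w w₁ s s' hw hw₁ h0 h1 h2 δ hδ ε0 hε
  have hz := TIE.zero hUNF1 hPOLY hQ i hw hw₁ h0 h1 h2
  have hf : mass w (Short ι s') ≠ ⊤ :=
    ne_top_of_le_ne_top (((hPROP ι).2.2.1 w hw).trans_ne (hVFIN.1 ι))
      (setLIntegral_le_lintegral _ _)
  have hf2 : 2 * mass w (Short ι s') ≠ ⊤ := ENNReal.mul_ne_top (by simp) hf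
  have hm : ∀ ε, MeasurableSet (TIE.A s ε (ev i)) := fun ε =>
    (TIE.closed hQ s ε _).measurableSet
  have e : ∀ ε, (μH ι).withDensity w₁ (TIE.A s ε (ev i)) = mass w₁ (TIE.A s ε (ev i)) :=
    fun ε => withDensity_apply _ (hm ε)
  have hl : Tendsto (fun n : ℕ => ε0 / ((n : ℝ) + 2)) atTop (𝓝 0) :=
    tendsto_const_nhds.div_atTop (tendsto_atTop_add_const_right _ _ tendsto_natCast_atTop_atTop)
  have ht := tendsto_measure_iInter_atTop (μ := (μH ι).withDensity w₁)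
    (s := fun n : ℕ => TIE.A s (ε0 / ((n : ℝ) + 2)) (ev i))
    (fun n => (hm _).nullMeasurableSet) (fun m n hmn Z hZ => by
      have a0 : (m : ℝ) ≤ n := Nat.cast_le.2 hmn
      have a1 : ε0 / ((n : ℝ) + 2) ≤ ε0 / ((m : ℝ) + 2) :=
        div_le_div_of_nonneg_left hε.le (by positivity) (by linarith)
      exact ⟨by linarith [hZ.1], fun y hy => by linarith [hZ.2 y hy]⟩)
    ⟨0, by
      rw [e]
      exact ne_top_of_le_ne_top (((hUNF1 ι i w w₁ hw hw₁).2.2 (hVFIN.1 _)).2 _)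
        (lintegral_mono_set fun Z hZ => hZ.1)⟩
  have hsub : (⋂ n : ℕ, TIE.A s (ε0 / ((n : ℝ) + 2)) (ev i)) ⊆ TIE.A s 0 (ev i) := fun Z hZ => by
    rw [Set.mem_iInter] at hZ
    exact ⟨ge_of_tendsto' (tendsto_const_nhds.add hl) fun n => (hZ n).1, fun y hy =>
      le_of_tendsto' (tendsto_const_nhds.sub (hl.const_mul 2)) fun n => (hZ n).2 y hy⟩
  have hlt := ((measure_mono hsub).trans ((e 0).le.trans hz)).trans_lt
    (ENNReal.lt_add_right hf2 (ENNReal.ofReal_pos.2 hδ).ne')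
  obtain ⟨n, hn⟩ := (ht.eventually_lt_const hlt).exists
  refine ⟨ε0 / ((n : ℝ) + 2), by positivity, div_lt_self hε ?_, ?_⟩
  · linarith [Nat.cast_nonneg (α := ℝ) n]
  · have h3 := ENNReal.toReal_mono (ENNReal.add_ne_top.2 ⟨hf2, ENNReal.ofReal_ne_top⟩)
      ((e _).ge.trans hn.le)
    rwa [ENNReal.toReal_add hf2 ENNReal.ofReal_ne_top, ENNReal.toReal_mul,
      ENNReal.toReal_ofReal hδ.le, ENNReal.toReal_ofNat] at h3

end Pool.Agent.P.MP_59bdab_ag
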