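import Pool.Agent.P.MP_59bdab_ag.IfB

/-!
Real translations in one diagonal entry.
-/

namespace Pool.Agent.P.MP_59bdab_ag

open Matrix MeasureTheory Filter Topology Set

namespace TR

variable {ι : Type} [Fintype ι] [DecidableEq ι]

/-- The translation matrix. -/
def tr (i : ι) (t : ℝ) : SpR ι :=
  ⟨fromBlocks 1 (Matrix.single i i t) 0 1, SymplecticGroup.fromBlocks_mem_iff.mpr (by
    simp [Matrix.transpose_single])⟩

theorem tr_val (i : ι) (t : ℝ) :
    (tr i t).1 = 1 + Matrix.single (Sum.inl i) (Sum.inr i) t := by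
  ext a b
  rcases a with a | a <;> rcases b with b | b <;>
    simp [tr, Matrix.single, Matrix.one_apply]

theorem den_tr (i : ι) (t : ℝ) (z : Sym2 ι → ℂ) : den (tr i t).1 z = 1 := by
  simp [den, tr]

theorem num_tr (i : ι) (t : ℝ) (z : Sym2 ι → ℂ) :
    num (tr i t).1 z = mat (z + Pi.single s(i, i) (t : ℂ)) := by
  rw [mat_add]
  simp only [num, tr, toBlocks_fromBlocks₁₁, toBlocks_fromBlocks₁₂, cm_one, Matrix.one_mul]
  congr 1
  ext a b
  by_cases ha : a = i <;> by_cases hb : b = i <;>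
    simp [Matrix.single, ha, hb, Ne.symm]

theorem tr_smul (i : ι) (t : ℝ) (Z : HH ι) :
    tr i t • Z = ⟨Z.1 + Pi.single s(i, i) (t : ℂ), add_single_mem Z.2 _ t⟩ := by
  rw [smul_eq_iff, den_tr, num_tr, Matrix.mul_one]

theorem jf_tr (i : ι) (t : ℝ) (Z : HH ι) : jf (tr i t) Z = 1 := by
  rw [jf, den_tr, det_one]

theorem comm (hLAG : S_LAG) (i : ι) (t : ℝ) {γ : SpZ ι} (hγ : γ ∈ st1 i) :
    toR γ * tr i t = tr i t * toR γ := by
  have h0 : γ.1 *ᵥ ev i = ev i := mem_st1.mp hγ
  have hc : ∀ a, γ.1 a (Sum.inl i) = if a = Sum.inl i then 1 else 0 := by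
    intro a
    have := congrFun h0 a
    simpa [ev, Pi.single_apply] using this
  have hr : ∀ b, γ.1 (Sum.inr i) b = if b = Sum.inr i then 1 else 0 := by
    intro b
    have h1 := (hLAG ι).2.2.1 γ (ev i) (Pi.single b 1)
    rw [h0, (hLAG ι).2.2.2.1, (hLAG ι).2.2.2.1] at h1
    simpa [Pi.single_apply, eq_comm] using h1
  apply Subtype.ext
  rw [Submonoid.coe_mul, Submonoid.coe_mul, tr_val, Matrix.mul_add, Matrix.add_mul,
    Matrix.mul_one, Matrix.one_mul]
  congr 1
  ext a b
  by_cases ha : a = Sum.inl i <;> by_cases hb : b = Sum.inr i <;>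
    simp [ha, hb, hc, hr]

end TR

open TR in
theorem p_TR (hLAG : S_LAG) : S_TR := by
  intro ι _ _ i
  refine ⟨tr i, fun t Z => ⟨by rw [tr_smul], jf_tr i t Z, ?_⟩, fun t γ hγ => comm hLAG i t hγ,
    fun t γ hγ Z => ?_, ?_⟩
  · rw [tr_smul]
    ext a b
    by_cases h : s(a, b) = s(i, i)
    · simp only [Ym, mat_apply, Pi.add_apply, h]; simp
    · simp only [Ym, mat_apply, Pi.add_apply, Pi.single_eq_of_ne h, add_zero]
  · have h := congrArg (fun δ => jf δ Z) (comm hLAG i t hγ)
    simpa only [jf_mul, jf_tr, mul_one, one_mul] using h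
  · simp only [tr_smul]
    refine Continuous.subtype_mk ?_ _
    refine (continuous_subtype_val.comp continuous_snd).add ?_
    refine continuous_pi fun q => ?_
    by_cases h : q = s(i, i)
    · subst h
      simp only [Pi.single_eq_same]
      exact Complex.continuous_ofReal.comp continuous_fst
    · simpa [h] using continuous_const

end Pool.Agent.P.MP_59bdab_ag
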