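import Pool.Agent.P.MP_59bdab_ag.IfA

/-! Change of variables for a triangular map. -/

namespace Pool.Agent.P.MP_59bdab_ag

open Matrix MeasureTheory Filter Topology
open scoped ENNReal ComplexOrder

namespace TRIJ

theorem det_tri {κ : Type} [Fintype κ] [i : DecidableEq κ] {rk : κ → ℕ}
    (h : Function.Injective rk) (M : Matrix κ κ ℝ) (hM : ∀ α β, rk α < rk β → M α β = 0) :
    M.det = ∏ α, M α α := by
  let o : LinearOrder κ := LinearOrder.lift' rk h
  exact Matrix.det_of_isLowerTriangular M fun α β e => hM α β e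

theorem entry {κ : Type} [Fintype κ] [DecidableEq κ] {F : (κ → ℝ) → κ → ℝ}
    (hF : Differentiable ℝ F) (x : κ → ℝ) (α β : κ) (a : ℝ)
    (h : ∀ t : ℝ, F (x + Pi.single β t) α = F x α + t * a) :
    fderiv ℝ F x (Pi.single β 1) α = a := by
  have h1 := hasDerivAt_pi.1 ((hF x).hasFDerivAt.hasLineDerivAt (Pi.single β 1)) α
  have h2 : HasDerivAt (fun t : ℝ => F x α + t * a) a 0 := by
    simpa using ((hasDerivAt_id (0 : ℝ)).mul_const a).const_add (F x α)
  refine h1.unique (h2.congr_of_eventuallyEq (Eventually.of_forall fun t => ?_))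
  simp only [← h, ← Pi.single_smul', smul_eq_mul, mul_one]

end TRIJ

theorem p_TRIJ : S_TRIJ := by
  intro κ _ _ rk F c s hrk hF hs hi h1 h2
  have hd : ∀ x ∈ s, HasFDerivWithinAt F (fderiv ℝ F x) s x := fun x _ =>
    (hF x).hasFDerivAt.hasFDerivWithinAt
  refine ⟨measurable_image_of_fderivWithin hs hd hi, fun φ => ?_⟩
  rw [lintegral_image_eq_lintegral_abs_det_fderiv_mul volume hs hd hi]
  refine lintegral_congr fun x => ?_
  rw [ContinuousLinearMap.det, ← LinearMap.det_toMatrix', TRIJ.det_tri hrk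
    (LinearMap.toMatrix' (fderiv ℝ F x : (κ → ℝ) →ₗ[ℝ] κ → ℝ)) fun α β e =>
    TRIJ.entry hF x α β 0 fun t => by rw [h1 x α β t e, mul_zero, add_zero]]
  congr 3
  exact Finset.prod_congr rfl fun α _ => TRIJ.entry hF x α α _ (h2 x α)

end Pool.Agent.P.MP_59bdab_ag
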