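import Pool.Agent.P.MP_59bdab_ag.IfB

/-!
Unfolding over primitive isotropic frames.
-/

namespace Pool.Agent.P.MP_59bdab_ag

open Matrix MeasureTheory Filter Topology
open scoped ENNReal ComplexOrder

namespace UNF

theorem reindex_mulVec {a b R : Type} [Fintype a] [Fintype b] [CommRing R] (σ : a ≃ b)
    (M : Matrix a a R) (v : a → R) :
    reindex σ σ M *ᵥ (v ∘ σ.symm) = (M *ᵥ v) ∘ σ.symm := by
  rw [reindex_apply, submatrix_mulVec_equiv, Equiv.symm_symm, Function.comp_assoc,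
    Equiv.symm_comp_self, Function.comp_id]

theorem gram_reindex {a b κ : Type} [Fintype a] [Fintype b] (σ : a ≃ b) (Q : Matrix a a ℝ)
    (v : κ → a → ℤ) : gram (reindex σ σ Q) (fun i => v i ∘ σ.symm) = gram Q v := by
  ext i j
  show (cz (v i) ∘ σ.symm) ⬝ᵥ reindex σ σ Q *ᵥ (cz (v j) ∘ σ.symm) = cz (v i) ⬝ᵥ Q *ᵥ cz (v j)
  rw [reindex_mulVec, comp_equiv_dotProduct_comp_equiv]

theorem ev_comp {ι ι' : Type} [DecidableEq ι] [DecidableEq ι'] (e : ι ≃ ι') (i : ι') :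
    ev (e.symm i) ∘ (e.sumCongr e).symm = ev i := by
  funext a
  rcases a with a | a <;> simp [ev, Pi.single_apply]

theorem meas_gram {ι κ : Type} [Fintype ι] [DecidableEq ι] [Fintype κ] (hQ : S_Q)
    (v : κ → ι ⊕ ι → ℤ) : Measurable fun Z : HH ι => coord (gram (Qm Z) v) := by
  refine Continuous.measurable (continuous_coord.comp ?_)
  refine continuous_pi fun a => continuous_pi fun b => ?_
  exact continuous_const.dotProduct ((hQ ι).2.2.2.2.2.1.matrix_mulVec continuous_const)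

end UNF

open UNF in
theorem p_UNF (hBLKW : S_BLKW) (hBLKM : S_BLKM) (hREIDX : S_REIDX) (hWT : S_WT) (hLAG : S_LAG)
    (hPROP : S_PROP) (hMEAS : S_MEAS) (hQ : S_Q) : S_UNF := by
  intro ι _ _ r w β hr hw hβ
  have := (hMEAS ι).2.1
  let e : ι ≃ Fin (Fintype.card ι - r) ⊕ Fin r := Fintype.equivOfCardEq (by simp; omega)
  obtain ⟨Φ, ψ, h1, h2, h3, h4, -⟩ := hREIDX _ _ e
  obtain ⟨w', hw'⟩ := (hPROP (Fin (Fintype.card ι - r))).2.1
  have hB := hBLKW _ (Fin r) w' hw'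
  let e0 : Fin r → ι ⊕ ι → ℤ := fun a => ev (e.symm (Sum.inr a))
  have hmem : ∀ γ : SpZ ι, γ ∈ stab e0 ↔
      ψ γ ∈ stab fun a : Fin r => ev (Sum.inr a : Fin (Fintype.card ι - r) ⊕ Fin r) := by
    intro γ
    show (fun a => γ.1 *ᵥ e0 a) = e0 ↔ (fun a : Fin r => (ψ γ).1 *ᵥ ev (Sum.inr a)) =
      fun a : Fin r => ev (Sum.inr a : Fin (Fintype.card ι - r) ⊕ Fin r)
    rw [h3, funext_iff, funext_iff]
    refine forall_congr' fun a => ?_
    rw [← ev_comp e, reindex_mulVec]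
    exact ((e.sumCongr e).symm.surjective.injective_comp_right.eq_iff).symm
  have hw1 : IsWt (stab e0) (HH ι) (fun Z => wB w' (Φ Z)) := by
    refine ⟨hB.1.comp Φ.measurable, fun Z => ?_⟩
    rw [← hB.2 (Φ Z), ← (Equiv.subtypeEquiv ψ.toEquiv hmem).tsum_eq]
    refine tsum_congr fun γ => ?_
    exact congrArg (wB w') (h2 γ.1 Z)
  have h5 := (hWT (SpZ ι) (HH ι) (μH ι) w hw).2.2 (Fin r → ι ⊕ ι → ℤ)
    (fun γ v b => γ.1 *ᵥ v b) e0 {p | Prim p ∧ Iso p} (stab e0) _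
    (fun Z v => β (coord (gram (Qm Z) v))) (fun y => by simp)
    (fun γ δ y => by simp only [Submonoid.coe_mul, mulVec_mulVec])
    (fun y => (hLAG ι).2.2.2.2.2 (Fin r) ⟨fun a => e.symm (Sum.inr a),
      e.symm.injective.comp Sum.inr_injective⟩ y)
    (fun γ => Iff.rfl) hw1 (fun y => hβ.comp (meas_gram hQ y))
    (fun γ Z y => by rw [(hQ ι).2.2.2.1])
  have h6 := hBLKM _ (Fin r) w' β hw'.1 hβ
  rw [(hPROP _).2.2.1 w' hw', Fintype.card_fin, ← h1.lintegral_comp_emb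
    Φ.measurableEmbedding] at h6
  rw [← h5, ← h6]
  refine lintegral_congr fun Z => ?_
  simp only [h4, ← ev_comp e, gram_reindex]
  rfl

end Pool.Agent.P.MP_59bdab_ag
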