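import Pool.Agent.P.MP_59bdab_ag.IfB

/-!
Unfolding over primitive vectors.
-/

namespace Pool.Agent.P.MP_59bdab_ag

open Matrix MeasureTheory Filter Topology
open scoped ENNReal ComplexOrder

namespace UNF1

theorem om_self {ι : Type} [Fintype ι] [DecidableEq ι] (v : ι ⊕ ι → ℤ) : om v v = 0 := by
  have h : om v v = -om v v := by
    conv_lhs => rw [om, dotProduct_mulVec, ← mulVec_transpose, J_transpose, neg_mulVec,
      neg_dotProduct, dotProduct_comm]
    rfl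
  omega

theorem one_dim (β : ℝ → ℝ≥0∞) (m : ℕ) :
    ∫⁻ q in PD (Fin 1), β (q s(0, 0)) * ENNReal.ofReal ((mat q).det ^ m) =
      ∫⁻ q in Set.Ioi (0 : ℝ), β q * ENNReal.ofReal (q ^ m) := by
  have h := volume_preserving_funUnique (Sym2 (Fin 1)) ℝ
  have h1 := h.setLIntegral_comp_preimage_emb (MeasurableEquiv.measurableEmbedding _)
    (fun q => β q * ENNReal.ofReal (q ^ m)) (Set.Ioi 0)
  have h2 : ∀ q : Sym2 (Fin 1) → ℝ, MeasurableEquiv.funUnique (Sym2 (Fin 1)) ℝ q = q s(0, 0) :=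
    fun q => congrArg q (Subsingleton.elim _ _)
  have h3 : MeasurableEquiv.funUnique (Sym2 (Fin 1)) ℝ ⁻¹' Set.Ioi 0 = PD (Fin 1) := by
    ext q
    have h4 : mat q = diagonal fun _ => q s(0, 0) := by
      ext i j
      rw [Subsingleton.elim i 0, Subsingleton.elim j 0, diagonal_apply_eq, mat_apply]
    rw [Set.mem_preimage, h2, PD, Set.mem_ofPred_eq, h4, posDef_diagonal_iff]
    exact ⟨fun h _ => h, fun h => h 0⟩
  rw [← h1, h3]
  simp only [h2, det_fin_one, mat_apply]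
  have h5 : (Unique.fintype : Fintype (Sym2 (Fin 1))) =
      (inferInstance : Fintype (Sym2 (Fin 1))) := Subsingleton.elim _ _
  rw [h5]

theorem fin (m : ℕ) {a : ℝ} (β : ℝ → ℝ≥0∞)
    (hβ : ∀ q > 0, β q ≤ ENNReal.ofReal (min 1 ((a / q) ^ (m + 2)))) :
    ∫⁻ q in Set.Ioi (0 : ℝ), β q * ENNReal.ofReal (q ^ m) ≠ ⊤ := by
  rw [← Set.Ioc_union_Ioi_eq_Ioi zero_le_one]
  refine ((lintegral_union_le _ _ _).trans_lt (ENNReal.add_lt_top.2 ⟨?_, ?_⟩)).ne
  · refine (setLIntegral_mono' measurableSet_Ioc (g := fun _ => 1) fun q hq => ?_).trans_lt ?_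
    · refine mul_le_one' ((hβ q hq.1).trans ?_) ?_
      · exact ENNReal.ofReal_le_one.2 (min_le_left _ _)
      · exact ENNReal.ofReal_le_one.2 (pow_le_one₀ hq.1.le hq.2)
    · simp
  · have h := ((integrableOn_Ioi_rpow_of_lt (a := -2) (c := 1) (by norm_num) one_pos).const_mul
      (a ^ (m + 2))).lintegral_lt_top
    refine (setLIntegral_mono' measurableSet_Ioi fun q hq => ?_).trans_lt h
    have hq0 : 0 < q := one_pos.trans hq
    refine (mul_le_mul_left ((hβ q hq0).trans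
      (ENNReal.ofReal_le_ofReal (min_le_right _ _))) _).trans (le_of_eq ?_)
    rw [← ENNReal.ofReal_mul' (by positivity), Real.rpow_neg hq0.le, Real.rpow_two]
    congr 1
    rw [div_pow]
    field_simp
    ring

end UNF1

theorem p_UNF1 (hUNF : S_UNF) (hWT : S_WT) (hLAG : S_LAG) (hMEAS : S_MEAS) (hQ : S_Q) :
    S_UNF1 := by
  intro ι _ _ i w w₁ hw hw₁
  have := (hMEAS ι).2.1
  have hcard : 1 ≤ Fintype.card ι := Fintype.card_pos_iff.2 ⟨i⟩
  have h1 : ∀ Φ : HH ι → (ι ⊕ ι → ℤ) → ℝ≥0∞, (∀ v, Measurable fun Z => Φ Z v) →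
      (∀ (γ : SpZ ι) Z v, Φ (γ • Z) (γ.1 *ᵥ v) = Φ Z v) →
      ∫⁻ Z, Φ Z (ev i) * w₁ Z ∂μH ι =
        ∫⁻ Z, (∑' p : {p : ι ⊕ ι → ℤ | Prim1 p}, Φ Z p.1) * w Z ∂μH ι := by
    intro Φ hm hΦ
    refine (hWT (SpZ ι) (HH ι) (μH ι) w hw).2.2 _ (fun γ v => γ.1 *ᵥ v) (ev i) _ (st1 i) w₁ Φ
      (fun y => one_mulVec y) (fun γ δ y => (mulVec_mulVec y γ.1 δ.1).symm) (fun y => ?_)
      (fun γ => mem_st1) hw₁ hm hΦ
    have h := (hLAG ι).2.2.2.2.2 (Fin 1) ⟨fun _ => i, fun _ _ _ => Subsingleton.elim _ _⟩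
      fun _ => y
    exact ⟨fun hy => (h.1 ⟨hy, fun _ _ => UNF1.om_self y⟩).imp fun γ hγ => congrFun hγ 0,
      fun ⟨γ, hγ⟩ => (h.2 ⟨γ, funext fun _ => hγ⟩).1⟩
  have h2 : ∀ β : ℝ → ℝ≥0∞, Measurable β →
      ∫⁻ Z, (∑' p : {p : ι ⊕ ι → ℤ | Prim1 p}, β (qf (Qm Z) p.1)) * w Z ∂μH ι =
        vol (Fin (Fintype.card ι - 1)) *
          ∫⁻ q in Set.Ioi (0 : ℝ), β q * ENNReal.ofReal (q ^ (Fintype.card ι - 1)) := by
    intro β hβ
    rw [← UNF1.one_dim, ← hUNF ι 1 w (fun q => β (q s(0, 0))) hcard hw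
      (hβ.comp (measurable_pi_apply _))]
    refine lintegral_congr fun Z => ?_
    let e : {p : ι ⊕ ι → ℤ | Prim1 p} ≃ {p : Fin 1 → ι ⊕ ι → ℤ | Prim p ∧ Iso p} :=
      { toFun := fun p => ⟨fun _ => p.1, p.2, fun _ _ => UNF1.om_self _⟩
        invFun := fun p => ⟨p.1 0, by
          have h : (fun _ : Fin 1 => p.1 0) = p.1 :=
            funext fun a => congrArg p.1 (Subsingleton.elim _ _)
          change Prim fun _ : Fin 1 => p.1 0
          rw [h]
          exact p.2.1⟩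
        left_inv := fun p => rfl
        right_inv := fun p =>
          Subtype.ext (funext fun a => congrArg p.1 (Subsingleton.elim _ _)) }
    rw [← e.tsum_eq]
    refine congrArg (· * w Z) (tsum_congr fun p => congrArg β ?_)
    exact (add_self_div_two _).symm
  have hm : ∀ v : ι ⊕ ι → ℤ, Measurable fun Z : HH ι => qf (Qm Z) v := fun v =>
    (continuous_const.dotProduct ((hQ ι).2.2.2.2.2.1.matrix_mulVec continuous_const)).measurable
  have h3 : ∀ (β : ℝ → ℝ≥0∞) (a : ℝ), Measurable β → vol (Fin (Fintype.card ι - 1)) ≠ ⊤ →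
      (∀ q > 0, β q ≤ ENNReal.ofReal (min 1 ((a / q) ^ (Fintype.card ι + 1)))) →
      ∫⁻ Z, β (qf (Qm Z) (ev i)) * w₁ Z ∂μH ι ≠ ⊤ := by
    intro β a hβ hv hb
    rw [h1 (fun Z v => β (qf (Qm Z) v)) (fun v => hβ.comp (hm v))
      (fun γ Z v => by rw [(hQ ι).2.2.1]), h2 β hβ]
    refine ENNReal.mul_ne_top hv (UNF1.fin (a := a) _ β ?_)
    rwa [show Fintype.card ι - 1 + 2 = Fintype.card ι + 1 by omega]
  refine ⟨h1, h2, fun hv => ⟨?_, fun c => ?_⟩⟩
  · exact h3 (fun q => ENNReal.ofReal (min 1 ((Real.exp 1 / q) ^ (Fintype.card ι + 1))))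
      (Real.exp 1) (by fun_prop) hv fun _ _ => le_rfl
  · have h4 := h3 ((Set.Iic c).indicator 1) c (measurable_one.indicator measurableSet_Iic) hv
      fun q hq => by
        by_cases h : q ∈ Set.Iic c
        · rw [Set.indicator_of_mem h, min_eq_left (one_le_pow₀ ((one_le_div hq).2 h))]
          simp
        · rw [Set.indicator_of_notMem h]
          exact zero_le
    rw [mass, ← lintegral_indicator (measurableSet_le (hm _) measurable_const)]
    refine ne_of_eq_of_ne (lintegral_congr fun Z => ?_) h4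
    by_cases h : qf (Qm Z) (ev i) ≤ c <;> simp [h]

end Pool.Agent.P.MP_59bdab_ag
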