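import Pool.Agent.P.MP_59bdab_ag.IfB

/-!
Unfolding over independent isotropic frames.
-/

namespace Pool.Agent.P.MP_59bdab_ag

open Matrix MeasureTheory Filter Topology
open scoped ENNReal ComplexOrder

namespace UNF2

theorem bil {R n κ : Type} [CommRing R] [Fintype n] [Fintype κ] (Q : Matrix n n R)
    (p : κ → n → R) (B : Matrix κ κ R) :
    (Matrix.of fun a b => (∑ c, B c a • p c) ⬝ᵥ Q *ᵥ (∑ c, B c b • p c)) =
      Bᵀ * (Matrix.of fun a b => p a ⬝ᵥ Q *ᵥ p b) * B := by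
  ext a b
  simp only [of_apply, mul_apply, transpose_apply, mulVec_sum, mulVec_smul, sum_dotProduct,
    dotProduct_sum, smul_dotProduct, dotProduct_smul, smul_eq_mul]
  exact Finset.sum_congr rfl fun c _ => mul_comm _ _

theorem iso_iff {ι : Type} [Fintype ι] [DecidableEq ι] {r : ℕ} (p : Fin r → ι ⊕ ι → ℤ)
    {B : Matrix (Fin r) (Fin r) ℤ} (hB : B.det ≠ 0) : Iso (rmul p B) ↔ Iso p := by
  have e : ∀ v : Fin r → ι ⊕ ι → ℤ,
      Iso v ↔ (Matrix.of fun a b => v a ⬝ᵥ Matrix.J ι ℤ *ᵥ v b) = 0 := fun v =>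
    ⟨fun h => Matrix.ext fun a b => h a b, fun h a b => congrFun (congrFun h a) b⟩
  rw [e, e]
  simp only [rmul]
  rw [bil]
  refine ⟨fun h => ?_, fun h => by rw [h, Matrix.mul_zero, Matrix.zero_mul]⟩
  have h1 : IsRegular B := isRegular_of_isLeftRegular_det (IsRegular.of_ne_zero hB).left
  have h2 : IsRegular Bᵀ :=
    isRegular_of_isLeftRegular_det (IsRegular.of_ne_zero (by rwa [det_transpose])).left
  exact h2.left.mul_left_eq_zero_iff.1 (h1.right.mul_right_eq_zero_iff.1 h)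

theorem coord_gram {n : Type} [Fintype n] {r : ℕ} {Q : Matrix n n ℝ} (hQ : Qᵀ = Q)
    (p : Fin r → n → ℤ) (B : Matrix (Fin r) (Fin r) ℤ) :
    coord (gram Q (rmul p B)) = symL (B.map (Int.castRingHom ℝ))ᵀ (coord (gram Q p)) := by
  have h1 : (gram Q p)ᵀ = gram Q p := by
    ext a b
    simp only [gram, transpose_apply, of_apply]
    rw [dotProduct_mulVec, ← mulVec_transpose, hQ, dotProduct_comm]
  have h2 : ∀ a, cz (rmul p B a) = ∑ c, B.map (Int.castRingHom ℝ) c a • cz (p c) := by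
    intro a
    funext i
    simp [cz, rmul, Finset.sum_apply]
  show _ = coord (_ * mat (coord (gram Q p)) * _)
  rw [mat_coord h1, transpose_transpose]
  simp only [gram, h2]
  rw [bil]

theorem scale (hINV : S_INV) {r : ℕ} (j : ℕ) (B : Matrix (Fin r) (Fin r) ℤ) {m : ℕ} (hm : m ≠ 0)
    (hB : B.det.natAbs = m) (β : (Sym2 (Fin r) → ℝ) → ℝ≥0∞) (hβ : Measurable β) :
    ∫⁻ q in PD (Fin r), β (symL (B.map (Int.castRingHom ℝ))ᵀ q) * ENNReal.ofReal ((mat q).det ^ j) =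
      ((m : ℝ≥0∞) ^ (2 * j + r + 1))⁻¹ *
        ∫⁻ q in PD (Fin r), β q * ENNReal.ofReal ((mat q).det ^ j) := by
  set P : Matrix (Fin r) (Fin r) ℝ := (B.map (Int.castRingHom ℝ))ᵀ with hP
  have hd : |P.det| = m := by
    rw [hP, det_transpose, ← RingHom.mapMatrix_apply, ← RingHom.map_det, ← hB]
    simp [Nat.cast_natAbs]
  have hm0 : (0 : ℝ) < m := Nat.cast_pos.2 (Nat.pos_of_ne_zero hm)
  have hd0 : P.det ≠ 0 := fun h => by
    rw [h, abs_zero] at hd
    exact hm0.ne hd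
  have hφ : Measurable fun q : Sym2 (Fin r) → ℝ => β q * ENNReal.ofReal ((mat q).det ^ j) :=
    hβ.mul (continuous_mat.matrix_det.pow j).measurable.ennreal_ofReal
  have h := (hINV (Fin r)).1 P _ hd0 hφ
  have e : ∀ q : Sym2 (Fin r) → ℝ, β (symL P q) * ENNReal.ofReal ((mat (symL P q)).det ^ j) =
      (m : ℝ≥0∞) ^ (2 * j) * (β (symL P q) * ENNReal.ofReal ((mat q).det ^ j)) := by
    intro q
    have e1 : (mat (symL P q)).det ^ j = (m : ℝ) ^ (2 * j) * (mat q).det ^ j := by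
      rw [mat_symL, det_mul, det_mul, det_transpose P, ← hd, pow_mul, sq_abs, ← mul_pow]
      congr 1
      ring
    rw [e1, ENNReal.ofReal_mul (by positivity), ENNReal.ofReal_pow hm0.le, ENNReal.ofReal_natCast,
      mul_left_comm]
  have hm1 : (m : ℝ≥0∞) ≠ 0 := Nat.cast_ne_zero.2 hm
  have hm2 : (m : ℝ≥0∞) ≠ ⊤ := ENNReal.natCast_ne_top m
  simp only [e] at h
  rw [lintegral_const_mul' _ _ (ENNReal.pow_ne_top hm2), hd, Fintype.card_fin,
    ENNReal.ofReal_inv_of_pos (by positivity), ENNReal.ofReal_pow hm0.le,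
    ENNReal.ofReal_natCast] at h
  rw [add_assoc, pow_add, ENNReal.mul_inv (Or.inl (pow_ne_zero _ hm1))
    (Or.inl (ENNReal.pow_ne_top hm2)), mul_assoc, ← h, ← mul_assoc,
    ENNReal.inv_mul_cancel (pow_ne_zero _ hm1) (ENNReal.pow_ne_top hm2), one_mul]

end UNF2

theorem p_UNF2 (hUNF : S_UNF) (hORB : S_ORB) (hINV : S_INV) (hQ : S_Q) : S_UNF2 := by
  intro ι _ _ r w β hr hw hβ
  obtain ⟨hc, B, hB, hO⟩ := hORB r
  obtain ⟨hL, hb⟩ := hO (ι ⊕ ι)
  have hB0 : ∀ L, (B L).det ≠ 0 := fun L h => L.2.2 (by rw [← hB L, h]; rfl)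
  let f : Ov r × {p : Fin r → ι ⊕ ι → ℤ | Prim p ∧ Iso p} →
      {v : Fin r → ι ⊕ ι → ℤ | LinearIndependent ℤ v ∧ Iso v} := fun x =>
    ⟨rmul x.2.1 (B x.1), hb.mapsTo (x := (x.1, x.2.1)) x.2.2.1, (UNF2.iso_iff _ (hB0 _)).2 x.2.2.2⟩
  have hf : Function.Bijective f := by
    constructor
    · intro x y h
      have h1 := hb.injOn (x₁ := (x.1, x.2.1)) x.2.2.1 (x₂ := (y.1, y.2.1)) y.2.2.1
        (congrArg Subtype.val h)
      exact Prod.ext (Prod.ext_iff.1 h1).1 (Subtype.ext (Prod.ext_iff.1 h1).2)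
    · rintro ⟨v, hv1, hv2⟩
      obtain ⟨x, hx, rfl⟩ := hb.surjOn hv1
      exact ⟨(x.1, ⟨x.2, hx, (UNF2.iso_iff _ (hB0 _)).1 hv2⟩), rfl⟩
  have hs : ∀ Z : HH ι, (Qm Z)ᵀ = Qm Z := fun Z => by
    have h := ((hQ ι).1 Z).1.isHermitian
    rwa [IsHermitian, conjTranspose_eq_transpose_of_trivial] at h
  have e : ∀ Z : HH ι, ∑' v : {v : Fin r → ι ⊕ ι → ℤ | LinearIndependent ℤ v ∧ Iso v},
      β (Lam v.1) (coord (gram (Qm Z) v.1)) =
      ∑' L : Ov r, ∑' p : {p : Fin r → ι ⊕ ι → ℤ | Prim p ∧ Iso p},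
        β L.1 (symL ((B L).map (Int.castRingHom ℝ))ᵀ (coord (gram (Qm Z) p.1))) := by
    intro Z
    rw [← (Equiv.ofBijective f hf).tsum_eq, ENNReal.tsum_prod']
    refine tsum_congr fun L => tsum_congr fun p => ?_
    show β (Lam (rmul p.1 (B L))) (coord (gram (Qm Z) (rmul p.1 (B L)))) = _
    rw [hL L p.1 p.2.1, UNF2.coord_gram (hs Z)]
  have hm : ∀ L : Ov r, Measurable fun q : Sym2 (Fin r) → ℝ =>
      β L.1 (symL ((B L).map (Int.castRingHom ℝ))ᵀ q) := fun L =>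
    (hβ _).comp (LinearMap.continuous_of_finiteDimensional _).measurable
  have hg : ∀ p : Fin r → ι ⊕ ι → ℤ, Measurable fun Z : HH ι => coord (gram (Qm Z) p) := by
    intro p
    refine (continuous_coord.comp (continuous_matrix fun a b => ?_)).measurable
    exact continuous_const.dotProduct ((hQ ι).2.2.2.2.2.1.matrix_mulVec continuous_const)
  simp only [e]
  simp_rw [← ENNReal.tsum_mul_right (α := Ov r)]
  have hA : ∀ L : Ov r, Measurable fun Z : HH ι =>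
      (∑' p : {p : Fin r → ι ⊕ ι → ℤ | Prim p ∧ Iso p},
        β L.1 (symL ((B L).map (Int.castRingHom ℝ))ᵀ (coord (gram (Qm Z) p.1)))) * w Z :=
    fun L => Measurable.mul (Measurable.tsum (f := fun (p : {p : Fin r → ι ⊕ ι → ℤ |
      Prim p ∧ Iso p}) (Z : HH ι) =>
        β L.1 (symL ((B L).map (Int.castRingHom ℝ))ᵀ (coord (gram (Qm Z) p.1))))
      fun p => (hm L).comp (hg p.1)) hw.1
  rw [lintegral_tsum fun L => (hA L).aemeasurable, ← ENNReal.tsum_mul_left]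
  refine tsum_congr fun L => ?_
  rw [← UNF2.scale hINV _ (B L) L.2.2 (hB L) _ (hβ _)]
  exact hUNF ι r w _ hr hw (hm L)

end Pool.Agent.P.MP_59bdab_ag
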