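import Pool.Agent.P.MP_59bdab_ag.IfB

namespace Pool.Agent.P.MP_59bdab_ag

open Matrix MeasureTheory Filter Topology
open scoped ENNReal

theorem p_UP (hUBD : S_UBD) (hLOC : S_LOC) (hDEC : S_DEC) (hBDD : S_BDD) (hVAN : S_VAN)
    (hLAG : S_LAG) (hQ : S_Q) (hVFIN : S_VFIN) (hPROP : S_PROP) : S_UP := by
  intro ι _ _ w k m s s' hw hk hs' hss' hm
  have hpi := Real.pi_pos
  have hu : 1 < s / s' := (one_lt_div hs').mpr hss'
  obtain ⟨η, hη, hL⟩ := hLOC ι s' 1 (psi (s / s')) hs' zero_le_one (psi_nonneg (by linarith))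
    (psi_lt_one hu.ne')
  have hvol : ∫⁻ Z, w Z ∂μH ι ≠ ⊤ := by rw [(hPROP ι).2.2.1 w hw]; exact hVFIN.1 ι
  have hn : {γ : (⊤ : Subgroup (SpZ ι)) | γ.1.1 = 1 ∨ γ.1.1 = -1}.encard ≤ (2 : ℕ) := by
    have hinj : Function.Injective fun γ : (⊤ : Subgroup (SpZ ι)) => γ.1.1 :=
      Subtype.val_injective.comp Subtype.val_injective
    rw [← hinj.encard_image]
    refine le_trans (Set.encard_le_encard (t := {1, -1}) ?_) ?_
    · rintro _ ⟨γ, h, rfl⟩; exact h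
    · exact (Set.encard_insert_le _ _).trans (by simp; rfl)
  have := hUBD ι ⊤ w 2 (Short ι s')ᶜ s' (fun _ => ENNReal.ofReal 1) k (fun a => η (k a))
    (fun a => SF ι (k a) (m a)) (isWt_top.mpr hw) hn
    ((hQ ι).2.2.2.2.2.2.2.2.2.1 s').measurableSet.compl hs' disjoint_compl_left
    (ne_top_of_le_ne_top hvol (setLIntegral_le_lintegral _ _)) measurable_const
    (by simpa using hvol) hk (hη.comp hk) ?_
  · exact_mod_cast this
  filter_upwards [hk.eventually hL, hm, hk.eventually_ge_atTop 13] with a h1 h2 h3 f hf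
  have hk0 : (0 : ℝ) < k a := by exact_mod_cast (by omega : 0 < k a)
  have hm1 : 1 ≤ m a := by
    rcases Nat.eq_zero_or_pos (m a) with h | h
    · rw [h] at h2; simp at h2; linarith
    · exact h
  obtain ⟨h0, hM, hV⟩ := (hVAN ι (k a) (m a) f).1.mp hf
  refine ⟨h0, h1 ⊤ w (Short ι s')ᶜ (fun _ => 1) f {0} (fun _ => f) (isWt_top.mpr hw)
    disjoint_compl_left (fun _ => ⟨zero_le_one, le_rfl⟩) (by simpa using hvol)
    (by simp; omega) (by simp) fun j _ => ⟨hM, le_rfl, (hBDD ι (k a) f).1 _ hm1 h3 hf, ?_⟩⟩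
  intro M hMb Z
  refine ⟨by simpa using hMb Z, fun hZ => ?_⟩
  obtain ⟨v, hv, hq⟩ : Z ∈ Short ι s' := by simpa using hZ
  obtain ⟨γ, hγ, -⟩ := (hLAG ι).1 v
  have hq0 := (hQ ι).2.2.2.2.2.2.2.1 Z v hv
  have h4 := hDEC ι ⊤ (k a) (m a) f M (by omega) (by omega) hM hV hMb Z v hv
    ⟨γ, Subgroup.mem_top _, hγ⟩ (by linarith)
  have hM0 : 0 ≤ M := (FF_nonneg _ _ Z).trans (hMb Z)
  refine h4.trans ?_
  rw [one_mul, mul_one]
  have h5 : s / s' ≤ 4 * Real.pi * m a / k a / qf (Qm Z) v :=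
    div_le_div₀ (by linarith) h2 hq0 hq.le
  exact mul_le_mul_of_nonneg_right
    (pow_le_pow_left₀ (psi_nonneg (by linarith)) (psi_anti hu.le h5) _) hM0

end Pool.Agent.P.MP_59bdab_ag
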