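import Pool.Agent.P.MP_59bdab_ag.IfB

/-!
The spaces `SF` in terms of the group action.
-/

namespace Pool.Agent.P.MP_59bdab_ag

open Matrix

namespace VAN

variable {ι : Type} [Fintype ι] [DecidableEq ι]

theorem num_toR (γ : SpZ ι) (z : Sym2 ι → ℂ) : num (toR γ).1 z =
    γ.1.toBlocks₁₁.map (↑) * mat z + γ.1.toBlocks₁₂.map (↑) := by
  unfold num
  congr 1

theorem den_toR (γ : SpZ ι) (z : Sym2 ι → ℂ) : den (toR γ).1 z =
    γ.1.toBlocks₂₁.map (↑) * mat z + γ.1.toBlocks₂₂.map (↑) := by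
  unfold den
  congr 1

theorem isMod_iff {k : ℕ} {f : (Sym2 ι → ℂ) → ℂ} : IsModular k f ↔
    ∀ γ ∈ (⊤ : Subgroup (SpZ ι)), ∀ Z : HH ι, f (γ • Z).1 = jf (toR γ) Z ^ k * f Z.1 := by
  constructor
  · intro h γ _ Z
    rw [jf, den_toR]
    refine h γ.1.toBlocks₁₁ γ.1.toBlocks₁₂ _ _ (by rw [fromBlocks_toBlocks]; exact γ.2) Z.1 Z.2 _ ?_
    rw [smulZ_def, mat_smul_val, num_toR, den_toR]
  · intro h A B C D hγ z hz w hw
    have h1 := h ⟨_, hγ⟩ (Subgroup.mem_top _) ⟨z, hz⟩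
    have h2 : w = ((⟨_, hγ⟩ : SpZ ι) • (⟨z, hz⟩ : HH ι)).1 := by
      apply mat_injective
      rw [smulZ_def, mat_smul_val, num_toR, den_toR, hw]
      rfl
    rw [h2, h1, jf, den_toR]
    rfl

theorem per {k : ℕ} {f : (Sym2 ι → ℂ) → ℂ} (h : Mod ⊤ k f) (p : ι → ℤ) (z : Sym2 ι → ℂ)
    (hz : z ∈ HS ι) : f (z + tv p) = f z := by
  have h1 := isMod_iff.2 h.2 1 (vecMulVec p p) 0 1 (by
    rw [SymplecticGroup.fromBlocks_mem_iff]
    simp [transpose_vecMulVec]) z hz (z + tv p) (by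
    rw [Matrix.map_one _ Int.cast_zero Int.cast_one, Matrix.map_zero _ Int.cast_zero,
      Matrix.zero_mul, zero_add, inv_one, Matrix.one_mul, Matrix.mul_one, mat_add, mat_tv]
    congr 1
    ext i j
    simp [vecMulVec_apply])
  rw [h1, Matrix.map_one _ Int.cast_zero Int.cast_one, Matrix.map_zero _ Int.cast_zero]
  simp

omit [Fintype ι] in
theorem single_eq (i : ι) (t : ℂ) :
    (Pi.single s(i, i) t : Sym2 ι → ℂ) = t • tv (Pi.single i 1) := by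
  rw [tv_single, ← Pi.single_smul, smul_eq_mul, mul_one]

omit [Fintype ι] in
theorem fj_eq (f : (Sym2 ι → ℂ) → ℂ) (i : ι) (j : ℤ) (z : Sym2 ι → ℂ) :
    fj f i j z = cf (fun τ => f (z + τ • tv (Pi.single i 1))) j 0 := by
  simp only [fj, cf, zero_add, single_eq]

theorem act {U : Matrix ι ι ℤ} (hU : IsUnit U.det)
    (h : fromBlocks U 0 0 (U⁻¹)ᵀ ∈ symplecticGroup ι ℤ) (Z : HH ι) :
    mat ((⟨_, h⟩ : SpZ ι) • Z).1 = U.map (↑) * mat Z.1 * (U.map (↑))ᵀ ∧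
      jf (toR ⟨_, h⟩) Z = ((U⁻¹)ᵀ.map (↑) : Matrix ι ι ℂ).det := by
  have h1 : den (toR ⟨_, h⟩).1 Z.1 = (U⁻¹)ᵀ.map (↑) := by
    rw [den_toR]
    simp
  refine ⟨?_, by rw [jf, h1]⟩
  rw [smulZ_def, mat_smul_val, h1, num_toR]
  simp only [toBlocks_fromBlocks₁₁, toBlocks_fromBlocks₁₂]
  rw [Matrix.map_zero _ Int.cast_zero, add_zero]
  congr 1
  apply inv_eq_left_inv
  rw [transpose_map, ← transpose_mul]
  have h2 := Matrix.map_mul (L := U⁻¹) (M := U) (f := Int.castRingHom ℂ)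
  rw [nonsing_inv_mul U hU, Matrix.map_one _ (map_zero _) (map_one _)] at h2
  exact (congrArg transpose h2).symm.trans transpose_one

theorem key (hEXT : S_EXT) (hLAG : S_LAG) {k m : ℕ} {f : (Sym2 ι → ℂ) → ℂ} (h : Mod ⊤ k f) (i : ι)
    (h0 : ∀ j : ℤ, j < m → ∀ z ∈ HS ι, fj f i j z = 0) : Van m f := by
  intro p hp z hz
  refine ⟨per h p z hz, fun j hj => ?_⟩
  obtain ⟨U, hU, hp'⟩ := (hEXT ι).1 (Fin 1) _ ⟨fun _ => i, fun _ _ _ => Subsingleton.elim _ _⟩ hp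
  have hγ := (hLAG ι).2.1 U hU
  obtain ⟨Z, hZ⟩ : ∃ Z : HH ι, (⟨_, hγ⟩ : SpZ ι) • Z = ⟨z, hz⟩ := ⟨_, smul_inv_smul _ _⟩
  have h1 : (U.map (↑) : Matrix ι ι ℂ) *ᵥ (fun a => ((Pi.single i 1 : ι → ℤ) a : ℂ)) =
      fun a => (p a : ℂ) := by
    funext a
    rw [← hp' 0 a]
    simp [mulVec, dotProduct, Pi.single_apply]
  have h2 : ∀ t : ℝ, f (z + (t : ℂ) • tv p) = ((U⁻¹)ᵀ.map (↑) : Matrix ι ι ℂ).det ^ k *
      f (Z.1 + Pi.single s(i, i) (t : ℂ)) := by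
    intro t
    have h3 := h.2 ⟨_, hγ⟩ (Subgroup.mem_top _) ⟨_, add_single_mem Z.2 s(i, i) t⟩
    rw [(act hU hγ _).2] at h3
    rw [← h3]
    congr 1
    apply mat_injective
    have h4 := (act hU hγ Z).1
    rw [hZ] at h4
    rw [(act hU hγ _).1, mat_add, mat_add, h4, single_eq, mat_smul, mat_smul, mat_tv, mat_tv,
      Matrix.mul_add, Matrix.add_mul, Matrix.mul_smul, Matrix.smul_mul, mul_vecMulVec,
      vecMulVec_mul, vecMul_transpose, h1]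
  have h5 := h0 j hj Z.1 Z.2
  simp only [cf, zero_add, h2, mul_assoc]
  simp only [fj, mul_assoc] at h5
  rw [intervalIntegral.integral_const_mul, h5, mul_zero]

end VAN

open VAN in
theorem p_VAN (hEXT : S_EXT) (hLAG : S_LAG) : S_VAN := by
  intro ι _ _ k m f
  have h1 : (∀ z, z ∉ HS ι → f z = 0) → Mod ⊤ k f → Van m f → f ∈ SF ι k m := fun a b c =>
    ⟨a, b.1, isMod_iff.2 b.2, fun i j hj z hz => by
      rw [fj_eq]
      exact (c _ ((hEXT ι).2.2.2.1 (Fin 1) ⟨fun _ => i, fun _ _ _ => Subsingleton.elim _ _⟩)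
        z hz).2 j hj⟩
  refine ⟨⟨fun h => ?_, fun h => h1 h.1 h.2.1 h.2.2⟩, per, fj_eq f,
    fun i a b c => h1 a b (key hEXT hLAG b i c)⟩
  have h2 : Mod ⊤ k f := ⟨h.2.1, isMod_iff.1 h.2.2.1⟩
  refine ⟨h.1, h2, fun p hp => ?_⟩
  obtain ⟨i, _⟩ := Function.ne_iff.1 (((hEXT ι).2.1 _ _ hp).ne_zero 0)
  exact key hEXT hLAG h2 i (h.2.2.2 i) p hp

end Pool.Agent.P.MP_59bdab_ag
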