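import Pool.Agent.P.MP_59bdab_ag.IfB

/-! Volumes are finite. -/

namespace Pool.Agent.P.MP_59bdab_ag

open Matrix MeasureTheory Set
open scoped ENNReal

theorem p_VFIN (hUNF1 : S_UNF1) (hMAH : S_MAH) (hEXT : S_EXT) (hREIDX : S_REIDX) (hPROP : S_PROP)
    (hQ : S_Q) : S_VFIN := by
  have v0 : vol (Fin 0) = 1 := by
    obtain ⟨-, ⟨w, hw⟩, h, -⟩ := hPROP (Fin 0)
    have e : ∀ Z, w Z = 1 := fun Z => by
      rw [← hw.2 Z, tsum_eq_single 1 fun γ g => absurd (Subsingleton.elim γ 1) g, one_smul]
    have e2 : HS (Fin 0) = univ := eq_univ_of_forall fun z => by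
      show Matrix.PosDef _
      rw [Subsingleton.elim (mat _) 1]
      exact PosDef.one
    have : IsEmpty (Sym2 (Fin 0)) := ⟨fun p => p.ind fun i _ => i.elim0⟩
    rw [← h w hw]
    simp only [e, μH, det_isEmpty, one_pow, inv_one, ENNReal.ofReal_one]
    rw [lintegral_one, withDensity_const, one_smul,
      comap_subtype_coe_apply (isOpen_HS _).measurableSet, Subtype.coe_image_univ, e2, volume_pi,
      Measure.pi_univ]
    simp
  have key : ∀ n, vol (Fin n) ≠ ⊤ := fun n => by
    induction n with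
    | zero => simp [v0]
    | succ n ih =>
      obtain ⟨h1, ⟨w, hw⟩, h, -⟩ := hPROP (Fin (n + 1))
      obtain ⟨w1, hw1⟩ := h1 (st1 0)
      obtain ⟨C, hC⟩ := (hMAH (Fin (n + 1))).2 inferInstance
      obtain ⟨-, -, -, -, -, -, -, q8, q9, -⟩ := hQ (Fin (n + 1))
      have u := (hUNF1 _ 0 w w1 hw hw1).2.1 ((Iic C).indicator 1)
        (measurable_one.indicator measurableSet_Iic)
      rw [show Fintype.card (Fin (n + 1)) - 1 = n by simp] at u
      rw [← h w hw]
      refine ne_top_of_le_ne_top (u.trans_ne (ENNReal.mul_ne_top ih ?_))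
        (lintegral_mono fun Z => ?_)
      · refine ne_top_of_le_ne_top (b := ∫⁻ q in Ioi (0 : ℝ), (Icc 0 C).indicator
          (fun _ => ENNReal.ofReal (C ^ n)) q) ?_ (setLIntegral_mono' measurableSet_Ioi
            fun q hq => ?_)
        · rw [lintegral_indicator_const measurableSet_Icc]
          exact ENNReal.mul_ne_top ENNReal.ofReal_ne_top (ne_top_of_le_ne_top
            measure_Icc_lt_top.ne (Measure.restrict_apply_le _ _))
        · by_cases g : q ≤ C
          · rw [indicator_of_mem (show q ∈ Iic C from g),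
              indicator_of_mem (show q ∈ Icc 0 C from ⟨le_of_lt hq, g⟩), Pi.one_apply, one_mul]
            exact ENNReal.ofReal_le_ofReal (pow_le_pow_left₀ (le_of_lt hq) g n)
          · rw [indicator_of_notMem (show q ∉ Iic C from g), zero_mul]
            exact zero_le
      · obtain ⟨v, v1, v2⟩ := hC Z
        obtain ⟨⟨m, p⟩, hp, rfl⟩ := (hEXT _).2.2.2.2.surjOn v1
        have p0 : 0 < qf (Qm Z) p := q8 Z p fun g => v1 (by simp [g])
        have p1 : qf (Qm Z) p ≤ C := by
          refine le_trans ?_ v2.le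
          rw [q9]
          refine le_mul_of_one_le_left p0.le (one_le_pow₀ ?_)
          push_cast
          linarith [m.cast_nonneg (α := ℝ)]
        refine le_mul_of_one_le_left' (le_trans ?_ (ENNReal.le_tsum (⟨p, hp⟩ : {p | Prim1 p})))
        rw [indicator_of_mem (show _ ∈ Iic C from p1), Pi.one_apply]
  refine ⟨fun ι _ _ => ?_, v0⟩
  obtain ⟨-, -, -, -, -, -, h⟩ := hREIDX ι _ (Fintype.equivFin ι)
  exact h ▸ key _

end Pool.Agent.P.MP_59bdab_ag
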