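import Pool.Agent.P.MP_59bdab_ag.IfA

/-!
Holomorphy of locally uniformly convergent sums and of integrals along a direction.
-/

namespace Pool.Agent.P.MP_59bdab_ag

open Matrix MeasureTheory Filter Topology Metric

namespace WEI

variable {κ : Type} [Fintype κ]

/-- Cauchy estimate. -/
theorem cest {g : (κ → ℂ) → ℂ} {c : κ → ℂ} {R M : ℝ} (hR : 0 < R)
    (hd : DifferentiableOn ℂ g (ball c R)) (hM : ∀ z ∈ ball c R, ‖g z‖ ≤ M) :
    ‖fderiv ℂ g c‖ ≤ 2 * M / R := by
  refine Complex.norm_fderiv_le_div_of_mapsTo_ball hd (fun z hz => ?_) hR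
  rw [mem_closedBall, dist_eq_norm]
  have h1 := hM z hz
  have h2 := hM c (mem_ball_self hR)
  have h3 := norm_sub_le (g z) (g c)
  linarith

theorem sumA {U : Set (κ → ℂ)} (hU : IsOpen U) {I : Type} (f : I → (κ → ℂ) → ℂ)
    (hf : ∀ i, DifferentiableOn ℂ (f i) U)
    (hK : ∀ K ⊆ U, IsCompact K → ∀ ε > 0, ∃ s : Finset I, ∀ t : Finset I, Disjoint s t →
        ∀ z ∈ K, ∑ i ∈ t, ‖f i z‖ ≤ ε) :
    DifferentiableOn ℂ (fun z => ∑' i, f i z) U := by
  classical
  intro x hx
  obtain ⟨ρ, hρ, hρU⟩ := nhds_basis_closedBall.mem_iff.1 (hU.mem_nhds hx)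
  set r := ρ / 2 with hr
  have hr0 : 0 < r := by positivity
  have hsub : ∀ z ∈ ball x r, ball z r ⊆ closedBall x ρ := by
    intro z hz y hy
    rw [mem_ball] at hz hy
    rw [mem_closedBall]
    have := dist_triangle y z x
    linarith
  have hbU : ball x r ⊆ U := fun z hz => hρU (hsub z hz (mem_ball_self hr0))
  let F : Finset I → (κ → ℂ) → ℂ := fun s z => ∑ i ∈ s, f i z
  have hFd : ∀ s, DifferentiableOn ℂ (F s) U := fun s =>
    DifferentiableOn.fun_sum fun i _ => hf i
  have hFa : ∀ s, ∀ z ∈ U, DifferentiableAt ℂ (F s) z := fun s z hz =>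
    (hFd s).differentiableAt (hU.mem_nhds hz)
  have hC : UniformCauchySeqOn (fun s z => fderiv ℂ (F s) z) atTop (ball x r) := by
    rw [Metric.uniformCauchySeqOn_iff]
    intro ε hε
    obtain ⟨s0, hs0⟩ := hK _ hρU (isCompact_closedBall x ρ) (ε * r / 8) (by positivity)
    refine ⟨s0, fun s hs t ht z hz => ?_⟩
    have hz' := hbU hz
    have h1 : fderiv ℂ (F s) z - fderiv ℂ (F t) z = fderiv ℂ (fun y => F s y - F t y) z :=
      (fderiv_fun_sub (hFa s z hz') (hFa t z hz')).symm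
    have h2 : ∀ y ∈ ball z r, ‖F s y - F t y‖ ≤ ε * r / 4 := by
      intro y hy
      have hy' := hsub z hz hy
      have e1 : F s y = ∑ i ∈ s \ s0, f i y + ∑ i ∈ s0, f i y := (Finset.sum_sdiff hs).symm
      have e2 : F t y = ∑ i ∈ t \ s0, f i y + ∑ i ∈ s0, f i y := (Finset.sum_sdiff ht).symm
      have e3 : F s y - F t y = ∑ i ∈ s \ s0, f i y - ∑ i ∈ t \ s0, f i y := by
        rw [e1, e2]; ring
      have b1 := (norm_sum_le (s \ s0) fun i => f i y).trans
        (hs0 _ Finset.disjoint_sdiff y hy')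
      have b2 := (norm_sum_le (t \ s0) fun i => f i y).trans
        (hs0 _ Finset.disjoint_sdiff y hy')
      have b3 := norm_sub_le (∑ i ∈ s \ s0, f i y) (∑ i ∈ t \ s0, f i y)
      rw [e3]
      linarith
    have h3 := cest hr0 (g := fun y => F s y - F t y)
      (((hFd s).sub (hFd t)).mono fun y hy => hρU (hsub z hz hy)) h2
    rw [dist_eq_norm, h1]
    refine h3.trans_lt ?_
    rw [div_lt_iff₀ hr0]
    nlinarith [mul_pos hε hr0]
  have hex : ∀ z, ∃ L, z ∈ ball x r → Tendsto (fun s => fderiv ℂ (F s) z) atTop (𝓝 L) := by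
    intro z
    by_cases hz : z ∈ ball x r
    · obtain ⟨L, hL⟩ := cauchySeq_tendsto_of_complete (hC.cauchySeq hz)
      exact ⟨L, fun _ => hL⟩
    · exact ⟨0, fun h => absurd h hz⟩
  choose g' hg' using hex
  have hT := hC.tendstoUniformlyOn_of_tendsto hg'
  have hS : ∀ z ∈ ball x r, Tendsto (fun s => F s z) atTop (𝓝 (∑' i, f i z)) := by
    intro z hz
    have hsum : Summable fun i => f i z := by
      rw [summable_iff_vanishing_norm]
      intro ε hε
      obtain ⟨s0, hs0⟩ := hK _ hρU (isCompact_closedBall x ρ) (ε / 2) (by positivity)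
      refine ⟨s0, fun t ht => ?_⟩
      have b1 := (norm_sum_le t fun i => f i z).trans
        (hs0 t ht.symm z (hsub z hz (mem_ball_self hr0)))
      linarith
    have := hsum.hasSum
    simpa [HasSum, F] using this
  have := hasFDerivAt_of_tendstoUniformlyOn (g := fun z => ∑' i, f i z) isOpen_ball hT
    (fun s z hz => (hFa s z (hbU hz)).hasFDerivAt) hS (mem_ball_self hr0)
  exact this.differentiableAt.differentiableWithinAt

theorem intB {U : Set (κ → ℂ)} (hU : IsOpen U) (f : (κ → ℂ) → ℂ) (e : κ → ℂ) (φ : ℝ → ℂ)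
    (hf : DifferentiableOn ℂ f U) (hφ : Continuous φ)
    (he : ∀ z ∈ U, ∀ t : ℝ, z + (t : ℂ) • e ∈ U) :
    DifferentiableOn ℂ (fun z => ∫ t in (0 : ℝ)..1, f (z + (t : ℂ) • e) * φ t) U := by
  intro x hx
  have hline : ∀ z : κ → ℂ, Continuous fun t : ℝ => z + (t : ℂ) • e := fun z => by fun_prop
  set K : Set (κ → ℂ) := (fun t : ℝ => x + (t : ℂ) • e) '' Set.Icc 0 1 with hKdef
  have hKc : IsCompact K := isCompact_Icc.image (hline x)
  have hKU : K ⊆ U := by
    rintro _ ⟨t, _, rfl⟩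
    exact he x hx t
  obtain ⟨δ, hδ, hδU⟩ := hKc.exists_cthickening_subset_open hU hKU
  have hTc : IsCompact (cthickening δ K) := hKc.cthickening
  obtain ⟨M, hM⟩ := hTc.exists_bound_of_continuousOn (hf.continuousOn.mono hδU)
  set r := δ / 2 with hr
  have hr0 : 0 < r := by positivity
  have hsub : ∀ z ∈ ball x r, ∀ t ∈ Set.Icc (0 : ℝ) 1,
      ball (z + (t : ℂ) • e) r ⊆ cthickening δ K := by
    intro z hz t ht y hy
    refine mem_cthickening_of_dist_le y (x + (t : ℂ) • e) δ K ⟨t, ht, rfl⟩ ?_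
    rw [mem_ball] at hz hy
    have h1 := dist_triangle y (z + (t : ℂ) • e) (x + (t : ℂ) • e)
    rw [dist_add_right] at h1
    linarith
  have hbU : ball x r ⊆ U := by
    intro z hz
    have := hδU (hsub z hz 0 ⟨le_rfl, zero_le_one⟩ (mem_ball_self hr0))
    simpa using this
  have hcont : ∀ z ∈ U, Continuous fun t : ℝ => f (z + (t : ℂ) • e) * φ t := by
    intro z hz
    exact (hf.continuousOn.comp_continuous (hline z) (he z hz)).mul hφ
  have hI : Set.uIoc (0 : ℝ) 1 ⊆ Set.Icc 0 1 := by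
    rw [Set.uIoc_of_le zero_le_one]
    exact Set.Ioc_subset_Icc_self
  have key := intervalIntegral.hasFDerivAt_integral_of_dominated_of_fderiv_le (𝕜 := ℂ)
    (μ := volume) (a := 0) (b := 1) (s := ball x r) (x₀ := x)
    (F := fun z t => f (z + (t : ℂ) • e) * φ t)
    (F' := fun z t => φ t • fderiv ℂ f (z + (t : ℂ) • e))
    (bound := fun t => ‖φ t‖ * (2 * M / r)) (ball_mem_nhds x hr0) ?_ ?_ ?_ ?_ ?_ ?_
  · exact key.differentiableAt.differentiableWithinAt
  · filter_upwards [hU.mem_nhds hx] with z hz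
    exact (hcont z hz).aestronglyMeasurable
  · exact (hcont x hx).intervalIntegrable _ _
  · refine hφ.aestronglyMeasurable.smul ?_
    exact ((measurable_fderiv ℂ f).comp (hline x).measurable).aestronglyMeasurable
  · refine Eventually.of_forall fun t ht z hz => ?_
    rw [norm_smul]
    refine mul_le_mul_of_nonneg_left ?_ (norm_nonneg _)
    exact cest hr0 (hf.mono fun y hy => hδU (hsub z hz t (hI ht) hy))
      fun y hy => hM y (hsub z hz t (hI ht) hy)
  · exact (hφ.norm.mul continuous_const).intervalIntegrable _ _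
  · refine Eventually.of_forall fun t _ z hz => ?_
    have h1 : HasFDerivAt f (fderiv ℂ f (z + (t : ℂ) • e)) (z + (t : ℂ) • e) :=
      (hf.differentiableAt (hU.mem_nhds (he z (hbU hz) t))).hasFDerivAt
    have h2 : HasFDerivAt (fun y => f (y + (t : ℂ) • e)) (fderiv ℂ f (z + (t : ℂ) • e)) z :=
      (hasFDerivAt_comp_add_right _).2 h1
    exact h2.mul_const (φ t)

end WEI

theorem p_WEI : S_WEI := fun _ _ _ hU =>
  ⟨fun _ f hf hK => WEI.sumA hU f hf hK, fun f e φ hf hφ he => WEI.intB hU f e φ hf hφ he⟩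

end Pool.Agent.P.MP_59bdab_ag
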