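import Pool.Agent.P.MP_59bdab_ag.IfA

/-! Existence of a weight function for a properly discontinuous action. -/

namespace Pool.Agent.P.MP_59bdab_ag

open MeasureTheory Filter Topology Set
open scoped ENNReal

namespace WEX

lemma of_fun {G X : Type} [Group G] [Countable G] [MulAction G X] [MeasurableSpace X]
    (hm : ∀ γ : G, Measurable fun x : X => γ • x) (u : X → ℝ≥0∞) (hu : Measurable u)
    (h0 : ∀ x, ∑' γ : G, u (γ • x) ≠ 0) (h1 : ∀ x, ∑' γ : G, u (γ • x) ≠ ⊤) :
    ∃ w, IsWt G X w := by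
  refine ⟨fun x => u x * (∑' γ : G, u (γ • x))⁻¹,
    hu.mul (Measurable.tsum fun γ => hu.comp (hm γ)).inv, fun x => ?_⟩
  have hinv : ∀ δ : G, ∑' γ : G, u (γ • δ • x) = ∑' γ : G, u (γ • x) := fun δ => by
    simp only [← mul_smul]
    exact (Equiv.mulRight δ).tsum_eq fun γ => u (γ • x)
  simp only [hinv]
  rw [ENNReal.tsum_mul_right, ENNReal.mul_inv_cancel (h0 x) (h1 x)]

end WEX

theorem p_WEX : S_WEX := by
  classical
  intro G X _ _ _ _ _ _ _ _ _ hfin
  have hm : ∀ γ : G, Measurable fun x : X => γ • x := fun γ => (continuous_const_smul γ).measurable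
  let K : ℕ → Set X := compactCovering X
  have hK : ∀ n, MeasurableSet (K n) := fun n => (isCompact_compactCovering X n).measurableSet
  let O : ℕ → Set X := fun n => ⋃ γ : G, (fun x => γ • x) ⁻¹' K n
  have hO : ∀ n, MeasurableSet (O n) := fun n => MeasurableSet.iUnion fun γ => hm γ (hK n)
  have hOi : ∀ n (δ : G) x, δ • x ∈ O n ↔ x ∈ O n := fun n δ x => by
    simp only [O, mem_iUnion, mem_preimage]
    constructor
    · rintro ⟨γ, h⟩
      exact ⟨γ * δ, by rwa [mul_smul]⟩
    · rintro ⟨γ, h⟩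
      exact ⟨γ * δ⁻¹, by rwa [mul_smul, inv_smul_smul]⟩
  let A : Set X := ⋃ n, K n ∩ ⋂ m, ⋂ (_ : m < n), (O m)ᶜ
  have hA : MeasurableSet A := MeasurableSet.iUnion fun n =>
    (hK n).inter (MeasurableSet.iInter fun m => MeasurableSet.iInter fun _ => (hO m).compl)
  have hAm : ∀ x, x ∈ A ↔ ∃ n, x ∈ K n ∧ ∀ m < n, x ∉ O m := fun x => by
    simp only [A, mem_iUnion, mem_inter_iff, mem_iInter, mem_compl_iff]
  have hex : ∀ x, ∃ n, x ∈ O n := fun x => by
    obtain ⟨n, hn⟩ := exists_mem_compactCovering x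
    exact ⟨n, mem_iUnion.2 ⟨1, by simpa using hn⟩⟩
  refine WEX.of_fun hm (A.indicator 1) (measurable_one.indicator hA) (fun x => ?_) fun x => ?_
  · obtain ⟨γ, hγ⟩ := mem_iUnion.1 (Nat.find_spec (hex x))
    have hγA : γ • x ∈ A := (hAm _).2 ⟨_, hγ, fun m hm' h =>
      Nat.find_min (hex x) hm' ((hOi m γ x).1 h)⟩
    intro h
    have := ENNReal.tsum_eq_zero.1 h γ
    simp [indicator_of_mem hγA] at this
  · obtain ⟨n, hn⟩ := hex x
    have hF := hfin (insert x (K n)) ((isCompact_compactCovering X n).insert x)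
    have hsub : ∀ γ : G, γ ∉ hF.toFinset → A.indicator (1 : X → ℝ≥0∞) (γ • x) = 0 := by
      intro γ hγ
      refine indicator_of_notMem (fun h => hγ ?_) _
      obtain ⟨k, hk, hk'⟩ := (hAm _).1 h
      have hkn : k ≤ n := by
        by_contra hlt
        exact hk' n (not_le.1 hlt) ((hOi n γ x).2 hn)
      exact hF.mem_toFinset.2 ⟨x, mem_insert _ _,
        mem_insert_of_mem _ (compactCovering_subset X hkn hk)⟩
    rw [tsum_eq_sum hsub]
    refine ENNReal.sum_ne_top.2 fun γ _ => ?_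
    by_cases h : γ • x ∈ A
    · simp [indicator_of_mem h]
    · simp [indicator_of_notMem h]

end Pool.Agent.P.MP_59bdab_ag
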