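import Pool.Agent.P.MP_59bdab_ag.IfA

/-!
Unfolding along a weight function.
-/

namespace Pool.Agent.P.MP_59bdab_ag

open MeasureTheory
open scoped ENNReal

namespace WT

theorem unfold_wt {G X : Type} [Group G] [Countable G] [MulAction G X] [MeasurableSpace X]
    [MeasurableConstSMul G X] (μ : Measure X) [SMulInvariantMeasure G X μ] (w : X → ℝ≥0∞)
    (hw : IsWt G X w) (φ : X → ℝ≥0∞) (hφ : Measurable φ) :
    ∫⁻ x, φ x ∂μ = ∫⁻ x, (∑' γ : G, φ (γ • x)) * w x ∂μ := by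
  have h1 : ∀ x, φ x = ∑' γ : G, φ x * w (γ • x) := by
    intro x
    rw [ENNReal.tsum_mul_left, hw.2 x, mul_one]
  have hm1 : ∀ γ : G, Measurable fun x => φ x * w (γ • x) := fun γ =>
    hφ.mul (hw.1.comp (measurable_const_smul γ))
  have hm2 : ∀ γ : G, Measurable fun x => φ (γ • x) * w x := fun γ =>
    (hφ.comp (measurable_const_smul γ)).mul hw.1
  have h2 : ∀ γ : G, ∫⁻ x, φ x * w (γ • x) ∂μ = ∫⁻ x, φ (γ⁻¹ • x) * w x ∂μ := by
    intro γ
    have h := (measurePreserving_smul γ μ).lintegral_comp (hm2 γ⁻¹)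
    rw [← h]
    refine lintegral_congr fun x => ?_
    rw [inv_smul_smul]
  calc ∫⁻ x, φ x ∂μ = ∫⁻ x, ∑' γ : G, φ x * w (γ • x) ∂μ := lintegral_congr h1
    _ = ∑' γ : G, ∫⁻ x, φ x * w (γ • x) ∂μ := lintegral_tsum fun γ => (hm1 γ).aemeasurable
    _ = ∑' γ : G, ∫⁻ x, φ (γ⁻¹ • x) * w x ∂μ := tsum_congr h2
    _ = ∑' γ : G, ∫⁻ x, φ (γ • x) * w x ∂μ :=
        (Equiv.inv G).tsum_eq fun γ => ∫⁻ x, φ (γ • x) * w x ∂μ
    _ = ∫⁻ x, ∑' γ : G, φ (γ • x) * w x ∂μ :=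
        (lintegral_tsum fun γ => (hm2 γ).aemeasurable).symm
    _ = ∫⁻ x, (∑' γ : G, φ (γ • x)) * w x ∂μ :=
        lintegral_congr fun x => ENNReal.tsum_mul_right

theorem orbit_sum {G X Y : Type} [Group G] [MulAction G X] [MeasurableSpace X]
    (a : G → Y → Y) (e : Y) (O : Set Y) (H : Subgroup G) (w' : X → ℝ≥0∞)
    (Φ : X → Y → ℝ≥0∞) (h1 : ∀ y, a 1 y = y) (hmul : ∀ γ δ y, a (γ * δ) y = a γ (a δ y))
    (hO : ∀ y, y ∈ O ↔ ∃ γ, a γ e = y) (hH : ∀ γ, γ ∈ H ↔ a γ e = e) (hw : IsWt H X w')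
    (hΦ : ∀ (γ : G) x y, Φ (γ • x) (a γ y) = Φ x y) (x : X) :
    ∑' γ : G, Φ (γ • x) e * w' (γ • x) = ∑' y : O, Φ x y := by
  have hex : ∀ y : O, ∃ γ, a γ e = y := fun y => (hO y).1 y.2
  choose g hg using hex
  have hkey : ∀ (y : O) (h : H), a ((h : G) * (g y)⁻¹)⁻¹ e = y := by
    intro y h
    rw [mul_inv_rev, inv_inv, hmul, (hH _).1 (H.inv_mem h.2), hg]
  have hbij : Function.Bijective fun p : O × H => (p.2 : G) * (g p.1)⁻¹ := by
    constructor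
    · rintro ⟨y, h⟩ ⟨y', h'⟩ hp
      have hp' : (h : G) * (g y)⁻¹ = (h' : G) * (g y')⁻¹ := hp
      have hy : y = y' := by
        apply Subtype.ext
        rw [← hkey y h, ← hkey y' h', hp']
      subst hy
      have hh : h = h' := Subtype.ext (mul_right_cancel hp')
      rw [hh]
    · intro γ
      let y : O := ⟨a γ⁻¹ e, (hO _).2 ⟨γ⁻¹, rfl⟩⟩
      have hm : γ * g y ∈ H := by
        rw [hH, hmul, hg]
        show a γ (a γ⁻¹ e) = e
        rw [← hmul, mul_inv_cancel, h1]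
      exact ⟨(y, ⟨γ * g y, hm⟩), by simp⟩
  rw [← (Equiv.ofBijective _ hbij).tsum_eq, ENNReal.tsum_prod']
  refine tsum_congr fun y => ?_
  have h3 : ∀ h : H, Φ (((h : G) * (g y)⁻¹) • x) e = Φ x y := by
    intro h
    rw [← hΦ ((h : G) * (g y)⁻¹) x y]
    congr 1
    rw [← hkey y h, ← hmul, mul_inv_cancel, h1]
  calc ∑' h : H, Φ (((h : G) * (g y)⁻¹) • x) e * w' (((h : G) * (g y)⁻¹) • x)
      = ∑' h : H, Φ x y * w' (h • ((g y)⁻¹ • x)) := by
        refine tsum_congr fun h => ?_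
        rw [h3 h, mul_smul]
        rfl
    _ = Φ x y := by rw [ENNReal.tsum_mul_left, hw.2, mul_one]

end WT

theorem p_WT : S_WT := by
  intro G X _ _ _ _ _ μ _ w hw
  refine ⟨fun φ hφ => WT.unfold_wt μ w hw φ hφ, ?_, ?_⟩
  · intro w' φ hw' hφ hinv
    rw [WT.unfold_wt μ w hw (fun x => φ x * w' x) (hφ.mul hw'.1)]
    refine lintegral_congr fun x => ?_
    simp only [hinv]
    rw [ENNReal.tsum_mul_left, hw'.2 x, mul_one]
  · intro Y a e O H w' Φ h1 hmul hO hH hw' hm hΦ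
    rw [WT.unfold_wt μ w hw (fun x => Φ x e * w' x) ((hm e).mul hw'.1)]
    refine lintegral_congr fun x => ?_
    rw [WT.orbit_sum a e O H w' Φ h1 hmul hO hH hw' hΦ x]

end Pool.Agent.P.MP_59bdab_ag
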