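import Pool.Agent.P.MP_59bdab_ag.IfA

/-! Zero sets of holomorphic functions. -/

namespace Pool.Agent.P.MP_59bdab_ag

open MeasureTheory Filter Topology

namespace ZERO

variable {κ : Type} [Fintype κ]

theorem line {f : (κ → ℂ) → ℂ} (hf : Differentiable ℂ f) {z₀ : κ → ℂ} (h0 : f z₀ ≠ 0)
    (w : κ → ℂ) : ∀ᵐ t : ℝ, f (z₀ + t • w) ≠ 0 := by
  have h1 : Differentiable ℂ fun s : ℂ => f (z₀ + s • w) := hf.comp (by fun_prop)
  have h2 : AnalyticOnNhd ℝ (fun t : ℝ => f (z₀ + (t : ℂ) • w)) Set.univ := fun t _ =>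
    ((h1.analyticAt t).restrictScalars (𝕜 := ℝ)).comp (Complex.ofRealCLM.analyticAt t)
  have h3 := h2.preimage_zero_mem_codiscreteWithin (x := 0) (by simpa using h0) trivial
    isConnected_univ
  have h4 := ae_restrict_le_codiscreteWithin (μ := (volume : Measure ℝ)) MeasurableSet.univ h3
  rw [Measure.restrict_univ] at h4
  filter_upwards [h4] with t ht
  rw [← Complex.coe_smul]
  exact ht

theorem null {f : (κ → ℂ) → ℂ} (hf : Differentiable ℂ f) {z₀ : κ → ℂ} (h0 : f z₀ ≠ 0) :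
    volume {z | f z = 0} = 0 := by
  have hc := hf.continuous
  have hm : MeasurableSet {x : (κ → ℂ) × ℝ | f (z₀ + x.2 • x.1) ≠ 0} :=
    (isOpen_ne_fun (by fun_prop) continuous_const).measurableSet
  have h1 := (Measure.ae_ae_comm (μ := (volume : Measure (κ → ℂ))) (ν := (volume : Measure ℝ))
    (p := fun w t => f (z₀ + t • w) ≠ 0) hm).1 (Eventually.of_forall (line hf h0))
  obtain ⟨t, h2, h3⟩ := (h1.and (compl_mem_ae_iff.2 (measure_singleton (0 : ℝ)))).exists
  have h4 : volume ((t • ·) ⁻¹' ((z₀ + ·) ⁻¹' {z | f z = 0})) = 0 := by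
    have k := ae_iff.1 h2
    simp only [not_not] at k
    exact k
  rw [Measure.addHaar_preimage_smul _ h3, measure_preimage_add, mul_eq_zero] at h4
  refine h4.resolve_left ?_
  have h5 : t ≠ 0 := h3
  rw [ENNReal.ofReal_eq_zero, not_le]
  positivity

theorem ident {U : Set (κ → ℂ)} {f : (κ → ℂ) → ℂ} (hU : IsOpen U) (hc : Convex ℝ U)
    (hf : DifferentiableOn ℂ f U) {z₀ : κ → ℂ} (h0 : z₀ ∈ U) (h : f =ᶠ[𝓝 z₀] 0) :
    ∀ z ∈ U, f z = 0 := by
  intro z hz
  let L : ℂ → κ → ℂ := fun s => z₀ + s • (z - z₀)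
  have hL : Differentiable ℂ L := by fun_prop
  have hV : Convex ℝ (L ⁻¹' U) := by
    intro a ha b hb u v hu hv huv
    have e : L (u • a + v • b) = u • L a + v • L b := by
      have : (u : ℂ) + v = 1 := by exact_mod_cast huv
      funext i
      simp only [L, Pi.add_apply, Pi.smul_apply, smul_eq_mul, Complex.real_smul]
      linear_combination (-z₀ i) * this
    rw [Set.mem_preimage, e]
    exact hc ha hb hu hv huv
  have h1 : AnalyticOnNhd ℂ (f ∘ L) (L ⁻¹' U) :=
    (hf.comp hL.differentiableOn fun _ k => k).analyticOnNhd (hU.preimage hL.continuous)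
  have e0 : L 0 = z₀ := by simp [L]
  have e1 : L 1 = z := by simp [L]
  have h2 : f ∘ L =ᶠ[𝓝 0] 0 := by
    have := hL.continuous.tendsto 0
    rw [e0] at this
    exact this.eventually h
  have h3 := h1.eqOn_zero_of_preconnected_of_eventuallyEq_zero hV.isPreconnected
    (show (0 : ℂ) ∈ L ⁻¹' U by rwa [Set.mem_preimage, e0]) h2
    (show (1 : ℂ) ∈ L ⁻¹' U by rwa [Set.mem_preimage, e1])
  rwa [Function.comp_apply, e1] at h3

end ZERO

theorem p_ZERO : S_ZERO := by
  intro κ _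
  refine ⟨fun f hf ⟨z, hz⟩ => ZERO.null hf hz, fun U f g hU hc hf hg h ⟨z₀, h0, h1⟩ => ?_⟩
  refine ZERO.ident hU hc hf h0 ?_
  have h2 := (hg.continuousOn.continuousAt (hU.mem_nhds h0)).eventually_ne h1
  filter_upwards [h2, hU.mem_nhds h0] with z k1 k2
  exact (mul_eq_zero.1 (h z k2)).resolve_right k1

end Pool.Agent.P.MP_59bdab_ag
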