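import Pool.Agent.P.MP_59bdab_ag.ASM
import Pool.Agent.P.MP_59bdab_ag.BDD
import Pool.Agent.P.MP_59bdab_ag.BERG
import Pool.Agent.P.MP_59bdab_ag.BLKM
import Pool.Agent.P.MP_59bdab_ag.BLKW
import Pool.Agent.P.MP_59bdab_ag.CAY
import Pool.Agent.P.MP_59bdab_ag.CAYM
import Pool.Agent.P.MP_59bdab_ag.CNT
import Pool.Agent.P.MP_59bdab_ag.DEC
import Pool.Agent.P.MP_59bdab_ag.DET
import Pool.Agent.P.MP_59bdab_ag.DIM
import Pool.Agent.P.MP_59bdab_ag.DISC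
import Pool.Agent.P.MP_59bdab_ag.DL
import Pool.Agent.P.MP_59bdab_ag.DL2
import Pool.Agent.P.MP_59bdab_ag.EXT
import Pool.Agent.P.MP_59bdab_ag.FIL
import Pool.Agent.P.MP_59bdab_ag.FINW
import Pool.Agent.P.MP_59bdab_ag.FR
import Pool.Agent.P.MP_59bdab_ag.FRS
import Pool.Agent.P.MP_59bdab_ag.GAU
import Pool.Agent.P.MP_59bdab_ag.HERM
import Pool.Agent.P.MP_59bdab_ag.IK
import Pool.Agent.P.MP_59bdab_ag.INV
import Pool.Agent.P.MP_59bdab_ag.JAC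
import Pool.Agent.P.MP_59bdab_ag.JLOC
import Pool.Agent.P.MP_59bdab_ag.JUP
import Pool.Agent.P.MP_59bdab_ag.LAG
import Pool.Agent.P.MP_59bdab_ag.LDL
import Pool.Agent.P.MP_59bdab_ag.LOC
import Pool.Agent.P.MP_59bdab_ag.LOW
import Pool.Agent.P.MP_59bdab_ag.LOW1
import Pool.Agent.P.MP_59bdab_ag.MAH
import Pool.Agent.P.MP_59bdab_ag.MAIN
import Pool.Agent.P.MP_59bdab_ag.MEAS
import Pool.Agent.P.MP_59bdab_ag.MOVE
import Pool.Agent.P.MP_59bdab_ag.MUL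
import Pool.Agent.P.MP_59bdab_ag.MULT
import Pool.Agent.P.MP_59bdab_ag.NRM
import Pool.Agent.P.MP_59bdab_ag.ONE
import Pool.Agent.P.MP_59bdab_ag.ORB
import Pool.Agent.P.MP_59bdab_ag.PLOW
import Pool.Agent.P.MP_59bdab_ag.POLY
import Pool.Agent.P.MP_59bdab_ag.PROJ
import Pool.Agent.P.MP_59bdab_ag.PROP
import Pool.Agent.P.MP_59bdab_ag.PSER
import Pool.Agent.P.MP_59bdab_ag.PW
import Pool.Agent.P.MP_59bdab_ag.Q
import Pool.Agent.P.MP_59bdab_ag.QC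
import Pool.Agent.P.MP_59bdab_ag.REIDX
import Pool.Agent.P.MP_59bdab_ag.RK1
import Pool.Agent.P.MP_59bdab_ag.ROT
import Pool.Agent.P.MP_59bdab_ag.SIMP
import Pool.Agent.P.MP_59bdab_ag.STR
import Pool.Agent.P.MP_59bdab_ag.SUB
import Pool.Agent.P.MP_59bdab_ag.SUMD
import Pool.Agent.P.MP_59bdab_ag.SV
import Pool.Agent.P.MP_59bdab_ag.TIE
import Pool.Agent.P.MP_59bdab_ag.TR
import Pool.Agent.P.MP_59bdab_ag.TRIJ
import Pool.Agent.P.MP_59bdab_ag.UBD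
import Pool.Agent.P.MP_59bdab_ag.UNF
import Pool.Agent.P.MP_59bdab_ag.UNF1
import Pool.Agent.P.MP_59bdab_ag.UNF2
import Pool.Agent.P.MP_59bdab_ag.UP
import Pool.Agent.P.MP_59bdab_ag.VAN
import Pool.Agent.P.MP_59bdab_ag.VFIN
import Pool.Agent.P.MP_59bdab_ag.WEI
import Pool.Agent.P.MP_59bdab_ag.WEX
import Pool.Agent.P.MP_59bdab_ag.WT
import Pool.Agent.P.MP_59bdab_ag.ZERO

namespace Pool.Agent.P.MP_59bdab_ag

theorem t_DIMU : S_DIMU := p_DIMU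
theorem t_WT : S_WT := p_WT
theorem t_DET : S_DET := p_DET
theorem t_MEAS : S_MEAS := p_MEAS t_DET
theorem t_ROT : S_ROT := p_ROT
theorem t_DISC : S_DISC := p_DISC
theorem t_CAY : S_CAY := p_CAY t_DISC
theorem t_CAYM : S_CAYM := p_CAYM t_DISC t_CAY t_DET t_MEAS
theorem t_DL : S_DL := p_DL
theorem t_GAU : S_GAU := p_GAU t_DISC
theorem t_IK : S_IK := p_IK t_GAU t_DISC t_CAY t_CAYM t_DL t_MEAS
theorem t_SUB : S_SUB := p_SUB t_ROT t_DISC t_CAY t_CAYM t_DL t_IK t_MEAS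
theorem t_Q : S_Q := p_Q
theorem t_QC : S_QC := p_QC t_Q
theorem t_DL2 : S_DL2 := p_DL2 t_DISC t_CAY t_DL
theorem t_EXT : S_EXT := p_EXT
theorem t_HERM : S_HERM := p_HERM t_EXT
theorem t_MAH : S_MAH := p_MAH t_HERM t_Q t_QC
theorem t_MULT : S_MULT := p_MULT t_QC t_DL t_DL2 t_MAH t_Q
theorem t_BERG : S_BERG := p_BERG t_WT t_MEAS t_SUB t_MULT t_DL
theorem t_WEX : S_WEX := p_WEX
theorem t_ZERO : S_ZERO := p_ZERO
theorem t_PROP : S_PROP := p_PROP t_QC t_WEX t_WT t_ZERO t_MEAS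
theorem t_UBD : S_UBD := p_UBD t_DIMU t_BERG t_IK t_PROP t_MULT
theorem t_LOC : S_LOC := p_LOC t_BERG t_IK
theorem t_ONE : S_ONE := p_ONE
theorem t_RK1 : S_RK1 := p_RK1 t_Q
theorem t_MOVE : S_MOVE := p_MOVE t_ONE t_RK1 t_Q
theorem t_DEC : S_DEC := p_DEC t_MOVE t_EXT t_Q
theorem t_LAG : S_LAG := p_LAG t_EXT
theorem t_VAN : S_VAN := p_VAN t_EXT t_LAG
theorem t_BDD : S_BDD := p_BDD t_MOVE t_RK1 t_MAH t_VAN t_LAG t_EXT t_Q t_QC t_ONE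
theorem t_STR : S_STR := p_STR
theorem t_BLKW : S_BLKW := p_BLKW t_STR
theorem t_ASM : S_ASM := p_ASM
theorem t_INV : S_INV := p_INV t_DET
theorem t_BLKM : S_BLKM := p_BLKM t_ASM t_INV t_MEAS
theorem t_REIDX : S_REIDX := p_REIDX t_MEAS
theorem t_UNF : S_UNF := p_UNF t_BLKW t_BLKM t_REIDX t_WT t_LAG t_PROP t_MEAS t_Q
theorem t_UNF1 : S_UNF1 := p_UNF1 t_UNF t_WT t_LAG t_MEAS t_Q
theorem t_VFIN : S_VFIN := p_VFIN t_UNF1 t_MAH t_EXT t_REIDX t_PROP t_Q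
theorem t_UP : S_UP := p_UP t_UBD t_LOC t_DEC t_BDD t_VAN t_LAG t_Q t_VFIN t_PROP
theorem t_SUMD : S_SUMD := p_SUMD t_SUB t_IK t_DL t_MULT t_Q
theorem t_WEI : S_WEI := p_WEI
theorem t_PSER : S_PSER := p_PSER t_SUMD t_WEI t_DL t_DL2 t_MULT t_QC t_BDD t_PROP
theorem t_PLOW : S_PLOW := p_PLOW t_PSER t_SUMD t_IK t_WT t_MEAS t_DL t_DL2 t_MULT t_PROP
theorem t_DIML : S_DIML := p_DIML
theorem t_LOW1 : S_LOW1 := p_LOW1 t_PLOW t_DIML t_PROP t_MULT t_QC t_Q t_BDD t_VAN t_VFIN t_WT t_MEAS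
theorem t_MUL : S_MUL := p_MUL t_ONE t_ZERO t_RK1 t_Q t_VAN
theorem t_FIL : S_FIL := p_FIL
theorem t_JLOC : S_JLOC := p_JLOC t_MOVE t_DEC t_LAG t_Q
theorem t_TR : S_TR := p_TR t_LAG
theorem t_PROJ : S_PROJ := p_PROJ t_TR t_WEI t_VAN
theorem t_NRM : S_NRM := p_NRM t_TR t_WT t_MEAS
theorem t_JUP : S_JUP := p_JUP t_FIL t_UBD t_LOC t_JLOC t_PROJ t_NRM t_BDD t_UNF1 t_VFIN t_PROP t_Q
theorem t_ORB : S_ORB := p_ORB
theorem t_UNF2 : S_UNF2 := p_UNF2 t_UNF t_ORB t_INV t_Q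
theorem t_TRIJ : S_TRIJ := p_TRIJ
theorem t_LDL : S_LDL := p_LDL
theorem t_JAC : S_JAC := p_JAC t_TRIJ t_LDL
theorem t_SIMP : S_SIMP := p_SIMP
theorem t_FINW : S_FINW := p_FINW
theorem t_FRS : S_FRS := p_FRS
theorem t_FR : S_FR := p_FR t_UNF2 t_JAC t_SIMP t_FINW t_FRS t_Q t_LAG
theorem t_PW : S_PW := p_PW t_LDL t_FRS
theorem t_POLY : S_POLY := p_POLY t_FR t_PW t_FRS t_FINW t_VFIN t_Q
theorem t_TIE : S_TIE := p_TIE t_UNF1 t_POLY t_VFIN t_PROP t_Q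
theorem t_LOW : S_LOW := p_LOW t_LOW1 t_MUL t_UP t_JUP t_TIE t_PROP
theorem t_CNT : S_CNT := p_CNT
theorem t_SV : S_SV := p_SV t_UNF1 t_CNT t_EXT t_VFIN t_PROP t_Q
theorem t_MAIN : S_MAIN := p_MAIN t_UP t_LOW t_POLY t_SV t_VFIN t_PROP t_FINW t_Q

end Pool.Agent.P.MP_59bdab_ag
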