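import Pool.Agent.P.MP_59bdab_ag.IfC

/-!
Poincare growth of the Hessian of the Legendre transform.
-/

namespace Pool.Agent.P.MP_59bdab_ag

open Matrix MeasureTheory Filter Topology
open scoped ENNReal ContDiff

namespace HESS

theorem norm_dot {κ : Type} [Fintype κ] (l : κ → ℝ) (ζ : κ → ℂ) :
    ‖(fun a => (l a : ℂ)) ⬝ᵥ ζ‖ ^ 2 = (l ⬝ᵥ rev ζ) ^ 2 + (l ⬝ᵥ imv ζ) ^ 2 := by
  have h1 : ((fun a => (l a : ℂ)) ⬝ᵥ ζ).re = l ⬝ᵥ rev ζ := by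
    simp [dotProduct, rev, Complex.re_sum]
  have h2 : ((fun a => (l a : ℂ)) ⬝ᵥ ζ).im = l ⬝ᵥ imv ζ := by
    simp [dotProduct, imv, Complex.im_sum]
  rw [Complex.sq_norm, Complex.normSq_apply, h1, h2]
  ring

theorem omg_eq {κ : Type} [Fintype κ] (L : Finset (κ → ℝ)) (y : κ → ℝ) (ζ : κ → ℂ) :
    omg L y ζ = (∑ l ∈ L, (l ⬝ᵥ rev ζ) ^ 2 / (1 + (l ⬝ᵥ y) ^ 2)) +
      ∑ l ∈ L, (l ⬝ᵥ imv ζ) ^ 2 / (1 + (l ⬝ᵥ y) ^ 2) := by
  rw [omg, ← Finset.sum_add_distrib]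
  refine Finset.sum_congr rfl fun l _ => ?_
  rw [norm_dot, add_div]

theorem arith {X C A E m : ℝ} (hm : 0 < m) (hC : 0 ≤ C) (hA : 0 ≤ A) (hE : 0 ≤ E)
    (h1 : m * E ≤ X) (h2 : X ^ 2 ≤ C * A * E) : 0 ≤ X ∧ X ≤ C / m * A := by
  have hX : 0 ≤ X := (mul_nonneg hm.le hE).trans h1
  refine ⟨hX, ?_⟩
  rcases hX.eq_or_lt with h | h
  · rw [← h]; positivity
  · have h3 : m * X ^ 2 ≤ C * A * X := by
      calc m * X ^ 2 ≤ m * (C * A * E) := mul_le_mul_of_nonneg_left h2 hm.le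
        _ = C * A * (m * E) := by ring
        _ ≤ C * A * X := mul_le_mul_of_nonneg_left h1 (mul_nonneg hC hA)
    have h4 : m * X ≤ C * A := by
      have : (m * X) * X ≤ (C * A) * X := by nlinarith
      exact le_of_mul_le_mul_right this h
    rw [div_mul_eq_mul_div, le_div_iff₀ hm]
    linarith

end HESS

theorem p_HESS (hLEG1 : S_LEG1) (hLEG3 : S_LEG3) (hRYP : S_RYP) (hTRC : S_TRC) (hGRD : S_GRD)
    (hLEVI3 : S_LEVI3) : S_HESS := by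
  intro ι _ _ s s' b β hB K hK hKc
  obtain ⟨P, hP⟩ := (hRYP ι).2.1 K hK hKc s'
  obtain ⟨c, hc, hT⟩ := hTRC ι K hK hKc
  obtain ⟨-, -, -, h14, -, -, -, h18⟩ := hLEG1 ι s s' b β hB
  obtain ⟨-, h32, h33, -, h35, h36, -, h38⟩ := hLEG3 ι s s' b β hB
  obtain ⟨M0, hM0⟩ := hKc.exists_bound_of_continuousOn (h14.continuousOn.mono hK)
  obtain ⟨L, C, hC, hG⟩ := hGRD (Sym2 ι) (ι → ℤ) P sqr M0
  have hm : 0 < min c 1 := lt_min hc one_pos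
  have key : ∀ y ∈ PD ι, GG s b y ∈ K → ∀ η,
      0 ≤ fderiv ℝ (fderiv ℝ (Ph s b β)) y η η ∧
      fderiv ℝ (fderiv ℝ (Ph s b β)) y η η ≤
        C / min c 1 * ∑ l ∈ L, (l ⬝ᵥ η) ^ 2 / (1 + (l ⬝ᵥ y) ^ 2) := by
    intro y hy hyK η
    have ht : GG s b y ∈ RI ι s := h32.mapsTo hy
    set t := GG s b y with htdef
    set T := fderiv ℝ (GG s b) y η with hTdef
    have hη : fderiv ℝ (YY b) t T = η := h35 y hy η
    have hX : fderiv ℝ (fderiv ℝ (Ph s b β)) y η η = -(T ⬝ᵥ η) := h38 y hy η η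
    have hyeq : coord (dm t)⁻¹ + ∑ p ∈ P, b (pr t p) • sqr p = y := by
      rw [← hB.YY_eq (hP t hyK)]; exact h33 y hy
    have h1 := h18 t ht P T
    rw [hη] at h1
    have h2 := hT t hyK T
    have h3 := hG (fun p => b (pr t p)) (coord (dm t)⁻¹) η T (fun p => hB.b_pr_nonneg ht p)
      (hM0 t hyK)
    rw [hyeq] at h3
    have hsum : ∑ p ∈ P, b (pr t p) ^ 2 * pr T p ^ 2 =
        ∑ p ∈ P, b (pr t p) ^ 2 * (sqr p ⬝ᵥ T) ^ 2 :=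
      Finset.sum_congr rfl fun p _ => by rw [pr_eq T p, dotProduct_comm]
    rw [hsum] at h1
    have hTT : 0 ≤ T ⬝ᵥ T := Finset.sum_nonneg fun a _ => mul_self_nonneg _
    have hS : 0 ≤ ∑ p ∈ P, b (pr t p) ^ 2 * (sqr p ⬝ᵥ T) ^ 2 :=
      Finset.sum_nonneg fun p _ => by positivity
    rw [hX]
    refine HESS.arith (E := T ⬝ᵥ T + ∑ p ∈ P, b (pr t p) ^ 2 * (sqr p ⬝ᵥ T) ^ 2) hm hC
      (Finset.sum_nonneg fun l _ => by positivity) (add_nonneg hTT hS) ?_ ?_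
    · have h4 : min c 1 * (T ⬝ᵥ T) ≤ c * (T ⬝ᵥ T) :=
        mul_le_mul_of_nonneg_right (min_le_left _ _) hTT
      have h5 : min c 1 * ∑ p ∈ P, b (pr t p) ^ 2 * (sqr p ⬝ᵥ T) ^ 2 ≤
          1 * ∑ p ∈ P, b (pr t p) ^ 2 * (sqr p ⬝ᵥ T) ^ 2 :=
        mul_le_mul_of_nonneg_right (min_le_right _ _) hS
      rw [mul_add]
      linarith
    · rw [neg_sq, dotProduct_comm T η]
      exact h3
  refine ⟨L, C / min c 1, by positivity, fun z hz hzK ζ => ?_⟩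
  have hy : imv z ∈ PD ι := hz
  have hsm : ContDiffAt ℝ 2 (Ph s b β) (imv z) :=
    (h36.contDiffAt ((isOpen_PD ι).mem_nhds hy)).of_le (WithTop.coe_le_coe.mpr (le_top : (2 : ℕ∞) ≤ ⊤))
  rw [((hLEVI3 (Sym2 ι)).2.1 (Ph s b β) z hsm).2 ζ, Complex.norm_real, Real.norm_eq_abs,
    HESS.omg_eq, mul_add]
  obtain ⟨a1, a2⟩ := key _ hy hzK (rev ζ)
  obtain ⟨b1, b2⟩ := key _ hy hzK (imv ζ)
  rw [abs_of_nonneg (by positivity)]
  linarith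

end Pool.Agent.P.MP_59bdab_ag
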