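import Pool.Agent.P.MP_59bdab_ag.IfC
import Pool.Agent.P.MP_59bdab_ag.ASM

/-!
Integrability of densities with Poincare growth.
-/

namespace Pool.Agent.P.MP_59bdab_ag

open Matrix MeasureTheory Filter Topology
open scoped ENNReal ContDiff

namespace INT

theorem strip {κ : Type} [Fintype κ] {f : (κ → ℝ) → ℝ} (hf : Integrable f) (hc : Continuous f)
    (C : ℝ) : IntegrableOn (fun z : κ → ℂ => f (imv z)) {z | ‖rev z‖ ≤ C} := by
  have hS : MeasurableSet {z : κ → ℂ | ‖rev z‖ ≤ C} :=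
    (isClosed_le continuous_rev.norm continuous_const).measurableSet
  have hm : Measurable fun z : κ → ℂ => ‖f (imv z)‖ₑ := (hc.comp continuous_imv).measurable.enorm
  refine ⟨(hc.comp continuous_imv).aestronglyMeasurable, ?_⟩
  rw [hasFiniteIntegral_iff_enorm, ← lintegral_indicator hS, ASM.lint_cx _ (hm.indicator hS)]
  have h1 : ∀ y : κ → ℝ, ∫⁻ x, {z : κ → ℂ | ‖rev z‖ ≤ C}.indicator (fun z => ‖f (imv z)‖ₑ)
      (ASM.cx x y) = ‖f y‖ₑ * volume (Metric.closedBall (0 : κ → ℝ) C) := fun y => by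
    rw [← setLIntegral_const, ← lintegral_indicator measurableSet_closedBall]
    refine lintegral_congr fun x => ?_
    change Set.indicator _ _ (cv x y) = _
    by_cases hx : ‖x‖ ≤ C
    · rw [Set.indicator_of_mem (by simpa using hx), Set.indicator_of_mem (by simpa using hx),
        imv_cv]
    · rw [Set.indicator_of_notMem (by simpa using hx), Set.indicator_of_notMem (by simpa using hx)]
  simp only [h1]
  rw [lintegral_mul_const _ hc.measurable.enorm]
  exact ENNReal.mul_lt_top hf.2 measure_closedBall_lt_top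

end INT

theorem p_INT (hWBD1 : S_WBD1) (hWBD2 : S_WBD2) (hWTC : S_WTC) (hINVD : S_INVD) (hAMB : S_AMB)
    (hPROP : S_PROP) (hMEAS : S_MEAS) : S_INT := by
  intro ι _ _ R L hR
  have := (hMEAS ι).2.1
  have key : ∃ (w : HH ι → ℝ≥0∞) (M : HH ι → ℝ), IsWt (SpZ ι) (HH ι) w ∧ (∀ᵐ Z ∂νw w, Z ∈ R) ∧
      Integrable M (νw w) ∧ (∀ Z, 0 ≤ M Z) ∧
      ∀ (Z : HH ι) (C : Sym2 ι → ℝ) (v : Sym2 ι → (Sym2 ι → ℂ) → ℝ), (∀ l, 0 ≤ C l) →
        (∀ l, Dom L (imv Z.1) (C l) (levi (v l) Z.1)) → ‖dns v Z‖ ≤ (∏ l, C l) * M Z := by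
    obtain ⟨w₀, hw₀⟩ := (hPROP ι).2.1
    obtain ⟨w, hw, hwR⟩ := (hWTC (SpZ ι) (HH ι) (μH ι) w₀ hw₀).1 R hR.1 hR.2.1
    have hw1 := (hWTC (SpZ ι) (HH ι) (μH ι) w hw).2.1
    obtain ⟨K, hK, hKb⟩ := hWBD1 (Sym2 ι)
    obtain ⟨hi, hc, h0⟩ := hWBD2 (Sym2 ι) L
    obtain ⟨C, hC⟩ := hR.2.2
    have hle : νw w ≤ (μH ι).restrict R := by
      rw [← withDensity_indicator_one hR.1]
      refine withDensity_mono (Eventually.of_forall fun Z => ?_)
      by_cases hZ : Z ∈ R
      · rw [Set.indicator_of_mem hZ]; exact hw1 Z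
      · rw [hwR Z hZ]; exact zero_le
    have hA : MeasurableSet (HS ι ∩ {z | ‖rev z‖ ≤ C}) := (isOpen_HS ι).measurableSet.inter
      (isClosed_le continuous_rev.norm continuous_const).measurableSet
    have h1 := (hAMB ι (fun z => ((K * (Om L (imv z)).det : ℝ) : ℂ)) _ hA
      Set.inter_subset_left).1.2
      (((INT.strip (hi.const_mul K) (continuous_const.mul hc) C).mono_set
        Set.inter_subset_right).ofReal)
    have h2 := ((h1.mono_set (s := R) fun Z hZ => ⟨Z.2, hC Z hZ⟩).integrable.mono_measure hle).re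
    refine ⟨w, fun Z => K * (Om L (imv Z.1)).det * (Ym Z).det ^ (Fintype.card ι + 1), hw,
      (ae_restrict_mem hR.1).filter_mono (ae_mono hle), h2.congr (Eventually.of_forall fun Z => ?_),
      fun Z => mul_nonneg (mul_nonneg hK (h0 _)) (pow_nonneg (Ym_det_pos Z).le _),
      fun Z C v hC hv => ?_⟩
    · simp only [← Complex.ofReal_mul, RCLike.re_to_complex, Complex.ofReal_re]
    · have h3 := pow_nonneg (Ym_det_pos Z).le (Fintype.card ι + 1)
      rw [dns, norm_mul, Complex.norm_real, Real.norm_of_nonneg h3, ← mul_assoc]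
      exact mul_le_mul_of_nonneg_right (hKb L _ C _ hC hv) h3
  refine ⟨key, fun w c v hw hv => ?_⟩
  obtain ⟨w', M, hw', hae, hM, -, hb⟩ := key
  have hc : Continuous (dns v) := (hINVD ι).2.2.2.2 v fun l => (hv l).1.1
  choose C hC0 hC using fun l => (hv l).2
  refine ((hWTC (SpZ ι) (HH ι) (μH ι) w hw).2.2.1 w' (dns v) hw' hc.measurable
    fun γ Z => (hINVD ι).2.2.2.1 c v γ Z fun l => (hv l).1).1.2 ?_
  refine (hM.const_mul (∏ l, C l)).mono' hc.aestronglyMeasurable ?_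
  filter_upwards [hae] with Z hZ
  exact hb Z C v hC0 fun l => hC l Z hZ

end Pool.Agent.P.MP_59bdab_ag
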