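import Pool.Agent.P.MP_59bdab_ag.IfC
import Pool.Agent.P.MP_59bdab_ag.MEAS

/-!
Invariance of the density of the top form.
-/

namespace Pool.Agent.P.MP_59bdab_ag

open Matrix MeasureTheory Filter Topology
open scoped ContDiff

namespace INVD

variable {ι : Type} [Fintype ι] [DecidableEq ι]

omit [DecidableEq ι] in
theorem cd_aff (A B : Matrix ι ι ℂ) (i j : ι) :
    ContDiff ℂ ∞ fun z : Sym2 ι → ℂ => (A * mat z + B) i j := by
  simp only [Matrix.add_apply, Matrix.mul_apply, mat_apply]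
  exact (ContDiff.sum fun k _ => contDiff_const.mul (contDiff_apply ℂ ℂ _)).add contDiff_const

theorem cd_det (γ : SpR ι) : ContDiff ℂ ∞ fun z => (den γ.1 z).det :=
  contDiffOn_univ.mp (contDiffOn_det fun i j => (cd_aff _ _ i j).contDiffOn)

theorem cd_act (γ : SpR ι) : ContDiffOn ℂ ∞ (actF γ.1) {z | (den γ.1 z).det ≠ 0} := by
  refine contDiffOn_coord (M := fun z => num γ.1 z * (den γ.1 z)⁻¹) fun i j => ?_
  simp only [Matrix.mul_apply]
  refine ContDiffOn.sum fun k _ => ContDiffOn.mul (cd_aff _ _ i k).contDiffOn ?_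
  exact contDiffOn_minv (M := fun z => den γ.1 z) (fun a b => (cd_aff _ _ a b).contDiffOn)
    (fun _ hx => hx) k j

theorem cd_act' (γ : SpR ι) : ContDiffOn ℂ ∞ (actF γ.1) (HS ι) :=
  (cd_act γ).mono fun z hz => jf_ne_zero γ ⟨z, hz⟩

theorem cd_log (γ : SpR ι) :
    ContDiffOn ℝ ∞ (fun z => Real.log (‖(den γ.1 z).det‖ ^ 2)) {z | (den γ.1 z).det ≠ 0} := by
  refine ContDiffOn.log ?_ fun z hz => pow_ne_zero _ (norm_ne_zero_iff.mpr hz)
  exact (((cd_det γ).restrict_scalars ℝ).norm_sq ℂ).contDiffOn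

theorem two_le : (2 : WithTop ℕ∞) ≤ ∞ := WithTop.coe_le_coe.mpr (le_top : (2 : ℕ∞) ≤ ⊤)

theorem det_J (hDET : S_DET) (γ : SpR ι) (Z : HH ι) :
    (LinearMap.toMatrix' (fderiv ℂ (actF γ.1) Z.1).toLinearMap).det =
      ((jf γ Z)⁻¹) ^ (Fintype.card ι + 1) := by
  rw [(MEAS.hasFDeriv γ Z).fderiv, LinearMap.det_toMatrix']
  have h : ∀ P : Matrix ι ι ℂ, LinearMap.det (MEAS.LL Pᵀ P).toLinearMap =
      P.det ^ (Fintype.card ι + 1) := by
    intro P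
    rw [← det_transpose P, ← hDET ℂ ι Pᵀ]
    rfl
  rw [h, det_nonsing_inv, Ring.inverse_eq_inv']
  rfl

theorem dns_act (hWED : S_WED) (hLEVI2 : S_LEVI2) (hDET : S_DET) (γ : SpR ι)
    (v : Sym2 ι → (Sym2 ι → ℂ) → ℝ) (Z : HH ι) (hv : ∀ l, ContDiffOn ℝ ∞ (v l) (HS ι)) :
    dns (fun l z => v l (actF γ.1 z)) Z = dns v (γ • Z) := by
  have hZ := (isOpen_HS ι).mem_nhds Z.2
  have hγZ := (isOpen_HS ι).mem_nhds (γ • Z).2
  have h1 : ContDiffAt ℂ 2 (actF γ.1) Z.1 := ((cd_act' γ).contDiffAt hZ).of_le two_le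
  set J := LinearMap.toMatrix' (fderiv ℂ (actF γ.1) Z.1).toLinearMap with hJ
  have h2 : ∀ l, levi (fun z => v l (actF γ.1 z)) Z.1 = Jᵀ * levi (v l) (γ • Z).1 * J.map star :=
    fun l => ((hLEVI2 (Sym2 ι)).1 (Sym2 ι) (actF γ.1) (v l) Z.1 h1
      (((hv l).contDiffAt hγZ).of_le two_le)).2.2
  have h3 : (J.map star).det = star J.det :=
    ((starRingEnd ℂ).map_det J).symm
  have h4 : J.det = ((jf γ Z)⁻¹) ^ (Fintype.card ι + 1) := det_J hDET γ Z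
  have h5 : (jf γ Z) ≠ 0 := jf_ne_zero γ Z
  simp only [dns, h2]
  rw [(hWED (Sym2 ι)).2.2.2.1, det_transpose, h3, h4, ← det_Ym_smul γ Z]
  have h6 : (((‖jf γ Z‖ ^ 2 : ℝ)) : ℂ) = jf γ Z * star (jf γ Z) := by
    rw [RCLike.star_def, Complex.mul_conj']; push_cast; rfl
  have h7 : star (jf γ Z) ≠ 0 := star_ne_zero.mpr h5
  rw [mul_pow, Complex.ofReal_mul, Complex.ofReal_pow (‖jf γ Z‖ ^ 2), h6, star_pow, star_inv₀,
    mul_pow, inv_pow, inv_pow]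
  have h8 : jf γ Z ^ (Fintype.card ι + 1) ≠ 0 := pow_ne_zero _ h5
  have h9 : star (jf γ Z) ^ (Fintype.card ι + 1) ≠ 0 := pow_ne_zero _ h7
  field_simp

theorem levi_act (hLEVI1 : S_LEVI1) (hLEVI2 : S_LEVI2) (c : ℝ) (v : (Sym2 ι → ℂ) → ℝ)
    (γ : SpZ ι) (Z : HH ι) (hv : Pot c v) :
    levi (fun z => v (actF (toR γ).1 z)) Z.1 = levi v Z.1 := by
  have h1 : (fun z => v (actF (toR γ).1 z)) =ᶠ[𝓝 Z.1]
      fun z => c * Real.log (‖(den (toR γ).1 z).det‖ ^ 2) + v z := by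
    refine eventually_amb.mpr (Eventually.of_forall fun W => ?_)
    exact (hv.2 γ W).trans (add_comm _ _)
  have h0 : (den (toR γ).1 Z.1).det ≠ 0 := jf_ne_zero (toR γ) Z
  have h2 : ContDiffAt ℝ 2 (fun z => Real.log (‖(den (toR γ).1 z).det‖ ^ 2)) Z.1 :=
    ((cd_log (toR γ)).contDiffAt
      ((isOpen_ne_fun (cd_det (toR γ)).continuous continuous_const).mem_nhds h0)).of_le two_le
  rw [((hLEVI1 (Sym2 ι)).1 _ _ _ h1).1,
    ((hLEVI1 (Sym2 ι)).2.2.2.1 _ _ c _ h2 ((hv.contDiffAt Z).of_le two_le)).1,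
    (hLEVI2 (Sym2 ι)).2 _ _ ((cd_det (toR γ)).contDiffAt.of_le two_le) h0, smul_zero, zero_add]

end INVD

open INVD in
theorem p_INVD (hWED : S_WED) (hLEVI1 : S_LEVI1) (hLEVI2 : S_LEVI2) (hDET : S_DET) : S_INVD := by
  intro ι _ _
  refine ⟨fun γ => ⟨cd_act γ, cd_act' γ, cd_det γ, cd_log γ⟩,
    fun γ v Z hv => dns_act hWED hLEVI2 hDET γ v Z hv,
    fun c v γ Z hv => levi_act hLEVI1 hLEVI2 c v γ Z hv, fun c v γ Z hv => ?_, fun v hv => ?_⟩
  · rw [smulZ_def, ← dns_act hWED hLEVI2 hDET (toR γ) v Z fun l => (hv l).1]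
    simp only [dns, levi_act hLEVI1 hLEVI2 _ _ γ Z (hv _)]
  · refine Continuous.mul ((hWED (Sym2 ι)).2.2.2.2.2.2.2.2.comp (continuous_pi fun l => ?_))
      (Complex.continuous_ofReal.comp (continuous_Ym.matrix_det.pow _))
    exact ((hLEVI1 (Sym2 ι)).2.2.2.2.2.2.1 _ _ (isOpen_HS ι)
      ((hv l).of_le two_le)).1.comp_continuous continuous_subtype_val fun Z => Z.2

end Pool.Agent.P.MP_59bdab_ag
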