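import Pool.Agent.P.MP_59bdab_ag.IfC

/-! Derivatives of the barrier potential. -/

set_option linter.unusedSectionVars false

namespace Pool.Agent.P.MP_59bdab_ag

open Matrix Filter Topology
open scoped ContDiff

namespace LEG1

variable {ι : Type} [Fintype ι] [DecidableEq ι] {s s' : ℝ} {b β : ℝ → ℝ} {t : Sym2 ι → ℝ}

/-- Evaluation of a form as a continuous linear map. -/
noncomputable def prL (p : ι → ℤ) : (Sym2 ι → ℝ) →L[ℝ] ℝ :=
  LinearMap.toContinuousLinearMap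
    { toFun := fun t => pr t p
      map_add' := fun x y => pr_add x y p
      map_smul' := fun c x => pr_smul c x p }

theorem cd_dm (i j : ι) : ContDiff ℝ ∞ fun t : Sym2 ι → ℝ => dm t i j := by
  simp only [dm_apply]
  split_ifs <;> fun_prop

theorem cd_log : ContDiffOn ℝ ∞ (fun t : Sym2 ι → ℝ => Real.log (dm t).det) (PT ι) :=
  (contDiffOn_det fun i j => (cd_dm i j).contDiffOn).log fun _ ht => ht.det_pos.ne'

theorem cd_inv : ContDiffOn ℝ ∞ (fun t : Sym2 ι → ℝ => coord (dm t)⁻¹) (PT ι) :=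
  contDiffOn_coord (contDiffOn_minv (fun i j => (cd_dm i j).contDiffOn) fun _ ht => ht.det_pos.ne')

theorem inv_symm (t : Sym2 ι → ℝ) : ((dm t)⁻¹)ᵀ = (dm t)⁻¹ := by
  rw [transpose_nonsing_inv, dm_transpose]

theorem d_log (ht : t ∈ PT ι) (S : Sym2 ι → ℝ) :
    fderiv ℝ (fun t : Sym2 ι → ℝ => Real.log (dm t).det) t S = coord (dm t)⁻¹ ⬝ᵥ S := by
  have h0 : (dm t).det ≠ 0 := ht.det_pos.ne'
  have h1 := ((cd_log.contDiffAt (isOpen_PT.mem_nhds ht)).differentiableAt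
    (by simp)).hasFDerivAt.hasLineDerivAt S
  refine h1.unique ?_
  obtain ⟨q, hq⟩ : ∃ q : Polynomial ℝ, ∀ x : ℝ, (dm (t + x • S)).det =
      (dm t).det * (1 + ((dm t)⁻¹ * dm S).trace * x + q.eval x * x ^ 2) := ⟨_, fun x => by
    rw [← det_one_add_smul, ← det_mul, Matrix.mul_add, Matrix.mul_one, Matrix.mul_smul,
      mul_nonsing_inv_cancel_left _ _ h0.isUnit, dm_add, dm_smul]⟩
  have h2 := (((((hasDerivAt_id' (0 : ℝ)).const_mul ((dm t)⁻¹ * dm S).trace).const_add 1).add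
    ((q.hasDerivAt 0).mul (hasDerivAt_pow 2 (0 : ℝ)))).const_mul (dm t).det).log (by simpa using h0)
  simp only [HasLineDerivAt, hq]
  refine h2.congr_deriv (Eq.symm ?_)
  rw [dotProduct_comm, dot_eq_trace, mat_coord (inv_symm t), trace_mul_comm]
  simp [h0]

open scoped Matrix.Norms.Operator in
theorem d_inv (ht : t ∈ PT ι) : ∃ L : (Sym2 ι → ℝ) →L[ℝ] Sym2 ι → ℝ,
    HasFDerivAt (fun t : Sym2 ι → ℝ => coord (dm t)⁻¹) L t ∧
      ∀ S, S ⬝ᵥ L S = -((dm t)⁻¹ * dm S * (dm t)⁻¹ * dm S).trace := by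
  have hu : IsUnit (dm t) := (isUnit_iff_isUnit_det _).2 ht.det_pos.ne'.isUnit
  have : CompleteSpace (Matrix ι ι ℝ) := FiniteDimensional.complete ℝ _
  have h1 := hasFDerivAt_ringInverse (𝕜 := ℝ) hu.unit
  have h2 : HasFDerivAt (dm : (Sym2 ι → ℝ) → Matrix ι ι ℝ)
      (LinearMap.toContinuousLinearMap (dmL ι)) t :=
    (LinearMap.toContinuousLinearMap (dmL ι)).hasFDerivAt
  have h3 := (LinearMap.toContinuousLinearMap (coordL ι ℝ)).hasFDerivAt.comp t (h1.comp t h2)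
  have e : (fun t : Sym2 ι → ℝ => coord (dm t)⁻¹) =
      (LinearMap.toContinuousLinearMap (coordL ι ℝ)) ∘ Ring.inverse ∘ dm := by
    funext w
    simp only [Function.comp_apply, nonsing_inv_eq_ringInverse]
    rfl
  refine ⟨_, e ▸ h3, fun S => ?_⟩
  have e1 : ((hu.unit⁻¹ : (Matrix ι ι ℝ)ˣ) : Matrix ι ι ℝ) = (dm t)⁻¹ := by
    rw [coe_units_inv, hu.unit_spec]
  change S ⬝ᵥ coord (-(_ * dm S * _)) = _
  rw [e1, dot_eq_trace, mat_coord (by
    rw [transpose_neg, transpose_mul, transpose_mul, inv_symm, dm_transpose, Matrix.mul_assoc]),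
    Matrix.mul_neg, trace_neg, trace_mul_comm]

theorem loc (hRYP : S_RYP) (h : Bar s s' b β) (ht : t ∈ RI ι s) (P₁ : Finset (ι → ℤ)) :
    ∃ P : Finset (ι → ℤ), (∀ p ∈ P, s < pr t p) ∧ P₁.erase 0 ⊆ P ∧
      (YY b =ᶠ[𝓝 t] fun t => coord (dm t)⁻¹ + ∑ p ∈ P, b (pr t p) • sqr p) ∧
      BB β =ᶠ[𝓝 t] fun t => ∑ p ∈ P, β (pr t p) := by
  obtain ⟨P, hP⟩ := (hRYP ι).2.2.1 t (((hRYP ι).2.2.2.1 s h.pos).2.2.1 ht) s'
  refine ⟨(P ∪ P₁).erase 0, fun p hp => ht p (Finset.ne_of_mem_erase hp),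
    Finset.erase_subset_erase _ Finset.subset_union_right, ?_, ?_⟩ <;> filter_upwards [hP] with x hx
  · rw [h.YY_eq (P := P ∪ P₁) fun p hp => hx p fun a => hp (Finset.mem_union_left _ a),
      Finset.sum_erase _ (by simp)]
  · rw [h.BB_eq (P := P ∪ P₁) fun p hp => hx p fun a => hp (Finset.mem_union_left _ a),
      Finset.sum_erase _ (by simp [h.β_at_zero])]

theorem cd_pr {f : ℝ → ℝ} (hf : ContDiffOn ℝ ∞ f (Set.Ioi s)) {p : ι → ℤ} (hp : s < pr t p) :
    ContDiffAt ℝ ∞ (fun t => f (pr t p)) t :=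
  (hf.contDiffAt (Ioi_mem_nhds hp)).comp t (prL p).contDiff.contDiffAt

theorem psd (hRYP : S_RYP) (h : Bar s s' b β) (ht : t ∈ RI ι s) :
    (mat (YY b t - coord (dm t)⁻¹)).PosSemidef := by
  obtain ⟨P, h1, -, h2, -⟩ := loc hRYP h ht ∅
  rw [h2.self_of_nhds, add_sub_cancel_left]
  change (matL ι ℝ _).PosSemidef
  rw [map_sum]
  refine posSemidef_sum _ fun p hp => ?_
  change (mat (b (pr t p) • sqr p)).PosSemidef
  rw [mat_smul, mat_sqr]
  exact (posSemidef_vecMulVec_self_star (cz p)).smul (h.b_nonneg _ (h1 p hp))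

end LEG1

open LEG1 in
theorem p_LEG1 (hRYP : S_RYP) : S_LEG1 := by
  intro ι _ _ s s' b β h
  have hPT : RI ι s ⊆ PT ι := ((hRYP ι).2.2.2.1 s h.pos).2.2.1
  refine ⟨fun t ht => ?_, fun t ht => ?_, cd_log, cd_inv, fun t ht => ?_,
    fun t ht => psd hRYP h ht, fun t ht S => ?_, fun t ht P₁ S => ?_⟩
  · obtain ⟨P, h1, -, h2, -⟩ := loc hRYP h ht ∅
    exact (((cd_inv.contDiffAt (isOpen_PT.mem_nhds (hPT ht))).add (ContDiffAt.sum fun p hp =>
      (cd_pr h.smooth_b (h1 p hp)).smul contDiffAt_const)).congr_of_eventuallyEq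
        h2).contDiffWithinAt
  · obtain ⟨P, h1, -, -, h2⟩ := loc hRYP h ht ∅
    exact ((ContDiffAt.sum fun p hp => cd_pr h.smooth_β (h1 p hp)).congr_of_eventuallyEq
      h2).contDiffWithinAt
  · have := (hPT ht).inv.add_posSemidef (psd hRYP h ht)
    rwa [mat_sub, mat_coord (inv_symm t), add_sub_cancel] at this
  · obtain ⟨P, h1, -, h2, h3⟩ := loc hRYP h ht ∅
    have h4 := ((cd_log.contDiffAt (isOpen_PT.mem_nhds (hPT ht))).differentiableAt
      (by simp)).hasFDerivAt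
    have h5 := (HasFDerivAt.fun_sum fun p hp => (h.deriv_β _ (h1 p hp)).comp_hasFDerivAt t
      (prL p).hasFDerivAt).congr_of_eventuallyEq h3
    rw [(h4.fun_sub h5).fderiv, h2.self_of_nhds, add_dotProduct, sum_dotProduct,
      _root_.sub_apply, d_log (hPT ht), _root_.sum_apply, sub_eq_add_neg,
      ← Finset.sum_neg_distrib]
    refine congrArg _ (Finset.sum_congr rfl fun p _ => ?_)
    rw [smul_dotProduct, dotProduct_comm, ← pr_eq, neg_smul, _root_.neg_apply, neg_neg]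
    rfl
  · obtain ⟨P, h1, h0, h2, -⟩ := loc hRYP h ht P₁
    obtain ⟨L, hL, eL⟩ := d_inv (hPT ht)
    have h5 := (hL.fun_add (HasFDerivAt.fun_sum fun p hp =>
      ((((h.smooth_b.contDiffAt (Ioi_mem_nhds (h1 p hp))).differentiableAt
        (by simp)).hasDerivAt.comp_hasFDerivAt t (prL p).hasFDerivAt).smul_const
          (sqr p)))).congr_of_eventuallyEq h2
    rw [h5.fderiv, _root_.add_apply, dotProduct_add, eL,
      _root_.sum_apply, dotProduct_sum, sub_eq_add_neg,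
      ← Finset.sum_erase (a := 0) P₁ (by simp)]
    refine add_le_add_right (le_trans ?_ (neg_le_neg (Finset.sum_le_sum_of_subset_of_nonneg h0
      fun _ _ _ => by positivity))) _
    rw [← Finset.sum_neg_distrib]
    refine Finset.sum_le_sum fun p hp => ?_
    change S ⬝ᵥ (deriv b (pr t p) * pr S p) • sqr p ≤ _
    rw [dotProduct_smul, ← pr_eq, smul_eq_mul]
    nlinarith [mul_le_mul_of_nonneg_right (h.sq_le _ (h1 p hp)) (sq_nonneg (pr S p))]

end Pool.Agent.P.MP_59bdab_ag
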