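import Pool.Agent.P.MP_59bdab_ag.IfC

/-!
The gradient map of the barrier potential is a bijection.
-/

namespace Pool.Agent.P.MP_59bdab_ag

open Matrix MeasureTheory Filter Topology
open scoped ENNReal ContDiff

namespace LEG2

variable {ι : Type} [Fintype ι] [DecidableEq ι]

theorem log_det_le {ε : ℝ} (hε : 0 < ε) : ∃ C : ℝ, ∀ t ∈ PT ι,
    Real.log (dm t).det ≤ C + ε * ‖t‖ := by
  set g := Fintype.card ι
  have hf : (0 : ℝ) < g.factorial := by exact_mod_cast g.factorial_pos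
  refine ⟨Real.log ((g.factorial : ℝ) ^ 2 / ε ^ g), fun t ht => ?_⟩
  have h1 : |(dm t).det| ≤ g.factorial • ‖t‖ ^ g := by
    refine Matrix.det_le (abv := AbsoluteValue.abs) fun i j => ?_
    have h := norm_le_pi_norm t s(i, j)
    rw [Real.norm_eq_abs] at h
    show |dm t i j| ≤ ‖t‖
    rw [dm_apply]
    split_ifs
    · exact h
    · rw [abs_div, abs_two]
      linarith [abs_nonneg (t s(i, j))]
  have h2 := Real.pow_div_factorial_le_exp (ε * ‖t‖) (by positivity) g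
  have h3 : (dm t).det ≤ (g.factorial : ℝ) ^ 2 / ε ^ g * Real.exp (ε * ‖t‖) := by
    refine (le_abs_self _).trans (h1.trans ?_)
    have h4 : g.factorial • ‖t‖ ^ g =
        (g.factorial : ℝ) ^ 2 / ε ^ g * ((ε * ‖t‖) ^ g / g.factorial) := by
      rw [nsmul_eq_mul, mul_pow]; field_simp
    rw [h4]
    exact mul_le_mul_of_nonneg_left h2 (by positivity)
  have h5 := Real.log_le_log (Matrix.PosDef.det_pos ht) h3
  rwa [Real.log_mul (by positivity) (Real.exp_ne_zero _), Real.log_exp] at h5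

theorem β_nonneg {s s' : ℝ} {b β : ℝ → ℝ} (h : Bar s s' b β) {t : Sym2 ι → ℝ} (ht : t ∈ RI ι s)
    (p : ι → ℤ) : 0 ≤ β (pr t p) := by
  by_cases hp : p = 0
  · simp [hp, h.β_at_zero]
  · exact h.β_nonneg _ (ht p hp)

theorem β_le (hRYP : S_RYP) {s s' : ℝ} {b β : ℝ → ℝ} (h : Bar s s' b β) {t : Sym2 ι → ℝ}
    (ht : t ∈ RI ι s) (p : ι → ℤ) : β (pr t p) ≤ BB β t := by
  obtain ⟨-, -, h3, h4, -⟩ := hRYP ι
  obtain ⟨P, hP⟩ := h3 t ((h4 s h.pos).2.2.1 ht) s'
  have hP' := hP.self_of_nhds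
  rw [h.BB_eq hP']
  by_cases hp : p ∈ P
  · exact Finset.single_le_sum (f := fun p => β (pr t p)) (fun q _ => β_nonneg h ht q) hp
  · rw [h.β_zero _ (hP' p hp)]
    exact Finset.sum_nonneg fun q _ => β_nonneg h ht q

theorem inj (hLEG1 : S_LEG1) (hRYP : S_RYP) (hTRC : S_TRC) {s s' : ℝ} {b β : ℝ → ℝ}
    (h : Bar s s' b β) : Set.InjOn (YY b) (RI ι s) := by
  intro t0 h0 t1 h1 he
  obtain ⟨l1, -, -, -, -, -, -, l8⟩ := hLEG1 ι s s' b β h
  obtain ⟨ho, hc, hsub, -⟩ := (hRYP ι).2.2.2.1 s h.pos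
  by_contra hne
  set S := t1 - t0 with hS
  have hS0 : S ≠ 0 := sub_ne_zero.mpr (Ne.symm hne)
  have hmem : ∀ x ∈ Set.Icc (0 : ℝ) 1, t0 + x • S ∈ RI ι s := fun x hx =>
    hc.add_smul_sub_mem h0 h1 hx
  have hd : ∀ x ∈ Set.Icc (0 : ℝ) 1, HasDerivAt (fun x : ℝ => S ⬝ᵥ YY b (t0 + x • S))
      (S ⬝ᵥ fderiv ℝ (YY b) (t0 + x • S) S) x := by
    intro x hx
    have h2 : HasFDerivAt (YY b) (fderiv ℝ (YY b) (t0 + x • S)) (t0 + x • S) :=
      ((l1.contDiffAt (ho.mem_nhds (hmem x hx))).differentiableAt (by simp)).hasFDerivAt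
    have h3 : HasDerivAt (fun x : ℝ => t0 + x • S) S x := by
      simpa using ((hasDerivAt_id x).smul_const S).const_add t0
    have h4 := h2.comp_hasDerivAt x h3
    simp only [dotProduct]
    exact HasDerivAt.fun_sum fun a _ => ((hasDerivAt_pi.mp h4) a).const_mul (S a)
  have hanti : StrictAntiOn (fun x : ℝ => S ⬝ᵥ YY b (t0 + x • S)) (Set.Icc 0 1) := by
    refine strictAntiOn_of_deriv_neg (convex_Icc 0 1)
      (fun x hx => (hd x hx).continuousAt.continuousWithinAt) fun x hx => ?_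
    have hx' := interior_subset hx
    rw [(hd x hx').deriv]
    have h5 := l8 _ (hmem x hx') ∅ S
    obtain ⟨c, hc0, h6⟩ := hTRC ι {t0 + x • S} (Set.singleton_subset_iff.mpr (hsub (hmem x hx')))
      isCompact_singleton
    have h7 := h6 _ rfl S
    have h8 : 0 < S ⬝ᵥ S :=
      lt_of_le_of_ne (Finset.sum_nonneg fun a _ => mul_self_nonneg _)
        fun h => hS0 (dotProduct_self_eq_zero.mp h.symm)
    simp only [Finset.sum_empty, sub_zero] at h5
    nlinarith [mul_pos hc0 h8]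
  have := hanti (Set.left_mem_Icc.mpr zero_le_one) (Set.right_mem_Icc.mpr zero_le_one) zero_lt_one
  simp only [zero_smul, add_zero, one_smul, hS, add_sub_cancel] at this
  rw [he] at this
  exact lt_irrefl _ this

theorem surj (hLEG1 : S_LEG1) (hRYP : S_RYP) {s s' : ℝ} {b β : ℝ → ℝ}
    (h : Bar s s' b β) : Set.SurjOn (YY b) (RI ι s) (PD ι) := by
  intro y hy
  obtain ⟨-, l2, l3, -, -, -, l7, -⟩ := hLEG1 ι s s' b β h
  obtain ⟨r1, -, -, r4, -, r6, -⟩ := hRYP ι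
  obtain ⟨ho, -, hsub, t₀, ht₀⟩ := r4 s h.pos
  obtain ⟨c, hc, hcy⟩ := r6 y hy
  let ℓ : (Sym2 ι → ℝ) →L[ℝ] ℝ := LinearMap.toContinuousLinearMap (dotProductBilin ℝ ℝ y)
  have hℓ : ∀ t, ℓ t = y ⬝ᵥ t := fun t => rfl
  set G : (Sym2 ι → ℝ) → ℝ := fun t => Real.log (dm t).det - BB β t with hG
  set F : (Sym2 ι → ℝ) → ℝ := fun t => ℓ t - G t with hF
  have hGd : ∀ t ∈ RI ι s, DifferentiableAt ℝ G t := fun t ht =>
    ((l3.contDiffAt (isOpen_PT.mem_nhds (hsub ht))).sub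
      (l2.contDiffAt (ho.mem_nhds ht))).differentiableAt (by simp)
  have hFd : ∀ t ∈ RI ι s, DifferentiableAt ℝ F t := fun t ht =>
    ℓ.differentiableAt.sub (hGd t ht)
  set A : Set (Sym2 ι → ℝ) := {t | t ∈ RI ι s ∧ F t ≤ F t₀} with hA
  have hcl : IsClosed A := by
    refine IsSeqClosed.isClosed fun u t hu hut => ?_
    have hp : ∀ p, Tendsto (fun n => pr (u n) p) atTop (𝓝 (pr t p)) := fun p =>
      ((continuous_pr p).tendsto t).comp hut
    have hge : ∀ p, p ≠ 0 → s ≤ pr t p := fun p hp0 =>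
      ge_of_tendsto' (hp p) fun n => ((hu n).1 p hp0).le
    have htP : t ∈ PT ι := r1 s h.pos t hge
    have htR : t ∈ RI ι s := by
      intro p hp0
      refine lt_of_le_of_ne (hge p hp0) fun he => ?_
      have h1 : Tendsto (fun n => β (pr (u n) p)) atTop atTop :=
        h.tendsto_β.comp (tendsto_nhdsWithin_iff.mpr
          ⟨he ▸ hp p, Eventually.of_forall fun n => (hu n).1 p hp0⟩)
      have h2 : Tendsto (fun n => F t₀ - ℓ (u n) + Real.log (dm (u n)).det) atTop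
          (𝓝 (F t₀ - ℓ t + Real.log (dm t).det)) :=
        (tendsto_const_nhds.sub ((ℓ.continuous.tendsto t).comp hut)).add
          ((l3.contDiffAt (isOpen_PT.mem_nhds htP)).continuousAt.tendsto.comp hut)
      refine not_tendsto_atTop_of_tendsto_nhds h2 (tendsto_atTop_mono (fun n => ?_) h1)
      have h3 := β_le hRYP h (hu n).1 p
      have h4 : ℓ (u n) - (Real.log (dm (u n)).det - BB β (u n)) ≤ F t₀ := (hu n).2
      linarith
    exact ⟨htR, le_of_tendsto' ((hFd t htR).continuousAt.tendsto.comp hut) fun n => (hu n).2⟩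
  obtain ⟨C, hC⟩ := log_det_le (ι := ι) (half_pos hc)
  have hbd : Bornology.IsBounded A := by
    refine (Metric.isBounded_closedBall (x := 0) (r := (F t₀ + C) / (c / 2))).subset fun t ht => ?_
    rw [mem_closedBall_zero_iff, le_div_iff₀ (half_pos hc)]
    have h1 := hC t (hsub ht.1)
    have h2 := hcy t (Matrix.PosDef.posSemidef (hsub ht.1))
    have h3 : 0 ≤ BB β t := finsum_nonneg fun p => β_nonneg h ht.1 p
    have h4 : ℓ t - (Real.log (dm t).det - BB β t) ≤ F t₀ := ht.2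
    rw [hℓ, dotProduct_comm] at h4
    linarith
  obtain ⟨t, ht, hmin⟩ := (Metric.isCompact_of_isClosed_isBounded hcl hbd).exists_isMinOn
    ⟨t₀, ht₀, le_rfl⟩ (f := F) fun t ht => (hFd t ht.1).continuousAt.continuousWithinAt
  have hloc : IsLocalMin F t := by
    filter_upwards [ho.mem_nhds ht.1] with x hx
    by_cases h1 : F x ≤ F t₀
    · exact hmin ⟨hx, h1⟩
    · exact ht.2.trans (not_le.mp h1).le
  have h0 := hloc.fderiv_eq_zero
  have h1 : fderiv ℝ F t = ℓ - fderiv ℝ G t :=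
    (ℓ.hasFDerivAt.sub (hGd t ht.1).hasFDerivAt).fderiv
  refine ⟨t, ht.1, dotProduct_eq _ _ fun S => ?_⟩
  have h2 := congrArg (fun L : (Sym2 ι → ℝ) →L[ℝ] ℝ => L S) (h1.symm.trans h0)
  simp only [ContinuousLinearMap.sub_apply, ContinuousLinearMap.zero_apply] at h2
  rw [l7 t ht.1 S, hℓ] at h2
  linarith

end LEG2

theorem p_LEG2 (hLEG1 : S_LEG1) (hRYP : S_RYP) (hTRC : S_TRC) : S_LEG2 :=
  fun ι _ _ s s' b β h =>
    ⟨(hLEG1 ι s s' b β h).2.2.2.2.1, LEG2.inj hLEG1 hRYP hTRC h, LEG2.surj hLEG1 hRYP h⟩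

end Pool.Agent.P.MP_59bdab_ag
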