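import Pool.Agent.P.MP_59bdab_ag.IfC

/-!
The inverse of the gradient map and the Legendre transform.
-/

namespace Pool.Agent.P.MP_59bdab_ag

open Matrix MeasureTheory Filter Topology
open scoped ENNReal ContDiff

namespace LEG3

variable {κ : Type} [Fintype κ]

/-- The dot product as a continuous bilinear map. -/
noncomputable def dotL (κ : Type) [Fintype κ] : (κ → ℝ) →L[ℝ] (κ → ℝ) →L[ℝ] ℝ :=
  (dotProductBilin ℝ ℝ).toContinuousBilinearMap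

theorem dotL_apply (x y : κ → ℝ) : dotL κ x y = x ⬝ᵥ y := rfl

variable {U V : Set (κ → ℝ)} {Y G : (κ → ℝ) → κ → ℝ} {Ψ : (κ → ℝ) → ℝ}

theorem smooth_inv (hU : IsOpen U) (hY : ContDiffOn ℝ ∞ Y U) (hG : Set.MapsTo G V U)
    (h1 : ∀ y ∈ V, Y (G y) = y) (h2 : ∀ t ∈ U, G (Y t) = t)
    (hi : ∀ t ∈ U, Function.Injective (fderiv ℝ Y t)) {y : κ → ℝ} (hy : y ∈ V) :
    ContDiffAt ℝ ∞ G y := by
  have ht := hU.mem_nhds (hG hy)
  have hc : ContDiffAt ℝ ∞ Y (G y) := hY.contDiffAt ht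
  let e : (κ → ℝ) ≃L[ℝ] κ → ℝ :=
    (LinearEquiv.ofInjectiveEndo (fderiv ℝ Y (G y)).toLinearMap
      (hi _ (hG hy))).toContinuousLinearEquiv
  have hd : HasFDerivAt Y (e : (κ → ℝ) →L[ℝ] κ → ℝ) (G y) :=
    (hc.differentiableAt (by simp)).hasFDerivAt
  have h3 := (hc.to_localInverse hd (by simp)).congr_of_eventuallyEq
    ((hc.hasStrictFDerivAt' hd (by simp)).localInverse_unique (g := G)
      (eventually_of_mem ht h2))
  rwa [h1 y hy] at h3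

theorem chain (hU : IsOpen U) (hV : IsOpen V) (hY : ContDiffOn ℝ ∞ Y U) (hG : Set.MapsTo G V U)
    (h1 : ∀ y ∈ V, Y (G y) = y) {y : κ → ℝ} (hy : y ∈ V) (hd : DifferentiableAt ℝ G y)
    (η : κ → ℝ) : fderiv ℝ Y (G y) (fderiv ℝ G y η) = η := by
  have h2 := ((hY.contDiffAt (hU.mem_nhds (hG hy))).differentiableAt (by simp)).hasFDerivAt.comp y
    hd.hasFDerivAt
  have h3 : HasFDerivAt (Y ∘ G) (ContinuousLinearMap.id ℝ _) y :=
    (hasFDerivAt_id y).congr_of_eventuallyEq (eventually_of_mem (hV.mem_nhds hy) h1)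
  exact DFunLike.congr_fun (h2.unique h3) η

theorem leg (hU : IsOpen U) (hΨ : ContDiffOn ℝ ∞ Ψ U) (hG : Set.MapsTo G V U)
    (h1 : ∀ y ∈ V, Y (G y) = y) (h2 : ∀ t ∈ U, ∀ S, fderiv ℝ Ψ t S = Y t ⬝ᵥ S)
    {y : κ → ℝ} (hy : y ∈ V) (hd : DifferentiableAt ℝ G y) :
    fderiv ℝ (fun y => Ψ (G y) - G y ⬝ᵥ y) y = -dotL κ (G y) := by
  have h3 := ((hΨ.contDiffAt (hU.mem_nhds (hG hy))).differentiableAt (by simp)).hasFDerivAt.comp y
    hd.hasFDerivAt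
  have h4 := (dotL κ).hasFDerivAt_of_bilinear hd.hasFDerivAt (hasFDerivAt_id y)
  refine (h3.sub h4).fderiv.trans (ContinuousLinearMap.ext fun η => ?_)
  change fderiv ℝ Ψ (G y) (fderiv ℝ G y η) - (G y ⬝ᵥ η + fderiv ℝ G y η ⬝ᵥ y) = -(G y ⬝ᵥ η)
  rw [h2 _ (hG hy), h1 y hy, dotProduct_comm y]
  ring

end LEG3

theorem p_LEG3 (hLEG1 : S_LEG1) (hLEG2 : S_LEG2) (hRYP : S_RYP) (hTRC : S_TRC) : S_LEG3 := by
  intro ι _ _ s s' b β hb
  obtain ⟨l1, l2, l3, -, -, -, l7, l8⟩ := hLEG1 ι s s' b β hb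
  have bij := hLEG2 ι s s' b β hb
  obtain ⟨hU, -, hUP, -⟩ := (hRYP ι).2.2.2.1 s hb.pos
  have hV := isOpen_PD ι
  have inv := bij.invOn_invFunOn
  have bij' : Set.BijOn (GG s b) (PD ι) (RI ι s) := (bij.symm inv.symm)
  have h1 : ∀ y ∈ PD ι, YY b (GG s b y) = y := fun y hy => inv.2 hy
  have h2 : ∀ t ∈ RI ι s, GG s b (YY b t) = t := fun t ht => inv.1 ht
  have hi : ∀ t ∈ RI ι s, Function.Injective (fderiv ℝ (YY b) t) := by
    intro t ht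
    refine (injective_iff_map_eq_zero _).2 fun S hS => ?_
    obtain ⟨c, hc, h3⟩ := hTRC ι {t} (Set.singleton_subset_iff.2 (hUP ht)) isCompact_singleton
    have h4 := l8 t ht ∅ S
    rw [hS, dotProduct_zero, Finset.sum_empty, sub_zero] at h4
    have h5 : S ⬝ᵥ S ≤ 0 := by
      by_contra h6
      linarith [h3 t rfl S, mul_pos hc (not_le.1 h6)]
    exact dotProduct_self_eq_zero.1 (le_antisymm h5 (Finset.sum_nonneg fun a _ => mul_self_nonneg _))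
  have hG : ∀ y ∈ PD ι, ContDiffAt ℝ ∞ (GG s b) y := fun y hy =>
    LEG3.smooth_inv hU l1 bij'.mapsTo h1 h2 hi hy
  have hGd : ∀ y ∈ PD ι, DifferentiableAt ℝ (GG s b) y := fun y hy =>
    (hG y hy).differentiableAt (by simp)
  have hG' : ContDiffOn ℝ ∞ (GG s b) (PD ι) := fun y hy => (hG y hy).contDiffWithinAt
  have hΨ : ContDiffOn ℝ ∞ (fun t : Sym2 ι → ℝ => Real.log (dm t).det - BB β t) (RI ι s) :=
    (l3.mono hUP).sub l2
  have h7 : ∀ y ∈ PD ι, fderiv ℝ (Ph s b β) y = -LEG3.dotL _ (GG s b y) := fun y hy =>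
    LEG3.leg hU hΨ bij'.mapsTo h1 l7 hy (hGd y hy)
  refine ⟨hG', bij', h1, h2, fun y hy η => LEG3.chain hU hV l1 bij'.mapsTo h1 hy (hGd y hy) η, ?_,
    fun y hy η => by rw [h7 y hy]; rfl, fun y hy η η' => ?_⟩
  · have h9 : ContDiffOn ℝ ∞ (fun y => LEG3.dotL (Sym2 ι) (GG s b y) y) (PD ι) :=
      ((LEG3.dotL (Sym2 ι)).contDiff.comp_contDiffOn hG').clm_apply contDiffOn_id
    exact (hΨ.comp hG' bij'.mapsTo).sub h9
  · have h8 := (((LEG3.dotL _).hasFDerivAt.comp y (hGd y hy).hasFDerivAt).neg).congr_of_eventuallyEq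
      (f₁ := fderiv ℝ (Ph s b β)) (eventually_of_mem (hV.mem_nhds hy) h7)
    rw [h8.fderiv]
    rfl

end Pool.Agent.P.MP_59bdab_ag
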