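import Pool.Agent.P.MP_59bdab_ag.IfC

/-! Calculus of Levi forms. -/

set_option linter.unusedSectionVars false

namespace Pool.Agent.P.MP_59bdab_ag

open Matrix MeasureTheory Filter Topology
open scoped ENNReal ContDiff

namespace LEVI1

variable {κ : Type} [Fintype κ] [DecidableEq κ]

theorem fd (u : (κ → ℂ) → ℝ) (z v : κ → ℂ) :
    fderiv ℝ (fun y => (u y : ℂ)) z v = (fderiv ℝ u z v : ℝ) := by
  by_cases h : DifferentiableAt ℝ u z
  · have h1 : HasFDerivAt (fun y => (u y : ℂ)) (Complex.ofRealCLM.comp (fderiv ℝ u z)) z :=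
      Complex.ofRealCLM.hasFDerivAt.comp z h.hasFDerivAt
    rw [h1.fderiv]; rfl
  · have h1 : ¬DifferentiableAt ℝ (fun y => (u y : ℂ)) z := fun h1 =>
      h (Complex.reCLM.differentiableAt.comp z h1)
    rw [fderiv_zero_of_not_differentiableAt h, fderiv_zero_of_not_differentiableAt h1]
    simp

/-- The Wirtinger combination as a continuous linear map. -/
noncomputable def LL (c : ℂ) (v : κ → ℂ) : ((κ → ℂ) →L[ℝ] ℝ) →L[ℝ] ℂ :=
  (2⁻¹ : ℂ) • (Complex.ofRealCLM.comp (ContinuousLinearMap.apply ℝ ℝ v) +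
    c • Complex.ofRealCLM.comp (ContinuousLinearMap.apply ℝ ℝ (Complex.I • v)))

theorem LL_apply (c : ℂ) (v : κ → ℂ) (T : (κ → ℂ) →L[ℝ] ℝ) :
    LL c v T = ((T v : ℝ) + c * (T (Complex.I • v) : ℝ)) / 2 := by
  simp [LL]; ring

theorem single_I (a : κ) :
    Complex.I • (Pi.single a 1 : κ → ℂ) = Pi.single a Complex.I := by
  rw [← Pi.single_smul, smul_eq_mul, mul_one]

theorem wd_eq (c : ℂ) (a : κ) (u : (κ → ℂ) → ℝ) :
    wd c a (fun y => (u y : ℂ)) = fun z => LL c (Pi.single a 1) (fderiv ℝ u z) := by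
  funext z
  rw [wd, fd, fd, LL_apply, single_I]

theorem dzz_eq (u : (κ → ℂ) → ℝ) (z : κ → ℂ) (a : κ) :
    dzz u z a = LL (-Complex.I) (Pi.single a 1) (fderiv ℝ u z) := by
  rw [dzz, wd_eq]

theorem d2 {u : (κ → ℂ) → ℝ} {z : κ → ℂ} (h : ContDiffAt ℝ 2 u z) :
    DifferentiableAt ℝ (fderiv ℝ u) z :=
  (h.fderiv_right (m := 1) (by norm_num)).differentiableAt (by norm_num)

theorem levi_eq {u : (κ → ℂ) → ℝ} {z : κ → ℂ} (h : ContDiffAt ℝ 2 u z) (a b : κ) :
    levi u z a b = (LL Complex.I (Pi.single b 1) (fderiv ℝ (fderiv ℝ u) z (Pi.single a 1)) +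
      -Complex.I * LL Complex.I (Pi.single b 1)
        (fderiv ℝ (fderiv ℝ u) z (Pi.single a Complex.I))) / 2 := by
  have h1 : HasFDerivAt (fun z => LL Complex.I (Pi.single b 1) (fderiv ℝ u z))
      ((LL Complex.I (Pi.single b 1)).comp (fderiv ℝ (fderiv ℝ u) z)) z :=
    (LL Complex.I (Pi.single b 1)).hasFDerivAt.comp z (d2 h).hasFDerivAt
  rw [levi, Matrix.of_apply, wd_eq, wd, h1.fderiv]
  rfl

theorem expand (T : (κ → ℂ) →L[ℝ] ℂ) (ζ : κ → ℂ) :
    T ζ = ∑ a, ((ζ a).re * T (Pi.single a 1) + (ζ a).im * T (Pi.single a Complex.I)) := by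
  have h : ζ = ∑ a, ((ζ a).re • (Pi.single a 1 : κ → ℂ) +
      (ζ a).im • (Pi.single a Complex.I : κ → ℂ)) := by
    funext b
    rw [Finset.sum_apply, Finset.sum_eq_single b]
    · simp
    · intro a _ hab
      simp [Pi.single_eq_of_ne hab.symm]
    · simp
  conv_lhs => rw [h]
  simp only [map_sum, map_add, map_smul, Complex.real_smul]

theorem lin (T : (κ → ℂ) →L[ℝ] ℂ) (ζ : κ → ℂ) :
    ∑ a, ζ a * ((T (Pi.single a 1) + -Complex.I * T (Pi.single a Complex.I)) / 2) =
      (T ζ + -Complex.I * T (Complex.I • ζ)) / 2 := by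
  rw [expand T ζ, expand T (Complex.I • ζ), Finset.mul_sum, ← Finset.sum_add_distrib,
    Finset.sum_div]
  refine Finset.sum_congr rfl fun a _ => ?_
  have h := Complex.re_add_im (ζ a)
  simp only [Pi.smul_apply, smul_eq_mul, Complex.I_mul_re, Complex.I_mul_im, Complex.ofReal_neg]
  linear_combination (-(T (Pi.single a 1) + -Complex.I * T (Pi.single a Complex.I)) / 2) * h +
    (-((ζ a).im * T (Pi.single a Complex.I)) / 2) * Complex.I_mul_I

theorem alin (T : (κ → ℂ) →L[ℝ] ℝ) (ζ : κ → ℂ) :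
    ∑ b, LL Complex.I (Pi.single b 1) T * star (ζ b) = LL Complex.I ζ T := by
  have h1 := expand (Complex.ofRealCLM.comp T) ζ
  have h2 := expand (Complex.ofRealCLM.comp T) (Complex.I • ζ)
  simp only [ContinuousLinearMap.comp_apply, Complex.ofRealCLM_apply] at h1 h2
  rw [LL_apply Complex.I ζ, h1, h2, Finset.mul_sum, ← Finset.sum_add_distrib, Finset.sum_div]
  refine Finset.sum_congr rfl fun a _ => ?_
  have h : star (ζ a) = (ζ a).re - (ζ a).im * Complex.I := by
    apply Complex.ext <;> simp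
  simp only [LL_apply, single_I, h, Pi.smul_apply, smul_eq_mul, Complex.I_mul_re,
    Complex.I_mul_im, Complex.ofReal_neg]
  linear_combination (-((ζ a).im * (T (Pi.single a Complex.I) : ℂ)) / 2) * Complex.I_mul_I

theorem congr {u v : (κ → ℂ) → ℝ} {z : κ → ℂ} (h : u =ᶠ[𝓝 z] v) :
    levi u z = levi v z ∧ dzz u z = dzz v z := by
  have h1 : fderiv ℝ u =ᶠ[𝓝 z] fderiv ℝ v := h.fderiv
  refine ⟨Matrix.ext fun a b => ?_, funext fun a => by rw [dzz_eq, dzz_eq, h1.eq_of_nhds]⟩
  have h2 : (fun z => LL Complex.I (Pi.single b 1) (fderiv ℝ u z)) =ᶠ[𝓝 z]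
      fun z => LL Complex.I (Pi.single b 1) (fderiv ℝ v z) := h1.mono fun y hy => by
    beta_reduce; rw [hy]
  rw [levi, levi, Matrix.of_apply, Matrix.of_apply, wd_eq, wd_eq, wd, wd, h2.fderiv_eq]

theorem hq_levi {u : (κ → ℂ) → ℝ} {z : κ → ℂ} (h : ContDiffAt ℝ 2 u z) (ζ : κ → ℂ) :
    hq (levi u z) ζ = (((fderiv ℝ (fderiv ℝ u) z ζ ζ +
      fderiv ℝ (fderiv ℝ u) z (Complex.I • ζ) (Complex.I • ζ)) / 4 : ℝ) : ℂ) := by
  have hs := h.isSymmSndFDerivAt (by simp) ζ (Complex.I • ζ)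
  have h1 := lin ((LL Complex.I ζ).comp (fderiv ℝ (fderiv ℝ u) z)) ζ
  simp only [ContinuousLinearMap.comp_apply] at h1
  have h2 : hq (levi u z) ζ = ∑ a, ζ a *
      ((LL Complex.I ζ (fderiv ℝ (fderiv ℝ u) z (Pi.single a 1)) + -Complex.I *
        LL Complex.I ζ (fderiv ℝ (fderiv ℝ u) z (Pi.single a Complex.I))) / 2) := by
    refine Finset.sum_congr rfl fun a _ => ?_
    congr 1
    rw [← alin, ← alin _ ζ, Finset.mul_sum, ← Finset.sum_add_distrib, Finset.sum_div]
    refine Finset.sum_congr rfl fun b _ => ?_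
    change levi u z a b * star (ζ b) = _
    rw [levi_eq h]
    ring
  rw [h2, h1, LL_apply, LL_apply, hs]
  push_cast
  linear_combination
    (-(fderiv ℝ (fderiv ℝ u) z (Complex.I • ζ) (Complex.I • ζ) : ℂ) / 4) * Complex.I_mul_I

theorem comb {u v : (κ → ℂ) → ℝ} (x : ℝ) {z : κ → ℂ} (hu : ContDiffAt ℝ 2 u z)
    (hv : ContDiffAt ℝ 2 v z) :
    levi (fun y => x * u y + v y) z = (x : ℂ) • levi u z + levi v z ∧
      dzz (fun y => x * u y + v y) z = (x : ℂ) • dzz u z + dzz v z := by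
  have h1 : fderiv ℝ (fun y => x * u y + v y) =ᶠ[𝓝 z]
      fun y => x • fderiv ℝ u y + fderiv ℝ v y := by
    filter_upwards [hu.eventually (by simp), hv.eventually (by simp)] with y a b
    exact (((a.differentiableAt (by norm_num)).hasFDerivAt.const_mul x).add
      (b.differentiableAt (by norm_num)).hasFDerivAt).fderiv
  have h2 : fderiv ℝ (fderiv ℝ fun y => x * u y + v y) z =
      x • fderiv ℝ (fderiv ℝ u) z + fderiv ℝ (fderiv ℝ v) z := by
    rw [h1.fderiv_eq]
    exact (((d2 hu).hasFDerivAt.const_smul x).add (d2 hv).hasFDerivAt).fderiv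
  refine ⟨Matrix.ext fun a b => ?_, funext fun a => ?_⟩
  · rw [levi_eq ((contDiffAt_const.mul hu).add hv), h2, Matrix.add_apply, Matrix.smul_apply,
      levi_eq hu, levi_eq hv]
    simp only [_root_.add_apply, _root_.smul_apply, map_add, map_smul,
      Complex.real_smul, smul_eq_mul]
    ring
  · rw [Pi.add_apply, Pi.smul_apply, dzz_eq, dzz_eq, dzz_eq, h1.eq_of_nhds, map_add, map_smul,
      Complex.real_smul, smul_eq_mul]

theorem const (c : ℝ) (z : κ → ℂ) : levi (fun _ => c) z = 0 ∧ dzz (fun _ => c) z = 0 := by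
  refine ⟨Matrix.ext fun a b => ?_, funext fun a => ?_⟩
  · rw [levi_eq contDiffAt_const]
    simp
  · rw [dzz_eq]
    simp

end LEVI1

open LEVI1 in
theorem p_LEVI1 : S_LEVI1 := by
  intro κ _ _
  refine ⟨fun u v z h => LEVI1.congr h, fun u z h => hq_levi h, fun u z _ ζ => ?_,
    fun u v x z => comb x, const, fun I s u z h => ?_, fun u U hU h => ?_, fun u z h => ?_⟩
  · have h1 := lin (Complex.ofRealCLM.comp (fderiv ℝ u z)) ζ
    simp only [ContinuousLinearMap.comp_apply, Complex.ofRealCLM_apply] at h1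
    rw [sub_eq_add_neg, ← neg_mul, ← h1]
    refine Finset.sum_congr rfl fun a _ => ?_
    rw [dzz_eq, LL_apply, single_I, mul_comm]
  · classical
    induction s using Finset.induction_on with
    | empty => simpa using (const (0 : ℝ) z).1
    | insert i s hi ih =>
      have h1 := (comb 1 (h i (Finset.mem_insert_self i s))
        (ContDiffAt.sum fun j hj => h j (Finset.mem_insert_of_mem hj))).1
      simp only [one_mul, Complex.ofReal_one, one_smul] at h1
      simp only [Finset.sum_insert hi]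
      rw [h1, ih fun j hj => h j (Finset.mem_insert_of_mem hj)]
  · have h1 : ContDiffOn ℝ 1 (fderiv ℝ u) U := h.fderiv_of_isOpen hU (by norm_num)
    have h2 := h1.continuousOn_fderiv_of_isOpen hU le_rfl
    refine ⟨continuousOn_pi.2 fun a => continuousOn_pi.2 fun b => ?_,
      continuousOn_pi.2 fun a => ?_⟩
    · refine ContinuousOn.congr ?_ fun z hz => levi_eq (h.contDiffAt (hU.mem_nhds hz)) a b
      exact (((LL _ _).continuous.comp_continuousOn (h2.clm_apply continuousOn_const)).add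
        (continuousOn_const.mul ((LL _ _).continuous.comp_continuousOn
          (h2.clm_apply continuousOn_const)))).div_const _
    · simp only [dzz_eq]
      exact (LL _ _).continuous.comp_continuousOn h1.continuousOn
  · rw [(LEVI1.congr (notMem_tsupport_iff_eventuallyEq.1 h)).1]
    exact (const (0 : ℝ) z).1

end Pool.Agent.P.MP_59bdab_ag
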