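import Pool.Agent.P.MP_59bdab_ag.IfC

/-! The chain rule for the Levi form under holomorphic maps. -/

namespace Pool.Agent.P.MP_59bdab_ag

open Matrix Filter Topology

namespace LEVI2

variable {κ κ' : Type} [Fintype κ] [Fintype κ'] {h : (κ → ℂ) → κ' → ℂ} {u : (κ' → ℂ) → ℝ}
  {z : κ → ℂ}

theorem fst (hh : ContDiffAt ℂ 2 h z) (hu : ContDiffAt ℝ 2 u (h z)) :
    fderiv ℝ (fun y => u (h y)) z = (fderiv ℝ u (h z)).comp ((fderiv ℂ h z).restrictScalars ℝ) :=
  ((hu.differentiableAt (by simp)).hasFDerivAt.comp z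
    ((hh.differentiableAt (by simp)).hasFDerivAt.restrictScalars ℝ)).fderiv

theorem snd (hh : ContDiffAt ℂ 2 h z) (hu : ContDiffAt ℝ 2 u (h z)) (ξ ζ : κ → ℂ) :
    fderiv ℝ (fderiv ℝ fun y => u (h y)) z ξ ζ =
      fderiv ℝ (fderiv ℝ u) (h z) (fderiv ℂ h z ξ) (fderiv ℂ h z ζ) +
        fderiv ℝ u (h z) (fderiv ℂ (fderiv ℂ h) z ξ ζ) := by
  have h1 : (fderiv ℝ fun y => u (h y)) =ᶠ[𝓝 z]
      fun y => (fderiv ℝ u (h y)).comp ((fderiv ℂ h y).restrictScalars ℝ) := by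
    filter_upwards [hh.eventually (by simp), hh.continuousAt.eventually (hu.eventually (by simp))]
      with y hy hy' using fst hy hy'
  have h2 : HasFDerivAt (fun y => fderiv ℝ u (h y))
      ((fderiv ℝ (fderiv ℝ u) (h z)).comp ((fderiv ℂ h z).restrictScalars ℝ)) z :=
    ((hu.fderiv_right (m := 1) (by norm_num)).differentiableAt (by simp)).hasFDerivAt.comp z
      ((hh.differentiableAt (by simp)).hasFDerivAt.restrictScalars ℝ)
  have h3 : HasFDerivAt (fun y => (fderiv ℂ h y).restrictScalars ℝ)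
      ((ContinuousLinearMap.restrictScalarsL ℂ (κ → ℂ) (κ' → ℂ) ℝ ℝ).comp
        ((fderiv ℂ (fderiv ℂ h) z).restrictScalars ℝ)) z :=
    (ContinuousLinearMap.restrictScalarsL ℂ (κ → ℂ) (κ' → ℂ) ℝ ℝ).hasFDerivAt.comp z
      (((hh.fderiv_right (m := 1) (by norm_num)).differentiableAt
        (by simp)).hasFDerivAt.restrictScalars ℝ)
  rw [h1.fderiv_eq, (h2.clm_comp h3).fderiv, add_comm]
  rfl

theorem hq_conj (M : Matrix κ' κ ℂ) (A : Matrix κ' κ' ℂ) (ζ : κ → ℂ) :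
    hq (Mᵀ * A * M.map star) ζ = hq A (M *ᵥ ζ) := by
  have h1 : M.map star *ᵥ star ζ = star (M *ᵥ ζ) := by
    funext i
    simp [mulVec, dotProduct]
  rw [hq, hq, ← mulVec_mulVec, ← mulVec_mulVec, dotProduct_mulVec, vecMul_transpose, h1]

theorem chain (hL : S_LEVI1) [DecidableEq κ] [DecidableEq κ'] (hh : ContDiffAt ℂ 2 h z)
    (hu : ContDiffAt ℝ 2 u (h z)) (ζ : κ → ℂ) :
    hq (levi (fun y => u (h y)) z) ζ = hq (levi u (h z)) (fderiv ℂ h z ζ) := by
  have h1 : fderiv ℂ (fderiv ℂ h) z (Complex.I • ζ) (Complex.I • ζ) =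
      -fderiv ℂ (fderiv ℂ h) z ζ ζ := by
    rw [map_smul, map_smul, _root_.smul_apply, smul_smul, Complex.I_mul_I, neg_smul,
      one_smul]
  rw [(hL κ).2.1 (fun y => u (h y)) z (hu.comp z (hh.restrict_scalars ℝ)), (hL κ').2.1 u _ hu, snd hh hu,
    snd hh hu, h1, map_neg, map_smul (fderiv ℂ h z)]
  congr 2
  ring

end LEVI2

open LEVI2 in
theorem p_LEVI2 (hLEVI1 : S_LEVI1) : S_LEVI2 := by
  intro κ _ _
  refine ⟨fun κ' _ _ h u z hh hu => ⟨chain hLEVI1 hh hu, fun ζ => ?_, hq_ext fun ζ => ?_⟩,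
    fun f z hf h0 => hq_ext fun ζ => ?_⟩
  · rw [(hLEVI1 κ).2.2.1 (fun y => u (h y)) z
      ((hu.comp z (hh.restrict_scalars ℝ)).differentiableAt (by simp)),
      (hLEVI1 κ').2.2.1 u _ (hu.differentiableAt (by simp)), fst hh hu,
      ← map_smul (fderiv ℂ h z)]
    rfl
  · rw [chain hLEVI1 hh hu, hq_conj, LinearMap.toMatrix'_mulVec]
    rfl
  · let L : (Unit → ℂ) →L[ℝ] ℝ := (2 : ℝ) • Complex.reCLM.comp (ContinuousLinearMap.proj ())
    have hg : ContDiffAt ℂ 2 (fun y (_ : Unit) => Complex.log (f y / f z)) z :=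
      contDiffAt_pi.mpr fun _ => ContDiffAt.comp (g := Complex.log) (f := fun y => f y / f z) z
        (Complex.contDiffAt_log (by rw [div_self h0]; exact Complex.one_mem_slitPlane))
        (hf.div_const (f z))
    have hu : ContDiff ℝ 2 fun w : Unit → ℂ => L w + Real.log (‖f z‖ ^ 2) :=
      L.contDiff.add contDiff_const
    have h1 : (fun y => Real.log (‖f y‖ ^ 2)) =ᶠ[𝓝 z]
        fun y => L (fun _ => Complex.log (f y / f z)) + Real.log (‖f z‖ ^ 2) := by
      filter_upwards [hf.continuousAt.eventually_ne h0] with y hy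
      have h2 : L (fun _ => Complex.log (f y / f z)) = 2 * (Complex.log (f y / f z)).re := rfl
      rw [h2, Complex.log_re, norm_div, Real.log_div (norm_ne_zero_iff.mpr hy)
        (norm_ne_zero_iff.mpr h0), Real.log_pow, Real.log_pow]
      push_cast
      ring
    have h2 : (fderiv ℝ fun w : Unit → ℂ => L w + Real.log (‖f z‖ ^ 2)) = fun _ => L :=
      funext fun w => (L.hasFDerivAt.add_const _).fderiv
    rw [((hLEVI1 κ).1 _ _ z h1).1, chain hLEVI1 hg hu.contDiffAt,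
      (hLEVI1 Unit).2.1 _ _ hu.contDiffAt, h2]
    simp

end Pool.Agent.P.MP_59bdab_ag
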