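import Pool.Agent.P.MP_59bdab_ag.IfC

namespace Pool.Agent.P.MP_59bdab_ag

open Matrix MeasureTheory Filter Topology
open scoped ENNReal ContDiff

namespace LEVI3

variable {E F : Type} [NormedAddCommGroup E] [NormedSpace ℝ E] [NormedAddCommGroup F]
  [NormedSpace ℝ F]

theorem first_comp {ρ : E → ℝ} {k : ℝ → ℝ} {z : E} (hρ : DifferentiableAt ℝ ρ z)
    (hk : DifferentiableAt ℝ k (ρ z)) :
    fderiv ℝ (fun y => k (ρ y)) z = deriv k (ρ z) • fderiv ℝ ρ z :=
  (hk.hasDerivAt.comp_hasFDerivAt z hρ.hasFDerivAt).fderiv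

theorem second_comp {ρ : E → ℝ} {k : ℝ → ℝ} {z : E} (hρ : ContDiffAt ℝ 2 ρ z)
    (hk : ContDiffAt ℝ 2 k (ρ z)) (ζ : E) :
    fderiv ℝ (fderiv ℝ fun y => k (ρ y)) z ζ ζ =
      deriv (deriv k) (ρ z) * (fderiv ℝ ρ z ζ) ^ 2 + deriv k (ρ z) * fderiv ℝ (fderiv ℝ ρ) z ζ ζ := by
  have h1 : (fderiv ℝ fun y => k (ρ y)) =ᶠ[𝓝 z] fun y => deriv k (ρ y) • fderiv ℝ ρ y := by
    filter_upwards [hρ.eventually (by simp),
      hρ.continuousAt.tendsto.eventually (hk.eventually (by simp))] with y h2 h3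
    exact first_comp (h2.differentiableAt (by simp)) (h3.differentiableAt (by simp))
  have h2 : DifferentiableAt ℝ (fderiv ℝ ρ) z :=
    (hρ.fderiv_right (m := 1) (by norm_num)).differentiableAt (by simp)
  have h3 : DifferentiableAt ℝ (deriv k) (ρ z) := by
    have h4 : DifferentiableAt ℝ (fderiv ℝ k) (ρ z) :=
      (hk.fderiv_right (m := 1) (by norm_num)).differentiableAt (by simp)
    exact h4.clm_apply (differentiableAt_const (1 : ℝ))
  have h4 : HasFDerivAt (fun y => deriv k (ρ y)) (deriv (deriv k) (ρ z) • fderiv ℝ ρ z) z :=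
    h3.hasDerivAt.comp_hasFDerivAt z (hρ.differentiableAt (by simp)).hasFDerivAt
  rw [h1.fderiv_eq, (h4.fun_smul h2.hasFDerivAt).fderiv]
  simp only [_root_.add_apply, _root_.smul_apply,
    ContinuousLinearMap.smulRight_apply, smul_eq_mul]
  ring

theorem second_lin {Φ : F → ℝ} (L : E →L[ℝ] F) {z : E} (hΦ : ContDiffAt ℝ 2 Φ (L z)) (ξ ζ : E) :
    fderiv ℝ (fderiv ℝ fun y => Φ (L y)) z ξ ζ = fderiv ℝ (fderiv ℝ Φ) (L z) (L ξ) (L ζ) := by
  have h1 : (fderiv ℝ fun y => Φ (L y)) =ᶠ[𝓝 z] fun y => (fderiv ℝ Φ (L y)).comp L := by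
    filter_upwards [L.continuous.continuousAt.tendsto.eventually (hΦ.eventually (by simp))] with y h2
    exact ((h2.differentiableAt (by simp)).hasFDerivAt.comp y L.hasFDerivAt).fderiv
  have h2 : DifferentiableAt ℝ (fderiv ℝ Φ) (L z) :=
    (hΦ.fderiv_right (m := 1) (by norm_num)).differentiableAt (by simp)
  have h3 : HasFDerivAt (fun y => fderiv ℝ Φ (L y)) ((fderiv ℝ (fderiv ℝ Φ) (L z)).comp L) z :=
    h2.hasFDerivAt.comp z L.hasFDerivAt
  rw [h1.fderiv_eq, (h3.clm_comp (hasFDerivAt_const L z)).fderiv]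
  simp

theorem norm_sq_half (a b : ℝ) :
    ‖((a : ℂ) - Complex.I * (b : ℝ)) / 2‖ ^ 2 = (a ^ 2 + b ^ 2) / 4 := by
  rw [Complex.sq_norm, Complex.normSq_apply]
  simp
  ring

theorem imv_I {κ : Type} (ζ : κ → ℂ) : imv (Complex.I • ζ) = rev ζ := by
  funext a; simp [imv, rev]

end LEVI3

open LEVI3 in
theorem p_LEVI3 (hLEVI1 : S_LEVI1) : S_LEVI3 := by
  intro κ _ _
  obtain ⟨-, hA, hB, -⟩ := hLEVI1 κ
  have H2 : ∀ (Φ : (κ → ℝ) → ℝ) (z : κ → ℂ), ContDiffAt ℝ 2 Φ (imv z) →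
      (∀ a b, levi (fun w => Φ (imv w)) z a b =
        ((fderiv ℝ (fderiv ℝ Φ) (imv z) (Pi.single a 1) (Pi.single b 1) / 4 : ℝ) : ℂ)) ∧
      ∀ ζ, hq (levi (fun w => Φ (imv w)) z) ζ =
        (((fderiv ℝ (fderiv ℝ Φ) (imv z) (rev ζ) (rev ζ) +
          fderiv ℝ (fderiv ℝ Φ) (imv z) (imv ζ) (imv ζ)) / 4 : ℝ) : ℂ) := by
    intro Φ z hΦ
    have h1 : ∀ ζ, hq (levi (fun w => Φ (imv w)) z) ζ =
        (((fderiv ℝ (fderiv ℝ Φ) (imv z) (rev ζ) (rev ζ) +
          fderiv ℝ (fderiv ℝ Φ) (imv z) (imv ζ) (imv ζ)) / 4 : ℝ) : ℂ) := by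
      intro ζ
      have h2 : ContDiffAt ℝ 2 (fun w => Φ (imv w)) z := hΦ.comp z (imL κ).contDiff.contDiffAt
      have h3 := second_lin (imL κ) (z := z) hΦ
      simp only [imL_apply] at h3
      rw [hA _ z h2 ζ, h3, h3, imv_I, add_comm]
    refine ⟨fun a b => ?_, h1⟩
    have hs : fderiv ℝ (fderiv ℝ Φ) (imv z) (Pi.single b 1) (Pi.single a 1) =
        fderiv ℝ (fderiv ℝ Φ) (imv z) (Pi.single a 1) (Pi.single b 1) :=
      (hΦ.isSymmSndFDerivAt (by simp)) _ _
    have h2 := hq_polar (levi (fun w => Φ (imv w)) z) (Pi.single a 1) (Pi.single b 1)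
    have r1 : ∀ c : κ, rev (Pi.single c 1 : κ → ℂ) = Pi.single c 1 := fun c => by
      funext i; by_cases hi : i = c <;> simp [rev, hi]
    have i1 : ∀ c : κ, imv (Pi.single c 1 : κ → ℂ) = 0 := fun c => by
      funext i; by_cases hi : i = c <;> simp [imv, hi]
    have r2 : rev (Complex.I • (Pi.single b 1 : κ → ℂ)) = 0 := by
      funext i; by_cases hi : i = b <;> simp [rev, hi]
    have h4 : star (Pi.single b 1 : κ → ℂ) = Pi.single b 1 := by
      funext i; by_cases hi : i = b <;> simp [hi]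
    simp only [h1, rev_add, rev_sub, imv_add, imv_sub, imv_I, r1, i1, r2, h4, map_add, map_sub,
      map_zero, _root_.add_apply, _root_.sub_apply,
      _root_.zero_apply, hs, mulVec_single_one, single_one_dotProduct,
      Matrix.col_apply] at h2
    push_cast at h2 ⊢
    linear_combination h2 / 4
  refine ⟨fun ρ k z hρ hk => ?_, H2, fun t z => ?_⟩
  · have hd : DifferentiableAt ℝ ρ z := hρ.differentiableAt (by simp)
    have hc : ContDiffAt ℝ 2 (fun y => k (ρ y)) z := hk.comp z hρ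
    refine ⟨fun ζ => ?_, ?_⟩
    · rw [hA _ z hc, hA _ z hρ, hB _ z hd, norm_sq_half, second_comp hρ hk, second_comp hρ hk]
      push_cast
      ring
    · funext a
      have h1 := hB _ z (hc.differentiableAt (by simp)) (Pi.single a 1)
      have h2 := hB _ z hd (Pi.single a 1)
      rw [dotProduct_single_one] at h1 h2
      rw [h1, Pi.smul_apply, h2, first_comp hd (hk.differentiableAt (by simp))]
      simp only [_root_.smul_apply, smul_eq_mul]
      push_cast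
      ring
  · obtain ⟨T, hT⟩ : ∃ T : (κ → ℝ) →L[ℝ] ℝ, ∀ y, T y = t ⬝ᵥ y :=
      ⟨∑ a, t a • ContinuousLinearMap.proj a, fun y => by simp [dotProduct]⟩
    have e1 : (fun w : κ → ℂ => t ⬝ᵥ imv w) = fun w => T (imv w) := funext fun w => (hT _).symm
    have e2 : fderiv ℝ (fderiv ℝ T) = 0 := by
      have : fderiv ℝ T = fun _ => T := funext fun _ => T.fderiv
      rw [this]
      funext y
      simp
    rw [e1]
    refine ⟨(T.comp (imL κ)).contDiff, ?_, fun ζ => ?_⟩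
    · ext a b
      rw [(H2 T z T.contDiff.contDiffAt).1 a b, e2]
      simp
    · have h1 : fderiv ℝ (fun w : κ → ℂ => T (imv w)) z = T.comp (imL κ) := (T.comp (imL κ)).fderiv
      rw [hB (fun w : κ → ℂ => T (imv w)) z (T.comp (imL κ)).differentiableAt, h1]
      simp only [ContinuousLinearMap.comp_apply, imL_apply, imv_I, hT]
      have h2 : (((t ⬝ᵥ imv ζ : ℝ) : ℂ) - Complex.I * ((t ⬝ᵥ rev ζ : ℝ) : ℂ)) =
          -Complex.I * ((fun a => (t a : ℂ)) ⬝ᵥ ζ) := by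
        simp only [dotProduct, imv, rev]
        push_cast
        rw [Finset.mul_sum, Finset.mul_sum, ← Finset.sum_sub_distrib]
        refine Finset.sum_congr rfl fun a _ => ?_
        conv_rhs => rw [← Complex.re_add_im (ζ a)]
        linear_combination ((t a : ℂ) * (ζ a).im) * Complex.I_mul_I
      rw [h2]
      simp

end Pool.Agent.P.MP_59bdab_ag
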