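import Pool.Agent.P.MP_59bdab_ag.IfC

namespace Pool.Agent.P.MP_59bdab_ag

open Matrix MeasureTheory Filter Topology
open scoped ENNReal ContDiff

namespace LFS

variable {ι : Type} [Fintype ι] [DecidableEq ι]

theorem dot_sum (t : Sym2 ι → ℝ) (P : Finset (ι → ℤ)) (c : (ι → ℤ) → ℂ) (g : (ι → ℤ) → ι → ℤ)
    (h : ∀ p ∈ P, pr t (g p) = 1) :
    t ⬝ᵥ imv (∑ p ∈ P, c p • tv (g p)) = ∑ p ∈ P, (c p).im := by
  have h1 : imv (∑ p ∈ P, c p • tv (g p)) = ∑ p ∈ P, (c p).im • sqr (g p) := by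
    funext a
    simp [imv, tv_eq, Finset.sum_apply]
  rw [h1, dotProduct_sum]
  refine Finset.sum_congr rfl fun p hp => ?_
  rw [dotProduct_smul, ← pr_eq, h p hp, smul_eq_mul, mul_one]

omit [DecidableEq ι] in
theorem chr_sum [DecidableEq ι] (n : Sym2 ι → ℤ) (P : Finset (ι → ℤ)) (c : (ι → ℤ) → ℂ)
    (g : (ι → ℤ) → ι → ℤ) : chr n (∑ p ∈ P, c p • tv (g p)) =
      Complex.exp (2 * Real.pi * Complex.I * ∑ p ∈ P, c p * ((n ⬝ᵥ sqz (g p) : ℤ) : ℂ)) := by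
  rw [chr]
  congr 2
  simp only [Finset.sum_apply, Pi.smul_apply, tv_eq', smul_eq_mul, Finset.mul_sum, dotProduct,
    Int.cast_sum, Int.cast_mul]
  rw [Finset.sum_comm]
  refine Finset.sum_congr rfl fun p _ => Finset.sum_congr rfl fun a _ => ?_
  ring

theorem chr_neg {κ : Type} [Fintype κ] (n : κ → ℤ) (z : κ → ℂ) : chr (-n) z * chr n z = 1 := by
  rw [← chr_add', neg_add_cancel]
  simp [chr]

theorem term (hSMV : S_SMV) (hMOV : S_MOV) (hINVD : S_INVD) {t t₁ : Sym2 ι → ℝ}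
    {W₁ : Sym2 ι → ℂ} {P P₁ : Finset (ι → ℤ)} {a : (Sym2 ι → ℂ) → ℝ} (x₀ x₁ x₂ : ℝ)
    (hP : IsMin t P) (hP₁ : IsMin t₁ P₁) (ha : Adm t P a) (hW : W₁ ∈ HS ι)
    (r : (Sym2 ι → ℂ) → Sym2 ι → ℤ)
    (hr : ∀ (E : Type) [NormedAddCommGroup E] [NormedSpace ℝ E] (Ω : Set (Sym2 ι → ℂ))
      (h : (Sym2 ι → ℂ) → E), IsOpen Ω → W₁ ∈ Ω → ContDiffOn ℝ ∞ h Ω →
      (∀ z ∈ Ω, ∀ c : (ι → ℤ) → ℂ, h (z + ∑ p ∈ P₁, c p • tv p) = h z) →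
      SmV t₁ W₁ (fun z => h (z - fun a => (r z a : ℂ))) (h W₁))
    (γ : SpZ ι) (hγ : ∀ p ∈ P₁, ∃ p' ∈ P, γ.1 *ᵥ lv p = lv p') :
    ∃ c, SmV t₁ W₁ (fun z => a (actF (toR γ).1 (z - fun a => (r z a : ℂ))) *
      (x₀ + x₁ * Real.log (‖(den (toR γ).1 (z - fun a => (r z a : ℂ))).det‖ ^ 2) +
        x₂ * (t ⬝ᵥ imv (actF (toR γ).1 (z - fun a => (r z a : ℂ))) -
          t₁ ⬝ᵥ imv (z - fun a => (r z a : ℂ))))) c := by
  classical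
  obtain ⟨-, -, s3, -, s5, s6, -⟩ := hSMV ι t₁ W₁
  obtain ⟨m1, -, -, -, m5, -⟩ := hMOV ι
  obtain ⟨d1, -, d3, d4⟩ := (hINVD ι).1 (toR γ)
  choose! qq hq1 hq2 using hγ
  have hΩ : IsOpen {z | (den (toR γ).1 z).det ≠ 0} := isOpen_ne_fun d3.continuous continuous_const
  have hWΩ : W₁ ∈ {z | (den (toR γ).1 z).det ≠ 0} := jf_ne_zero (toR γ) ⟨W₁, hW⟩
  have d1' : ContDiffOn ℝ ∞ (actF (toR γ).1) {z | (den (toR γ).1 z).det ≠ 0} :=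
    d1.restrict_scalars ℝ
  have hdot : ∀ s : Sym2 ι → ℝ, ContDiff ℝ ∞ fun w : Sym2 ι → ℂ => s ⬝ᵥ imv w := fun s => by
    have := contDiff_imv (κ := Sym2 ι)
    unfold dotProduct
    fun_prop
  have k1 := hr ℝ _ (fun z => x₀ + x₁ * Real.log (‖(den (toR γ).1 z).det‖ ^ 2) +
      x₂ * (t ⬝ᵥ imv (actF (toR γ).1 z) - t₁ ⬝ᵥ imv z)) hΩ hWΩ
    ((contDiffOn_const.add (contDiffOn_const.mul d4)).add (contDiffOn_const.mul
      (((hdot t).comp_contDiffOn d1').sub (hdot t₁).contDiffOn))) fun z hz c => by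
      obtain ⟨e1, e2⟩ := m1 γ P₁ qq c z hq2
      simp only [e1, e2 hz, imv_add, dotProduct_add]
      rw [dot_sum t P₁ c qq fun p hp => (hP _).1 (hq1 p hp),
        dot_sum t₁ P₁ c (fun p => p) fun p hp => (hP₁ _).1 hp]
      ring
  obtain ⟨⟨m, n, F, hn, hF, haF⟩, -⟩ := ha
  have k2 : ∀ l, ∃ c, SmV t₁ W₁
      (fun z => chr (n l) (actF (toR γ).1 (z - fun a => (r z a : ℂ)))) c := fun l => by
    obtain ⟨n', hn'⟩ := m5 γ (n l)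
    have hc : ∀ n : Sym2 ι → ℤ, ContDiff ℝ ∞ (chr n) := fun n => (contDiff_chr n).restrict_scalars ℝ
    have k3 := hr ℂ _ (fun z => chr (n l) (actF (toR γ).1 z) * chr (-n') z) hΩ hWΩ
      (((hc _).comp_contDiffOn d1').mul (hc _).contDiffOn) fun z hz c => by
        obtain ⟨-, e2⟩ := m1 γ P₁ qq c z hq2
        have e3 : chr (n l) (∑ p ∈ P₁, c p • tv (qq p)) = chr n' (∑ p ∈ P₁, c p • tv p) := by
          rw [chr_sum, chr_sum n' P₁ c fun p => p]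
          congr 2
          exact Finset.sum_congr rfl fun p hp => by rw [hn' p _ (hq2 p hp)]
        simp only [e2 hz, chr_add, e3]
        linear_combination (chr (n l) (actF (toR γ).1 z) * chr (-n') z) *
          chr_neg n' (∑ p ∈ P₁, c p • tv p)
    have hd : Du t₁ n' := fun p hp => by
      have hp1 := (hP₁ p).2 hp
      rw [pr_cz, hn' p _ (hq2 p hp1), ← pr_cz]
      exact hn l _ ((hP _).1 (hq1 p hp1))
    refine ⟨_, ((hSMV ι t₁ W₁).2.2.2.2.2.2 ℂ).1 _ _ _ (s6 _ _ _ _ k3 (s3 n' hd))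
      (Eventually.of_forall fun z => ?_)⟩
    have e4 : chr n' z = chr n' (z - fun a => (r z a : ℂ)) := by
      conv_lhs => rw [← sub_add_cancel z fun a => (r z a : ℂ)]
      rw [chr_add, chr_int, mul_one]
    rw [e4, mul_assoc, chr_neg, mul_one]
  choose cc hcc using k2
  have k4 := ((hSMV ι t₁ W₁).2.2.2.2.2.2 ℂ).2.2.2.1 (Fin m) _ _ hcc
  have k5 := (((hSMV ι t₁ W₁).2.2.2.2.2.2 (Fin m → ℂ)).2.2.2.2.2 ℝ).2 _ _ F Set.univ k4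
    isOpen_univ (Set.mem_univ _) hF.contDiffOn
  simp only [haF]
  exact ⟨_, s5 _ _ _ _ k5 k1⟩

end LFS

theorem p_LFS (hSMV : S_SMV) (hRED : S_RED) (hDEEP : S_DEEP) (hPQ : S_PQ) (hCSI : S_CSI)
    (hMOV : S_MOV) (hINVD : S_INVD) (hRYP : S_RYP) : S_LFS := by
  intro ι _ _ t t₁ W₁ P a x₀ x₁ x₂ ht hP ha ht₁ hW
  classical
  obtain ⟨P₁, hP₁, -⟩ := (hRYP ι).2.2.2.2.2.2.1 t₁ ht₁
  obtain ⟨r, C, hC, hr⟩ := hRED ι t₁ W₁ P₁ hP₁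
  obtain ⟨η, hη, hball⟩ := Metric.nhds_basis_closedBall.mem_iff.1
    ((isOpen_PD ι).mem_nhds (mem_HS.1 hW))
  obtain ⟨K, hK, hKc, hKa⟩ := ha.2.2
  obtain ⟨R, Λ, h1, h2⟩ := hPQ ι t t₁ P P₁ K _ C ht ht₁ hP hP₁ hK hKc hball
    (isCompact_closedBall _ _)
  choose! cc hcc using fun q (hq : q ∈ Λ) =>
    LFS.term hSMV hMOV hINVD x₀ x₁ x₂ hP hP₁ ha hW r hr (rep q) (h1 q hq)
  refine ⟨_, ((hSMV ι t₁ W₁).2.2.2.2.2.2 ℝ).1 _ _ _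
    (((hSMV ι t₁ W₁).2.2.2.2.2.2 ℝ).2.2.2.2.1 _ Λ _ cc hcc) ?_⟩
  filter_upwards [cfil_HS t₁ W₁, hC, hDEEP ι t₁ W₁ P₁ hP₁ η hη R] with z hz hzC ⟨c, hc1, hc2⟩
  have e1 : imv (z - fun a => (r z a : ℂ)) = imv z := by
    funext a
    simp [imv]
  have e2 : rev (z - fun a => (r z a : ℂ)) = rev z - cz (r z) := by
    funext a
    simp [rev, cz]
  have hz' : (z - fun a => (r z a : ℂ)) ∈ HS ι := by rwa [mem_HS, e1]
  obtain ⟨u, hu, hu'⟩ := (hMOV ι).2.2.1 (r z)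
  have e3 : toH z = u • (⟨_, hz'⟩ : HH ι) := Subtype.ext (by
    rw [toH_val hz, hu', sub_add_cancel])
  rw [e3, (hCSI ι t P a ht hP ha).2.2.1 t₁ x₀ x₁ x₂ u hu, csum,
    finsum_eq_sum_of_support_subset (s := Λ)]
  · rfl
  · intro q hq
    obtain ⟨c', hc', hc''⟩ := hKa _ (rep q • (⟨_, hz'⟩ : HH ι)).2 (left_ne_zero_of_mul hq)
    exact h2 q ⟨_, hz'⟩ c' c (by rwa [e2]) hc1 (by rwa [e1, mem_closedBall_iff_norm]) hc' hc''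

end Pool.Agent.P.MP_59bdab_ag
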