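import Pool.Agent.P.MP_59bdab_ag.IfC

/-!
Local estimates near the boundary.
-/

namespace Pool.Agent.P.MP_59bdab_ag

open Matrix MeasureTheory Filter Topology
open scoped ENNReal ContDiff

namespace LOCE

theorem sq_le_omg {κ : Type} [Fintype κ] {L : Finset (κ → ℝ)} {t : κ → ℝ} (ht : t ∈ L)
    (y : κ → ℝ) (ζ : κ → ℂ) :
    ‖(fun a => (t a : ℂ)) ⬝ᵥ ζ‖ ^ 2 ≤ (1 + (t ⬝ᵥ y) ^ 2) * omg L y ζ := by
  have h : ‖(fun a => (t a : ℂ)) ⬝ᵥ ζ‖ ^ 2 / (1 + (t ⬝ᵥ y) ^ 2) ≤ omg L y ζ :=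
    Finset.single_le_sum (f := fun l : κ → ℝ => ‖(fun a => (l a : ℂ)) ⬝ᵥ ζ‖ ^ 2 / (1 + (l ⬝ᵥ y) ^ 2))
      (fun _ _ => by positivity) ht
  rwa [div_le_iff₀' (by positivity)] at h

/-- The fifth estimate, for real numbers. -/
theorem est5 {s m d u x φ C₁ C₂ B : ℝ} (hs : 0 < s) (hs1 : s < 1) (hx : 0 ≤ x)
    (hd : d = 4 * Real.pi * x + u) (hm : |m| ≤ C₁) (hu : |u| ≤ C₂) (hB : 0 ≤ B)
    (hxd : x ≤ |d| + C₂) (hφ : |φ + s * x| ≤ B * (1 + Real.log (1 + s * x))) :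
    |m - s / (4 * Real.pi) * d - φ| ≤ (C₁ + C₂ + B * (1 + C₂)) * (1 + Real.log (1 + |d|)) := by
  have hπ := Real.pi_gt_three
  have hC₁ : 0 ≤ C₁ := (abs_nonneg _).trans hm
  have hC₂ : 0 ≤ C₂ := (abs_nonneg _).trans hu
  have hd0 := abs_nonneg d
  have h7 : 0 ≤ Real.log (1 + |d|) := Real.log_nonneg (by linarith)
  have e : m - s / (4 * Real.pi) * d - φ = m - s / (4 * Real.pi) * u - (φ + s * x) := by
    rw [hd]; field_simp; ring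
  have h1 : |s / (4 * Real.pi) * u| ≤ C₂ := by
    rw [abs_mul, abs_of_pos (by positivity)]
    have : s / (4 * Real.pi) ≤ 1 := by rw [div_le_one (by positivity)]; linarith
    nlinarith [abs_nonneg u]
  have hsx : s * x ≤ x := by nlinarith
  have h2 : Real.log (1 + s * x) ≤ C₂ + Real.log (1 + |d|) := by
    calc Real.log (1 + s * x) ≤ Real.log ((1 + C₂) * (1 + |d|)) :=
          Real.log_le_log (by positivity) (by nlinarith [mul_nonneg hC₂ hd0])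
      _ = Real.log (1 + C₂) + Real.log (1 + |d|) := Real.log_mul (by positivity) (by positivity)
      _ ≤ _ := by linarith [Real.log_le_sub_one_of_pos (x := 1 + C₂) (by positivity)]
  have h3 : B * (1 + Real.log (1 + s * x)) ≤ B * (1 + C₂) * (1 + Real.log (1 + |d|)) := by
    rw [mul_assoc]
    exact mul_le_mul_of_nonneg_left (by nlinarith [mul_nonneg hC₂ h7]) hB
  rw [e]
  have h4 := abs_sub (m - s / (4 * Real.pi) * u) (φ + s * x)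
  have h5 := abs_sub m (s / (4 * Real.pi) * u)
  nlinarith [mul_nonneg hC₁ h7, mul_nonneg hC₂ h7]

end LOCE

open LOCE

theorem p_LOCE (hREG1 : S_REG1) (hREG2 : S_REG2) (hREGB : S_REGB) (hLEVI1 : S_LEVI1)
    (hLEVI3 : S_LEVI3) : S_LOCE := by
  classical
  intro ι _ _ s s' b β μ δ hb hμ hδ Z₀ hZ₀
  obtain ⟨hRy, W, hW, hT⟩ := hREG2 ι s s' b β hb Z₀ hZ₀
  obtain ⟨B, hB, hEB⟩ := hREGB ι s s' b β hb Z₀ hZ₀
  have hs := hb.pos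
  have hs1 : s < 1 := hb.lt.trans hb.lt_one
  have hπ := Real.pi_gt_three
  set t : Sym2 ι → ℝ := s⁻¹ • tOf Z₀ with ht
  have hts : ∀ y : Sym2 ι → ℝ, tOf Z₀ ⬝ᵥ y = s * (t ⬝ᵥ y) := fun y => by
    rw [ht, smul_dotProduct, smul_eq_mul, mul_inv_cancel_left₀ hs.ne']
  have h1 := hμ.sm hRy hW
  have e1 : (fun z => μ z - 0 * (4 * Real.pi * (t ⬝ᵥ imv z))) = μ := by funext z; simp
  rw [e1] at h1
  have h2 := hδ.sm hRy hW
  set u : (Sym2 ι → ℂ) → ℝ := fun z => δ z - 1 * (4 * Real.pi * (t ⬝ᵥ imv z)) with hu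
  have e2 : δ = fun z => 4 * Real.pi * (t ⬝ᵥ imv z) + u z := by funext z; simp [hu]
  obtain ⟨L₁, C₁, hC₁, hE₁⟩ := (hREG1 ι).1 t W μ h1
  obtain ⟨L₂, C₂, hC₂, hE₂⟩ := (hREG1 ι).1 t W u h2
  let A : ℝ := 8 * Real.pi ^ 2 * (2 + 2 * C₂ ^ 2) + 2 * C₂
  have hA : 0 ≤ A := by positivity
  have hBC : 0 ≤ B * (1 + C₂) := by positivity
  refine ⟨insert t (L₁ ∪ L₂), C₁ + C₂ + B * (1 + C₂) + A, by positivity, ?_⟩
  have hL₁ : L₁ ⊆ insert t (L₁ ∪ L₂) := Finset.subset_union_left.trans (Finset.subset_insert _ _)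
  have hL₂ : L₂ ⊆ insert t (L₁ ∪ L₂) := Finset.subset_union_right.trans (Finset.subset_insert _ _)
  filter_upwards [hEB, hT.eventually hE₁, hT.eventually hE₂] with Z hZ hZ₁ hZ₂
  set z := (shp b Z).1
  obtain ⟨hw0, hwn, hwφ⟩ := hZ
  obtain ⟨hm, -, hD₁, -⟩ := hZ₁
  obtain ⟨huz, hcu, hD₂, hd₂⟩ := hZ₂
  rw [hts] at hw0 hwn hwφ
  obtain ⟨hlin, hlev, hdz⟩ := (hLEVI3 (Sym2 ι)).2.2 t z
  obtain ⟨hl, hd⟩ := (hLEVI1 (Sym2 ι)).2.2.2.1 (fun w => t ⬝ᵥ imv w) u (4 * Real.pi) z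
    (hlin.contDiffAt.of_le (by norm_cast)) (hcu.of_le (by norm_cast))
  rw [← e2] at hl hd
  have hx : 0 ≤ t ⬝ᵥ imv z := nonneg_of_mul_nonneg_right hw0 hs
  have hδz : δ z = 4 * Real.pi * (t ⬝ᵥ imv z) + u z := congrFun e2 z
  have hu' := abs_le.1 huz
  have hxd : t ⬝ᵥ imv z ≤ |δ z| + C₂ := by nlinarith [le_abs_self (δ z)]
  have hd0 := abs_nonneg (δ z)
  have h7 : 0 ≤ Real.log (1 + |δ z|) := Real.log_nonneg (by linarith)
  refine ⟨hD₁.mono hL₁ (by linarith) (by positivity), ?_, by nlinarith, fun ζ => ?_, ?_, ?_⟩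
  · rw [hl, hlev, smul_zero, zero_add]
    exact hD₂.mono hL₂ (by linarith) (by positivity)
  · have ho := omg_nonneg (insert t (L₁ ∪ L₂)) (imv z) ζ
    have h3 := sq_le_omg (Finset.mem_insert_self t (L₁ ∪ L₂)) (imv z) ζ
    have h4 : ‖dzz u z ⬝ᵥ ζ‖ ^ 2 ≤ C₂ * omg (insert t (L₁ ∪ L₂)) (imv z) ζ :=
      (hd₂ ζ).trans (mul_le_mul_of_nonneg_left (omg_mono hL₂ _ _) hC₂)
    have h5 : ‖dzz δ z ⬝ᵥ ζ‖ ≤ 2 * Real.pi * ‖(fun a => (t a : ℂ)) ⬝ᵥ ζ‖ + ‖dzz u z ⬝ᵥ ζ‖ := by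
      rw [hd, add_dotProduct, smul_dotProduct]
      refine (norm_add_le _ _).trans (add_le_add (le_of_eq ?_) le_rfl)
      rw [norm_smul, hdz, Complex.norm_real, Real.norm_eq_abs, abs_of_pos (by positivity)]
      ring
    have h6 : 1 + (t ⬝ᵥ imv z) ^ 2 ≤ (2 + 2 * C₂ ^ 2) * (1 + δ z ^ 2) := by
      have h8 : (t ⬝ᵥ imv z) ^ 2 ≤ (|δ z| + C₂) ^ 2 := pow_le_pow_left₀ hx hxd 2
      nlinarith [sq_abs (δ z), sq_nonneg (|δ z| - C₂), mul_nonneg (sq_nonneg C₂) (sq_nonneg (δ z))]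
    set o := omg (insert t (L₁ ∪ L₂)) (imv z) ζ
    set p := ‖(fun a => (t a : ℂ)) ⬝ᵥ ζ‖
    set q := ‖dzz u z ⬝ᵥ ζ‖
    have h9 : p ^ 2 ≤ (2 + 2 * C₂ ^ 2) * (1 + δ z ^ 2) * o :=
      h3.trans (mul_le_mul_of_nonneg_right h6 ho)
    have h10 : q ^ 2 ≤ C₂ * (1 + δ z ^ 2) * o :=
      h4.trans (mul_le_mul_of_nonneg_right (by nlinarith [sq_nonneg (δ z)]) ho)
    calc ‖dzz δ z ⬝ᵥ ζ‖ ^ 2 ≤ (2 * Real.pi * p + q) ^ 2 := pow_le_pow_left₀ (norm_nonneg _) h5 2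
      _ ≤ 8 * Real.pi ^ 2 * p ^ 2 + 2 * q ^ 2 := by nlinarith [sq_nonneg (2 * Real.pi * p - q)]
      _ ≤ 8 * Real.pi ^ 2 * ((2 + 2 * C₂ ^ 2) * (1 + δ z ^ 2) * o) + 2 * (C₂ * (1 + δ z ^ 2) * o) :=
          add_le_add (mul_le_mul_of_nonneg_left h9 (by positivity)) (by linarith)
      _ = A * (1 + δ z ^ 2) * o := by simp only [A]; ring
      _ ≤ _ := mul_le_mul_of_nonneg_right
          (mul_le_mul_of_nonneg_right (by linarith) (by positivity)) ho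
  · exact (est5 hs hs1 hx hδz hm huz hB hxd hwφ).trans
      (mul_le_mul_of_nonneg_right (by linarith) (by linarith))
  · have h3 : s * (t ⬝ᵥ imv z) ≤ (1 + C₂) * (1 + |δ z|) := by nlinarith [mul_nonneg hC₂ hd0]
    calc ‖imv z‖ ≤ B * ((1 + C₂) * (1 + |δ z|)) := hwn.trans (mul_le_mul_of_nonneg_left h3 hB)
      _ = B * (1 + C₂) * (1 + |δ z|) := by ring
      _ ≤ _ := mul_le_mul_of_nonneg_right (by linarith) (by linarith)

end Pool.Agent.P.MP_59bdab_ag
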