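import Pool.Agent.P.MP_59bdab_ag.IfC

namespace Pool.Agent.P.MP_59bdab_ag

open Matrix MeasureTheory Filter Topology
open scoped ENNReal ContDiff

namespace MA

theorem det_eq_abs {κ : Type} [Fintype κ] [DecidableEq κ] (D : (κ → ℝ) →L[ℝ] (κ → ℝ))
    (hs : ∀ x y, D x ⬝ᵥ y = D y ⬝ᵥ x) (hn : ∀ x, D x ⬝ᵥ x ≤ 0) :
    (Matrix.of fun a b : κ => -(D (Pi.single a 1) ⬝ᵥ Pi.single b 1)).det = |D.det| := by
  have hA : (Matrix.of fun a b : κ => -(D (Pi.single a 1) ⬝ᵥ Pi.single b 1)) =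
      -(LinearMap.toMatrix' (D : (κ → ℝ) →ₗ[ℝ] (κ → ℝ))) := by
    ext a b
    rw [of_apply, hs, neg_apply, LinearMap.toMatrix'_apply, dotProduct_single_one]
    rfl
  have hP : (Matrix.of fun a b : κ => -(D (Pi.single a 1) ⬝ᵥ Pi.single b 1)).PosSemidef := by
    refine PosSemidef.of_dotProduct_mulVec_nonneg ?_ fun x => ?_
    · ext a b
      rw [conjTranspose_apply, of_apply, of_apply, star_trivial, hs]
    · rw [hA, neg_mulVec, LinearMap.toMatrix'_mulVec, star_trivial, dotProduct_neg,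
        dotProduct_comm]
      exact neg_nonneg.2 (hn x)
  rw [← abs_of_nonneg hP.det_nonneg, hA, det_neg, abs_mul, abs_pow, abs_neg, abs_one, one_pow,
    one_mul, LinearMap.det_toMatrix']

end MA

theorem p_MA (hLEG1 : S_LEG1) (hLEG3 : S_LEG3) (hTRC : S_TRC) (hRYP : S_RYP) (hLEVI3 : S_LEVI3)
    (hWED : S_WED) : S_MA := by
  intro ι _ _ s s' b β hb z hz
  have hy : imv z ∈ PD ι := hz
  obtain ⟨-, hbij, -, -, hinv, hPh, -, hH⟩ := hLEG3 ι s s' b β hb
  have ht : GG s b (imv z) ∈ RI ι s := hbij.mapsTo hy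
  have htP : GG s b (imv z) ∈ PT ι := ((hRYP ι).2.2.2.1 s hb.pos).2.2.1 ht
  have hC : ContDiffAt ℝ 2 (Ph s b β) (imv z) :=
    (hPh.contDiffAt ((isOpen_PD ι).mem_nhds hy)).of_le (WithTop.coe_le_coe.2 (le_top : (2 : ℕ∞) ≤ ⊤))
  have hsym := hC.isSymmSndFDerivAt (by simp)
  obtain ⟨c, hc, hc'⟩ := hTRC ι {GG s b (imv z)} (Set.singleton_subset_iff.2 htP)
    isCompact_singleton
  have hdet := MA.det_eq_abs (fderiv ℝ (GG s b) (imv z)) (fun x y => by
      have h1 := hsym x y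
      rw [hH _ hy, hH _ hy] at h1
      exact neg_injective h1) (fun x => by
      have h1 := (hLEG1 ι s s' b β hb).2.2.2.2.2.2.2 _ ht ∅ (fderiv ℝ (GG s b) (imv z) x)
      rw [hinv _ hy, Finset.sum_empty, sub_zero] at h1
      have h2 := hc' _ rfl (fderiv ℝ (GG s b) (imv z) x)
      have h3 : 0 ≤ fderiv ℝ (GG s b) (imv z) x ⬝ᵥ fderiv ℝ (GG s b) (imv z) x :=
        Finset.sum_nonneg fun a _ => mul_self_nonneg _
      have h4 := mul_nonneg hc.le h3
      linarith)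
  have hl : levi (fun w => Ph s b β (imv w)) z = (1 / 4 : ℂ) • cm (Matrix.of fun a a' : Sym2 ι =>
      -(fderiv ℝ (GG s b) (imv z) (Pi.single a 1) ⬝ᵥ Pi.single a' 1)) := by
    ext a a'
    rw [((hLEVI3 (Sym2 ι)).2.1 _ z hC).1 a a', hH _ hy, Matrix.smul_apply, cm_apply, of_apply,
      smul_eq_mul]
    push_cast
    ring
  rw [(hWED (Sym2 ι)).2.2.1, hl, det_smul, cm_det, hdet, card_sym2_eq]
  push_cast
  rw [one_div, inv_pow]
  ring

end Pool.Agent.P.MP_59bdab_ag
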