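import Pool.Agent.P.MP_59bdab_ag.IfC

/-!
The Monge-Ampere mass of the model potential.
-/

namespace Pool.Agent.P.MP_59bdab_ag

open Matrix MeasureTheory Filter Topology
open scoped ENNReal ContDiff

namespace MASS

variable {ι : Type} [Fintype ι] [DecidableEq ι] {s s' : ℝ} {b β : ℝ → ℝ}

/-- The Jacobian factor. -/
noncomputable def jac (s : ℝ) (b : ℝ → ℝ) (Z : HH ι) : ℝ :=
  |(fderiv ℝ (GG s b) (imv Z.1)).det| * (Ym Z).det ^ (Fintype.card ι + 1)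

theorem jac_nonneg (Z : HH ι) : 0 ≤ jac s b Z :=
  mul_nonneg (abs_nonneg _) (pow_nonneg (Ym_det_pos Z).le _)

theorem jac_meas : Measurable (jac s b : HH ι → ℝ) :=
  ((continuous_abs.comp ContinuousLinearMap.continuous_det).measurable.comp
    ((measurable_fderiv ℝ (GG s b)).comp
      (continuous_imv.comp continuous_subtype_val).measurable)).mul
    (continuous_Ym.matrix_det.pow _).measurable

theorem dns_eq (hMA : S_MA) (hLEVI1 : S_LEVI1) (B : Bar s s' b β) (hO : IsOpen (OS ι s s' b))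
    {φ : (Sym2 ι → ℂ) → ℝ} (hφ : ∀ Z ∈ OS ι s s' b, φ Z.1 = Ph s b β (imv Z.1)) {Z : HH ι}
    (hZ : Z ∈ OS ι s s' b) : dns (fun _ => φ) Z =
      ((((tri (Fintype.card ι)).factorial : ℝ) / 4 ^ tri (Fintype.card ι) * jac s b Z : ℝ) : ℂ) := by
  have h1 : φ =ᶠ[𝓝 Z.1] fun w => Ph s b β (imv w) :=
    eventually_amb.2 (Filter.mem_of_superset (hO.mem_nhds hZ) hφ)
  rw [dns, ((hLEVI1 _).1 _ _ _ h1).1, hMA ι s s' b β B Z.1 Z.2, ← Complex.ofReal_mul, jac,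
    mul_assoc]

open Classical in
/-- The transported weight. -/
noncomputable def tw (s : ℝ) (b : ℝ → ℝ) (w w1 : HH ι → ℝ≥0∞) : HH ι → ℝ≥0∞ :=
  (HG ι s).piecewise (fun Z => w1 ((HG ι s).piecewise (shp b) id Z)) w

theorem tw_mem {w w1 : HH ι → ℝ≥0∞} {Z : HH ι} (h : Z ∈ HG ι s) :
    tw s b w w1 Z = w1 (shp b Z) := by
  simp [tw, h]

theorem tw_not {w w1 : HH ι → ℝ≥0∞} {Z : HH ι} (h : Z ∉ HG ι s) : tw s b w w1 Z = w Z := by
  simp [tw, h]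

theorem tw_wt (hFLAT1 : S_FLAT1) (hFLAT2 : S_FLAT2) (hFLAT3 : S_FLAT3) (hISOL : S_ISOL)
    (B : Bar s s' b β) {w w1 : HH ι → ℝ≥0∞} (hw : IsWt (SpZ ι) (HH ι) w)
    (hw1 : IsWt (SpZ ι) (HH ι) w1) (h0 : ∀ Z, Z ∉ OS ι s s' b → w1 Z = 0) :
    IsWt (SpZ ι) (HH ι) (tw s b w w1) := by
  classical
  obtain ⟨-, h1, -, h2⟩ := hFLAT1 ι s s' b β B
  obtain ⟨-, h3, -, h4, h5⟩ := hISOL ι
  have hm := (h4 s).1.measurableSet
  refine ⟨Measurable.piecewise hm (hw1.1.comp (ContinuousOn.measurable_piecewise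
    (h1.mono fun Z hZ => HG.tOf_mem hZ) continuousOn_id hm)) hw.1, fun Z => ?_⟩
  by_cases hZ : Z ∈ HG ι s
  swap
  · rw [← hw.2 Z]
    exact tsum_congr fun γ => tw_not fun h => hZ ((h5 s γ Z).1 h)
  obtain ⟨g, hg⟩ := h3 Z
  have h6 : g • Z ∈ HG ι s := (h5 s g Z).2 hZ
  have h7 : g • Z ∈ OO ι s' := NN_subset B.lt_one hg
  have h8 := (h2 _ (HG.tOf_mem h6)).2.1
  have h9 : shp b (g • Z) ∈ OS ι s s' b := by
    rw [OS, Set.mem_preimage, h8]
    exact ⟨h6, h7⟩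
  rw [← (Equiv.mulRight g).tsum_eq, ← hw1.2 (shp b (g • Z))]
  refine tsum_congr fun γ => ?_
  have h10 : γ • g • Z ∈ HG ι s := (h5 s γ _).2 h6
  rw [Equiv.coe_mulRight, mul_smul, tw_mem h10]
  by_cases h11 : γ • g • Z ∈ OO ι s'
  · rw [(hFLAT2 ι s s' b β B γ _ h6 h7 h11).1]
  · rw [h0, h0]
    · intro h12
      refine h11 ?_
      have h13 := h12.2
      rwa [((hFLAT3 ι s s' b β B).2.2.1 γ _ h9 h12).1, h8] at h13
    · intro h12
      refine h11 ?_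
      have h13 := h12.2
      rwa [(h2 _ (HG.tOf_mem h10)).2.1] at h13

end MASS

open MASS in
theorem p_MASS (hCHV : S_CHV) (hMA : S_MA) (hFLAT1 : S_FLAT1) (hFLAT2 : S_FLAT2)
    (hFLAT3 : S_FLAT3) (hISOL : S_ISOL) (hWTC : S_WTC) (hWT : S_WT) (hINVD : S_INVD)
    (hLEVI1 : S_LEVI1) (hRYP : S_RYP) (hMEAS : S_MEAS) : S_MASS := by
  intro ι _ _ s s' b β B φ w hφ hφ' hw
  have := (hMEAS ι).2.1
  obtain ⟨hO, hN, -⟩ := hFLAT3 ι s s' b β B
  obtain ⟨h1, -, h2, -⟩ := hWTC (SpZ ι) (HH ι) (μH ι) w hw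
  obtain ⟨w1, hw1, h0⟩ := h1 _ hO.measurableSet fun Z =>
    ((hISOL ι).2.1 Z).imp fun γ hγ => hN hγ
  obtain ⟨-, -, -, h3, h4⟩ := hINVD ι
  have hw2 := tw_wt hFLAT1 hFLAT2 hFLAT3 hISOL B hw hw1 h0
  have hm := ((hISOL ι).2.2.2.1 s).1.measurableSet
  have h5 : ∀ Z, (HG ι s).indicator (tw s b w w1) (flt s b Z) = w1 Z := fun Z => by
    by_cases hZ : flt s b Z ∈ HG ι s
    · rw [Set.indicator_of_mem hZ, tw_mem hZ, ((hFLAT1 ι s s' b β B).2.2.1 Z).2.2.2.1]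
    · rw [Set.indicator_of_notMem hZ, h0 Z fun h => hZ h.1]
  have h6 := hCHV ι s s' b β B _ (hw2.1.indicator hm)
  have h7 : ∀ v : HH ι → ℝ≥0∞, ∫⁻ Z, (HG ι s).indicator 1 Z * v Z ∂μH ι = mass v (HG ι s) :=
    fun v => by
      rw [mass, ← lintegral_indicator hm]
      refine lintegral_congr fun Z => ?_
      by_cases hZ : Z ∈ HG ι s <;> simp [hZ]
  have h8 := (hWT (SpZ ι) (HH ι) (μH ι) w hw).2.1 _ ((HG ι s).indicator 1) hw2
    (measurable_one.indicator hm) fun γ Z => by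
      by_cases hZ : Z ∈ HG ι s <;> simp [hZ, (hISOL ι).2.2.2.2 s γ Z]
  rw [h7, h7] at h8
  rw [lintegral_indicator hm, Measure.restrict_restrict hm,
    (Set.inter_eq_left (s := HG ι s) (t := {Z | tOf Z ∈ RI ι s})).2
      fun Z hZ => HG.tOf_mem hZ] at h6
  simp only [h5] at h6
  have h9 : ∀ᵐ Z ∂(μH ι).withDensity w1, dns (fun _ => φ) Z =
      ((((tri (Fintype.card ι)).factorial : ℝ) / 4 ^ tri (Fintype.card ι) * jac s b Z : ℝ) : ℂ) :=
    (ae_withDensity_iff hw1.1).2 (Eventually.of_forall fun Z hZ =>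
      dns_eq hMA hLEVI1 B hO hφ' (by_contra fun h => hZ (h0 Z h)))
  rw [νw, (h2 w1 _ hw1 (h4 _ fun _ => hφ.1).measurable fun γ Z =>
    h3 (fun _ => 1) _ γ Z fun _ => hφ).2, integral_congr_ae h9, integral_complex_ofReal,
    integral_const_mul, integral_eq_lintegral_of_nonneg_ae (Eventually.of_forall jac_nonneg)
      jac_meas.aestronglyMeasurable,
    lintegral_withDensity_eq_lintegral_mul _ hw1.1 jac_meas.ennreal_ofReal, h8, mul_assoc]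
  congr 2
  simp only [Pi.mul_apply, mul_comm (w1 _), jac]
  rw [h6, ENNReal.toReal_mul, ENNReal.toReal_pow, ENNReal.toReal_ofNat, mass]

end Pool.Agent.P.MP_59bdab_ag
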