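import Pool.Agent.P.MP_59bdab_ag.IfC

namespace Pool.Agent.P.MP_59bdab_ag

open Matrix MeasureTheory Filter Topology
open scoped ENNReal ContDiff

namespace MW

/-- One step of Fourier-Motzkin elimination. -/
theorem exists_lam {J : Type} (A : Finset J) (α β : J → ℝ) (h1 : ∀ n ∈ A, 0 ≤ β n → 0 ≤ α n)
    (h2 : ∀ n ∈ A, ∀ n' ∈ A, 0 < β n → β n' < 0 → 0 ≤ β n * α n' - β n' * α n) :
    ∃ lam : ℝ, 0 ≤ lam ∧ ∀ n ∈ A, lam * β n ≤ α n := by
  rcases A.eq_empty_or_nonempty with hA | hA
  · exact ⟨0, le_rfl, fun n hn => by simp [hA] at hn⟩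
  obtain ⟨n0, hn0, hmax⟩ := Finset.exists_max_image A
    (fun n => if β n < 0 then max 0 (α n / β n) else 0) hA
  have hl0 : 0 ≤ (if β n0 < 0 then max 0 (α n0 / β n0) else 0) := by
    split_ifs
    exacts [le_max_left _ _, le_rfl]
  refine ⟨_, hl0, fun n hn => ?_⟩
  rcases lt_trichotomy (β n) 0 with hb | hb | hb
  · have h3 := hmax n hn
    simp only [hb, if_true] at h3
    have h4 : α n / β n ≤ (if β n0 < 0 then max 0 (α n0 / β n0) else 0) :=
      (le_max_right _ _).trans h3
    exact (div_le_iff_of_neg hb).1 h4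
  · rw [hb, mul_zero]
    exact h1 n hn hb.ge
  · have ha := h1 n hn hb.le
    split_ifs with h0
    · rcases max_choice 0 (α n0 / β n0) with h5 | h5
      · rw [h5, zero_mul]; exact ha
      · rw [h5, div_mul_eq_mul_div, div_le_iff_of_neg h0]
        have := h2 n hn n0 hn0 hb h0
        linarith
    · rw [zero_mul]; exact ha

theorem cz_comb {κ : Type} (a b : ℤ) (n n' : κ → ℤ) :
    cz (a • n' - b • n) = (a : ℝ) • cz n' - (b : ℝ) • cz n := by
  funext k
  simp [cz]

end MW

theorem p_MW : S_MW := by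
  intro κ _ _ I s v
  classical
  induction s using Finset.induction_on with
  | empty =>
    refine ⟨Finset.univ.image (fun a : κ => (Pi.single a 1 : κ → ℤ)) ∪
      Finset.univ.image (fun a : κ => (Pi.single a (-1) : κ → ℤ)), fun n _ i hi => by simp at hi,
      fun y hy => ⟨fun _ => 0, fun _ => le_rfl, ?_⟩⟩
    rw [Finset.sum_empty]
    funext a
    have e : ∀ b : ℤ, cz (Pi.single a b : κ → ℤ) = Pi.single a (b : ℝ) := by
      intro b
      funext k
      by_cases hk : k = a
      · subst hk; simp [cz]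
      · simp [cz, hk]
    have h1 := hy _ (Finset.mem_union_left _ (Finset.mem_image_of_mem _ (Finset.mem_univ a)))
    have h2 := hy _ (Finset.mem_union_right _ (Finset.mem_image_of_mem _ (Finset.mem_univ a)))
    rw [e, single_dotProduct] at h1 h2
    push_cast at h1 h2
    show y a = 0
    linarith
  | insert i0 s hi0 ih =>
    obtain ⟨A, hA1, hA2⟩ := ih
    refine ⟨A.filter (fun n => 0 ≤ n ⬝ᵥ v i0) ∪
      ((A ×ˢ A).filter (fun p => 0 < p.1 ⬝ᵥ v i0 ∧ p.2 ⬝ᵥ v i0 < 0)).image
        (fun p => (p.1 ⬝ᵥ v i0) • p.2 - (p.2 ⬝ᵥ v i0) • p.1), fun n hn i hi => ?_, fun y hy => ?_⟩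
    · rcases Finset.mem_union.1 hn with hn | hn
      · rw [Finset.mem_filter] at hn
        rcases Finset.mem_insert.1 hi with rfl | hi
        exacts [hn.2, hA1 n hn.1 i hi]
      · obtain ⟨p, hp, rfl⟩ := Finset.mem_image.1 hn
        rw [Finset.mem_filter, Finset.mem_product] at hp
        rw [sub_dotProduct, smul_dotProduct, smul_dotProduct, smul_eq_mul, smul_eq_mul]
        rcases Finset.mem_insert.1 hi with rfl | hi
        · rw [mul_comm, sub_self]
        · have h1 := hA1 p.1 hp.1.1 i hi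
          have h2 := hA1 p.2 hp.1.2 i hi
          nlinarith [mul_nonneg hp.2.1.le h2, mul_nonneg (neg_nonneg.2 hp.2.2.le) h1]
    · obtain ⟨lam, hl0, hl⟩ := MW.exists_lam A (fun n => cz n ⬝ᵥ y) (fun n => ((n ⬝ᵥ v i0 : ℤ) : ℝ))
        (fun n hn h => hy n (Finset.mem_union_left _ (Finset.mem_filter.2 ⟨hn, by exact_mod_cast h⟩)))
        (fun n hn n' hn' h h' => by
          have h1 := hy _ (Finset.mem_union_right _ (Finset.mem_image_of_mem _
            (Finset.mem_filter.2 ⟨Finset.mem_product.2 (⟨hn, hn'⟩ : (n, n').1 ∈ A ∧ (n, n').2 ∈ A),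
              by exact_mod_cast h, by exact_mod_cast h'⟩)))
          rw [MW.cz_comb, sub_dotProduct, smul_dotProduct, smul_dotProduct, smul_eq_mul,
            smul_eq_mul] at h1
          exact h1)
      obtain ⟨c, hc0, hc⟩ := hA2 (y - lam • cz (v i0)) (fun n hn => by
        rw [dotProduct_sub, dotProduct_smul, smul_eq_mul, cz_dot]
        exact sub_nonneg.2 (hl n hn))
      refine ⟨Function.update c i0 lam, fun i => ?_, ?_⟩
      · by_cases hi : i = i0
        · rw [hi, Function.update_self]; exact hl0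
        · rw [Function.update_of_ne hi]; exact hc0 i
      · rw [Finset.sum_insert hi0, Function.update_self]
        have e : ∑ i ∈ s, Function.update c i0 lam i • cz (v i) = ∑ i ∈ s, c i • cz (v i) :=
          Finset.sum_congr rfl fun i hi => by
            rw [Function.update_of_ne (fun h : i = i0 => hi0 (h ▸ hi))]
        rw [e, ← hc]
        abel

end Pool.Agent.P.MP_59bdab_ag
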