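import Pool.Agent.P.MP_59bdab_ag.IfC
import Pool.Agent.P.MP_59bdab_ag.MAIN

namespace Pool.Agent.P.MP_59bdab_ag

open Matrix MeasureTheory Filter Topology
open scoped ENNReal

open MAIN in
theorem p_NUL (hPOLY : S_POLY) (hSV : S_SV) (hFINW : S_FINW) (hVFIN : S_VFIN) (hPROP : S_PROP)
    (hQ : S_Q) (hISOL : S_ISOL) : S_NUL := by
  intro g σ w hσ hσ1 hw
  obtain ⟨-, -, hvol, -⟩ := hPROP (Fin g)
  have hpi := Real.pi_pos
  rw [← value hSV hFINW g σ]
  set s := 4 * Real.pi * σ with hs
  have hs0 : 0 < s := by positivity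
  have hpoly : ∀ t, 0 < t → t ≤ 1 → (mass w (Short (Fin g) t)).toReal = poly g t := by
    intro t h0 h1
    have := (hPOLY (Fin g) w t hw h0 h1).2
    rw [Fintype.card_fin] at this
    exact this
  have hfin : ∀ R, mass w R ≠ ⊤ := fun R => by
    refine ne_top_of_le_ne_top (hVFIN.1 (Fin g)) ?_
    rw [← hvol w hw]
    exact setLIntegral_le_lintegral R w
  have hcompl : ∀ t, 0 < t → t ≤ 1 →
      (mass w (Short (Fin g) t)ᶜ).toReal = (vol (Fin g)).toReal - poly g t := by
    intro t h0 h1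
    have hm : MeasurableSet (Short (Fin g) t) :=
      ((hQ (Fin g)).2.2.2.2.2.2.2.2.2.1 t).measurableSet
    have h2 : mass w (Short (Fin g) t) + mass w (Short (Fin g) t)ᶜ = vol (Fin g) := by
      rw [← hvol w hw]; exact lintegral_add_compl w hm
    rw [← hpoly t h0 h1, ← h2, ENNReal.toReal_add (hfin _) (hfin _)]
    ring
  have hmono : ∀ R R' : Set (HH (Fin g)), R ⊆ R' → (mass w R).toReal ≤ (mass w R').toReal :=
    fun R R' h => ENNReal.toReal_mono (hfin _) (lintegral_mono_set h)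
  congr 1
  refine le_antisymm ?_ ?_
  · rw [← hcompl s hs0 hσ1.le]
    refine hmono _ _ fun Z hZ => ?_
    rintro ⟨v, hv, h⟩
    exact lt_asymm (hZ v hv) h
  · have hc : Tendsto (fun t => (vol (Fin g)).toReal - poly g t) (𝓝[>] s)
        (𝓝 ((vol (Fin g)).toReal - poly g s)) :=
      ((continuous_const.sub (continuous_poly g)).tendsto s).mono_left nhdsWithin_le_nhds
    refine le_of_tendsto hc ?_
    filter_upwards [(eventually_lt_nhds hσ1).filter_mono nhdsWithin_le_nhds, self_mem_nhdsWithin]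
      with t h1 h2
    have h3 : s < t := h2
    rw [← hcompl t (hs0.trans h3) h1.le]
    refine hmono _ _ fun Z hZ v hv => ?_
    exact h3.trans_le (not_lt.1 fun h => hZ ⟨v, hv, h⟩)

end Pool.Agent.P.MP_59bdab_ag
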