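import Pool.Agent.P.MP_59bdab_ag.IfC

/-!
Invariant functions with cocompact support are sums of translates of a test function.
-/

namespace Pool.Agent.P.MP_59bdab_ag

open Matrix MeasureTheory Filter Topology
open scoped ContDiff

theorem p_PART (hQC : S_QC) (hINVD : S_INVD) : S_PART := by
  intro ι _ _
  have loc : ∀ K : Set (HH ι), IsCompact K → ∀ Z : HH ι, ∃ s : Finset (SpZ ι),
      ∀ᶠ W in 𝓝 Z, ∀ γ, γ ∉ s → γ • W ∉ K := fun K hK Z => by
    obtain ⟨N, hN, hZ⟩ := exists_compact_mem_nhds Z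
    refine ⟨((hQC ι).2.2.2.2 _ (hK.union hN)).toFinset, ?_⟩
    filter_upwards [hZ] with W hW γ h1 h2
    exact h1 ((Set.Finite.mem_toFinset _).2 ⟨W, .inr hW, .inl h2⟩)
  refine ⟨loc, ?_⟩
  rintro f hf ⟨K, hK, hfK⟩
  obtain ⟨V, hV, hKV, hVH, hVc⟩ := exists_open_between_and_isCompact_closure
    (hK.image continuous_subtype_val) (isOpen_HS ι) (Subtype.coe_image_subset _ _)
  obtain ⟨b, hb, hbs, hb0⟩ := hV.exists_contDiff_support_eq (n := ⊤)
  have b0 : ∀ z, 0 ≤ b z := fun z => (hb0 ⟨z, rfl⟩).1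
  have bz : ∀ z, z ∉ closure V → b z = 0 := fun z hz =>
    Function.notMem_support.1 fun h => hz (subset_closure (hb ▸ h))
  have hc : IsCompact (Subtype.val ⁻¹' closure V : Set (HH ι)) :=
    Topology.IsInducing.subtypeVal.isCompact_preimage' hVc (by rwa [Subtype.range_coe])
  let S : (Sym2 ι → ℂ) → ℝ := fun z => ∑ᶠ γ : SpZ ι, b (actF (toR γ).1 z)
  have hS : ∀ Z : HH ι, S Z.1 = ∑ᶠ γ : SpZ ι, b (γ • Z).1 := fun _ => rfl
  have hl : ∀ Z : HH ι, ∃ s : Finset (SpZ ι), ∀ᶠ W in 𝓝 Z,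
      (Function.support fun γ : SpZ ι => b (γ • W).1) ⊆ s := fun Z =>
    (loc _ hc Z).imp fun s hs => hs.mono fun W hW γ hγ =>
      by_contra fun h => hγ (bz _ (hW γ h))
  have hfin : ∀ Z : HH ι, (Function.support fun γ : SpZ ι => b (γ • Z).1).Finite := fun Z => by
    obtain ⟨s, hs⟩ := hl Z
    exact s.finite_toSet.subset hs.self_of_nhds
  have Ss : ∀ Z : HH ι, ContDiffAt ℝ ∞ S Z.1 := fun Z => by
    obtain ⟨s, hs⟩ := hl Z
    refine (ContDiffAt.sum (s := s) (f := fun γ z => b (actF (toR γ).1 z)) fun γ _ =>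
      hbs.contDiffAt.comp _ (((((hINVD ι).1 (toR γ)).2.1.restrict_scalars ℝ)).contDiffAt
        ((isOpen_HS ι).mem_nhds Z.2))).congr_of_eventuallyEq (eventually_amb.2 ?_)
    exact hs.mono fun W hW => finsum_eq_sum_of_support_subset _ hW
  have Si : ∀ (δ : SpZ ι) (Z : HH ι), S (δ • Z).1 = S Z.1 := fun δ Z => by
    rw [hS, hS, ← finsum_comp_equiv (Equiv.mulRight δ) (f := fun γ : SpZ ι => b (γ • Z).1)]
    simp only [Equiv.coe_mulRight, mul_smul]
  have S0 : ∀ Z : HH ι, S Z.1 = 0 → ∀ γ : SpZ ι, γ • Z ∉ K := fun Z h γ hγ => by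
    have h1 : b (γ • Z).1 ≠ 0 := Function.mem_support.1 (hb ▸ hKV ⟨_, hγ, rfl⟩)
    have h2 := single_le_finsum γ (hfin Z) fun γ => b0 _
    rw [← hS, h] at h2
    exact h1 (le_antisymm h2 (b0 _))
  have fi : ∀ (δ : SpZ ι) (Z : HH ι), f (δ • Z).1 = f Z.1 := fun δ Z => by simpa using hf.2 δ Z
  have hs : tsupport (fun z => b z * (f z / S z)) ⊆ closure V :=
    closure_mono ((Function.support_mul_subset_left _ _).trans hb.le)
  refine ⟨fun z => b z * (f z / S z), contDiff_iff_contDiffAt.2 fun z => ?_,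
    hVc.of_isClosed_subset (isClosed_tsupport _) hs, hs.trans hVH, fun Z => ?_⟩
  · by_cases hz : z ∈ closure V
    · lift z to HH ι using hVH hz with Z
      by_cases h0 : S Z.1 = 0
      · refine (contDiffAt_const (c := 0)).congr_of_eventuallyEq (eventually_amb.2 ?_)
        obtain ⟨s, hs⟩ := loc K hK Z
        have h1 : ∀ᶠ W in 𝓝 Z, ∀ γ ∈ s, γ • W ∉ K := (eventually_all_finset s).2 fun γ _ =>
          (continuous_const_smul γ).continuousAt.eventually_mem
            (hK.isClosed.isOpen_compl.mem_nhds (S0 Z h0 γ))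
        filter_upwards [hs, h1] with W h2 h3
        have : f W.1 = 0 := by_contra fun h => by
          obtain ⟨γ, hγ⟩ := hfK W h
          by_cases h4 : γ ∈ s
          exacts [h3 γ h4 hγ, h2 γ h4 hγ]
        simp [this]
      · exact hbs.contDiffAt.mul ((hf.contDiffAt Z).div (Ss Z) h0)
    · refine (contDiffAt_const (c := 0)).congr_of_eventuallyEq ?_
      filter_upwards [isClosed_closure.isOpen_compl.mem_nhds hz] with w hw
      simp [bz w hw]
  · simp only [Si, fi]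
    rw [← finsum_mul' _ _ (hfin Z), ← hS]
    by_cases h0 : S Z.1 = 0
    · rw [h0, zero_mul]
      by_contra h
      obtain ⟨γ, hγ⟩ := hfK Z h
      exact S0 Z h0 γ hγ
    · field_simp

end Pool.Agent.P.MP_59bdab_ag
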