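import Pool.Agent.P.MP_59bdab_ag.IfC

/-! The Piola identities. -/

open scoped ContDiff

namespace Pool.Agent.P.MP_59bdab_ag

namespace PIO

theorem key (hWD : S_WD) {κ : Type} [Fintype κ] [DecidableEq κ] (c : ℂ) (w : κ → (κ → ℂ) → ℂ)
    (l₀ : κ) (hw : ∀ l, ContDiff ℝ ∞ (w l)) (z : κ → ℂ) :
    ∑ σ : Equiv.Perm κ, ((Equiv.Perm.sign σ : ℤ) : ℂ) * wd c (σ l₀)
      (fun y => ∏ l ∈ Finset.univ.erase l₀, wd c (σ l) (w l) y) z = 0 := by
  have h1 : ∀ σ : Equiv.Perm κ, wd c (σ l₀)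
      (fun y => ∏ l ∈ Finset.univ.erase l₀, wd c (σ l) (w l) y) z = _ := fun σ =>
    (hWD κ c (σ l₀)).2.2.2.1 _ (fun l => wd c (σ l) (w l)) (fun l => (hWD κ c _).1 _ (hw l)) z
  simp only [h1, Finset.mul_sum]
  rw [Finset.sum_comm]
  refine Finset.sum_eq_zero fun l hl => self_eq_neg.1 ?_
  have h2 := (Finset.mem_erase.1 hl).1
  rw [← Finset.sum_neg_distrib, ← Equiv.sum_comp (Equiv.mulRight (Equiv.swap l₀ l))]
  refine Finset.sum_congr rfl fun σ _ => ?_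
  simp only [Equiv.coe_mulRight, Equiv.Perm.mul_apply, Equiv.swap_apply_left,
    Equiv.swap_apply_right, Equiv.Perm.sign_mul, Equiv.Perm.sign_swap h2.symm]
  rw [(hWD κ c (σ l)).2.1 c (σ l₀) _ (hw l), Finset.prod_congr rfl fun j hj => by
    rw [Equiv.swap_apply_of_ne_of_ne (Finset.mem_erase.1 (Finset.mem_erase.1 hj).2).1
      (Finset.mem_erase.1 hj).1]]
  simp

end PIO

theorem p_PIO (hWD : S_WD) : S_PIO := by
  intro κ _ _ v l₀ hv τ z
  have h : ∀ l, ContDiff ℝ ∞ fun y => (v l y : ℂ) := fun l =>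
    Complex.ofRealCLM.contDiff.comp (hv l)
  refine ⟨PIO.key hWD _ _ l₀ (fun l => (hWD κ Complex.I (τ l)).1 _ (h l)) z, ?_⟩
  simp only [levi, Matrix.of_apply, fun a b l => (hWD κ (-Complex.I) a).2.1 Complex.I b _ (h l)]
  exact PIO.key hWD _ _ l₀ (fun l => (hWD κ (-Complex.I) (τ l)).1 _ (h l)) z

end Pool.Agent.P.MP_59bdab_ag
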