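import Pool.Agent.P.MP_59bdab_ag.IfC

/-!
The dual form near a cusp.
-/

namespace Pool.Agent.P.MP_59bdab_ag

open Matrix Filter Topology

namespace PM

section gen
variable {n : Type} [Fintype n] [DecidableEq n]

open scoped MatrixOrder in
theorem tr_nonneg {G B : Matrix n n ℝ} (hG : G.PosSemidef) (hB : B.PosSemidef) :
    0 ≤ (G * B).trace := by
  have h1 : CFC.sqrt B * CFC.sqrt B = B := CFC.sqrt_mul_sqrt_self B hB.nonneg
  have h2 : (CFC.sqrt B)ᴴ = CFC.sqrt B := (CFC.sqrt_nonneg B).posSemidef.1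
  have h3 := (hG.mul_mul_conjTranspose_same (CFC.sqrt B)).trace_nonneg
  rwa [h2, trace_mul_comm, ← Matrix.mul_assoc, h1, trace_mul_comm] at h3

theorem tr_le {G A B : Matrix n n ℝ} {t : ℝ} (hG : G.PosSemidef) (h : (A - t • B).PosSemidef) :
    t * (G * B).trace ≤ (G * A).trace := by
  have := tr_nonneg hG h
  rwa [Matrix.mul_sub, Matrix.mul_smul, trace_sub, trace_smul, smul_eq_mul, sub_nonneg] at this

omit [DecidableEq n] in
theorem small {X : Type} [TopologicalSpace X] {K : Set X} (hK : IsCompact K)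
    {A B : X → Matrix n n ℝ} (hA : Continuous A) (hB : Continuous B)
    (hA' : ∀ x, (A x).IsHermitian) (hB' : ∀ x, (B x).IsHermitian) (h : ∀ x ∈ K, (A x).PosDef) :
    ∀ᶠ t in 𝓝 (0 : ℝ), ∀ x ∈ K, (A x - t • B x).PosDef := by
  refine hK.eventually_forall_of_forall_eventually fun x hx => ?_
  have h1 : IsOpen {p : ℝ × X | (A p.2 - p.1 • B p.2).PosDef} :=
    isOpen_posDef ((hA.comp continuous_snd).sub (continuous_fst.smul (hB.comp continuous_snd)))
      fun p => (hA' _).sub (by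
        rw [IsHermitian, conjTranspose_smul, star_trivial, (hB' _).eq])
  exact h1.mem_nhds (by simpa using h x hx)

theorem inv_psd {Y : Matrix n n ℝ} {t : ℝ} (hY : Y.PosDef) (ht : 0 ≤ t)
    (h : (Y - t • (1 : Matrix n n ℝ)).PosSemidef) : (1 - t • Y⁻¹).PosSemidef := by
  have hu : IsUnit Y.det := hY.det_pos.ne'.isUnit
  have h1 := ((posSemidef_conjTranspose_mul_self (Y - t • (1 : Matrix n n ℝ))).add
    (h.smul ht)).mul_mul_conjTranspose_same Y⁻¹
  rwa [h.1.eq, Matrix.mul_sub (Y - t • (1 : Matrix n n ℝ)), Matrix.mul_smul, Matrix.mul_one,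
    sub_add_cancel, hY.inv.1.eq, Matrix.mul_assoc, mul_nonsing_inv_cancel_right _ _ hu,
    Matrix.mul_sub, nonsing_inv_mul _ hu, Matrix.mul_smul, Matrix.mul_one] at h1

end gen

variable {ι : Type} [Fintype ι] [DecidableEq ι]

/-- The matrix with blocks `X` and `1`. -/
def Nn (x : Sym2 ι → ℝ) : Matrix (ι ⊕ ι) ι ℝ := fromRows (mat x) 1

omit [Fintype ι] in
theorem cont_Nn : Continuous (Nn : (Sym2 ι → ℝ) → Matrix (ι ⊕ ι) ι ℝ) := by
  refine continuous_pi fun i => continuous_pi fun j => ?_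
  rcases i with i | i
  · exact continuous_apply _
  · exact continuous_const

theorem Qm_inv (Z : HH ι) :
    (Qm Z)⁻¹ = fromBlocks (Ym Z) 0 0 0 + Nn (rev Z.1) * (Ym Z)⁻¹ * (Nn (rev Z.1))ᵀ := by
  have hu : IsUnit (Ym Z).det := (Ym_det_pos Z).ne'.isUnit
  have h1 := nonsing_inv_mul _ hu
  have h2 := mul_nonsing_inv _ hu
  refine inv_eq_right_inv ?_
  rw [Nn, ← Xm_eq, fromRows_mul, transpose_fromRows, fromRows_mul_fromCols, fromBlocks_add, Qm,
    fromBlocks_multiply, ← fromBlocks_one, Xm_transpose, transpose_one]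
  generalize (Ym Z)⁻¹ = W at h1 h2 ⊢
  generalize Ym Z = Y at h1 h2 ⊢
  generalize Xm Z = X
  have h4 : ∀ A, Y * (W * A) = A := fun A => by rw [← Matrix.mul_assoc, h2, Matrix.one_mul]
  congr 1 <;> simp [mul_add, add_mul, mul_assoc, h1, h2, h4]
  abel

omit [DecidableEq ι] in
theorem tr_blk (G : Matrix (ι ⊕ ι) (ι ⊕ ι) ℝ) (Y : Matrix ι ι ℝ) :
    (G * fromBlocks Y 0 0 0).trace = (G.submatrix Sum.inl Sum.inl * Y).trace := by
  simp [trace, mul_apply, Fintype.sum_sum_type]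

omit [DecidableEq ι] in
theorem tr_sqr (G : Matrix (ι ⊕ ι) (ι ⊕ ι) ℝ) (p : ι → ℤ) :
    (G.submatrix Sum.inl Sum.inl * mat (sqr p)).trace = qf G (lv p) := by
  rw [mat_sqr, mul_vecMulVec, trace_vecMulVec, dotProduct_comm]
  simp [qf, lv, cz, dotProduct, mulVec, Fintype.sum_sum_type]

theorem qf_ev (G : Matrix (ι ⊕ ι) (ι ⊕ ι) ℝ) (i : ι) : qf G (ev i) = G (.inl i) (.inl i) := by
  have h : cz (ev i) = Pi.single (Sum.inl i) 1 := by
    funext j
    by_cases e : j = Sum.inl i <;> simp [cz, ev, e]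
  rw [qf, h, single_dotProduct, mulVec_single_one, one_mul]
  rfl

omit [Fintype ι] [DecidableEq ι] in
theorem mat_sum (P : Finset (ι → ℤ)) (c : (ι → ℤ) → ℝ) :
    mat (∑ p ∈ P, c p • sqr p) = ∑ p ∈ P, c p • mat (sqr p) := by
  ext i j
  simp [Matrix.sum_apply]

end PM

open PM in
theorem p_PM (hQ : S_Q) : S_PM := by
  intro ι _ _
  refine ⟨fun γ Z G => ?_, fun γ G v => ?_, fun K hK hc M => ?_⟩
  · have h1 := (hQ ι).2.1 (toR γ) Z
    have hu : IsUnit (toR γ).1.det := SymplecticGroup.symplectic_det (toR γ).2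
    have hu' : IsUnit (toR γ).1ᵀ.det := isUnit_det_transpose _ hu
    rw [← h1, smulZ_def, Matrix.mul_inv_rev, Matrix.mul_inv_rev, Matrix.mul_assoc,
      mul_nonsing_inv_cancel_left _ _ hu, ← Matrix.mul_assoc, trace_mul_comm _ (toR γ).1ᵀ⁻¹,
      Matrix.mul_assoc, nonsing_inv_mul_cancel_left _ _ hu']
  · rw [qf, qf, cz_mulVec, ← mulVec_mulVec, ← mulVec_mulVec, dotProduct_mulVec (cz v),
      vecMul_transpose]
  have a1 := small hc continuous_mat (B := fun _ => 1) continuous_const mat_isHermitian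
    (fun _ => isHermitian_one) hK
  have a2 := small hc (A := fun _ => 1) continuous_const continuous_mat (fun _ => isHermitian_one)
    mat_isHermitian fun _ _ => PosDef.one
  have a3 := small (isCompact_closedBall (0 : Sym2 ι → ℝ) M) (A := fun _ => 1)
    (B := fun x => Nn x * (Nn x)ᵀ) continuous_const (cont_Nn.matrix_mul cont_Nn.matrix_transpose)
    (fun _ => isHermitian_one) (fun x => isHermitian_mul_conjTranspose_self (Nn x))
    fun _ _ => PosDef.one
  obtain ⟨t, ⟨⟨b1, b2⟩, b3⟩, ht⟩ :=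
    ((((a1.and a2).and a3).filter_mono nhdsWithin_le_nhds).and (self_mem_nhdsWithin (s := Set.Ioi 0))).exists
  have ht : 0 < t := ht
  refine ⟨t ^ 2 / (1 + t), by positivity, fun Z P c G hM h0 hy hG => ?_⟩
  have hG1 := hG.submatrix (Sum.inl : ι → ι ⊕ ι)
  have hG2 : ((Nn (rev Z.1))ᵀ * G * Nn (rev Z.1)).PosSemidef :=
    hG.conjTranspose_mul_mul_same (Nn (rev Z.1))
  have eY : Ym Z = mat (imv Z.1 - ∑ p ∈ P, c p • sqr p) + ∑ p ∈ P, c p • mat (sqr p) := by
    rw [mat_sub, mat_sum, sub_add_cancel, Ym_eq]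
  have hS : (∑ p ∈ P, c p • mat (sqr p)).PosSemidef := posSemidef_sum _ fun p _ => by
    rw [mat_sqr]
    exact (posSemidef_vecMulVec_self_star (cz p)).smul (h0 p)
  have hY : (Ym Z - t • (1 : Matrix ι ι ℝ)).PosSemidef := by
    rw [eY, add_sub_right_comm]
    exact (b1 _ hy).posSemidef.add hS
  have c1 := tr_le hG1 (b1 _ hy).posSemidef
  have c2 := tr_le hG1 (b2 _ hy).posSemidef
  have c3 := tr_le hG (b3 _ (mem_closedBall_zero_iff.2 hM)).posSemidef
  have c4 := tr_le hG2 (inv_psd (Ym_posDef Z) ht.le hY)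
  have c5 := tr_nonneg hG2 (Ym_posDef Z).inv.posSemidef
  have c6 := hG1.trace_nonneg
  have c7 : (G.submatrix Sum.inl Sum.inl).trace ≤ G.trace := by
    have := (hG.submatrix (Sum.inr : ι → ι ⊕ ι)).trace_nonneg
    simp only [trace, diag_apply, submatrix_apply, Fintype.sum_sum_type] at this ⊢
    linarith
  have e1 : (G * (Qm Z)⁻¹).trace = ∑ p ∈ P, c p * qf G (lv p) +
      ((G.submatrix Sum.inl Sum.inl * mat (imv Z.1 - ∑ p ∈ P, c p • sqr p)).trace +
        ((Nn (rev Z.1))ᵀ * G * Nn (rev Z.1) * (Ym Z)⁻¹).trace) := by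
    rw [Qm_inv, Matrix.mul_add, trace_add, tr_blk, ← Matrix.mul_assoc, trace_mul_comm _ (Nn _)ᵀ,
      ← Matrix.mul_assoc, ← Matrix.mul_assoc]
    generalize ((Nn (rev Z.1))ᵀ * G * Nn (rev Z.1) * (Ym Z)⁻¹).trace = w
    rw [eY, Matrix.mul_add, trace_add, Matrix.mul_sum, trace_sum]
    simp only [Matrix.mul_smul, trace_smul, smul_eq_mul, tr_sqr]
    ring
  have e2 : ∑ i, qf G (ev i) = (G.submatrix Sum.inl Sum.inl).trace := by
    simp only [qf_ev, trace, diag_apply, submatrix_apply]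
  rw [Matrix.mul_one] at c1 c2 c3 c4
  rw [← Matrix.mul_assoc, trace_mul_comm _ (Nn _)ᵀ, ← Matrix.mul_assoc] at c3
  rw [e1, e2]
  generalize (G.submatrix Sum.inl Sum.inl * mat (imv Z.1 - ∑ p ∈ P, c p • sqr p)).trace = u at *
  generalize ((Nn (rev Z.1))ᵀ * G * Nn (rev Z.1) * (Ym Z)⁻¹).trace = w at *
  refine ⟨add_le_add_right ?_ _, add_le_add_right ?_ _⟩
  · have : t ^ 2 / (1 + t) ≤ t := by
      rw [div_le_iff₀ (by positivity)]
      nlinarith
    nlinarith
  · rw [inv_div, div_mul_eq_mul_div, le_div_iff₀ (by positivity)]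
    have d1 := mul_le_mul_of_nonneg_left (c2.trans c7) ht.le
    have d2 := mul_le_mul_of_nonneg_left c4 ht.le
    nlinarith

end Pool.Agent.P.MP_59bdab_ag
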