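import Pool.Agent.P.MP_59bdab_ag.IfC

namespace Pool.Agent.P.MP_59bdab_ag

open Matrix MeasureTheory Filter Topology
open scoped ENNReal ContDiff

namespace POT
variable {ι : Type} [Fintype ι] [DecidableEq ι]

theorem log_mul (γ δ : SpZ ι) (Z : HH ι) : Real.log (‖jf (toR (γ * δ)) Z‖ ^ 2) =
    Real.log (‖jf (toR γ) (δ • Z)‖ ^ 2) + Real.log (‖jf (toR δ) Z‖ ^ 2) := by
  rw [map_mul, jf_mul, norm_mul, mul_pow, smulZ_def,
    Real.log_mul (pow_ne_zero _ (norm_ne_zero_iff.mpr (jf_ne_zero _ _)))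
      (pow_ne_zero _ (norm_ne_zero_iff.mpr (jf_ne_zero _ _)))]

end POT

theorem p_POT (hFLAT3 : S_FLAT3) (hISOL : S_ISOL) (hINVD : S_INVD) (hLEG3 : S_LEG3) : S_POT := by
  intro ι _ _ s s' b β hB
  obtain ⟨hO, hN, hE, -⟩ := hFLAT3 ι s s' b β hB
  have hex : ∀ Z : HH ι, ∃ γ : SpZ ι, γ • Z ∈ OS ι s s' b := fun Z =>
    ((hISOL ι).2.1 Z).imp fun _ h => hN h
  choose gz hgz using hex
  let φ : (Sym2 ι → ℂ) → ℝ := fun z =>
    Ph s b β (imv (gz (toH z) • toH z).1) - Real.log (‖jf (toR (gz (toH z))) (toH z)‖ ^ 2)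
  have key : ∀ (γ : SpZ ι) (Z : HH ι), γ • Z ∈ OS ι s s' b →
      φ Z.1 = Ph s b β (imv (γ • Z).1) - Real.log (‖jf (toR γ) Z‖ ^ 2) := fun γ Z h => by
    have e : (γ * (gz Z)⁻¹) • gz Z • Z = γ • Z := by rw [← mul_smul, inv_mul_cancel_right]
    have h1 := (hE (γ * (gz Z)⁻¹) (gz Z • Z) (hgz Z) (by rwa [e])).2
    have h2 := POT.log_mul (γ * (gz Z)⁻¹) (gz Z) Z
    rw [inv_mul_cancel_right] at h2
    rw [e] at h1
    simp only [φ, toH_coe]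
    rw [h1, h2]
    ring
  refine ⟨φ, ⟨fun z hz => ?_, fun γ Z => ?_⟩, fun Z hZ => ?_⟩
  · let Z₀ : HH ι := ⟨z, hz⟩
    obtain ⟨-, h1, -, h2⟩ := (hINVD ι).1 (toR (gz Z₀))
    have h3 : φ =ᶠ[𝓝 Z₀.1] fun w => Ph s b β (imv (actF (toR (gz Z₀)).1 w)) -
        Real.log (‖(den (toR (gz Z₀)).1 w).det‖ ^ 2) := by
      refine eventually_amb.mpr ?_
      have h4 : ∀ᶠ W : HH ι in 𝓝 Z₀, gz Z₀ • W ∈ OS ι s s' b :=
        (continuous_const_smul (gz Z₀)).continuousAt.eventually (hO.mem_nhds (hgz Z₀))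
      filter_upwards [h4] with W hW
      exact key (gz Z₀) W hW
    refine ContDiffAt.contDiffWithinAt (ContDiffAt.congr_of_eventuallyEq ?_ h3)
    have h5 : ContDiffAt ℝ ∞ (actF (toR (gz Z₀)).1) z :=
      (h1.contDiffAt ((isOpen_HS ι).mem_nhds hz)).restrict_scalars ℝ
    have h6 : ContDiffAt ℝ ∞ (Ph s b β) (imv (actF (toR (gz Z₀)).1 z)) :=
      (hLEG3 ι s s' b β hB).2.2.2.2.2.1.contDiffAt
        ((isOpen_PD ι).mem_nhds (mem_HS.mp (toR (gz Z₀) • Z₀).2))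
    have h7 : IsOpen {w : Sym2 ι → ℂ | (den (toR (gz Z₀)).1 w).det ≠ 0} :=
      isOpen_ne_fun (continuous_den _).matrix_det continuous_const
    exact (h6.comp z (contDiff_imv.contDiffAt.comp z h5)).sub
      (h2.contDiffAt (h7.mem_nhds (jf_ne_zero (toR (gz Z₀)) Z₀)))
  · have h1 := key (gz (γ • Z) * γ) Z (by rw [mul_smul]; exact hgz _)
    rw [key (gz (γ • Z)) (γ • Z) (hgz _), h1, POT.log_mul, mul_smul]
    ring
  · rw [key 1 Z (by rwa [one_smul]), one_smul, map_one, jf_one]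
    simp

end Pool.Agent.P.MP_59bdab_ag
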