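import Pool.Agent.P.MP_59bdab_ag.IfC

/-!
Properness of the action on toric charts.
-/

set_option linter.unusedSectionVars false
set_option linter.unusedVariables false

namespace Pool.Agent.P.MP_59bdab_ag

open Matrix

namespace PQ

variable {ι : Type} [Fintype ι] [DecidableEq ι]

/-- The form `t[m] + 2 |n|^2` on pairs `(m, n)`. -/
noncomputable def TT (t : Sym2 ι → ℝ) : Matrix (ι ⊕ ι) (ι ⊕ ι) ℝ :=
  fromBlocks (dm t) 0 0 ((2 : ℝ) • 1)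

theorem dot_TT (t : Sym2 ι → ℝ) (x : ι ⊕ ι → ℝ) :
    x ⬝ᵥ TT t *ᵥ x = (fun i => x (Sum.inl i)) ⬝ᵥ dm t *ᵥ (fun i => x (Sum.inl i)) +
      2 * ∑ i, x (Sum.inr i) ^ 2 := by
  have h : x = Sum.elim (fun i => x (Sum.inl i)) fun i => x (Sum.inr i) := by
    funext a; rcases a with a | a <;> rfl
  conv_lhs => rw [h]
  rw [TT, fromBlocks_mulVec, sumElim_dotProduct_sumElim]
  simp only [Sum.elim_comp_inl, Sum.elim_comp_inr, zero_mulVec, add_zero, zero_add, smul_mulVec,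
    one_mulVec, dotProduct_smul, smul_eq_mul]
  congr 2
  simp only [dotProduct, sq]

theorem qf_TT (t : Sym2 ι → ℝ) (v : ι ⊕ ι → ℤ) :
    qf (TT t) v = pr t (fun i => v (Sum.inl i)) + 2 * ∑ i, (v (Sum.inr i) : ℝ) ^ 2 := by
  rw [qf, dot_TT, pr_eq_qf]
  rfl

theorem qf_lv (t : Sym2 ι → ℝ) (p : ι → ℤ) : qf (TT t) (lv p) = pr t p := by
  rw [qf_TT]
  simp [lv]

theorem TT_psd {t : Sym2 ι → ℝ} (ht : t ∈ PT ι) : (TT t).PosSemidef := by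
  have ht' : (dm t).PosDef := ht
  refine PosSemidef.of_dotProduct_mulVec_nonneg ?_ fun x => ?_
  · rw [IsHermitian, conjTranspose_eq_transpose_of_trivial, TT, fromBlocks_transpose,
      dm_transpose]
    simp
  · have h1 := ht'.posSemidef.dotProduct_mulVec_nonneg fun i => x (Sum.inl i)
    rw [star_trivial] at h1 ⊢
    rw [dot_TT]
    have h2 : 0 ≤ ∑ i, x (Sum.inr i) ^ 2 := Finset.sum_nonneg fun _ _ => sq_nonneg _
    linarith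

theorem pr_nonneg {t : Sym2 ι → ℝ} (ht : t ∈ Ry ι) (p : ι → ℤ) : 0 ≤ pr t p := by
  by_cases hp : p = 0
  · simp [hp]
  · exact zero_le_one.trans (ht p hp)

theorem two_le {t : Sym2 ι → ℝ} (ht : t ∈ Ry ι) {v : ι ⊕ ι → ℤ} {i : ι}
    (hv : v (Sum.inr i) ≠ 0) : 2 ≤ qf (TT t) v := by
  rw [qf_TT]
  have h1 := pr_nonneg ht fun i => v (Sum.inl i)
  have h2 : (v (Sum.inr i) : ℝ) ^ 2 ≤ ∑ i, (v (Sum.inr i) : ℝ) ^ 2 :=
    Finset.single_le_sum (f := fun i => (v (Sum.inr i) : ℝ) ^ 2) (fun _ _ => sq_nonneg _)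
      (Finset.mem_univ i)
  have h3 : (1 : ℤ) ≤ v (Sum.inr i) ^ 2 := Int.add_one_le_iff.mpr (sq_pos_of_ne_zero hv)
  have h4 : (1 : ℝ) ≤ (v (Sum.inr i) : ℝ) ^ 2 := by exact_mod_cast h3
  linarith

theorem gap {t : Sym2 ι → ℝ} (ht : t ∈ Ry ι) {P : Finset (ι → ℤ)} {η : ℝ} (hη : η ≤ 1)
    (h : ∀ p, p ≠ 0 → p ∉ P → 1 + η ≤ pr t p) {v : ι ⊕ ι → ℤ} (hv : v ≠ 0)
    (hP : ¬ ∃ p ∈ P, v = lv p) : 1 + η ≤ qf (TT t) v := by
  by_cases h1 : ∀ i, v (Sum.inr i) = 0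
  · have h2 := eq_lv h1
    rw [h2, qf_lv]
    refine h _ (fun h0 => hv ?_) fun h0 => hP ⟨_, h0, h2⟩
    rw [h2, h0]
    funext a; rcases a with a | a <;> rfl
  · obtain ⟨i, hi⟩ := not_forall.mp h1
    linarith [two_le ht hi]

theorem one_le {t : Sym2 ι → ℝ} (ht : t ∈ Ry ι) {v : ι ⊕ ι → ℤ} (hv : v ≠ 0) :
    1 ≤ qf (TT t) v := by
  have h := gap ht (P := ∅) (η := 0) zero_le_one (fun p hp _ => by simpa using ht p hp) hv
    (by simp)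
  simpa using h

theorem fin_TT {t : Sym2 ι → ℝ} (ht : t ∈ Ry ι)
    (h : ∀ M : ℝ, ∃ P : Finset (ι → ℤ), ∀ p, p ∉ P → M ≤ pr t p) (B : ℝ) :
    {v | qf (TT t) v ≤ B}.Finite := by
  obtain ⟨P, hP⟩ := h (B + 1)
  have h1 : {w : ι → ℤ | ∀ i, w i ∈ Set.Icc (-⌈B⌉) ⌈B⌉}.Finite :=
    Set.Finite.pi' fun _ => Set.finite_Icc _ _
  refine ((P.finite_toSet.prod h1).image fun x => Sum.elim x.1 x.2).subset fun v hv => ?_
  have hv' : qf (TT t) v ≤ B := hv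
  rw [qf_TT] at hv'
  have h2 : 0 ≤ ∑ i, (v (Sum.inr i) : ℝ) ^ 2 := Finset.sum_nonneg fun _ _ => sq_nonneg _
  have h3 := pr_nonneg ht fun i => v (Sum.inl i)
  refine ⟨(fun i => v (Sum.inl i), fun i => v (Sum.inr i)), ⟨?_, fun i => ?_⟩, ?_⟩
  · by_contra h0
    linarith [hP _ h0]
  · have h4 : (v (Sum.inr i) : ℝ) ^ 2 ≤ ∑ i, (v (Sum.inr i) : ℝ) ^ 2 :=
      Finset.single_le_sum (f := fun i => (v (Sum.inr i) : ℝ) ^ 2) (fun _ _ => sq_nonneg _)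
        (Finset.mem_univ i)
    have h5 : ((v (Sum.inr i) ^ 2 : ℤ) : ℝ) ≤ (⌈B⌉ : ℝ) := by
      push_cast
      linarith [Int.le_ceil B]
    have h6 : v (Sum.inr i) ^ 2 ≤ ⌈B⌉ := by exact_mod_cast h5
    constructor <;> nlinarith [sq_nonneg (v (Sum.inr i) - 1), sq_nonneg (v (Sum.inr i) + 1),
      Int.le_self_sq (v (Sum.inr i)), Int.le_self_sq (-v (Sum.inr i))]
  · funext a; rcases a with a | a <;> rfl

theorem inv_mulVec (γ : SpZ ι) (v : ι ⊕ ι → ℤ) : (γ⁻¹).1 *ᵥ (γ.1 *ᵥ v) = v := by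
  have h : (γ⁻¹).1 * γ.1 = 1 := congrArg Subtype.val (inv_mul_cancel γ)
  rw [mulVec_mulVec, h, one_mulVec]

theorem mulVec_ne (γ : SpZ ι) {v : ι ⊕ ι → ℤ} (hv : v ≠ 0) : γ.1 *ᵥ v ≠ 0 := fun h =>
  hv (by rw [← inv_mulVec γ v, h, mulVec_zero])

theorem out_inj : Function.Injective fun (q : SpZ ι ⧸ UU ι) (i : ι) => (q.out).1 *ᵥ ev i := by
  intro q q' h
  rw [← QuotientGroup.out_eq' q, ← QuotientGroup.out_eq' q', QuotientGroup.eq]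
  funext i
  show ((q.out)⁻¹.1 * (q'.out).1) *ᵥ ev i = ev i
  have h1 : (q.out).1 *ᵥ ev i = (q'.out).1 *ᵥ ev i := congrFun h i
  rw [← mulVec_mulVec, ← h1, inv_mulVec]

theorem psd_conj {G : Matrix (ι ⊕ ι) (ι ⊕ ι) ℝ} (hG : G.PosSemidef) (γ : SpZ ι) :
    ((toR γ).1ᵀ * G * (toR γ).1).PosSemidef := by
  have h := hG.conjTranspose_mul_mul_same (toR γ).1
  rwa [conjTranspose_eq_transpose_of_trivial] at h

theorem qf_nonneg {G : Matrix (ι ⊕ ι) (ι ⊕ ι) ℝ} (hG : G.PosSemidef) (v : ι ⊕ ι → ℤ) :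
    0 ≤ qf G v := by
  have h := hG.dotProduct_mulVec_nonneg (cz v)
  rwa [star_trivial] at h

theorem sum_min {t : Sym2 ι → ℝ} {P : Finset (ι → ℤ)} (hP : IsMin t P) (c : (ι → ℤ) → ℝ) :
    ∑ p ∈ P, c p * qf (TT t) (lv p) = ∑ p ∈ P, c p :=
  Finset.sum_congr rfl fun p hp => by rw [qf_lv, (hP p).mp hp, mul_one]

theorem ne_zero_of {t : Sym2 ι → ℝ} {P : Finset (ι → ℤ)} (hP : IsMin t P) {p : ι → ℤ}
    (hp : p ∈ P) : p ≠ 0 := by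
  rintro rfl
  simpa using (hP 0).mp hp

theorem reduce (hMOV : S_MOV) (Z : HH ι) :
    ∃ u ∈ UU ι, ‖rev (u • Z).1‖ ≤ 1 ∧ imv (u • Z).1 = imv Z.1 := by
  obtain ⟨u, hu, h⟩ := (hMOV ι).2.2.1 fun a => -⌊(Z.1 a).re⌋
  refine ⟨u, hu, ?_, ?_⟩
  · rw [h, pi_norm_le_iff_of_nonneg zero_le_one]
    intro a
    have h1 := Int.floor_le (Z.1 a).re
    have h2 := Int.lt_floor_add_one (Z.1 a).re
    simp only [rev, Pi.add_apply, Complex.add_re, Complex.intCast_re, Int.cast_neg,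
      Complex.neg_re, Real.norm_eq_abs, abs_le]
    constructor <;> linarith
  · rw [h]
    funext a
    simp [imv]

end PQ

open PQ in
theorem p_PQ (hRYP : S_RYP) (hPM : S_PM) (hMOV : S_MOV) (hQ : S_Q) : S_PQ := by
  intro ι _ _ t t₁ P P₁ K K₁ M ht ht₁ hP hP₁ hK hKc hK₁ hK₁c
  obtain ⟨r1, r2, -, -, -, -, r7, -⟩ := hRYP ι
  obtain ⟨m1, m2, m3⟩ := hPM ι
  have hT := TT_psd (r1 1 one_pos t ht)
  have hT₁ := TT_psd (r1 1 one_pos t₁ ht₁)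
  obtain ⟨P', hP', η₀, hη₀, hg⟩ := r7 t ht
  obtain rfl : P' = P := Finset.ext fun p => (hP' p).trans (hP p).symm
  have hη : 0 < min η₀ 1 := lt_min hη₀ one_pos
  have hgap := fun v => gap ht (η := min η₀ 1) (min_le_right _ _)
    (fun p h1 h2 => le_trans (by linarith [min_le_left η₀ 1]) (hg p h1 h2)) (v := v)
  generalize min η₀ 1 = η at hη hgap
  obtain ⟨k, hk, e⟩ := m3 K hK hKc 1
  obtain ⟨k₁, hk₁, e₁⟩ := m3 K₁ hK₁ hK₁c M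
  obtain ⟨D, hD⟩ : ∃ D, D = k⁻¹ * (TT t).trace + k₁⁻¹ * (TT t₁).trace := ⟨_, rfl⟩
  have hfin := fin_TT ht₁ (fun B => by
    obtain ⟨Q, hQ⟩ := r2 {t₁} (Set.singleton_subset_iff.mpr (r1 1 one_pos t₁ ht₁))
      isCompact_singleton B
    exact ⟨Q, hQ t₁ rfl⟩) (D / k)
  have hS : {q : SpZ ι ⧸ UU ι | (∀ i, qf (TT t₁) ((q.out).1 *ᵥ ev i) ≤ D / k) ∧
      ∀ p ∈ P₁, ∃ p' ∈ P', (rep q).1 *ᵥ lv p = lv p'}.Finite :=
    ((Set.Finite.pi' fun _ : ι => hfin).preimage out_inj.injOn).subset fun q hq => hq.1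
  refine ⟨|D| / η + 1, hS.toFinset, fun q hq => (hS.mem_toFinset.mp hq).2, ?_⟩
  intro q Z c c₁ hZ hc₁ hZK hc hZ'
  obtain ⟨u, hu, hu1, hu2⟩ := reduce hMOV (rep q • Z)
  rw [← hu2, ← mul_smul] at hZ'
  rw [← mul_smul] at hu1
  have hR : 0 ≤ |D| / η := by positivity
  have hc₁' : ∀ p, 0 ≤ c₁ p := fun p => le_trans (by linarith) (hc₁ p)
  have a1 := (e _ P' c _ hu1 hc hZ' hT).2
  have a2 := (e₁ Z P₁ c₁ _ hZ hc₁' hZK (psd_conj hT (u * rep q))).1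
  have a3 := (e₁ Z P₁ c₁ _ hZ hc₁' hZK hT₁).2
  have a4 := (e _ P' c _ hu1 hc hZ' (psd_conj hT₁ (u * rep q)⁻¹)).1
  rw [← m1, inv_smul_smul] at a4
  rw [← m1] at a2
  rw [sum_min hP] at a1
  rw [sum_min hP₁] at a3
  simp only [m2] at a2 a4
  have b1 : 0 ≤ k₁ * ∑ i, qf (TT t) ((u * rep q).1 *ᵥ ev i) :=
    mul_nonneg hk₁.le (Finset.sum_nonneg fun _ _ => qf_nonneg hT _)
  have b2 : ∑ p ∈ P', c p ≤ ∑ p ∈ P', c p * qf (TT t₁) ((u * rep q)⁻¹.1 *ᵥ lv p) :=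
    Finset.sum_le_sum fun p hp => le_mul_of_one_le_right (hc p)
      (one_le ht₁ (mulVec_ne _ (lv_ne_zero (ne_zero_of hP hp))))
  have b3 : ∀ i, (u * rep q)⁻¹.1 *ᵥ ev i = (q.out).1 *ᵥ ev i := fun i => by
    have h1 : (u * rep q)⁻¹ = q.out * u⁻¹ := by rw [rep, _root_.mul_inv_rev, inv_inv]
    have h2 : (u⁻¹).1 *ᵥ ev i = ev i := congrFun ((UU ι).inv_mem hu) i
    rw [h1, Submonoid.coe_mul, ← mulVec_mulVec, h2]
  simp only [b3] at a4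
  have b4 : ∀ p ∈ P₁, 0 ≤ c₁ p * (qf (TT t) ((u * rep q).1 *ᵥ lv p) - 1) := fun p hp =>
    mul_nonneg (hc₁' p) (sub_nonneg.mpr
      (one_le ht (mulVec_ne _ (lv_ne_zero (ne_zero_of hP₁ hp)))))
  have b5 : ∀ i, 0 ≤ qf (TT t₁) ((q.out).1 *ᵥ ev i) := fun i => qf_nonneg hT₁ _
  have key : ∑ p ∈ P₁, c₁ p * (qf (TT t) ((u * rep q).1 *ᵥ lv p) - 1) +
      k * ∑ i, qf (TT t₁) ((q.out).1 *ᵥ ev i) ≤ D := by
    simp only [mul_sub, mul_one, Finset.sum_sub_distrib]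
    linarith
  have b6 := Finset.sum_nonneg b4
  have b7 : 0 ≤ k * ∑ i, qf (TT t₁) ((q.out).1 *ᵥ ev i) :=
    mul_nonneg hk.le (Finset.sum_nonneg fun i _ => b5 i)
  refine hS.mem_toFinset.mpr ⟨fun i => ?_, fun p hp => ?_⟩
  · have h1 := Finset.single_le_sum (f := fun i => qf (TT t₁) ((q.out).1 *ᵥ ev i))
      (fun i _ => b5 i) (Finset.mem_univ i)
    rw [le_div_iff₀ hk, mul_comm]
    linarith [mul_le_mul_of_nonneg_left h1 hk.le]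
  · have h1 := Finset.single_le_sum b4 hp
    by_cases h2 : ∃ p' ∈ P', (u * rep q).1 *ᵥ lv p = lv p'
    · obtain ⟨p', hp', h3⟩ := h2
      refine ⟨p', hp', ?_⟩
      rw [Submonoid.coe_mul, ← mulVec_mulVec] at h3
      rw [← inv_mulVec u ((rep q).1 *ᵥ lv p), h3]
      exact ((hMOV ι).2.2.2.1 _ ((UU ι).inv_mem hu)).2.2 p'
    · exfalso
      have h3 := hgap _ (mulVec_ne _ (lv_ne_zero (ne_zero_of hP₁ hp))) h2
      have h4 : (|D| / η + 1) * η ≤ c₁ p * (qf (TT t) ((u * rep q).1 *ᵥ lv p) - 1) :=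
        mul_le_mul (hc₁ p) (by linarith) hη.le (hc₁' p)
      rw [add_mul, div_mul_cancel₀ _ hη.ne'] at h4
      linarith [le_abs_self D]

end Pool.Agent.P.MP_59bdab_ag
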