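import Pool.Agent.P.MP_59bdab_ag.IfC

/-!
Reduction of the real part near a point of a toric chart.
-/

namespace Pool.Agent.P.MP_59bdab_ag

open Matrix Filter Topology
open scoped ContDiff

namespace RED

variable {κ I : Type} [Fintype κ] {r : ℕ}

/-- Complex vector of an integer vector. -/
def ci (n : κ → ℤ) : κ → ℂ := fun a => (n a : ℂ)

theorem ci_dot (n m : κ → ℤ) : ci n ⬝ᵥ ci m = ((n ⬝ᵥ m : ℤ) : ℂ) := by simp [ci, dotProduct]

theorem two_pi_ne : (2 * Real.pi * Complex.I : ℂ) ≠ 0 := Complex.two_pi_I_ne_zero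

theorem exists_int (n : κ → ℤ) (z W : κ → ℂ) : ∃ k : ℤ, ci n ⬝ᵥ z =
    ci n ⬝ᵥ W + Complex.log (chr n z / chr n W) / (2 * Real.pi * Complex.I) + k := by
  have h := Complex.exp_log (div_ne_zero (chr_ne_zero n z) (chr_ne_zero n W))
  have h1 : chr n z / chr n W = Complex.exp (2 * Real.pi * Complex.I * (ci n ⬝ᵥ z) -
      2 * Real.pi * Complex.I * (ci n ⬝ᵥ W)) := (Complex.exp_sub _ _).symm
  obtain ⟨k, hk⟩ := Complex.exp_eq_exp_iff_exists_int.1 (h1.symm.trans h.symm)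
  refine ⟨k, mul_left_cancel₀ two_pi_ne ?_⟩
  rw [mul_add, mul_add, mul_div_cancel₀ _ two_pi_ne]
  linear_combination hk

theorem span_c {s : Finset I} {v : I → κ → ℤ} {m : Fin r → κ → ℤ}
    (h : ∀ x : κ → ℝ, (∀ j, cz (m j) ⬝ᵥ x = 0) → ∃ c : I → ℝ, x = ∑ i ∈ s, c i • cz (v i))
    (x : κ → ℂ) (hx : ∀ j, ci (m j) ⬝ᵥ x = 0) : ∃ c : I → ℂ, x = ∑ i ∈ s, c i • ci (v i) := by
  obtain ⟨c, hc⟩ := h (rev x) fun j => by
    simpa [ci, cz, rev, dotProduct] using congrArg Complex.re (hx j)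
  obtain ⟨d, hd⟩ := h (imv x) fun j => by
    simpa [ci, cz, imv, dotProduct] using congrArg Complex.im (hx j)
  refine ⟨fun i => ⟨c i, d i⟩, funext fun a => Complex.ext ?_ ?_⟩
  · simpa [ci, cz, rev] using congrFun hc a
  · simpa [ci, cz, imv] using congrFun hd a

/-- A local section of the map given by the characters. -/
noncomputable def G (m e : Fin r → κ → ℤ) (W : κ → ℂ) (w : Fin r → ℂ) : κ → ℂ :=
  W + ∑ j, (Complex.log (w j / chr (m j) W) / (2 * Real.pi * Complex.I)) • ci (e j)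

/-- Its domain. -/
def O (m : Fin r → κ → ℤ) (W : κ → ℂ) : Set (Fin r → ℂ) :=
  {w | ∀ j, w j / chr (m j) W ∈ Complex.slitPlane}

theorem isOpen_O (m : Fin r → κ → ℤ) (W : κ → ℂ) : IsOpen (O m W) := by
  rw [O, Set.ofPred_forall]
  exact isOpen_iInter_of_finite fun j =>
    Complex.isOpen_slitPlane.preimage ((continuous_apply j).div_const _)

theorem mem_O (m : Fin r → κ → ℤ) (W : κ → ℂ) : (fun j => chr (m j) W) ∈ O m W := fun j => by
  rw [div_self (chr_ne_zero _ _)]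
  exact Complex.one_mem_slitPlane

theorem G_self (m e : Fin r → κ → ℤ) (W : κ → ℂ) : G m e W (fun j => chr (m j) W) = W := by
  simp [G, div_self (chr_ne_zero _ _)]

theorem contDiffOn_G (m e : Fin r → κ → ℤ) (W : κ → ℂ) : ContDiffOn ℝ ∞ (G m e W) (O m W) := by
  refine ContDiffOn.restrict_scalars ℝ (𝕜' := ℂ) (contDiffOn_const.add (ContDiffOn.sum fun j _ =>
    (ContDiffOn.div_const (fun w hw => ?_) _).smul_const _))
  exact ((Complex.contDiffAt_log (hw j)).comp w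
    ((contDiff_apply ℂ ℂ j).div_const _).contDiffAt).contDiffWithinAt

theorem dec {s : Finset I} {v : I → κ → ℤ} {m e : Fin r → κ → ℤ}
    (h1 : ∀ j k, m j ⬝ᵥ e k = if j = k then 1 else 0)
    (h2 : ∀ x : κ → ℝ, (∀ j, cz (m j) ⬝ᵥ x = 0) → ∃ c : I → ℝ, x = ∑ i ∈ s, c i • cz (v i))
    (W z : κ → ℂ) : ∃ n : κ → ℤ, (∃ c : I → ℂ,
      z - ci n = G m e W (fun j => chr (m j) z) + ∑ i ∈ s, c i • ci (v i)) ∧
      ‖rev z - cz n‖ ≤ ‖G m e W fun j => chr (m j) z‖ + ∑ i ∈ s, ‖cz (v i)‖ := by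
  choose k hk using fun j => exists_int (m j) z W
  have h3 : ∀ (j) (c : Fin r → ℂ), ci (m j) ⬝ᵥ ∑ l, c l • ci (e l) = c j := fun j c => by
    simp [dotProduct_sum, ci_dot, h1]
  obtain ⟨c, hc⟩ := span_c h2 (z - ∑ j, (k j : ℂ) • ci (e j) - G m e W fun j => chr (m j) z)
    fun j => by
      rw [G, dotProduct_sub, dotProduct_sub, dotProduct_add, h3, h3, hk]
      ring
  have h4 : z - ci (∑ j, k j • e j + ∑ i ∈ s, ⌊(c i).re⌋ • v i) = G m e W (fun j => chr (m j) z) +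
      ∑ i ∈ s, (c i - ⌊(c i).re⌋) • ci (v i) := by
    have h5 : ci (∑ j, k j • e j + ∑ i ∈ s, ⌊(c i).re⌋ • v i) =
        ∑ j, (k j : ℂ) • ci (e j) + ∑ i ∈ s, (⌊(c i).re⌋ : ℂ) • ci (v i) := by
      funext a
      simp [ci]
    simp only [sub_smul, Finset.sum_sub_distrib, ← hc, h5]
    abel
  refine ⟨_, ⟨_, h4⟩, ?_⟩
  have h5 : ∀ n : κ → ℤ, cz n = rev (ci n) := fun n => funext fun a => by simp [cz, rev, ci]
  have h6 : rev (∑ i ∈ s, (c i - ⌊(c i).re⌋) • ci (v i)) =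
      ∑ i ∈ s, Int.fract (c i).re • cz (v i) := by
    funext a
    simp [cz, rev, ci]
  rw [h5, ← rev_sub, h4, rev_add, h6]
  refine (norm_add_le _ _).trans (add_le_add ?_ (norm_sum_le_of_le _ fun i _ => ?_))
  · exact (pi_norm_le_iff_of_nonneg (norm_nonneg _)).2 fun a =>
      (Complex.abs_re_le_norm _).trans (norm_le_pi_norm _ a)
  · rw [norm_smul, Real.norm_of_nonneg (Int.fract_nonneg _)]
    exact mul_le_of_le_one_left (norm_nonneg _) (Int.fract_lt_one _).le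

end RED

theorem p_RED (hSPL : S_SPL) (hSMV : S_SMV) : S_RED := by
  intro ι _ _ t W P hP
  obtain ⟨r, m, e, h1, h2, h3⟩ := hSPL (Sym2 ι) _ P sqz
  have h4 : ∀ j p, pr t p = 1 → pr (cz (m j)) p = 0 := fun j p hp => by
    rw [pr_cz, h1 j p ((hP p).2 hp), Int.cast_zero]
  have h5 : ∀ j, Du t (m j) := fun j p hp => (h4 j p hp).ge
  have h6 : (fun j => chr0 t W (m j)) = fun j => chr (m j) W := funext fun j => chr0_of W (h4 j)
  have h7 : Tendsto (fun z j => chr (m j) z) (cfil t W) (𝓝 fun j => chr (m j) W) :=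
    h6 ▸ tendsto_pi_nhds.2 fun j => tendsto_chr W (h5 j)
  have h8 : Tendsto (fun z => RED.G m e W fun j => chr (m j) z) (cfil t W) (𝓝 W) := by
    have h8 := ((RED.contDiffOn_G m e W).continuousOn.continuousAt
      ((RED.isOpen_O m W).mem_nhds (RED.mem_O m W))).tendsto.comp h7
    rwa [RED.G_self] at h8
  choose n hn hb using RED.dec h2 h3 W
  refine ⟨n, ‖W‖ + 1 + ∑ p ∈ P, ‖cz (sqz p)‖, ?_, fun E _ _ Ω h hΩ hW hh hp => ?_⟩
  · filter_upwards [h8.norm.eventually (eventually_le_nhds (lt_add_one _))] with z hz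
    exact (hb z).trans (add_le_add hz le_rfl)
  · refine ⟨r, m, RED.O m W ∩ RED.G m e W ⁻¹' Ω, fun w => h (RED.G m e W w), h5,
      (RED.contDiffOn_G m e W).continuousOn.isOpen_inter_preimage (RED.isOpen_O m W) hΩ, ?_,
      hh.comp ((RED.contDiffOn_G m e W).mono Set.inter_subset_left) fun w hw => hw.2, ?_, ?_⟩
    · rw [h6]
      exact ⟨RED.mem_O m W, by rwa [Set.mem_preimage, RED.G_self]⟩
    · rw [h6]
      exact congrArg h (RED.G_self m e W)
    · filter_upwards [h8.eventually (hΩ.mem_nhds hW)] with z hz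
      obtain ⟨c, hc⟩ := hn z
      have h9 : ∀ p : ι → ℤ, RED.ci (sqz p) = tv p := fun p => funext fun a => (tv_eq' p a).symm
      simp only [h9] at hc
      exact (congrArg h hc).trans (hp _ hz c)

end Pool.Agent.P.MP_59bdab_ag
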