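import Pool.Agent.P.MP_59bdab_ag.IfC

/-!
Estimates in a toric chart.
-/

namespace Pool.Agent.P.MP_59bdab_ag

open Matrix Filter Topology
open scoped ContDiff

namespace REG1

variable {κ : Type} [Fintype κ]

theorem fderiv_chr (n : κ → ℤ) (z ζ : κ → ℂ) :
    fderiv ℂ (chr n) z ζ =
      chr n z * (2 * Real.pi * Complex.I * ((fun a => ((cz n a : ℝ) : ℂ)) ⬝ᵥ ζ)) := by
  have h1 : HasFDerivAt (fun z : κ → ℂ => 2 * Real.pi * Complex.I * ∑ a, (n a : ℂ) * z a)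
      ((2 * Real.pi * Complex.I : ℂ) • ∑ a, (n a : ℂ) •
        (ContinuousLinearMap.proj a : (κ → ℂ) →L[ℂ] ℂ)) z :=
    (HasFDerivAt.fun_sum fun a _ => (hasFDerivAt_apply a z).const_mul (n a : ℂ)).const_mul _
  have h2 : HasFDerivAt (chr n) _ z := h1.cexp
  rw [h2.fderiv]
  simp [chr, dotProduct, cz]

theorem hq_bound {A : Matrix κ κ ℂ} {B : ℝ} (h : ∀ a b, ‖A a b‖ ≤ B) (ξ : κ → ℂ) :
    ‖hq A ξ‖ ≤ B * (∑ l, ‖ξ l‖) ^ 2 := by
  have h1 : hq A ξ = ∑ a, ∑ b, ξ a * (A a b * star (ξ b)) := by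
    simp [hq, dotProduct, mulVec, Finset.mul_sum]
  rw [h1, sq, Finset.sum_mul_sum, Finset.mul_sum]
  refine norm_sum_le_of_le _ fun a _ => ?_
  rw [Finset.mul_sum]
  refine norm_sum_le_of_le _ fun b _ => ?_
  rw [norm_mul, norm_mul, norm_star]
  calc ‖ξ a‖ * (‖A a b‖ * ‖ξ b‖) ≤ ‖ξ a‖ * (B * ‖ξ b‖) := by gcongr; exact h a b
    _ = B * (‖ξ a‖ * ‖ξ b‖) := by ring

theorem dot_bound {v : κ → ℂ} {B : ℝ} (h : ∀ a, ‖v a‖ ≤ B) (ξ : κ → ℂ) :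
    ‖v ⬝ᵥ ξ‖ ≤ B * ∑ l, ‖ξ l‖ := by
  rw [dotProduct, Finset.mul_sum]
  refine norm_sum_le_of_le _ fun a _ => ?_
  rw [norm_mul]
  gcongr
  exact h a

theorem exp_bound {M x : ℝ} (h : Real.exp (-(2 * Real.pi * x)) ≤ M) :
    Real.exp (-(2 * Real.pi * x)) ^ 2 * (1 + x ^ 2) ≤ 1 + M ^ 4 := by
  have hpi := Real.pi_gt_three
  have hM : 0 ≤ M ^ 4 := by positivity
  have he := Real.exp_pos (-(2 * Real.pi * x))
  rcases le_total 0 x with hx | hx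
  · have h1 : 1 + x ≤ Real.exp (2 * Real.pi * x) := by
      have := Real.add_one_le_exp (2 * Real.pi * x)
      nlinarith
    have h2 : Real.exp (-(2 * Real.pi * x)) * Real.exp (2 * Real.pi * x) = 1 := by
      rw [← Real.exp_add]; simp
    have h3 : 1 + x ^ 2 ≤ Real.exp (2 * Real.pi * x) ^ 2 := by nlinarith
    have h4 : Real.exp (-(2 * Real.pi * x)) ^ 2 * (1 + x ^ 2) ≤
        Real.exp (-(2 * Real.pi * x)) ^ 2 * Real.exp (2 * Real.pi * x) ^ 2 := by gcongr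
    rw [← mul_pow, h2] at h4
    linarith
  · have h1 : 1 - x ≤ Real.exp (-(2 * Real.pi * x)) := by
      have := Real.add_one_le_exp (-(2 * Real.pi * x))
      nlinarith
    have h2 : 1 + x ^ 2 ≤ M ^ 2 := by nlinarith
    have h3 : Real.exp (-(2 * Real.pi * x)) ^ 2 ≤ M ^ 2 := by gcongr
    calc Real.exp (-(2 * Real.pi * x)) ^ 2 * (1 + x ^ 2) ≤ M ^ 2 * M ^ 2 := by gcongr
      _ ≤ 1 + M ^ 4 := by nlinarith

theorem xi_bound {n : κ → ℤ} {z : κ → ℂ} {M : ℝ} (h : ‖chr n z‖ ≤ M) {L : Finset (κ → ℝ)}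
    (hL : cz n ∈ L) (ζ : κ → ℂ) :
    ‖fderiv ℂ (chr n) z ζ‖ ^ 2 ≤ (2 * Real.pi) ^ 2 * (1 + M ^ 4) * omg L (imv z) ζ := by
  have h1 : ‖(fun a => ((cz n a : ℝ) : ℂ)) ⬝ᵥ ζ‖ ^ 2 / (1 + (cz n ⬝ᵥ imv z) ^ 2) ≤
      omg L (imv z) ζ :=
    Finset.single_le_sum (f := fun l : κ → ℝ =>
      ‖(fun a => (l a : ℂ)) ⬝ᵥ ζ‖ ^ 2 / (1 + (l ⬝ᵥ imv z) ^ 2)) (fun _ _ => by positivity) hL
  rw [norm_chr] at h
  have h2 := exp_bound h
  have h3 : ‖(2 * Real.pi * Complex.I : ℂ)‖ = 2 * Real.pi := by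
    simp [abs_of_pos Real.pi_pos]
  rw [fderiv_chr, norm_mul, norm_mul, norm_chr, h3]
  set e := Real.exp (-(2 * Real.pi * (cz n ⬝ᵥ imv z)))
  set x := cz n ⬝ᵥ imv z
  set N := ‖(fun a => ((cz n a : ℝ) : ℂ)) ⬝ᵥ ζ‖
  have h4 : 0 < 1 + x ^ 2 := by positivity
  calc (e * (2 * Real.pi * N)) ^ 2
      = (2 * Real.pi) ^ 2 * (e ^ 2 * (1 + x ^ 2)) * (N ^ 2 / (1 + x ^ 2)) := by field_simp
    _ ≤ _ := by gcongr

end REG1

open REG1 in
theorem REG1.main (hLEVI1 : S_LEVI1) (hLEVI2 : S_LEVI2) {ι : Type} [Fintype ι] [DecidableEq ι]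
    (t : Sym2 ι → ℝ) (W : Sym2 ι → ℂ) (u : (Sym2 ι → ℂ) → ℝ) (hu : Sm t W u) :
    ∃ (L : Finset (Sym2 ι → ℝ)) (C : ℝ), 0 ≤ C ∧ ∀ᶠ z in cfil t W, |u z| ≤ C ∧
      ContDiffAt ℝ ∞ u z ∧ Dom L (imv z) C (levi u z) ∧
      ∀ ζ, ‖dzz u z ⬝ᵥ ζ‖ ^ 2 ≤ C * omg L (imv z) ζ := by
  classical
  obtain ⟨m, n, ε, F, hε, hn, hF, hFu⟩ := hu
  set c : Fin m → ℂ := fun l => chr0 t W (n l) with hc
  set h : (Sym2 ι → ℂ) → Fin m → ℂ := fun z l => chr (n l) z with hh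
  have hhd : ContDiff ℂ ∞ h := contDiff_pi.mpr fun l => contDiff_chr (n l)
  have hK : IsCompact (Metric.closedBall c (ε / 2)) := isCompact_closedBall _ _
  have hKs : Metric.closedBall c (ε / 2) ⊆ Metric.ball c ε :=
    Metric.closedBall_subset_ball (by linarith)
  obtain ⟨hc1, hc2⟩ := (hLEVI1 (Fin m)).2.2.2.2.2.2.1 F _ Metric.isOpen_ball
    (hF.of_le (by norm_cast))
  obtain ⟨B₀, hB₀⟩ := hK.exists_bound_of_continuousOn (hF.continuousOn.mono hKs)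
  have hc1' : ContinuousOn (fun w => fun p : Fin m × Fin m => levi F w p.1 p.2)
      (Metric.closedBall c (ε / 2)) :=
    continuousOn_pi.mpr fun p =>
      (continuousOn_pi.mp (continuousOn_pi.mp (hc1.mono hKs) p.1) p.2)
  obtain ⟨B₁, hB₁⟩ := hK.exists_bound_of_continuousOn hc1'
  obtain ⟨B₂, hB₂⟩ := hK.exists_bound_of_continuousOn (hc2.mono hKs)
  obtain ⟨M, hM⟩ := hK.exists_bound_of_continuousOn continuousOn_id
  have hc0 : c ∈ Metric.closedBall c (ε / 2) := Metric.mem_closedBall_self (by linarith)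
  have hB₀0 : 0 ≤ B₀ := (norm_nonneg _).trans (hB₀ c hc0)
  have hB₁0 : 0 ≤ B₁ := (norm_nonneg _).trans (hB₁ c hc0)
  have hB₂0 : 0 ≤ B₂ := (norm_nonneg _).trans (hB₂ c hc0)
  set D : ℝ := (m : ℝ) * (m * ((2 * Real.pi) ^ 2 * (1 + M ^ 4))) with hD
  have hD0 : 0 ≤ D := by positivity
  refine ⟨Finset.univ.image fun l => cz (n l), B₀ + B₁ * D + B₂ ^ 2 * D, by positivity, ?_⟩
  set L := Finset.univ.image fun l => cz (n l) with hL
  have ht : Tendsto h (cfil t W) (𝓝 c) := tendsto_pi_nhds.mpr fun l => tendsto_chr W (hn l)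
  filter_upwards [cfil_HS t W, ht (Metric.closedBall_mem_nhds c (half_pos hε))] with z hz hzK
  have hzK' : h z ∈ Metric.closedBall c (ε / 2) := hzK
  have hV : u =ᶠ[𝓝 z] fun y => F (h y) := by
    filter_upwards [(isOpen_HS ι).mem_nhds hz,
      hhd.continuous.continuousAt (Metric.isOpen_ball.mem_nhds (hKs hzK'))] with y hy hy'
    exact hFu y hy hy'
  have hFz : ContDiffAt ℝ ∞ F (h z) := hF.contDiffAt (Metric.isOpen_ball.mem_nhds (hKs hzK'))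
  obtain ⟨e1, e2⟩ := (hLEVI1 (Sym2 ι)).1 u _ z hV
  obtain ⟨e3, e4, -⟩ := (hLEVI2 (Sym2 ι)).1 (Fin m) h F z
    (hhd.contDiffAt.of_le (by norm_cast)) (hFz.of_le (by norm_cast))
  have hxi : ∀ ζ, (∑ l, ‖fderiv ℂ h z ζ l‖) ^ 2 ≤ D * omg L (imv z) ζ := by
    intro ζ
    have h1 : ∀ l, ‖fderiv ℂ h z ζ l‖ ^ 2 ≤
        (2 * Real.pi) ^ 2 * (1 + M ^ 4) * omg L (imv z) ζ := by
      intro l
      have h2 : fderiv ℂ h z ζ l = fderiv ℂ (chr (n l)) z ζ := by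
        rw [hh, fderiv_pi fun l => (contDiff_chr (n l)).differentiable (by simp) z]
        rfl
      rw [h2]
      exact xi_bound ((norm_le_pi_norm (h z) l).trans (hM _ hzK'))
        (Finset.mem_image_of_mem (fun l => cz (n l)) (Finset.mem_univ l)) ζ
    calc (∑ l, ‖fderiv ℂ h z ζ l‖) ^ 2
        ≤ (Finset.univ : Finset (Fin m)).card * ∑ l, ‖fderiv ℂ h z ζ l‖ ^ 2 :=
          sq_sum_le_card_mul_sum_sq
      _ ≤ (Finset.univ : Finset (Fin m)).card *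
          ∑ _l : Fin m, (2 * Real.pi) ^ 2 * (1 + M ^ 4) * omg L (imv z) ζ := by
          gcongr with l
          exact h1 l
      _ = D * omg L (imv z) ζ := by
          simp only [Finset.card_univ, Fintype.card_fin, Finset.sum_const, nsmul_eq_mul, hD]
          ring
  refine ⟨?_, ?_, fun ζ => ?_, fun ζ => ?_⟩
  · rw [hV.eq_of_nhds]
    have := hB₀ _ hzK'
    rw [Real.norm_eq_abs] at this
    have h1 : 0 ≤ B₁ * D + B₂ ^ 2 * D := by positivity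
    linarith
  · exact (hFz.comp z (hhd.contDiffAt.restrict_scalars ℝ)).congr_of_eventuallyEq hV
  · rw [e1, e3]
    have h1 := hq_bound (A := levi F (h z)) (B := B₁)
      (fun a b => (norm_le_pi_norm _ (a, b)).trans (hB₁ _ hzK')) (fderiv ℂ h z ζ)
    have h2 := omg_nonneg L (imv z) ζ
    calc _ ≤ B₁ * (D * omg L (imv z) ζ) := h1.trans (mul_le_mul_of_nonneg_left (hxi ζ) hB₁0)
      _ ≤ _ := by
        have h3 : 0 ≤ (B₀ + B₂ ^ 2 * D) * omg L (imv z) ζ := by positivity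
        nlinarith
  · rw [e2, e4]
    have h1 := dot_bound (v := dzz F (h z)) (B := B₂)
      (fun a => (norm_le_pi_norm _ a).trans (hB₂ _ hzK')) (fderiv ℂ h z ζ)
    have h2 := omg_nonneg L (imv z) ζ
    calc _ ≤ (B₂ * ∑ l, ‖fderiv ℂ h z ζ l‖) ^ 2 := by gcongr
      _ = B₂ ^ 2 * (∑ l, ‖fderiv ℂ h z ζ l‖) ^ 2 := mul_pow _ _ _
      _ ≤ B₂ ^ 2 * (D * omg L (imv z) ζ) := mul_le_mul_of_nonneg_left (hxi ζ) (sq_nonneg _)
      _ ≤ _ := by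
        have h3 : 0 ≤ (B₀ + B₁ * D) * omg L (imv z) ζ := by positivity
        nlinarith

theorem p_REG1 (hLEVI1 : S_LEVI1) (hLEVI2 : S_LEVI2) (hRYP : S_RYP) : S_REG1 := by
  intro ι _ _
  refine ⟨REG1.main hLEVI1 hLEVI2, fun c d u hu => ⟨fun W hW => ?_, hu.smul⟩⟩
  obtain ⟨t, ht, ht1⟩ := (hRYP ι).2.2.2.2.2.2.2
  obtain ⟨L, C, -, h⟩ := REG1.main hLEVI1 hLEVI2 t W _ (hu.sm ht hW)
  have h1 : Tendsto (fun _ : Unit => W) ⊤ (cfil t W) := by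
    refine tendsto_cfil.mpr ⟨Eventually.of_forall fun _ => hW, fun n _ => ?_⟩
    rw [chr0_of W fun p hp => absurd hp (ht1 p)]
    exact tendsto_const_nhds
  have h2 := (eventually_top.mp (h1.eventually h) ()).2.1
  have h3 : ContDiff ℝ ∞ fun z : Sym2 ι → ℂ => d * (4 * Real.pi * (t ⬝ᵥ imv z)) := by
    refine contDiff_const.mul (contDiff_const.mul ?_)
    exact ContDiff.sum fun a _ => contDiff_const.mul (contDiff_pi.mp contDiff_imv a)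
  have h4 := h2.add h3.contDiffAt
  simp only [sub_add_cancel] at h4
  exact h4.contDiffWithinAt

end Pool.Agent.P.MP_59bdab_ag
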