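import Pool.Agent.P.MP_59bdab_ag.IfC

namespace Pool.Agent.P.MP_59bdab_ag

open Matrix MeasureTheory Filter Topology

namespace REG2

variable {ι : Type}

theorem cv_add (x y y' : Sym2 ι → ℝ) : cv x (y + y') = cv x y + cv 0 y' := by
  funext a
  simp only [cv, Pi.add_apply, Pi.zero_apply]
  push_cast
  ring

theorem cv_zero : cv (0 : Sym2 ι → ℝ) 0 = 0 := by
  funext a
  simp [cv]

theorem psd_sum [Fintype ι] (P : Finset (ι → ℤ)) (c : (ι → ℤ) → ℝ) (hc : ∀ p ∈ P, 0 ≤ c p) :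
    (mat (∑ p ∈ P, c p • sqr p)).PosSemidef := by
  classical
  induction P using Finset.induction_on with
  | empty =>
    rw [Finset.sum_empty]
    exact PosSemidef.zero
  | insert a P ha ih =>
    rw [Finset.sum_insert ha, mat_add, mat_smul, mat_sqr]
    refine PosSemidef.add ?_ (ih fun p hp => hc p (Finset.mem_insert_of_mem hp))
    refine PosSemidef.smul ?_ (hc a (Finset.mem_insert_self _ _))
    have h := posSemidef_vecMulVec_self_star (cz a)
    simpa using h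

variable [Fintype ι] [DecidableEq ι]

theorem dot_sum (n : Sym2 ι → ℝ) (P : Finset (ι → ℤ)) (c : (ι → ℤ) → ℝ) :
    n ⬝ᵥ (∑ p ∈ P, c p • sqr p) = ∑ p ∈ P, c p * pr n p := by
  rw [dotProduct_sum]
  refine Finset.sum_congr rfl fun p _ => ?_
  rw [dotProduct_smul, pr_eq, smul_eq_mul]

end REG2

open REG2

theorem p_REG2 (hFLAT1 : S_FLAT1) (hRYP : S_RYP) : S_REG2 := by
  intro ι _ _ s s' b β hB Z₀ hZ₀
  classical
  have hs := hB.pos
  have hge : ∀ p : ι → ℤ, p ≠ 0 → s ≤ pr (tOf Z₀) p := by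
    intro p hp
    rw [pr_tOf]
    by_contra h
    exact hZ₀ ⟨lv p, lv_ne_zero hp, not_le.mp h⟩
  have hone : ∀ p : ι → ℤ, pr (s⁻¹ • tOf Z₀) p = 1 ↔ pr (tOf Z₀) p = s := by
    intro p
    rw [pr_smul, inv_mul_eq_one₀ hs.ne', eq_comm]
  refine ⟨fun p hp => ?_, ?_⟩
  · rw [pr_smul, le_inv_mul_iff₀ hs, mul_one]
    exact hge p hp
  obtain ⟨P, hP⟩ := (hRYP ι).2.2.1 (tOf Z₀) (tOf_mem Z₀) s'
  have hP0 : ∀ p, p ∉ P → s' ≤ pr (tOf Z₀) p := hP.self_of_nhds
  have hPz : ∀ᶠ Z in 𝓝 Z₀, ∀ p, p ∉ P → s' ≤ pr (tOf Z) p :=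
    (continuous_tOf.tendsto Z₀).eventually hP
  set P0 := P.filter (fun p => pr (tOf Z₀) p = s) with hP0def
  set P1 := P.filter (fun p => ¬ pr (tOf Z₀) p = s) with hP1def
  have hP1 : ∀ p ∈ P1, p = 0 ∨ s < pr (tOf Z₀) p := by
    intro p hp
    by_cases h0 : p = 0
    · exact Or.inl h0
    · exact Or.inr (lt_of_le_of_ne (hge p h0) (Ne.symm (Finset.mem_filter.mp hp).2))
  have hmem : ∀ p, pr (tOf Z₀) p = s → p ∈ P0 := by
    intro p hp
    refine Finset.mem_filter.mpr ⟨?_, hp⟩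
    by_contra h
    have h1 := hP0 p h
    have h2 := hB.lt
    linarith
  set Wz : HH ι → Sym2 ι → ℂ := fun Z =>
    cv (rev Z.1) (imv Z.1 + ∑ p ∈ P1, b (pr (tOf Z) p) • sqr p) with hWz
  set Sz : HH ι → Sym2 ι → ℝ := fun Z => ∑ p ∈ P0, b (pr (tOf Z) p) • sqr p with hSz
  have hW : Wz Z₀ ∈ HS ι := by
    refine cv_mem ?_
    show (mat (imv Z₀.1 + ∑ p ∈ P1, b (pr (tOf Z₀) p) • sqr p)).PosDef
    rw [mat_add]
    refine PosDef.add_posSemidef Z₀.2 (psd_sum P1 _ fun p hp => ?_)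
    rcases hP1 p hp with h | h
    · simp [h, hB.b_at_zero]
    · exact hB.b_nonneg _ h
  have hWt : Tendsto Wz (𝓝 Z₀) (𝓝 (Wz Z₀)) := by
    have h1 : Tendsto (fun Z : HH ι => ∑ p ∈ P1, b (pr (tOf Z) p) • sqr p) (𝓝 Z₀)
        (𝓝 (∑ p ∈ P1, b (pr (tOf Z₀) p) • sqr p)) := by
      refine tendsto_finsetSum _ fun p hp => ?_
      rcases hP1 p hp with h | h
      · simp [h]
      · refine Tendsto.smul_const ?_ _
        have h2 : ContinuousAt b (pr (tOf Z₀) p) :=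
          hB.smooth_b.continuousOn.continuousAt (Ioi_mem_nhds h)
        exact h2.tendsto.comp (((continuous_pr p).comp continuous_tOf).tendsto Z₀)
    have h2 : Tendsto (fun Z : HH ι => rev Z.1) (𝓝 Z₀) (𝓝 (rev Z₀.1)) :=
      (continuous_rev.comp continuous_subtype_val).tendsto Z₀
    have h3 : Tendsto (fun Z : HH ι => imv Z.1) (𝓝 Z₀) (𝓝 (imv Z₀.1)) :=
      (continuous_imv.comp continuous_subtype_val).tendsto Z₀
    exact (continuous_cv.tendsto _).comp (h2.prodMk_nhds (h3.add h1))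
  have hdec : ∀ᶠ Z in 𝓝[HG ι s] Z₀, (shp b Z).1 = Wz Z + cv 0 (Sz Z) := by
    filter_upwards [self_mem_nhdsWithin, mem_nhdsWithin_of_mem_nhds hPz] with Z hZ hZP
    rw [((hFLAT1 ι s s' b β hB).2.2.2 Z (HG.tOf_mem hZ)).1, hB.YY_eq hZP, coord_inv_tOf,
      ← Finset.sum_filter_add_sum_filter_not P (fun p => pr (tOf Z₀) p = s), hWz, hSz,
      ← cv_add]
    congr 1
    abel
  refine ⟨Wz Z₀, hW, tendsto_cfil.mpr ⟨Eventually.of_forall fun Z => (shp b Z).2, ?_⟩⟩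
  intro n hn
  have hc : Tendsto (fun Z => chr n (Wz Z)) (𝓝[HG ι s] Z₀) (𝓝 (chr n (Wz Z₀))) :=
    (((contDiff_chr n).continuous.tendsto _).comp hWt).mono_left nhdsWithin_le_nhds
  have hdec' : (fun Z => chr n (Wz Z) * chr n (cv 0 (Sz Z))) =ᶠ[𝓝[HG ι s] Z₀]
      fun Z => chr n (shp b Z).1 := by
    filter_upwards [hdec] with Z hZ
    rw [hZ, chr_add]
  refine Tendsto.congr' hdec' ?_
  have hexp : ∀ Z, chr n (cv 0 (Sz Z)) =
      ((Real.exp (-(2 * Real.pi * ∑ p ∈ P0, b (pr (tOf Z) p) * pr (cz n) p)) : ℝ) : ℂ) := by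
    intro Z
    rw [← dot_sum, Complex.ofReal_exp, chr]
    congr 1
    simp only [cv, dotProduct, cz, hSz, Pi.zero_apply]
    push_cast
    simp only [zero_add, ← mul_assoc, mul_comm _ Complex.I]
    simp only [mul_assoc, ← Finset.mul_sum]
    linear_combination (2 * Real.pi * ∑ a, (n a : ℂ) *
      (((∑ p ∈ P0, b (pr (tOf Z) p) • sqr p) a : ℝ) : ℂ)) * Complex.I_mul_I
  by_cases h : ∀ p, pr (s⁻¹ • tOf Z₀) p = 1 → pr (cz n) p = 0
  · rw [chr0_of _ h]
    have h1 : ∀ Z, chr n (cv 0 (Sz Z)) = 1 := by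
      intro Z
      rw [hexp, Finset.sum_eq_zero]
      · simp
      · intro p hp
        rw [h p ((hone p).mpr (Finset.mem_filter.mp hp).2), mul_zero]
    simpa [h1] using hc
  · rw [chr0_of_not _ h]
    push Not at h
    obtain ⟨q, hq1, hq2⟩ := h
    have hq3 : 0 < pr (cz n) q := lt_of_le_of_ne (hn q hq1) (Ne.symm hq2)
    have hq4 : pr (tOf Z₀) q = s := (hone q).mp hq1
    have hq0 : q ≠ 0 := by
      rintro rfl
      simp at hq1
    have h1 : Tendsto (fun Z : HH ι => pr (tOf Z) q) (𝓝[HG ι s] Z₀) (𝓝[>] s) := by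
      refine tendsto_nhdsWithin_iff.mpr ⟨?_, ?_⟩
      · rw [← hq4]
        exact (((continuous_pr q).comp continuous_tOf).tendsto Z₀).mono_left nhdsWithin_le_nhds
      · filter_upwards [self_mem_nhdsWithin] with Z hZ
        exact HG.tOf_mem hZ q hq0
    have h2 : Tendsto (fun Z : HH ι => b (pr (tOf Z) q) * pr (cz n) q) (𝓝[HG ι s] Z₀) atTop :=
      (hB.tendsto_b.comp h1).atTop_mul_const hq3
    have h3 : Tendsto (fun Z : HH ι => ∑ p ∈ P0, b (pr (tOf Z) p) * pr (cz n) p)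
        (𝓝[HG ι s] Z₀) atTop := by
      refine tendsto_atTop_mono' _ ?_ h2
      filter_upwards [self_mem_nhdsWithin] with Z hZ
      refine Finset.single_le_sum (f := fun p => b (pr (tOf Z) p) * pr (cz n) p)
        (fun p hp => ?_) (hmem q hq4)
      exact mul_nonneg (hB.b_pr_nonneg (HG.tOf_mem hZ) p)
        (hn p ((hone p).mpr (Finset.mem_filter.mp hp).2))
    have h4 : Tendsto (fun Z : HH ι => Real.exp
        (-(2 * Real.pi * ∑ p ∈ P0, b (pr (tOf Z) p) * pr (cz n) p))) (𝓝[HG ι s] Z₀) (𝓝 0) :=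
      Real.tendsto_exp_neg_atTop_nhds_zero.comp (h3.const_mul_atTop (by positivity))
    have h5 : Tendsto (fun Z : HH ι => chr n (cv 0 (Sz Z))) (𝓝[HG ι s] Z₀) (𝓝 0) := by
      simp only [hexp]
      exact_mod_cast (Complex.continuous_ofReal.tendsto 0).comp h4
    simpa using hc.mul h5

end Pool.Agent.P.MP_59bdab_ag
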