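import Pool.Agent.P.MP_59bdab_ag.IfC

namespace Pool.Agent.P.MP_59bdab_ag

open Matrix MeasureTheory Filter Topology
open scoped ENNReal ContDiff

namespace REGB
variable {ι : Type} [Fintype ι] [DecidableEq ι]

theorem bdd {X : Type} [TopologicalSpace X] {f : X → ℝ} {x : X} (h : ContinuousAt f x)
    (S : Set X) : ∃ C : ℝ, 0 ≤ C ∧ ∀ᶠ z in 𝓝[S] x, |f z| ≤ C :=
  ⟨|f x| + 1, by positivity, ((h.abs.eventually (gt_mem_nhds (lt_add_one |f x|))).mono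
    fun _ hz => le_of_lt hz).filter_mono nhdsWithin_le_nhds⟩

theorem term {s s' : ℝ} {b β : ℝ → ℝ} (hb : Bar s s' b β) {Z₀ : HH ι}
    (h0 : ∀ p, p ≠ 0 → s ≤ pr (tOf Z₀) p) (p : ι → ℤ) : ∃ C : ℝ, 0 ≤ C ∧ ∀ᶠ Z in 𝓝[HG ι s] Z₀,
      |b (pr (tOf Z) p) * (pr (tOf Z) p - pr (tOf Z₀) p)| ≤ C := by
  by_cases hp : p = 0
  · exact ⟨0, le_rfl, Eventually.of_forall fun Z => by simp [hp]⟩
  rcases (h0 p hp).eq_or_lt with h | h
  · refine ⟨1, zero_le_one, eventually_nhdsWithin_of_forall fun Z hZ => ?_⟩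
    have h1 := HG.tOf_mem hZ p hp
    rw [← h, abs_of_nonneg (mul_nonneg (hb.b_nonneg _ h1) (sub_nonneg.2 h1.le))]
    exact hb.b_mul_le _ h1
  · have h1 : Continuous fun Z : HH ι => pr (tOf Z) p := (continuous_pr p).comp continuous_tOf
    have h2 : ContinuousAt b (pr (tOf Z₀) p) :=
      hb.smooth_b.continuousOn.continuousAt (Ioi_mem_nhds h)
    exact bdd ((ContinuousAt.comp (f := fun Z : HH ι => pr (tOf Z) p) h2 h1.continuousAt).mul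
      (h1.continuousAt.sub continuousAt_const)) _

theorem beta {s s' : ℝ} {b β : ℝ → ℝ} (hb : Bar s s' b β) {C : ℝ}
    (hC : ∀ t, s < t → β t ≤ C + Real.log (1 + b t)) {t : Sym2 ι → ℝ} (ht : t ∈ RI ι s)
    {x : ℝ} (hx : 0 ≤ x) (p : ι → ℤ) (h : b (pr t p) * s ≤ x) :
    0 ≤ β (pr t p) ∧ β (pr t p) ≤ |C| - Real.log s + Real.log (1 + x) := by
  have hs := hb.pos
  have hs1 : s < 1 := hb.lt.trans hb.lt_one
  have h1 : Real.log s ≤ 0 := Real.log_nonpos hs.le hs1.le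
  have h2 : 0 ≤ Real.log (1 + x) := Real.log_nonneg (by linarith)
  have h3 := abs_nonneg C
  by_cases hp : p = 0
  · rw [hp, pr_zero, hb.β_at_zero]
    exact ⟨le_rfl, by linarith⟩
  have h4 := hb.b_nonneg _ (ht p hp)
  have h5 : Real.log ((1 + b (pr t p)) * s) ≤ Real.log (1 + x) :=
    Real.log_le_log (by positivity) (by linarith)
  rw [Real.log_mul (by positivity) hs.ne'] at h5
  exact ⟨hb.β_nonneg _ (ht p hp), by linarith [hC _ (ht p hp), le_abs_self C]⟩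

end REGB

open REGB in
theorem p_REGB (hFLAT1 : S_FLAT1) (hRYP : S_RYP) (hLEG1 : S_LEG1) : S_REGB := by
  intro ι _ _ s s' b β hb Z₀ hZ₀
  obtain ⟨-, -, -, hF⟩ := hFLAT1 ι s s' b β hb
  obtain ⟨-, -, hR3, -, hR5, -⟩ := hRYP ι
  obtain ⟨-, -, hL3, -⟩ := hLEG1 ι s s' b β hb
  obtain ⟨c, hc, hc'⟩ := hR5 _ (tOf_mem Z₀)
  obtain ⟨P, hP⟩ := hR3 _ (tOf_mem Z₀) s'
  obtain ⟨Cβ, hCβ⟩ := hb.β_le
  have h0 : ∀ p, p ≠ 0 → s ≤ pr (tOf Z₀) p := fun p hp => by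
    rw [pr_tOf]
    exact not_lt.1 fun h => hZ₀ ⟨_, lv_ne_zero hp, h⟩
  choose Cp hCp hCp' using term hb h0
  have hlog : Real.log s ≤ 0 := Real.log_nonpos hb.pos.le (hb.lt.trans hb.lt_one).le
  have h1 : ContinuousAt (fun Z : HH ι => Real.log (dm (tOf Z)).det -
      (tOf Z - tOf Z₀) ⬝ᵥ imv Z.1) Z₀ := by
    refine ContinuousAt.sub (ContinuousAt.comp (f := tOf)
      (g := fun t : Sym2 ι → ℝ => Real.log (dm t).det)
      (hL3.continuousOn.continuousAt (isOpen_PT.mem_nhds (tOf_mem Z₀)))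
      continuous_tOf.continuousAt) (Continuous.continuousAt ?_)
    exact (continuous_tOf.sub continuous_const).dotProduct
      (continuous_imv.comp continuous_subtype_val)
  obtain ⟨CA, hCA, hCA'⟩ := bdd h1 (HG ι s)
  have hS : 0 ≤ ∑ p ∈ P, Cp p := Finset.sum_nonneg fun p _ => hCp p
  have hK : 0 ≤ (P.card : ℝ) * (|Cβ| - Real.log s) :=
    mul_nonneg (Nat.cast_nonneg _) (by linarith [abs_nonneg Cβ])
  have hci : 0 < c⁻¹ := inv_pos.2 hc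
  have hcard : (0 : ℝ) ≤ P.card := Nat.cast_nonneg _
  refine ⟨c⁻¹ + (CA + ∑ p ∈ P, Cp p + P.card * (|Cβ| - Real.log s)) + P.card, by linarith, ?_⟩
  filter_upwards [self_mem_nhdsWithin, hCA', (eventually_all_finset P).2 fun p _ => hCp' p,
    (continuous_tOf.continuousAt.eventually hP).filter_mono nhdsWithin_le_nhds] with Z hZ e1 e2 e3
  have ht := HG.tOf_mem hZ
  obtain ⟨f1, -, f3⟩ := hF Z ht
  have hy : imv (shp b Z).1 = imv Z.1 + ∑ p ∈ P, b (pr (tOf Z) p) • sqr p := by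
    rw [f1, imv_cv, hb.YY_eq e3, coord_inv_tOf]
  have hd : ∀ u : Sym2 ι → ℝ, u ⬝ᵥ imv (shp b Z).1 =
      u ⬝ᵥ imv Z.1 + ∑ p ∈ P, b (pr (tOf Z) p) * pr u p := fun u => by
    rw [hy, dotProduct_add, dotProduct_sum]
    simp only [dotProduct_smul, smul_eq_mul, pr_eq]
  have g1 := hc' _ (PosDef.posSemidef (mem_HS.1 (shp b Z).2))
  have g2 := hc' _ (PosDef.posSemidef (mem_HS.1 Z.2))
  have g3 : 0 ≤ tOf Z₀ ⬝ᵥ imv Z.1 := (mul_nonneg hc.le (norm_nonneg _)).trans g2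
  have g4 : 0 ≤ tOf Z₀ ⬝ᵥ imv (shp b Z).1 := (mul_nonneg hc.le (norm_nonneg _)).trans g1
  have g5 : ∀ p, b (pr (tOf Z) p) * s ≤ b (pr (tOf Z) p) * pr (tOf Z₀) p := fun p => by
    by_cases hp : p = 0
    · simp [hp, hb.b_at_zero]
    · exact mul_le_mul_of_nonneg_left (h0 p hp) (hb.b_pr_nonneg ht p)
  have g6 : ∀ p ∈ P, b (pr (tOf Z) p) * s ≤ tOf Z₀ ⬝ᵥ imv (shp b Z).1 := fun p hp => by
    have := Finset.single_le_sum (f := fun p => b (pr (tOf Z) p) * pr (tOf Z₀) p)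
      (fun p _ => (mul_nonneg (hb.b_pr_nonneg ht p) hb.pos.le).trans (g5 p)) hp
    rw [hd]
    linarith [g5 p]
  have g7 : 0 ≤ BB β (tOf Z) ∧ BB β (tOf Z) ≤ P.card * (|Cβ| - Real.log s +
      Real.log (1 + tOf Z₀ ⬝ᵥ imv (shp b Z).1)) := by
    rw [hb.BB_eq e3]
    refine ⟨Finset.sum_nonneg fun p hp => (beta hb hCβ ht g4 p (g6 p hp)).1, ?_⟩
    rw [← nsmul_eq_mul]
    exact Finset.sum_le_card_nsmul _ _ _ fun p hp => (beta hb hCβ ht g4 p (g6 p hp)).2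
  have g8 : |∑ p ∈ P, b (pr (tOf Z) p) * (pr (tOf Z) p - pr (tOf Z₀) p)| ≤ ∑ p ∈ P, Cp p :=
    (Finset.abs_sum_le_sum_abs _ _).trans (Finset.sum_le_sum e2)
  have g9 : Ph s b β (imv (shp b Z).1) + tOf Z₀ ⬝ᵥ imv (shp b Z).1 =
      (Real.log (dm (tOf Z)).det - (tOf Z - tOf Z₀) ⬝ᵥ imv Z.1) - BB β (tOf Z) -
        ∑ p ∈ P, b (pr (tOf Z) p) * (pr (tOf Z) p - pr (tOf Z₀) p) := by
    have := hd (tOf Z - tOf Z₀)
    simp only [pr_sub] at this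
    rw [sub_dotProduct] at this
    rw [Ph, f3]
    linarith
  have g10 : 0 ≤ Real.log (1 + tOf Z₀ ⬝ᵥ imv (shp b Z).1) := Real.log_nonneg (by linarith)
  refine ⟨g4, ?_, ?_⟩
  · have h2 : ‖imv (shp b Z).1‖ ≤ c⁻¹ * (tOf Z₀ ⬝ᵥ imv (shp b Z).1) :=
      (le_inv_mul_iff₀ hc).2 g1
    exact h2.trans (mul_le_mul_of_nonneg_right (by linarith) g4)
  · rw [g9]
    generalize Real.log (1 + tOf Z₀ ⬝ᵥ imv (shp b Z).1) = l at g7 g10 ⊢
    have h2 : 0 ≤ (c⁻¹ + (CA + ∑ p ∈ P, Cp p + P.card * (|Cβ| - Real.log s))) * l :=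
      mul_nonneg (by linarith) g10
    obtain ⟨a1, a2⟩ := abs_le.1 e1
    obtain ⟨a3, a4⟩ := abs_le.1 g8
    rw [abs_le]
    constructor <;> nlinarith [g7.1, g7.2]

end Pool.Agent.P.MP_59bdab_ag
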