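import Pool.Agent.P.MP_59bdab_ag.IfC

/-!
Basic facts on the Ryshkov polyhedron.
-/

namespace Pool.Agent.P.MP_59bdab_ag

open Matrix MeasureTheory Filter Topology

namespace RYP

theorem hom {X E : Type} [TopologicalSpace X] [NormedAddCommGroup E] [NormedSpace ℝ E]
    [ProperSpace E] {K : Set X} (hK : IsCompact K) {C : Set E} (hC : IsClosed C)
    (hs : ∀ y ∈ C, ∀ r : ℝ, 0 < r → r • y ∈ C) (f : X → E → ℝ)
    (hf : Continuous fun p : X × E => f p.1 p.2) {k : ℕ} (k0 : k ≠ 0)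
    (hk : ∀ x r y, f x (r • y) = r ^ k * f x y) (hp : ∀ x ∈ K, ∀ y ∈ C, y ≠ 0 → 0 < f x y) :
    ∃ c > 0, ∀ x ∈ K, ∀ y ∈ C, c * ‖y‖ ^ k ≤ f x y := by
  obtain ⟨c, c0, hc⟩ := (hK.prod ((isCompact_sphere (0 : E) 1).inter_left hC)).exists_forall_le'
    hf.continuousOn (a := 0) fun p h => hp _ h.1 _ h.2.1 fun e => by simpa [e] using h.2.2
  refine ⟨c, c0, fun x hx y hy => ?_⟩
  by_cases h0 : y = 0
  · have := hk x 0 y
    rw [zero_smul, zero_pow k0, zero_mul] at this
    rw [h0, this, norm_zero, zero_pow k0, mul_zero]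
  · have n0 := norm_pos_iff.2 h0
    have := hc (x, ‖y‖⁻¹ • y) ⟨hx, hs y hy _ (inv_pos.2 n0), by
      simpa using norm_smul_inv_norm (𝕜 := ℝ) h0⟩
    rwa [hk, inv_pow, ← div_eq_inv_mul, le_div_iff₀ (pow_pos n0 k)] at this

variable {ι : Type} [Fintype ι] [DecidableEq ι]

open scoped MatrixOrder in
theorem tr_pos {T Y : Matrix ι ι ℝ} (hT : T.PosDef) (hY : Y.PosSemidef) (h0 : Y ≠ 0) :
    0 < (T * Y).trace := by
  obtain ⟨B, rfl⟩ := CStarAlgebra.nonneg_iff_eq_star_mul_self.mp hT.posSemidef.nonneg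
  have hB : IsUnit B := (isUnit_iff_isUnit_det _).2 (isUnit_of_mul_isUnit_right
    (det_mul (star B) B ▸ (isUnit_iff_isUnit_det _).1 hT.isUnit))
  have h1 : (B * Y * star B).PosSemidef := hY.mul_mul_conjTranspose_same B
  rw [Matrix.mul_assoc, trace_mul_comm]
  refine lt_of_le_of_ne h1.trace_nonneg fun e => h0 ?_
  have := h1.trace_eq_zero_iff.1 e.symm
  rwa [hB.star.mul_left_eq_zero, hB.mul_right_eq_zero] at this

omit [DecidableEq ι] in
theorem closed_psd {X : Type} [TopologicalSpace X] {M : X → Matrix ι ι ℝ} (hM : Continuous M)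
    (hh : ∀ x, (M x).IsHermitian) : IsClosed {x | (M x).PosSemidef} := by
  have : {x | (M x).PosSemidef} = ⋂ v : ι → ℝ, {x | 0 ≤ star v ⬝ᵥ M x *ᵥ v} := by
    ext x
    simp only [posSemidef_iff_dotProduct_mulVec, hh x, true_and, Set.mem_ofPred_eq, Set.mem_iInter]
  rw [this]
  exact isClosed_iInter fun v => isClosed_le continuous_const (by fun_prop)

omit [DecidableEq ι] in
theorem posDef {T : Matrix ι ι ℝ} (hT : T.IsHermitian) {s : ℝ} (hs : 0 < s)
    (h : ∀ p, p ≠ 0 → s ≤ qf T p) : T.PosDef := by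
  have hc : Continuous fun x : ι → ℝ => x ⬝ᵥ T *ᵥ x := by fun_prop
  have hfl : ∀ y : ι → ℝ, cz (fun i => ⌊y i⌋) = y - fun i => Int.fract (y i) := fun y =>
    funext fun i => (Int.self_sub_fract (y i)).symm
  have h1 : T.PosSemidef := .of_dotProduct_mulVec_nonneg hT fun x => by
    have a1 : Tendsto (fun n : ℕ => ((n : ℝ) + 1)⁻¹ • cz fun i => ⌊(((n : ℝ) + 1) • x) i⌋)
        atTop (𝓝 x) := by
      have a2 : Tendsto (fun n : ℕ => x - ((n : ℝ) + 1)⁻¹ •
          fun i => Int.fract ((((n : ℝ) + 1) • x) i)) atTop (𝓝 (x - 0)) := by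
        refine tendsto_const_nhds.sub (NormedField.tendsto_zero_smul_of_tendsto_zero_of_bounded
          (by simpa using tendsto_one_div_add_atTop_nhds_zero_nat (𝕜 := ℝ))
          (isBoundedUnder_of ⟨1, fun n => (pi_norm_le_iff_of_nonneg zero_le_one).2 fun i => ?_⟩))
        rw [Real.norm_of_nonneg (Int.fract_nonneg _)]
        exact (Int.fract_lt_one _).le
      rw [sub_zero] at a2
      refine a2.congr fun n => ?_
      rw [hfl, smul_sub, inv_smul_smul₀ (by positivity)]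
    refine ge_of_tendsto' ((hc.tendsto x).comp a1) fun n => ?_
    simp only [Function.comp_apply, mulVec_smul, smul_dotProduct, dotProduct_smul, smul_eq_mul]
    refine mul_nonneg (by positivity) (mul_nonneg (by positivity) ?_)
    generalize (fun i => ⌊(((n : ℝ) + 1) • x) i⌋) = p
    by_cases e : p = 0
    · rw [e, show cz (0 : ι → ℤ) = 0 from funext fun _ => Int.cast_zero, zero_dotProduct]
    · exact hs.le.trans (h p e)
  refine .of_dotProduct_mulVec_pos hT fun x hx => lt_of_le_of_ne (h1.dotProduct_mulVec_nonneg x)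
    fun e => ?_
  obtain ⟨i, hi⟩ := Function.ne_iff.1 hx
  obtain ⟨y, y1, y2⟩ : ∃ y : ι → ℝ, y i = 1 ∧ T *ᵥ y = 0 :=
    ⟨(x i)⁻¹ • x, inv_mul_cancel₀ hi, by
      rw [mulVec_smul, (h1.dotProduct_mulVec_zero_iff x).1 e.symm, smul_zero]⟩
  have y3 : y ᵥ* T = 0 := by
    rw [← mulVec_transpose, ← conjTranspose_eq_transpose_of_trivial, hT.eq, y2]
  obtain ⟨L, -, φ, hφ, hL⟩ := (isCompact_Icc (a := (0 : ι → ℝ)) (b := 1)).tendsto_subseq
    (x := fun (n : ℕ) j => Int.fract (((n : ℝ) • y) j))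
    fun n => ⟨fun j => Int.fract_nonneg _, fun j => (Int.fract_lt_one _).le⟩
  have a1 := (hc.tendsto _).comp (hL.sub (hL.comp (tendsto_add_atTop_nat 1)))
  rw [sub_self, zero_dotProduct] at a1
  refine hs.not_ge (ge_of_tendsto' a1 fun n => ?_)
  refine (h ((fun j => ⌊((φ (n + 1) : ℝ) • y) j⌋) - fun j => ⌊((φ n : ℝ) • y) j⌋)
    fun e => ?_).trans_eq ?_
  · have := congrFun e i
    simp only [Pi.sub_apply, Pi.smul_apply, y1, smul_eq_mul, mul_one, Int.floor_natCast,
      Pi.zero_apply] at this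
    exact (hφ n.lt_succ_self).ne' (Nat.cast_injective (sub_eq_zero.1 this))
  · have e : ∀ p q : ι → ℤ, cz (p - q) = cz p - cz q := fun p q => funext fun j => Int.cast_sub _ _
    rw [qf, e, hfl, hfl, sub_sub_sub_comm, ← sub_smul, mulVec_sub, mulVec_smul, y2, smul_zero,
      sub_dotProduct, dotProduct_sub, dotProduct_zero, smul_dotProduct, dotProduct_mulVec y, y3,
      zero_dotProduct, smul_zero, sub_zero, zero_sub, zero_sub, ← neg_dotProduct,
      ← mulVec_neg, neg_sub]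
    rfl

theorem pr_ud (c : ℝ) (p : ι → ℤ) :
    pr (ud (c • (1 : Matrix ι ι ℝ))) p = c * ((p ⬝ᵥ p : ℤ) : ℝ) := by
  rw [pr_eq_qf, dm_ud (by rw [transpose_smul, transpose_one]), qf, smul_mulVec, one_mulVec,
    dotProduct_smul, cz_dot, smul_eq_mul]

omit [DecidableEq ι] in
theorem one_le {p : ι → ℤ} (h : p ≠ 0) : (1 : ℝ) ≤ ((p ⬝ᵥ p : ℤ) : ℝ) := by
  have h1 : 0 ≤ p ⬝ᵥ p := Finset.sum_nonneg fun i _ => mul_self_nonneg _
  exact_mod_cast lt_of_le_of_ne h1 fun e => h (dotProduct_self_eq_zero.1 e.symm)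

end RYP

open RYP in
theorem p_RYP (hHERM : S_HERM) : S_RYP := by
  intro ι _ _
  have h1 : ∀ s > 0, ∀ t : Sym2 ι → ℝ, (∀ p, p ≠ 0 → s ≤ pr t p) → t ∈ PT ι := fun s hs t h =>
    posDef (dm_isHermitian t) hs fun p hp => pr_eq_qf t p ▸ h p hp
  have h2 : ∀ K ⊆ PT ι, IsCompact K → ∀ M : ℝ, ∃ P : Finset (ι → ℤ), ∀ t ∈ K, ∀ p, p ∉ P →
      M ≤ pr t p := fun K hK hc M => by
    obtain ⟨c, c0, h⟩ := hom hc isClosed_univ (fun _ _ _ _ => trivial)
      (fun t (x : ι → ℝ) => x ⬝ᵥ dm t *ᵥ x)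
      (continuous_snd.dotProduct ((continuous_dm.comp continuous_fst).matrix_mulVec continuous_snd))
      two_ne_zero (fun t r x => by
        rw [mulVec_smul, smul_dotProduct, dotProduct_smul, smul_eq_mul, smul_eq_mul]
        ring) fun t ht x _ hx => (hK ht).dotProduct_mulVec_pos hx
    obtain ⟨N, hN⟩ := exists_nat_ge (M / c)
    refine ⟨Fintype.piFinset fun _ => Finset.Icc (-N : ℤ) N, fun t ht p hp => ?_⟩
    obtain ⟨i, hi⟩ := not_forall.1 (mt Fintype.mem_piFinset.2 hp)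
    rw [Finset.mem_Icc, ← abs_le, not_le] at hi
    have a1 : (N : ℝ) + 1 ≤ ‖cz p‖ := by
      refine le_trans ?_ (norm_le_pi_norm (cz p) i)
      rw [Real.norm_eq_abs, cz]
      exact_mod_cast hi
    have a2 := (div_le_iff₀' c0).1 hN
    have a3 := Nat.cast_nonneg (α := ℝ) N
    rw [pr_eq_qf]
    refine le_trans (a2.trans (mul_le_mul_of_nonneg_left ?_ c0.le)) (h t ht (cz p) trivial)
    nlinarith
  have h3 : ∀ t ∈ PT ι, ∀ M : ℝ, ∃ P : Finset (ι → ℤ), ∀ᶠ t' in 𝓝 t, ∀ p, p ∉ P →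
      M ≤ pr t' p := fun t ht M => by
    obtain ⟨K, k1, k2, k3⟩ := local_compact_nhds (isOpen_PT.mem_nhds ht)
    obtain ⟨P, hP⟩ := h2 K k2 k3 M
    exact ⟨P, mem_of_superset k1 hP⟩
  refine ⟨h1, h2, h3, fun s hs => ⟨?_, fun t ht t' ht' a b ha hb hab p hp => ?_,
    fun t ht => h1 s hs t fun p hp => (ht p hp).le, ud ((s + 1) • 1), fun p hp => ?_⟩,
    fun t ht => ?_, fun y hy => ?_, fun t ht => ?_, ud ((2 : ℝ) • 1), fun p hp => ?_,
    fun p hp => ?_⟩
  · refine isOpen_iff_mem_nhds.2 fun t ht => ?_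
    obtain ⟨P, hP⟩ := h3 t (h1 s hs t fun p hp => (ht p hp).le) (s + 1)
    have : ∀ᶠ t' in 𝓝 t, ∀ p ∈ P, p ≠ 0 → s < pr t' p := (eventually_all_finset P).2 fun p _ =>
      eventually_imp_distrib_left.2 fun hp =>
        continuousAt_const.eventually_lt (continuous_pr p).continuousAt (ht p hp)
    filter_upwards [hP, this] with t' a b p hp
    by_cases e : p ∈ P
    · exact b p e hp
    · exact (lt_add_one s).trans_le (a p e)
  · rw [pr_add, pr_smul, pr_smul]
    exact convex_Ioi s (ht p hp) (ht' p hp) ha hb hab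
  · rw [pr_ud]
    nlinarith [one_le hp]
  · obtain ⟨c, c0, h⟩ := hom (isCompact_singleton (x := ())) (closed_psd continuous_mat
      mat_isHermitian) (fun y hy r hr => by
        rw [Set.mem_ofPred_eq, mat_smul]
        exact PosSemidef.smul hy hr.le) (fun _ y => t ⬝ᵥ y) (by fun_prop) one_ne_zero
      (fun _ r y => by rw [dotProduct_smul, pow_one, smul_eq_mul]) fun _ _ y hy h0 => by
        rw [dot_eq_trace]
        exact tr_pos ht hy fun e => h0 (mat_injective e)
    exact ⟨c, c0, fun y hy => by simpa only [pow_one] using h () rfl y hy⟩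
  · obtain ⟨c, c0, h⟩ := hom (isCompact_singleton (x := ())) (closed_psd continuous_dm
      dm_isHermitian) (fun t ht r hr => by
        rw [Set.mem_ofPred_eq, dm_smul]
        exact PosSemidef.smul ht hr.le) (fun _ t => t ⬝ᵥ y) (by fun_prop) one_ne_zero
      (fun _ r t => by rw [smul_dotProduct, pow_one, smul_eq_mul]) fun _ _ t ht h0 => by
        rw [dot_eq_trace, trace_mul_comm]
        exact tr_pos hy ht fun e => h0 (dm_injective (e.trans (map_zero (dmL ι)).symm))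
    exact ⟨c, c0, fun t ht => by simpa only [pow_one] using h () rfl t ht⟩
  · obtain ⟨P, hP⟩ := h2 {t} (Set.singleton_subset_iff.2 (h1 1 one_pos t ht)) isCompact_singleton 2
    obtain ⟨a, a1, a2⟩ := (P.filter fun p => 1 < pr t p).finite_toSet.isCompact.exists_forall_le'
      (f := pr t) continuous_of_discreteTopology.continuousOn (a := 1)
      fun p hp => (Finset.mem_filter.1 hp).2
    refine ⟨P.filter fun p => pr t p = 1, fun p => ⟨fun h => (Finset.mem_filter.1 h).2,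
      fun h => Finset.mem_filter.2 ⟨by_contra fun e => ?_, h⟩⟩, min (a - 1) 1,
      lt_min (sub_pos.2 a1) one_pos, fun p p0 hp => ?_⟩
    · linarith [hP t rfl p e]
    · by_cases e : p ∈ P
      · have := a2 p (Finset.mem_filter.2 ⟨e, lt_of_le_of_ne (ht p p0)
          fun e' => hp (Finset.mem_filter.2 ⟨e, e'.symm⟩)⟩)
        linarith [min_le_left (a - 1) 1]
      · linarith [hP t rfl p e, min_le_right (a - 1) 1]
  · rw [pr_ud]
    linarith [one_le hp]
  · rw [pr_ud] at hp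
    have : 2 * (p ⬝ᵥ p) = 1 := by exact_mod_cast hp
    omega

end Pool.Agent.P.MP_59bdab_ag
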