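import Pool.Agent.P.MP_59bdab_ag.IfC

/-! Calculus of functions that are smooth at a point of a toric chart. -/

set_option linter.unusedSectionVars false

namespace Pool.Agent.P.MP_59bdab_ag

open Matrix MeasureTheory Filter Topology
open scoped ENNReal ContDiff

namespace SMV

theorem ball_re {a b : ℕ} (e : Fin a → Fin b) {x y : Fin b → ℂ} {ε ε' : ℝ} (h0 : 0 < ε)
    (h : x ∈ Metric.ball y ε) (le : ε ≤ ε') :
    (fun i => x (e i)) ∈ Metric.ball (fun i => y (e i)) ε' := by
  rw [Metric.mem_ball, dist_pi_lt_iff h0] at h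
  rw [Metric.mem_ball, dist_pi_lt_iff (h0.trans_le le)]
  exact fun i => (h _).trans_le le

theorem cd_re {a b : ℕ} (e : Fin a → Fin b) :
    ContDiff ℝ ∞ fun (x : Fin b → ℂ) (i : Fin a) => x (e i) :=
  contDiff_pi.2 fun i => contDiff_apply ℝ ℂ (e i)

variable {ι : Type} [Fintype ι] [DecidableEq ι] {t : Sym2 ι → ℝ} {W : Sym2 ι → ℂ}

theorem du_app {m m' : ℕ} {n : Fin m → Sym2 ι → ℤ} {n' : Fin m' → Sym2 ι → ℤ}
    (h : ∀ l, Du t (n l)) (h' : ∀ l, Du t (n' l)) (l : Fin (m + m')) : Du t (Fin.append n n' l) := by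
  induction l using Fin.addCases with
  | left i => simpa only [Fin.append_left] using h i
  | right i => simpa only [Fin.append_right] using h' i

/-- The filter of sets that contain a basic neighbourhood. -/
def bf (t : Sym2 ι → ℝ) (W : Sym2 ι → ℂ) : Filter (Sym2 ι → ℂ) where
  sets := {A | ∃ (m : ℕ) (n : Fin m → Sym2 ι → ℤ) (ε : ℝ), 0 < ε ∧ (∀ l, Du t (n l)) ∧
    ∀ z ∈ HS ι, (fun l => chr (n l) z) ∈ Metric.ball (fun l => chr0 t W (n l)) ε → z ∈ A}
  univ_sets := ⟨0, Fin.elim0, 1, one_pos, fun l => l.elim0, fun _ _ _ => trivial⟩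
  sets_of_superset := fun ⟨m, n, ε, h0, h1, h2⟩ h => ⟨m, n, ε, h0, h1, fun z a b => h (h2 z a b)⟩
  inter_sets := fun ⟨m, n, ε, h0, h1, h2⟩ ⟨m', n', ε', h0', h1', h2'⟩ =>
    ⟨m + m', Fin.append n n', min ε ε', lt_min h0 h0', du_app h1 h1', fun z a b =>
      ⟨h2 z a (by
          simpa only [Fin.append_left] using
            ball_re (Fin.castAdd m') (lt_min h0 h0') b (min_le_left _ _)),
        h2' z a (by
          simpa only [Fin.append_right] using
            ball_re (Fin.natAdd m) (lt_min h0 h0') b (min_le_right _ _))⟩⟩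

theorem bf_le : bf t W ≤ cfil t W := by
  refine le_inf (le_principal_iff.2 ⟨0, Fin.elim0, 1, one_pos, fun l => l.elim0, fun _ h _ => h⟩)
    (le_iInf₂ fun n hn A hA => ?_)
  obtain ⟨B, hB, h⟩ := mem_comap.1 hA
  obtain ⟨ε, h0, h1⟩ := Metric.mem_nhds_iff.1 hB
  exact ⟨1, fun _ => n, ε, h0, fun _ => hn, fun z _ b =>
    h (h1 ((dist_pi_lt_iff h0).1 b 0))⟩

theorem sm {u : (Sym2 ι → ℂ) → ℝ} {c : ℝ} (h : SmV t W u c) : Sm t W u := by
  obtain ⟨m, n, O, F, h1, h2, h3, h4, -, h6⟩ := h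
  obtain ⟨m', n', ε', h0', h1', h2'⟩ := bf_le h6
  obtain ⟨ε, h0, hO⟩ := Metric.isOpen_iff.1 h2 _ h3
  refine ⟨m + m', Fin.append n n', min ε ε', fun x => F fun i => x (Fin.castAdd m' i),
    lt_min h0 h0', du_app h1 h1', h4.comp (cd_re _).contDiffOn fun x hx => hO ?_, fun z a b => ?_⟩
  · simpa only [Fin.append_left] using ball_re (Fin.castAdd m') (lt_min h0 h0') hx (min_le_left _ _)
  · simp only [Fin.append_left]
    exact h2' z a (by
      simpa only [Fin.append_right] using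
        ball_re (Fin.natAdd m) (lt_min h0 h0') b (min_le_right _ _))

theorem tend_ch {m : ℕ} {n : Fin m → Sym2 ι → ℤ} (h : ∀ l, Du t (n l)) :
    Tendsto (fun z l => chr (n l) z) (cfil t W) (𝓝 fun l => chr0 t W (n l)) :=
  tendsto_pi_nhds.2 fun l => tendsto_chr W (h l)

variable {E E' : Type} [NormedAddCommGroup E] [NormedSpace ℝ E] [NormedAddCommGroup E']
  [NormedSpace ℝ E'] {u : (Sym2 ι → ℂ) → E} {u' : (Sym2 ι → ℂ) → E'} {c : E} {c' : E'}

theorem tend (h : SmV t W u c) : Tendsto u (cfil t W) (𝓝 c) := by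
  obtain ⟨m, n, O, F, h1, h2, h3, h4, rfl, h6⟩ := h
  exact ((h4.continuousOn.continuousAt (h2.mem_nhds h3)).tendsto.comp (tend_ch h1)).congr'
    (h6.mono fun z hz => hz.symm)

theorem const (c : E) : SmV t W (fun _ => c) c :=
  ⟨0, Fin.elim0, Set.univ, fun _ => c, fun l => l.elim0, isOpen_univ, trivial, contDiffOn_const,
    rfl, Eventually.of_forall fun _ => rfl⟩

theorem pair (h : SmV t W u c) (h' : SmV t W u' c') :
    SmV t W (fun z => (u z, u' z)) (c, c') := by
  obtain ⟨m, n, O, F, h1, h2, h3, h4, rfl, h6⟩ := h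
  obtain ⟨m', n', O', F', h1', h2', h3', h4', rfl, h6'⟩ := h'
  refine ⟨m + m', Fin.append n n', (fun x i => x (Fin.castAdd m' i)) ⁻¹' O ∩
      (fun x i => x (Fin.natAdd m i)) ⁻¹' O',
    fun x => (F fun i => x (Fin.castAdd m' i), F' fun i => x (Fin.natAdd m i)), du_app h1 h1',
    (h2.preimage (cd_re _).continuous).inter (h2'.preimage (cd_re _).continuous), ⟨?_, ?_⟩,
    (h4.comp (cd_re _).contDiffOn fun x hx => hx.1).prodMk
      (h4'.comp (cd_re _).contDiffOn fun x hx => hx.2), ?_, ?_⟩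
  · simpa only [Set.mem_preimage, Fin.append_left] using h3
  · simpa only [Set.mem_preimage, Fin.append_right] using h3'
  · simp only [Fin.append_left, Fin.append_right]
  · filter_upwards [h6, h6'] with z a b
    simp only [Fin.append_left, Fin.append_right, a, b]

theorem comp {G : E → E'} {O : Set E} (h : SmV t W u c) (hO : IsOpen O) (hc : c ∈ O)
    (hG : ContDiffOn ℝ ∞ G O) : SmV t W (fun z => G (u z)) (G c) := by
  obtain ⟨m, n, O', F, h1, h2, h3, h4, rfl, h6⟩ := h
  exact ⟨m, n, O' ∩ F ⁻¹' O, fun x => G (F x), h1, h4.continuousOn.isOpen_inter_preimage h2 hO,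
    ⟨h3, hc⟩, hG.comp (h4.mono Set.inter_subset_left) fun x hx => hx.2, rfl,
    h6.mono fun z hz => congrArg G hz⟩

theorem comp' {G : E → E'} (h : SmV t W u c) (hG : ContDiff ℝ ∞ G) :
    SmV t W (fun z => G (u z)) (G c) := comp h isOpen_univ trivial hG.contDiffOn

theorem sum {I : Type} (s : Finset I) {u : I → (Sym2 ι → ℂ) → E} {c : I → E}
    (h : ∀ i ∈ s, SmV t W (u i) (c i)) : SmV t W (fun z => ∑ i ∈ s, u i z) (∑ i ∈ s, c i) := by
  classical
  induction s using Finset.induction_on with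
  | empty => simpa only [Finset.sum_empty] using const 0
  | insert a s ha ih =>
    simp only [Finset.sum_insert ha]
    exact comp' (G := fun x : E × E => x.1 + x.2) (pair (h a (Finset.mem_insert_self _ _))
      (ih fun i hi => h i (Finset.mem_insert_of_mem hi))) (contDiff_fst.add contDiff_snd)

theorem pi {I : Type} [Fintype I] {u : I → (Sym2 ι → ℂ) → E} {c : I → E}
    (h : ∀ i, SmV t W (u i) (c i)) : SmV t W (fun z i => u i z) c := by
  classical
  have := sum Finset.univ fun i _ => comp' (h i)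
    (ContinuousLinearMap.single ℝ (fun _ : I => E) i).contDiff
  simp only [ContinuousLinearMap.single_apply] at this
  rw [Finset.univ_sum_single] at this
  exact (funext fun z => Finset.univ_sum_single fun i => u i z :
    (fun z => ∑ i, Pi.single i (u i z)) = fun z i => u i z) ▸ this

theorem chr_cv (n : Sym2 ι → ℤ) (y : Sym2 ι → ℝ) :
    chr n (cv 0 y) = Real.exp (-(2 * Real.pi * (cz n ⬝ᵥ y))) := by
  rw [chr, Complex.ofReal_exp]
  congr 1
  simp only [cv, Pi.zero_apply, Complex.ofReal_zero, zero_add, dotProduct, cz, mul_left_comm _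
    Complex.I, ← Finset.mul_sum]
  push_cast
  linear_combination (2 * Real.pi * ∑ a, (n a : ℂ) * y a) * Complex.I_mul_I

theorem neBot {P : Finset (ι → ℤ)} (hP : IsMin t P) (hW : W ∈ HS ι) : (cfil t W).NeBot := by
  refine Tendsto.neBot (x := (atTop : Filter ℝ))
    (f := fun s => W + cv 0 (s • ∑ p ∈ P, sqr p)) (tendsto_cfil.2 ⟨?_, fun n hn => ?_⟩)
  · filter_upwards [eventually_ge_atTop 0] with s hs
    rw [mem_HS, imv_add, imv_cv]
    change (matL ι ℝ _).PosDef
    rw [map_add, map_smul, map_sum]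
    refine PosDef.add_posSemidef hW (PosSemidef.smul (posSemidef_sum _ fun p _ => ?_) hs)
    change (mat _).PosSemidef
    rw [mat_sqr]
    simpa using posSemidef_vecMulVec_self_star (cz p)
  · simp only [chr_add, chr_cv, dotProduct_smul, dotProduct_sum, ← pr_eq, smul_eq_mul]
    by_cases h : ∀ p, pr t p = 1 → pr (cz n) p = 0
    · rw [chr0_of W h, Finset.sum_eq_zero fun p hp => h p ((hP p).1 hp)]
      simp
    · rw [chr0_of_not W h, ← mul_zero (chr n W), ← Complex.ofReal_zero]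
      push Not at h
      obtain ⟨p, h1, h2⟩ := h
      have h3 : 0 < ∑ p ∈ P, pr (cz n) p := Finset.sum_pos' (fun q hq => hn q ((hP q).1 hq))
        ⟨p, (hP p).2 h1, (hn p h1).lt_of_ne' h2⟩
      exact tendsto_const_nhds.mul ((Complex.continuous_ofReal.tendsto 0).comp
        (Real.tendsto_exp_atBot.comp (tendsto_neg_atTop_atBot.comp
          ((tendsto_id.atTop_mul_const h3).const_mul_atTop (by positivity)))))

end SMV

open SMV in
theorem p_SMV (hRYP : S_RYP) : S_SMV := by
  intro ι _ _ t W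
  refine ⟨fun A hA => bf_le hA, fun _ _ => sm, fun n hn => ?_, fun ht hW => ?_,
    fun _ _ _ _ h h' => comp' (G := fun x : ℝ × ℝ => x.1 * x.2) (pair h h')
      (contDiff_fst.mul contDiff_snd),
    fun _ _ _ _ h h' => comp' (G := fun x : ℂ × ℂ => x.1 * x.2) (pair h h')
      (contDiff_fst.mul contDiff_snd),
    fun E _ _ => ⟨fun u u' c h h' => ?_, fun _ _ => tend, const, fun _ _ _ _ => pi,
      fun _ s _ _ => sum s, fun E' _ _ => ⟨fun _ _ _ _ => pair, fun _ _ _ _ => comp⟩⟩⟩
  · exact ⟨1, fun _ => n, Set.univ, fun x => x 0, fun _ => hn, isOpen_univ, trivial,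
      (contDiff_apply ℝ ℂ 0).contDiffOn, rfl, Eventually.of_forall fun _ => rfl⟩
  · obtain ⟨P, hP, -⟩ := (hRYP ι).2.2.2.2.2.2.1 t ht
    exact neBot hP hW
  · obtain ⟨m, n, O, F, h1, h2, h3, h4, h5, h6⟩ := h
    exact ⟨m, n, O, F, h1, h2, h3, h4, h5, (h'.and h6).mono fun z hz => hz.1.trans hz.2⟩

end Pool.Agent.P.MP_59bdab_ag
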