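import Pool.Agent.P.MP_59bdab_ag.IfC

/-!
An integral complement of a rational subspace.
-/

namespace Pool.Agent.P.MP_59bdab_ag

open Matrix

namespace SPL

theorem retr {κ J : Type} [Fintype κ] [Finite J] (φ : (κ → ℤ) →ₗ[ℤ] (J → ℤ)) :
    ∃ ρ : (κ → ℤ) →ₗ[ℤ] LinearMap.ker φ, ∀ n : LinearMap.ker φ, ρ n = n := by
  obtain ⟨σ, hσ⟩ := Module.projective_lifting_property φ.rangeRestrict LinearMap.id
    φ.surjective_rangeRestrict
  have key : ∀ n, (LinearMap.id - σ ∘ₗ φ.rangeRestrict : (κ → ℤ) →ₗ[ℤ] (κ → ℤ)) n ∈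
      LinearMap.ker φ := fun n => by
    have h := congrArg Subtype.val (LinearMap.congr_fun hσ (φ.rangeRestrict n))
    rw [LinearMap.mem_ker, LinearMap.sub_apply, map_sub, sub_eq_zero]
    exact h.symm
  refine ⟨LinearMap.codRestrict _ _ key, fun n => ?_⟩
  have h : φ.rangeRestrict n = 0 := Subtype.ext n.2
  exact Subtype.ext (by simp [h])

end SPL

theorem p_SPL (hMW : S_MW) (hEXT : S_EXT) : S_SPL := by
  classical
  intro κ _ _ I s v
  let φ : (κ → ℤ) →ₗ[ℤ] (s → ℤ) :=
    { toFun := fun n i => n ⬝ᵥ v i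
      map_add' := fun a b => funext fun i => add_dotProduct _ _ _
      map_smul' := fun a b => funext fun i => smul_dotProduct _ _ _ }
  obtain ⟨ρ, hρ⟩ := SPL.retr φ
  let b := Module.finBasis ℤ (LinearMap.ker φ)
  refine ⟨_, fun j => b j, fun k a => b.repr (ρ (Pi.single a 1)) k,
    fun j i hi => congrFun (b j).2 ⟨i, hi⟩, fun j k => ?_, fun x hx => ?_⟩
  · have h1 : (b j : κ → ℤ) = ∑ a, (b j : κ → ℤ) a • Pi.single a 1 := by
      funext a
      simp [Finset.sum_apply, Pi.single_apply]
    have h2 := hρ (b j)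
    rw [h1, map_sum] at h2
    have h3 := congrArg (fun u => b.repr u k) h2
    simp only [map_sum, map_smul, Finsupp.coe_finsetSum, Finset.sum_apply, Finsupp.smul_apply,
      smul_eq_mul, Module.Basis.repr_self, Finsupp.single_apply] at h3
    exact h3
  obtain ⟨A, hA, h⟩ := hMW κ (I × Bool) (s ×ˢ Finset.univ) fun p => bif p.2 then v p.1 else -v p.1
  obtain ⟨c, -, hc⟩ := h x fun n hn => by
    have h1 : n ∈ LinearMap.ker φ := funext fun i => by
      have h2 := hA n hn (i, true) (by simp)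
      have h3 := hA n hn (i, false) (by simp)
      simp only [cond, dotProduct_neg] at h2 h3
      exact le_antisymm (neg_nonneg.1 h3) h2
    have h2 := congrArg Subtype.val (b.sum_repr ⟨n, h1⟩)
    have h3 : cz n = ∑ j, (b.repr ⟨n, h1⟩ j : ℝ) • cz (b j : κ → ℤ) := by
      funext a
      have h4 := congrFun h2 a
      simp only [AddSubmonoidClass.coe_finsetSum, Finset.sum_apply, SetLike.val_smul,
        Pi.smul_apply, smul_eq_mul] at h4
      simp only [cz, Finset.sum_apply, Pi.smul_apply, smul_eq_mul]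
      exact_mod_cast h4.symm
    rw [h3, sum_dotProduct]
    simp only [smul_dotProduct, hx, smul_zero, Finset.sum_const_zero, le_refl]
  refine ⟨fun i => c (i, true) - c (i, false), hc.trans ?_⟩
  rw [Finset.sum_product]
  refine Finset.sum_congr rfl fun i _ => funext fun a => ?_
  simp [cz]
  ring

end Pool.Agent.P.MP_59bdab_ag
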