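import Pool.Agent.P.MP_59bdab_ag.IfC

/-!
Integration by parts on an open set.
-/

set_option linter.unusedVariables false

namespace Pool.Agent.P.MP_59bdab_ag

open Matrix MeasureTheory Filter Topology
open scoped ContDiff Manifold

namespace STK

variable {κ : Type} [Fintype κ] [DecidableEq κ]

omit [DecidableEq κ] in
theorem extend {K U : Set (κ → ℂ)} (hK : IsClosed K) (hU : IsOpen U) (h : K ⊆ U)
    {u : (κ → ℂ) → ℝ} (hu : ContDiffOn ℝ ∞ u U) :
    ∃ u' : (κ → ℂ) → ℝ, ContDiff ℝ ∞ u' ∧ ∀ z ∈ K, u' =ᶠ[𝓝 z] u := by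
  obtain ⟨χ, h0, h1, -⟩ := exists_contMDiffMap_zero_one_nhds_of_isClosed (n := ⊤)
    𝓘(ℝ, κ → ℂ) hU.isClosed_compl hK (Set.disjoint_left.mpr fun z hz hz' => hz (h hz'))
  have hχ : ContDiff ℝ ∞ χ := χ.contMDiff.contDiff
  refine ⟨fun z => χ z * u z, contDiff_iff_contDiffAt.mpr fun z => ?_, fun z hz => ?_⟩
  · by_cases hz : z ∈ U
    · exact hχ.contDiffAt.mul (hu.contDiffAt (hU.mem_nhds hz))
    · refine (contDiffAt_const (c := 0)).congr_of_eventuallyEq ?_
      filter_upwards [h0.filter_mono (nhds_le_nhdsSet hz)] with y hy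
      rw [hy, zero_mul]
  · filter_upwards [h1.filter_mono (nhds_le_nhdsSet hz)] with y hy
    rw [hy, one_mul]

theorem cont (hLEVI1 : S_LEVI1) (hWED : S_WED) {w : κ → (κ → ℂ) → ℝ}
    (hw : ∀ l, ContDiff ℝ ∞ (w l)) : Continuous fun z => wedge fun l => levi (w l) z :=
  (hWED κ).2.2.2.2.2.2.2.2.comp (continuous_pi fun l => continuousOn_univ.mp
    ((hLEVI1 κ).2.2.2.2.2.2.1 _ _ isOpen_univ ((hw l).of_le (by norm_cast)).contDiffOn).1)

theorem upd {v : κ → (κ → ℂ) → ℝ} {a : (κ → ℂ) → ℝ} (hv : ∀ l, ContDiff ℝ ∞ (v l))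
    (ha : ContDiff ℝ ∞ a) (l₀ l : κ) : ContDiff ℝ ∞ (Function.update v l₀ a l) := by
  by_cases h : l = l₀
  · rw [h, Function.update_self]; exact ha
  · rw [Function.update_of_ne h]; exact hv l

theorem wcongr (hLEVI1 : S_LEVI1) {v v' : κ → (κ → ℂ) → ℝ} {a a' : (κ → ℂ) → ℝ} {z : κ → ℂ}
    (hv : ∀ l, v' l =ᶠ[𝓝 z] v l) (ha : a' =ᶠ[𝓝 z] a) (l₀ : κ) :
    (wedge fun l => levi (Function.update v l₀ a l) z) =
      wedge fun l => levi (Function.update v' l₀ a' l) z := by
  congr 1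
  funext l
  refine ((hLEVI1 κ).1 _ _ z ?_).1
  by_cases h : l = l₀
  · rw [h, Function.update_self, Function.update_self]; exact ha.symm
  · rw [Function.update_of_ne h, Function.update_of_ne h]; exact (hv l).symm

theorem wzero (hLEVI1 : S_LEVI1) (hWED : S_WED) (v : κ → (κ → ℂ) → ℝ) {f : (κ → ℂ) → ℝ}
    {z : κ → ℂ} (hz : z ∉ tsupport f) (l₀ : κ) :
    (wedge fun l => levi (Function.update v l₀ f l) z) = 0 :=
  (hWED κ).2.2.2.2.2.2.2.1 _ l₀ (by
    simp only [Function.update_self]; exact (hLEVI1 κ).2.2.2.2.2.2.2 f z hz)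

end STK

open STK in
theorem p_STK (hSTK0 : S_STK0) (hLEVI1 : S_LEVI1) (hWED : S_WED) : S_STK := by
  intro κ _ _ U f a v l₀ hU hf hfc hfU ha hv
  obtain ⟨a', ha', ea⟩ := extend (isClosed_tsupport f) hU hfU ha
  choose v' hv' ev using fun l => extend (isClosed_tsupport f) hU hfU (hv l)
  have e1 : (fun z => (f z : ℂ) * wedge fun l => levi (Function.update v l₀ a l) z) =
      fun z => (f z : ℂ) * wedge fun l => levi (Function.update v' l₀ a' l) z := by
    funext z
    by_cases hz : z ∈ tsupport f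
    · rw [wcongr hLEVI1 (fun l => ev l z hz) (ea z hz)]
    · simp [image_eq_zero_of_notMem_tsupport hz]
  have e2 : (fun z => (a z : ℂ) * wedge fun l => levi (Function.update v l₀ f l) z) =
      fun z => (a' z : ℂ) * wedge fun l => levi (Function.update v' l₀ f l) z := by
    funext z
    by_cases hz : z ∈ tsupport f
    · rw [wcongr hLEVI1 (fun l => ev l z hz) (EventuallyEq.refl _ f), (ea z hz).eq_of_nhds]
    · rw [wzero hLEVI1 hWED _ hz, wzero hLEVI1 hWED _ hz, mul_zero, mul_zero]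
  have z1 : ∀ z, z ∉ tsupport f →
      ((f z : ℂ) * wedge fun l => levi (Function.update v' l₀ a' l) z) = 0 := fun z hz => by
    simp [image_eq_zero_of_notMem_tsupport hz]
  have z2 : ∀ z, z ∉ tsupport f →
      ((a' z : ℂ) * wedge fun l => levi (Function.update v' l₀ f l) z) = 0 := fun z hz => by
    rw [wzero hLEVI1 hWED _ hz, mul_zero]
  rw [e1, e2]
  refine ⟨Integrable.integrableOn ?_, Integrable.integrableOn ?_, ?_⟩
  · exact ((Complex.continuous_ofReal.comp hf.continuous).mul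
      (cont hLEVI1 hWED (upd hv' ha' l₀))).integrable_of_hasCompactSupport
        (HasCompactSupport.intro hfc z1)
  · exact ((Complex.continuous_ofReal.comp ha'.continuous).mul
      (cont hLEVI1 hWED (upd hv' hf l₀))).integrable_of_hasCompactSupport
        (HasCompactSupport.intro hfc z2)
  · rw [setIntegral_eq_integral_of_forall_compl_eq_zero fun z hz => z1 z fun h => hz (hfU h),
      setIntegral_eq_integral_of_forall_compl_eq_zero fun z hz => z2 z fun h => hz (hfU h)]
    exact hSTK0 κ f a' v' l₀ hf hfc ha' hv'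

end Pool.Agent.P.MP_59bdab_ag
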