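import Pool.Agent.P.MP_59bdab_ag.IfC

namespace Pool.Agent.P.MP_59bdab_ag

open Matrix MeasureTheory Filter Topology
open scoped ENNReal ContDiff

namespace STK0
variable {κ : Type} [Fintype κ] [DecidableEq κ]

theorem wedge_update (v : κ → (κ → ℂ) → ℝ) (l₀ : κ) (a : (κ → ℂ) → ℝ) (z : κ → ℂ) :
    (wedge fun l => levi (Function.update v l₀ a l) z) =
      ∑ σ : Equiv.Perm κ, ∑ τ : Equiv.Perm κ,
        ((Equiv.Perm.sign σ : ℤ) : ℂ) * ((Equiv.Perm.sign τ : ℤ) : ℂ) *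
          (levi a z (σ l₀) (τ l₀) * ∏ l ∈ Finset.univ.erase l₀, levi (v l) z (σ l) (τ l)) := by
  refine Finset.sum_congr rfl fun σ _ => Finset.sum_congr rfl fun τ _ => ?_
  rw [← Finset.mul_prod_erase _ _ (Finset.mem_univ l₀)]
  simp only [Function.update_self]
  congr 2
  exact Finset.prod_congr rfl fun l hl => by rw [Function.update_of_ne (Finset.ne_of_mem_erase hl)]

omit [DecidableEq κ] in
theorem int3 {u v w : (κ → ℂ) → ℂ} (hu : ContDiff ℝ ∞ u) (hv : ContDiff ℝ ∞ v)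
    (hw : ContDiff ℝ ∞ w) (hc : HasCompactSupport u) : Integrable fun z => u z * v z * w z :=
  ((hu.continuous.mul hv.continuous).mul hw.continuous).integrable_of_hasCompactSupport
    (hc.mul_right.mul_right)

theorem int_sum (F : Equiv.Perm κ → Equiv.Perm κ → (κ → ℂ) → ℂ)
    (c : Equiv.Perm κ → Equiv.Perm κ → ℂ) (h : ∀ σ τ, Integrable (F σ τ)) :
    ∫ z, ∑ σ, ∑ τ, c σ τ * F σ τ z = ∑ σ, ∑ τ, c σ τ * ∫ z, F σ τ z := by
  rw [integral_finsetSum _ fun σ _ => integrable_finsetSum _ fun τ _ => (h σ τ).const_mul _]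
  refine Finset.sum_congr rfl fun σ _ => ?_
  rw [integral_finsetSum _ fun τ _ => (h σ τ).const_mul _]
  simp only [integral_const_mul]

end STK0

open STK0 in
theorem p_STK0 (hWD : S_WD) (hPIO : S_PIO) : S_STK0 := by
  intro κ _ _ f a v l₀ hf hfc ha hv
  set f' : (κ → ℂ) → ℂ := fun y => (f y : ℂ) with hf'
  set a' : (κ → ℂ) → ℂ := fun y => (a y : ℂ) with ha'
  have sf : ContDiff ℝ ∞ f' := Complex.ofRealCLM.contDiff.comp hf
  have sa : ContDiff ℝ ∞ a' := Complex.ofRealCLM.contDiff.comp ha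
  have cf : HasCompactSupport f' := hfc.comp_left (g := fun x : ℝ => (x : ℂ)) Complex.ofReal_zero
  set G : Equiv.Perm κ → Equiv.Perm κ → (κ → ℂ) → ℂ :=
    fun σ τ y => ∏ l ∈ Finset.univ.erase l₀, levi (v l) y (σ l) (τ l) with hG
  have sG : ∀ σ τ, ContDiff ℝ ∞ (G σ τ) := fun σ τ =>
    contDiff_prod fun l _ => (hWD κ 0 (σ l)).2.2.2.2.2.2 (τ l) (v l) (hv l)
  have sw : ∀ c b (u : (κ → ℂ) → ℂ), ContDiff ℝ ∞ u → ContDiff ℝ ∞ (wd c b u) :=
    fun c b => (hWD κ c b).1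
  have cw : ∀ c b (u : (κ → ℂ) → ℂ), HasCompactSupport u → HasCompactSupport (wd c b u) :=
    fun c b => (hWD κ c b).2.2.2.2.1
  have ibp : ∀ c b (u w x : (κ → ℂ) → ℂ), ContDiff ℝ ∞ u → ContDiff ℝ ∞ w → ContDiff ℝ ∞ x →
      HasCompactSupport u → ∫ z, u z * w z * wd c b x z =
        -((∫ z, wd c b u z * w z * x z) + ∫ z, u z * wd c b w z * x z) := by
    intro c b u w x hu hw hx hc
    rw [(hWD κ c b).2.2.2.2.2.1 (fun z => u z * w z) x (hu.mul hw) hx hc.mul_right,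
      ← integral_add (int3 (sw _ _ _ hu) hw hx (cw _ _ _ hc)) (int3 hu (sw _ _ _ hw) hx hc)]
    simp only [(hWD κ c b).2.2.1 u w hu hw, add_mul]
  set sg : Equiv.Perm κ → Equiv.Perm κ → ℂ :=
    fun σ τ => ((Equiv.Perm.sign σ : ℤ) : ℂ) * ((Equiv.Perm.sign τ : ℤ) : ℂ) with hsg
  have e1 : ∀ z, (f z : ℂ) * (wedge fun l => levi (Function.update v l₀ a l) z) =
      ∑ σ, ∑ τ, sg σ τ * (f' z * G σ τ z *
        wd (-Complex.I) (σ l₀) (wd Complex.I (τ l₀) a') z) := by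
    intro z
    simp only [wedge_update, Finset.mul_sum]
    refine Finset.sum_congr rfl fun σ _ => Finset.sum_congr rfl fun τ _ => ?_
    simp only [levi, of_apply, hG, hsg, hf', ha']
    ring
  have e2 : ∀ z, (a z : ℂ) * (wedge fun l => levi (Function.update v l₀ f l) z) =
      ∑ σ, ∑ τ, sg σ τ * (wd Complex.I (τ l₀) (wd (-Complex.I) (σ l₀) f') z * G σ τ z * a' z) := by
    intro z
    simp only [wedge_update, Finset.mul_sum]
    refine Finset.sum_congr rfl fun σ _ => Finset.sum_congr rfl fun τ _ => ?_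
    rw [← (hWD κ (-Complex.I) (σ l₀)).2.1 Complex.I (τ l₀) f' sf]
    simp only [levi, of_apply, hG, hsg, hf', ha']
    ring
  have z1 : ∑ σ, ∑ τ, sg σ τ * ∫ z, f' z * wd (-Complex.I) (σ l₀) (G σ τ) z *
      wd Complex.I (τ l₀) a' z = 0 := by
    rw [← int_sum _ _ fun σ τ => int3 sf (sw _ _ _ (sG σ τ)) (sw _ _ _ sa) cf]
    refine integral_eq_zero_of_ae (Eventually.of_forall fun z => ?_)
    refine Finset.sum_comm.trans (Finset.sum_eq_zero fun τ _ => ?_)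
    have h := congrArg (· * (((Equiv.Perm.sign τ : ℤ) : ℂ) * f' z * wd Complex.I (τ l₀) a' z))
      (hPIO κ v l₀ hv τ z).1
    simp only [Finset.sum_mul, zero_mul] at h
    rw [← h]
    exact Finset.sum_congr rfl fun σ _ => by simp only [hsg, hG]; ring
  have z2 : ∑ σ, ∑ τ, sg σ τ * ∫ z, wd (-Complex.I) (σ l₀) f' z *
      wd Complex.I (τ l₀) (G σ τ) z * a' z = 0 := by
    rw [← int_sum _ _ fun σ τ => int3 (sw _ _ _ sf) (sw _ _ _ (sG σ τ)) sa (cw _ _ _ cf)]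
    refine integral_eq_zero_of_ae (Eventually.of_forall fun z => ?_)
    show _ = (0 : ℂ)
    refine Finset.sum_eq_zero fun σ _ => ?_
    have h := congrArg (· * (((Equiv.Perm.sign σ : ℤ) : ℂ) * wd (-Complex.I) (σ l₀) f' z * a' z))
      (hPIO κ v l₀ hv σ z).2
    simp only [Finset.sum_mul, zero_mul] at h
    rw [← h]
    exact Finset.sum_congr rfl fun τ _ => by simp only [hsg, hG]; ring
  simp only [e1, e2]
  rw [int_sum _ _ fun σ τ => int3 sf (sG σ τ) (sw _ _ _ (sw _ _ _ sa)) cf,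
    int_sum _ _ fun σ τ => int3 (sw _ _ _ (sw _ _ _ sf)) (sG σ τ) sa (cw _ _ _ (cw _ _ _ cf))]
  have e3 : ∀ σ τ, sg σ τ * ∫ z, f' z * G σ τ z *
      wd (-Complex.I) (σ l₀) (wd Complex.I (τ l₀) a') z =
      sg σ τ * (∫ z, wd Complex.I (τ l₀) (wd (-Complex.I) (σ l₀) f') z * G σ τ z * a' z) +
      sg σ τ * (∫ z, wd (-Complex.I) (σ l₀) f' z * wd Complex.I (τ l₀) (G σ τ) z * a' z) -
      sg σ τ * ∫ z, f' z * wd (-Complex.I) (σ l₀) (G σ τ) z * wd Complex.I (τ l₀) a' z := by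
    intro σ τ
    rw [ibp _ _ _ _ _ sf (sG σ τ) (sw _ _ _ sa) cf,
      ibp _ _ _ _ _ (sw _ _ _ sf) (sG σ τ) sa (cw _ _ _ cf)]
    ring
  simp only [e3, Finset.sum_add_distrib, Finset.sum_sub_distrib, z1, z2, add_zero, sub_zero]

end Pool.Agent.P.MP_59bdab_ag
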