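import Pool.Agent.P.MP_59bdab_ag.IfC

namespace Pool.Agent.P.MP_59bdab_ag

open Matrix MeasureTheory Filter Topology
open scoped ENNReal ContDiff

namespace SWAP

theorem flat {φ : ℝ → ℝ} {x c : ℝ} (h : φ =ᶠ[𝓝 x] fun _ => c) :
    deriv φ x = 0 ∧ deriv (deriv φ) x = 0 := by
  have h1 : deriv φ =ᶠ[𝓝 x] fun _ => 0 := by simpa using h.deriv
  exact ⟨h1.eq_of_nhds, by simpa using h1.deriv.eq_of_nhds⟩

theorem cut : ∃ (k : ℕ → ℝ → ℝ) (B : ℝ), (∀ n, ContDiff ℝ ∞ (k n)) ∧ (∀ n x, |k n x| ≤ 1) ∧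
    (∀ n x, k n x ≠ 0 → x ≤ 2 * (n + 1)) ∧
    (∀ n x, 0 ≤ x → |deriv (k n) x| * (1 + x) ≤ B ∧ |deriv (deriv (k n)) x| * (1 + x) ≤ B) ∧
    ∀ x, ∀ᶠ n in atTop, k n x = 1 ∧ deriv (k n) x = 0 ∧ deriv (deriv (k n)) x = 0 := by
  let φ : ContDiffBump (0 : ℝ) := ⟨1, 2, one_pos, one_lt_two⟩
  have s0 : ContDiff ℝ ∞ φ := φ.contDiff
  have s1 : ContDiff ℝ ∞ (deriv φ) := (contDiff_infty_iff_deriv.1 s0).2
  have s2 : ContDiff ℝ ∞ (deriv (deriv φ)) := (contDiff_infty_iff_deriv.1 s1).2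
  obtain ⟨B1, b1⟩ := φ.hasCompactSupport.deriv.exists_bound_of_continuous s1.continuous
  obtain ⟨B2, b2⟩ := φ.hasCompactSupport.deriv.deriv.exists_bound_of_continuous s2.continuous
  have p1 : 0 ≤ B1 := (norm_nonneg _).trans (b1 0)
  have p2 : 0 ≤ B2 := (norm_nonneg _).trans (b2 0)
  have z0 : ∀ y : ℝ, 2 < y → φ y = 0 := fun y hy => φ.zero_of_le_dist (by
    change (2 : ℝ) ≤ _
    rw [Real.dist_eq, sub_zero]; exact hy.le.trans (le_abs_self y))
  have z1 : ∀ y : ℝ, 2 < y → deriv φ y = 0 ∧ deriv (deriv φ) y = 0 := fun y hy =>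
    flat (c := 0) ((eventually_gt_nhds hy).mono z0)
  have d1 : ∀ c : ℝ, deriv (fun x => φ (c * x)) = fun x => c * deriv φ (c * x) := fun c =>
    funext fun x => by rw [deriv_comp_mul_left, smul_eq_mul]
  have d2 : ∀ c : ℝ, deriv (deriv fun x => φ (c * x)) =
      fun x => c * (c * deriv (deriv φ) (c * x)) := fun c => funext fun x => by
    rw [d1, deriv_const_mul_field, deriv_comp_mul_left, smul_eq_mul]
  refine ⟨fun n x => φ (((n : ℝ) + 1)⁻¹ * x), 3 * (B1 + B2), fun n => ?_, fun n x => ?_,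
    fun n x h => ?_, fun n x hx => ?_, fun x => ?_⟩
  · exact s0.comp (contDiff_const.mul contDiff_id)
  · rw [abs_of_nonneg φ.nonneg]; exact φ.le_one
  · by_contra h'
    refine h (z0 _ ?_)
    rw [lt_inv_mul_iff₀ (by positivity)]
    linarith
  · rw [d2, d1]
    have hn : (1 : ℝ) ≤ (n : ℝ) + 1 := by simp
    have c0 : (0 : ℝ) < ((n : ℝ) + 1)⁻¹ := by positivity
    have c1 : ((n : ℝ) + 1)⁻¹ ≤ 1 := inv_le_one_of_one_le₀ hn
    generalize ((n : ℝ) + 1)⁻¹ = c at c0 c1
    by_cases h : 2 < c * x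
    · simp only [(z1 _ h).1, (z1 _ h).2, mul_zero, abs_zero, zero_mul, and_self]
      positivity
    · have e : c * (1 + x) ≤ 3 := by nlinarith
      have f1 := b1 (c * x)
      have f2 := b2 (c * x)
      rw [Real.norm_eq_abs] at f1 f2
      simp only [abs_mul, abs_of_pos c0]
      have g1 := mul_le_mul e f1 (abs_nonneg _) (by norm_num)
      have g2 := mul_le_mul e (mul_le_mul c1 f2 (abs_nonneg _) zero_le_one) (by positivity)
        (by norm_num)
      constructor <;> nlinarith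
  · filter_upwards [tendsto_natCast_atTop_atTop.eventually (eventually_ge_atTop |x|)] with n hn
    have h : ((n : ℝ) + 1)⁻¹ * x ∈ Metric.ball (0 : ℝ) φ.rIn := by
      change _ ∈ Metric.ball (0 : ℝ) 1
      rw [mem_ball_zero_iff, Real.norm_eq_abs, abs_mul, abs_of_pos (by positivity),
        inv_mul_lt_iff₀ (by positivity)]
      linarith
    have h1 := φ.eventuallyEq_one_of_mem_ball h
    have h2 := flat (c := 1) h1
    rw [d2, d1]
    exact ⟨h1.eq_of_nhds, by simp only [h2.1, mul_zero], by simp only [h2.2, mul_zero]⟩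

end SWAP

open SWAP in
theorem p_SWAP (hSWAP0 : S_SWAP0) (hINT : S_INT) (hWTC : S_WTC) (hINVD : S_INVD)
    (hLEVI3 : S_LEVI3) (hMEAS : S_MEAS) : S_SWAP := by
  intro ι _ _ R L ρ w c v l₀ a C hR hρ hw hv pa ta hC
  classical
  obtain ⟨⟨w', M, hw', hae, hM, M0, hb⟩, hI⟩ := hINT ι R L hR
  obtain ⟨pρ, ⟨C1, c1, t1⟩, ρ0, ⟨C2, c2, t2⟩, hK⟩ := hρ
  obtain ⟨k, B, k1, k2, k3, k4, k5⟩ := cut
  have := (hMEAS ι).2.1
  have up : ∀ {u : (Sym2 ι → ℂ) → ℝ}, Pot 0 u → ∀ l,
      Pot (Function.update c l₀ 0 l) (Function.update v l₀ u l) := fun {u} hu l => by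
    by_cases h : l = l₀
    · subst h; simpa using hu
    · simpa [h] using (hv l).1
  have cont : ∀ {u : (Sym2 ι → ℂ) → ℝ}, Pot 0 u → Continuous (dns (Function.update v l₀ u)) :=
    fun hu => (hINVD ι).2.2.2.2 _ fun l => (up hu l).1
  have tr := ((hWTC (SpZ ι) (HH ι) (μH ι) w hw).2.2.1 w' _ hw' (cont pa).measurable
    fun γ Z => (hINVD ι).2.2.2.1 _ _ γ Z (up pa)).2
  refine tr.trans ?_
  change ∫ Z, dns (Function.update v l₀ a) Z ∂νw w' = 0
  have iL : Integrable (dns (Function.update v l₀ a)) (νw w') :=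
    hI w' (Function.update c l₀ 0) _ hw' fun l => ⟨up pa l, by
      by_cases h : l = l₀
      · subst h; simpa using ta
      · simpa [h] using (hv l).2⟩
  let f : ℕ → (Sym2 ι → ℂ) → ℝ := fun n z => k n (ρ z)
  have pf : ∀ n, Pot 0 (f n) := fun n =>
    ⟨(k1 n).comp_contDiffOn pρ.1, fun γ Z => by simp only [f, pρ.2, zero_mul, add_zero]⟩
  have sw := fun n => hSWAP0 ι w' c v l₀ a (f n) hw' (fun l => (hv l).1) pa (pf n) (by
    obtain ⟨K, hK1, hK2⟩ := hK (2 * (n + 1))
    refine ⟨K, hK1, fun Z hZ => ?_⟩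
    obtain ⟨γ, hγ⟩ := hR.2.1 Z
    refine ⟨γ, hK2 _ hγ ?_⟩
    rw [pρ.2, zero_mul, add_zero]
    exact k3 n _ hZ)
  have lim1 : Tendsto (fun n => ∫ Z, (f n Z.1 : ℂ) * dns (Function.update v l₀ a) Z ∂νw w') atTop
      (𝓝 (∫ Z, dns (Function.update v l₀ a) Z ∂νw w')) := by
    refine tendsto_integral_of_dominated_convergence _ (fun n => ?_) iL.norm
      (fun n => Eventually.of_forall fun Z => ?_) (Eventually.of_forall fun Z => ?_)
    · exact ((Complex.continuous_ofReal.comp (pf n).continuous).mul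
        (cont pa)).aestronglyMeasurable
    · rw [norm_mul, Complex.norm_real, Real.norm_eq_abs]
      exact mul_le_of_le_one_left (norm_nonneg _) (k2 n _)
    · refine tendsto_const_nhds.congr' ((k5 (ρ Z.1)).mono fun n hn => ?_)
      simp only [f, hn.1, Complex.ofReal_one, one_mul]
  choose D D0 hD using fun l => (hv l).2
  let E : ℕ → HH ι → ℝ := fun n Z =>
    |deriv (k n) (ρ Z.1)| * C1 + |deriv (deriv (k n)) (ρ Z.1)| * C2
  have E0 : ∀ n Z, 0 ≤ E n Z := fun n Z => by positivity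
  let P : ℝ := ∏ l ∈ Finset.univ \ {l₀}, D l
  have P0 : 0 ≤ P := Finset.prod_nonneg fun l _ => D0 l
  have bd : ∀ n, ∀ Z ∈ R, ‖dns (Function.update v l₀ (f n)) Z‖ ≤ E n Z * P * M Z := by
    intro n Z hZ
    rw [← Finset.prod_update_of_mem (Finset.mem_univ l₀)]
    refine hb Z _ _ (fun l => ?_) fun l => ?_
    · by_cases h : l = l₀
      · subst h; simpa using E0 n Z
      · simpa [h] using D0 l
    · by_cases h : l = l₀
      · subst h
        rw [Function.update_self, Function.update_self]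
        intro ζ
        have e := ((hLEVI3 (Sym2 ι)).1 ρ (k n) Z.1 ((pρ.contDiffAt Z).of_le (by norm_cast))
          ((k1 n).contDiffAt.of_le (by norm_cast))).1 ζ
        change ‖hq (levi (fun y => k n (ρ y)) Z.1) ζ‖ ≤ _
        rw [e]
        refine (norm_add_le _ _).trans ?_
        rw [norm_mul, Complex.norm_real, Complex.norm_real, Real.norm_eq_abs, Real.norm_eq_abs,
          abs_mul, abs_of_nonneg (sq_nonneg ‖_‖), add_mul, mul_assoc, mul_assoc]
        exact add_le_add (mul_le_mul_of_nonneg_left (t1 Z hZ ζ) (abs_nonneg _))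
          (mul_le_mul_of_nonneg_left (t2 Z hZ ζ) (abs_nonneg _))
      · simpa [h] using hD l Z hZ
  have lim2 : Tendsto (fun n => ∫ Z, (a Z.1 : ℂ) * dns (Function.update v l₀ (f n)) Z ∂νw w')
      atTop (𝓝 (∫ _Z, (0 : ℂ) ∂νw w')) := by
    refine tendsto_integral_of_dominated_convergence
      (fun Z => |C| * (B * C1 + B * C2) * P * M Z) (fun n => ?_) (hM.const_mul _)
      (fun n => hae.mono fun Z hZ => ?_) (hae.mono fun Z hZ => ?_)
    · exact ((Complex.continuous_ofReal.comp pa.continuous).mul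
        (cont (pf n))).aestronglyMeasurable
    · rw [norm_mul, Complex.norm_real, Real.norm_eq_abs]
      have r0 := ρ0 Z
      have a1 : |a Z.1| ≤ |C| * (1 + ρ Z.1) :=
        (hC Z hZ).trans (mul_le_mul_of_nonneg_right (le_abs_self C) (by positivity))
      have a2 : (1 + ρ Z.1) * E n Z ≤ B * C1 + B * C2 := by
        have h1 := mul_le_mul_of_nonneg_right (k4 n _ r0).1 c1
        have h2 := mul_le_mul_of_nonneg_right (k4 n _ r0).2 c2
        simp only [E]
        nlinarith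
      have m0 := M0 Z
      calc |a Z.1| * ‖dns (Function.update v l₀ (f n)) Z‖
          ≤ |C| * (1 + ρ Z.1) * (E n Z * P * M Z) :=
            mul_le_mul a1 (bd n Z hZ) (norm_nonneg _) (by positivity)
        _ = |C| * ((1 + ρ Z.1) * E n Z) * P * M Z := by ring
        _ ≤ _ := by gcongr
    · refine tendsto_const_nhds.congr' ((k5 (ρ Z.1)).mono fun n hn => ?_)
      have h := bd n Z hZ
      simp only [E, hn.2.1, hn.2.2, abs_zero, zero_mul, add_zero, norm_le_zero_iff] at h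
      simp only [h, mul_zero]
  rw [integral_zero] at lim2
  exact tendsto_nhds_unique lim1 (lim2.congr fun n => (sw n).symm)

end Pool.Agent.P.MP_59bdab_ag
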