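import Pool.Agent.P.MP_59bdab_ag.IfC

/-!
Integration by parts on the quotient.
-/

namespace Pool.Agent.P.MP_59bdab_ag

open Matrix MeasureTheory Filter Topology
open scoped ENNReal ContDiff

namespace SWAP0
variable {ι : Type} [Fintype ι] [DecidableEq ι]

theorem smooth_upd {v : Sym2 ι → (Sym2 ι → ℂ) → ℝ} {u : (Sym2 ι → ℂ) → ℝ} (l₀ : Sym2 ι)
    (hv : ∀ l, ContDiffOn ℝ ∞ (v l) (HS ι)) (hu : ContDiffOn ℝ ∞ u (HS ι)) (l : Sym2 ι) :
    ContDiffOn ℝ ∞ (Function.update v l₀ u l) (HS ι) := by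
  by_cases h : l = l₀
  · subst h; rwa [Function.update_self]
  · rw [Function.update_of_ne h]; exact hv l

theorem pot_upd {c : Sym2 ι → ℝ} {v : Sym2 ι → (Sym2 ι → ℂ) → ℝ} {u : (Sym2 ι → ℂ) → ℝ}
    (l₀ : Sym2 ι) (hv : ∀ l, Pot (c l) (v l)) (hu : Pot 0 u) (l : Sym2 ι) :
    Pot (Function.update c l₀ 0 l) (Function.update v l₀ u l) := by
  by_cases h : l = l₀
  · subst h; rwa [Function.update_self, Function.update_self]
  · rw [Function.update_of_ne h, Function.update_of_ne h]; exact hv l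

theorem levi_upd (v : Sym2 ι → (Sym2 ι → ℂ) → ℝ) (u : (Sym2 ι → ℂ) → ℝ) (l₀ : Sym2 ι)
    (z : Sym2 ι → ℂ) : (fun l => levi (Function.update v l₀ u l) z) =
      Function.update (fun l => levi (v l) z) l₀ (levi u z) := by
  funext l
  by_cases h : l = l₀
  · subst h; rw [Function.update_self, Function.update_self]
  · rw [Function.update_of_ne h, Function.update_of_ne h]

theorem amb (hAMB : S_AMB) (g : (Sym2 ι → ℂ) → ℝ) (v : Sym2 ι → (Sym2 ι → ℂ) → ℝ)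
    (h : IntegrableOn (fun z => (g z : ℂ) * wedge fun l => levi (v l) z) (HS ι)) :
    Integrable (fun Z : HH ι => (g Z.1 : ℂ) * dns v Z) (μH ι) ∧
      ∫ Z, (g Z.1 : ℂ) * dns v Z ∂μH ι = ∫ z in HS ι, (g z : ℂ) * wedge fun l => levi (v l) z := by
  obtain ⟨h1, h2⟩ := hAMB ι (fun z => (g z : ℂ) * wedge fun l => levi (v l) z) (HS ι)
    (isOpen_HS ι).measurableSet subset_rfl
  have e : {Z : HH ι | Z.1 ∈ HS ι} = Set.univ := Set.eq_univ_of_forall fun Z => Z.2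
  rw [e, integrableOn_univ] at h1
  rw [e, Measure.restrict_univ] at h2
  simp only [mul_assoc] at h1 h2
  exact ⟨h1.2 h, h2⟩

/-- The density of a translate. -/
theorem dns_smul (hINVD : S_INVD) {c : Sym2 ι → ℝ} {v : Sym2 ι → (Sym2 ι → ℂ) → ℝ}
    {h : (Sym2 ι → ℂ) → ℝ} (l₀ : Sym2 ι) (hv : ∀ l, Pot (c l) (v l)) (hh : ContDiff ℝ ∞ h)
    (γ : SpZ ι) (Z : HH ι) : dns (Function.update v l₀ h) (γ • Z) =
      wedge (Function.update (fun l => levi (v l) Z.1) l₀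
        (levi (fun z => h (actF (toR γ).1 z)) Z.1)) *
        (((Ym Z).det ^ (Fintype.card ι + 1) : ℝ) : ℂ) := by
  obtain ⟨-, h2, h3, -, -⟩ := hINVD ι
  rw [smulZ_def, ← h2 (toR γ) _ Z (smooth_upd l₀ (fun l => (hv l).1) hh.contDiffOn), dns]
  congr 2
  funext l
  by_cases e : l = l₀
  · subst e; simp only [Function.update_self]
  · simp only [Function.update_of_ne e]; exact h3 _ _ γ Z (hv l)

theorem smooth_act (hINVD : S_INVD) {h : (Sym2 ι → ℂ) → ℝ} (hh : ContDiff ℝ ∞ h) (γ : SpZ ι)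
    (Z : HH ι) : ContDiffAt ℝ 2 (fun z => h (actF (toR γ).1 z)) Z.1 := by
  have h1 : ContDiffAt ℂ ∞ (actF (toR γ).1) Z.1 :=
    ((hINVD ι).1 (toR γ)).2.1.contDiffAt ((isOpen_HS ι).mem_nhds Z.2)
  exact (hh.contDiffAt.comp Z.1 (h1.restrict_scalars ℝ)).of_le
    (WithTop.coe_le_coe.2 le_top : ((2 : ℕ∞) : WithTop ℕ∞) ≤ ((⊤ : ℕ∞) : WithTop ℕ∞))

end SWAP0

open SWAP0 in
theorem p_SWAP0 (hPART : S_PART) (hSTK : S_STK) (hAMB : S_AMB) (hWTC : S_WTC) (hINVD : S_INVD)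
    (hWED : S_WED) (hLEVI1 : S_LEVI1) (hMEAS : S_MEAS) (hQC : S_QC) : S_SWAP0 := by
  intro ι _ _ w c v l₀ a f hw hv ha hf hK
  obtain ⟨h, hh, hc, hs, hsum⟩ := (hPART ι).2 f hf hK
  have := (hMEAS ι).2.1
  have hKh : IsCompact (Subtype.val ⁻¹' tsupport h : Set (HH ι)) :=
    (IsInducing.subtypeVal.isCompact_preimage_iff (by rwa [Subtype.range_coe])).2 hc
  have hloc : ∀ Z : HH ι, ∃ s : Finset (SpZ ι), ∀ᶠ W in 𝓝 Z,
      (∀ γ, γ ∉ s → h (γ • W).1 = 0) ∧ f W.1 = ∑ γ ∈ s, h (γ • W).1 := fun Z => by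
    obtain ⟨s, h1⟩ := (hPART ι).1 _ hKh Z
    refine ⟨s, h1.mono fun W hW => ?_⟩
    have h2 : ∀ γ, γ ∉ s → h (γ • W).1 = 0 := fun γ hγ =>
      image_eq_zero_of_notMem_tsupport (hW γ hγ)
    refine ⟨h2, ?_⟩
    rw [hsum, finsum_eq_sum_of_support_subset]
    intro γ hγ
    by_contra h3
    exact hγ (h2 γ h3)
  have hv1 : ∀ l, ContDiffOn ℝ ∞ (v l) (HS ι) := fun l => (hv l).1
  obtain ⟨i1, i2, i3⟩ := hSTK _ (HS ι) h a v l₀ (isOpen_HS ι) hh hc hs ha.1 hv1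
  obtain ⟨j1, j2⟩ := amb hAMB h _ i1
  obtain ⟨k1, k2⟩ := amb hAMB a _ i2
  have hW := (hWTC (SpZ ι) (HH ι) (μH ι) w hw).2.2.2
  have c1 : Continuous fun Z : HH ι => (h Z.1 : ℂ) * dns (Function.update v l₀ a) Z :=
    (Complex.continuous_ofReal.comp (hh.continuous.comp continuous_subtype_val)).mul
      ((hINVD ι).2.2.2.2 _ (smooth_upd l₀ hv1 ha.1))
  have c2 : Continuous fun Z : HH ι => (a Z.1 : ℂ) * dns (Function.update v l₀ h) Z :=
    (Complex.continuous_ofReal.comp ha.continuous).mul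
      ((hINVD ι).2.2.2.2 _ (smooth_upd l₀ hv1 hh.contDiffOn))
  have e1 : ∀ Z : HH ι, ∑' γ : SpZ ι, (h (γ • Z).1 : ℂ) * dns (Function.update v l₀ a) (γ • Z) =
      (f Z.1 : ℂ) * dns (Function.update v l₀ a) Z := fun Z => by
    obtain ⟨s, h1⟩ := hloc Z
    obtain ⟨h2, h3⟩ := h1.self_of_nhds
    rw [tsum_eq_sum (s := s) fun γ hγ => by rw [h2 γ hγ, Complex.ofReal_zero, zero_mul], h3,
      Complex.ofReal_sum, Finset.sum_mul]
    exact Finset.sum_congr rfl fun γ _ => by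
      rw [(hINVD ι).2.2.2.1 _ _ γ Z (pot_upd l₀ hv ha)]
  have e2 : ∀ Z : HH ι, ∑' γ : SpZ ι, (a (γ • Z).1 : ℂ) * dns (Function.update v l₀ h) (γ • Z) =
      (a Z.1 : ℂ) * dns (Function.update v l₀ f) Z := fun Z => by
    obtain ⟨s, h1⟩ := hloc Z
    obtain ⟨l1, -, -, -, l5, l6, -, -⟩ := hLEVI1 (Sym2 ι)
    obtain ⟨-, w2, -, -, -, -, -, w8, -⟩ := hWED (Sym2 ι)
    have z1 : ∀ γ, γ ∉ s → levi (fun z => h (actF (toR γ).1 z)) Z.1 = 0 := fun γ hγ => by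
      rw [← (l5 0 Z.1).1]
      exact (l1 _ _ _ (eventually_amb.2 (h1.mono fun W hW => hW.1 γ hγ))).1
    have z2 : levi f Z.1 = ∑ γ ∈ s, levi (fun z => h (actF (toR γ).1 z)) Z.1 := by
      rw [← l6 _ s _ Z.1 fun γ _ => smooth_act hINVD hh γ Z]
      exact (l1 _ _ _ (eventually_amb.2 (h1.mono fun W hW => hW.2))).1
    rw [tsum_eq_sum (s := s) fun γ hγ => by
      rw [dns_smul hINVD l₀ hv hh, w8 _ l₀ (by rw [Function.update_self, z1 γ hγ]), zero_mul,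
        mul_zero], dns, levi_upd, z2, w2, Finset.sum_mul, Finset.mul_sum]
    exact Finset.sum_congr rfl fun γ _ => by
      rw [dns_smul hINVD l₀ hv hh, ha.2, zero_mul, add_zero]
  have r1 := hW _ c1.measurable j1
  have r2 := hW _ c2.measurable k1
  simp only [e1] at r1
  simp only [e2] at r2
  rw [νw, ← r1, ← r2, j2, k2, i3]

end Pool.Agent.P.MP_59bdab_ag
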