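import Pool.Agent.P.MP_59bdab_ag.IfC

namespace Pool.Agent.P.MP_59bdab_ag

open Matrix MeasureTheory Filter Topology
open scoped ENNReal ContDiff

theorem p_TEL (hSWAP : S_SWAP) (hINT : S_INT) (hWED : S_WED) (hLEVI1 : S_LEVI1) : S_TEL := by
  intro ι _ _ R L ρ w u u' C hR hρ hw hu hu' tu tu' hC
  classical
  set a : (Sym2 ι → ℂ) → ℝ := fun z => (-1) * u' z + u z with ha
  have pa : Pot 0 a := by
    have := hu'.comb hu (-1)
    rwa [show (-1 : ℝ) * 1 + 1 = 0 by ring] at this
  have la : ∀ Z : HH ι, levi a Z.1 = ((-1 : ℝ) : ℂ) • levi u' Z.1 + levi u Z.1 := fun Z =>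
    ((hLEVI1 (Sym2 ι)).2.2.2.1 u' u (-1) Z.1 ((hu'.contDiffAt Z).of_le (by norm_cast))
      ((hu.contDiffAt Z).of_le (by norm_cast))).1
  have ta : Tame R L a := by
    obtain ⟨C1, h1, h2⟩ := tu
    obtain ⟨C2, h3, h4⟩ := tu'
    refine ⟨‖((-1 : ℝ) : ℂ)‖ * C2 + C1, by positivity, fun Z hZ => ?_⟩
    rw [la]
    exact ((h4 Z hZ).smul _).add (h2 Z hZ)
  let v : Finset (Sym2 ι) → Sym2 ι → (Sym2 ι → ℂ) → ℝ := fun S l => if l ∈ S then u else u'
  have hv : ∀ S l, Pot 1 (v S l) ∧ Tame R L (v S l) := by
    intro S l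
    simp only [v]
    split_ifs
    exacts [⟨hu, tu⟩, ⟨hu', tu'⟩]
  have key : ∀ S, ∫ Z, dns (v S) Z ∂νw w = ∫ Z, dns (v ∅) Z ∂νw w := by
    intro S
    induction S using Finset.induction_on with
    | empty => rfl
    | insert l₀ S hl ih =>
      have h1 : ∀ Z, dns (v (insert l₀ S)) Z =
          dns (Function.update (v S) l₀ a) Z + dns (v S) Z := by
        intro Z
        have e1 : (fun l => levi (v (insert l₀ S) l) Z.1) = Function.update
            (fun l => levi (v S l) Z.1) l₀ ((1 : ℂ) • levi a Z.1 + levi u' Z.1) := by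
          funext l
          by_cases h : l = l₀
          · subst h; simp [v, la]
          · simp [v, h]
        have e2 : (fun l => levi (Function.update (v S) l₀ a l) Z.1) = Function.update
            (fun l => levi (v S l) Z.1) l₀ (levi a Z.1) := by
          funext l
          by_cases h : l = l₀
          · subst h; simp
          · simp [h]
        have e3 : Function.update (fun l => levi (v S l) Z.1) l₀ (levi u' Z.1) =
            fun l => levi (v S l) Z.1 := by
          funext l
          by_cases h : l = l₀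
          · subst h; simp [v, hl]
          · simp [h]
        simp only [dns]
        rw [e1, e2, (hWED (Sym2 ι)).1, e3]
        ring
      have h2 : Integrable (dns (Function.update (v S) l₀ a)) (νw w) := by
        refine (hINT ι R L hR).2 w (Function.update (fun _ => 1) l₀ 0) _ hw fun l => ?_
        by_cases h : l = l₀
        · subst h; simpa using ⟨pa, ta⟩
        · simpa [h] using hv S l
      simp only [h1]
      rw [integral_add h2 ((hINT ι R L hR).2 w (fun _ => 1) _ hw (hv S)),
        hSWAP ι R L ρ w (fun _ => 1) (v S) l₀ a C hR hρ hw (hv S) pa ta fun Z hZ => by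
          have := hC Z hZ
          rwa [show a Z.1 = u Z.1 - u' Z.1 by simp only [ha]; ring], zero_add, ih]
  simpa [v] using key Finset.univ

end Pool.Agent.P.MP_59bdab_ag
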