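import Pool.Agent.P.MP_59bdab_ag.IfC

/-! The Hessian of `- log det` is positive. -/

namespace Pool.Agent.P.MP_59bdab_ag

open Matrix MeasureTheory Filter Topology
open scoped ENNReal ContDiff

namespace TRC

variable {ι : Type} [Fintype ι] [DecidableEq ι]

open scoped MatrixOrder in
theorem pos {A D : Matrix ι ι ℝ} (hA : A.PosDef) (hD : D.IsHermitian) (h0 : D ≠ 0) :
    0 < (A * D * A * D).trace := by
  obtain ⟨B, hB, rfl⟩ := CStarAlgebra.isStrictlyPositive_iff_eq_star_mul_self.mp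
    hA.isStrictlyPositive
  have e : (star B * B * D * (star B * B) * D).trace =
      ((B * D * star B)ᴴ * (B * D * star B)).trace := by
    simp only [star_eq_conjTranspose, conjTranspose_mul, conjTranspose_conjTranspose, hD.eq,
      Matrix.mul_assoc]
    rw [trace_mul_comm]
    simp only [Matrix.mul_assoc]
  rw [e]
  refine (posSemidef_conjTranspose_mul_self _).trace_nonneg.lt_of_ne' fun h => h0 ?_
  rw [trace_conjTranspose_mul_self_eq_zero_iff, hB.star.mul_left_eq_zero,
    hB.mul_right_eq_zero] at h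
  exact h

end TRC

theorem p_TRC : S_TRC := by
  intro ι _ _ K hK hc
  let f : (Sym2 ι → ℝ) × (Sym2 ι → ℝ) → ℝ :=
    fun x => ((dm x.1)⁻¹ * dm x.2 * (dm x.1)⁻¹ * dm x.2).trace
  have hi : ContinuousOn (fun x : (Sym2 ι → ℝ) × (Sym2 ι → ℝ) => (dm x.1)⁻¹)
      (K ×ˢ Metric.sphere 0 1) := fun x hx =>
    ((continuousAt_matrix_inv _ (by
      rw [Ring.inverse_eq_inv']
      exact continuousAt_inv₀ (hK hx.1).det_pos.ne')).comp (f := fun x => dm (Prod.fst x))
      (continuous_dm.comp continuous_fst).continuousAt).continuousWithinAt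
  have hs := (continuous_dm.comp continuous_snd).continuousOn
    (s := (K ×ˢ Metric.sphere 0 1 : Set ((Sym2 ι → ℝ) × (Sym2 ι → ℝ))))
  have hf : ContinuousOn f (K ×ˢ Metric.sphere 0 1) :=
    (continuous_id.matrix_trace).comp_continuousOn (((hi.mul hs).mul hi).mul hs)
  obtain ⟨c, h0, h1⟩ := (hc.prod (isCompact_sphere 0 1)).exists_forall_le' hf (a := 0)
    fun x hx => TRC.pos (hK hx.1).inv (dm_isHermitian _) fun e => by
      have h2 : x.2 = 0 := dm_injective (e.trans (map_zero (dmL ι)).symm)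
      simpa [h2] using hx.2
  refine ⟨c / (Fintype.card (Sym2 ι) + 1), by positivity, fun t ht S => ?_⟩
  rcases eq_or_ne S 0 with rfl | hS
  · simp [show dm (0 : Sym2 ι → ℝ) = 0 from map_zero (dmL ι)]
  have hn : 0 < ‖S‖ := norm_pos_iff.2 hS
  have h2 := h1 (t, ‖S‖⁻¹ • S) ⟨ht, by simp [norm_smul, hn.ne']⟩
  simp only [f, dm_smul, Matrix.mul_smul, Matrix.smul_mul, trace_smul, smul_eq_mul] at h2
  have h3 : S ⬝ᵥ S ≤ (Fintype.card (Sym2 ι) + 1) * ‖S‖ ^ 2 := by
    have := Finset.sum_le_card_nsmul Finset.univ (fun a => S a * S a) (‖S‖ ^ 2) fun a _ => by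
      rw [← sq, ← sq_abs]
      exact pow_le_pow_left₀ (abs_nonneg _) (norm_le_pi_norm S a) 2
    rw [Finset.card_univ, nsmul_eq_mul] at this
    exact this.trans (by gcongr; linarith)
  rw [← mul_assoc, ← mul_inv, ← sq, le_inv_mul_iff₀ (by positivity)] at h2
  refine le_trans ?_ h2
  rw [div_mul_eq_mul_div, div_le_iff₀ (by positivity)]
  nlinarith [mul_le_mul_of_nonneg_left h3 h0.le]

end Pool.Agent.P.MP_59bdab_ag
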