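import Pool.Agent.P.MP_59bdab_ag.IfC

namespace Pool.Agent.P.MP_59bdab_ag

open Matrix MeasureTheory Filter Topology
open scoped ENNReal ContDiff

namespace WBD2

variable {κ : Type} [Fintype κ] [DecidableEq κ]

theorem expand (L : Finset (κ → ℝ)) (a : (κ → ℝ) → ℝ) :
    (∑ l ∈ L, a l • vecMulVec l l).det = ∑ f ∈ Fintype.piFinset fun _ : κ => L,
      (∏ i, a (f i)) * ((∏ i, f i i) * (Matrix.of f).det) := by
  have h1 : (∑ l ∈ L, a l • vecMulVec l l : Matrix κ κ ℝ) =
      fun i => ∑ l ∈ L, (a l * l i) • l := by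
    ext i j
    simp [Matrix.sum_apply, vecMulVec_apply, Finset.sum_apply, mul_assoc]
  have h2 := (detRowAlternating (n := κ) (R := ℝ)).toMultilinearMap.map_sum_finset
    (fun i l => (a l * l i) • l) fun _ => L
  rw [h1]
  refine h2.trans (Finset.sum_congr rfl fun f _ => ?_)
  rw [MultilinearMap.map_smul_univ, Finset.prod_mul_distrib, smul_eq_mul, mul_assoc]
  rfl

theorem integ (M : Matrix κ κ ℝ) (hM : M.det ≠ 0) :
    Integrable fun y : κ → ℝ => ∏ i, (1 + (M *ᵥ y) i ^ 2)⁻¹ := by
  have h1 : Integrable fun y : κ → ℝ => ∏ i, (1 + y i ^ 2)⁻¹ :=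
    Integrable.fintype_prod (f := fun _ x => (1 + x ^ 2)⁻¹) fun _ => integrable_inv_one_add_sq
  have h2 := h1.smul_measure (c := ENNReal.ofReal |M.det⁻¹|) ENNReal.ofReal_ne_top
  rw [← Real.map_matrix_volume_pi_eq_smul_volume_pi hM] at h2
  exact h2.comp_measurable (toLin' M).continuous_of_finiteDimensional.measurable

end WBD2

theorem p_WBD2 : S_WBD2 := by
  intro κ _ _ L
  refine ⟨?_, ?_, fun y => ?_⟩
  · simp only [Om, WBD2.expand]
    refine integrable_finset_sum _ fun f _ => ?_
    by_cases h : (Matrix.of f).det = 0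
    · simp [h]
    · exact (WBD2.integ _ h).mul_const _
  · refine Continuous.matrix_det (continuous_finset_sum _ fun l _ => ?_)
    have h : Continuous fun y : κ → ℝ => 1 + (l ⬝ᵥ y) ^ 2 := by
      unfold dotProduct
      fun_prop
    exact (h.inv₀ fun y => by positivity).smul continuous_const
  · refine PosSemidef.det_nonneg (posSemidef_sum _ fun l _ => PosSemidef.smul ?_ (by positivity))
    simpa using posSemidef_vecMulVec_self_star l

end Pool.Agent.P.MP_59bdab_ag
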