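import Pool.Agent.P.MP_59bdab_ag.IfC

/-!
Calculus of Wirtinger derivatives of smooth functions.
-/

namespace Pool.Agent.P.MP_59bdab_ag

open Matrix MeasureTheory Filter Topology
open scoped ENNReal ContDiff

namespace WD

variable {κ : Type} [Fintype κ] {u v : (κ → ℂ) → ℂ}

theorem df (hu : ContDiff ℝ ∞ u) (z : κ → ℂ) : DifferentiableAt ℝ u z :=
  hu.differentiable (by simp) z

theorem d_smooth (hu : ContDiff ℝ ∞ u) (x : κ → ℂ) : ContDiff ℝ ∞ fun z => fderiv ℝ u z x :=
  (hu.fderiv_right (m := ∞) le_rfl).clm_apply contDiff_const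

theorem d_d (hu : ContDiff ℝ ∞ u) (x y z : κ → ℂ) :
    fderiv ℝ (fun w => fderiv ℝ u w x) z y = fderiv ℝ (fderiv ℝ u) z y x := by
  rw [fderiv_clm_apply ((hu.fderiv_right (m := ∞) le_rfl).differentiable (by simp) z)
    (differentiableAt_const _)]
  simp

theorem d_comb (hu : ContDiff ℝ ∞ u) (hv : ContDiff ℝ ∞ v) (c : ℂ) (z x : κ → ℂ) :
    fderiv ℝ (fun w => (u w + c * v w) / 2) z x = (fderiv ℝ u z x + c * fderiv ℝ v z x) / 2 := by
  have h := (((df hu z).hasFDerivAt.add ((df hv z).hasFDerivAt.const_mul c)).mul_const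
    (2⁻¹ : ℂ)).fderiv
  simp only [div_eq_mul_inv]
  refine (congrArg (fun L : (κ → ℂ) →L[ℝ] ℂ => L x) h).trans ?_
  simp [mul_comm, mul_add]

theorem d_parts (hu : ContDiff ℝ ∞ u) (hv : ContDiff ℝ ∞ v) (hc : HasCompactSupport u)
    (x : κ → ℂ) : Integrable (fun z => fderiv ℝ u z x * v z) ∧
      Integrable (fun z => u z * fderiv ℝ v z x) ∧
      ∫ z, u z * fderiv ℝ v z x = -∫ z, fderiv ℝ u z x * v z := by
  have h1 : Integrable fun z => fderiv ℝ u z x * v z :=
    ((d_smooth hu x).continuous.mul hv.continuous).integrable_of_hasCompactSupport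
      (hc.fderiv_apply ℝ x).mul_right
  have h2 : Integrable fun z => u z * fderiv ℝ v z x :=
    (hu.continuous.mul (d_smooth hv x).continuous).integrable_of_hasCompactSupport hc.mul_right
  exact ⟨h1, h2, integral_mul_fderiv_eq_neg_fderiv_mul_of_integrable h1 h2
    ((hu.continuous.mul hv.continuous).integrable_of_hasCompactSupport hc.mul_right)
    (fun z _ => df hu z) fun z _ => df hv z⟩

variable [DecidableEq κ] (c : ℂ) (a : κ)

theorem wd_smooth (hu : ContDiff ℝ ∞ u) : ContDiff ℝ ∞ (wd c a u) :=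
  ((d_smooth hu _).add (contDiff_const.mul (d_smooth hu _))).div_const _

theorem d_wd (hu : ContDiff ℝ ∞ u) (z x : κ → ℂ) : fderiv ℝ (wd c a u) z x =
    (fderiv ℝ (fderiv ℝ u) z x (Pi.single a 1) +
      c * fderiv ℝ (fderiv ℝ u) z x (Pi.single a Complex.I)) / 2 := by
  rw [← d_d hu, ← d_d hu]
  exact d_comb (d_smooth hu _) (d_smooth hu _) c z x

theorem wd_comm (c' : ℂ) (b : κ) (hu : ContDiff ℝ ∞ u) :
    wd c a (wd c' b u) = wd c' b (wd c a u) := by
  funext z
  have h := (hu.contDiffAt (x := z)).isSymmSndFDerivAt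
    (by rw [minSmoothness_of_isRCLikeNormedField]; exact WithTop.coe_le_coe.2 le_top)
  rw [wd, wd, d_wd _ _ hu, d_wd _ _ hu, d_wd _ _ hu, d_wd _ _ hu,
    h (Pi.single a 1) (Pi.single b 1), h (Pi.single a 1) (Pi.single b Complex.I),
    h (Pi.single a Complex.I) (Pi.single b 1), h (Pi.single a Complex.I) (Pi.single b Complex.I)]
  ring

theorem wd_mul (hu : ContDiff ℝ ∞ u) (hv : ContDiff ℝ ∞ v) (z : κ → ℂ) :
    wd c a (fun y => u y * v y) z = wd c a u z * v z + u z * wd c a v z := by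
  simp only [wd, fderiv_fun_mul (df hu z) (df hv z), _root_.add_apply,
    _root_.smul_apply, smul_eq_mul]
  ring

theorem wd_prod (s : Finset κ) (u : κ → (κ → ℂ) → ℂ) (hu : ∀ i, ContDiff ℝ ∞ (u i)) (z : κ → ℂ) :
    wd c a (fun y => ∏ i ∈ s, u i y) z = ∑ i ∈ s, wd c a (u i) z * ∏ j ∈ s.erase i, u j z := by
  simp only [wd, fderiv_finsetProd fun i _ => df (hu i) z, _root_.sum_apply,
    _root_.smul_apply, smul_eq_mul, Finset.mul_sum, ← Finset.sum_add_distrib,
    Finset.sum_div]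
  exact Finset.sum_congr rfl fun i _ => by ring

omit [Fintype κ] in
theorem wd_supp (hc : HasCompactSupport u) : HasCompactSupport (wd c a u) := by
  refine (hc.fderiv ℝ).mono fun z hz h => hz ?_
  simp [wd, h]

theorem wd_parts (hu : ContDiff ℝ ∞ u) (hv : ContDiff ℝ ∞ v) (hc : HasCompactSupport u) :
    ∫ z, u z * wd c a v z = -∫ z, wd c a u z * v z := by
  obtain ⟨h1, h2, h3⟩ := d_parts hu hv hc (Pi.single a 1)
  obtain ⟨h4, h5, h6⟩ := d_parts hu hv hc (Pi.single a Complex.I)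
  have e1 : ∀ z, u z * wd c a v z = (u z * fderiv ℝ v z (Pi.single a 1) +
      c * (u z * fderiv ℝ v z (Pi.single a Complex.I))) / 2 := fun z => by rw [wd]; ring
  have e2 : ∀ z, wd c a u z * v z = (fderiv ℝ u z (Pi.single a 1) * v z +
      c * (fderiv ℝ u z (Pi.single a Complex.I) * v z)) / 2 := fun z => by rw [wd]; ring
  simp only [e1, e2, integral_div]
  rw [integral_add h2 (h5.const_mul c), integral_add h1 (h4.const_mul c), integral_const_mul,
    integral_const_mul, h3, h6]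
  ring

end WD

open WD in
theorem p_WD : S_WD := fun _ _ _ c a =>
  ⟨fun _ => wd_smooth c a, fun c' b _ => wd_comm c a c' b, fun _ _ => wd_mul c a, wd_prod c a,
    fun _ => wd_supp c a, fun _ _ => wd_parts c a, fun b _ hu =>
      wd_smooth _ a (wd_smooth _ b (Complex.ofRealCLM.contDiff.comp hu))⟩

end Pool.Agent.P.MP_59bdab_ag
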