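import Pool.Agent.P.MP_59bdab_ag.IfC

/-!
Algebra of the wedge coefficient.
-/

namespace Pool.Agent.P.MP_59bdab_ag

open Matrix Equiv

namespace WED

variable {κ : Type} [Fintype κ] [DecidableEq κ]

theorem upd (A : κ → Matrix κ κ ℂ) (l : κ) (X : Matrix κ κ ℂ) (σ τ : Perm κ) :
    ∏ m, Function.update A l X m (σ m) (τ m) =
      X (σ l) (τ l) * ∏ m ∈ Finset.univ.erase l, A m (σ m) (τ m) := by
  rw [← Finset.mul_prod_erase _ _ (Finset.mem_univ l), Function.update_self]
  congr 1
  exact Finset.prod_congr rfl fun m hm => by rw [Function.update_of_ne (Finset.ne_of_mem_erase hm)]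

theorem eq_det (A : κ → Matrix κ κ ℂ) : wedge A =
    ∑ σ : Perm κ, ((Perm.sign σ : ℤ) : ℂ) * (Matrix.of fun j l => A l (σ l) j).det := by
  refine Finset.sum_congr rfl fun σ _ => ?_
  rw [det_apply', Finset.mul_sum]
  exact Finset.sum_congr rfl fun τ _ => by simp [mul_assoc]

theorem sgn_sq (σ : Perm κ) : ((Perm.sign σ : ℤ) : ℂ) * ((Perm.sign σ : ℤ) : ℂ) = 1 := by
  rw [← Int.cast_mul, ← Units.val_mul, Int.units_mul_self]; simp

theorem right (A : κ → Matrix κ κ ℂ) (Q : Matrix κ κ ℂ) :
    (wedge fun l => A l * Q) = Q.det * wedge A := by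
  rw [eq_det, eq_det, Finset.mul_sum]
  refine Finset.sum_congr rfl fun σ _ => ?_
  have : (Matrix.of fun j l => (A l * Q) (σ l) j) = Qᵀ * Matrix.of fun j l => A l (σ l) j := by
    ext j l
    simp [Matrix.mul_apply, mul_comm]
  rw [this, det_mul, det_transpose]
  ring

theorem transp (A : κ → Matrix κ κ ℂ) : (wedge fun l => (A l)ᵀ) = wedge A := by
  unfold wedge
  rw [Finset.sum_comm]
  exact Finset.sum_congr rfl fun σ _ => Finset.sum_congr rfl fun τ _ => by
    simp only [transpose_apply]; ring

theorem left (A : κ → Matrix κ κ ℂ) (P : Matrix κ κ ℂ) :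
    (wedge fun l => P * A l) = P.det * wedge A := by
  rw [← transp, ← transp A, ← det_transpose, ← right]
  simp only [transpose_mul]

theorem comp (A : κ → Matrix κ κ ℂ) (e : Perm κ) : (wedge fun l => A (e l)) = wedge A := by
  unfold wedge
  rw [← Equiv.sum_comp (Equiv.mulRight e)]
  refine Finset.sum_congr rfl fun σ _ => ?_
  rw [← Equiv.sum_comp (Equiv.mulRight e)]
  refine Finset.sum_congr rfl fun τ _ => ?_
  have := Equiv.prod_comp e fun l => A l (σ l) (τ l)
  simp only [coe_mulRight, Perm.sign_mul, Units.val_mul, Int.cast_mul, Perm.coe_mul,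
    Function.comp_apply, this]
  linear_combination (((Perm.sign σ : ℤ) : ℂ) * ((Perm.sign τ : ℤ) : ℂ) *
    ∏ l, A l (σ l) (τ l)) * sgn_sq e

end WED

open WED in
theorem p_WED : S_WED := by
  intro κ _ _
  refine ⟨fun A l x B C => ?_, fun A l I s B => ?_, fun A => ?_, fun A P Q => ?_,
    fun A B x => ?_, fun A B S T h => ?_, fun A C h => ?_, fun A l h => ?_, ?_⟩
  · simp only [wedge, upd, Finset.mul_sum, ← Finset.sum_add_distrib, Matrix.add_apply,
      Matrix.smul_apply, smul_eq_mul]
    exact Finset.sum_congr rfl fun σ _ => Finset.sum_congr rfl fun τ _ => by ring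
  · simp only [wedge, upd, Matrix.sum_apply, Finset.sum_mul, Finset.mul_sum]
    rw [Finset.sum_comm (s := s)]
    exact Finset.sum_congr rfl fun σ _ => Finset.sum_comm
  · rw [eq_det]
    have : ∀ σ : Perm κ, ((Perm.sign σ : ℤ) : ℂ) * (Matrix.of fun j l => A (σ l) j).det =
        A.det := fun σ => by
      have e : (Matrix.of fun j l => A (σ l) j) = Aᵀ.submatrix id σ := rfl
      rw [e, det_permute', det_transpose, ← mul_assoc, sgn_sq, one_mul]
    simp [this, Fintype.card_perm]
  · rw [right (fun l => P * A l), left]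
    ring
  · simp only [wedge, Matrix.add_apply, Matrix.smul_apply, smul_eq_mul, Fintype.prod_add,
      Finset.mul_sum]
    rw [Finset.sum_comm (s := (Finset.univ : Finset (Finset κ)))]
    refine Finset.sum_congr rfl fun σ _ => ?_
    rw [Finset.sum_comm]
    refine Finset.sum_congr rfl fun S _ => Finset.sum_congr rfl fun τ _ => ?_
    have : ∏ l, (if l ∈ S then B else A) (σ l) (τ l) =
        (∏ l ∈ S, B (σ l) (τ l)) * ∏ l ∈ Sᶜ, A (σ l) (τ l) := by
      rw [← Finset.prod_mul_prod_compl S]
      congr 1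
      · exact Finset.prod_congr rfl fun l hl => by rw [if_pos hl]
      · exact Finset.prod_congr rfl fun l hl => by rw [if_neg (Finset.mem_compl.1 hl)]
    rw [this, Finset.prod_mul_distrib, Finset.prod_const]
    ring
  · obtain ⟨e, he⟩ := Equiv.Perm.exists_map_finset_eq S T h
    rw [← comp (fun l => if l ∈ T then B else A) e]
    simp [← he]
  · have h1 : ∀ σ : Perm κ, ‖((Perm.sign σ : ℤ) : ℂ)‖ = 1 := fun σ => by
      rcases Int.units_eq_one_or (Perm.sign σ) with e | e <;> simp [e]
    calc ‖wedge A‖ ≤ ∑ _σ : Perm κ, ∑ _τ : Perm κ, ∏ l, C l := by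
          refine (norm_sum_le _ _).trans (Finset.sum_le_sum fun σ _ =>
            (norm_sum_le _ _).trans (Finset.sum_le_sum fun τ _ => ?_))
          rw [norm_mul, norm_mul, h1, h1, one_mul, one_mul, norm_prod]
          exact Finset.prod_le_prod (fun _ _ => norm_nonneg _) fun l _ => h l _ _
      _ = _ := by
          simp only [Finset.sum_const, Finset.card_univ, Fintype.card_perm, nsmul_eq_mul]
          ring
  · refine Finset.sum_eq_zero fun σ _ => Finset.sum_eq_zero fun τ _ => ?_
    rw [Finset.prod_eq_zero (Finset.mem_univ l) (by simp [h]), mul_zero]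
  · unfold wedge
    fun_prop

end Pool.Agent.P.MP_59bdab_ag
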