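import Pool.Agent.P.MP_59bdab_ag.IfC

/-! Weights for group actions and complex integrals. -/

open MeasureTheory
open scoped ENNReal

namespace Pool.Agent.P.MP_59bdab_ag

theorem p_WTC (hWT : S_WT) : S_WTC := by
  intro G X _ _ _ _ _ μ _ w hw
  obtain ⟨h1, h2, -⟩ := hWT G X μ w hw
  have hm : ∀ γ : G, Measurable fun x : X => γ • x := fun γ => measurable_const_smul γ
  refine ⟨fun R hR hx => ?_, fun x => ?_, fun w' φ hw' hφ hi => ?_, fun φ hφ hi => ?_⟩
  · classical
    obtain ⟨e, he⟩ := exists_surjective_nat G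
    have hk : ∀ x : X, ∃ k, e k • x ∈ R := fun x => by
      obtain ⟨γ, h⟩ := hx x
      obtain ⟨k, rfl⟩ := he γ
      exact ⟨k, h⟩
    have hmk : Measurable fun x => Nat.find (hk x) := measurable_find hk fun k => hm _ hR
    let f : ℕ → X → ℝ≥0∞ := fun k => ((fun x => Nat.find (hk x)) ⁻¹' {k}).indicator w
    refine ⟨fun y => ∑' k, f k ((e k)⁻¹ • y), ⟨Measurable.tsum fun k =>
      (hw.1.indicator (hmk (measurableSet_singleton k))).comp (hm _), fun y => ?_⟩,
      fun y hy => ENNReal.tsum_eq_zero.2 fun k => Set.indicator_of_notMem (fun h => hy ?_) _⟩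
    · have h3 : ∀ k, ∑' γ : G, f k ((e k)⁻¹ • γ • y) = ∑' γ : G, f k (γ • y) := fun k => by
        simp only [smul_smul]
        exact (Equiv.mulLeft (e k)⁻¹).tsum_eq fun γ => f k (γ • y)
      rw [ENNReal.tsum_comm, tsum_congr h3, ENNReal.tsum_comm, ← hw.2 y]
      refine tsum_congr fun γ => (tsum_eq_single (Nat.find (hk (γ • y))) fun k h => ?_).trans ?_
      · exact Set.indicator_of_notMem (a := γ • y) (fun h' => h (Eq.symm h')) w
      · exact Set.indicator_of_mem (Set.mem_preimage.2 (Set.mem_singleton _)) w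
    · have h3 := Nat.find_spec (hk ((e k)⁻¹ • y))
      rwa [show Nat.find _ = k from h, smul_inv_smul] at h3
  · simpa [hw.2 x] using ENNReal.le_tsum (f := fun γ : G => w (γ • x)) 1
  · have h3 : (μ.withDensity w).map φ = (μ.withDensity w').map φ := by
      ext s hs
      have h4 := h2 w' ((φ ⁻¹' s).indicator 1) hw' (measurable_one.indicator (hφ hs)) fun γ x =>
        congrArg (s.indicator (1 : ℂ → ℝ≥0∞)) (hi γ x)
      simp only [← Set.indicator_mul_left, Pi.one_apply, one_mul] at h4
      rw [Measure.map_apply hφ hs, Measure.map_apply hφ hs, withDensity_apply _ (hφ hs),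
        withDensity_apply _ (hφ hs), ← lintegral_indicator (hφ hs), ← lintegral_indicator (hφ hs)]
      exact h4
    have h4 : ∀ ν : Measure X, (Integrable φ ν ↔ Integrable id (ν.map φ)) ∧
        ∫ x, φ x ∂ν = ∫ z, z ∂ν.map φ := fun ν =>
      ⟨(integrable_map_measure aestronglyMeasurable_id hφ.aemeasurable).symm,
        (integral_map hφ.aemeasurable aestronglyMeasurable_id).symm⟩
    rw [(h4 _).1, (h4 _).1, (h4 _).2, (h4 _).2, h3]
    exact ⟨Iff.rfl, rfl⟩
  · have h3 : ∀ ψ : X → ℝ≥0∞, Measurable ψ →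
        ∫⁻ x, ψ x ∂μ = ∑' γ : G, ∫⁻ x, ψ (γ • x) ∂μ.withDensity w := fun ψ hψ => by
      have h4 : ∀ γ : G, Measurable fun x => ψ (γ • x) := fun γ => hψ.comp (hm γ)
      rw [h1 ψ hψ, ← lintegral_tsum fun γ => (h4 γ).aemeasurable,
        lintegral_withDensity_eq_lintegral_mul _ hw.1 (Measurable.tsum h4)]
      simp only [Pi.mul_apply, mul_comm]
    have h4 : μ = Measure.sum fun γ : G => (μ.withDensity w).map (γ • ·) := by
      ext s hs
      rw [Measure.sum_apply _ hs, ← lintegral_indicator_one hs, h3 _ (measurable_one.indicator hs)]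
      refine tsum_congr fun γ => ?_
      rw [Measure.map_apply (hm γ) hs, ← lintegral_indicator_one (hm γ hs)]
      rfl
    rw [integral_tsum (f := fun (γ : G) x => φ (γ • x))
      (fun γ => (hφ.comp (hm γ)).aestronglyMeasurable)
      (by rw [← h3 _ hφ.enorm]; exact hi.2.ne)]
    refine Eq.trans (congrArg (fun ν => ∫ x, φ x ∂ν) h4) ?_
    rw [integral_sum_measure (h4 ▸ hi)]
    exact tsum_congr fun γ => integral_map (hm γ).aemeasurable hφ.aestronglyMeasurable

end Pool.Agent.P.MP_59bdab_ag
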