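import Pool.Agent.P.MP_59bdab_ag.Glue
import Pool.Agent.P.MP_59bdab_ag.AMB
import Pool.Agent.P.MP_59bdab_ag.BAR
import Pool.Agent.P.MP_59bdab_ag.BMP
import Pool.Agent.P.MP_59bdab_ag.CHV
import Pool.Agent.P.MP_59bdab_ag.COV
import Pool.Agent.P.MP_59bdab_ag.CSI
import Pool.Agent.P.MP_59bdab_ag.CW
import Pool.Agent.P.MP_59bdab_ag.CW1
import Pool.Agent.P.MP_59bdab_ag.DEEP
import Pool.Agent.P.MP_59bdab_ag.EXH
import Pool.Agent.P.MP_59bdab_ag.EXM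
import Pool.Agent.P.MP_59bdab_ag.FD1
import Pool.Agent.P.MP_59bdab_ag.FD2
import Pool.Agent.P.MP_59bdab_ag.FIN
import Pool.Agent.P.MP_59bdab_ag.FLAT1
import Pool.Agent.P.MP_59bdab_ag.FLAT2
import Pool.Agent.P.MP_59bdab_ag.FLAT3
import Pool.Agent.P.MP_59bdab_ag.GRD
import Pool.Agent.P.MP_59bdab_ag.HESS
import Pool.Agent.P.MP_59bdab_ag.INT
import Pool.Agent.P.MP_59bdab_ag.INVD
import Pool.Agent.P.MP_59bdab_ag.ISOL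
import Pool.Agent.P.MP_59bdab_ag.LEG1
import Pool.Agent.P.MP_59bdab_ag.LEG2
import Pool.Agent.P.MP_59bdab_ag.LEG3
import Pool.Agent.P.MP_59bdab_ag.LEVI1
import Pool.Agent.P.MP_59bdab_ag.LEVI2
import Pool.Agent.P.MP_59bdab_ag.LEVI3
import Pool.Agent.P.MP_59bdab_ag.LFS
import Pool.Agent.P.MP_59bdab_ag.LOCE
import Pool.Agent.P.MP_59bdab_ag.MA
import Pool.Agent.P.MP_59bdab_ag.MASS
import Pool.Agent.P.MP_59bdab_ag.MOV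
import Pool.Agent.P.MP_59bdab_ag.MW
import Pool.Agent.P.MP_59bdab_ag.NULL
import Pool.Agent.P.MP_59bdab_ag.PART
import Pool.Agent.P.MP_59bdab_ag.PIO
import Pool.Agent.P.MP_59bdab_ag.PM
import Pool.Agent.P.MP_59bdab_ag.POT
import Pool.Agent.P.MP_59bdab_ag.PQ
import Pool.Agent.P.MP_59bdab_ag.RED
import Pool.Agent.P.MP_59bdab_ag.REG1
import Pool.Agent.P.MP_59bdab_ag.REG2
import Pool.Agent.P.MP_59bdab_ag.REG3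
import Pool.Agent.P.MP_59bdab_ag.REGB
import Pool.Agent.P.MP_59bdab_ag.RYP
import Pool.Agent.P.MP_59bdab_ag.SMV
import Pool.Agent.P.MP_59bdab_ag.SPL
import Pool.Agent.P.MP_59bdab_ag.STK
import Pool.Agent.P.MP_59bdab_ag.STK0
import Pool.Agent.P.MP_59bdab_ag.SWAP
import Pool.Agent.P.MP_59bdab_ag.SWAP0
import Pool.Agent.P.MP_59bdab_ag.TEL
import Pool.Agent.P.MP_59bdab_ag.TRC
import Pool.Agent.P.MP_59bdab_ag.WBD1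
import Pool.Agent.P.MP_59bdab_ag.WBD2
import Pool.Agent.P.MP_59bdab_ag.WD
import Pool.Agent.P.MP_59bdab_ag.WED
import Pool.Agent.P.MP_59bdab_ag.WTC

namespace Pool.Agent.P.MP_59bdab_ag

theorem t_BAR : S_BAR := p_BAR
theorem t_RYP : S_RYP := p_RYP t_HERM
theorem t_LEG1 : S_LEG1 := p_LEG1 t_RYP
theorem t_TRC : S_TRC := p_TRC
theorem t_LEG2 : S_LEG2 := p_LEG2 t_LEG1 t_RYP t_TRC
theorem t_LEG3 : S_LEG3 := p_LEG3 t_LEG1 t_LEG2 t_RYP t_TRC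
theorem t_FLAT1 : S_FLAT1 := p_FLAT1 t_LEG1 t_LEG3 t_RYP
theorem t_MOV : S_MOV := p_MOV
theorem t_FLAT2 : S_FLAT2 := p_FLAT2 t_FLAT1 t_MOV t_Q t_RYP t_LEG1
theorem t_ISOL : S_ISOL := p_ISOL t_LAG t_ORB t_Q t_QC t_MAH
theorem t_FLAT3 : S_FLAT3 := p_FLAT3 t_FLAT1 t_FLAT2 t_MOV t_ISOL t_Q t_RYP
theorem t_WED : S_WED := p_WED
theorem t_LEVI1 : S_LEVI1 := p_LEVI1
theorem t_LEVI2 : S_LEVI2 := p_LEVI2 t_LEVI1
theorem t_INVD : S_INVD := p_INVD t_WED t_LEVI1 t_LEVI2 t_DET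
theorem t_POT : S_POT := p_POT t_FLAT3 t_ISOL t_INVD t_LEG3
theorem t_REG1 : S_REG1 := p_REG1 t_LEVI1 t_LEVI2 t_RYP
theorem t_REG2 : S_REG2 := p_REG2 t_FLAT1 t_RYP
theorem t_REGB : S_REGB := p_REGB t_FLAT1 t_RYP t_LEG1
theorem t_LEVI3 : S_LEVI3 := p_LEVI3 t_LEVI1
theorem t_LOCE : S_LOCE := p_LOCE t_REG1 t_REG2 t_REGB t_LEVI1 t_LEVI3
theorem t_GRD : S_GRD := p_GRD
theorem t_HESS : S_HESS := p_HESS t_LEG1 t_LEG3 t_RYP t_TRC t_GRD t_LEVI3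
theorem t_REG3 : S_REG3 := p_REG3 t_LOCE t_FLAT1 t_FLAT3 t_ISOL t_HESS t_LEG1 t_LEVI1 t_Q
theorem t_EXH : S_EXH := p_EXH t_LEVI3
theorem t_WBD1 : S_WBD1 := p_WBD1 t_WED
theorem t_WBD2 : S_WBD2 := p_WBD2
theorem t_WTC : S_WTC := p_WTC t_WT
theorem t_AMB : S_AMB := p_AMB
theorem t_INT : S_INT := p_INT t_WBD1 t_WBD2 t_WTC t_INVD t_AMB t_PROP t_MEAS
theorem t_PART : S_PART := p_PART t_QC t_INVD
theorem t_WD : S_WD := p_WD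
theorem t_PIO : S_PIO := p_PIO t_WD
theorem t_STK0 : S_STK0 := p_STK0 t_WD t_PIO
theorem t_STK : S_STK := p_STK t_STK0 t_LEVI1 t_WED
theorem t_SWAP0 : S_SWAP0 := p_SWAP0 t_PART t_STK t_AMB t_WTC t_INVD t_WED t_LEVI1 t_MEAS t_QC
theorem t_SWAP : S_SWAP := p_SWAP t_SWAP0 t_INT t_WTC t_INVD t_LEVI3 t_MEAS
theorem t_TEL : S_TEL := p_TEL t_SWAP t_INT t_WED t_LEVI1
theorem t_CHV : S_CHV := p_CHV t_FLAT1 t_LEG3 t_RYP t_INV t_MEAS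
theorem t_MA : S_MA := p_MA t_LEG1 t_LEG3 t_TRC t_RYP t_LEVI3 t_WED
theorem t_MASS : S_MASS := p_MASS t_CHV t_MA t_FLAT1 t_FLAT2 t_FLAT3 t_ISOL t_WTC t_WT t_INVD t_LEVI1 t_RYP t_MEAS
theorem t_NUL : S_NUL := p_NUL t_POLY t_SV t_FINW t_VFIN t_PROP t_Q t_ISOL
theorem t_CW1 : S_CW1 := p_CW1 t_BAR t_POT t_REG1 t_REG3 t_EXH t_INT t_TEL t_MASS t_NUL t_WED t_LEVI1
theorem t_CW : S_CW := p_CW t_CW1 t_WED
theorem t_FD1 : S_FD1 := p_FD1 t_Q t_QC t_PROP t_MEAS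
theorem t_FD2 : S_FD2 := p_FD2 t_WT t_PROP t_MEAS
theorem t_SMV : S_SMV := p_SMV t_RYP
theorem t_MW : S_MW := p_MW
theorem t_SPL : S_SPL := p_SPL t_MW t_EXT
theorem t_DEEP : S_DEEP := p_DEEP t_MW t_SPL
theorem t_BMP : S_BMP := p_BMP t_SMV t_DEEP
theorem t_PM : S_PM := p_PM t_Q
theorem t_PQ : S_PQ := p_PQ t_RYP t_PM t_MOV t_Q
theorem t_CSI : S_CSI := p_CSI t_PQ t_MOV t_RYP
theorem t_RED : S_RED := p_RED t_SPL t_SMV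
theorem t_LFS : S_LFS := p_LFS t_SMV t_RED t_DEEP t_PQ t_CSI t_MOV t_INVD t_RYP
theorem t_COV : S_COV := p_COV t_BAR t_REG2 t_FLAT1 t_FLAT3 t_Q
theorem t_EXM : S_EXM := p_EXM t_BMP t_CSI t_LFS t_COV t_SMV t_RYP
theorem t_FIN : S_FIN := p_FIN t_CW t_FD1 t_FD2 t_EXM t_AMB t_INVD t_REG1 t_PROP

end Pool.Agent.P.MP_59bdab_ag
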