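import Pool.Agent.P.MP_59bdab_ag.IfC

/-!
Short vectors span an isotropic sublattice.
-/

namespace Pool.Agent.P.MP_59bdab_ag

open Matrix MeasureTheory Filter Topology

namespace ISOL

variable {ι : Type} [Fintype ι] [DecidableEq ι]

theorem om_anti (u v : ι ⊕ ι → ℤ) : om u v = -om v u := by
  rw [om, om, dotProduct_mulVec, ← mulVec_transpose, J_transpose, neg_mulVec, neg_dotProduct,
    dotProduct_comm]

theorem cancel (γ : SpZ ι) (v : ι ⊕ ι → ℤ) : γ.1 *ᵥ (γ⁻¹).1 *ᵥ v = v := by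
  rw [mulVec_mulVec, ← Submonoid.coe_mul, mul_inv_cancel, Submonoid.coe_one, one_mulVec]

theorem lag (hLAG : S_LAG) (A : Set (ι ⊕ ι → ℤ)) (hA : ∀ u ∈ A, ∀ v ∈ A, om u v = 0) :
    ∃ γ : SpZ ι, ∀ v ∈ A, ∀ i, (γ.1 *ᵥ v) (Sum.inr i) = 0 := by
  obtain ⟨-, -, -, -, h5, h6⟩ := hLAG ι
  let L : Submodule ℤ (ι ⊕ ι → ℤ) :=
    { carrier := {x | ∀ u, (∀ a ∈ A, om a u = 0) → om x u = 0}
      zero_mem' := fun u _ => zero_dotProduct _
      add_mem' := fun {x y} hx hy u hu => by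
        rw [om, add_dotProduct, ← om, ← om, hx u hu, hy u hu, add_zero]
      smul_mem' := fun c x hx u hu => by
        rw [om, smul_dotProduct, ← om, hx u hu, smul_zero] }
  let b := Module.finBasis ℤ L
  have hI : Iso fun a => (b a).1 := fun a a' => (b a).2 _ fun x hx => by
    rw [om_anti, (b a').2 x fun y hy => hA y hy x hx, neg_zero]
  have hL : LinearIndependent ℤ fun a => (b a).1 :=
    b.linearIndependent.map' L.subtype L.ker_subtype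
  have hS : ∀ x : L, x.1 = ∑ a, b.repr x a • (b a).1 := fun x =>
    (congrArg L.subtype (b.sum_repr x)).symm.trans (map_sum L.subtype _ _)
  have hP : Prim fun a => (b a).1 := fun c hc a => by
    choose x hx using hc
    have h1 : x ∈ L := fun u hu => by
      have h2 : ((om x u : ℤ) : ℚ) = ∑ a, c a * (om (b a).1 u : ℤ) := by
        simp only [om, dotProduct, Int.cast_sum, Int.cast_mul, ← hx, Finset.sum_mul,
          Finset.mul_sum, mul_assoc]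
        exact Finset.sum_comm
      simpa [fun a => (b a).2 u hu] using h2
    refine ⟨b.repr ⟨x, h1⟩ a, Fintype.linearIndependent_iffₛ.1
      ((linearIndependent_algebraMap_comp_iff (S := ℚ)).2 hL) c
      (fun a => (b.repr ⟨x, h1⟩ a : ℤ)) (funext fun i => ?_) a⟩
    have h2 := congrArg (fun y : ι ⊕ ι → ℤ => (y i : ℚ)) (hS ⟨x, h1⟩)
    simpa [← hx] using h2
  obtain ⟨e⟩ := Function.Embedding.nonempty_of_card_le (h5 _ _ hL hI)
  obtain ⟨γ, hγ⟩ := (h6 _ e _).1 ⟨hP, hI⟩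
  refine ⟨γ⁻¹, fun v hv i => ?_⟩
  have h1 : ∀ a, (γ⁻¹).1 *ᵥ (b a).1 = ev (e a) := fun a => by
    have := cancel γ⁻¹ (ev (e a))
    rwa [inv_inv, congrFun hγ a] at this
  rw [show v = _ from hS ⟨v, fun u hu => hu v hv⟩, mulVec_sum]
  simp only [mulVec_smul, h1]
  simp [ev]

theorem fin (hQC : S_QC) {K : Set (HH ι)} (hK : IsCompact K) (s : ℝ) :
    {v : ι ⊕ ι → ℤ | ∃ Z ∈ K, qf (Qm Z) v ≤ s}.Finite := by
  obtain ⟨c, hc, h⟩ := (hQC ι).2.1 K hK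
  refine (Set.finite_Icc (fun _ => -⌈s / c⌉) fun _ => ⌈s / c⌉).subset ?_
  rintro v ⟨Z, hZ, hv⟩
  have h1 : ∀ i, v i ^ 2 ≤ ⌈s / c⌉ := fun i => by
    have h2 : cz v i * cz v i ≤ cz v ⬝ᵥ cz v :=
      Finset.single_le_sum (f := fun i => cz v i * cz v i) (fun _ _ => mul_self_nonneg _)
        (Finset.mem_univ i)
    have h3 := (h2.trans ((le_div_iff₀' hc).2 ((h Z hZ _).trans hv))).trans (Int.le_ceil _)
    rw [sq]
    unfold cz at h3
    exact_mod_cast h3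
  exact ⟨fun i => neg_le.1 ((Int.le_self_sq _).trans ((neg_sq _).trans_le (h1 i))),
    fun i => (Int.le_self_sq _).trans (h1 i)⟩

theorem cont (hQ : S_Q) (v : ι ⊕ ι → ℤ) : Continuous fun Z : HH ι => qf (Qm Z) v :=
  continuous_const.dotProduct ((hQ ι).2.2.2.2.2.1.matrix_mulVec continuous_const)

theorem opn (hQ : S_Q) (hQC : S_QC) (P : (ι ⊕ ι → ℤ) → Prop) (s : ℝ) :
    IsOpen {Z : HH ι | ∀ v, P v → s < qf (Qm Z) v} := by
  refine isOpen_iff_mem_nhds.2 fun W hW => ?_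
  obtain ⟨K, hK, hW'⟩ := exists_compact_mem_nhds W
  have h1 := (eventually_all_finite (l := 𝓝 W) (p := fun v Z => P v → s < qf (Qm Z) v)
    (fin hQC hK s)).2 fun v _ => eventually_imp_distrib_left.2 fun hv =>
      (isOpen_lt continuous_const (cont hQ v)).mem_nhds (hW v hv)
  filter_upwards [h1, hW'] with Z h2 hZ v hv
  exact lt_of_not_ge fun h => (h2 v ⟨Z, hZ, h⟩ hv).not_ge h

theorem iso (hQ : S_Q) (Z : HH ι) : ∀ u ∈ {v | qf (Qm Z) v < 1}, ∀ v ∈ {v | qf (Qm Z) v < 1},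
    om u v = 0 := fun u hu v hv => by
  obtain ⟨-, -, -, -, h5, -, -, h8, -⟩ := hQ ι
  by_contra h
  have h1 : 0 < qf (Qm Z) v := h8 Z v (by
    rintro rfl
    exact h (by rw [om, mulVec_zero, dotProduct_zero]))
  have h2 : (1 : ℝ) ≤ (om u v : ℝ) ^ 2 := by
    exact_mod_cast (one_le_sq_iff_one_le_abs _).2 (Int.one_le_abs h)
  exact (h2.trans (h5 Z u v)).not_gt (mul_lt_one_of_nonneg_of_lt_one_right (le_of_lt hu) h1.le hv)

theorem mem (hQ : S_Q) (Z : HH ι) (γ : SpZ ι)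
    (h : ∀ v ∈ {v | qf (Qm Z) v < 1}, ∀ i, (γ.1 *ᵥ v) (Sum.inr i) = 0) : γ • Z ∈ NN ι := by
  rintro v ⟨i, hi⟩
  rw [← cancel γ v] at hi ⊢
  rw [(hQ ι).2.2.1]
  exact le_of_not_gt fun h' => hi (h _ h' i)

theorem inv (hQ : S_Q) {s : ℝ} (γ : SpZ ι) {Z : HH ι} (h : Z ∈ HG ι s) : γ • Z ∈ HG ι s := by
  intro v hv
  rw [← cancel γ v] at hv ⊢
  rw [(hQ ι).2.2.1]
  exact h _ fun h' => hv (by rw [h', mulVec_zero])

end ISOL

open ISOL in
theorem p_ISOL (hLAG : S_LAG) (hORB : S_ORB) (hQ : S_Q) (hQC : S_QC) (hMAH : S_MAH) : S_ISOL := by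
  intro ι _ _
  refine ⟨lag hLAG, fun Z => (lag hLAG _ (iso hQ Z)).imp (mem hQ Z), fun s hs => ?_,
    fun s => ⟨opn hQ hQC _ s, opn hQ hQC _ s⟩, fun s γ Z =>
      ⟨fun h => inv_smul_smul γ Z ▸ inv hQ γ⁻¹ h, inv hQ γ⟩⟩
  obtain ⟨K, hK, h⟩ := (hMAH ι).1 s hs
  choose! g hg using lag (ι := ι) hLAG
  refine ⟨(⋃ A ∈ 𝒫 {v | ∃ Z ∈ K, qf (Qm Z) v ≤ 1}, (g A • ·) '' K) ∩ NN ι,
    Set.inter_subset_right, IsCompact.inter_right ((fin hQC hK 1).powerset.isCompact_biUnion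
      fun A _ => hK.image (continuous_const_smul _)) ?_, fun Z hZ => ?_⟩
  · simp only [NN, Set.setOf_forall]
    exact isClosed_iInter fun v => isClosed_iInter fun _ =>
      isClosed_le continuous_const (cont hQ v)
  · obtain ⟨γ, hγ⟩ := h Z hZ
    refine ⟨g {v | qf (Qm (γ • Z)) v < 1} * γ, ?_⟩
    rw [mul_smul]
    exact ⟨Set.mem_biUnion (fun v hv => ⟨_, hγ, le_of_lt hv⟩) ⟨_, hγ, rfl⟩,
      mem hQ _ _ (hg _ (iso hQ _))⟩

end Pool.Agent.P.MP_59bdab_ag
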