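import Pool.Agent.P.MP_59bdab_ag.Pre

/-!
Statements of the first group: measure theory, one variable analysis, lattices.
-/

namespace Pool.Agent.P.MP_59bdab_ag

open Matrix MeasureTheory Filter Topology
open scoped ENNReal ComplexOrder

/-- Unfolding, independence of the weight, unfolding along an orbit. -/
def S_WT : Prop := ∀ (G X : Type) [Group G] [Countable G] [MulAction G X] [MeasurableSpace X]
    [MeasurableConstSMul G X] (μ : Measure X) [SMulInvariantMeasure G X μ] (w : X → ℝ≥0∞),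
    IsWt G X w →
    (∀ φ : X → ℝ≥0∞, Measurable φ → ∫⁻ x, φ x ∂μ = ∫⁻ x, (∑' γ : G, φ (γ • x)) * w x ∂μ) ∧
    (∀ w' φ : X → ℝ≥0∞, IsWt G X w' → Measurable φ → (∀ (γ : G) x, φ (γ • x) = φ x) →
      ∫⁻ x, φ x * w x ∂μ = ∫⁻ x, φ x * w' x ∂μ) ∧
    (∀ (Y : Type) (a : G → Y → Y) (e : Y) (O : Set Y) (H : Subgroup G) (w' : X → ℝ≥0∞)
      (Φ : X → Y → ℝ≥0∞), (∀ y, a 1 y = y) → (∀ γ δ y, a (γ * δ) y = a γ (a δ y)) →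
      (∀ y, y ∈ O ↔ ∃ γ, a γ e = y) → (∀ γ, γ ∈ H ↔ a γ e = e) → IsWt H X w' →
      (∀ y, Measurable fun x => Φ x y) → (∀ (γ : G) x y, Φ (γ • x) (a γ y) = Φ x y) →
      ∫⁻ x, Φ x e * w' x ∂μ = ∫⁻ x, (∑' y : O, Φ x y) * w x ∂μ)

/-- Existence of a weight for a properly discontinuous action. -/
def S_WEX : Prop := ∀ (G X : Type) [Group G] [Countable G] [MulAction G X] [TopologicalSpace X]
    [T2Space X] [SigmaCompactSpace X] [MeasurableSpace X] [BorelSpace X]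
    [ContinuousConstSMul G X],
    (∀ K : Set X, IsCompact K → {γ : G | ∃ x ∈ K, γ • x ∈ K}.Finite) → ∃ w, IsWt G X w

/-- Dimension upper bound through the Bergman function. -/
def S_DIMU : Prop := ∀ (E X : Type) [AddCommGroup E] [Module ℂ E] [MeasurableSpace X]
    (ν : Measure X) (V : Submodule ℂ E) (T : E →ₗ[ℂ] (X → ℂ)) (b : X → ℝ≥0∞),
    (∀ f ∈ V, T f = 0 → f = 0) → (∀ f ∈ V, Measurable (T f)) →
    (∀ f ∈ V, ∫⁻ x, ‖T f x‖ₑ ^ 2 ∂ν ≠ ⊤) →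
    (∀ f ∈ V, ∀ x, ‖T f x‖ₑ ^ 2 ≤ b x * ∫⁻ y, ‖T f y‖ₑ ^ 2 ∂ν) → ∫⁻ x, b x ∂ν ≠ ⊤ →
    FiniteDimensional ℂ V ∧ (Module.finrank ℂ V : ℝ≥0∞) ≤ ∫⁻ x, b x ∂ν

/-- Dimension lower bound through the Bergman function. -/
def S_DIML : Prop := ∀ (E X : Type) [AddCommGroup E] [Module ℂ E] [MeasurableSpace X]
    (ν : Measure X) (V : Submodule ℂ E) [FiniteDimensional ℂ V] (T : E →ₗ[ℂ] (X → ℂ))
    (b : X → ℝ≥0∞), (∀ f ∈ V, Measurable (T f)) →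
    (∀ f ∈ V, ∫⁻ x, ‖T f x‖ₑ ^ 2 ∂ν ≠ ⊤) →
    (∀ f ∈ V, ∫⁻ x, ‖T f x‖ₑ ^ 2 ∂ν = 0 → f = 0) →
    (∀ᵐ x ∂ν, b x = 0 ∨
      ∃ f ∈ V, f ≠ 0 ∧ b x * ∫⁻ y, ‖T f y‖ₑ ^ 2 ∂ν ≤ ‖T f x‖ₑ ^ 2) →
    ∫⁻ x, b x ∂ν ≤ (Module.finrank ℂ V : ℝ≥0∞)

/-- Dimension count along a filtration with projections. -/
def S_FIL : Prop := ∀ (E : Type) [AddCommGroup E] [Module ℂ E] (S : ℕ → Submodule ℂ E)
    (P : ℕ → E → E) (a : ℕ) [FiniteDimensional ℂ (S a)], Antitone S →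
    (∀ j, a ≤ j → ∀ f ∈ S j, f ∈ S (j + 1) ↔ P j f = 0) →
    (∀ j (c : ℂ), ∀ f ∈ S a, ∀ g ∈ S a, P j (c • f + g) = c • P j f + P j g) →
    (∀ (s : Finset ℕ) (f : ℕ → E), (∀ j ∈ s, f j ∈ S a) → ∑ j ∈ s, P j (f j) = 0 →
      ∀ j ∈ s, P j (f j) = 0) →
    ∀ m, a ≤ m → ∃ V : Submodule ℂ E, FiniteDimensional ℂ V ∧
      (∀ v ∈ V, ∃ f : ℕ → E, (∀ j, a ≤ j → f j ∈ S j) ∧ v = ∑ j ∈ Finset.Ico a m, P j (f j)) ∧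
      Module.finrank ℂ (S a) = Module.finrank ℂ (S m) + Module.finrank ℂ V

/-- Periodic holomorphic functions of one variable. -/
def S_ONE : Prop := ∀ (h : ℂ → ℂ) (T : ℝ), DifferentiableOn ℂ h {τ | -T < τ.im} →
    (∀ τ : ℂ, -T < τ.im → h (τ + 1) = h τ) →
    (∀ (j : ℤ) (τ τ' : ℂ), -T < τ.im → -T < τ'.im →
      cf h j τ' = Complex.exp (2 * Real.pi * Complex.I * j * (τ' - τ)) * cf h j τ) ∧
    (∀ (m : ℤ) (τ : ℂ) (a M : ℝ), 0 ≤ a → -T < τ.im - a → (∀ j < m, cf h j τ = 0) →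
      (∀ x : ℝ, ‖h (τ - a * Complex.I + x)‖ ≤ M) →
      ‖h τ‖ ≤ Real.exp (-(2 * Real.pi * m * a)) * M) ∧
    (∀ (j : ℤ) (τ : ℂ) (B : ℝ → ℝ), -T < τ.im →
      (∀ a : ℝ, 0 ≤ a → ∀ x : ℝ, ‖h (τ + a * Complex.I + x)‖ ≤ B a) →
      Tendsto (fun a => B a * Real.exp (2 * Real.pi * j * a)) atTop (𝓝 0) → cf h j τ = 0)

/-- Holomorphy of locally uniform sums and of integrals along real translations. -/
def S_WEI : Prop := ∀ (κ : Type) [Fintype κ] (U : Set (κ → ℂ)), IsOpen U →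
    (∀ (I : Type) (f : I → (κ → ℂ) → ℂ), (∀ i, DifferentiableOn ℂ (f i) U) →
      (∀ K ⊆ U, IsCompact K → ∀ ε > 0, ∃ s : Finset I, ∀ t : Finset I, Disjoint s t →
        ∀ z ∈ K, ∑ i ∈ t, ‖f i z‖ ≤ ε) →
      DifferentiableOn ℂ (fun z => ∑' i, f i z) U) ∧
    (∀ (f : (κ → ℂ) → ℂ) (e : κ → ℂ) (φ : ℝ → ℂ), DifferentiableOn ℂ f U → Continuous φ →
      (∀ z ∈ U, ∀ t : ℝ, z + (t : ℂ) • e ∈ U) →
      DifferentiableOn ℂ (fun z => ∫ t in (0 : ℝ)..1, f (z + (t : ℂ) • e) * φ t) U)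

/-- Zero sets of entire functions are null; identity theorem on convex sets. -/
def S_ZERO : Prop := ∀ (κ : Type) [Fintype κ],
    (∀ f : (κ → ℂ) → ℂ, Differentiable ℂ f → (∃ z, f z ≠ 0) → volume {z | f z = 0} = 0) ∧
    (∀ (U : Set (κ → ℂ)) (f g : (κ → ℂ) → ℂ), IsOpen U → Convex ℝ U → DifferentiableOn ℂ f U →
      DifferentiableOn ℂ g U → (∀ z ∈ U, f z * g z = 0) → (∃ z ∈ U, g z ≠ 0) →
      ∀ z ∈ U, f z = 0)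

/-- Sub-mean value inequality for a circular weight. -/
def S_ROT : Prop := ∀ (κ : Type) [Fintype κ] (U : Set (κ → ℂ)) (u : (κ → ℂ) → ℂ)
    (ψ : (κ → ℂ) → ℝ≥0∞), IsOpen U → (∀ z ∈ U, ∀ c : ℂ, ‖c‖ ≤ 1 → c • z ∈ U) →
    DifferentiableOn ℂ u U → Measurable ψ → (∀ z, ∀ c : ℂ, ‖c‖ = 1 → ψ (c • z) = ψ z) →
    ‖u 0‖ₑ ^ 2 * ∫⁻ z in U, ψ z ≤ ∫⁻ z in U, ‖u z‖ₑ ^ 2 * ψ z

/-- Change of variables for a triangular map. -/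
def S_TRIJ : Prop := ∀ (κ : Type) [Fintype κ] [DecidableEq κ] (rk : κ → ℕ)
    (F : (κ → ℝ) → κ → ℝ) (c : (κ → ℝ) → κ → ℝ) (s : Set (κ → ℝ)), Function.Injective rk →
    Differentiable ℝ F → MeasurableSet s → Set.InjOn F s →
    (∀ x α β (t : ℝ), rk α < rk β → F (x + Pi.single β t) α = F x α) →
    (∀ x α (t : ℝ), F (x + Pi.single α t) α = F x α + t * c x α) →
    MeasurableSet (F '' s) ∧ ∀ φ : (κ → ℝ) → ℝ≥0∞,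
      ∫⁻ y in F '' s, φ y = ∫⁻ x in s, ENNReal.ofReal |∏ α, c x α| * φ (F x)

/-- Existence and uniqueness of the `L D Lᵀ` factorisation, and of the data of `Tri`. -/
def S_LDL : Prop := ∀ r : ℕ,
    (∀ G : Matrix (Fin r) (Fin r) ℝ, G.PosDef → ∃ (L : Matrix (Fin r) (Fin r) ℝ) (d : Fin r → ℝ),
      (∀ i, L i i = 1) ∧ (∀ i j, i < j → L i j = 0) ∧ (∀ i, 0 < d i) ∧
      G = L * diagonal d * Lᵀ) ∧
    (∀ (L L' : Matrix (Fin r) (Fin r) ℝ) (d d' : Fin r → ℝ), (∀ i, L i i = 1) →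
      (∀ i j, i < j → L i j = 0) → (∀ i, 0 < d i) → (∀ i, L' i i = 1) →
      (∀ i j, i < j → L' i j = 0) → L * diagonal d * Lᵀ = L' * diagonal d' * L'ᵀ →
      L = L' ∧ d = d') ∧
    (∀ (Q G G' : Matrix (Fin r) (Fin r) ℝ) (s s' : Fin r → ℝ), (∀ i, 0 < s i) →
      (∀ i, G i i = 1) → (∀ i, G' i i = 1) → Tri Q G s → Tri Q G' s' → G = G' ∧ s = s') ∧
    (∀ (Q G : Matrix (Fin r) (Fin r) ℝ) (s : Fin r → ℝ), (∀ i, 0 < s i) → Tri Q G s →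
      Q.PosDef ∧ G.PosDef ∧ Q.det = G.det * ∏ i, s i)

/-- The measure `dQ` in the coordinates `(G, s)`. -/
def S_JAC : Prop := ∀ (r j : ℕ) (C : Set ({p : Sym2 (Fin r) // ¬ p.IsDiag} → ℝ))
    (S : Set (Fin r → ℝ)), MeasurableSet C → MeasurableSet S → (∀ a ∈ C, (Gm a).PosDef) →
    (∀ s ∈ S, ∀ i, 0 < s i) →
    MeasurableSet (TriSet C S) ∧ TriSet C S ⊆ PD (Fin r) ∧
    ∫⁻ q in TriSet C S, ENNReal.ofReal ((mat q).det ^ j) =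
      (∫⁻ a in C, ENNReal.ofReal ((Gm a).det ^ (j + 1))) *
        ∫⁻ s in S, ENNReal.ofReal (∏ i : Fin r, s i ^ (r - 1 - i + j))

/-- The integral over the ordered simplex. -/
def S_SIMP : Prop := ∀ (r j : ℕ) (s0 : ℝ), 0 < s0 →
    MeasurableSet (Sc s0 r) ∧ MeasurableSet (So s0 r) ∧
    (∫⁻ s in Sc s0 r, ENNReal.ofReal (∏ i : Fin r, s i ^ (r - 1 - i + j))) =
      ENNReal.ofReal (s0 ^ (tri r + r * j) * (2 ^ r * (2 * j + 1).factorial /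
        (r.factorial * (2 * j + r + 1).factorial))) ∧
    (∫⁻ s in So s0 r, ENNReal.ofReal (∏ i : Fin r, s i ^ (r - 1 - i + j))) =
      ENNReal.ofReal (s0 ^ (tri r + r * j) * (2 ^ r * (2 * j + 1).factorial /
        (r.factorial * (2 * j + r + 1).factorial)))

/-- The pointwise inclusion-exclusion identity. -/
def S_PW : Prop := ∀ (n : Type) [Fintype n] [DecidableEq n] (Q : Matrix n n ℝ) (s0 : ℝ) (R : ℕ),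
    Q.PosDef → 0 < s0 → (∀ r, FrC Q s0 r ⊆ FrO Q s0 r) → FrC Q s0 (R + 1) = ∅ →
    (∀ r, (FrC Q s0 r).Finite) ∧
    ((∃ u : n → ℤ, u ≠ 0 ∧ qf Q u < s0) →
      ∑ r ∈ Finset.range R, (-1 : ℝ) ^ r * (FrC Q s0 (r + 1)).ncard / 2 ^ (r + 1) = 1) ∧
    ((¬ ∃ u : n → ℤ, u ≠ 0 ∧ qf Q u < s0) → ∀ r, FrC Q s0 (r + 1) = ∅) ∧
    ∀ u v : n → ℤ, u ≠ 0 → v ≠ 0 → qf Q u < s0 → (∀ y, y ≠ 0 → qf Q u ≤ qf Q y) →
      qf Q v = qf Q u → v = u ∨ v = -u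

/-- Vectors of a closed frame are short. -/
def S_FRS : Prop := ∀ (n : Type) [Fintype n] [DecidableEq n] (Q : Matrix n n ℝ) (s0 : ℝ) (r : ℕ),
    Q.IsSymm → FrO Q s0 r ⊆ FrC Q s0 r ∧ ∀ v ∈ FrC Q s0 r, ∀ a, qf Q (v a) < s0

/-- Finiteness of the lattice sum; the boundary of `CL` is null. -/
def S_FINW : Prop := ∀ r : ℕ, {L : Ov r | (CL L.1).Nonempty}.Finite ∧
    (∀ L : AddSubgroup (Fin r → ℚ), MeasurableSet (CL L) ∧ MeasurableSet (CLo L) ∧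
      CLo L ⊆ CL L ∧ volume (CL L \ CLo L) = 0) ∧
    ∀ j : ℕ, WE r j ≠ ⊤ ∧ WW r j =
      ((2 * j + 1).factorial : ℝ) / (r.factorial * (2 * j + r + 1).factorial) * (WE r j).toReal ∧
      WW 0 j = 1

/-- Determinant of the symmetric square. -/
def S_DET : Prop := ∀ (K ι : Type) [Field K] [CharZero K] [Fintype ι] [DecidableEq ι]
    (P : Matrix ι ι K), LinearMap.det (symL P) = P.det ^ (Fintype.card ι + 1)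

/-- Linear changes of variables and inversion on real symmetric matrices. -/
def S_INV : Prop := ∀ (ι : Type) [Fintype ι] [DecidableEq ι],
    (∀ (P : Matrix ι ι ℝ) (φ : (Sym2 ι → ℝ) → ℝ≥0∞), P.det ≠ 0 → Measurable φ →
      ∫⁻ q in PD ι, φ (symL P q) =
        ENNReal.ofReal ((|P.det| ^ (Fintype.card ι + 1))⁻¹) * ∫⁻ q in PD ι, φ q) ∧
    (∀ φ : (Sym2 ι → ℝ) → ℝ≥0∞, ∫⁻ q in PD ι, φ q =
      ∫⁻ t in PD ι, ENNReal.ofReal (((mat t).det ^ (Fintype.card ι + 1))⁻¹) *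
        φ (coord (mat t)⁻¹))

/-- Primitive families extend to bases; primitive part of a vector. -/
def S_EXT : Prop := ∀ (n : Type) [Fintype n] [DecidableEq n],
    (∀ (κ : Type) [Fintype κ] (u : κ → n → ℤ) (e : κ ↪ n), Prim u →
      ∃ U : Matrix n n ℤ, IsUnit U.det ∧ ∀ a i, U i (e a) = u a i) ∧
    (∀ (κ : Type) [Fintype κ] (u : κ → n → ℤ), Prim u → LinearIndependent ℤ u) ∧
    (∀ (κ : Type) [Fintype κ] (u : κ → n → ℤ) (U : Matrix n n ℤ), IsUnit U.det →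
      (Prim (fun a => U *ᵥ u a) ↔ Prim u)) ∧
    (∀ (κ : Type) [Fintype κ] (e : κ ↪ n), Prim fun a => (Pi.single (e a) 1 : n → ℤ)) ∧
    Set.BijOn (fun x : ℕ × (n → ℤ) => ((x.1 + 1 : ℕ) : ℤ) • x.2) {x | Prim1 x.2} {v | v ≠ 0}

/-- Symplectic lattices. -/
def S_LAG : Prop := ∀ (ι : Type) [Fintype ι] [DecidableEq ι],
    (∀ v : ι ⊕ ι → ℤ, ∃ γ : SpZ ι, (∀ i, (γ.1 *ᵥ v) (Sum.inr i) = 0) ∧
      ∀ i, v (Sum.inr i) = 0 → γ.1 *ᵥ ev i = ev i) ∧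
    (∀ U : Matrix ι ι ℤ, IsUnit U.det → fromBlocks U 0 0 (U⁻¹)ᵀ ∈ symplecticGroup ι ℤ) ∧
    (∀ (γ : SpZ ι) (u v : ι ⊕ ι → ℤ), om (γ.1 *ᵥ u) (γ.1 *ᵥ v) = om u v) ∧
    (∀ (i : ι) (v : ι ⊕ ι → ℤ), om (ev i) v = -v (Sum.inr i)) ∧
    (∀ (κ : Type) [Fintype κ] (v : κ → ι ⊕ ι → ℤ), LinearIndependent ℤ v → Iso v →
      Fintype.card κ ≤ Fintype.card ι) ∧
    (∀ (κ : Type) [Fintype κ] (e : κ ↪ ι) (v : κ → ι ⊕ ι → ℤ),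
      (Prim v ∧ Iso v) ↔ ∃ γ : SpZ ι, (fun a => γ.1 *ᵥ ev (e a)) = v)

/-- Independent families correspond to pairs (overlattice, primitive family). -/
def S_ORB : Prop := ∀ r : ℕ, Countable (Ov r) ∧ ∃ B : Ov r → Matrix (Fin r) (Fin r) ℤ,
    (∀ L, (B L).det.natAbs = (stdL r).relIndex L.1) ∧
    ∀ (n : Type) [Fintype n],
      (∀ (L : Ov r) (p : Fin r → n → ℤ), Prim p → Lam (rmul p (B L)) = L.1) ∧
      Set.BijOn (fun x : Ov r × (Fin r → n → ℤ) => rmul x.2 (B x.1)) {x | Prim x.2}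
        {v | LinearIndependent ℤ v}

/-- Structure of the pointwise stabiliser of a standard isotropic frame. -/
def S_STR : Prop := ∀ (ι₁ ι₂ : Type) [Fintype ι₁] [DecidableEq ι₁] [Fintype ι₂] [DecidableEq ι₂],
    (∀ γ : SpZ ι₁, embM ι₂ γ.1 ∈ symplecticGroup (ι₁ ⊕ ι₂) ℤ) ∧
    (∀ l : Matrix ι₁ ι₂ ℤ, uuM l ∈ symplecticGroup (ι₁ ⊕ ι₂) ℤ) ∧
    (∀ (m : Matrix ι₁ ι₂ ℤ) (c : Sym2 ι₂ → ℤ), ttM m c ∈ symplecticGroup (ι₁ ⊕ ι₂) ℤ) ∧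
    Set.BijOn (fun x : SpZ ι₁ × Matrix ι₁ ι₂ ℤ × Matrix ι₁ ι₂ ℤ × (Sym2 ι₂ → ℤ) =>
        ttM x.2.2.1 x.2.2.2 * uuM x.2.1 * embM ι₂ x.1.1) Set.univ
      {M | M ∈ symplecticGroup (ι₁ ⊕ ι₂) ℤ ∧
        ∀ i : ι₂, M *ᵥ ev (Sum.inr i : ι₁ ⊕ ι₂) = ev (Sum.inr i)}

/-- Hermite reduction. -/
def S_HERM : Prop := ∀ (n : Type) [Fintype n] [DecidableEq n] (s Δ : ℝ), 0 < s →
    ∃ C : ℝ, ∀ Q : Matrix n n ℝ, Q.PosDef → Q.det ≤ Δ → (∀ v : n → ℤ, v ≠ 0 → s ≤ qf Q v) →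
      ∃ U : Matrix n n ℤ, IsUnit U.det ∧ ∀ j, qf Q (fun i => U i j) ≤ C

/-- Lattice points in ellipsoids. -/
def S_CNT : Prop := ∀ (n : Type) [Fintype n] [DecidableEq n] (g : ℕ), Fintype.card n = 2 * g →
    (∀ Q : Matrix n n ℝ, Q.PosDef → Q.det = 1 →
      Tendsto (fun m : ℕ => cnt Q ((m : ℝ) ^ 2) / (m : ℝ≥0∞) ^ (2 * g)) atTop
        (𝓝 (ENNReal.ofReal (Real.pi ^ g / g.factorial)))) ∧
    ∃ C : ℝ≥0∞, C ≠ ⊤ ∧ ∀ Q : Matrix n n ℝ, Q.PosDef → ∀ m : ℕ, 1 ≤ m →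
      cnt Q ((m : ℝ) ^ 2) ≤ C * (m : ℝ≥0∞) ^ (2 * g) * cnt Q 1

/-- Elementary properties of the Siegel disc. -/
def S_DISC : Prop := ∀ (ι : Type) [Fintype ι] [DecidableEq ι],
    Continuous (dd : (Sym2 ι → ℂ) → ℝ) ∧ (∀ ρ, IsOpen (DD ι ρ)) ∧
    (∀ ζ ∈ DD ι 0, (∀ p, ‖ζ p‖ ≤ 1) ∧ dd ζ ≤ 1 ∧ (dd ζ = 1 → ζ = 0) ∧ IsUnit (1 - mat ζ).det ∧
      dd ζ ≤ Real.exp (-(∑ i, ∑ j, ‖ζ s(i, j)‖ ^ 2))) ∧
    (∀ ζ : Sym2 ι → ℂ, (1 - mat ζ * (mat ζ)ᴴ).PosDef → ζ ∈ DD ι 0) ∧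
    (∀ (ρ : ℝ), ∀ ζ ∈ DD ι ρ, ∀ c : ℂ, ‖c‖ ≤ 1 → c • ζ ∈ DD ι ρ) ∧
    (∀ (ζ : Sym2 ι → ℂ) (c : ℂ), ‖c‖ = 1 → dd (c • ζ) = dd ζ) ∧
    ∀ ρ : ℝ, 0 < ρ → IsCompact {ζ | ζ ∈ DD ι 0 ∧ ρ ≤ dd ζ}

/-- Laplace asymptotics in the Siegel disc. -/
def S_GAU : Prop := ∀ (ι : Type) [Fintype ι] [DecidableEq ι] (ρ : ℝ), 0 ≤ ρ → ρ < 1 →
    Tendsto (fun k : ℕ => (k : ℝ≥0∞) ^ tri (Fintype.card ι) *
      ∫⁻ ζ in DD ι ρ, ENNReal.ofReal (dd ζ ^ (k - (Fintype.card ι + 1)))) atTop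
      (𝓝 (ENNReal.ofReal (Real.pi ^ tri (Fintype.card ι) /
        2 ^ (tri (Fintype.card ι) - Fintype.card ι))))

end Pool.Agent.P.MP_59bdab_ag
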