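import Pool.Agent.P.MP_59bdab_ag.Basic

/-!
Statements of the second group: geometry of the half space, modular forms, unfolding.
-/

namespace Pool.Agent.P.MP_59bdab_ag

open Matrix MeasureTheory Filter Topology
open scoped ENNReal ComplexOrder

/-- The form `Qm`. -/
def S_Q : Prop := ∀ (ι : Type) [Fintype ι] [DecidableEq ι],
    (∀ Z : HH ι, (Qm Z).PosDef ∧ (Qm Z).det = 1) ∧
    (∀ (γ : SpR ι) (Z : HH ι), γ.1ᵀ * Qm (γ • Z) * γ.1 = Qm Z) ∧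
    (∀ (γ : SpZ ι) (Z : HH ι) (v : ι ⊕ ι → ℤ), qf (Qm (γ • Z)) (γ.1 *ᵥ v) = qf (Qm Z) v) ∧
    (∀ (γ : SpZ ι) (Z : HH ι) (κ : Type) (v : κ → ι ⊕ ι → ℤ),
      gram (Qm (γ • Z)) (fun a => γ.1 *ᵥ v a) = gram (Qm Z) v) ∧
    (∀ (Z : HH ι) (u v : ι ⊕ ι → ℤ), (om u v : ℝ) ^ 2 ≤ qf (Qm Z) u * qf (Qm Z) v) ∧
    Continuous (Qm : HH ι → Matrix (ι ⊕ ι) (ι ⊕ ι) ℝ) ∧
    (∀ (Z : HH ι) (p : ι → ℤ), qf (Qm Z) (lv p) = cz p ⬝ᵥ (Ym Z)⁻¹ *ᵥ cz p) ∧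
    (∀ (Z : HH ι) (v : ι ⊕ ι → ℤ), v ≠ 0 → 0 < qf (Qm Z) v) ∧
    (∀ (Z : HH ι) (c : ℤ) (v : ι ⊕ ι → ℤ), qf (Qm Z) (c • v) = (c : ℝ) ^ 2 * qf (Qm Z) v) ∧
    (∀ s, IsOpen (Short ι s)) ∧
    (∀ s (γ : SpZ ι) (Z : HH ι), γ • Z ∈ Short ι s ↔ Z ∈ Short ι s)

/-- Compactness properties of `Qm`. -/
def S_QC : Prop := ∀ (ι : Type) [Fintype ι] [DecidableEq ι],
    (∀ C : ℝ, IsCompact {Z : HH ι | ∀ i, Qm Z i i ≤ C}) ∧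
    (∀ K : Set (HH ι), IsCompact K → ∃ c > 0, ∀ Z ∈ K, ∀ x : ι ⊕ ι → ℝ,
      c * (x ⬝ᵥ x) ≤ x ⬝ᵥ Qm Z *ᵥ x) ∧
    (∀ (Z : HH ι) (C : ℝ), {v : ι ⊕ ι → ℤ | qf (Qm Z) v ≤ C}.Finite) ∧
    (∀ Z : HH ι, ∃ s > 0, Z ∉ Short ι s) ∧
    ∀ K : Set (HH ι), IsCompact K → {γ : SpZ ι | ∃ Z ∈ K, γ • Z ∈ K}.Finite

/-- The invariant measure. -/
def S_MEAS : Prop := ∀ (ι : Type) [Fintype ι] [DecidableEq ι],
    SMulInvariantMeasure (SpR ι) (HH ι) (μH ι) ∧ SMulInvariantMeasure (SpZ ι) (HH ι) (μH ι) ∧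
    (∀ G : Subgroup (SpZ ι), SMulInvariantMeasure G (HH ι) (μH ι)) ∧
    IsFiniteMeasureOnCompacts (μH ι) ∧ (μH ι).IsOpenPosMeasure ∧ SigmaFinite (μH ι) ∧
    (∀ φ : (Sym2 ι → ℂ) → ℝ≥0∞, Measurable φ → ∫⁻ Z, φ Z.1 ∂μH ι =
      ∫⁻ z in HS ι, ENNReal.ofReal (((mat fun p => (z p).im).det ^ (Fintype.card ι + 1))⁻¹) *
        φ z) ∧
    ∀ s : Set (Sym2 ι → ℂ), volume s = 0 → μH ι {Z | Z.1 ∈ s} = 0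

/-- The point pair invariant and the slash operator. -/
def S_DL : Prop := ∀ (ι : Type) [Fintype ι] [DecidableEq ι],
    (∀ W : HH ι, Differentiable ℂ (kd W)) ∧ (∀ Z W : HH ι, kd W Z.1 ≠ 0) ∧
    (∀ Z : HH ι, kd Z Z.1 = ((Ym Z).det : ℂ)) ∧
    (∀ (γ : SpR ι) (Z W : HH ι), dl (γ • Z) (γ • W) = dl Z W) ∧
    (∀ Z W : HH ι, dl Z W = dl W Z) ∧ (∀ Z : HH ι, dl Z Z = 1) ∧ (∀ Z W : HH ι, 0 < dl Z W) ∧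
    Continuous (fun x : HH ι × HH ι => dl x.1 x.2) ∧
    (∀ Z : HH ι, ∃ γ : SpR ι, γ • iH ι = Z) ∧
    (∀ γ : SpR ι, DifferentiableOn ℂ (actF γ.1) (HS ι)) ∧
    (∀ (γ : SpR ι) (k : ℕ) (f : (Sym2 ι → ℂ) → ℂ), DifferentiableOn ℂ f (HS ι) →
      DifferentiableOn ℂ (slash γ k f) (HS ι)) ∧
    ∀ (γ : SpR ι) (k : ℕ) (f : (Sym2 ι → ℂ) → ℂ) (Z : HH ι),
      FF k (slash γ k f) Z = FF k f (γ • Z)

/-- The Cayley map: algebra. -/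
def S_CAY : Prop := ∀ (ι : Type) [Fintype ι] [DecidableEq ι],
    Set.BijOn (cay : (Sym2 ι → ℂ) → Sym2 ι → ℂ) (DD ι 0) (HS ι) ∧
    DifferentiableOn ℂ (cay : (Sym2 ι → ℂ) → Sym2 ι → ℂ) (DD ι 0) ∧
    cay (0 : Sym2 ι → ℂ) = (iH ι).1 ∧
    (∀ ζ ∈ DD ι 0, mat (cay ζ) =
      (2 * Complex.I) • (1 - mat ζ)⁻¹ - Complex.I • (1 : Matrix ι ι ℂ)) ∧
    ∀ ζ ∈ DD ι 0, ∀ Z : HH ι, Z.1 = cay ζ →
      (Ym Z).det * ‖(1 - mat ζ).det‖ ^ 2 = dd ζ ∧ dl Z (iH ι) ^ 2 = dd ζ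

/-- The Cayley map: measure. -/
def S_CAYM : Prop := ∀ (ι : Type) [Fintype ι] [DecidableEq ι] (φ : HH ι → ℝ≥0∞)
    (ψ : (Sym2 ι → ℂ) → ℝ≥0∞), Measurable φ →
    (∀ ζ ∈ DD ι 0, ∀ Z : HH ι, Z.1 = cay ζ → ψ ζ = φ Z) →
    ∫⁻ Z, φ Z ∂μH ι = 4 ^ tri (Fintype.card ι) *
      ∫⁻ ζ in DD ι 0, ENNReal.ofReal ((dd ζ ^ (Fintype.card ι + 1))⁻¹) * ψ ζ

/-- Metric properties of the point pair invariant. -/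
def S_DL2 : Prop := ∀ (ι : Type) [Fintype ι] [DecidableEq ι],
    (∀ Z W : HH ι, dl Z W ≤ 1) ∧ (∀ Z W : HH ι, dl Z W = 1 → Z = W) ∧
    (∀ K : Set (HH ι), IsCompact K → ∀ ρ > 0, IsCompact {Z | ∃ W ∈ K, ρ ≤ dl Z W}) ∧
    ∀ ρ < 1, ∃ ρ', 0 < ρ' ∧ ρ' < 1 ∧
      ∀ A B C : HH ι, ρ' < dl A B → ρ' < dl B C → ρ < dl A C

/-- Mass of the peak functions. -/
def S_IK : Prop := ∀ (ι : Type) [Fintype ι] [DecidableEq ι],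
    (∀ ρ : ℝ, 0 ≤ ρ → ρ < 1 →
      Tendsto (fun k : ℕ => (k : ℝ≥0∞) ^ tri (Fintype.card ι) * Ik ι k ρ) atTop
        (𝓝 (ENNReal.ofReal (cg (Fintype.card ι))⁻¹))) ∧
    Ik ι (Fintype.card ι + 1) 0 ≠ ⊤ ∧ (∀ k, ∀ ρ < 1, Ik ι k ρ ≠ 0) ∧
    (∀ k ρ (W : HH ι),
      ∫⁻ Z in {Z | ρ < dl Z W}, ENNReal.ofReal (dl Z W ^ (2 * k)) ∂μH ι = Ik ι k ρ) ∧
    ∀ k (W : HH ι), ∫⁻ Z, ENNReal.ofReal (dl Z W ^ (2 * k)) ∂μH ι = Ik ι k 0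

/-- Sub-mean value inequality on invariant balls. -/
def S_SUB : Prop := ∀ (ι : Type) [Fintype ι] [DecidableEq ι] (k : ℕ) (f : (Sym2 ι → ℂ) → ℂ)
    (W : HH ι) (ρ : ℝ), DifferentiableOn ℂ f (HS ι) → 0 ≤ ρ →
    ENNReal.ofReal (FF k f W) * Ik ι k ρ ≤
      ∫⁻ Z in {Z | ρ < dl Z W}, ENNReal.ofReal (FF k f Z) ∂μH ι

/-- Weights exist, generic stabilisers are `±1`. -/
def S_PROP : Prop := ∀ (ι : Type) [Fintype ι] [DecidableEq ι],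
    (∀ G : Subgroup (SpZ ι), ∃ w, IsWt G (HH ι) w) ∧ (∃ w, IsWt (SpZ ι) (HH ι) w) ∧
    (∀ w, IsWt (SpZ ι) (HH ι) w → ∫⁻ Z, w Z ∂μH ι = vol ι) ∧ vol ι ≠ 0 ∧
    (∀ᵐ Z ∂μH ι, Z ∈ Free ι) ∧
    (∀ (γ : SpZ ι) (Z : HH ι), γ.1 = 1 ∨ γ.1 = -1 → γ • Z = Z) ∧
    ∀ (γ : SpZ ι) (Z : HH ι), γ.1 = -1 → jf (toR γ) Z = (-1) ^ Fintype.card ι

/-- Mahler compactness and the Hermite bound. -/
def S_MAH : Prop := ∀ (ι : Type) [Fintype ι] [DecidableEq ι],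
    (∀ s > 0, ∃ K : Set (HH ι), IsCompact K ∧ ∀ Z, Z ∉ Short ι s → ∃ γ : SpZ ι, γ • Z ∈ K) ∧
    (Nonempty ι → ∃ C : ℝ, ∀ Z, Z ∈ Short ι C)

/-- Multiplicity of balls. -/
def S_MULT : Prop := ∀ (ι : Type) [Fintype ι] [DecidableEq ι],
    (∀ s > 0, ∃ n : ℝ≥0∞, n ≠ ⊤ ∧ ∀ W, W ∉ Short ι s → ∀ Z : HH ι,
      ∑' γ : SpZ ι, {X | 1 / 2 < dl X W}.indicator (1 : HH ι → ℝ≥0∞) (γ • Z) ≤ n) ∧
    (∀ ρ < 1, ∃ ρ', 0 < ρ' ∧ ρ' < 1 ∧ ∀ W ∈ Gd ι ρ, ∀ (γ : SpZ ι) (Z : HH ι),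
      ρ' < dl Z W → ρ' < dl (γ • Z) W → γ.1 = 1 ∨ γ.1 = -1) ∧
    (∀ ρ, IsClosed (Gd ι ρ)) ∧ Monotone (Gd ι) ∧
    (∀ W ∈ Free ι, ∃ ρ < 1, W ∈ Gd ι ρ) ∧
    ∀ (W : HH ι), ∀ K : Set (HH ι), IsCompact K → ∀ ε > 0,
      {γ : SpZ ι | ∃ Z ∈ K, ε ≤ dl (γ • Z) W}.Finite

/-- Pointwise bounds by the Petersson norm. -/
def S_BERG : Prop := ∀ (ι : Type) [Fintype ι] [DecidableEq ι],
    (∀ s > 0, ∃ n : ℝ≥0∞, n ≠ ⊤ ∧ ∀ (G : Subgroup (SpZ ι)) w k f, IsWt G (HH ι) w → Mod G k f →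
      ∀ W, W ∉ Short ι s → ENNReal.ofReal (FF k f W) * Ik ι k (1 / 2) ≤ n * nrm w k f) ∧
    ∀ ρ < 1, ∃ ρ', 0 < ρ' ∧ ρ' < 1 ∧ ∀ (G : Subgroup (SpZ ι)) w k f (n : ℕ), IsWt G (HH ι) w →
      Mod G k f → {γ : G | γ.1.1 = 1 ∨ γ.1.1 = -1}.encard ≤ n →
      ∀ W ∈ Gd ι ρ, ENNReal.ofReal (FF k f W) * Ik ι k ρ' ≤ n * nrm w k f

/-- From localised pieces to a bound by the norm. -/
def S_LOC : Prop := ∀ (ι : Type) [Fintype ι] [DecidableEq ι] (s0 C θ : ℝ), 0 < s0 → 0 ≤ C →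
    0 ≤ θ → θ < 1 → ∃ η : ℕ → ℝ≥0∞, Tendsto η atTop (𝓝 0) ∧ ∀ᶠ k in atTop,
    ∀ (G : Subgroup (SpZ ι)) (w : HH ι → ℝ≥0∞) (R : Set (HH ι)) (D : HH ι → ℝ)
      (f : (Sym2 ι → ℂ) → ℂ) (s : Finset ℕ) (φ : ℕ → (Sym2 ι → ℂ) → ℂ), IsWt G (HH ι) w →
      Disjoint R (Short ι s0) → (∀ Z, 0 ≤ D Z ∧ D Z ≤ 1) →
      ∫⁻ Z, ENNReal.ofReal (D Z) * w Z ∂μH ι ≠ ⊤ → s.card ≤ k →
      (∀ Z : HH ι, f Z.1 = ∑ j ∈ s, φ j Z.1) →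
      (∀ j ∈ s, Mod G k (φ j) ∧ nrm w k (φ j) ≤ nrm w k f ∧ Loc R D C θ k (φ j)) →
      Mod G k f ∧ nrm w k f ≠ ⊤ ∧
        ∀ Z, Z ∉ R → ENNReal.ofReal (FF k f Z) ≤ η k * ENNReal.ofReal (D Z) * nrm w k f

/-- The general upper bound for dimensions. -/
def S_UBD : Prop := ∀ (ι : Type) [Fintype ι] [DecidableEq ι] (G : Subgroup (SpZ ι))
    (w : HH ι → ℝ≥0∞) (n : ℕ) (R : Set (HH ι)) (s0 : ℝ) (D : HH ι → ℝ≥0∞) (k : ℕ → ℕ)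
    (η : ℕ → ℝ≥0∞) (V : ℕ → Submodule ℂ ((Sym2 ι → ℂ) → ℂ)), IsWt G (HH ι) w →
    {γ : G | γ.1.1 = 1 ∨ γ.1.1 = -1}.encard ≤ n → MeasurableSet R → 0 < s0 →
    Disjoint R (Short ι s0) → mass w R ≠ ⊤ → Measurable D → ∫⁻ Z, D Z * w Z ∂μH ι ≠ ⊤ →
    Tendsto k atTop atTop → Tendsto η atTop (𝓝 0) →
    (∀ᶠ a in atTop, ∀ f ∈ V a, (∀ z, z ∉ HS ι → f z = 0) ∧ Mod G (k a) f ∧ nrm w (k a) f ≠ ⊤ ∧
      ∀ Z, Z ∉ R → ENNReal.ofReal (FF (k a) f Z) ≤ η a * D Z * nrm w (k a) f) →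
    (∀ᶠ a in atTop, FiniteDimensional ℂ (V a)) ∧ ∀ ε > 0, ∀ᶠ a in atTop,
      (Module.finrank ℂ (V a) : ℝ) ≤
        (n * cg (Fintype.card ι) * (mass w R).toReal + ε) * (k a : ℝ) ^ tri (Fintype.card ι)

/-- Rank one moves `Z ↦ Z + τ p pᵀ`. -/
def S_RK1 : Prop := ∀ (ι : Type) [Fintype ι] [DecidableEq ι] (Z : HH ι) (p : ι → ℤ) (τ : ℂ),
    0 < 1 + τ.im * qf (Qm Z) (lv p) → ∃ Z' : HH ι, Z'.1 = Z.1 + τ • tv p ∧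
      (Ym Z').det = (Ym Z).det * (1 + τ.im * qf (Qm Z) (lv p)) ∧
      qf (Qm Z') (lv p) = qf (Qm Z) (lv p) / (1 + τ.im * qf (Qm Z) (lv p)) ∧
      (τ.im ≤ 0 → ∀ v, om (lv p) v = 0 → qf (Qm Z) v ≤ qf (Qm Z') v)

/-- The gain of a rank one move. -/
def S_MOVE : Prop := ∀ (ι : Type) [Fintype ι] [DecidableEq ι] (k j : ℕ) (f : (Sym2 ι → ℂ) → ℂ)
    (Z : HH ι), 0 < k → 0 < j → DifferentiableOn ℂ f (HS ι) →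
    (∀ p, Prim1 p → Van j f → qf (Qm Z) (lv p) ≤ 4 * Real.pi * j / k →
      ∃ (Z' : HH ι) (τ : ℂ), τ.im = (4 * Real.pi * j / k)⁻¹ - (qf (Qm Z) (lv p))⁻¹ ∧
        Z'.1 = Z.1 + τ • tv p ∧
        FF k f Z ≤ psi (4 * Real.pi * j / k / qf (Qm Z) (lv p)) ^ k * FF k f Z') ∧
    ∀ i, Eig i j f → ∃ Z' : HH ι,
      FF k f Z = psi (4 * Real.pi * j / k / qf (Qm Z) (ev i)) ^ k * FF k f Z'

/-- The spaces `SF` in terms of the group action. -/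
def S_VAN : Prop := ∀ (ι : Type) [Fintype ι] [DecidableEq ι] (k m : ℕ) (f : (Sym2 ι → ℂ) → ℂ),
    (f ∈ SF ι k m ↔ (∀ z, z ∉ HS ι → f z = 0) ∧ Mod ⊤ k f ∧ Van m f) ∧
    (Mod ⊤ k f → ∀ p : ι → ℤ, ∀ z ∈ HS ι, f (z + tv p) = f z) ∧
    (∀ (i : ι) (j : ℤ) z, fj f i j z = cf (fun τ => f (z + τ • tv (Pi.single i 1))) j 0) ∧
    ∀ i : ι, (∀ z, z ∉ HS ι → f z = 0) → Mod ⊤ k f →
      (∀ j : ℤ, j < m → ∀ z ∈ HS ι, fj f i j z = 0) → f ∈ SF ι k m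

/-- Decay at points with a short vector. -/
def S_DEC : Prop := ∀ (ι : Type) [Fintype ι] [DecidableEq ι] (G : Subgroup (SpZ ι)) (k j : ℕ)
    (f : (Sym2 ι → ℂ) → ℂ) (M : ℝ), 0 < k → 0 < j → Mod G k f → Van j f → (∀ Z, FF k f Z ≤ M) →
    ∀ (Z : HH ι) (v : ι ⊕ ι → ℤ), v ≠ 0 → (∃ γ ∈ G, ∀ i, (γ.1 *ᵥ v) (Sum.inr i) = 0) →
      qf (Qm Z) v ≤ 4 * Real.pi * j / k →
      FF k f Z ≤ psi (4 * Real.pi * j / k / qf (Qm Z) v) ^ k * M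

/-- Cusp forms are bounded, and conversely. -/
def S_BDD : Prop := ∀ (ι : Type) [Fintype ι] [DecidableEq ι] (k : ℕ) (f : (Sym2 ι → ℂ) → ℂ),
    (∀ m, 1 ≤ m → 13 ≤ k → f ∈ SF ι k m → ∃ M, ∀ Z, FF k f Z ≤ M) ∧
    (0 < k → (∀ z, z ∉ HS ι → f z = 0) → Mod ⊤ k f → (∃ M, ∀ Z, FF k f Z ≤ M) → f ∈ SF ι k 1)

/-- Products of forms. -/
def S_MUL : Prop := ∀ (ι : Type) [Fintype ι] [DecidableEq ι],
    (∀ k m k' m' (f h : (Sym2 ι → ℂ) → ℂ), f ∈ SF ι k m → h ∈ SF ι k' m' →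
      f * h ∈ SF ι (k + k') (m + m')) ∧
    ∀ k0 (χ : (Sym2 ι → ℂ) → ℂ), χ ∈ SF ι k0 1 → χ ≠ 0 → ∀ k a : ℕ,
      FiniteDimensional ℂ (SF ι (k + a * k0) (a + 1)) →
      FiniteDimensional ℂ (SF ι k 1) ∧
        Module.finrank ℂ (SF ι k 1) ≤ Module.finrank ℂ (SF ι (k + a * k0) (a + 1))

/-- Uniform convergence of the Poincare majorant. -/
def S_SUMD : Prop := ∀ (ι : Type) [Fintype ι] [DecidableEq ι], ∀ s > 0, ∃ C : ℝ≥0∞, C ≠ ⊤ ∧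
    ∀ W, W ∉ Short ι s → ∀ Z : HH ι,
      ∑' γ : SpZ ι, ENNReal.ofReal (dl (γ • Z) W ^ (2 * (Fintype.card ι + 1))) ≤ C

/-- Poincare series of a peak function. -/
def S_PSER : Prop := ∀ (ι : Type) [Fintype ι] [DecidableEq ι] [Nonempty ι] (k : ℕ) (W : HH ι),
    2 * (Fintype.card ι + 1) < k → Even (Fintype.card ι * k) → ∃ P ∈ SF ι k 1,
      (∀ Z, ENNReal.ofReal √(FF k P Z) ≤ ∑' γ : SpZ ι, ENNReal.ofReal (dl (γ • Z) W ^ k)) ∧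
      2 ≤ ENNReal.ofReal √(FF k P W) +
        ∑' γ : {γ : SpZ ι // ¬ (γ.1 = 1 ∨ γ.1 = -1)}, ENNReal.ofReal (dl (γ.1 • W) W ^ k)

/-- Lower bound for the Bergman function, uniform on good sets. -/
def S_PLOW : Prop := ∀ (ι : Type) [Fintype ι] [DecidableEq ι] [Nonempty ι] (w : HH ι → ℝ≥0∞),
    IsWt (SpZ ι) (HH ι) w → ∀ ρ < 1, ∀ s > 0, ∀ ε > 0, ∀ᶠ k in atTop,
      Even (Fintype.card ι * k) → ∀ W ∈ Gd ι ρ, W ∉ Short ι s → ∃ P ∈ SF ι k 1, P ≠ 0 ∧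
        ENNReal.ofReal ((2 * cg (Fintype.card ι) - ε) * (k : ℝ) ^ tri (Fintype.card ι)) *
          nrm w k P ≤ ENNReal.ofReal (FF k P W)

/-- Lower bound for the dimension of spaces of cusp forms. -/
def S_LOW1 : Prop := ∀ (ι : Type) [Fintype ι] [DecidableEq ι] [Nonempty ι],
    (∃ k0, Even k0 ∧ ∃ χ ∈ SF ι k0 1, χ ≠ 0) ∧
    ∀ ε > 0, ∀ᶠ k in atTop, Even (Fintype.card ι * k) → FiniteDimensional ℂ (SF ι k 1) →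
      (2 * cg (Fintype.card ι) * (vol ι).toReal - ε) * (k : ℝ) ^ tri (Fintype.card ι) ≤
        Module.finrank ℂ (SF ι k 1)

/-- Upper bound for the dimension. -/
def S_UP : Prop := ∀ (ι : Type) [Fintype ι] [DecidableEq ι] (w : HH ι → ℝ≥0∞) (k m : ℕ → ℕ)
    (s s' : ℝ), IsWt (SpZ ι) (HH ι) w → Tendsto k atTop atTop → 0 < s' → s' < s →
    (∀ᶠ a in atTop, s ≤ 4 * Real.pi * m a / k a) →
    (∀ᶠ a in atTop, FiniteDimensional ℂ (SF ι (k a) (m a))) ∧ ∀ ε > 0, ∀ᶠ a in atTop,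
      (Module.finrank ℂ (SF ι (k a) (m a)) : ℝ) ≤
        (2 * cg (Fintype.card ι) * (mass w (Short ι s')ᶜ).toReal + ε) *
          (k a : ℝ) ^ tri (Fintype.card ι)

/-- Real translations in the entry `(i, i)`. -/
def S_TR : Prop := ∀ (ι : Type) [Fintype ι] [DecidableEq ι] (i : ι), ∃ tr : ℝ → SpR ι,
    (∀ t (Z : HH ι), (tr t • Z).1 = Z.1 + Pi.single s(i, i) (t : ℂ) ∧ jf (tr t) Z = 1 ∧
      Ym (tr t • Z) = Ym Z) ∧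
    (∀ t, ∀ γ ∈ st1 i, toR γ * tr t = tr t * toR γ) ∧
    (∀ t, ∀ γ ∈ st1 i, ∀ Z : HH ι, jf (toR γ) (tr t • Z) = jf (toR γ) Z) ∧
    Continuous fun x : ℝ × HH ι => tr x.1 • x.2

/-- The Fourier-Jacobi coefficients as functions on the half space. -/
def S_PROJ : Prop := ∀ (ι : Type) [Fintype ι] [DecidableEq ι] (i : ι) (k : ℕ),
    (∀ (m j : ℕ), ∀ f ∈ SF ι k m, (∀ z, z ∉ HS ι → fj f i j z = 0) ∧ Mod (st1 i) k (fj f i j) ∧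
      Van m (fj f i j) ∧ Eig i j (fj f i j) ∧
      ∀ M, (∀ Z, FF k f Z ≤ M) → ∀ Z, FF k (fj f i j) Z ≤ M) ∧
    (∀ j : ℕ, ∀ f ∈ SF ι k j, f ∈ SF ι k (j + 1) ↔ fj f i j = 0) ∧
    (∀ (m j : ℕ) (c : ℂ), ∀ f ∈ SF ι k m, ∀ h ∈ SF ι k m,
      fj (c • f + h) i j = c • fj f i j + fj h i j) ∧
    (∀ (m : ℕ) (s : Finset ℕ) (f : ℕ → (Sym2 ι → ℂ) → ℂ), (∀ j ∈ s, f j ∈ SF ι k m) →
      ∑ j ∈ s, fj (f j) i j = 0 → ∀ j ∈ s, fj (f j) i j = 0) ∧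
    Antitone (SF ι k)

/-- The components of a sum of eigenfunctions have smaller norm. -/
def S_NRM : Prop := ∀ (ι : Type) [Fintype ι] [DecidableEq ι] (i : ι) (k : ℕ) (w : HH ι → ℝ≥0∞)
    (s : Finset ℕ) (φ : ℕ → (Sym2 ι → ℂ) → ℂ), IsWt (st1 i) (HH ι) w →
    (∀ j ∈ s, Mod (st1 i) k (φ j) ∧ Eig i j (φ j)) →
    ∀ j ∈ s, nrm w k (φ j) ≤ nrm w k (∑ l ∈ s, φ l)

/-- Localisation of Fourier-Jacobi coefficients. -/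
def S_JLOC : Prop := ∀ (ι : Type) [Fintype ι] [DecidableEq ι] (i : ι) (s0 s ε : ℝ), 0 < ε →
    ε < s0 → s + ε ≤ 1 → ∃ C θ : ℝ, 0 ≤ C ∧ 0 ≤ θ ∧ θ < 1 ∧
    ∀ (k j : ℕ) (f : (Sym2 ι → ℂ) → ℂ), Fintype.card ι + 1 ≤ k → s0 ≤ 4 * Real.pi * j / k →
      4 * Real.pi * j / k ≤ s → Mod (st1 i) k f → Van j f → Eig i j f → (∃ M, ∀ Z, FF k f Z ≤ M) →
      Loc (RR i s ε ∩ {Z | s0 - ε ≤ qf (Qm Z) (ev i)}) (DJ i) C θ k f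

/-- Upper bound for the quotient of two steps of the filtration. -/
def S_JUP : Prop := ∀ (ι : Type) [Fintype ι] [DecidableEq ι] (i : ι) (w : HH ι → ℝ≥0∞)
    (k a m : ℕ → ℕ) (s0 s ε : ℝ), IsWt (st1 i) (HH ι) w → Tendsto k atTop atTop → 0 < ε →
    3 * ε < s0 → s + ε ≤ 1 →
    (∀ᶠ n in atTop, s0 ≤ 4 * Real.pi * a n / k n ∧ a n ≤ m n ∧ 4 * Real.pi * m n / k n ≤ s ∧
      FiniteDimensional ℂ (SF ι (k n) (a n))) →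
    ∀ δ > 0, ∀ᶠ n in atTop, (Module.finrank ℂ (SF ι (k n) (a n)) : ℝ) ≤
      Module.finrank ℂ (SF ι (k n) (m n)) +
        (cg (Fintype.card ι) * (mass w (RR i s ε)).toReal + δ) * (k n : ℝ) ^ tri (Fintype.card ι)

/-- Transport along a bijection of index types. -/
def S_REIDX : Prop := ∀ (ι ι' : Type) [Fintype ι] [DecidableEq ι] [Fintype ι'] [DecidableEq ι']
    (e : ι ≃ ι'), ∃ (Φ : HH ι ≃ᵐ HH ι') (ψ : SpZ ι ≃* SpZ ι'),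
      MeasurePreserving Φ (μH ι) (μH ι') ∧ (∀ (γ : SpZ ι) Z, Φ (γ • Z) = ψ γ • Φ Z) ∧
      (∀ γ, (ψ γ).1 = reindex (e.sumCongr e) (e.sumCongr e) γ.1) ∧
      (∀ Z, Qm (Φ Z) = reindex (e.sumCongr e) (e.sumCongr e) (Qm Z)) ∧ vol ι = vol ι'

/-- Lebesgue measure in block coordinates. -/
def S_ASM : Prop := ∀ (ι₁ ι₂ : Type) [Fintype ι₁] [DecidableEq ι₁] [Fintype ι₂] [DecidableEq ι₂],
    Continuous (fun a : (Sym2 ι₁ → ℂ) × (ι₁ × ι₂ → ℝ) × (ι₁ × ι₂ → ℝ) × (Sym2 ι₂ → ℝ) ×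
      (Sym2 ι₂ → ℝ) => asm a.1 a.2.1 a.2.2.1 a.2.2.2.1 a.2.2.2.2) ∧
    (∀ (τ : Sym2 ι₁ → ℂ) (x y : ι₁ × ι₂ → ℝ) (X Y : Sym2 ι₂ → ℝ),
      (mat fun p => (asm τ x y X Y p).re) = fromBlocks (mat fun p => (τ p).re)
        (Matrix.of fun a b => x (a, b)) (Matrix.of fun b a => x (a, b)) (mat X) ∧
      (mat fun p => (asm τ x y X Y p).im) = fromBlocks (mat fun p => (τ p).im)
        (Matrix.of fun a b => y (a, b)) (Matrix.of fun b a => y (a, b)) (mat Y) ∧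
      (fun p : Sym2 ι₁ => asm τ x y X Y (p.map Sum.inl)) = τ) ∧
    ∀ F : (Sym2 (ι₁ ⊕ ι₂) → ℂ) → ℝ≥0∞, Measurable F →
      ∫⁻ z, F z = ∫⁻ τ, ∫⁻ y, ∫⁻ Y, ∫⁻ x, ∫⁻ X, F (asm τ x y X Y)

/-- `wB` is a weight for the stabiliser of the standard frame. -/
def S_BLKW : Prop := ∀ (ι₁ ι₂ : Type) [Fintype ι₁] [DecidableEq ι₁] [Fintype ι₂] [DecidableEq ι₂]
    (w : HH ι₁ → ℝ≥0∞), IsWt (SpZ ι₁) (HH ι₁) w →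
    IsWt (stab fun i : ι₂ => ev (Sum.inr i : ι₁ ⊕ ι₂)) (HH (ι₁ ⊕ ι₂)) (wB w)

/-- The invariant measure in block coordinates. -/
def S_BLKM : Prop := ∀ (ι₁ ι₂ : Type) [Fintype ι₁] [DecidableEq ι₁] [Fintype ι₂] [DecidableEq ι₂]
    (w : HH ι₁ → ℝ≥0∞) (β : (Sym2 ι₂ → ℝ) → ℝ≥0∞), Measurable w → Measurable β →
    ∫⁻ Z : HH (ι₁ ⊕ ι₂), β (coord (gram (Qm Z) fun i : ι₂ => ev (Sum.inr i))) * wB w Z
        ∂μH (ι₁ ⊕ ι₂) =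
      (∫⁻ Z, w Z ∂μH ι₁) * ∫⁻ q in PD ι₂, β q * ENNReal.ofReal ((mat q).det ^ Fintype.card ι₁)

/-- Unfolding over primitive isotropic frames. -/
def S_UNF : Prop := ∀ (ι : Type) [Fintype ι] [DecidableEq ι] (r : ℕ) (w : HH ι → ℝ≥0∞)
    (β : (Sym2 (Fin r) → ℝ) → ℝ≥0∞), r ≤ Fintype.card ι → IsWt (SpZ ι) (HH ι) w → Measurable β →
    ∫⁻ Z, (∑' p : {p : Fin r → ι ⊕ ι → ℤ | Prim p ∧ Iso p}, β (coord (gram (Qm Z) p.1))) * w Z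
        ∂μH ι =
      vol (Fin (Fintype.card ι - r)) *
        ∫⁻ q in PD (Fin r), β q * ENNReal.ofReal ((mat q).det ^ (Fintype.card ι - r))

/-- Unfolding over primitive vectors. -/
def S_UNF1 : Prop := ∀ (ι : Type) [Fintype ι] [DecidableEq ι] (i : ι) (w w₁ : HH ι → ℝ≥0∞),
    IsWt (SpZ ι) (HH ι) w → IsWt (st1 i) (HH ι) w₁ →
    (∀ Φ : HH ι → (ι ⊕ ι → ℤ) → ℝ≥0∞, (∀ v, Measurable fun Z => Φ Z v) →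
      (∀ (γ : SpZ ι) Z v, Φ (γ • Z) (γ.1 *ᵥ v) = Φ Z v) →
      ∫⁻ Z, Φ Z (ev i) * w₁ Z ∂μH ι =
        ∫⁻ Z, (∑' p : {p : ι ⊕ ι → ℤ | Prim1 p}, Φ Z p.1) * w Z ∂μH ι) ∧
    (∀ β : ℝ → ℝ≥0∞, Measurable β →
      ∫⁻ Z, (∑' p : {p : ι ⊕ ι → ℤ | Prim1 p}, β (qf (Qm Z) p.1)) * w Z ∂μH ι =
        vol (Fin (Fintype.card ι - 1)) *
          ∫⁻ q in Set.Ioi (0 : ℝ), β q * ENNReal.ofReal (q ^ (Fintype.card ι - 1))) ∧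
    (vol (Fin (Fintype.card ι - 1)) ≠ ⊤ →
      ∫⁻ Z, ENNReal.ofReal (DJ i Z) * w₁ Z ∂μH ι ≠ ⊤ ∧
      ∀ c : ℝ, mass w₁ {Z | qf (Qm Z) (ev i) ≤ c} ≠ ⊤)

/-- Unfolding over independent isotropic frames. -/
def S_UNF2 : Prop := ∀ (ι : Type) [Fintype ι] [DecidableEq ι] (r : ℕ) (w : HH ι → ℝ≥0∞)
    (β : AddSubgroup (Fin r → ℚ) → (Sym2 (Fin r) → ℝ) → ℝ≥0∞), r ≤ Fintype.card ι →
    IsWt (SpZ ι) (HH ι) w → (∀ L, Measurable (β L)) →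
    ∫⁻ Z, (∑' v : {v : Fin r → ι ⊕ ι → ℤ | LinearIndependent ℤ v ∧ Iso v},
        β (Lam v.1) (coord (gram (Qm Z) v.1))) * w Z ∂μH ι =
      vol (Fin (Fintype.card ι - r)) * ∑' L : Ov r,
        (((stdL r).relIndex L.1 : ℝ≥0∞) ^ (2 * (Fintype.card ι - r) + r + 1))⁻¹ *
          ∫⁻ q in PD (Fin r), β L.1 q * ENNReal.ofReal ((mat q).det ^ (Fintype.card ι - r))

/-- The mean number of frames. -/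
def S_FR : Prop := ∀ (ι : Type) [Fintype ι] [DecidableEq ι] (w : HH ι → ℝ≥0∞) (s : ℝ) (r : ℕ),
    IsWt (SpZ ι) (HH ι) w → 0 < s → s ≤ 1 →
    (Measurable fun Z : HH ι => ((FrC (Qm Z) s r).encard : ℝ≥0∞)) ∧
    (Measurable fun Z : HH ι => ((FrO (Qm Z) s r).encard : ℝ≥0∞)) ∧
    (Fintype.card ι < r → ∀ Z : HH ι, FrC (Qm Z) s r = ∅) ∧
    (r ≤ Fintype.card ι →
      ∫⁻ Z, ((FrC (Qm Z) s r).encard : ℝ≥0∞) * w Z ∂μH ι =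
        vol (Fin (Fintype.card ι - r)) * WE r (Fintype.card ι - r) *
          ENNReal.ofReal (s ^ (tri r + r * (Fintype.card ι - r)) *
            (2 ^ r * (2 * (Fintype.card ι - r) + 1).factorial /
              (r.factorial * (2 * (Fintype.card ι - r) + r + 1).factorial))) ∧
      ∫⁻ Z, ((FrO (Qm Z) s r).encard : ℝ≥0∞) * w Z ∂μH ι =
        ∫⁻ Z, ((FrC (Qm Z) s r).encard : ℝ≥0∞) * w Z ∂μH ι)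

/-- Volumes are finite. -/
def S_VFIN : Prop := (∀ (ι : Type) [Fintype ι] [DecidableEq ι], vol ι ≠ ⊤) ∧ vol (Fin 0) = 1

/-- Siegel's volume formula. -/
def S_SV : Prop := ∀ n : ℕ, (vol (Fin n)).toReal * cg n = hh n

/-- The mass of the set of lattices with a short vector is a polynomial. -/
def S_POLY : Prop := ∀ (ι : Type) [Fintype ι] [DecidableEq ι] (w : HH ι → ℝ≥0∞) (s : ℝ),
    IsWt (SpZ ι) (HH ι) w → 0 < s → s ≤ 1 →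
    (∀ᵐ Z ∂(μH ι).withDensity w, ∀ u v : ι ⊕ ι → ℤ, u ≠ 0 → v ≠ 0 → qf (Qm Z) u < s →
      (∀ y, y ≠ 0 → qf (Qm Z) u ≤ qf (Qm Z) y) → qf (Qm Z) v = qf (Qm Z) u → v = u ∨ v = -u) ∧
    (mass w (Short ι s)).toReal = ∑ r ∈ Finset.range (Fintype.card ι),
      (-1) ^ r * (vol (Fin (Fintype.card ι - (r + 1)))).toReal *
        WW (r + 1) (Fintype.card ι - (r + 1)) *
        s ^ (tri (r + 1) + (r + 1) * (Fintype.card ι - (r + 1)))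

/-- The regions `RR` shrink to the set of lattices with a short vector. -/
def S_TIE : Prop := ∀ (ι : Type) [Fintype ι] [DecidableEq ι] (i : ι) (w w₁ : HH ι → ℝ≥0∞)
    (s s' : ℝ), IsWt (SpZ ι) (HH ι) w → IsWt (st1 i) (HH ι) w₁ → 0 < s' → s < s' → s' ≤ 1 →
    ∀ δ > 0, ∀ ε0 > 0, ∃ ε, 0 < ε ∧ ε < ε0 ∧
      (mass w₁ (RR i s ε)).toReal ≤ 2 * (mass w (Short ι s')).toReal + δ

/-- Lower bound for the dimension. -/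
def S_LOW : Prop := ∀ (ι : Type) [Fintype ι] [DecidableEq ι] [Nonempty ι] (w : HH ι → ℝ≥0∞)
    (k m : ℕ → ℕ) (s0 s s' : ℝ), IsWt (SpZ ι) (HH ι) w → Tendsto k atTop atTop →
    (∀ n, Even (Fintype.card ι * k n)) → 0 < s0 → s0 ≤ s → s < s' → s' ≤ 1 →
    (∀ᶠ n in atTop, s0 ≤ 4 * Real.pi * m n / k n ∧ 4 * Real.pi * m n / k n ≤ s) →
    ∀ ε > 0, ∀ᶠ n in atTop,
      (2 * cg (Fintype.card ι) * ((vol ι).toReal - (mass w (Short ι s')).toReal) - ε) *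
        (k n : ℝ) ^ tri (Fintype.card ι) ≤ Module.finrank ℂ (SF ι (k n) (m n))

/-- The main theorem. -/
def S_MAIN : Prop := ∀ (g : ℕ), 1 ≤ g → ∀ σ : ℝ, 0 < σ → 4 * Real.pi * σ < 1 →
    ∀ k m : ℕ → ℕ, Tendsto k atTop atTop → Tendsto (fun n => (m n : ℝ) / k n) atTop (𝓝 σ) →
    (∀ n, Even (g * k n)) →
    (∀ᶠ n in atTop, FiniteDimensional ℂ (SF (Fin g) (k n) (m n))) ∧
    Tendsto (fun n => (Module.finrank ℂ (SF (Fin g) (k n) (m n)) : ℝ) / (k n : ℝ) ^ tri g) atTop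
      (𝓝 (vlim g σ))

end Pool.Agent.P.MP_59bdab_ag
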