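import Pool.Agent.P.MP_59bdab_ag.CBasic

/-!
Statements of the third group: the Chern-Weil computation.
-/

namespace Pool.Agent.P.MP_59bdab_ag

open Matrix MeasureTheory Filter Topology
open scoped ENNReal ContDiff

/-- Algebra of `wedge`. -/
def S_WED : Prop := ∀ (κ : Type) [Fintype κ] [DecidableEq κ],
    (∀ (A : κ → Matrix κ κ ℂ) (l : κ) (x : ℂ) (B C : Matrix κ κ ℂ),
      wedge (Function.update A l (x • B + C)) =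
        x * wedge (Function.update A l B) + wedge (Function.update A l C)) ∧
    (∀ (A : κ → Matrix κ κ ℂ) (l : κ) (I : Type) (s : Finset I) (B : I → Matrix κ κ ℂ),
      wedge (Function.update A l (∑ i ∈ s, B i)) = ∑ i ∈ s, wedge (Function.update A l (B i))) ∧
    (∀ A : Matrix κ κ ℂ, (wedge fun _ => A) = (Fintype.card κ).factorial * A.det) ∧
    (∀ (A : κ → Matrix κ κ ℂ) (P Q : Matrix κ κ ℂ),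
      (wedge fun l => P * A l * Q) = P.det * Q.det * wedge A) ∧
    (∀ (A B : Matrix κ κ ℂ) (x : ℂ), (wedge fun _ => x • B + A) =
      ∑ S : Finset κ, x ^ S.card * wedge fun l => if l ∈ S then B else A) ∧
    (∀ (A B : Matrix κ κ ℂ) (S T : Finset κ), S.card = T.card →
      (wedge fun l => if l ∈ S then B else A) = wedge fun l => if l ∈ T then B else A) ∧
    (∀ (A : κ → Matrix κ κ ℂ) (C : κ → ℝ), (∀ l a b, ‖A l a b‖ ≤ C l) →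
      ‖wedge A‖ ≤ ((Fintype.card κ).factorial : ℝ) ^ 2 * ∏ l, C l) ∧
    (∀ (A : κ → Matrix κ κ ℂ) (l : κ), A l = 0 → wedge A = 0) ∧
    Continuous (wedge : (κ → Matrix κ κ ℂ) → ℂ)

/-- Pointwise bound of `wedge`. -/
def S_WBD1 : Prop := ∀ (κ : Type) [Fintype κ] [DecidableEq κ], ∃ K : ℝ, 0 ≤ K ∧
    ∀ (L : Finset (κ → ℝ)) (y : κ → ℝ) (C : κ → ℝ) (A : κ → Matrix κ κ ℂ), (∀ l, 0 ≤ C l) →
      (∀ l, Dom L y (C l) (A l)) → ‖wedge A‖ ≤ (∏ l, C l) * (K * (Om L y).det)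

/-- Poincare type volume forms are integrable. -/
def S_WBD2 : Prop := ∀ (κ : Type) [Fintype κ] [DecidableEq κ] (L : Finset (κ → ℝ)),
    Integrable (fun y => (Om L y).det) ∧ (Continuous fun y => (Om L y).det) ∧
    ∀ y, 0 ≤ (Om L y).det

/-- Calculus of Levi forms. -/
def S_LEVI1 : Prop := ∀ (κ : Type) [Fintype κ] [DecidableEq κ],
    (∀ (u v : (κ → ℂ) → ℝ) z, u =ᶠ[𝓝 z] v → levi u z = levi v z ∧ dzz u z = dzz v z) ∧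
    (∀ (u : (κ → ℂ) → ℝ) z, ContDiffAt ℝ 2 u z → ∀ ζ, hq (levi u z) ζ =
      (((fderiv ℝ (fderiv ℝ u) z ζ ζ +
        fderiv ℝ (fderiv ℝ u) z (Complex.I • ζ) (Complex.I • ζ)) / 4 : ℝ) : ℂ)) ∧
    (∀ (u : (κ → ℂ) → ℝ) z, DifferentiableAt ℝ u z → ∀ ζ, dzz u z ⬝ᵥ ζ =
      ((fderiv ℝ u z ζ : ℂ) - Complex.I * (fderiv ℝ u z (Complex.I • ζ) : ℝ)) / 2) ∧
    (∀ (u v : (κ → ℂ) → ℝ) (x : ℝ) z, ContDiffAt ℝ 2 u z → ContDiffAt ℝ 2 v z →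
      levi (fun y => x * u y + v y) z = (x : ℂ) • levi u z + levi v z ∧
      dzz (fun y => x * u y + v y) z = (x : ℂ) • dzz u z + dzz v z) ∧
    (∀ (c : ℝ) (z : κ → ℂ), levi (fun _ => c) z = 0 ∧ dzz (fun _ => c) z = 0) ∧
    (∀ (I : Type) (s : Finset I) (u : I → (κ → ℂ) → ℝ) z, (∀ i ∈ s, ContDiffAt ℝ 2 (u i) z) →
      levi (fun y => ∑ i ∈ s, u i y) z = ∑ i ∈ s, levi (u i) z) ∧
    (∀ (u : (κ → ℂ) → ℝ) (U : Set (κ → ℂ)), IsOpen U → ContDiffOn ℝ 2 u U →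
      ContinuousOn (levi u) U ∧ ContinuousOn (dzz u) U) ∧
    ∀ (u : (κ → ℂ) → ℝ) z, z ∉ tsupport u → levi u z = 0

/-- Chain rule for holomorphic maps; `log |f|^2` is pluriharmonic. -/
def S_LEVI2 : Prop := ∀ (κ : Type) [Fintype κ] [DecidableEq κ],
    (∀ (κ' : Type) [Fintype κ'] [DecidableEq κ'] (h : (κ → ℂ) → κ' → ℂ) (u : (κ' → ℂ) → ℝ) z,
      ContDiffAt ℂ 2 h z → ContDiffAt ℝ 2 u (h z) →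
      (∀ ζ, hq (levi (fun y => u (h y)) z) ζ = hq (levi u (h z)) (fderiv ℂ h z ζ)) ∧
      (∀ ζ, dzz (fun y => u (h y)) z ⬝ᵥ ζ = dzz u (h z) ⬝ᵥ fderiv ℂ h z ζ) ∧
      levi (fun y => u (h y)) z = (LinearMap.toMatrix' (fderiv ℂ h z).toLinearMap)ᵀ *
        levi u (h z) * (LinearMap.toMatrix' (fderiv ℂ h z).toLinearMap).map star) ∧
    ∀ (f : (κ → ℂ) → ℂ) z, ContDiffAt ℂ 2 f z → f z ≠ 0 →
      levi (fun y => Real.log (‖f y‖ ^ 2)) z = 0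

/-- Further chain rules. -/
def S_LEVI3 : Prop := ∀ (κ : Type) [Fintype κ] [DecidableEq κ],
    (∀ (ρ : (κ → ℂ) → ℝ) (k : ℝ → ℝ) z, ContDiffAt ℝ 2 ρ z → ContDiffAt ℝ 2 k (ρ z) →
      (∀ ζ, hq (levi (fun y => k (ρ y)) z) ζ = (deriv k (ρ z) : ℝ) * hq (levi ρ z) ζ +
        ((deriv (deriv k) (ρ z) * ‖dzz ρ z ⬝ᵥ ζ‖ ^ 2 : ℝ) : ℂ)) ∧
      dzz (fun y => k (ρ y)) z = ((deriv k (ρ z) : ℝ) : ℂ) • dzz ρ z) ∧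
    (∀ (Φ : (κ → ℝ) → ℝ) (z : κ → ℂ), ContDiffAt ℝ 2 Φ (imv z) →
      (∀ a b, levi (fun w => Φ (imv w)) z a b =
        ((fderiv ℝ (fderiv ℝ Φ) (imv z) (Pi.single a 1) (Pi.single b 1) / 4 : ℝ) : ℂ)) ∧
      ∀ ζ, hq (levi (fun w => Φ (imv w)) z) ζ =
        (((fderiv ℝ (fderiv ℝ Φ) (imv z) (rev ζ) (rev ζ) +
          fderiv ℝ (fderiv ℝ Φ) (imv z) (imv ζ) (imv ζ)) / 4 : ℝ) : ℂ)) ∧
    ∀ (t : κ → ℝ) (z : κ → ℂ), (ContDiff ℝ ∞ fun w : κ → ℂ => t ⬝ᵥ imv w) ∧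
      levi (fun w => t ⬝ᵥ imv w) z = 0 ∧
      ∀ ζ, ‖dzz (fun w => t ⬝ᵥ imv w) z ⬝ᵥ ζ‖ = ‖(fun a => (t a : ℂ)) ⬝ᵥ ζ‖ / 2

/-- Calculus of Wirtinger derivatives of smooth functions. -/
def S_WD : Prop := ∀ (κ : Type) [Fintype κ] [DecidableEq κ] (c : ℂ) (a : κ),
    (∀ u : (κ → ℂ) → ℂ, ContDiff ℝ ∞ u → ContDiff ℝ ∞ (wd c a u)) ∧
    (∀ (c' : ℂ) (b : κ) (u : (κ → ℂ) → ℂ), ContDiff ℝ ∞ u →
      wd c a (wd c' b u) = wd c' b (wd c a u)) ∧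
    (∀ u v : (κ → ℂ) → ℂ, ContDiff ℝ ∞ u → ContDiff ℝ ∞ v → ∀ z,
      wd c a (fun y => u y * v y) z = wd c a u z * v z + u z * wd c a v z) ∧
    (∀ (s : Finset κ) (u : κ → (κ → ℂ) → ℂ), (∀ i, ContDiff ℝ ∞ (u i)) → ∀ z,
      wd c a (fun y => ∏ i ∈ s, u i y) z = ∑ i ∈ s, wd c a (u i) z * ∏ j ∈ s.erase i, u j z) ∧
    (∀ u : (κ → ℂ) → ℂ, HasCompactSupport u → HasCompactSupport (wd c a u)) ∧
    (∀ u v : (κ → ℂ) → ℂ, ContDiff ℝ ∞ u → ContDiff ℝ ∞ v → HasCompactSupport u →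
      ∫ z, u z * wd c a v z = -∫ z, wd c a u z * v z) ∧
    ∀ (b : κ) (u : (κ → ℂ) → ℝ), ContDiff ℝ ∞ u → ContDiff ℝ ∞ fun z => levi u z a b

/-- The Piola identities. -/
def S_PIO : Prop := ∀ (κ : Type) [Fintype κ] [DecidableEq κ] (v : κ → (κ → ℂ) → ℝ) (l₀ : κ),
    (∀ l, ContDiff ℝ ∞ (v l)) → ∀ (τ : Equiv.Perm κ) (z : κ → ℂ),
    ∑ σ : Equiv.Perm κ, ((Equiv.Perm.sign σ : ℤ) : ℂ) * wd (-Complex.I) (σ l₀)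
      (fun y => ∏ l ∈ Finset.univ.erase l₀, levi (v l) y (σ l) (τ l)) z = 0 ∧
    ∑ σ : Equiv.Perm κ, ((Equiv.Perm.sign σ : ℤ) : ℂ) * wd Complex.I (σ l₀)
      (fun y => ∏ l ∈ Finset.univ.erase l₀, levi (v l) y (τ l) (σ l)) z = 0

/-- Integration by parts, globally smooth functions. -/
def S_STK0 : Prop := ∀ (κ : Type) [Fintype κ] [DecidableEq κ] (f a : (κ → ℂ) → ℝ)
    (v : κ → (κ → ℂ) → ℝ) (l₀ : κ), ContDiff ℝ ∞ f → HasCompactSupport f → ContDiff ℝ ∞ a →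
    (∀ l, ContDiff ℝ ∞ (v l)) →
    ∫ z, (f z : ℂ) * (wedge fun l => levi (Function.update v l₀ a l) z) =
      ∫ z, (a z : ℂ) * wedge fun l => levi (Function.update v l₀ f l) z

/-- Integration by parts on an open set. -/
def S_STK : Prop := ∀ (κ : Type) [Fintype κ] [DecidableEq κ] (U : Set (κ → ℂ))
    (f a : (κ → ℂ) → ℝ) (v : κ → (κ → ℂ) → ℝ) (l₀ : κ), IsOpen U → ContDiff ℝ ∞ f →
    HasCompactSupport f → tsupport f ⊆ U → ContDiffOn ℝ ∞ a U → (∀ l, ContDiffOn ℝ ∞ (v l) U) →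
    IntegrableOn (fun z => (f z : ℂ) * wedge fun l => levi (Function.update v l₀ a l) z) U ∧
    IntegrableOn (fun z => (a z : ℂ) * wedge fun l => levi (Function.update v l₀ f l) z) U ∧
    ∫ z in U, (f z : ℂ) * (wedge fun l => levi (Function.update v l₀ a l) z) =
      ∫ z in U, (a z : ℂ) * wedge fun l => levi (Function.update v l₀ f l) z

/-- Barrier functions exist. -/
def S_BAR : Prop := ∀ s s' : ℝ, 0 < s → s < s' → s' < 1 → ∃ b β, Bar s s' b β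

/-- Quadratic forms with positive minimum. -/
def S_RYP : Prop := ∀ (ι : Type) [Fintype ι] [DecidableEq ι],
    (∀ s > 0, ∀ t : Sym2 ι → ℝ, (∀ p, p ≠ 0 → s ≤ pr t p) → t ∈ PT ι) ∧
    (∀ K ⊆ PT ι, IsCompact K → ∀ M : ℝ, ∃ P : Finset (ι → ℤ), ∀ t ∈ K, ∀ p, p ∉ P → M ≤ pr t p) ∧
    (∀ t ∈ PT ι, ∀ M : ℝ, ∃ P : Finset (ι → ℤ), ∀ᶠ t' in 𝓝 t, ∀ p, p ∉ P → M ≤ pr t' p) ∧
    (∀ s > 0, IsOpen (RI ι s) ∧ Convex ℝ (RI ι s) ∧ RI ι s ⊆ PT ι ∧ (RI ι s).Nonempty) ∧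
    (∀ t ∈ PT ι, ∃ c > 0, ∀ y : Sym2 ι → ℝ, (mat y).PosSemidef → c * ‖y‖ ≤ t ⬝ᵥ y) ∧
    (∀ y ∈ PD ι, ∃ c > 0, ∀ t : Sym2 ι → ℝ, (dm t).PosSemidef → c * ‖t‖ ≤ t ⬝ᵥ y) ∧
    (∀ t ∈ Ry ι, ∃ P, IsMin t P ∧ ∃ η > 0, ∀ p, p ≠ 0 → p ∉ P → 1 + η ≤ pr t p) ∧
    (∃ t ∈ Ry ι, ∀ p, pr t p ≠ 1)

/-- The Hessian of `- log det` is positive. -/
def S_TRC : Prop := ∀ (ι : Type) [Fintype ι] [DecidableEq ι], ∀ K ⊆ PT ι, IsCompact K →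
    ∃ c > 0, ∀ t ∈ K, ∀ S : Sym2 ι → ℝ,
      c * (S ⬝ᵥ S) ≤ ((dm t)⁻¹ * dm S * (dm t)⁻¹ * dm S).trace

/-- The greedy estimate. -/
def S_GRD : Prop := ∀ (κ : Type) [Fintype κ] [DecidableEq κ] (I : Type) (s : Finset I)
    (v : I → κ → ℝ) (M : ℝ), ∃ (L : Finset (κ → ℝ)) (C : ℝ), 0 ≤ C ∧
    ∀ (b : I → ℝ) (y₀ η S : κ → ℝ), (∀ i, 0 ≤ b i) → ‖y₀‖ ≤ M → (η ⬝ᵥ S) ^ 2 ≤
      C * (∑ l ∈ L, (l ⬝ᵥ η) ^ 2 / (1 + (l ⬝ᵥ (y₀ + ∑ i ∈ s, b i • v i)) ^ 2)) *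
        (S ⬝ᵥ S + ∑ i ∈ s, b i ^ 2 * (v i ⬝ᵥ S) ^ 2)

/-- Derivatives of the barrier potential. -/
def S_LEG1 : Prop := ∀ (ι : Type) [Fintype ι] [DecidableEq ι] (s s' : ℝ) (b β : ℝ → ℝ),
    Bar s s' b β →
    ContDiffOn ℝ ∞ (YY b : (Sym2 ι → ℝ) → Sym2 ι → ℝ) (RI ι s) ∧
    ContDiffOn ℝ ∞ (BB β : (Sym2 ι → ℝ) → ℝ) (RI ι s) ∧
    ContDiffOn ℝ ∞ (fun t : Sym2 ι → ℝ => Real.log (dm t).det) (PT ι) ∧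
    ContDiffOn ℝ ∞ (fun t : Sym2 ι → ℝ => coord (dm t)⁻¹) (PT ι) ∧
    Set.MapsTo (YY b) (RI ι s) (PD ι) ∧
    (∀ t ∈ RI ι s, (mat (YY b t - coord (dm t)⁻¹)).PosSemidef) ∧
    (∀ t ∈ RI ι s, ∀ S, fderiv ℝ (fun t => Real.log (dm t).det - BB β t) t S = YY b t ⬝ᵥ S) ∧
    ∀ t ∈ RI ι s, ∀ (P : Finset (ι → ℤ)) (S : Sym2 ι → ℝ), S ⬝ᵥ fderiv ℝ (YY b) t S ≤
      -((dm t)⁻¹ * dm S * (dm t)⁻¹ * dm S).trace - ∑ p ∈ P, b (pr t p) ^ 2 * pr S p ^ 2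

/-- The gradient map is a bijection. -/
def S_LEG2 : Prop := ∀ (ι : Type) [Fintype ι] [DecidableEq ι] (s s' : ℝ) (b β : ℝ → ℝ),
    Bar s s' b β → Set.BijOn (YY b) (RI ι s) (PD ι)

/-- The inverse map and the Legendre transform. -/
def S_LEG3 : Prop := ∀ (ι : Type) [Fintype ι] [DecidableEq ι] (s s' : ℝ) (b β : ℝ → ℝ),
    Bar s s' b β →
    ContDiffOn ℝ ∞ (GG s b) (PD ι) ∧ Set.BijOn (GG s b) (PD ι) (RI ι s) ∧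
    (∀ y ∈ PD ι, YY b (GG s b y) = y) ∧ (∀ t ∈ RI ι s, GG s b (YY b t) = t) ∧
    (∀ y ∈ PD ι, ∀ η, fderiv ℝ (YY b) (GG s b y) (fderiv ℝ (GG s b) y η) = η) ∧
    ContDiffOn ℝ ∞ (Ph s b β) (PD ι) ∧
    (∀ y ∈ PD ι, ∀ η, fderiv ℝ (Ph s b β) y η = -(GG s b y ⬝ᵥ η)) ∧
    ∀ y ∈ PD ι, ∀ η η', fderiv ℝ (fderiv ℝ (Ph s b β)) y η η' = -(fderiv ℝ (GG s b) y η ⬝ᵥ η')

/-- Poincare growth of the Hessian of the Legendre transform. -/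
def S_HESS : Prop := ∀ (ι : Type) [Fintype ι] [DecidableEq ι] (s s' : ℝ) (b β : ℝ → ℝ),
    Bar s s' b β → ∀ K ⊆ PT ι, IsCompact K → ∃ (L : Finset (Sym2 ι → ℝ)) (C : ℝ), 0 ≤ C ∧
      ∀ z ∈ HS ι, GG s b (imv z) ∈ K → Dom L (imv z) C (levi (fun w => Ph s b β (imv w)) z)

/-- The Monge-Ampere density of the Legendre transform. -/
def S_MA : Prop := ∀ (ι : Type) [Fintype ι] [DecidableEq ι] (s s' : ℝ) (b β : ℝ → ℝ),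
    Bar s s' b β → ∀ z ∈ HS ι, (wedge fun _ => levi (fun w => Ph s b β (imv w)) z) =
      ((((tri (Fintype.card ι)).factorial : ℝ) / 4 ^ tri (Fintype.card ι) *
        |(fderiv ℝ (GG s b) (imv z)).det| : ℝ) : ℂ)

/-- Moves along isotropic directions; translations. -/
def S_MOV : Prop := ∀ (ι : Type) [Fintype ι] [DecidableEq ι],
    (∀ (γ : SpZ ι) (P : Finset (ι → ℤ)) (q : (ι → ℤ) → ι → ℤ) (c : (ι → ℤ) → ℂ)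
      (z : Sym2 ι → ℂ), (∀ p ∈ P, γ.1 *ᵥ lv p = lv (q p)) →
      den (toR γ).1 (z + ∑ p ∈ P, c p • tv p) = den (toR γ).1 z ∧
      ((den (toR γ).1 z).det ≠ 0 → actF (toR γ).1 (z + ∑ p ∈ P, c p • tv p) =
        actF (toR γ).1 z + ∑ p ∈ P, c p • tv (q p))) ∧
    (∀ (Z Z' : HH ι) (P : Finset (ι → ℤ)) (c : (ι → ℤ) → ℝ), (∀ p, 0 ≤ c p) →
      rev Z.1 = rev Z'.1 → imv Z.1 = imv Z'.1 + ∑ p ∈ P, c p • sqr p → ∀ v : ι ⊕ ι → ℤ,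
      (∀ p ∈ P, c p ≠ 0 → om (lv p) v = 0) → qf (Qm Z) v ≤ qf (Qm Z') v) ∧
    (∀ r : Sym2 ι → ℤ, ∃ u ∈ UU ι, ∀ Z : HH ι, (u • Z).1 = Z.1 + fun a => (r a : ℂ)) ∧
    (∀ u ∈ UU ι, (∃ r : Sym2 ι → ℤ, ∀ Z : HH ι, (u • Z).1 = Z.1 + fun a => (r a : ℂ)) ∧
      (∀ Z : HH ι, jf (toR u) Z = 1) ∧ ∀ p, u.1 *ᵥ lv p = lv p) ∧
    (∀ (γ : SpZ ι) (n : Sym2 ι → ℤ), ∃ n' : Sym2 ι → ℤ, ∀ p q, γ.1 *ᵥ lv p = lv q →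
      n' ⬝ᵥ sqz p = n ⬝ᵥ sqz q) ∧
    ∀ p q : ι → ℤ, om (lv p) (lv q) = 0

/-- Short vectors can be moved into the standard Lagrangian. -/
def S_ISOL : Prop := ∀ (ι : Type) [Fintype ι] [DecidableEq ι],
    (∀ A : Set (ι ⊕ ι → ℤ), (∀ u ∈ A, ∀ v ∈ A, om u v = 0) →
      ∃ γ : SpZ ι, ∀ v ∈ A, ∀ i, (γ.1 *ᵥ v) (Sum.inr i) = 0) ∧
    (∀ Z : HH ι, ∃ γ : SpZ ι, γ • Z ∈ NN ι) ∧
    (∀ s > 0, ∃ K ⊆ NN ι, IsCompact K ∧ ∀ Z, Z ∉ Short ι s → ∃ γ : SpZ ι, γ • Z ∈ K) ∧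
    (∀ s, IsOpen (HG ι s) ∧ IsOpen (OO ι s)) ∧
    ∀ s (γ : SpZ ι) (Z : HH ι), γ • Z ∈ HG ι s ↔ Z ∈ HG ι s

/-- The maps `shp` and `flt`. -/
def S_FLAT1 : Prop := ∀ (ι : Type) [Fintype ι] [DecidableEq ι] (s s' : ℝ) (b β : ℝ → ℝ),
    Bar s s' b β → Continuous (flt s b : HH ι → HH ι) ∧
    ContinuousOn (shp b) {Z : HH ι | tOf Z ∈ RI ι s} ∧
    (∀ Z : HH ι, tOf (flt s b Z) = GG s b (imv Z.1) ∧ tOf (flt s b Z) ∈ RI ι s ∧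
      rev (flt s b Z).1 = rev Z.1 ∧ shp b (flt s b Z) = Z ∧
      imv Z.1 = YY b (tOf (flt s b Z))) ∧
    ∀ Z : HH ι, tOf Z ∈ RI ι s → (shp b Z).1 = cv (rev Z.1) (YY b (tOf Z)) ∧
      flt s b (shp b Z) = Z ∧ GG s b (imv (shp b Z).1) = tOf Z

/-- Equivariance of `shp`. -/
def S_FLAT2 : Prop := ∀ (ι : Type) [Fintype ι] [DecidableEq ι] (s s' : ℝ) (b β : ℝ → ℝ),
    Bar s s' b β → ∀ (γ : SpZ ι) (Z : HH ι), Z ∈ HG ι s → Z ∈ OO ι s' → γ • Z ∈ OO ι s' →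
      shp b (γ • Z) = γ • shp b Z ∧ Ph s b β (imv (γ • shp b Z).1) =
        Ph s b β (imv (shp b Z).1) + Real.log (‖jf (toR γ) (shp b Z)‖ ^ 2)

/-- Equivariance of `flt`. -/
def S_FLAT3 : Prop := ∀ (ι : Type) [Fintype ι] [DecidableEq ι] (s s' : ℝ) (b β : ℝ → ℝ),
    Bar s s' b β → IsOpen (OS ι s s' b) ∧ NN ι ⊆ OS ι s s' b ∧
    (∀ (γ : SpZ ι) (Z : HH ι), Z ∈ OS ι s s' b → γ • Z ∈ OS ι s s' b →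
      flt s b (γ • Z) = γ • flt s b Z ∧
      Ph s b β (imv (γ • Z).1) = Ph s b β (imv Z.1) + Real.log (‖jf (toR γ) Z‖ ^ 2)) ∧
    ∃ K ⊆ NN ι, IsCompact K ∧ ∀ Z : HH ι, ∃ γ : SpZ ι, flt s b (γ • Z) ∈ K ∩ HG ι s

/-- Invariance of the density. -/
def S_INVD : Prop := ∀ (ι : Type) [Fintype ι] [DecidableEq ι],
    (∀ γ : SpR ι, ContDiffOn ℂ ∞ (actF γ.1) {z | (den γ.1 z).det ≠ 0} ∧
      ContDiffOn ℂ ∞ (actF γ.1) (HS ι) ∧ (ContDiff ℂ ∞ fun z => (den γ.1 z).det) ∧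
      ContDiffOn ℝ ∞ (fun z => Real.log (‖(den γ.1 z).det‖ ^ 2)) {z | (den γ.1 z).det ≠ 0}) ∧
    (∀ (γ : SpR ι) (v : Sym2 ι → (Sym2 ι → ℂ) → ℝ) (Z : HH ι),
      (∀ l, ContDiffOn ℝ ∞ (v l) (HS ι)) → dns (fun l z => v l (actF γ.1 z)) Z = dns v (γ • Z)) ∧
    (∀ (c : ℝ) (v : (Sym2 ι → ℂ) → ℝ) (γ : SpZ ι) (Z : HH ι), Pot c v →
      levi (fun z => v (actF (toR γ).1 z)) Z.1 = levi v Z.1) ∧
    (∀ (c : Sym2 ι → ℝ) (v : Sym2 ι → (Sym2 ι → ℂ) → ℝ) (γ : SpZ ι) (Z : HH ι),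
      (∀ l, Pot (c l) (v l)) → dns v (γ • Z) = dns v Z) ∧
    ∀ v : Sym2 ι → (Sym2 ι → ℂ) → ℝ, (∀ l, ContDiffOn ℝ ∞ (v l) (HS ι)) → Continuous (dns v)

/-- The model potential. -/
def S_POT : Prop := ∀ (ι : Type) [Fintype ι] [DecidableEq ι] (s s' : ℝ) (b β : ℝ → ℝ),
    Bar s s' b β → ∃ φ, Pot 1 φ ∧ ∀ Z ∈ OS ι s s' b, φ Z.1 = Ph s b β (imv Z.1)

/-- Weights: support, complex integrals. -/
def S_WTC : Prop := ∀ (G X : Type) [Group G] [Countable G] [MulAction G X] [MeasurableSpace X]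
    [MeasurableConstSMul G X] (μ : Measure X) [SMulInvariantMeasure G X μ] (w : X → ℝ≥0∞),
    IsWt G X w →
    (∀ R : Set X, MeasurableSet R → (∀ x : X, ∃ γ : G, γ • x ∈ R) →
      ∃ w', IsWt G X w' ∧ ∀ x, x ∉ R → w' x = 0) ∧
    (∀ x, w x ≤ 1) ∧
    (∀ (w' : X → ℝ≥0∞) (φ : X → ℂ), IsWt G X w' → Measurable φ →
      (∀ (γ : G) x, φ (γ • x) = φ x) →
      (Integrable φ (μ.withDensity w) ↔ Integrable φ (μ.withDensity w')) ∧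
      ∫ x, φ x ∂μ.withDensity w = ∫ x, φ x ∂μ.withDensity w') ∧
    ∀ φ : X → ℂ, Measurable φ → Integrable φ μ →
      ∫ x, φ x ∂μ = ∫ x, (∑' γ : G, φ (γ • x)) ∂μ.withDensity w

/-- The invariant measure and Lebesgue measure, for complex integrals. -/
def S_AMB : Prop := ∀ (ι : Type) [Fintype ι] [DecidableEq ι] (ψ : (Sym2 ι → ℂ) → ℂ)
    (A : Set (Sym2 ι → ℂ)), MeasurableSet A → A ⊆ HS ι →
    (IntegrableOn (fun Z : HH ι => ψ Z.1 * (((Ym Z).det ^ (Fintype.card ι + 1) : ℝ) : ℂ))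
      {Z | Z.1 ∈ A} (μH ι) ↔ IntegrableOn ψ A) ∧
    ∫ Z in {Z : HH ι | Z.1 ∈ A}, ψ Z.1 * (((Ym Z).det ^ (Fintype.card ι + 1) : ℝ) : ℂ) ∂μH ι =
      ∫ z in A, ψ z

/-- Change of variables by `flt`. -/
def S_CHV : Prop := ∀ (ι : Type) [Fintype ι] [DecidableEq ι] (s s' : ℝ) (b β : ℝ → ℝ),
    Bar s s' b β → ∀ φ : HH ι → ℝ≥0∞, Measurable φ →
      ∫⁻ Z, ENNReal.ofReal (|(fderiv ℝ (GG s b) (imv Z.1)).det| *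
        (Ym Z).det ^ (Fintype.card ι + 1)) * φ (flt s b Z) ∂μH ι =
      2 ^ (tri (Fintype.card ι) - Fintype.card ι) * ∫⁻ Z in {Z | tOf Z ∈ RI ι s}, φ Z ∂μH ι

/-- The mass of the set of lattices with large minimum. -/
def S_NUL : Prop := ∀ (g : ℕ) (σ : ℝ) (w : HH (Fin g) → ℝ≥0∞), 0 < σ → 4 * Real.pi * σ < 1 →
    IsWt (SpZ (Fin g)) (HH (Fin g)) w →
    2 * cg g * (mass w (HG (Fin g) (4 * Real.pi * σ))).toReal = vlim g σ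

/-- The Monge-Ampere mass of the model potential. -/
def S_MASS : Prop := ∀ (ι : Type) [Fintype ι] [DecidableEq ι] (s s' : ℝ) (b β : ℝ → ℝ),
    Bar s s' b β → ∀ (φ : (Sym2 ι → ℂ) → ℝ) (w : HH ι → ℝ≥0∞), Pot 1 φ →
      (∀ Z ∈ OS ι s s' b, φ Z.1 = Ph s b β (imv Z.1)) → IsWt (SpZ ι) (HH ι) w →
      ∫ Z, dns (fun _ => φ) Z ∂νw w =
        ((((tri (Fintype.card ι)).factorial : ℝ) / 4 ^ tri (Fintype.card ι) *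
          2 ^ (tri (Fintype.card ι) - Fintype.card ι) * (mass w (HG ι s)).toReal : ℝ) : ℂ)

/-- Invariant functions with compact support on the quotient are sums of translates. -/
def S_PART : Prop := ∀ (ι : Type) [Fintype ι] [DecidableEq ι],
    (∀ K : Set (HH ι), IsCompact K → ∀ Z : HH ι, ∃ s : Finset (SpZ ι),
      ∀ᶠ W in 𝓝 Z, ∀ γ, γ ∉ s → γ • W ∉ K) ∧
    ∀ f : (Sym2 ι → ℂ) → ℝ, Pot 0 f →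
      (∃ K : Set (HH ι), IsCompact K ∧ ∀ Z : HH ι, f Z.1 ≠ 0 → ∃ γ : SpZ ι, γ • Z ∈ K) →
      ∃ h : (Sym2 ι → ℂ) → ℝ, ContDiff ℝ ∞ h ∧ HasCompactSupport h ∧ tsupport h ⊆ HS ι ∧
        ∀ Z : HH ι, f Z.1 = ∑ᶠ γ : SpZ ι, h (γ • Z).1

/-- Integration by parts on the quotient. -/
def S_SWAP0 : Prop := ∀ (ι : Type) [Fintype ι] [DecidableEq ι] (w : HH ι → ℝ≥0∞)
    (c : Sym2 ι → ℝ) (v : Sym2 ι → (Sym2 ι → ℂ) → ℝ) (l₀ : Sym2 ι) (a f : (Sym2 ι → ℂ) → ℝ),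
    IsWt (SpZ ι) (HH ι) w → (∀ l, Pot (c l) (v l)) → Pot 0 a → Pot 0 f →
    (∃ K : Set (HH ι), IsCompact K ∧ ∀ Z : HH ι, f Z.1 ≠ 0 → ∃ γ : SpZ ι, γ • Z ∈ K) →
    ∫ Z, (f Z.1 : ℂ) * dns (Function.update v l₀ a) Z ∂νw w =
      ∫ Z, (a Z.1 : ℂ) * dns (Function.update v l₀ f) Z ∂νw w

/-- Estimates in a toric chart. -/
def S_REG1 : Prop := ∀ (ι : Type) [Fintype ι] [DecidableEq ι],
    (∀ (t : Sym2 ι → ℝ) (W : Sym2 ι → ℂ) (u : (Sym2 ι → ℂ) → ℝ), Sm t W u →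
      ∃ (L : Finset (Sym2 ι → ℝ)) (C : ℝ), 0 ≤ C ∧ ∀ᶠ z in cfil t W, |u z| ≤ C ∧
        ContDiffAt ℝ ∞ u z ∧ Dom L (imv z) C (levi u z) ∧
        ∀ ζ, ‖dzz u z ⬝ᵥ ζ‖ ^ 2 ≤ C * omg L (imv z) ζ) ∧
    ∀ (c d : ℝ) (u : (Sym2 ι → ℂ) → ℝ), Met c d u → Pot c u

/-- The limit of `shp` at the boundary. -/
def S_REG2 : Prop := ∀ (ι : Type) [Fintype ι] [DecidableEq ι] (s s' : ℝ) (b β : ℝ → ℝ),
    Bar s s' b β → ∀ Z₀ : HH ι, Z₀ ∉ Short ι s → s⁻¹ • tOf Z₀ ∈ Ry ι ∧ ∃ W ∈ HS ι,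
      Tendsto (fun Z => (shp b Z).1) (𝓝[HG ι s] Z₀) (cfil (s⁻¹ • tOf Z₀) W)

/-- The Legendre transform near the boundary. -/
def S_REGB : Prop := ∀ (ι : Type) [Fintype ι] [DecidableEq ι] (s s' : ℝ) (b β : ℝ → ℝ),
    Bar s s' b β → ∀ Z₀ : HH ι, Z₀ ∉ Short ι s → ∃ C : ℝ, 0 ≤ C ∧ ∀ᶠ Z in 𝓝[HG ι s] Z₀,
      0 ≤ tOf Z₀ ⬝ᵥ imv (shp b Z).1 ∧ ‖imv (shp b Z).1‖ ≤ C * (tOf Z₀ ⬝ᵥ imv (shp b Z).1) ∧
      |Ph s b β (imv (shp b Z).1) + tOf Z₀ ⬝ᵥ imv (shp b Z).1| ≤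
        C * (1 + Real.log (1 + tOf Z₀ ⬝ᵥ imv (shp b Z).1))

/-- Local estimates. -/
def S_LOCE : Prop := ∀ (ι : Type) [Fintype ι] [DecidableEq ι] (s s' : ℝ) (b β : ℝ → ℝ)
    (μ δ : (Sym2 ι → ℂ) → ℝ), Bar s s' b β → Met 1 0 μ → Met 0 1 δ →
    ∀ Z₀ : HH ι, Z₀ ∉ Short ι s → ∃ (L : Finset (Sym2 ι → ℝ)) (C : ℝ), 0 ≤ C ∧
      ∀ᶠ Z in 𝓝[HG ι s] Z₀, Est s μ δ (fun z => Ph s b β (imv z)) L C (shp b Z).1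

/-- Global estimates. -/
def S_REG3 : Prop := ∀ (ι : Type) [Fintype ι] [DecidableEq ι] (s s' : ℝ) (b β : ℝ → ℝ)
    (μ δ φ : (Sym2 ι → ℂ) → ℝ), Bar s s' b β → Met 1 0 μ → Met 0 1 δ →
    (∀ Z ∈ OS ι s s' b, φ Z.1 = Ph s b β (imv Z.1)) →
    ∃ (R : Set (HH ι)) (L : Finset (Sym2 ι → ℝ)) (C : ℝ), Reg R ∧ Tame R L φ ∧ 0 ≤ C ∧
      (∀ Z ∈ R, Est s μ δ φ L C Z.1) ∧
      ∀ r : ℝ, ∃ K : Set (HH ι), IsCompact K ∧ ∀ Z ∈ R, ‖imv Z.1‖ ≤ r → Z ∈ K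

/-- The exhaustion function. -/
def S_EXH : Prop := ∀ (ι : Type) [Fintype ι] [DecidableEq ι] (s : ℝ) (μ δ φ : (Sym2 ι → ℂ) → ℝ)
    (R : Set (HH ι)) (L : Finset (Sym2 ι → ℝ)) (C : ℝ), Reg R → Pot 0 δ → 0 ≤ C →
    (∀ Z ∈ R, Est s μ δ φ L C Z.1) →
    (∀ r : ℝ, ∃ K : Set (HH ι), IsCompact K ∧ ∀ Z ∈ R, ‖imv Z.1‖ ≤ r → Z ∈ K) →
    ∃ (ρ : (Sym2 ι → ℂ) → ℝ) (C' : ℝ), Exh R L ρ ∧
      ∀ Z ∈ R, |μ Z.1 - s / (4 * Real.pi) * δ Z.1 - φ Z.1| ≤ C' * (1 + ρ Z.1)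

/-- Integrability. -/
def S_INT : Prop := ∀ (ι : Type) [Fintype ι] [DecidableEq ι] (R : Set (HH ι))
    (L : Finset (Sym2 ι → ℝ)), Reg R →
    (∃ (w : HH ι → ℝ≥0∞) (M : HH ι → ℝ), IsWt (SpZ ι) (HH ι) w ∧ (∀ᵐ Z ∂νw w, Z ∈ R) ∧
      Integrable M (νw w) ∧ (∀ Z, 0 ≤ M Z) ∧
      ∀ (Z : HH ι) (C : Sym2 ι → ℝ) (v : Sym2 ι → (Sym2 ι → ℂ) → ℝ), (∀ l, 0 ≤ C l) →
        (∀ l, Dom L (imv Z.1) (C l) (levi (v l) Z.1)) → ‖dns v Z‖ ≤ (∏ l, C l) * M Z) ∧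
    ∀ (w : HH ι → ℝ≥0∞) (c : Sym2 ι → ℝ) (v : Sym2 ι → (Sym2 ι → ℂ) → ℝ),
      IsWt (SpZ ι) (HH ι) w → (∀ l, Pot (c l) (v l) ∧ Tame R L (v l)) → Integrable (dns v) (νw w)

/-- Exact forms with logarithmic growth have integral zero. -/
def S_SWAP : Prop := ∀ (ι : Type) [Fintype ι] [DecidableEq ι] (R : Set (HH ι))
    (L : Finset (Sym2 ι → ℝ)) (ρ : (Sym2 ι → ℂ) → ℝ) (w : HH ι → ℝ≥0∞) (c : Sym2 ι → ℝ)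
    (v : Sym2 ι → (Sym2 ι → ℂ) → ℝ) (l₀ : Sym2 ι) (a : (Sym2 ι → ℂ) → ℝ) (C : ℝ), Reg R →
    Exh R L ρ → IsWt (SpZ ι) (HH ι) w → (∀ l, Pot (c l) (v l) ∧ Tame R L (v l)) → Pot 0 a →
    Tame R L a → (∀ Z ∈ R, |a Z.1| ≤ C * (1 + ρ Z.1)) →
    ∫ Z, dns (Function.update v l₀ a) Z ∂νw w = 0

/-- Telescoping. -/
def S_TEL : Prop := ∀ (ι : Type) [Fintype ι] [DecidableEq ι] (R : Set (HH ι))
    (L : Finset (Sym2 ι → ℝ)) (ρ : (Sym2 ι → ℂ) → ℝ) (w : HH ι → ℝ≥0∞)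
    (u u' : (Sym2 ι → ℂ) → ℝ) (C : ℝ), Reg R → Exh R L ρ → IsWt (SpZ ι) (HH ι) w → Pot 1 u →
    Pot 1 u' → Tame R L u → Tame R L u' → (∀ Z ∈ R, |u Z.1 - u' Z.1| ≤ C * (1 + ρ Z.1)) →
    ∫ Z, dns (fun _ => u) Z ∂νw w = ∫ Z, dns (fun _ => u') Z ∂νw w

/-- The generating identity. -/
def S_CW1 : Prop := ∀ (g : ℕ) (μ δ : (Sym2 (Fin g) → ℂ) → ℝ) (w : HH (Fin g) → ℝ≥0∞),
    Met 1 0 μ → Met 0 1 δ → IsWt (SpZ (Fin g)) (HH (Fin g)) w →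
    (∀ B : Finset (Sym2 (Fin g)), Integrable (dns fun l => if l ∈ B then δ else μ) (νw w)) ∧
    ∀ σ : ℝ, 0 < σ → 4 * Real.pi * σ < 1 →
      ∑ B : Finset (Sym2 (Fin g)), (-σ : ℂ) ^ B.card *
        ∫ Z, dns (fun l => if l ∈ B then δ else μ) Z ∂νw w =
      ((Real.pi ^ tri g * ∑ b ∈ Finset.range (tri g + 1),
        ((tri g).choose b : ℝ) * (-σ) ^ b * inter g b : ℝ) : ℂ)

/-- The mixed integrals. -/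
def S_CW : Prop := ∀ (g : ℕ) (μ δ : (Sym2 (Fin g) → ℂ) → ℝ) (w : HH (Fin g) → ℝ≥0∞)
    (B : Finset (Sym2 (Fin g))), Met 1 0 μ → Met 0 1 δ → IsWt (SpZ (Fin g)) (HH (Fin g)) w →
    Integrable (dns fun l => if l ∈ B then δ else μ) (νw w) ∧
    ∫ Z, dns (fun l => if l ∈ B then δ else μ) Z ∂νw w =
      ((Real.pi ^ tri g * inter g B.card : ℝ) : ℂ)

/-- Fundamental domains exist. -/
def S_FD1 : Prop := ∀ (ι : Type) [Fintype ι] [DecidableEq ι], ∃ F : Set (Sym2 ι → ℂ), FD F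

/-- Integrals over fundamental domains. -/
def S_FD2 : Prop := ∀ (ι : Type) [Fintype ι] [DecidableEq ι] [Nonempty ι]
    (F : Set (Sym2 ι → ℂ)) (w : HH ι → ℝ≥0∞) (φ : HH ι → ℂ), FD F → IsWt (SpZ ι) (HH ι) w →
    Measurable φ → (∀ (γ : SpZ ι) Z, φ (γ • Z) = φ Z) → Integrable φ (νw w) →
    IntegrableOn φ {Z | Z.1 ∈ F} (μH ι) ∧
      ∫ Z in {Z : HH ι | Z.1 ∈ F}, φ Z ∂μH ι = 2 * ∫ Z, φ Z ∂νw w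

/-- Minkowski-Weyl for rational cones. -/
def S_MW : Prop := ∀ (κ : Type) [Fintype κ] [DecidableEq κ] (I : Type) (s : Finset I)
    (v : I → κ → ℤ), ∃ A : Finset (κ → ℤ), (∀ n ∈ A, ∀ i ∈ s, 0 ≤ n ⬝ᵥ v i) ∧
    ∀ y : κ → ℝ, (∀ n ∈ A, 0 ≤ cz n ⬝ᵥ y) →
      ∃ c : I → ℝ, (∀ i, 0 ≤ c i) ∧ y = ∑ i ∈ s, c i • cz (v i)

/-- An integral complement of a rational subspace. -/
def S_SPL : Prop := ∀ (κ : Type) [Fintype κ] [DecidableEq κ] (I : Type) (s : Finset I)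
    (v : I → κ → ℤ), ∃ (r : ℕ) (m e : Fin r → κ → ℤ), (∀ j, ∀ i ∈ s, m j ⬝ᵥ v i = 0) ∧
    (∀ j k, m j ⬝ᵥ e k = if j = k then 1 else 0) ∧
    ∀ x : κ → ℝ, (∀ j, cz (m j) ⬝ᵥ x = 0) → ∃ c : I → ℝ, x = ∑ i ∈ s, c i • cz (v i)

/-- Calculus of functions that are smooth at a chart point. -/
def S_SMV : Prop := ∀ (ι : Type) [Fintype ι] [DecidableEq ι] (t : Sym2 ι → ℝ) (W : Sym2 ι → ℂ),
    (∀ A ∈ cfil t W, ∃ (m : ℕ) (n : Fin m → Sym2 ι → ℤ) (ε : ℝ), 0 < ε ∧ (∀ l, Du t (n l)) ∧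
      ∀ z ∈ HS ι, (fun l => chr (n l) z) ∈ Metric.ball (fun l => chr0 t W (n l)) ε → z ∈ A) ∧
    (∀ (u : (Sym2 ι → ℂ) → ℝ) (c : ℝ), SmV t W u c → Sm t W u) ∧
    (∀ n, Du t n → SmV t W (chr n) (chr0 t W n)) ∧
    (t ∈ Ry ι → W ∈ HS ι → (cfil t W).NeBot) ∧
    (∀ (u u' : (Sym2 ι → ℂ) → ℝ) (c c' : ℝ), SmV t W u c → SmV t W u' c' →
      SmV t W (fun z => u z * u' z) (c * c')) ∧
    (∀ (u u' : (Sym2 ι → ℂ) → ℂ) (c c' : ℂ), SmV t W u c → SmV t W u' c' →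
      SmV t W (fun z => u z * u' z) (c * c')) ∧
    ∀ (E : Type) [NormedAddCommGroup E] [NormedSpace ℝ E],
      (∀ (u u' : (Sym2 ι → ℂ) → E) (c : E), SmV t W u c → (∀ᶠ z in cfil t W, u' z = u z) →
        SmV t W u' c) ∧
      (∀ (u : (Sym2 ι → ℂ) → E) (c : E), SmV t W u c → Tendsto u (cfil t W) (𝓝 c)) ∧
      (∀ c : E, SmV t W (fun _ => c) c) ∧
      (∀ (I : Type) [Fintype I] (u : I → (Sym2 ι → ℂ) → E) (c : I → E),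
        (∀ i, SmV t W (u i) (c i)) → SmV t W (fun z i => u i z) c) ∧
      (∀ (I : Type) (s : Finset I) (u : I → (Sym2 ι → ℂ) → E) (c : I → E),
        (∀ i ∈ s, SmV t W (u i) (c i)) → SmV t W (fun z => ∑ i ∈ s, u i z) (∑ i ∈ s, c i)) ∧
      ∀ (E' : Type) [NormedAddCommGroup E'] [NormedSpace ℝ E'],
        (∀ (u : (Sym2 ι → ℂ) → E) (u' : (Sym2 ι → ℂ) → E') (c : E) (c' : E'), SmV t W u c →
          SmV t W u' c' → SmV t W (fun z => (u z, u' z)) (c, c')) ∧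
        ∀ (u : (Sym2 ι → ℂ) → E) (c : E) (G : E → E') (O : Set E), SmV t W u c → IsOpen O →
          c ∈ O → ContDiffOn ℝ ∞ G O → SmV t W (fun z => G (u z)) (G c)

/-- Points near a chart point lie deep in the cone. -/
def S_DEEP : Prop := ∀ (ι : Type) [Fintype ι] [DecidableEq ι] (t : Sym2 ι → ℝ) (W : Sym2 ι → ℂ)
    (P : Finset (ι → ℤ)), IsMin t P → ∀ η > 0, ∀ R : ℝ, ∀ᶠ z in cfil t W,
      ∃ c : (ι → ℤ) → ℝ, (∀ p, R ≤ c p) ∧ ‖imv z - ∑ p ∈ P, c p • sqr p - imv W‖ ≤ η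

/-- Reduction modulo integral translations. -/
def S_RED : Prop := ∀ (ι : Type) [Fintype ι] [DecidableEq ι] (t : Sym2 ι → ℝ) (W : Sym2 ι → ℂ)
    (P : Finset (ι → ℤ)), IsMin t P → ∃ (r : (Sym2 ι → ℂ) → Sym2 ι → ℤ) (C : ℝ),
      (∀ᶠ z in cfil t W, ‖rev z - cz (r z)‖ ≤ C) ∧
      ∀ (E : Type) [NormedAddCommGroup E] [NormedSpace ℝ E] (Ω : Set (Sym2 ι → ℂ))
        (h : (Sym2 ι → ℂ) → E), IsOpen Ω → W ∈ Ω → ContDiffOn ℝ ∞ h Ω →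
        (∀ z ∈ Ω, ∀ c : (ι → ℤ) → ℂ, h (z + ∑ p ∈ P, c p • tv p) = h z) →
        SmV t W (fun z => h (z - fun a => (r z a : ℂ))) (h W)

/-- The dual form near a cusp. -/
def S_PM : Prop := ∀ (ι : Type) [Fintype ι] [DecidableEq ι],
    (∀ (γ : SpZ ι) (Z : HH ι) (G : Matrix (ι ⊕ ι) (ι ⊕ ι) ℝ),
      (G * (Qm (γ • Z))⁻¹).trace = ((toR γ).1ᵀ * G * (toR γ).1 * (Qm Z)⁻¹).trace) ∧
    (∀ (γ : SpZ ι) (G : Matrix (ι ⊕ ι) (ι ⊕ ι) ℝ) (v : ι ⊕ ι → ℤ),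
      qf ((toR γ).1ᵀ * G * (toR γ).1) v = qf G (γ.1 *ᵥ v)) ∧
    ∀ K ⊆ PD ι, IsCompact K → ∀ M : ℝ, ∃ k > 0, ∀ (Z : HH ι) (P : Finset (ι → ℤ))
      (c : (ι → ℤ) → ℝ) (G : Matrix (ι ⊕ ι) (ι ⊕ ι) ℝ), ‖rev Z.1‖ ≤ M → (∀ p, 0 ≤ c p) →
      imv Z.1 - ∑ p ∈ P, c p • sqr p ∈ K → G.PosSemidef →
      ∑ p ∈ P, c p * qf G (lv p) + k * ∑ i, qf G (ev i) ≤ (G * (Qm Z)⁻¹).trace ∧
      (G * (Qm Z)⁻¹).trace ≤ ∑ p ∈ P, c p * qf G (lv p) + k⁻¹ * G.trace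

/-- Properness of the action on toric charts. -/
def S_PQ : Prop := ∀ (ι : Type) [Fintype ι] [DecidableEq ι] (t t₁ : Sym2 ι → ℝ)
    (P P₁ : Finset (ι → ℤ)) (K K₁ : Set (Sym2 ι → ℝ)) (M : ℝ), t ∈ Ry ι → t₁ ∈ Ry ι →
    IsMin t P → IsMin t₁ P₁ → K ⊆ PD ι → IsCompact K → K₁ ⊆ PD ι → IsCompact K₁ →
    ∃ (R : ℝ) (Λ : Finset (SpZ ι ⧸ UU ι)),
      (∀ q ∈ Λ, ∀ p ∈ P₁, ∃ p' ∈ P, (rep q).1 *ᵥ lv p = lv p') ∧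
      ∀ (q : SpZ ι ⧸ UU ι) (Z : HH ι) (c c₁ : (ι → ℤ) → ℝ), ‖rev Z.1‖ ≤ M → (∀ p, R ≤ c₁ p) →
        imv Z.1 - ∑ p ∈ P₁, c₁ p • sqr p ∈ K₁ → (∀ p, 0 ≤ c p) →
        imv (rep q • Z).1 - ∑ p ∈ P, c p • sqr p ∈ K → q ∈ Λ

/-- Bump functions exist. -/
def S_BMP : Prop := ∀ (ι : Type) [Fintype ι] [DecidableEq ι] (t : Sym2 ι → ℝ) (W : Sym2 ι → ℂ)
    (P : Finset (ι → ℤ)), IsMin t P → W ∈ HS ι → ∃ a, Adm t P a ∧ ∀ᶠ z in cfil t W, a z = 1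

/-- Algebra of the coset sums. -/
def S_CSI : Prop := ∀ (ι : Type) [Fintype ι] [DecidableEq ι] (t : Sym2 ι → ℝ)
    (P : Finset (ι → ℤ)) (a : (Sym2 ι → ℂ) → ℝ), t ∈ Ry ι → IsMin t P → Adm t P a →
    (∀ (x₀ x₁ x₂ : ℝ) (γ : SpZ ι) (Z : HH ι), csum a t 0 x₀ x₁ x₂ (γ • Z) =
      csum a t 0 x₀ x₁ x₂ Z - x₁ * Real.log (‖jf (toR γ) Z‖ ^ 2) * csum a t 0 1 0 0 Z) ∧
    (∀ (t₁ : Sym2 ι → ℝ) (x₀ x₁ x₂ : ℝ) (Z : HH ι), csum a t t₁ x₀ x₁ x₂ Z =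
      csum a t 0 x₀ x₁ x₂ Z - x₂ * (t₁ ⬝ᵥ imv Z.1) * csum a t 0 1 0 0 Z) ∧
    (∀ (t₁ : Sym2 ι → ℝ) (x₀ x₁ x₂ : ℝ), ∀ u ∈ UU ι, ∀ Z : HH ι,
      csum a t t₁ x₀ x₁ x₂ (u • Z) = csum a t t₁ x₀ x₁ x₂ Z) ∧
    (∀ Z : HH ι, 0 ≤ csum a t 0 1 0 0 Z) ∧
    ∀ (γ : SpZ ι) (Z : HH ι), a (γ • Z).1 ≤ csum a t 0 1 0 0 Z

/-- The coset sums are smooth in all charts. -/
def S_LFS : Prop := ∀ (ι : Type) [Fintype ι] [DecidableEq ι] (t t₁ : Sym2 ι → ℝ)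
    (W₁ : Sym2 ι → ℂ) (P : Finset (ι → ℤ)) (a : (Sym2 ι → ℂ) → ℝ) (x₀ x₁ x₂ : ℝ), t ∈ Ry ι →
    IsMin t P → Adm t P a → t₁ ∈ Ry ι → W₁ ∈ HS ι →
    ∃ c, SmV t₁ W₁ (fun z => csum a t t₁ x₀ x₁ x₂ (toH z)) c

/-- Compactness of the toroidal compactification. -/
def S_COV : Prop := ∀ (ι : Type) [Fintype ι] [DecidableEq ι]
    (V : (Sym2 ι → ℝ) × (Sym2 ι → ℂ) → Set (Sym2 ι → ℂ)),
    (∀ x, x.1 ∈ Ry ι → x.2 ∈ HS ι → V x ∈ cfil x.1 x.2) →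
    ∃ s : Finset ((Sym2 ι → ℝ) × (Sym2 ι → ℂ)), (∀ x ∈ s, x.1 ∈ Ry ι ∧ x.2 ∈ HS ι) ∧
      ∀ Z : HH ι, ∃ γ : SpZ ι, ∃ x ∈ s, (γ • Z).1 ∈ V x

/-- Smooth metrics exist. -/
def S_EXM : Prop := ∀ (ι : Type) [Fintype ι] [DecidableEq ι],
    (∃ μ : (Sym2 ι → ℂ) → ℝ, Met 1 0 μ) ∧ ∃ δ : (Sym2 ι → ℂ) → ℝ, Met 0 1 δ

/-- The final statement. -/
def S_FIN : Prop := ∀ g b : ℕ, 1 ≤ g → b ≤ tri g → IsInter g b (inter g b)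

end Pool.Agent.P.MP_59bdab_ag
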