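import Pool.Agent.P.MP_59bdab_ag.Defs

/-!
The numbers `inter g b`, the values predicted for `M ^ (N - b) * D ^ b`.
-/

namespace Pool.Agent.P.MP_59bdab_ag

/-- `inter g b` is zero unless `b = tri g - tri (g - r)` for some `r ≤ g`, and then it is
`(-2) ^ (b - r) * b! * (tri (g - r))! * hh (g - r) * WW r (g - r)`. -/
noncomputable def inter (g b : ℕ) : ℝ :=
  ∑ r ∈ (Finset.range (g + 1)).filter (fun r => b = tri g - tri (g - r)),
    (-2) ^ (b - r) * (b.factorial : ℝ) * ((tri (g - r)).factorial : ℝ) * hh (g - r) * WW r (g - r)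

end Pool.Agent.P.MP_59bdab_ag
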