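import Pool.Agent.P.MP_59bdab_ag.IfA

/-! The measure on positive forms in triangular coordinates. -/

namespace Pool.Agent.P.MP_59bdab_ag

open Matrix MeasureTheory Filter Topology
open scoped ENNReal ComplexOrder

namespace JAC

variable {r : ℕ}

/-- The unipotent factor. -/
def LL (x : Sym2 (Fin r) → ℝ) : Matrix (Fin r) (Fin r) ℝ :=
  Matrix.of fun i l => if l < i then x s(i, l) else if l = i then 1 else 0

/-- The diagonal factor of the form with unit diagonal. -/
noncomputable def dv (x : Sym2 (Fin r) → ℝ) (i : Fin r) : ℝ :=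
  1 - ∑ m ∈ (Finset.Iio i).attach, x s(i, m.1) * dv x m.1 * x s(i, m.1)
termination_by i
decreasing_by exact (Finset.mem_Iio.1 m.2 : m.1 < i)

theorem dv_eq (x : Sym2 (Fin r) → ℝ) (i : Fin r) :
    dv x i = 1 - ∑ m ∈ Finset.Iio i, x s(i, m) * dv x m * x s(i, m) := by
  rw [dv, Finset.sum_attach (Finset.Iio i) fun m => x s(i, m) * dv x m * x s(i, m)]

/-- The form with unipotent factor `LL x` and diagonal factor `w`. -/
def TT (x : Sym2 (Fin r) → ℝ) (w : Fin r → ℝ) : Matrix (Fin r) (Fin r) ℝ :=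
  LL x * diagonal w * (LL x)ᵀ

theorem LL_diag (x : Sym2 (Fin r) → ℝ) (i : Fin r) : LL x i i = 1 := by simp [LL]

theorem LL_up (x : Sym2 (Fin r) → ℝ) (i j : Fin r) (h : i < j) : LL x i j = 0 := by
  simp [LL, h.not_gt, h.ne']

theorem LL_low (x : Sym2 (Fin r) → ℝ) {i j : Fin r} (h : j < i) : LL x i j = x s(i, j) := by
  simp [LL, h]

theorem TT_symm (x : Sym2 (Fin r) → ℝ) (w : Fin r → ℝ) : (TT x w)ᵀ = TT x w := by
  simp [TT, transpose_mul, Matrix.mul_assoc]

theorem TT_apply (x : Sym2 (Fin r) → ℝ) (w : Fin r → ℝ) {i j : Fin r} (h : j ≤ i) :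
    TT x w i j = (∑ m ∈ Finset.Iio j, x s(i, m) * w m * x s(j, m)) + LL x i j * w j := by
  rw [TT, Matrix.mul_apply]
  simp only [mul_diagonal, transpose_apply]
  rw [← Finset.sum_subset (Finset.subset_univ (Finset.Iic j)) fun m _ hm => by
    rw [LL_up x j m (by simpa using hm), mul_zero], ← Finset.Iio_insert,
    Finset.sum_insert (by simp), LL_diag, mul_one, add_comm]
  congr 1
  refine Finset.sum_congr rfl fun m hm => ?_
  have h1 := Finset.mem_Iio.1 hm
  rw [LL_low x h1, LL_low x (h1.trans_le h)]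

theorem TT_diag (x : Sym2 (Fin r) → ℝ) (i : Fin r) : TT x (dv x) i i = 1 := by
  rw [TT_apply x _ le_rfl, LL_diag, dv_eq x i]
  ring

theorem TT_det (x : Sym2 (Fin r) → ℝ) (w : Fin r → ℝ) : (TT x w).det = ∏ i, w i := by
  have h : (LL x).det = 1 := by
    rw [Matrix.det_of_isLowerTriangular (LL x) fun i j e => LL_up x i j e]
    simp [LL_diag]
  rw [TT, det_mul, det_mul, det_transpose, h, det_diagonal, one_mul, mul_one]

theorem coord_TT (x : Sym2 (Fin r) → ℝ) (w : Fin r → ℝ) (i j : Fin r) :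
    coord (TT x w) s(i, j) = TT x w i j :=
  congrFun (congrFun (mat_coord (TT_symm x w)) i) j

theorem dv_congr {x y : Sym2 (Fin r) → ℝ} (i : Fin r)
    (h : ∀ a b, b < a → a ≤ i → x s(a, b) = y s(a, b)) : dv x i = dv y i := by
  induction i using WellFoundedLT.induction with
  | ind i ih =>
    rw [dv_eq x, dv_eq y]
    congr 1
    refine Finset.sum_congr rfl fun m hm => ?_
    have h1 := Finset.mem_Iio.1 hm
    rw [h i m h1 le_rfl, ih m h1 fun a b h2 h3 => h a b h2 (h3.trans h1.le)]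

theorem dv_diff (i : Fin r) : Differentiable ℝ fun x : Sym2 (Fin r) → ℝ => dv x i := by
  induction i using WellFoundedLT.induction with
  | ind i ih =>
    simp only [fun x : Sym2 (Fin r) → ℝ => dv_eq x i]
    refine (differentiable_const _).sub (Differentiable.fun_sum fun m hm => ?_)
    have := ih m (Finset.mem_Iio.1 hm)
    fun_prop

theorem sym_ind {P : Sym2 (Fin r) → Prop} (h : ∀ i j, j ≤ i → P s(i, j)) (p : Sym2 (Fin r)) :
    P p := by
  induction p using Sym2.ind with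
  | _ i j =>
    rcases le_total j i with h1 | h1
    · exact h i j h1
    · rw [Sym2.eq_swap]; exact h j i h1

theorem TT_diff {w : (Sym2 (Fin r) → ℝ) → Fin r → ℝ} (hw : ∀ i, Differentiable ℝ fun x => w x i)
    (p : Sym2 (Fin r)) : Differentiable ℝ fun x => coord (TT x (w x)) p := by
  induction p using sym_ind with
  | h i j h =>
    simp only [coord_TT, TT_apply _ _ h]
    refine (Differentiable.fun_sum fun m _ => ?_).add (Differentiable.mul ?_ (hw j))
    · have := hw m
      fun_prop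
    · rcases h.lt_or_eq with h1 | rfl
      · simp only [LL_low _ h1]
        fun_prop
      · simp only [LL_diag]
        fun_prop

/-- The rank of a coordinate. -/
def rk (p : Sym2 (Fin r)) : ℕ := (p.sup : Fin r) * r + (p.inf : Fin r)

theorem rk_mk {i j : Fin r} (h : j ≤ i) : rk s(i, j) = i * r + j := by
  simp [rk, h]

theorem rk_lt {i j a b : Fin r} (h : j ≤ i) (h' : b ≤ a) (h1 : a < i ∨ a = i ∧ b < j) :
    rk s(a, b) < rk s(i, j) := by
  rw [rk_mk h, rk_mk h']
  rcases h1 with h1 | ⟨rfl, h1⟩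
  · have h2 : (a : ℕ) + 1 ≤ i := h1
    have h3 := Nat.mul_le_mul_right r h2
    have h4 := b.2
    rw [add_mul] at h3
    omega
  · exact Nat.add_lt_add_left h1 _

theorem rk_inj : Function.Injective (rk : Sym2 (Fin r) → ℕ) := by
  intro p q
  induction p using sym_ind with
  | h i j h =>
  induction q using sym_ind with
  | h a b h' =>
    intro e
    rcases lt_trichotomy a i with h1 | rfl | h1
    · exact absurd e (rk_lt h h' (Or.inl h1)).ne'
    · rcases lt_trichotomy b j with h2 | rfl | h2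
      · exact absurd e (rk_lt h h' (Or.inr ⟨rfl, h2⟩)).ne'
      · rfl
      · exact absurd e (rk_lt h' h (Or.inr ⟨rfl, h2⟩)).ne
    · exact absurd e (rk_lt h' h (Or.inl h1)).ne

theorem trij (hT : S_TRIJ) (F c : (Sym2 (Fin r) → ℝ) → Sym2 (Fin r) → ℝ)
    (s : Set (Sym2 (Fin r) → ℝ)) (hF : ∀ p, Differentiable ℝ fun x => F x p)
    (hs : MeasurableSet s) (hi : Set.InjOn F s)
    (h : ∀ x y i j, j ≤ i → (∀ a b, b ≤ a → a < i ∨ a = i ∧ b < j → y s(a, b) = x s(a, b)) →
      F y s(i, j) = F x s(i, j) + (y s(i, j) - x s(i, j)) * c x s(i, j)) :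
    MeasurableSet (F '' s) ∧ ∀ φ : (Sym2 (Fin r) → ℝ) → ℝ≥0∞,
      ∫⁻ y in F '' s, φ y = ∫⁻ x in s, ENNReal.ofReal |∏ α, c x α| * φ (F x) := by
  refine hT _ rk F c s rk_inj (differentiable_pi.2 hF) hs hi (fun x α β t hr => ?_)
    fun x α t => ?_
  · induction α using sym_ind with
    | h i j hij =>
      have e : ∀ p, rk p < rk β → (x + Pi.single β t : Sym2 (Fin r) → ℝ) p = x p := fun p hp => by
        have : p ≠ β := fun h => by rw [h] at hp; exact lt_irrefl _ hp
        simp [this]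
      rw [h x _ i j hij fun a b h1 h2 => e _ ((rk_lt hij h1 h2).trans hr), e _ hr]
      ring
  · induction α using sym_ind with
    | h i j hij =>
      rw [h x _ i j hij fun a b h1 h2 => by
        have : s(a, b) ≠ s(i, j) := fun h => (rk_lt hij h1 h2).ne (by rw [h])
        simp [this]]
      simp

theorem prod_sym (f : Sym2 (Fin r) → ℝ) :
    ∏ p, f p = ∏ j, (f s(j, j) * ∏ i ∈ Finset.Ioi j, f s(j, i)) := by
  rw [← Equiv.prod_comp Sym2.sortEquiv.symm]
  refine (Finset.prod_subtype (Finset.univ.filter fun p : Fin r × Fin r => p.1 ≤ p.2) (by simp)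
      fun p : Fin r × Fin r => f s(p.1, p.2)).symm.trans ?_
  rw [Finset.prod_filter, Fintype.prod_prod_type]
  refine Finset.prod_congr rfl fun j _ => ?_
  rw [← Finset.prod_filter, ← Finset.prod_insert (s := Finset.Ioi j) (a := j)
    (f := fun i => f s(j, i)) (by simp), Finset.Ioi_insert]
  congr 1
  ext i
  simp

/-- The diagonal coordinates. -/
def dg (x : Sym2 (Fin r) → ℝ) : Fin r → ℝ := fun i => x s(i, i)

/-- The other coordinates. -/
def og (x : Sym2 (Fin r) → ℝ) : {p : Sym2 (Fin r) // ¬ p.IsDiag} → ℝ := fun p => x p.1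

theorem split : MeasurePreserving fun x : Sym2 (Fin r) → ℝ => (dg x, og x) :=
  (((volume_measurePreserving_piCongrLeft (fun _ => ℝ) Sym2.diagElemEquiv.symm).symm _).prod
    (MeasurePreserving.id volume)).comp
    (volume_preserving_piEquivPiSubtypeProd (fun _ => ℝ) fun p : Sym2 (Fin r) => p.IsDiag)

/-- The form `Q`. -/
noncomputable def F1 (x : Sym2 (Fin r) → ℝ) : Sym2 (Fin r) → ℝ :=
  coord (TT x fun i => dv x i * dg x i)

/-- The data `(G, s)`. -/
noncomputable def F2 (x : Sym2 (Fin r) → ℝ) : Sym2 (Fin r) → ℝ :=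
  fun p => if p.IsDiag then x p else coord (TT x (dv x)) p

theorem dg_F2 (x : Sym2 (Fin r) → ℝ) : dg (F2 x) = dg x := by
  funext i; simp [dg, F2]

theorem Gm_F2 (x : Sym2 (Fin r) → ℝ) : Gm (og (F2 x)) = TT x (dv x) := by
  ext i j
  by_cases h : i = j
  · subst h; simp [Gm, TT_diag]
  · simp only [Gm, of_apply, dif_neg h, og, F2, Sym2.mk_isDiag_iff, if_neg h, coord_TT]

theorem Gm_inj : Function.Injective (Gm : _ → Matrix (Fin r) (Fin r) ℝ) := by
  intro a b h
  funext ⟨p, hp⟩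
  induction p using Sym2.ind with
  | _ i j =>
    have h1 : ¬ i = j := by simpa using hp
    have h2 := congrFun (congrFun h i) j
    simpa only [Gm, of_apply, dif_neg h1] using h2

theorem mat_F1 (x : Sym2 (Fin r) → ℝ) : mat (F1 x) = TT x fun i => dv x i * dg x i :=
  mat_coord (TT_symm _ _)

theorem ext_LL {x y : Sym2 (Fin r) → ℝ} (h : LL x = LL y) (h' : dg x = dg y) : x = y := by
  funext p
  induction p using sym_ind with
  | h i j hij =>
    rcases hij.lt_or_eq with h1 | rfl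
    · rw [← LL_low x h1, ← LL_low y h1, h]
    · exact congrFun h' j

theorem back (L : Matrix (Fin r) (Fin r) ℝ) (d s : Fin r → ℝ) (h1 : ∀ i, L i i = 1)
    (h2 : ∀ i j, i < j → L i j = 0) (h3 : ∀ i, (L * diagonal d * Lᵀ) i i = 1) :
    ∃ x, LL x = L ∧ dv x = d ∧ dg x = s := by
  let x : Sym2 (Fin r) → ℝ := fun p => if p.IsDiag then s p.inf else L p.sup p.inf
  have e1 : LL x = L := by
    ext i j
    rcases lt_trichotomy j i with h | rfl | h
    · rw [LL_low x h]; simp [x, h.ne', h.le]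
    · rw [LL_diag, h1]
    · rw [LL_up x i j h, h2 i j h]
  refine ⟨x, e1, ?_, by funext i; simp [dg, x]⟩
  funext i
  induction i using WellFoundedLT.induction with
  | ind i ih =>
    have h4 := h3 i
    rw [← e1, ← TT, TT_apply x d le_rfl, LL_diag] at h4
    rw [dv_eq, Finset.sum_congr rfl fun m hm => by rw [ih m (Finset.mem_Iio.1 hm)]]
    linarith

theorem cont_Gm : Continuous (Gm : _ → Matrix (Fin r) (Fin r) ℝ) := by
  refine continuous_pi fun i => continuous_pi fun j => ?_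
  by_cases h : i = j
  · simp only [Gm, of_apply, dif_pos h]; fun_prop
  · simp only [Gm, of_apply, dif_neg h]; fun_prop

end JAC

open JAC in
theorem p_JAC (hT : S_TRIJ) (hLDL : S_LDL) : S_JAC := by
  intro r j C S hC hS hCp hSp
  obtain ⟨l1, l2, -, l4⟩ := hLDL r
  have d1 : ∀ p, Differentiable ℝ fun x : Sym2 (Fin r) → ℝ => F1 x p :=
    TT_diff fun i => (dv_diff i).mul (by unfold dg; fun_prop)
  have d2 : ∀ p, Differentiable ℝ fun x : Sym2 (Fin r) → ℝ => F2 x p := fun p => by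
    by_cases h : p.IsDiag
    · simp only [F2, if_pos h]; fun_prop
    · simp only [F2, if_neg h]; exact TT_diff dv_diff p
  let B : Set (Sym2 (Fin r) → ℝ) := (fun x => (dg x, og x)) ⁻¹' S ×ˢ C
  have hB : MeasurableSet B := split.measurable (hS.prod hC)
  let A : Set (Sym2 (Fin r) → ℝ) := (⋂ i, {x | 0 < dv x i}) ∩ F2 ⁻¹' B
  have hA : MeasurableSet A := (MeasurableSet.iInter fun i =>
    measurableSet_lt measurable_const (dv_diff i).continuous.measurable).inter
      ((differentiable_pi.2 d2).continuous.measurable hB)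
  have mA : ∀ x, x ∈ A ↔ (∀ i, 0 < dv x i) ∧ dg x ∈ S ∧ og (F2 x) ∈ C := fun x => by
    simp [A, B, dg_F2]
  have hdv : ∀ x y : Sym2 (Fin r) → ℝ, LL x = LL y → dv x = dv y := fun x y h =>
    funext fun i => dv_congr i fun a b h1 _ => by rw [← LL_low x h1, ← LL_low y h1, h]
  have i1 : Set.InjOn F1 A := fun x hx y _ h => by
    obtain ⟨a1, a2, -⟩ := (mA x).1 hx
    have h1 := congrArg mat h
    rw [mat_F1, mat_F1] at h1
    obtain ⟨e1, e2⟩ := l2 _ _ _ _ (LL_diag x) (LL_up x) (fun i => mul_pos (a1 i) (hSp _ a2 i))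
      (LL_diag y) (LL_up y) h1
    refine ext_LL e1 (funext fun i => mul_left_cancel₀ (a1 i).ne' ?_)
    have := congrFun e2 i
    rwa [← hdv x y e1] at this
  have i2 : Set.InjOn F2 A := fun x hx y _ h => by
    have h1 := congrArg (fun z => Gm (og z)) h
    simp only [Gm_F2] at h1
    exact ext_LL (l2 _ _ _ _ (LL_diag x) (LL_up x) ((mA x).1 hx).1 (LL_diag y) (LL_up y) h1).1
      (by rw [← dg_F2 x, h, dg_F2])
  have bk : ∀ a ∈ C, ∀ s ∈ S, ∀ (L : Matrix (Fin r) (Fin r) ℝ) (d : Fin r → ℝ), (∀ i, L i i = 1) →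
      (∀ i j, i < j → L i j = 0) → (∀ i, 0 < d i) → Gm a = L * diagonal d * Lᵀ →
      ∃ x ∈ A, LL x = L ∧ dv x = d ∧ dg x = s ∧ og (F2 x) = a := by
    intro a ha s hs L d b1 b2 b3 b4
    obtain ⟨x, e1, e2, e3⟩ := back L d s b1 b2 fun i => by rw [← b4]; simp [Gm]
    have e4 : og (F2 x) = a := Gm_inj (by rw [Gm_F2, TT, e1, e2, b4])
    exact ⟨x, (mA x).2 ⟨e2 ▸ b3, e3 ▸ hs, e4 ▸ ha⟩, e1, e2, e3, e4⟩
  have m1 : F1 '' A = TriSet C S := by
    ext q
    constructor
    · rintro ⟨x, hx, rfl⟩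
      obtain ⟨a1, a2, a3⟩ := (mA x).1 hx
      exact ⟨_, a3, _, a2, LL x, dv x, LL_diag x, LL_up x, a1, Gm_F2 x, mat_F1 x⟩
    · rintro ⟨a, ha, s, hs, L, d, b1, b2, b3, b4, b5⟩
      obtain ⟨x, hx, e1, e2, e3, -⟩ := bk a ha s hs L d b1 b2 b3 b4
      exact ⟨x, hx, mat_injective (by rw [mat_F1, TT, e1, e2, e3, b5])⟩
  have m2 : F2 '' A = B := by
    refine Set.Subset.antisymm (by rintro _ ⟨x, hx, rfl⟩; exact hx.2) fun y hy => ?_
    obtain ⟨L, d, b1, b2, b3, b4⟩ := l1 _ (hCp _ hy.2)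
    obtain ⟨x, hx, -, -, e3, e4⟩ := bk _ hy.2 _ hy.1 L d b1 b2 b3 b4
    refine ⟨x, hx, funext fun p => ?_⟩
    by_cases h : p.IsDiag
    · induction p using Sym2.ind with
      | _ a b =>
        obtain rfl : a = b := by simpa using h
        exact congrFun ((dg_F2 x).trans e3) a
    · exact congrFun e4 ⟨p, h⟩
  have hsum : ∀ (x y : Sym2 (Fin r) → ℝ) (i j : Fin r), j ≤ i →
      (∀ a b, b ≤ a → a < i ∨ a = i ∧ b < j → y s(a, b) = x s(a, b)) →
      (∀ m, m ≤ j → dv y m = dv x m) ∧ (∀ m, m < j → y s(i, m) = x s(i, m) ∧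
        y s(j, m) = x s(j, m)) ∧ ∀ m, m < i → dg y m = dg x m := fun x y i j hij h => by
    have k : ∀ a b, b < a → a ≤ j → y s(a, b) = x s(a, b) := fun a b h1 h2 =>
      h a b h1.le ((h2.trans hij).lt_or_eq.imp id fun h3 => ⟨h3, h1.trans_le h2⟩)
    exact ⟨fun m hm => dv_congr m fun a b h1 h2 => k a b h1 (h2.trans hm),
      fun m hm => ⟨h i m (hm.le.trans hij) (Or.inr ⟨rfl, hm⟩), k j m hm le_rfl⟩,
      fun m hm => h m m le_rfl (Or.inl hm)⟩
  obtain ⟨t1, t2⟩ := trij hT F1 (fun x p => dv x p.inf * if p.IsDiag then 1 else dg x p.inf) A d1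
    hA i1 fun x y i j hij h => by
      obtain ⟨k1, k2, k3⟩ := hsum x y i j hij h
      simp only [F1, coord_TT, TT_apply _ _ hij]
      rw [Finset.sum_congr rfl fun m hm => by
        have h1 := Finset.mem_Iio.1 hm
        rw [k1 m h1.le, (k2 m h1).1, (k2 m h1).2, k3 m (h1.trans_le hij)], k1 j le_rfl]
      rcases hij.lt_or_eq with h1 | rfl
      · rw [LL_low x h1, LL_low y h1, k3 j h1]
        simp only [Sym2.inf_mk, inf_of_le_right hij, Sym2.mk_isDiag_iff, if_neg h1.ne']
        ring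
      · simp only [LL_diag, Sym2.inf_mk, inf_idem, Sym2.mk_isDiag_iff, if_true, dg]
        ring
  obtain ⟨-, t3⟩ := trij hT F2 (fun x p => if p.IsDiag then 1 else dv x p.inf) A d2
    hA i2 fun x y i j hij h => by
      obtain ⟨k1, k2, -⟩ := hsum x y i j hij h
      rcases hij.lt_or_eq with h1 | rfl
      · simp only [F2, Sym2.mk_isDiag_iff, if_neg h1.ne', coord_TT, TT_apply _ _ hij,
          Sym2.inf_mk, inf_of_le_right hij]
        rw [Finset.sum_congr rfl fun m hm => by
          have h1 := Finset.mem_Iio.1 hm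
          rw [k1 m h1.le, (k2 m h1).1, (k2 m h1).2], k1 j le_rfl, LL_low x h1, LL_low y h1]
        ring
      · simp [F2]
  rw [m1] at t1 t2
  rw [m2] at t3
  refine ⟨t1, ?_, ?_⟩
  · rintro q ⟨a, -, s, hs, h⟩
    exact (l4 _ _ _ (hSp s hs) h).1
  have f1 : Measurable fun s : Fin r → ℝ =>
      ENNReal.ofReal (∏ i : Fin r, s i ^ (r - 1 - i + j)) := by fun_prop
  have f2 : Measurable fun a : {p : Sym2 (Fin r) // ¬ p.IsDiag} → ℝ =>
      ENNReal.ofReal ((Gm a).det ^ (j + 1)) :=
    ((cont_Gm.matrix_det.pow _).measurable).ennreal_ofReal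
  have t4 := split.setLIntegral_comp_preimage (hS.prod hC)
    ((f1.comp measurable_fst).mul (f2.comp measurable_snd))
  rw [Measure.volume_eq_prod, ← Measure.prod_restrict] at t4
  have t5 := t4.trans (lintegral_prod_mul f1.aemeasurable f2.aemeasurable)
  rw [mul_comm, ← t5, t2, t3]
  refine setLIntegral_congr_fun hA fun x hx => ?_
  obtain ⟨a1, a2, -⟩ := (mA x).1 hx
  have a3 := hSp _ a2
  have p1 : ∀ f : Fin r → ℝ, ∏ p : Sym2 (Fin r), (if p.IsDiag then 1 else f p.inf) =
      ∏ i : Fin r, f i ^ (r - 1 - i) := fun f => by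
    rw [prod_sym]
    refine Finset.prod_congr rfl fun a _ => ?_
    rw [Finset.prod_congr rfl (g := fun _ => f a) fun b hb => by
      have h1 := Finset.mem_Ioi.1 hb
      simp [h1.ne, h1.le]]
    simp
  have p2 : ∏ p : Sym2 (Fin r), dv x p.inf = (∏ i, dv x i) * ∏ i : Fin r, dv x i ^ (r - 1 - i) := by
    rw [prod_sym, ← Finset.prod_mul_distrib]
    refine Finset.prod_congr rfl fun a _ => ?_
    rw [Finset.prod_congr rfl (g := fun _ => dv x a) fun b hb => by
      simp [(Finset.mem_Ioi.1 hb).le]]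
    simp
  have q1 : 0 < ∏ i, dv x i := Finset.prod_pos fun i _ => a1 i
  have q2 : 0 < ∏ i : Fin r, dv x i ^ (r - 1 - i) := Finset.prod_pos fun i _ => pow_pos (a1 i) _
  have q3 : 0 < ∏ i : Fin r, dg x i ^ (r - 1 - i) := Finset.prod_pos fun i _ => pow_pos (a3 i) _
  have q4 : 0 < ∏ i, dg x i := Finset.prod_pos fun i _ => a3 i
  simp only [Pi.mul_apply, Function.comp, Finset.prod_mul_distrib, p1, p2, mat_F1, Gm_F2, dg_F2, TT_det, pow_add,
    Finset.prod_pow]
  rw [abs_of_pos (by positivity), abs_of_pos q2, ← ENNReal.ofReal_mul (by positivity),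
    ← ENNReal.ofReal_mul (by positivity), ← ENNReal.ofReal_mul (by positivity)]
  congr 1
  ring

end Pool.Agent.P.MP_59bdab_ag
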