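import Pool.Agent.P.MP_59bdab_ag.IfC
import Pool.Agent.P.MP_59bdab_ag.RK1

/-! Moves along isotropic directions and integral translations. -/

namespace Pool.Agent.P.MP_59bdab_ag

open Matrix

namespace MOV

variable {ι : Type} [Fintype ι] [DecidableEq ι]

omit [DecidableEq ι] in
theorem blocks {γ : Matrix (ι ⊕ ι) (ι ⊕ ι) ℤ} {p q : ι → ℤ} (h : γ *ᵥ lv p = lv q) :
    γ.toBlocks₁₁ *ᵥ p = q ∧ γ.toBlocks₂₁ *ᵥ p = 0 := by
  rw [← fromBlocks_toBlocks γ, fromBlocks_mulVec] at h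
  exact ⟨funext fun i => by simpa [lv] using congrFun h (Sum.inl i),
    funext fun i => by simpa [lv] using congrFun h (Sum.inr i)⟩

theorem one (γ : SpZ ι) {p q : ι → ℤ} (h : γ.1 *ᵥ lv p = lv q) (c : ℂ) (z : Sym2 ι → ℂ) :
    den (toR γ).1 (z + c • tv p) = den (toR γ).1 z ∧ ((den (toR γ).1 z).det ≠ 0 →
      actF (toR γ).1 (z + c • tv p) = actF (toR γ).1 z + c • tv q) := by
  obtain ⟨h1, h2⟩ := blocks h
  have hA : cm (toR γ).1.toBlocks₁₁ *ᵥ (fun i => (p i : ℂ)) = fun i => (q i : ℂ) := by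
    funext i
    simp [← h1, mulVec, dotProduct, toBlocks₁₁]
  have hC : cm (toR γ).1.toBlocks₂₁ *ᵥ (fun i => (p i : ℂ)) = 0 := by
    funext i
    simpa [mulVec, dotProduct, toBlocks₂₁] using congrArg (Int.cast : ℤ → ℂ) (congrFun h2 i)
  have hd : den (toR γ).1 (z + c • tv p) = den (toR γ).1 z := by
    rw [den, den, mat_add, mat_smul, mat_tv, Matrix.mul_add, Matrix.mul_smul, mul_vecMulVec, hC,
      zero_vecMulVec, smul_zero, add_zero]
  refine ⟨hd, fun h0 => ?_⟩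
  obtain ⟨r1, -, r3⟩ := sp_rel (toR γ)
  have e1 := congrArg cm r1
  have e3 := congrArg cm r3
  simp only [cm_mul, cm_sub, cm_transpose, cm_one] at e1 e3
  have h3 : (fun i => (q i : ℂ)) ᵥ* den (toR γ).1 z = fun i => (p i : ℂ) := by
    rw [← hA, ← vecMul_transpose, vecMul_vecMul, den, Matrix.mul_add, ← Matrix.mul_assoc, e1,
      sub_eq_iff_eq_add.1 e3, vecMul_add, vecMul_add, vecMul_one, Matrix.mul_assoc,
      ← vecMul_vecMul, ← vecMul_vecMul _ _ (cm _), vecMul_transpose, hC]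
    simp
  have h4 : num (toR γ).1 (z + c • tv p) = num (toR γ).1 z +
      c • (vecMulVec (fun i => (q i : ℂ)) (fun i => (q i : ℂ)) * den (toR γ).1 z) := by
    rw [vecMulVec_mul, h3, num, num, mat_add, mat_smul, mat_tv, Matrix.mul_add, Matrix.mul_smul,
      mul_vecMulVec, hA, add_right_comm]
  rw [actF, actF, hd, h4, Matrix.add_mul, Matrix.smul_mul,
    mul_nonsing_inv_cancel_right _ _ h0.isUnit, coord_add, coord_smul, ← mat_tv, coord_mat]

theorem inv_le {Y Y' : Matrix ι ι ℝ} (hY : Y.PosDef) (hY' : Y'.PosDef) (hs : Y'ᵀ = Y')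
    (h : ∀ u, u ⬝ᵥ Y' *ᵥ u ≤ u ⬝ᵥ Y *ᵥ u) (x : ι → ℝ) : x ⬝ᵥ Y⁻¹ *ᵥ x ≤ x ⬝ᵥ Y'⁻¹ *ᵥ x := by
  have h1 := hY'.posSemidef.dotProduct_mulVec_nonneg (Y⁻¹ *ᵥ x - Y'⁻¹ *ᵥ x)
  have h2 := h (Y⁻¹ *ᵥ x)
  rw [star_trivial, mulVec_sub, sub_dotProduct, dotProduct_sub, dotProduct_sub,
    RK1.symm_dot hs (Y'⁻¹ *ᵥ x) (Y⁻¹ *ᵥ x), RK1.mul_inv_vec hY', dotProduct_comm _ x,
    dotProduct_comm _ x] at h1
  rw [RK1.mul_inv_vec hY, dotProduct_comm _ x] at h2
  linarith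

omit [DecidableEq ι] in
theorem form_eq {Z Z' : HH ι} {P : Finset (ι → ℤ)} {c : (ι → ℤ) → ℝ}
    (h : imv Z.1 = imv Z'.1 + ∑ p ∈ P, c p • sqr p) (u : ι → ℝ) :
    u ⬝ᵥ Ym Z *ᵥ u = u ⬝ᵥ Ym Z' *ᵥ u + ∑ p ∈ P, c p * (cz p ⬝ᵥ u) ^ 2 := by
  have h1 : mat (∑ p ∈ P, c p • sqr p) = ∑ p ∈ P, mat (c p • sqr p) := map_sum (matL ι ℝ) _ _
  rw [Ym_eq, Ym_eq, h, mat_add, add_mulVec, dotProduct_add, h1, sum_mulVec, dotProduct_sum]
  refine congrArg _ (Finset.sum_congr rfl fun p _ => ?_)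
  rw [mat_smul, mat_sqr, smul_mulVec, RK1.vv_mulVec, dotProduct_smul, dotProduct_smul,
    dotProduct_comm u, smul_eq_mul, smul_eq_mul, sq]

theorem tr {u : SpZ ι} {r : Sym2 ι → ℤ} (h : u.1 = fromBlocks 1 (mat r) 0 1) (Z : HH ι) :
    ((u • Z).1 = Z.1 + fun a => (r a : ℂ)) ∧ jf (toR u) Z = 1 := by
  have h1 : (toR u).1 = fromBlocks 1 (mat (cz r)) 0 1 := by
    ext a b
    rw [toR_apply, h]
    rcases a with a | a <;> rcases b with b | b <;> simp [cz, one_apply]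
  have h2 : den (toR u).1 Z.1 = 1 := by simp [den, h1]
  have h3 : num (toR u).1 Z.1 = mat (Z.1 + fun a => (r a : ℂ)) := by
    rw [num, h1, toBlocks_fromBlocks₁₁, toBlocks_fromBlocks₁₂, cm_one, Matrix.one_mul]
    ext i j
    simp [cz]
  exact ⟨by rw [smulZ_def, smul_val, actF, h2, h3, inv_one, Matrix.mul_one, coord_mat],
    by rw [jf, h2, det_one]⟩

theorem tr_lv (B : Matrix ι ι ℤ) (p : ι → ℤ) : fromBlocks 1 B 0 1 *ᵥ lv p = lv p := by
  simp [lv, fromBlocks_mulVec]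

theorem of_mem {u : SpZ ι} (hu : u ∈ UU ι) : ∃ r, u.1 = fromBlocks 1 (mat r) 0 1 := by
  have h1 : ∀ i, _ := fun i => blocks (γ := u.1) (p := Pi.single i 1) (q := Pi.single i 1) (by
    rw [lv_single]
    exact congrFun hu i)
  have hA : u.1.toBlocks₁₁ = 1 := by
    ext a b
    simpa [one_apply, Pi.single_apply] using congrFun (h1 b).1 a
  have hC : u.1.toBlocks₂₁ = 0 := by
    ext a b
    simpa using congrFun (h1 b).2 a
  obtain ⟨-, h2, h3⟩ := SymplecticGroup.fromBlocks_mem_iff.mp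
    (show fromBlocks _ _ _ _ ∈ symplecticGroup ι ℤ by rw [fromBlocks_toBlocks]; exact u.2)
  rw [hA, hC, transpose_one, Matrix.one_mul, transpose_zero, Matrix.zero_mul, sub_zero] at h3
  rw [h3, transpose_one, Matrix.one_mul, Matrix.mul_one] at h2
  refine ⟨Sym2.lift ⟨u.1.toBlocks₁₂, fun i j => congrFun (congrFun h2 j) i⟩, ?_⟩
  conv_lhs => rw [← fromBlocks_toBlocks u.1, hA, hC, h3]
  rfl

theorem pull (A : Matrix ι ι ℤ) (a : Sym2 ι) :
    ∃ m : Sym2 ι → ℤ, ∀ p, m ⬝ᵥ sqz p = sqz (A *ᵥ p) a := by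
  induction a using Sym2.ind with
  | _ i j =>
    refine ⟨∑ k, ∑ l, Pi.single s(k, l) (A i k * A j l), fun p => ?_⟩
    simp only [sum_dotProduct, single_dotProduct, sqz_mk]
    simp only [mulVec, dotProduct, Finset.sum_mul_sum]
    exact Finset.sum_congr rfl fun k _ => Finset.sum_congr rfl fun l _ => by ring

end MOV

open MOV in
theorem p_MOV : S_MOV := by
  intro ι _ _
  refine ⟨fun γ P q c z h => ?_, fun Z Z' P c hc h1 h2 v hv => ?_, fun r => ?_, fun u hu => ?_,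
    fun γ n => ?_, fun p q => ?_⟩
  · induction P using Finset.induction_on with
    | empty => simp
    | insert a P ha ih =>
      obtain ⟨h1, h2⟩ := ih fun p hp => h p (Finset.mem_insert_of_mem hp)
      obtain ⟨h3, h4⟩ := one γ (h a (Finset.mem_insert_self _ _)) (c a) (z + ∑ p ∈ P, c p • tv p)
      rw [Finset.sum_insert ha, Finset.sum_insert ha, add_comm (c a • tv a), ← add_assoc]
      refine ⟨h3.trans h1, fun h0 => ?_⟩
      rw [h4 (h1 ▸ h0), h2 h0, add_assoc, add_comm _ (c a • tv (q a))]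
  · rw [RK1.qf_eq, RK1.qf_eq, Xm_eq, Xm_eq, h1, form_eq h2, Finset.sum_eq_zero fun p hp => ?_,
      add_zero]
    · refine add_le_add_left
        (inv_le (Ym_posDef Z) (Ym_posDef Z') (Ym_transpose Z') (fun u => ?_) _) _
      rw [form_eq h2]
      exact le_add_of_nonneg_right (Finset.sum_nonneg fun p _ => mul_nonneg (hc p) (sq_nonneg _))
    · by_cases h0 : c p = 0
      · rw [h0, zero_mul]
      · rw [RK1.om_lv p v (hv p hp h0), zero_pow two_ne_zero, mul_zero]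
  · refine ⟨⟨fromBlocks 1 (mat r) 0 1, SymplecticGroup.fromBlocks_mem_iff.2 (by
      simp [mat_transpose])⟩, funext fun i => ?_, fun Z => (tr rfl Z).1⟩
    rw [← lv_single]
    exact tr_lv _ _
  · obtain ⟨r, hr⟩ := of_mem hu
    exact ⟨⟨r, fun Z => (tr hr Z).1⟩, fun Z => (tr hr Z).2, fun p => by rw [hr, tr_lv]⟩
  · choose m hm using pull γ.1.toBlocks₁₁
    refine ⟨∑ a, n a • m a, fun p q h => ?_⟩
    simp only [sum_dotProduct, smul_dotProduct, hm, (blocks h).1, smul_eq_mul]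
    rfl
  · simp [om, Matrix.J, lv, fromBlocks_mulVec, sumElim_dotProduct_sumElim]

end Pool.Agent.P.MP_59bdab_ag
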