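import Pool.Agent.P.MP_59bdab_ag.IfB

namespace Pool.Agent.P.MP_59bdab_ag

open Matrix MeasureTheory Filter Topology
open scoped ENNReal ComplexOrder

namespace MUL

theorem bound (hONE : S_ONE) (h : ℂ → ℂ) (T : ℝ) (hT : 0 < T)
    (hd : DifferentiableOn ℂ h {τ | -T < τ.im}) (hp : ∀ τ : ℂ, -T < τ.im → h (τ + 1) = h τ)
    (m : ℤ) (hv : ∀ j < m, cf h j 0 = 0) :
    ∃ M : ℝ, ∀ a : ℝ, 0 ≤ a → ∀ x : ℝ,
      ‖h (0 + a * Complex.I + x)‖ ≤ Real.exp (-(2 * Real.pi * m * a)) * M := by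
  obtain ⟨o1, o2, -⟩ := hONE h T hd hp
  have hc : Continuous fun x : ℝ => h x :=
    hd.continuousOn.comp_continuous Complex.continuous_ofReal fun x => by simpa using hT
  have hper : Function.Periodic (fun x : ℝ => h x) 1 := fun x => by
    simpa using hp x (by simpa using hT)
  obtain ⟨M, hM⟩ := (hper.isBounded_of_continuous one_ne_zero hc).exists_norm_le
  refine ⟨M, fun a ha x => o2 m _ a M ha (by simpa using hT) (fun j hj => ?_) fun y => ?_⟩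
  · rw [o1 j 0 _ (by simpa using hT) (by simp; linarith), hv j hj, mul_zero]
  · refine hM _ ⟨x + y, ?_⟩
    simp only [Complex.ofReal_add]
    congr 1
    ring

theorem one_var (hONE : S_ONE) (h₁ h₂ : ℂ → ℂ) (T : ℝ) (hT : 0 < T)
    (hd₁ : DifferentiableOn ℂ h₁ {τ | -T < τ.im}) (hp₁ : ∀ τ : ℂ, -T < τ.im → h₁ (τ + 1) = h₁ τ)
    (hd₂ : DifferentiableOn ℂ h₂ {τ | -T < τ.im}) (hp₂ : ∀ τ : ℂ, -T < τ.im → h₂ (τ + 1) = h₂ τ)
    (m₁ m₂ : ℤ) (hv₁ : ∀ j < m₁, cf h₁ j 0 = 0) (hv₂ : ∀ j < m₂, cf h₂ j 0 = 0) (j : ℤ)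
    (hj : j < m₁ + m₂) : cf (fun τ => h₁ τ * h₂ τ) j 0 = 0 := by
  obtain ⟨M₁, b₁⟩ := bound hONE h₁ T hT hd₁ hp₁ m₁ hv₁
  obtain ⟨M₂, b₂⟩ := bound hONE h₂ T hT hd₂ hp₂ m₂ hv₂
  obtain ⟨-, -, o3⟩ := hONE (fun τ => h₁ τ * h₂ τ) T (hd₁.mul hd₂)
    fun τ hτ => by rw [hp₁ τ hτ, hp₂ τ hτ]
  refine o3 j 0 (fun a => Real.exp (-(2 * Real.pi * m₁ * a)) * M₁ *
    (Real.exp (-(2 * Real.pi * m₂ * a)) * M₂)) (by simpa using hT) (fun a ha x => ?_) ?_
  · rw [norm_mul]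
    exact mul_le_mul (b₁ a ha x) (b₂ a ha x) (norm_nonneg _) ((norm_nonneg _).trans (b₁ a ha x))
  · have hc : (0 : ℝ) < 2 * Real.pi * ((m₁ + m₂ - j : ℤ) : ℝ) := by
      have : (0 : ℝ) < ((m₁ + m₂ - j : ℤ) : ℝ) := by exact_mod_cast sub_pos.2 hj
      positivity
    have h1 := (Real.tendsto_exp_neg_atTop_nhds_zero.comp
      (tendsto_id.const_mul_atTop hc)).const_mul (M₁ * M₂)
    rw [mul_zero] at h1
    refine h1.congr fun a => ?_
    have e : -(2 * Real.pi * ((m₁ + m₂ - j : ℤ) : ℝ) * a) =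
        -(2 * Real.pi * m₁ * a) + -(2 * Real.pi * m₂ * a) + 2 * Real.pi * j * a := by
      push_cast
      ring
    simp only [Function.comp_apply, id]
    rw [e, Real.exp_add, Real.exp_add]
    ring

theorem convex_HS (ι : Type) [Fintype ι] : Convex ℝ (HS ι) := by
  intro x hx y hy a b ha hb hab
  have e : (mat fun p => ((a • x + b • y) p).im) =
      a • (mat fun p => (x p).im) + b • mat fun p => (y p).im := by
    ext i j
    simp
  show (mat fun p => ((a • x + b • y) p).im).PosDef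
  rw [e]
  have hx' : (mat fun p => (x p).im).PosDef := hx
  have hy' : (mat fun p => (y p).im).PosDef := hy
  rcases ha.eq_or_lt with rfl | ha'
  · have : b = 1 := by linarith
    subst this
    simpa using hy'
  · exact (hx'.smul ha').add_posSemidef (hy'.posSemidef.smul hb)

theorem prod (hONE : S_ONE) (hRK1 : S_RK1) (hQ : S_Q) (hVAN : S_VAN) (ι : Type) [Fintype ι]
    [DecidableEq ι] (k m k' m' : ℕ) (f h : (Sym2 ι → ℂ) → ℂ) (hf : f ∈ SF ι k m)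
    (hh : h ∈ SF ι k' m') : f * h ∈ SF ι (k + k') (m + m') := by
  have mf := ((hVAN ι k m f).1.1 hf).2.1
  have mh := ((hVAN ι k' m' h).1.1 hh).2.1
  obtain ⟨f0, f1, f2, f3⟩ := hf
  obtain ⟨g0, g1, g2, g3⟩ := hh
  refine ⟨fun z hz => by simp [f0 z hz], f1.mul g1, ?_, ?_⟩
  · intro A B C D hs z hz w hw
    simp only [Pi.mul_apply, f2 A B C D hs z hz w hw, g2 A B C D hs z hz w hw]
    ring
  · intro i j hj z hz
    have hq : 0 < qf (Qm (⟨z, hz⟩ : HH ι)) (lv (Pi.single i 1)) := by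
      refine (hQ ι).2.2.2.2.2.2.2.1 _ _ fun h0 => ?_
      have := congrFun h0 (Sum.inl i)
      simp [lv] at this
    set q := qf (Qm (⟨z, hz⟩ : HH ι)) (lv (Pi.single i 1)) with hqd
    have hmem : ∀ τ : ℂ, -q⁻¹ < τ.im → z + τ • tv (Pi.single i 1) ∈ HS ι := by
      intro τ hτ
      obtain ⟨Z', e, -⟩ := hRK1 ι ⟨z, hz⟩ (Pi.single i 1) τ (by
        have := mul_lt_mul_of_pos_right hτ hq
        rw [neg_mul, inv_mul_cancel₀ hq.ne'] at this
        linarith)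
      exact e ▸ Z'.2
    have hd : ∀ u : (Sym2 ι → ℂ) → ℂ, DifferentiableOn ℂ u (HS ι) →
        DifferentiableOn ℂ (fun τ : ℂ => u (z + τ • tv (Pi.single i 1))) {τ | -q⁻¹ < τ.im} :=
      fun u hu => hu.comp (by fun_prop) hmem
    have hp : ∀ (n : ℕ) (u : (Sym2 ι → ℂ) → ℂ), Mod ⊤ n u → ∀ τ : ℂ, -q⁻¹ < τ.im →
        u (z + (τ + 1) • tv (Pi.single i 1)) = u (z + τ • tv (Pi.single i 1)) := by
      intro n u hu τ hτ
      rw [add_smul, one_smul, ← add_assoc]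
      exact (hVAN ι n 0 u).2.1 hu _ _ (hmem τ hτ)
    rw [(hVAN ι 0 0 (f * h)).2.2.1]
    exact one_var hONE _ _ q⁻¹ (inv_pos.2 hq) (hd f f1) (hp k f mf) (hd h g1) (hp k' h mh) m m'
      (fun l hl => ((hVAN ι 0 0 f).2.2.1 i l z).symm.trans (f3 i l hl z hz))
      (fun l hl => ((hVAN ι 0 0 h).2.2.1 i l z).symm.trans (g3 i l hl z hz)) j
      (by exact_mod_cast hj)

end MUL

theorem p_MUL (hONE : S_ONE) (hZERO : S_ZERO) (hRK1 : S_RK1) (hQ : S_Q) (hVAN : S_VAN) :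
    S_MUL := by
  intro ι _ _
  refine ⟨MUL.prod hONE hRK1 hQ hVAN ι, fun k0 χ hχ hne k a hfin => ?_⟩
  have hmem : ∀ a : ℕ, ∀ f ∈ SF ι k 1, f * χ ^ a ∈ SF ι (k + a * k0) (a + 1) := by
    intro a f hf
    induction a with
    | zero => simpa using hf
    | succ a ih =>
      have := MUL.prod hONE hRK1 hQ hVAN ι _ _ _ _ _ _ ih hχ
      rwa [mul_assoc, ← pow_succ, add_assoc k, ← add_one_mul] at this
  let L : SF ι k 1 →ₗ[ℂ] SF ι (k + a * k0) (a + 1) :=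
    LinearMap.codRestrict _ ((LinearMap.mulRight ℂ (χ ^ a)).comp (SF ι k 1).subtype)
      fun f => hmem a f.1 f.2
  have hL : Function.Injective L := by
    rw [injective_iff_map_eq_zero]
    intro f hf
    have e : f.1 * χ ^ a = 0 := congrArg Subtype.val hf
    obtain ⟨z₀, hz₀⟩ := Function.ne_iff.1 hne
    have hz₀' : z₀ ∈ HS ι := by
      by_contra hc
      exact hz₀ (hχ.1 z₀ hc)
    have := (hZERO (Sym2 ι)).2 (HS ι) f.1 (χ ^ a) (isOpen_HS ι) (MUL.convex_HS ι) f.2.2.1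
      (hχ.2.1.pow a) (fun z _ => congrFun e z) ⟨z₀, hz₀', pow_ne_zero a hz₀⟩
    apply Subtype.ext
    funext z
    by_cases hz : z ∈ HS ι
    · exact this z hz
    · exact f.2.1 z hz
  exact ⟨Module.Finite.of_injective L hL, LinearMap.finrank_le_finrank_of_injective hL⟩

end Pool.Agent.P.MP_59bdab_ag
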