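import Pool.Agent.P.MP_59bdab_ag.IfA

/-!
Successive elimination of vectors from a quadratic form.
-/

namespace Pool.Agent.P.MP_59bdab_ag.PW

open Finset

variable {V : Type} [AddCommGroup V] [Module ℝ V]

/-- The part of the form that is orthogonal to the first `m` vectors. -/
noncomputable def N (B : V →ₗ[ℝ] V →ₗ[ℝ] ℝ) (u : ℕ → V) : ℕ → V →ₗ[ℝ] V →ₗ[ℝ] ℝ
  | 0 => B
  | m + 1 => N B u m - (N B u m (u m) (u m))⁻¹ • (N B u m (u m)).smulRight (N B u m (u m))

/-- The rescaled form on the span of the first `m` vectors. -/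
noncomputable def A (B : V →ₗ[ℝ] V →ₗ[ℝ] ℝ) (u : ℕ → V) : ℕ → V →ₗ[ℝ] V →ₗ[ℝ] ℝ
  | 0 => 0
  | m + 1 => A B u m + ((1 - A B u m (u m) (u m)) / N B u m (u m) (u m) ^ 2) •
      (N B u m (u m)).smulRight (N B u m (u m))

/-- The scales. -/
noncomputable def t (B : V →ₗ[ℝ] V →ₗ[ℝ] ℝ) (s0 : ℝ) (u : ℕ → V) : ℕ → ℝ
  | 0 => s0
  | m + 1 => N B u m (u m) (u m) / (1 - A B u m (u m) (u m))

variable {B : V →ₗ[ℝ] V →ₗ[ℝ] ℝ} {u : ℕ → V} {s0 : ℝ}

theorem N_succ (m : ℕ) (x y : V) : N B u (m + 1) x y =
    N B u m x y - N B u m (u m) x * N B u m (u m) y / N B u m (u m) (u m) := by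
  simp only [N, LinearMap.sub_apply, LinearMap.smul_apply, LinearMap.smulRight_apply, smul_eq_mul]
  ring

theorem A_succ (m : ℕ) (x y : V) : A B u (m + 1) x y = A B u m x y +
    N B u m (u m) x / N B u m (u m) (u m) * (1 - A B u m (u m) (u m)) *
      (N B u m (u m) y / N B u m (u m) (u m)) := by
  simp only [A, LinearMap.add_apply, LinearMap.smul_apply, LinearMap.smulRight_apply, smul_eq_mul]
  ring

theorem congr_NA {u u' : ℕ → V} {m : ℕ} (h : ∀ i < m, u' i = u i) :
    N B u' m = N B u m ∧ A B u' m = A B u m ∧ t B s0 u' m = t B s0 u m := by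
  induction m with
  | zero => exact ⟨rfl, rfl, rfl⟩
  | succ m ih =>
    obtain ⟨h1, h2, -⟩ := ih fun i hi => h i (hi.trans (Nat.lt_succ_self m))
    simp only [N, A, t, h1, h2, h m (Nat.lt_succ_self m), and_self]

theorem N_sum (m : ℕ) (x y : V) : B x y = N B u m x y + ∑ i ∈ range m,
    N B u i (u i) x / N B u i (u i) (u i) * N B u i (u i) (u i) *
      (N B u i (u i) y / N B u i (u i) (u i)) := by
  induction m with
  | zero => simp [N]
  | succ m ih =>
    rw [sum_range_succ, N_succ, ih]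
    rcases eq_or_ne (N B u m (u m) (u m)) 0 with h | h
    · simp [h]
    · field_simp
      ring

theorem A_sum (m : ℕ) (x y : V) : A B u m x y = ∑ i ∈ range m,
    N B u i (u i) x / N B u i (u i) (u i) * (1 - A B u i (u i) (u i)) *
      (N B u i (u i) y / N B u i (u i) (u i)) := by
  induction m with
  | zero => simp [A]
  | succ m ih => rw [sum_range_succ, A_succ, ih]

theorem A_symm (m : ℕ) (x y : V) : A B u m x y = A B u m y x := by
  rw [A_sum, A_sum]
  exact sum_congr rfl fun i _ => by ring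

/-- The form is unchanged when a vector is added with its own scale. -/
theorem H_succ {m : ℕ} (h1 : N B u m (u m) (u m) ≠ 0) (x : V) :
    A B u (m + 1) x x + N B u (m + 1) x x / t B s0 u (m + 1) =
      A B u m x x + N B u m x x / t B s0 u (m + 1) := by
  rw [A_succ, N_succ, t]
  simp only [div_div_eq_mul_div]
  field_simp
  ring

section psd

variable (hs : ∀ x y, B x y = B y x) (hp : ∀ x, x ≠ 0 → 0 < B x x)
include hs

theorem N_symm (m : ℕ) (x y : V) : N B u m x y = N B u m y x := by
  induction m generalizing x y with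
  | zero => exact hs x y
  | succ m ih => rw [N_succ, N_succ, ih x y, mul_comm]

theorem N_sq (m : ℕ) (x : V) : N B u (m + 1) x x =
    N B u m (x - (N B u m (u m) x / N B u m (u m) (u m)) • u m)
      (x - (N B u m (u m) x / N B u m (u m) (u m)) • u m) := by
  simp only [N_succ, map_sub, map_smul, LinearMap.sub_apply, LinearMap.smul_apply, smul_eq_mul,
    N_symm hs m x (u m)]
  rcases eq_or_ne (N B u m (u m) (u m)) 0 with h | h
  · simp [h]
  · field_simp
    ring

include hp

theorem N_nonneg (m : ℕ) (x : V) : 0 ≤ N B u m x x := by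
  induction m generalizing x with
  | zero =>
    rcases eq_or_ne x 0 with rfl | h
    · simp
    · exact (hp x h).le
  | succ m ih =>
    rw [N_sq hs]
    exact ih _

theorem N_ker {m : ℕ} {x : V} (h : N B u m x x = 0) (y : V) : N B u m y x = 0 := by
  have := LinearMap.BilinForm.apply_sq_le_of_symm (N B u m) (N_nonneg hs hp m)
    ⟨fun x y => N_symm hs m x y⟩ y x
  rw [h, mul_zero] at this
  exact pow_eq_zero_iff two_ne_zero |>.1 (le_antisymm this (sq_nonneg _))

theorem N_self {i m : ℕ} (h : i < m) (y : V) : N B u m y (u i) = 0 := by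
  induction m, h using Nat.le_induction generalizing y with
  | base =>
    refine N_ker hs hp ?_ y
    rw [N_succ]
    rcases eq_or_ne (N B u i (u i) (u i)) 0 with h | h
    · simp [h]
    · field_simp
      ring
  | succ m _ ih => rw [N_succ, ih, ih, mul_zero, zero_div, sub_zero]

theorem N_span {m : ℕ} {x : V} (h : N B u m x x = 0) :
    x ∈ Submodule.span ℝ (u '' Set.Iio m) := by
  induction m generalizing x with
  | zero =>
    rw [not_not.1 fun h0 => (hp x h0).ne' h]
    exact Submodule.zero_mem _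
  | succ m ih =>
    rw [N_sq hs] at h
    have h1 := Submodule.span_mono (Set.image_mono (Set.Iio_subset_Iio (Nat.le_succ m))) (ih h)
    exact (Submodule.sub_mem_iff_left _ (Submodule.smul_mem _ _
      (Submodule.subset_span (Set.mem_image_of_mem u (Set.mem_Iio.2 (Nat.lt_succ_self m)))))).1 h1

theorem A_self {i m : ℕ} (h : i < m) (h0 : N B u i (u i) (u i) ≠ 0) : A B u m (u i) (u i) = 1 := by
  induction m, h using Nat.le_induction with
  | base =>
    rw [A_succ, div_self h0]
    ring
  | succ m hm ih => rw [A_succ, ih, N_self hs hp hm, zero_div, mul_zero, add_zero]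

theorem succ_of_ker {m : ℕ} {x : V} (h : N B u m x x = 0) :
    N B u (m + 1) x x = 0 ∧ A B u (m + 1) x x = A B u m x x := by
  rw [N_succ, A_succ, N_ker hs hp h, N_ker hs hp h]
  simp

end psd

/-- The chain conditions. -/
def Ch (B : V →ₗ[ℝ] V →ₗ[ℝ] ℝ) (s0 : ℝ) (u : ℕ → V) (r : ℕ) : Prop :=
  ∀ m < r, 0 < N B u m (u m) (u m) ∧ A B u m (u m) (u m) < 1 ∧ t B s0 u (m + 1) < s0 ∧
    t B s0 u (m + 1) ≤ t B s0 u m

theorem Ch.mono {r r' : ℕ} (h : Ch B s0 u r) (hr : r' ≤ r) : Ch B s0 u r' :=
  fun m hm => h m (hm.trans_le hr)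

theorem Ch.pos {r : ℕ} (h : Ch B s0 u r) (h0 : 0 < s0) : 0 < t B s0 u r ∧ t B s0 u r ≤ s0 := by
  cases r with
  | zero => exact ⟨h0, le_rfl⟩
  | succ r =>
    obtain ⟨h1, h2, h3, -⟩ := h r (Nat.lt_succ_self r)
    exact ⟨div_pos h1 (sub_pos.2 h2), h3.le⟩

/-- Comparison with the original form. -/
theorem Ch.le {r : ℕ} (h : Ch B s0 u r) (h0 : 0 < s0) (x : V) :
    B x x / s0 ≤ A B u r x x + N B u r x x / s0 := by
  induction r with
  | zero => simp [A, N]
  | succ r ih =>
    refine (ih (h.mono (Nat.le_succ r))).trans ?_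
    obtain ⟨h1, h2, h3, -⟩ := h r (Nat.lt_succ_self r)
    rw [t, div_lt_iff₀ (sub_pos.2 h2)] at h3
    rw [A_succ, N_succ, ← sub_nonneg]
    have e : A B u r x x + N B u r (u r) x / N B u r (u r) (u r) * (1 - A B u r (u r) (u r)) *
        (N B u r (u r) x / N B u r (u r) (u r)) +
        (N B u r x x - N B u r (u r) x * N B u r (u r) x / N B u r (u r) (u r)) / s0 -
        (A B u r x x + N B u r x x / s0) = (N B u r (u r) x / N B u r (u r) (u r)) ^ 2 *
          ((s0 * (1 - A B u r (u r) (u r)) - N B u r (u r) (u r)) / s0) := by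
      field_simp
      ring
    rw [e]
    exact mul_nonneg (sq_nonneg _) (div_nonneg (sub_nonneg.2 h3.le) h0.le)

theorem upd {r m : ℕ} (y : V) (h : m ≤ r) : N B (Function.update u r y) m = N B u m ∧
    A B (Function.update u r y) m = A B u m ∧ t B s0 (Function.update u r y) m = t B s0 u m :=
  congr_NA fun _ hi => Function.update_of_ne (hi.trans_le h).ne _ _

theorem t_upd (r : ℕ) (y : V) :
    t B s0 (Function.update u r y) (r + 1) = N B u r y y / (1 - A B u r y y) := by
  rw [t, (upd (s0 := s0) y le_rfl).1, (upd (s0 := s0) y le_rfl).2.1, Function.update_self]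

theorem ch_upd (r : ℕ) (y : V) : Ch B s0 (Function.update u r y) (r + 1) ↔ Ch B s0 u r ∧
    0 < N B u r y y ∧ A B u r y y < 1 ∧ N B u r y y / (1 - A B u r y y) < s0 ∧
      N B u r y y / (1 - A B u r y y) ≤ t B s0 u r := by
  rw [Ch, Nat.forall_lt_succ_right, t_upd, (upd (s0 := s0) y le_rfl).1,
    (upd (s0 := s0) y le_rfl).2.1, (upd y le_rfl).2.2, Function.update_self]
  refine and_congr_left' (forall₂_congr fun m hm => ?_)
  rw [(upd (s0 := s0) y hm.le).1, (upd (s0 := s0) y hm.le).2.1, (upd y hm.le).2.2,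
    (upd y hm).2.2, Function.update_of_ne hm.ne]

theorem H_upd {r : ℕ} {y : V} (h : N B u r y y ≠ 0) (x : V) :
    A B (Function.update u r y) (r + 1) x x +
      N B (Function.update u r y) (r + 1) x x / t B s0 (Function.update u r y) (r + 1) =
      A B u r x x + N B u r x x / (N B u r y y / (1 - A B u r y y)) := by
  rw [H_succ (by rwa [(upd (s0 := s0) y le_rfl).1, Function.update_self]), t_upd,
    (upd (s0 := s0) y le_rfl).1, (upd (s0 := s0) y le_rfl).2.1]

end Pool.Agent.P.MP_59bdab_ag.PW
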