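import Pool.Agent.P.MP_59bdab_ag.PW1

/-!
Frames through the elimination forms.
-/

namespace Pool.Agent.P.MP_59bdab_ag.PW

open Finset Matrix

variable {n : Type} {r : ℕ}

/-- A frame as a sequence of real vectors. -/
noncomputable def ex (v : Fin r → n → ℤ) (m : ℕ) : n → ℝ :=
  if h : m < r then cz (v ⟨m, h⟩) else 0

theorem ex_val (v : Fin r → n → ℤ) (a : Fin r) : ex v a = cz (v a) := dif_pos a.2

theorem ex_snoc (v : Fin r → n → ℤ) (y : n → ℤ) :
    ex (Fin.snoc v y : Fin (r + 1) → n → ℤ) = Function.update (ex v) r (cz y) := by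
  funext m
  rcases lt_trichotomy m r with h | rfl | h
  · rw [Function.update_of_ne h.ne, ex, ex, dif_pos h, dif_pos (h.trans (Nat.lt_succ_self r))]
    exact congrArg cz (Fin.snoc_castSucc (α := fun _ => n → ℤ) y v ⟨m, h⟩)
  · rw [Function.update_self, ex, dif_pos (Nat.lt_succ_self m)]
    exact congrArg cz (Fin.snoc_last (α := fun _ => n → ℤ) y v)
  · rw [Function.update_of_ne h.ne', ex, ex, dif_neg h.not_gt, dif_neg (by omega)]

theorem cz_neg (y : n → ℤ) : cz (-y) = -cz y := funext fun _ => Int.cast_neg _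

theorem cz_inj {y z : n → ℤ} (h : cz y = cz z) : y = z :=
  funext fun i => Int.cast_injective (α := ℝ) (congrFun h i)

theorem cz_eq {v : Fin r → n → ℤ} {c : Fin r → ℚ} {y : n → ℤ}
    (h : ∀ i, ∑ a, c a * (v a i : ℚ) = y i) : cz y = ∑ a, (c a : ℝ) • ex v (a : ℕ) := by
  funext i
  have := congrArg (Rat.cast : ℚ → ℝ) (h i)
  simp only [Finset.sum_apply, ex_val, Pi.smul_apply, smul_eq_mul, cz]
  push_cast at this
  exact this.symm

theorem rat_of_span {v : Fin r → n → ℤ} {y : n → ℤ}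
    (h : cz y ∈ Submodule.span ℝ (ex v '' Set.Iio r)) :
    ∃ c : Fin r → ℚ, ∀ i, ∑ a, c a * (v a i : ℚ) = y i := by
  have e : ex v '' Set.Iio r ⊆ Set.range fun a => cz (v a) := by
    rintro _ ⟨m, hm, rfl⟩
    exact ⟨⟨m, hm⟩, (ex_val v ⟨m, hm⟩).symm⟩
  obtain ⟨c, hc⟩ := (Submodule.mem_span_range_iff_exists_fun ℝ).1 (Submodule.span_mono e h)
  obtain ⟨φ, hφ⟩ := (Algebra.linearMap ℚ ℝ).exists_leftInverse_of_injective
    (LinearMap.ker_eq_bot.2 (algebraMap ℚ ℝ).injective)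
  refine ⟨fun a => φ (c a), fun i => ?_⟩
  have h1 : ∑ a, (v a i : ℚ) • c a = Algebra.linearMap ℚ ℝ (y i : ℚ) := by
    have := congrFun hc i
    simp only [Finset.sum_apply, Pi.smul_apply, smul_eq_mul, cz] at this
    simp [← this, mul_comm, Rat.smul_def]
  have h2 := congrArg φ h1
  rw [map_sum, ← LinearMap.comp_apply, hφ] at h2
  simpa [mul_comm] using h2

theorem quad {V : Type} [AddCommGroup V] [Module ℝ V] (F : V →ₗ[ℝ] V →ₗ[ℝ] ℝ) (w : Fin r → V)
    (c : Fin r → ℝ) : F (∑ a, c a • w a) (∑ a, c a • w a) =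
      c ⬝ᵥ (Matrix.of fun a b => F (w a) (w b)) *ᵥ c := by
  simp only [map_sum, map_smul, LinearMap.sum_apply, LinearMap.smul_apply, smul_eq_mul,
    dotProduct, mulVec, of_apply, Finset.mul_sum]
  rw [Finset.sum_comm]
  exact sum_congr rfl fun a _ => sum_congr rfl fun b _ => by ring

theorem ldl_apply (L : Matrix (Fin r) (Fin r) ℝ) (d : Fin r → ℝ) (i j : Fin r) :
    (L * diagonal d * Lᵀ) i j = ∑ m, L i m * d m * L j m := by
  simp only [Matrix.mul_apply (M := L * diagonal d), mul_diagonal, transpose_apply]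

variable [Fintype n] [DecidableEq n] {Q : Matrix n n ℝ} {s0 : ℝ}

/-- The unipotent factor. -/
noncomputable def LL (Q : Matrix n n ℝ) (v : Fin r → n → ℤ) : Matrix (Fin r) (Fin r) ℝ :=
  Matrix.of fun i m => N (toBilin' Q) (ex v) m (ex v m) (ex v i) /
    N (toBilin' Q) (ex v) m (ex v m) (ex v m)

/-- The rescaled Gram matrix. -/
noncomputable def GG (Q : Matrix n n ℝ) (v : Fin r → n → ℤ) : Matrix (Fin r) (Fin r) ℝ :=
  Matrix.of fun i j => A (toBilin' Q) (ex v) r (ex v i) (ex v j)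

theorem GG_eq (v : Fin r → n → ℤ) : GG Q v =
    LL Q v * diagonal (fun m : Fin r => 1 - A (toBilin' Q) (ex v) m (ex v m) (ex v m)) *
      (LL Q v)ᵀ := by
  ext i j
  rw [ldl_apply, GG, of_apply, A_sum, Finset.sum_range]
  rfl

theorem gram_of (v : Fin r → n → ℤ) :
    gram Q v = Matrix.of fun a b : Fin r => toBilin' Q (ex v a) (ex v b) := by
  ext a b
  simp only [gram, of_apply, ex_val, toBilin'_apply']

section pd

variable (hQ : Q.PosDef)
include hQ

theorem hs (x y : n → ℝ) : toBilin' Q x y = toBilin' Q y x := by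
  have : Qᵀ = Q := by simpa using hQ.isHermitian.eq
  rw [toBilin'_apply', toBilin'_apply', dotProduct_mulVec, ← mulVec_transpose, this,
    dotProduct_comm]

theorem hp (x : n → ℝ) (h : x ≠ 0) : 0 < toBilin' Q x x := by
  simpa [toBilin'_apply'] using hQ.dotProduct_mulVec_pos h

theorem gram_eq (v : Fin r → n → ℤ) : gram Q v =
    LL Q v * diagonal (fun m : Fin r => N (toBilin' Q) (ex v) m (ex v m) (ex v m)) *
      (LL Q v)ᵀ := by
  ext i j
  rw [ldl_apply, gram_of, of_apply, N_sum (u := ex v) r, N_self (hs hQ) (hp hQ) j.2, zero_add,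
    Finset.sum_range]
  rfl

theorem mat_gram (v : Fin r → n → ℤ) : mat (coord (gram Q v)) = gram Q v :=
  mat_coord (by rw [gram_of]; ext a b; exact hs hQ _ _)

theorem LL_lt (v : Fin r → n → ℤ) (i m : Fin r) (h : i < m) : LL Q v i m = 0 := by
  rw [LL, of_apply, N_self (hs hQ) (hp hQ) h, zero_div]

omit hQ in
theorem indep {v : Fin r → n → ℤ} (h : (gram Q v).PosDef) :
    LinearIndependent ℝ fun a : Fin r => ex v a := by
  refine Fintype.linearIndependent_iff.2 fun c hc => congrFun (by_contra fun h0 => ?_)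
  have := h.dotProduct_mulVec_pos h0
  rw [star_trivial, gram_of, ← quad, hc] at this
  simp at this

theorem data (hLDL : S_LDL) {v : Fin r → n → ℤ} {G : Matrix (Fin r) (Fin r) ℝ} {s : Fin r → ℝ}
    (h0 : ∀ i, 0 < s i) (h1 : ∀ i, G i i = 1) (h : Tri (gram Q v) G s) :
    (∀ m : Fin r, 0 < N (toBilin' Q) (ex v) m (ex v m) (ex v m) ∧
      A (toBilin' Q) (ex v) m (ex v m) (ex v m) < 1 ∧ s m = t (toBilin' Q) s0 (ex v) (m + 1)) ∧
      G = GG Q v := by
  have hi := indep ((hLDL r).2.2.2 _ _ _ h0 h).1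
  have hD : ∀ m : Fin r, 0 < N (toBilin' Q) (ex v) m (ex v m) (ex v m) := fun m => by
    refine (N_nonneg (hs hQ) (hp hQ) _ _).lt_of_ne' fun e => ?_
    refine hi.notMem_span_image (s := Set.Iio m) (x := m) (lt_irrefl m)
      (Submodule.span_mono ?_ (N_span (hs hQ) (hp hQ) e))
    rintro _ ⟨k, hk, rfl⟩
    exact ⟨⟨k, lt_trans hk m.2⟩, hk, rfl⟩
  have hL : ∀ i, LL Q v i i = 1 := fun i => div_self (hD i).ne'
  obtain ⟨L, d, l1, l2, l3, l4, l5⟩ := h
  obtain ⟨rfl, e⟩ := (hLDL r).2.1 _ _ _ _ hL (LL_lt hQ v) hD l1 l2 ((gram_eq hQ v).symm.trans l5)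
  have hd : d = fun m : Fin r => 1 - A (toBilin' Q) (ex v) m (ex v m) (ex v m) := by
    refine sub_eq_zero.1 (eq_zero_of_mulVec_eq_zero
      (M := Matrix.of fun i m => LL Q v i m * LL Q v i m) ?_ (funext fun i => ?_))
    · rw [det_of_isLowerTriangular _ fun i m h => by simp [l2 i m h]]
      simp [hL]
    · have a1 := h1 i
      have a2 : GG Q v i i = 1 := A_self (hs hQ) (hp hQ) i.2 (hD i).ne'
      rw [l4, ldl_apply] at a1
      rw [GG_eq, ldl_apply] at a2
      have a3 := sub_eq_zero.2 (a1.trans a2.symm)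
      rw [← sum_sub_distrib] at a3
      refine Eq.trans ?_ a3
      simp only [mulVec, dotProduct, of_apply, Pi.sub_apply]
      exact sum_congr rfl fun m _ => by ring
  subst hd
  refine ⟨fun m => ⟨hD m, sub_pos.1 (l3 m), ?_⟩, l4.trans (GG_eq v).symm⟩
  rw [t, congrFun e m, mul_div_cancel_left₀ _ (l3 m).ne']

theorem ker_of_lam {v : Fin r → n → ℤ} (c : Fin r → ℝ) :
    N (toBilin' Q) (ex v) r (∑ a, c a • ex v (a : ℕ)) (∑ a, c a • ex v (a : ℕ)) = 0 := by
  rw [map_sum]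
  exact sum_eq_zero fun a _ => by rw [map_smul, N_self (hs hQ) (hp hQ) a.2, smul_zero]

end pd

/-- Closed frames. -/
def Cl (Q : Matrix n n ℝ) (s0 : ℝ) (v : Fin r → n → ℤ) : Prop :=
  Ch (toBilin' Q) s0 (ex v) r ∧ ∀ z : n → ℤ, z ≠ 0 → N (toBilin' Q) (ex v) r (cz z) (cz z) = 0 →
    1 ≤ A (toBilin' Q) (ex v) r (cz z) (cz z)

theorem Gm_diag (a : {p : Sym2 (Fin r) // ¬ p.IsDiag} → ℝ) (i : Fin r) : Gm a i i = 1 :=
  dif_pos rfl

theorem cl_of_mem (hQ : Q.PosDef) (hLDL : S_LDL) {v : Fin r → n → ℤ} (h : v ∈ FrC Q s0 r) :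
    Cl Q s0 v := by
  obtain ⟨-, a, ha, s, ⟨h1, h2⟩, hT⟩ := h
  rw [mat_gram hQ] at hT
  obtain ⟨d1, d2⟩ := data (s0 := s0) hQ hLDL (fun i => (h1 i).1) (Gm_diag a) hT
  refine ⟨fun m hm => ?_, fun z hz h0 => ?_⟩
  · obtain ⟨e1, e2, e3⟩ := d1 ⟨m, hm⟩
    have e4 := e3 ▸ (h1 ⟨m, hm⟩).2
    refine ⟨e1, e2, e4, ?_⟩
    cases m with
    | zero => exact e4.le
    | succ k =>
      exact e3.ge.trans ((h2 (show (⟨k, by omega⟩ : Fin r) ≤ ⟨k + 1, hm⟩ from Nat.le_succ k)).trans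
        (d1 ⟨k, by omega⟩).2.2.le)
  · obtain ⟨c, hc⟩ := rat_of_span (N_span (hs hQ) (hp hQ) h0)
    have := ha.2 c (fun i => ⟨_, hc i⟩) fun e => hz (funext fun i => by simpa [e, eq_comm] using hc i)
    rw [cz_eq hc, quad]
    rwa [d2] at this

theorem strict (hQ : Q.PosDef) (hLDL : S_LDL) {v : Fin r → n → ℤ} (h : v ∈ FrO Q s0 r) :
    (∀ m < r, t (toBilin' Q) s0 (ex v) (m + 1) < t (toBilin' Q) s0 (ex v) m) ∧
    ∀ z : n → ℤ, z ≠ 0 → N (toBilin' Q) (ex v) r (cz z) (cz z) = 0 →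
      (∀ a, z ≠ v a ∧ z ≠ -v a) → 1 < A (toBilin' Q) (ex v) r (cz z) (cz z) := by
  obtain ⟨-, a, ha, s, ⟨h1, h2⟩, hT⟩ := h
  rw [mat_gram hQ] at hT
  obtain ⟨d1, d2⟩ := data (s0 := s0) hQ hLDL (fun i => (h1 i).1) (Gm_diag a) hT
  refine ⟨fun m hm => ?_, fun z hz h0 hv => ?_⟩
  · have e3 := (d1 ⟨m, hm⟩).2.2
    cases m with
    | zero => exact e3.ge.trans_lt (h1 _).2
    | succ k =>
      exact e3.ge.trans_lt ((h2 (show (⟨k, by omega⟩ : Fin r) < ⟨k + 1, hm⟩ from
        Nat.lt_succ_self k)).trans_le (d1 ⟨k, by omega⟩).2.2.le)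
  · obtain ⟨c, hc⟩ := rat_of_span (N_span (hs hQ) (hp hQ) h0)
    have := ha.2 c (fun i => ⟨_, hc i⟩)
      (fun e => hz (funext fun i => by simpa [e, eq_comm] using hc i)) fun b =>
      ⟨fun e => (hv b).1 (funext fun i => by
          have := hc i
          simp only [e, Pi.single_apply, ite_mul, one_mul, zero_mul, sum_ite_eq', mem_univ,
            if_true] at this
          exact_mod_cast this.symm),
        fun e => (hv b).2 (funext fun i => by
          have := hc i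
          simp only [e, Pi.neg_apply, neg_mul, sum_neg_distrib, Pi.single_apply, ite_mul, one_mul,
            zero_mul, sum_ite_eq', mem_univ, if_true] at this
          exact_mod_cast this.symm)⟩
    rw [cz_eq hc, quad]
    rwa [d2] at this

theorem mem_of_cl (hQ : Q.PosDef) (hLDL : S_LDL) {v : Fin r → n → ℤ} (h : Cl Q s0 v) :
    v ∈ FrC Q s0 r := by
  obtain ⟨h1, h2⟩ := h
  have hpos : ∀ m : Fin r, 0 < t (toBilin' Q) s0 (ex v) (m + 1) := fun m =>
    div_pos (h1 m m.2).1 (sub_pos.2 (h1 m m.2).2.1)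
  have hT : Tri (gram Q v) (GG Q v) fun m => t (toBilin' Q) s0 (ex v) (m + 1) := by
    refine ⟨LL Q v, _, fun i => div_self (h1 i i.2).1.ne', LL_lt hQ v,
      fun i => sub_pos.2 (h1 i i.2).2.1, GG_eq v, (gram_eq hQ v).trans ?_⟩
    congr 3
    funext m
    exact (mul_div_cancel₀ _ (sub_pos.2 (h1 m m.2).2.1).ne').symm
  obtain ⟨p1, p2, -⟩ := (hLDL r).2.2.2 _ _ _ hpos hT
  have hi := indep p1
  have hG : Gm (fun p => Sym2.lift ⟨GG Q v, fun i j => A_symm _ _ _⟩ p.1) = GG Q v := by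
    ext i j
    rw [Gm, of_apply]
    split_ifs with e
    · subst e
      exact (A_self (hs hQ) (hp hQ) i.2 (h1 i i.2).1.ne').symm
    · rfl
  have anti : ∀ i j, i ≤ j → j ≤ r → t (toBilin' Q) s0 (ex v) j ≤ t (toBilin' Q) s0 (ex v) i := by
    intro i j hij
    induction j, hij using Nat.le_induction with
    | base => exact fun _ => le_rfl
    | succ j _ ih => exact fun hj => (h1 j hj).2.2.2.trans (ih (Nat.le_of_succ_le hj))
  refine ⟨Fintype.linearIndependent_iff.2 fun c hc a => ?_, _, ⟨hG.symm ▸ p2, fun c hc h0 => ?_⟩,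
    _, ⟨fun m => ⟨hpos m, (h1 m m.2).2.2.1⟩,
      fun i j hij => anti _ _ (Nat.succ_le_succ hij) j.2⟩, by rw [mat_gram hQ, hG]; exact hT⟩
  · have e := cz_eq (v := v) (c := fun a => c a) (y := 0) fun i => by
      have := congrFun hc i
      simp only [Finset.sum_apply, Pi.smul_apply, smul_eq_mul] at this
      exact_mod_cast this
    have := Fintype.linearIndependent_iff.1 hi _ (e.symm.trans (funext fun _ => Int.cast_zero)) a
    exact_mod_cast this
  · choose z hz using hc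
    have e := cz_eq hz
    have := h2 z (fun e0 => h0 (funext fun a => ?_)) (e ▸ ker_of_lam hQ _)
    · rw [e, quad] at this
      rwa [hG]
    · rw [e0] at e
      have := Fintype.linearIndependent_iff.1 hi _ (e.symm.trans (funext fun _ => Int.cast_zero)) a
      exact_mod_cast this

end Pool.Agent.P.MP_59bdab_ag.PW
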