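import Pool.Agent.P.MP_59bdab_ag.Defs

/-!
Auxiliary definitions (no group action yet) and their first properties.
-/

namespace Pool.Agent.P.MP_59bdab_ag

open Matrix MeasureTheory
open scoped ENNReal ComplexOrder

section coord
variable {ι K : Type}

/-- Coordinates of the symmetrisation of a matrix. -/
noncomputable def coord [Field K] (M : Matrix ι ι K) : Sym2 ι → K :=
  Sym2.lift ⟨fun i j => (M i j + M j i) / 2, fun i j => by
    show (M i j + M j i) / 2 = (M j i + M i j) / 2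
    rw [add_comm]⟩

@[simp] theorem mat_apply {R : Type} (z : Sym2 ι → R) (i j : ι) : mat z i j = z s(i, j) := rfl

@[simp] theorem coord_mk [Field K] (M : Matrix ι ι K) (i j : ι) :
    coord M s(i, j) = (M i j + M j i) / 2 := rfl

theorem mat_transpose {R : Type} (z : Sym2 ι → R) : (mat z)ᵀ = mat z := by
  ext i j; simp [Sym2.eq_swap]

theorem mat_isSymm {R : Type} (z : Sym2 ι → R) : (mat z).IsSymm := mat_transpose z

theorem mat_injective {R : Type} : Function.Injective (mat : (Sym2 ι → R) → Matrix ι ι R) := by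
  intro a b h
  funext p
  induction p using Sym2.ind with
  | _ i j => exact congrFun (congrFun h i) j

@[simp] theorem coord_mat [Field K] [CharZero K] (z : Sym2 ι → K) : coord (mat z) = z := by
  funext p
  induction p using Sym2.ind with
  | _ i j => simp [Sym2.eq_swap]

theorem mat_coord [Field K] [CharZero K] {M : Matrix ι ι K} (h : Mᵀ = M) : mat (coord M) = M := by
  ext i j
  have : M j i = M i j := congrFun (congrFun h i) j
  simp [this]

theorem mat_add {R : Type} [Add R] (a b : Sym2 ι → R) : mat (a + b) = mat a + mat b := rfl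
theorem mat_sub {R : Type} [Sub R] (a b : Sym2 ι → R) : mat (a - b) = mat a - mat b := rfl
theorem mat_smul {R : Type} [Mul R] (c : R) (a : Sym2 ι → R) : mat (c • a) = c • mat a := rfl
theorem mat_zero {R : Type} [Zero R] : mat (0 : Sym2 ι → R) = 0 := rfl

theorem coord_add [Field K] (A B : Matrix ι ι K) : coord (A + B) = coord A + coord B := by
  funext p
  induction p using Sym2.ind with
  | _ i j => simp only [coord_mk, Matrix.add_apply, Pi.add_apply]; ring

theorem coord_smul [Field K] (c : K) (A : Matrix ι ι K) : coord (c • A) = c • coord A := by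
  funext p
  induction p using Sym2.ind with
  | _ i j => simp only [coord_mk, Matrix.smul_apply, Pi.smul_apply, smul_eq_mul]; ring

/-- `mat` as a linear map. -/
def matL (ι K : Type) [Field K] : (Sym2 ι → K) →ₗ[K] Matrix ι ι K where
  toFun := mat
  map_add' := mat_add
  map_smul' := mat_smul

/-- `coord` as a linear map. -/
noncomputable def coordL (ι K : Type) [Field K] : Matrix ι ι K →ₗ[K] (Sym2 ι → K) where
  toFun := coord
  map_add' := coord_add
  map_smul' := coord_smul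

/-- The linear map `q ↦ P q Pᵀ` on symmetric matrices. -/
noncomputable def symL [Fintype ι] [Field K] (P : Matrix ι ι K) :
    (Sym2 ι → K) →ₗ[K] (Sym2 ι → K) where
  toFun q := coord (P * mat q * Pᵀ)
  map_add' a b := by rw [mat_add, Matrix.mul_add, Matrix.add_mul, coord_add]
  map_smul' c a := by
    rw [mat_smul, Matrix.mul_smul, Matrix.smul_mul, coord_smul]; rfl

theorem mat_symL [Fintype ι] [Field K] [CharZero K] (P : Matrix ι ι K) (q : Sym2 ι → K) :
    mat (symL P q) = P * mat q * Pᵀ :=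
  mat_coord (by rw [transpose_mul, transpose_mul, transpose_transpose, mat_transpose,
    Matrix.mul_assoc])

theorem continuous_mat {R : Type} [TopologicalSpace R] :
    Continuous (mat : (Sym2 ι → R) → Matrix ι ι R) :=
  continuous_pi fun _ => continuous_pi fun _ => continuous_apply _

theorem continuous_coord [NormedField K] : Continuous (coord : Matrix ι ι K → Sym2 ι → K) := by
  refine continuous_pi fun p => ?_
  induction p using Sym2.ind with
  | _ i j =>
    simp only [coord_mk]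
    exact ((continuous_apply_apply i j).add (continuous_apply_apply j i)).div_const _

theorem card_sym2_eq [Fintype ι] : Fintype.card (Sym2 ι) = tri (Fintype.card ι) := by
  rw [Sym2.card, Nat.choose_two_right, tri, Nat.add_sub_cancel, mul_comm]

end coord

/-- Positive definiteness is an open condition on a continuous family of hermitian matrices. -/
theorem isOpen_posDef {X n 𝕜 : Type} [TopologicalSpace X] [Fintype n] [RCLike 𝕜]
    {M : X → Matrix n n 𝕜} (hM : Continuous M) (hh : ∀ x, (M x).IsHermitian) :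
    IsOpen {x | (M x).PosDef} := by
  have hK : IsCompact (Metric.sphere (0 : n → 𝕜) 1) := isCompact_sphere _ _
  have hc : Continuous fun p : X × (n → 𝕜) => RCLike.re (star p.2 ⬝ᵥ (M p.1 *ᵥ p.2)) := by
    refine RCLike.continuous_re.comp ?_
    refine Continuous.dotProduct (continuous_star.comp continuous_snd) ?_
    exact Continuous.matrix_mulVec (hM.comp continuous_fst) continuous_snd
  rw [isOpen_iff_mem_nhds]
  intro x hx
  have hx' : (M x).PosDef := hx
  have h1 : ∀ᶠ y in nhds x, ∀ v ∈ Metric.sphere (0 : n → 𝕜) 1,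
      0 < RCLike.re (star v ⬝ᵥ (M y *ᵥ v)) := by
    refine hK.eventually_forall_of_forall_eventually fun v hv => ?_
    refine (isOpen_lt continuous_const hc).mem_nhds ?_
    have hv0 : v ≠ 0 := by
      rintro rfl
      simp at hv
    exact hx'.re_dotProduct_pos hv0
  filter_upwards [h1] with y hy
  refine PosDef.of_dotProduct_mulVec_pos (hh y) fun v hv => ?_
  have hn : (0 : ℝ) < ‖v‖ := norm_pos_iff.mpr hv
  have h2 := hy (((‖v‖⁻¹ : ℝ) : 𝕜) • v) (by
    rw [mem_sphere_zero_iff_norm, norm_smul, RCLike.norm_ofReal, abs_inv, abs_norm,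
      inv_mul_cancel₀ hn.ne'])
  rw [star_smul, mulVec_smul, smul_dotProduct, dotProduct_smul, smul_smul, RCLike.star_def,
    RCLike.conj_ofReal, ← RCLike.ofReal_mul, smul_eq_mul, RCLike.re_ofReal_mul] at h2
  have h3 : 0 < RCLike.re (star v ⬝ᵥ (M y *ᵥ v)) :=
    (mul_pos_iff_of_pos_left (by positivity)).mp h2
  rw [RCLike.pos_iff]
  exact ⟨h3, (hh y).im_star_dotProduct_mulVec_self v⟩

theorem mat_isHermitian {ι : Type} (q : Sym2 ι → ℝ) : (mat q).IsHermitian := by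
  rw [IsHermitian, conjTranspose_eq_transpose_of_trivial, mat_transpose]

/-- Positive definite real symmetric matrices in coordinates. -/
def PD (ι : Type) : Set (Sym2 ι → ℝ) := {q | (mat q).PosDef}

theorem isOpen_PD (ι : Type) [Fintype ι] : IsOpen (PD ι) :=
  isOpen_posDef continuous_mat mat_isHermitian

theorem isOpen_HS (ι : Type) [Fintype ι] : IsOpen (HS ι) :=
  isOpen_posDef (continuous_mat.comp (continuous_pi fun p =>
    Complex.continuous_im.comp (continuous_apply p))) fun _ => mat_isHermitian _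

/-- Real vector of an integer vector. -/
def cz {n : Type} (v : n → ℤ) : n → ℝ := fun i => (v i : ℝ)

/-- Value of a quadratic form on an integer vector. -/
def qf {n : Type} [Fintype n] (Q : Matrix n n ℝ) (v : n → ℤ) : ℝ := cz v ⬝ᵥ Q *ᵥ cz v

/-- Gram matrix of a family of integer vectors. -/
def gram {n κ : Type} [Fintype n] (Q : Matrix n n ℝ) (v : κ → n → ℤ) : Matrix κ κ ℝ :=
  Matrix.of fun a b => cz (v a) ⬝ᵥ Q *ᵥ cz (v b)

/-- The saturation of the lattice spanned by `v`, in the coordinates given by `v`. -/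
def Lam {n : Type} {r : ℕ} (v : Fin r → n → ℤ) : AddSubgroup (Fin r → ℚ) where
  carrier := {c | ∀ i, ∃ z : ℤ, ∑ a, c a * (v a i : ℚ) = z}
  add_mem' := by
    intro c d hc hd i
    obtain ⟨x, hx⟩ := hc i
    obtain ⟨y, hy⟩ := hd i
    exact ⟨x + y, by simp [add_mul, Finset.sum_add_distrib, hx, hy]⟩
  zero_mem' := fun i => ⟨0, by simp⟩
  neg_mem' := by
    intro c hc i
    obtain ⟨x, hx⟩ := hc i
    exact ⟨-x, by simp [hx]⟩

/-- Primitive families: part of a basis of the integer lattice. -/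
def Prim {n κ : Type} [Fintype κ] (v : κ → n → ℤ) : Prop :=
  ∀ c : κ → ℚ, (∀ i, ∃ z : ℤ, ∑ a, c a * (v a i : ℚ) = z) → ∀ a, ∃ z : ℤ, c a = z

/-- Primitive vectors. -/
def Prim1 {n : Type} (p : n → ℤ) : Prop := Prim fun _ : Fin 1 => p

/-- The family `v a = ∑ b, B b a • p b`. -/
def rmul {n κ : Type} [Fintype κ] (p : κ → n → ℤ) (B : Matrix κ κ ℤ) : κ → n → ℤ :=
  fun a => ∑ b, B b a • p b

/-- The standard symplectic form. -/
def om {ι : Type} [Fintype ι] [DecidableEq ι] (u v : ι ⊕ ι → ℤ) : ℤ := u ⬝ᵥ Matrix.J ι ℤ *ᵥ v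

/-- Isotropic families. -/
def Iso {ι κ : Type} [Fintype ι] [DecidableEq ι] (v : κ → ι ⊕ ι → ℤ) : Prop :=
  ∀ a b, om (v a) (v b) = 0

/-- The basis vector `(e_i, 0)`. -/
def ev {ι : Type} [DecidableEq ι] (i : ι) : ι ⊕ ι → ℤ := Pi.single (Sum.inl i) 1

abbrev SpZ (ι : Type) [Fintype ι] [DecidableEq ι] : Type := symplecticGroup ι ℤ
abbrev SpR (ι : Type) [Fintype ι] [DecidableEq ι] : Type := symplecticGroup ι ℝ

/-- `Q` and `G` have the same unipotent lower triangular factor, with diagonal ratio `s`. -/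
def Tri {r : ℕ} (Q G : Matrix (Fin r) (Fin r) ℝ) (s : Fin r → ℝ) : Prop :=
  ∃ (L : Matrix (Fin r) (Fin r) ℝ) (d : Fin r → ℝ), (∀ i, L i i = 1) ∧
    (∀ i j, i < j → L i j = 0) ∧ (∀ i, 0 < d i) ∧ G = L * diagonal d * Lᵀ ∧
    Q = L * diagonal (fun i => d i * s i) * Lᵀ

/-- Strict version of `CL`. -/
def CLo {r : ℕ} (L : AddSubgroup (Fin r → ℚ)) : Set ({p : Sym2 (Fin r) // ¬ p.IsDiag} → ℝ) :=
  {a | (Gm a).PosDef ∧ ∀ y ∈ L, y ≠ 0 → (∀ i, y ≠ Pi.single i 1 ∧ y ≠ -Pi.single i 1) →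
    1 < (fun i => (y i : ℝ)) ⬝ᵥ Gm a *ᵥ fun i => (y i : ℝ)}

/-- `s0 > s 0 ≥ s 1 ≥ ... > 0`. -/
def Sc (s0 : ℝ) (r : ℕ) : Set (Fin r → ℝ) := {s | (∀ i, 0 < s i ∧ s i < s0) ∧ Antitone s}

/-- `s0 > s 0 > s 1 > ... > 0`. -/
def So (s0 : ℝ) (r : ℕ) : Set (Fin r → ℝ) := {s | (∀ i, 0 < s i ∧ s i < s0) ∧ StrictAnti s}

/-- Gram matrices with data in `C × S`. -/
def TriSet {r : ℕ} (C : Set ({p : Sym2 (Fin r) // ¬ p.IsDiag} → ℝ)) (S : Set (Fin r → ℝ)) :
    Set (Sym2 (Fin r) → ℝ) := {q | ∃ a ∈ C, ∃ s ∈ S, Tri (mat q) (Gm a) s}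

/-- Closed frames of length `r` for the form `Q`. -/
def FrC {n : Type} [Fintype n] (Q : Matrix n n ℝ) (s0 : ℝ) (r : ℕ) : Set (Fin r → n → ℤ) :=
  {v | LinearIndependent ℤ v ∧ coord (gram Q v) ∈ TriSet (CL (Lam v)) (Sc s0 r)}

/-- Strict frames of length `r` for the form `Q`. -/
def FrO {n : Type} [Fintype n] (Q : Matrix n n ℝ) (s0 : ℝ) (r : ℕ) : Set (Fin r → n → ℤ) :=
  {v | LinearIndependent ℤ v ∧ coord (gram Q v) ∈ TriSet (CLo (Lam v)) (So s0 r)}

/-- The lattice sum of `WW`, as an extended real number. -/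
noncomputable def WE (r j : ℕ) : ℝ≥0∞ :=
  ∑' L : Ov r, (((stdL r).relIndex L.1 : ℝ≥0∞) ^ (2 * j + r + 1))⁻¹ *
    ∫⁻ a in CL L.1, ENNReal.ofReal ((Gm a).det ^ (j + 1))

/-- Number of integer points of an ellipsoid. -/
noncomputable def cnt {n : Type} [Fintype n] (Q : Matrix n n ℝ) (R : ℝ) : ℝ≥0∞ :=
  ∑' v : n → ℤ, {v | qf Q v ≤ R}.indicator 1 v

/-- A weight function (smooth fundamental domain) for a group action. -/
def IsWt (G X : Type) [Group G] [MulAction G X] [MeasurableSpace X] (w : X → ℝ≥0∞) : Prop :=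
  Measurable w ∧ ∀ x, ∑' γ : G, w (γ • x) = 1

/-- Fourier coefficient of a periodic function of one complex variable. -/
noncomputable def cf (h : ℂ → ℂ) (j : ℤ) (τ : ℂ) : ℂ :=
  ∫ t in (0 : ℝ)..1, h (τ + t) * Complex.exp (-(2 * Real.pi * Complex.I * j * t))

/-- `det (1 - ζ ζ*)`. -/
noncomputable def dd {ι : Type} [Fintype ι] [DecidableEq ι] (ζ : Sym2 ι → ℂ) : ℝ :=
  (1 - mat ζ * (mat ζ)ᴴ).det.re

/-- The part of the Siegel disc where `det (1 - ζ ζ*) > ρ ^ 2`. -/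
def DD (ι : Type) [Fintype ι] [DecidableEq ι] (ρ : ℝ) : Set (Sym2 ι → ℂ) :=
  {ζ | (1 - mat ζ * (mat ζ)ᴴ).PosDef ∧ ρ ^ 2 < dd ζ}

section blocks
variable {ι₁ ι₂ : Type} [Fintype ι₁] [DecidableEq ι₁] [Fintype ι₂] [DecidableEq ι₂]

/-- `Sp(ι₁)` inside `Sp(ι₁ ⊕ ι₂)`. -/
def embM (ι₂ : Type) [DecidableEq ι₂] (γ : Matrix (ι₁ ⊕ ι₁) (ι₁ ⊕ ι₁) ℤ) :
    Matrix ((ι₁ ⊕ ι₂) ⊕ (ι₁ ⊕ ι₂)) ((ι₁ ⊕ ι₂) ⊕ (ι₁ ⊕ ι₂)) ℤ :=
  fromBlocks (fromBlocks γ.toBlocks₁₁ 0 0 1) (fromBlocks γ.toBlocks₁₂ 0 0 0)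
    (fromBlocks γ.toBlocks₂₁ 0 0 0) (fromBlocks γ.toBlocks₂₂ 0 0 1)

/-- The element acting by `Z ↦ Uᵀ Z U`, `U = [[1, l], [0, 1]]`. -/
def uuM (l : Matrix ι₁ ι₂ ℤ) : Matrix ((ι₁ ⊕ ι₂) ⊕ (ι₁ ⊕ ι₂)) ((ι₁ ⊕ ι₂) ⊕ (ι₁ ⊕ ι₂)) ℤ :=
  fromBlocks (fromBlocks 1 0 lᵀ 1) 0 0 (fromBlocks 1 (-l) 0 1)

/-- The translation by `[[0, m], [mᵀ, c]]`. -/
def ttM (m : Matrix ι₁ ι₂ ℤ) (c : Sym2 ι₂ → ℤ) :
    Matrix ((ι₁ ⊕ ι₂) ⊕ (ι₁ ⊕ ι₂)) ((ι₁ ⊕ ι₂) ⊕ (ι₁ ⊕ ι₂)) ℤ :=
  fromBlocks 1 (fromBlocks 0 m mᵀ (mat c)) 0 1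

end blocks

end Pool.Agent.P.MP_59bdab_ag
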