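import Pool.Agent.P.MP_59bdab_ag.IfB

/-! Compactness properties of the form attached to a point of the half space. -/

namespace Pool.Agent.P.MP_59bdab_ag

open Matrix MeasureTheory Filter Topology
open scoped ENNReal ComplexOrder

namespace QC

theorem entry {n : Type} [Fintype n] [DecidableEq n] {Q : Matrix n n ℝ} (h : Q.PosSemidef) {C : ℝ}
    (hC : ∀ i, Q i i ≤ C) : Q ∈ (Set.Icc (-C) C).matrix := by
  intro i j
  have h0 : Q j i = Q i j := by simpa using h.1.apply i j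
  have h1 := h.dotProduct_mulVec_nonneg (Pi.single i 1 + Pi.single j 1)
  have h2 := h.dotProduct_mulVec_nonneg (Pi.single i 1 - Pi.single j 1)
  simp only [star_trivial, mulVec_add, mulVec_sub, add_dotProduct, sub_dotProduct, dotProduct_add,
    dotProduct_sub, mulVec_single_one, single_dotProduct, one_mul, col_apply, h0] at h1 h2
  constructor <;> linarith [hC i, hC j]

theorem closed_psd {n : Type} [Fintype n] : IsClosed {Y : Matrix n n ℝ | Y.PosSemidef} := by
  simp only [posSemidef_iff_dotProduct_mulVec, Set.ofPred_and, Set.ofPred_forall]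
  exact (isClosed_eq (by fun_prop) continuous_id).inter
    (isClosed_iInter fun x => isClosed_le continuous_const (by fun_prop))

theorem one {ι : Type} [Fintype ι] [DecidableEq ι] (h1 : ∀ Z : HH ι, (Qm Z).PosDef)
    (h2 : Continuous (Qm : HH ι → Matrix (ι ⊕ ι) (ι ⊕ ι) ℝ)) (C : ℝ) :
    IsCompact {Z : HH ι | ∀ i, Qm Z i i ≤ C} := by
  have hc : IsCompact ((Set.Icc (-C) C).matrix : Set (Matrix ι ι ℝ)) := isCompact_Icc.matrix
  have hT := (hc.prod (hc.prod hc)).inter_right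
    ((closed_psd.preimage continuous_fst).inter (isClosed_eq
      (f := fun p : Matrix ι ι ℝ × Matrix ι ι ℝ × Matrix ι ι ℝ => p.1 * p.2.1) (by fun_prop)
      (continuous_const (y := 1))))
  have hm : Continuous (cm : Matrix ι ι ℝ → Matrix ι ι ℂ) :=
    continuous_id.matrix_map Complex.continuous_ofReal
  have hK := hT.image (f := fun p => coord (cm (p.1 * p.2.2) + Complex.I • cm p.1))
    (continuous_coord.comp (by fun_prop))
  refine (IsInducing.subtypeVal.isCompact_preimage' hK ?_).of_isClosed_subset ?_ fun Z hZ => ?_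
  · rintro _ ⟨⟨Y, W, V⟩, ⟨-, p1, p2⟩, rfl⟩
    replace p1 : Y.PosSemidef := p1
    have p3 : (mat fun p => (coord (cm (Y * V) + Complex.I • cm Y) p).im) = Y := by
      ext i j
      have : Y j i = Y i j := by simpa using p1.1.apply i j
      simp [this]
    rw [Subtype.range_coe_subtype]
    change (mat fun p => (coord (cm (Y * V) + Complex.I • cm Y) p).im).PosDef
    rw [p3]
    exact p1.posDef_iff_isUnit.2 (IsUnit.of_mul_eq_one W p2)
  · rw [Set.ofPred_forall]
    exact isClosed_iInter fun i => isClosed_le (by fun_prop) continuous_const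
  · have q1 := entry (h1 Z).posSemidef hZ
    have q2 := (isUnit_iff_isUnit_det _).1 (Ym_posDef Z).isUnit
    have q3 : (Xm Z * (Ym Z)⁻¹ * Xm Z).PosSemidef := by
      have := (Ym_posDef Z).inv.posSemidef.mul_mul_conjTranspose_same (Xm Z)
      rwa [conjTranspose_eq_transpose_of_trivial, Xm_transpose] at this
    refine ⟨(Ym Z, (Ym Z)⁻¹, (Ym Z)⁻¹ * Xm Z), ⟨⟨entry (Ym_posDef Z).posSemidef fun i => ?_,
      fun i j => q1 (.inl i) (.inl j), fun i j => ?_⟩, (Ym_posDef Z).posSemidef,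
      mul_nonsing_inv _ q2⟩, ?_⟩
    · exact (le_add_of_nonneg_right q3.diag_nonneg).trans (hZ (.inr i))
    · have : -((Ym Z)⁻¹ * Xm Z) i j ∈ Set.Icc (-C) C := q1 (.inl i) (.inr j)
      exact ⟨neg_le.1 this.2, neg_le_neg_iff.1 this.1⟩
    · simp only [mul_nonsing_inv_cancel_left _ _ q2, ← mat_eq, coord_mat]

theorem two {X n : Type} [TopologicalSpace X] [Fintype n] {Q : X → Matrix n n ℝ}
    (h1 : ∀ Z, (Q Z).PosDef) (h2 : Continuous Q) {K : Set X} (hK : IsCompact K) :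
    ∃ c > 0, ∀ Z ∈ K, ∀ x : n → ℝ, c * (x ⬝ᵥ x) ≤ x ⬝ᵥ Q Z *ᵥ x := by
  have h3 : ∀ x ∈ Metric.sphere (0 : n → ℝ) 1, x ≠ 0 := fun x hx =>
    Metric.ne_of_mem_sphere hx one_ne_zero
  have h4 : ∀ x : n → ℝ, x ≠ 0 → 0 < x ⬝ᵥ x := fun x hx => by
    simpa using dotProduct_self_star_pos_iff.2 hx
  obtain ⟨c, c0, hc⟩ := (hK.prod (isCompact_sphere (0 : n → ℝ) 1)).exists_forall_le'
    (f := fun p => (p.2 ⬝ᵥ Q p.1 *ᵥ p.2) / (p.2 ⬝ᵥ p.2)) (a := 0)
    (ContinuousOn.div (by fun_prop) (by fun_prop) fun p hp => (h4 _ (h3 _ hp.2)).ne')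
    fun p hp => div_pos ((h1 p.1).dotProduct_mulVec_pos (h3 _ hp.2)) (h4 _ (h3 _ hp.2))
  refine ⟨c, c0, fun Z hZ x => ?_⟩
  by_cases hx : x = 0
  · simp [hx]
  have h5 := norm_pos_iff.2 hx
  have h6 := hc (Z, ‖x‖⁻¹ • x) ⟨hZ, by simp [norm_smul, h5.ne']⟩
  simp only [mulVec_smul, smul_dotProduct, dotProduct_smul, smul_eq_mul] at h6
  rwa [mul_div_mul_left _ _ (by positivity), mul_div_mul_left _ _ (by positivity),
    le_div_iff₀ (h4 x hx)] at h6

theorem le_dot {n : Type} [Fintype n] (v : n → ℤ) (i : n) : ((|v i| : ℤ) : ℝ) ≤ cz v ⬝ᵥ cz v := by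
  refine le_trans ?_ (Finset.single_le_sum (f := fun j => cz v j * cz v j)
    (fun j _ => mul_self_nonneg _) (Finset.mem_univ i))
  have : |v i| ≤ v i * v i := by rw [← abs_mul_abs_self, ← sq]; exact Int.le_self_sq _
  simp only [cz]
  exact_mod_cast this

theorem fin {n : Type} [Fintype n] {c : ℝ} (hc : 0 < c) (M : ℝ) :
    {v : n → ℤ | c * (cz v ⬝ᵥ cz v) ≤ M}.Finite :=
  (Set.Finite.pi' fun _ : n => Set.finite_Icc (-⌈M / c⌉) ⌈M / c⌉).subset fun v hv i =>
    abs_le.1 (by exact_mod_cast (le_dot v i).trans (((le_div_iff₀' hc).2 hv).trans (Int.le_ceil _)))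

end QC

theorem p_QC (hQ : S_Q) : S_QC := by
  intro ι _ _
  obtain ⟨h1, -, h3, -, -, h6, -⟩ := hQ ι
  have h2 := fun K => QC.two (K := K) (fun Z => (h1 Z).1) h6
  refine ⟨QC.one (fun Z => (h1 Z).1) h6, h2, fun Z C => ?_, fun Z => ?_, fun K hK => ?_⟩
  · obtain ⟨c, c0, hc⟩ := h2 {Z} isCompact_singleton
    exact (QC.fin c0 C).subset fun v hv => (hc Z rfl _).trans hv
  · obtain ⟨c, c0, hc⟩ := h2 {Z} isCompact_singleton
    refine ⟨c, c0, fun ⟨v, v0, hv⟩ => ?_⟩
    obtain ⟨i, hi⟩ := Function.ne_iff.1 v0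
    have h7 : (1 : ℝ) ≤ ((|v i| : ℤ) : ℝ) := by exact_mod_cast Int.one_le_abs hi
    exact hv.not_ge ((le_mul_of_one_le_right c0.le (h7.trans (QC.le_dot v i))).trans (hc Z rfl _))
  · obtain ⟨c, c0, hc⟩ := h2 K hK
    choose B hB using fun j : ι ⊕ ι => hK.bddAbove_image
      (f := fun Z => qf (Qm Z) (Pi.single j 1)) (by unfold qf; fun_prop)
    refine ((Set.Finite.pi' fun j => QC.fin c0 (B j)).preimage
      (f := fun (γ : SpZ ι) j => γ.1 *ᵥ Pi.single j 1) fun γ _ δ _ e => ?_).subset ?_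
    · ext i j
      simpa using congrFun (congrFun e j) i
    · rintro γ ⟨Z, z1, z2⟩ j
      exact (hc _ z2 _).trans ((h3 γ Z _).trans_le (hB j ⟨Z, z1, rfl⟩))

end Pool.Agent.P.MP_59bdab_ag
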