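import Pool.Agent.P.MP_59bdab_ag.IfC

namespace Pool.Agent.P.MP_59bdab_ag

open Matrix MeasureTheory Filter Topology

namespace REG3

variable {ι : Type} [Fintype ι] [DecidableEq ι]

omit [DecidableEq ι] in
theorem closed_psd : IsClosed {S : Sym2 ι → ℝ | (mat S).PosSemidef} := by
  simp only [posSemidef_iff_dotProduct_mulVec, mat_isHermitian, true_and, Set.ofPred_forall]
  exact isClosed_iInter fun x => isClosed_le continuous_const
    (continuous_const.dotProduct (continuous_mat.matrix_mulVec continuous_const))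

omit [DecidableEq ι] in
theorem exists_compact {K : Set (HH ι)} (hK : IsCompact K) (r : ℝ) :
    ∃ K' : Set (HH ι), IsCompact K' ∧ ∀ Z : HH ι, ∀ Z' ∈ K, rev Z'.1 = rev Z.1 →
      (mat (imv Z.1 - imv Z'.1)).PosSemidef → ‖imv Z.1‖ ≤ r → Z ∈ K' := by
  obtain ⟨C, hC⟩ := hK.exists_bound_of_continuousOn (f := fun Z : HH ι => imv Z.1)
    (continuous_imv.comp continuous_subtype_val).continuousOn
  let F : HH ι × {S : Sym2 ι → ℝ | (mat S).PosSemidef} → HH ι := fun p =>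
    ⟨cv (rev p.1.1) (imv p.1.1 + p.2.1), cv_mem ((Ym_posDef p.1).add_posSemidef p.2.2)⟩
  have h1 : Continuous fun p : HH ι × {S : Sym2 ι → ℝ | (mat S).PosSemidef} => p.1.1 :=
    continuous_subtype_val.comp continuous_fst
  have hF : Continuous F := (continuous_cv.comp ((continuous_rev.comp h1).prodMk
    ((continuous_imv.comp h1).add (continuous_subtype_val.comp continuous_snd)))).subtype_mk _
  refine ⟨_, (hK.prod (closed_psd.isClosedEmbedding_subtypeVal.isCompact_preimage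
    (isCompact_closedBall 0 (r + C)))).image hF, fun Z Z' h2 h3 h4 h5 =>
    ⟨(Z', ⟨_, h4⟩), ⟨h2, ?_⟩, Subtype.ext ?_⟩⟩
  · exact mem_closedBall_zero_iff.2 (norm_sub_le_of_le h5 (hC Z' h2))
  · change cv (rev Z'.1) (imv Z'.1 + (imv Z.1 - imv Z'.1)) = Z.1
    rw [h3, add_sub_cancel, cv_rev_imv]

end REG3

theorem p_REG3 (hLOCE : S_LOCE) (hFLAT1 : S_FLAT1) (hFLAT3 : S_FLAT3) (hISOL : S_ISOL)
    (hHESS : S_HESS) (hLEG1 : S_LEG1) (hLEVI1 : S_LEVI1) (hQ : S_Q) : S_REG3 := by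
  classical
  intro ι _ _ s s' b β μ δ φ hb hμ hδ hφ
  obtain ⟨f1, -, f2, -⟩ := hFLAT1 ι s s' b β hb
  obtain ⟨o1, -, -, K, k1, k2, k3⟩ := hFLAT3 ι s s' b β hb
  have hR : flt s b ⁻¹' (K ∩ HG ι s) ⊆ OS ι s s' b := fun Z h =>
    ⟨h.2, NN_subset hb.lt_one (k1 h.1)⟩
  obtain ⟨L, C, c0, hE⟩ := (k2.diff ((hQ ι).2.2.2.2.2.2.2.2.2.1 s)).induction_on
    (p := fun A => ∃ L C, 0 ≤ C ∧ ∀ Z ∈ A, Z ∈ HG ι s →
      Est s μ δ (fun z => Ph s b β (imv z)) L C (shp b Z).1)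
    ⟨∅, 0, le_rfl, fun _ h => h.elim⟩
    (fun A A' h ⟨L, C, c0, h1⟩ => ⟨L, C, c0, fun Z hZ => h1 Z (h hZ)⟩)
    (fun A A' ⟨L, C, c0, h1⟩ ⟨L', C', c0', h1'⟩ => ⟨L ∪ L', C + C', add_nonneg c0 c0',
      fun Z hZ hG => hZ.elim
        (fun h => (h1 Z h hG).mono Finset.subset_union_left (by linarith) (by linarith))
        fun h => (h1' Z h hG).mono Finset.subset_union_right (by linarith) (by linarith)⟩)
    fun Z hZ => by
      obtain ⟨L, C, c0, h⟩ := hLOCE ι s s' b β μ δ hb hμ hδ Z hZ.2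
      exact ⟨_, mem_nhdsWithin_of_mem_nhds (eventually_nhdsWithin_iff.1 h), L, C, c0,
        fun Z hZ => hZ⟩
  obtain ⟨L', C', c0', hD⟩ := hHESS ι s s' b β hb (tOf '' K)
    (by rintro _ ⟨Z, -, rfl⟩; exact tOf_mem Z) (k2.image continuous_tOf)
  obtain ⟨M, hM⟩ := k2.exists_bound_of_continuousOn (f := fun Z : HH ι => rev Z.1)
    (continuous_rev.comp continuous_subtype_val).continuousOn
  refine ⟨flt s b ⁻¹' (K ∩ HG ι s), L ∪ L', C, ⟨f1.measurable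
    (k2.measurableSet.inter ((hISOL ι).2.2.2.1 s).1.measurableSet), k3, M, fun Z h => ?_⟩,
    ⟨C', c0', fun Z h => ?_⟩, c0, fun Z h => ?_, fun r => ?_⟩
  · rw [← (f2 Z).2.2.1]
    exact hM _ h.1
  · have e : φ =ᶠ[𝓝 Z.1] fun z => Ph s b β (imv z) :=
      eventually_amb.2 (eventually_of_mem (o1.mem_nhds (hR h)) hφ)
    rw [((hLEVI1 _).1 _ _ _ e).1]
    exact (hD _ Z.2 ⟨_, h.1, (f2 Z).1⟩).mono Finset.subset_union_right le_rfl c0'
  · have h1 := hE _ ⟨h.1, fun ⟨v, h1, h2⟩ => lt_asymm h2 (h.2 v h1)⟩ h.2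
    rw [(f2 Z).2.2.2.1] at h1
    refine Est.mono ?_ Finset.subset_union_left le_rfl c0
    unfold Est at h1 ⊢
    rwa [hφ Z (hR h)]
  · obtain ⟨K', h1, h2⟩ := REG3.exists_compact k2 r
    refine ⟨K', h1, fun Z h => h2 Z _ h.1 (f2 Z).2.2.1 ?_⟩
    rw [(f2 Z).2.2.2.2, ← coord_inv_tOf]
    exact (hLEG1 ι s s' b β hb).2.2.2.2.2.1 _ (f2 Z).2.1

end Pool.Agent.P.MP_59bdab_ag
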