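import Pool.Agent.P.MP_59bdab_ag.IfB

/-!
The general upper bound for dimensions.
-/

namespace Pool.Agent.P.MP_59bdab_ag

open Matrix MeasureTheory Filter Topology
open scoped ENNReal ComplexOrder

namespace UBD

variable {ι : Type} [Fintype ι] [DecidableEq ι]

/-- The unitary normalisation of a function. -/
noncomputable def TT (ι : Type) [Fintype ι] [DecidableEq ι] (k : ℕ) :
    ((Sym2 ι → ℂ) → ℂ) →ₗ[ℂ] (HH ι → ℂ) where
  toFun f Z := f Z.1 * (√((Ym Z).det ^ k) : ℝ)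
  map_add' f g := by funext Z; simp [add_mul]
  map_smul' c f := by funext Z; simp [mul_assoc]

theorem TT_apply (k : ℕ) (f : (Sym2 ι → ℂ) → ℂ) (Z : HH ι) :
    TT ι k f Z = f Z.1 * (√((Ym Z).det ^ k) : ℝ) := rfl

theorem enorm_TT (k : ℕ) (f : (Sym2 ι → ℂ) → ℂ) (Z : HH ι) :
    ‖TT ι k f Z‖ₑ ^ 2 = ENNReal.ofReal (FF k f Z) := by
  rw [← ofReal_norm, ← ENNReal.ofReal_pow (norm_nonneg _), TT_apply, norm_mul,
    Complex.norm_real, Real.norm_of_nonneg (Real.sqrt_nonneg _), mul_pow,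
    Real.sq_sqrt (pow_nonneg (Ym_det_pos Z).le _), FF]

theorem cg_pos (g : ℕ) : 0 < cg g := by unfold cg; positivity

theorem lim (hIK : S_IK) {ρ : ℝ} (h0 : 0 ≤ ρ) (h1 : ρ < 1) :
    Tendsto (fun k : ℕ => ((k : ℝ≥0∞) ^ tri (Fintype.card ι) * Ik ι k ρ)⁻¹) atTop
      (𝓝 (ENNReal.ofReal (cg (Fintype.card ι)))) := by
  have h := tendsto_inv_iff.2 ((hIK ι).1 ρ h0 h1)
  rwa [ENNReal.ofReal_inv_of_pos (cg_pos _), inv_inv] at h

theorem pt {F I n N K : ℝ≥0∞} (hI : I ≠ 0) (hn : n ≠ ⊤) (hN : N ≠ ⊤) (hK : K ≠ 0) (hK' : K ≠ ⊤)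
    (h : F * I ≤ n * N) : F ≤ K * (n * (K * I)⁻¹) * N := by
  refine ((ENNReal.le_div_iff_mul_le (Or.inl hI) (Or.inr (ENNReal.mul_ne_top hn hN))).2 h).trans
    (le_of_eq ?_)
  rw [ENNReal.mul_inv (Or.inl hK) (Or.inl hK'), mul_left_comm K n,
    ENNReal.mul_inv_cancel_left hK hK', div_eq_mul_inv, mul_right_comm]

theorem small (hPROP : S_PROP) (hMULT : S_MULT) {w : HH ι → ℝ≥0∞} {R : Set (HH ι)}
    (hR : MeasurableSet R) (hm : (μH ι).withDensity w R ≠ ⊤) {c e : ℝ≥0∞} (hc : c ≠ ⊤)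
    (he : 0 < e) : ∃ ρ < 1, c * (μH ι).withDensity w (R \ Gd ι ρ) < e := by
  obtain ⟨-, -, h3, h4, h5, -⟩ := hMULT ι
  have h1 : Tendsto (fun l : ℕ => (μH ι).withDensity w (R \ Gd ι (1 - 1 / ((l : ℝ) + 1)))) atTop
      (𝓝 ((μH ι).withDensity w (⋂ l : ℕ, R \ Gd ι (1 - 1 / ((l : ℝ) + 1))))) :=
    tendsto_measure_iInter_atTop (fun l => (hR.diff (h3 _).measurableSet).nullMeasurableSet)
      (fun l l' h => Set.sdiff_subset_sdiff_right
        (h4 (sub_le_sub_left (Nat.one_div_le_one_div h) 1)))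
      ⟨0, ne_top_of_le_ne_top hm (measure_mono Set.sdiff_subset)⟩
  have h2 : (μH ι).withDensity w (⋂ l : ℕ, R \ Gd ι (1 - 1 / ((l : ℝ) + 1))) = 0 := by
    refine withDensity_absolutelyContinuous _ _ (measure_mono_null (t := {Z | ¬ Z ∈ Free ι})
      (fun W hW hF => ?_) (ae_iff.1 (hPROP ι).2.2.2.2.1))
    obtain ⟨ρ, hρ, h⟩ := h5 W hF
    obtain ⟨l, hl⟩ := exists_nat_one_div_lt (sub_pos.2 hρ)
    exact (Set.mem_iInter.1 hW l).2 (h4 (by linarith) h)
  rw [h2] at h1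
  have h6 := ENNReal.Tendsto.const_mul h1 (Or.inr hc)
  rw [mul_zero] at h6
  obtain ⟨l, hl⟩ := (h6.eventually (gt_mem_nhds he)).exists
  exact ⟨_, sub_lt_self _ Nat.one_div_pos_of_nat, hl⟩

end UBD

theorem p_UBD (hDIMU : S_DIMU) (hBERG : S_BERG) (hIK : S_IK) (hPROP : S_PROP) (hMULT : S_MULT) :
    S_UBD := by
  intro ι _ _ G w n R s0 D k η V hw hn hR hs0 hRS hm hD hDI hk hη hV
  set ν := (μH ι).withDensity w with hν
  have hmR : mass w R = ν R := (withDensity_apply w hR).symm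
  have hint : ∀ φ : HH ι → ℝ≥0∞, Measurable φ → ∫⁻ Z, φ Z ∂ν = ∫⁻ Z, φ Z * w Z ∂μH ι :=
    fun φ hφ => by
      rw [hν, lintegral_withDensity_eq_lintegral_mul _ hw.1 hφ]
      exact lintegral_congr fun Z => mul_comm _ _
  rw [hmR] at hm ⊢
  rw [← hint D hD] at hDI
  have hc := UBD.cg_pos (Fintype.card ι)
  obtain ⟨n0, hn0, hB1⟩ := (hBERG ι).1 s0 hs0
  suffices H : ∀ ε > 0, ∀ᶠ a in atTop, FiniteDimensional ℂ (V a) ∧ (Module.finrank ℂ (V a) : ℝ) ≤
      (n * cg (Fintype.card ι) * (ν R).toReal + ε) * (k a : ℝ) ^ tri (Fintype.card ι) from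
    ⟨(H 1 one_pos).mono fun _ h => h.1, fun ε hε => (H ε hε).mono fun _ h => h.2⟩
  intro ε hε
  obtain ⟨ρ, hρ, hsm⟩ := UBD.small hPROP hMULT hR hm
    (ENNReal.mul_ne_top hn0 (ENNReal.ofReal_ne_top (r := cg (Fintype.card ι))))
    (ENNReal.ofReal_pos.2 hε)
  obtain ⟨ρ', h0, h1, hB2⟩ := (hBERG ι).2 ρ hρ
  have hGd := ((hMULT ι).2.2.1 ρ).measurableSet
  have hfin : ν (R \ Gd ι ρ) ≠ ⊤ := ne_top_of_le_ne_top hm (measure_mono Set.sdiff_subset)
  have hc0 : ENNReal.ofReal (cg (Fintype.card ι)) ≠ 0 := (ENNReal.ofReal_pos.2 hc).ne'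
  have hlim := ((ENNReal.Tendsto.mul_const (b := ν R) (ENNReal.Tendsto.const_mul (a := n)
      ((UBD.lim (ι := ι) hIK h0.le h1).comp hk) (Or.inl hc0)) (Or.inr hm)).add
    (ENNReal.Tendsto.mul_const (ENNReal.Tendsto.const_mul (a := n0)
      ((UBD.lim (ι := ι) hIK (ρ := 1 / 2) (by norm_num) (by norm_num)).comp hk) (Or.inl hc0))
      (Or.inr hfin))).add (ENNReal.Tendsto.mul_const hη (Or.inr hDI))
  have hlt : (n : ℝ≥0∞) * ENNReal.ofReal (cg (Fintype.card ι)) * ν R +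
      n0 * ENNReal.ofReal (cg (Fintype.card ι)) * ν (R \ Gd ι ρ) + 0 * ∫⁻ Z, D Z ∂ν <
      ENNReal.ofReal (n * cg (Fintype.card ι) * (ν R).toReal + ε) := by
    rw [zero_mul, add_zero, ENNReal.ofReal_add (by positivity) hε.le,
      ENNReal.ofReal_mul (by positivity), ENNReal.ofReal_mul (Nat.cast_nonneg _),
      ENNReal.ofReal_natCast, ENNReal.ofReal_toReal hm]
    exact ENNReal.add_lt_add_left (ENNReal.mul_ne_top (ENNReal.mul_ne_top
      (ENNReal.natCast_ne_top n) ENNReal.ofReal_ne_top) hm) hsm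
  filter_upwards [hV, hlim.eventually (gt_mem_nhds hlt), hk.eventually (eventually_ge_atTop 1)]
    with a ha hb hk1
  simp only [Function.comp] at hb
  set K : ℝ≥0∞ := (k a : ℝ≥0∞) ^ tri (Fintype.card ι) with hK
  have hK1 : 1 ≤ K := one_le_pow₀ (by exact_mod_cast hk1)
  have hK0 : K ≠ 0 := (zero_lt_one.trans_le hK1).ne'
  have hKt : K ≠ ⊤ := ENNReal.pow_ne_top (ENNReal.natCast_ne_top _)
  have hnrm : ∀ f ∈ V a, ∫⁻ x, ‖UBD.TT ι (k a) f x‖ₑ ^ 2 ∂ν = nrm w (k a) f := fun f hf => by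
    simp_rw [UBD.enorm_TT]
    exact hint _ (continuous_FF (ha f hf).2.1.1.continuousOn).measurable.ennreal_ofReal
  set A := K * (n * (K * Ik ι (k a) ρ')⁻¹) with hA
  set B := K * (n0 * (K * Ik ι (k a) (1 / 2))⁻¹) with hB
  have hb' : ∫⁻ Z, (R.indicator (fun _ => A) Z + (R \ Gd ι ρ).indicator (fun _ => B) Z +
      η a * D Z) ∂ν ≤ K * ENNReal.ofReal (n * cg (Fintype.card ι) * (ν R).toReal + ε) := by
    rw [lintegral_add_right _ (hD.const_mul _), lintegral_add_left (measurable_const.indicator hR),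
      lintegral_indicator_const hR, lintegral_indicator_const (hR.diff hGd),
      lintegral_const_mul _ hD]
    refine le_trans ?_ (mul_le_mul_right hb.le K)
    rw [mul_add, mul_add, hA, hB, mul_assoc K, mul_assoc K]
    exact add_le_add_right (le_mul_of_one_le_left zero_le hK1) _
  obtain ⟨r1, r2⟩ := hDIMU _ _ ν (V a) (UBD.TT ι (k a)) (fun Z => R.indicator (fun _ => A) Z +
      (R \ Gd ι ρ).indicator (fun _ => B) Z + η a * D Z)
    (fun f hf h => funext fun z => by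
      by_cases hz : z ∈ HS ι
      · refine (mul_eq_zero.1 (congrFun h ⟨z, hz⟩)).resolve_right ?_
        exact Complex.ofReal_ne_zero.2 (Real.sqrt_pos.2 (pow_pos (Ym_det_pos ⟨z, hz⟩) _)).ne'
      · exact (ha f hf).1 z hz)
    (fun f hf => (((ha f hf).2.1.1.continuousOn.comp_continuous continuous_subtype_val
      fun Z => Z.2).mul (Complex.continuous_ofReal.comp
        (continuous_Ym.matrix_det.pow _).sqrt)).measurable)
    (fun f hf => by rw [hnrm f hf]; exact (ha f hf).2.2.1)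
    (fun f hf Z => by
      obtain ⟨-, f1, f2, f3⟩ := ha f hf
      rw [hnrm f hf, UBD.enorm_TT]
      by_cases hZ : Z ∈ R
      · by_cases hG : Z ∈ Gd ι ρ
        · refine (UBD.pt ((hIK ι).2.2.1 _ _ h1) (ENNReal.natCast_ne_top n) f2 hK0 hKt
            (hB2 G w _ f n hw f1 hn Z hG)).trans (mul_le_mul_left ?_ _)
          rw [Set.indicator_of_mem hZ, add_assoc]
          exact le_self_add
        · refine (UBD.pt ((hIK ι).2.2.1 _ _ (by norm_num)) hn0 f2 hK0 hKt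
            (hB1 G w _ f hw f1 Z (Set.disjoint_left.1 hRS hZ))).trans (mul_le_mul_left ?_ _)
          rw [Set.indicator_of_mem (s := R \ Gd ι ρ) ⟨hZ, hG⟩]
          exact le_add_self.trans le_self_add
      · exact (f3 Z hZ).trans (mul_le_mul_left le_add_self _))
    (ne_top_of_le_ne_top (ENNReal.mul_ne_top hKt ENNReal.ofReal_ne_top) hb')
  refine ⟨r1, ?_⟩
  have h2 := ENNReal.toReal_mono (ENNReal.mul_ne_top hKt ENNReal.ofReal_ne_top) (r2.trans hb')
  rwa [ENNReal.toReal_natCast, ENNReal.toReal_mul, ENNReal.toReal_ofReal (by positivity), hK,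
    ENNReal.toReal_pow, ENNReal.toReal_natCast, mul_comm] at h2

end Pool.Agent.P.MP_59bdab_ag
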