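import Pool.Agent.P.MP_59bdab_ag.IfC

/-!
Pointwise bound of `wedge`.
-/

namespace Pool.Agent.P.MP_59bdab_ag

open Matrix MeasureTheory Filter Topology
open scoped ENNReal ContDiff ComplexOrder MatrixOrder

namespace WBD1

variable {κ : Type} [Fintype κ]

theorem hq_conj (P A : Matrix κ κ ℂ) (ζ : κ → ℂ) : hq (P * A * Pᴴ) ζ = hq A (ζ ᵥ* P) := by
  simp only [hq, star_vecMul, ← mulVec_mulVec, dotProduct_mulVec ζ P]

theorem hq_rank (a ζ : κ → ℂ) : hq (vecMulVec a (star a)) ζ = ((‖a ⬝ᵥ ζ‖ ^ 2 : ℝ) : ℂ) := by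
  rw [hq, vecMulVec_mulVec, op_smul_eq_smul, dotProduct_smul, smul_eq_mul, star_dotProduct_star,
    dotProduct_comm ζ a, Complex.star_def, Complex.conj_mul']
  norm_cast

theorem hq_sum {I : Type} (s : Finset I) (A : I → Matrix κ κ ℂ) (ζ : κ → ℂ) :
    hq (∑ i ∈ s, A i) ζ = ∑ i ∈ s, hq (A i) ζ := by
  simp only [hq, sum_mulVec, dotProduct_sum]

omit [Fintype κ] in
theorem sum_map {I : Type} (s : Finset I) (c : I → ℝ) (v : I → κ → ℝ) :
    (∑ i ∈ s, c i • vecMulVec (v i) (v i)).map ((↑) : ℝ → ℂ) =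
      ∑ i ∈ s, (c i : ℂ) • vecMulVec (fun a => (v i a : ℂ)) (star fun a => (v i a : ℂ)) := by
  ext a b
  simp [Matrix.sum_apply, vecMulVec_apply]

theorem hq_Om (L : Finset (κ → ℝ)) (y : κ → ℝ) (ζ : κ → ℂ) :
    hq ((Om L y).map (↑)) ζ = (omg L y ζ : ℂ) := by
  rw [Om, sum_map, hq_sum, omg, Complex.ofReal_sum]
  refine Finset.sum_congr rfl fun l _ => ?_
  rw [hq_smul, hq_rank, ← Complex.ofReal_mul, div_eq_inv_mul]

theorem psd_Om (L : Finset (κ → ℝ)) (y : κ → ℝ) :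
    ((Om L y).map ((↑) : ℝ → ℂ)).PosSemidef := by
  rw [Om, sum_map]
  exact posSemidef_sum _ fun l _ => (posSemidef_vecMulVec_self_star _).smul
    (Complex.zero_le_real.2 (by positivity))

variable [DecidableEq κ]

theorem hq_one (ζ : κ → ℂ) : hq 1 ζ = ((∑ a, ‖ζ a‖ ^ 2 : ℝ) : ℂ) := by
  simp [hq, dotProduct, Complex.mul_conj']

theorem entry_le {B : Matrix κ κ ℂ} {C : ℝ} (hC : 0 ≤ C)
    (h : ∀ ζ, ‖hq B ζ‖ ≤ C * ∑ a, ‖ζ a‖ ^ 2) (a b : κ) : ‖B a b‖ ≤ 4 * C := by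
  have h1 := hq_polar B (Pi.single a 1) (Pi.single b 1)
  have h4 : star (Pi.single b 1 : κ → ℂ) = Pi.single b 1 := by
    funext i; by_cases hi : i = b <;> simp [hi]
  have h2 : ∀ c : κ, ∑ i, ‖(Pi.single c 1 : κ → ℂ) i‖ ^ 2 = 1 := fun c => by
    rw [Finset.sum_eq_single c (fun i _ hi => by simp [hi]) (by simp)]
    simp
  have h3 : ∀ ζ : κ → ℂ, (∀ i, ‖ζ i‖ ≤ ‖(Pi.single a 1 : κ → ℂ) i‖ + ‖(Pi.single b 1 : κ → ℂ) i‖) →
      ‖hq B ζ‖ ≤ 4 * C := fun ζ hζ => by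
    have : ∑ i, ‖ζ i‖ ^ 2 ≤ ∑ i, (2 * ‖(Pi.single a 1 : κ → ℂ) i‖ ^ 2 +
        2 * ‖(Pi.single b 1 : κ → ℂ) i‖ ^ 2) := Finset.sum_le_sum fun i _ =>
      (pow_le_pow_left₀ (norm_nonneg _) (hζ i) 2).trans (by
        nlinarith [sq_nonneg (‖(Pi.single a 1 : κ → ℂ) i‖ - ‖(Pi.single b 1 : κ → ℂ) i‖)])
    rw [Finset.sum_add_distrib, ← Finset.mul_sum, ← Finset.mul_sum, h2, h2] at this
    exact (h ζ).trans ((mul_le_mul_of_nonneg_left this hC).trans_eq (by ring))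
  have h5 : ∀ i, ‖(Complex.I • (Pi.single b 1 : κ → ℂ)) i‖ = ‖(Pi.single b 1 : κ → ℂ) i‖ :=
    fun i => by rw [Pi.smul_apply, norm_smul, Complex.norm_I, one_mul]
  have a1 := h3 (Pi.single a 1 + Pi.single b 1) fun i => norm_add_le _ _
  have a2 := h3 (Pi.single a 1 - Pi.single b 1) fun i => norm_sub_le _ _
  have a3 := h3 (Pi.single a 1 + Complex.I • Pi.single b 1) fun i =>
    (norm_add_le _ _).trans_eq (by rw [h5 i])
  have a4 := h3 (Pi.single a 1 - Complex.I • Pi.single b 1) fun i =>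
    (norm_sub_le _ _).trans_eq (by rw [h5 i])
  have h6 : (Pi.single a 1 : κ → ℂ) ⬝ᵥ B *ᵥ star (Pi.single b 1) = B a b := by simp [h4]
  have h7 := congrArg norm h1
  rw [h6, norm_mul, Complex.norm_ofNat] at h7
  have h8 := h7.trans_le ((norm_add_le _ _).trans (add_le_add (norm_sub_le _ _)
    (((norm_mul _ _).trans (by rw [Complex.norm_I, one_mul])).trans_le (norm_sub_le _ _))))
  linarith

theorem bound (hWED : S_WED) {O : Matrix κ κ ℂ} (hO : O.PosDef) (C : κ → ℝ)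
    (A : κ → Matrix κ κ ℂ) (hC : ∀ l, 0 ≤ C l) (h : ∀ l ζ, ‖hq (A l) ζ‖ ≤ C l * (hq O ζ).re) :
    ‖wedge A‖ ≤ ‖O.det‖ * (((Fintype.card κ).factorial : ℝ) ^ 2 * ∏ l, 4 * C l) := by
  obtain ⟨S, rfl⟩ := CStarAlgebra.nonneg_iff_eq_star_mul_self.1 hO.posSemidef.nonneg
  have h0 := hO.det_pos.ne'
  rw [star_eq_conjTranspose] at *
  rw [det_mul] at h0
  have h1 : (Sᴴ)⁻¹ * Sᴴ = 1 := nonsing_inv_mul _ (left_ne_zero_of_mul h0).isUnit
  have h2 : (Sᴴ)⁻¹ * (Sᴴ * S) * ((Sᴴ)⁻¹)ᴴ = 1 := by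
    have := congrArg conjTranspose h1
    rw [conjTranspose_mul, conjTranspose_conjTranspose, conjTranspose_one] at this
    rw [← Matrix.mul_assoc, h1, Matrix.one_mul, this]
  have h3 := (hWED κ).2.2.2.2.2.2.1 (fun l => (Sᴴ)⁻¹ * A l * ((Sᴴ)⁻¹)ᴴ) (fun l => 4 * C l)
    fun l => entry_le (hC l) fun ζ => by
      rw [hq_conj]
      refine (h l _).trans_eq ?_
      rw [← hq_conj, h2, hq_one, Complex.ofReal_re]
  rw [(hWED κ).2.2.2.1] at h3
  have h4 := congrArg det h2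
  rw [det_mul, det_mul, det_one] at h4
  have h5 : wedge A = (Sᴴ * S).det * ((Sᴴ)⁻¹.det * ((Sᴴ)⁻¹)ᴴ.det * wedge A) := by
    linear_combination (-wedge A) * h4
  rw [h5, norm_mul]
  exact mul_le_mul_of_nonneg_left h3 (norm_nonneg _)

end WBD1

open WBD1 in
theorem p_WBD1 (hWED : S_WED) : S_WBD1 := by
  intro κ _ _
  refine ⟨((Fintype.card κ).factorial : ℝ) ^ 2 * 4 ^ Fintype.card κ, by positivity,
    fun L y C A hC h => ?_⟩
  have hp := psd_Om L y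
  have hd : ((Om L y).map ((↑) : ℝ → ℂ)).det = ((Om L y).det : ℂ) :=
    (Complex.ofRealHom.map_det (Om L y)).symm
  have h0 : 0 ≤ (Om L y).det := Complex.zero_le_real.1 (hd ▸ hp.det_nonneg)
  have hc : Continuous fun ε : ℝ => ‖((Om L y).map ((↑) : ℝ → ℂ) + (ε : ℂ) • 1).det‖ *
      (((Fintype.card κ).factorial : ℝ) ^ 2 * ∏ l, 4 * C l) :=
    ((continuous_const.add (Complex.continuous_ofReal.smul continuous_const)).matrix_det.norm).mul
      continuous_const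
  have h1 := ge_of_tendsto ((hc.tendsto 0).mono_left (nhdsWithin_le_nhds (s := Set.Ioi 0)))
    (eventually_mem_nhdsWithin.mono fun ε (hε : 0 < ε) => bound hWED
      (PosDef.posSemidef_add hp (PosDef.one.smul (Complex.zero_lt_real.2 hε))) C A hC
      fun l ζ => (h l ζ).trans (mul_le_mul_of_nonneg_left (by
        rw [hq_add, hq_smul, hq_Om, hq_one, ← Complex.ofReal_mul, ← Complex.ofReal_add,
          Complex.ofReal_re]
        exact le_add_of_nonneg_right (by positivity)) (hC l)))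
  refine h1.trans_eq ?_
  rw [Complex.ofReal_zero, zero_smul, add_zero, hd, Complex.norm_real, Real.norm_of_nonneg h0,
    Finset.prod_mul_distrib, Finset.prod_const, Finset.card_univ]
  ring

end Pool.Agent.P.MP_59bdab_ag
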